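import Pool.Agent.Lib_helper53.TP.WDefs

/-! Block ARF. -/

namespace Pool.Agent.TP

open Set Complex Finset

/-- The six darts of the two triangles of `d`. -/
structure ArfSix {D : Type} (c : Comb D) (v : D → ℂ) (d a1 a2 b0 b1 b2 : D) : Prop where
  e1 : c.next d = a1
  e2 : c.next a1 = a2
  e3 : c.next a2 = d
  e4 : c.opp d = b0
  e5 : c.opp b0 = d
  e6 : c.next b0 = b1
  e7 : c.next b1 = b2
  e8 : c.next b2 = b0
  d1 : d ≠ a1
  d2 : d ≠ a2
  d3 : d ≠ b0
  d4 : d ≠ b1
  d5 : d ≠ b2
  d6 : a1 ≠ a2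
  d7 : a1 ≠ b0
  d8 : a1 ≠ b1
  d9 : a1 ≠ b2
  d10 : a2 ≠ b0
  d11 : a2 ≠ b1
  d12 : a2 ≠ b2
  d13 : b0 ≠ b1
  d14 : b0 ≠ b2
  d15 : b1 ≠ b2
  w0 : v b0 = - v d
  wa : v d + v a1 + v a2 = 0
  wb : v b0 + v b1 + v b2 = 0

theorem arf_six {D : Type} (c : Comb D) (v : D → ℂ) (ok : IsTS c v) (d : D) :
    ArfSix c v d (c.next d) (c.next (c.next d)) (c.opp d) (c.next (c.opp d))
      (c.next (c.next (c.opp d))) := by
  have inj : ∀ x y, c.next x = c.next y → x = y := by
    intro x y h
    have := congrArg (fun z => c.next (c.next z)) h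
    simpa only [c.next3] using this
  have ne1 : ∀ x, x ≠ c.next x := by
    intro x h
    have := ok.pos x
    rw [← h] at this
    simp [cross] at this
    linarith [mul_comm (v x).re (v x).im]
  have ne2 : ∀ x, x ≠ c.next (c.next x) := by
    intro x h
    have h3 := c.next3 x
    rw [← h] at h3
    exact ne1 x h3.symm
  have o1 : ∀ x, c.opp x ≠ x := by
    intro x h
    have h2 := ok.opp_neg x
    rw [h] at h2
    have h3 : v x = 0 := by
      have : (2 : ℂ) * v x = 0 := by linear_combination h2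
      simpa using this
    have h4 := ok.pos x
    simp [cross, h3] at h4
  have o2 : ∀ x, c.opp x ≠ c.next x := by
    intro x h
    have h2 := ok.opp_neg x
    have h4 := ok.pos x
    rw [← h, h2] at h4
    simp [cross] at h4
    linarith [mul_comm (v x).re (v x).im]
  have o3 : ∀ x, c.opp x ≠ c.next (c.next x) := by
    intro x h
    have h2 := ok.opp_neg x
    have h4 := ok.pos (c.next (c.next x))
    rw [c.next3, ← h, h2] at h4
    simp [cross] at h4
    linarith [mul_comm (v x).re (v x).im]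
  have o4 : ∀ x, c.next (c.opp x) ≠ x := by
    intro x h
    have := o2 (c.opp x)
    rw [c.opp2] at this
    exact this h.symm
  have o5 : ∀ x, c.next (c.next (c.opp x)) ≠ x := by
    intro x h
    have := o3 (c.opp x)
    rw [c.opp2] at this
    exact this h.symm
  exact
  { e1 := rfl
    e2 := rfl
    e3 := c.next3 d
    e4 := rfl
    e5 := c.opp2 d
    e6 := rfl
    e7 := rfl
    e8 := c.next3 _
    d1 := ne1 d
    d2 := ne2 d
    d3 := fun h => o1 d h.symm
    d4 := fun h => o4 d h.symm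
    d5 := fun h => o5 d h.symm
    d6 := ne1 _
    d7 := fun h => o2 d h.symm
    d8 := fun h => o1 d (inj _ _ h.symm)
    d9 := fun h => o4 d (inj _ _ h.symm)
    d10 := fun h => o3 d h.symm
    d11 := fun h => o2 d (inj _ _ h.symm)
    d12 := fun h => o1 d (inj _ _ (inj _ _ h.symm))
    d13 := ne1 _
    d14 := ne2 _
    d15 := ne1 _
    w0 := ok.opp_neg d
    wa := ok.sum_zero d
    wb := ok.sum_zero _ }

theorem arf_next {D : Type} {c : Comb D} {v : D → ℂ} {d a1 a2 b0 b1 b2 : D}
    (h : ArfSix c v d a1 a2 b0 b1 b2) (x : D) (h3 : x ≠ a2) (h6 : x ≠ b2) :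
    c.next x ≠ d ∧ c.next x ≠ b0 := by
  have inj : ∀ x y, c.next x = c.next y → x = y := by
    intro x y h
    have := congrArg (fun z => c.next (c.next z)) h
    simpa only [c.next3] using this
  exact ⟨fun g => h3 (inj _ _ (g.trans h.e3.symm)), fun g => h6 (inj _ _ (g.trans h.e8.symm))⟩

theorem arf_main {D : Type} [Fintype D] {c c' : Comb D} {v v' : D → ℂ} {d a1 a2 b0 b1 b2 : D}
    (ok' : IsTS c' v') (h : ArfSix c v d a1 a2 b0 b1 b2) (o : ∀ x, c'.opp x = c.opp x)
    (n1 : c'.next b1 = d) (n2 : c'.next d = a2) (n3 : c'.next a2 = b1) (n4 : c'.next a1 = b0)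
    (n5 : c'.next b0 = b2) (n6 : c'.next b2 = a1)
    (nr : ∀ x, x ≠ d → x ≠ a1 → x ≠ a2 → x ≠ b0 → x ≠ b1 → x ≠ b2 → c'.next x = c.next x)
    (vr : ∀ x, x ≠ d → x ≠ b0 → v' x = v x) : area c' v' = area c v := by
  classical
  have key : ∑ x, (cross (v' x) (v' (c'.next x)) - cross (v x) (v (c.next x))) = 0 := by
    have h1 : ∑ x, (cross (v' x) (v' (c'.next x)) - cross (v x) (v (c.next x))) =
        ∑ x ∈ ({d, a1, a2, b0, b1, b2} : Finset D),
          (cross (v' x) (v' (c'.next x)) - cross (v x) (v (c.next x))) := by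
      symm
      apply Finset.sum_subset (Finset.subset_univ _)
      intro x _ hx
      simp only [Finset.mem_insert, Finset.mem_singleton, not_or] at hx
      obtain ⟨g1, g2, g3, g4, g5, g6⟩ := hx
      obtain ⟨k1, k2⟩ := arf_next h x g3 g6
      rw [nr x g1 g2 g3 g4 g5 g6, vr x g1 g4, vr _ k1 k2, sub_self]
    rw [h1]
    rw [Finset.sum_insert (by simp [h.d1, h.d2, h.d3, h.d4, h.d5]),
      Finset.sum_insert (by simp [h.d6, h.d7, h.d8, h.d9]),
      Finset.sum_insert (by simp [h.d10, h.d11, h.d12]),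
      Finset.sum_insert (by simp [h.d13, h.d14]),
      Finset.sum_insert (by simp [h.d15]), Finset.sum_singleton]
    rw [h.e1, h.e2, h.e3, h.e6, h.e7, h.e8, n1, n2, n3, n4, n5, n6]
    have va1 := vr a1 h.d1.symm h.d7
    have va2 := vr a2 h.d2.symm h.d10
    have vb1 := vr b1 h.d4.symm h.d13.symm
    have vb2 := vr b2 h.d5.symm h.d14.symm
    have wa := h.wa
    have wb := h.wb
    have w0 := h.w0
    have s1 := ok'.sum_zero d
    rw [n2, n3, va2, vb1] at s1
    have s2 := ok'.opp_neg d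
    rw [o, h.e4] at s2
    have q1 : v d = -(v a1 + v a2) := by linear_combination wa
    have q2 : v b0 = v a1 + v a2 := by rw [w0, q1]; ring
    have q3 : v b2 = -(v a1 + v a2 + v b1) := by linear_combination wb - q2
    have q4 : v' d = -(v a2 + v b1) := by linear_combination s1
    have q5 : v' b0 = v a2 + v b1 := by rw [s2, q4]; ring
    rw [va1, va2, vb1, vb2, q4, q5, q3, q2, q1]
    simp only [cross, neg_re, neg_im, add_re, add_im]
    ring
  rw [Finset.sum_sub_distrib] at key
  unfold area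
  rw [sub_eq_zero.1 key]

theorem area_flip {D : Type} [Fintype D] {c c' : Comb D} {v v' : D → ℂ} {d : D} (ok : IsTS c v)
    (ok' : IsTS c' v') (H : IsFlip c v d c' v') : area c' v' = area c v :=
  arf_main ok' (arf_six c v ok d) H.opp_eq H.n1 H.n2 H.n3 H.n4 H.n5 H.n6 H.rest H.vec

end Pool.Agent.TP
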