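import Pool.Agent.Lib_helper53.TP.WDefs

namespace Pool.Agent.TP

open Set Complex Finset

/-- the six darts around `d` are distinct -/
theorem sbe_distinct {D : Type} {c : Comb D} {v : D → ℂ} (ok : IsTS c v) (d : D) :
    c.next d ≠ d ∧ c.next (c.next d) ≠ d ∧ c.opp d ≠ d ∧ c.opp d ≠ c.next d ∧
    c.opp d ≠ c.next (c.next d) := by
  have h1 := ok.pos d
  have h2 := ok.pos (c.next d)
  have h3 := ok.pos (c.next (c.next d))
  rw [c.next3] at h3
  have ho := ok.opp_neg d
  refine ⟨?_, ?_, ?_, ?_, ?_⟩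
  · intro h; rw [h] at h1; simp [cross] at h1; linarith
  · intro h; rw [h] at h3; simp [cross] at h3; linarith
  · intro h
    rw [h] at ho
    have h0 : v d = 0 := by
      have : (2 : ℂ) * v d = 0 := by linear_combination ho
      simpa using this
    rw [h0] at h1; simp [cross] at h1
  · intro h
    rw [h] at ho; rw [ho] at h1; simp [cross] at h1; linarith
  · intro h
    rw [h] at ho; rw [ho] at h3; simp [cross] at h3; linarith

section
variable {D : Type} (c : Comb D) (v : D → ℂ) (d : D) (θ : ℝ)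

open Classical in
/-- new `next` -/
noncomputable def sbeNext : D ⊕ Fin 6 → D ⊕ Fin 6
  | Sum.inl x =>
      if x = d then Sum.inr 2
      else if x = c.next d then Sum.inr 3
      else if x = c.next (c.next d) then Sum.inl d
      else if x = c.opp d then Sum.inr 4
      else if x = c.next (c.opp d) then Sum.inr 5
      else if x = c.next (c.next (c.opp d)) then Sum.inl (c.opp d)
      else Sum.inl (c.next x)
  | Sum.inr 0 => Sum.inl (c.next d)
  | Sum.inr 1 => Sum.inl (c.next (c.opp d))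
  | Sum.inr 2 => Sum.inl (c.next (c.next d))
  | Sum.inr 3 => Sum.inr 0
  | Sum.inr 4 => Sum.inl (c.next (c.next (c.opp d)))
  | Sum.inr 5 => Sum.inr 1

open Classical in
/-- new `opp` -/
noncomputable def sbeOpp : D ⊕ Fin 6 → D ⊕ Fin 6
  | Sum.inl x =>
      if x = d then Sum.inr 1
      else if x = c.opp d then Sum.inr 0
      else Sum.inl (c.opp x)
  | Sum.inr 0 => Sum.inl (c.opp d)
  | Sum.inr 1 => Sum.inl d
  | Sum.inr 2 => Sum.inr 3
  | Sum.inr 3 => Sum.inr 2
  | Sum.inr 4 => Sum.inr 5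
  | Sum.inr 5 => Sum.inr 4

open Classical in
/-- new vectors -/
noncomputable def sbeVec : D ⊕ Fin 6 → ℂ
  | Sum.inl x =>
      if x = d then (θ : ℂ) * v d
      else if x = c.opp d then -((1 - θ : ℝ) * v d)
      else v x
  | Sum.inr 0 => (1 - θ : ℝ) * v d
  | Sum.inr 1 => -((θ : ℝ) * v d)
  | Sum.inr 2 => -((θ : ℝ) * v d) - v (c.next (c.next d))
  | Sum.inr 3 => (θ : ℝ) * v d + v (c.next (c.next d))
  | Sum.inr 4 => (1 - θ : ℝ) * v d - v (c.next (c.next (c.opp d)))
  | Sum.inr 5 => v (c.next (c.next (c.opp d))) - (1 - θ : ℝ) * v d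

end

/-- Case distinction for a dart. -/
theorem sbe_cases {D : Type} (c : Comb D) (d x : D) : x = d ∨ x = c.next d ∨
    x = c.next (c.next d) ∨ x = c.opp d ∨ x = c.next (c.opp d) ∨
    x = c.next (c.next (c.opp d)) ∨ (x ≠ d ∧ x ≠ c.next d ∧ x ≠ c.next (c.next d) ∧
      x ≠ c.opp d ∧ x ≠ c.next (c.opp d) ∧ x ≠ c.next (c.next (c.opp d))) := by
  tauto

theorem sbe_inj {D : Type} (c : Comb D) {x y : D} (h : c.next x = c.next y) : x = y := by
  have := congrArg (fun z => c.next (c.next z)) h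
  simpa [c.next3] using this

theorem sbe_opp_inj {D : Type} (c : Comb D) {x y : D} (h : c.opp x = c.opp y) : x = y := by
  have := congrArg c.opp h
  simpa [c.opp2] using this

/-- The fifteen inequalities. -/
structure SbeD {D : Type} (c : Comb D) (d : D) : Prop where
  a1 : d ≠ c.next d
  a2 : d ≠ c.next (c.next d)
  a3 : d ≠ c.opp d
  a4 : d ≠ c.next (c.opp d)
  a5 : d ≠ c.next (c.next (c.opp d))
  b2 : c.next d ≠ c.next (c.next d)
  b3 : c.next d ≠ c.opp d
  b4 : c.next d ≠ c.next (c.opp d)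
  b5 : c.next d ≠ c.next (c.next (c.opp d))
  c3 : c.next (c.next d) ≠ c.opp d
  c4 : c.next (c.next d) ≠ c.next (c.opp d)
  c5 : c.next (c.next d) ≠ c.next (c.next (c.opp d))
  d4 : c.opp d ≠ c.next (c.opp d)
  d5 : c.opp d ≠ c.next (c.next (c.opp d))
  e5 : c.next (c.opp d) ≠ c.next (c.next (c.opp d))

theorem sbeD {D : Type} {c : Comb D} {v : D → ℂ} (ok : IsTS c v) (d : D) : SbeD c d := by
  obtain ⟨h1, h2, h3, h4, h5⟩ := sbe_distinct ok d
  obtain ⟨g1, g2, g3, g4, g5⟩ := sbe_distinct ok (c.opp d)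
  rw [c.opp2] at g3 g4 g5
  refine ⟨h1.symm, h2.symm, h3.symm, g4, g5, ?_, h4.symm, ?_, ?_, h5.symm, ?_, ?_, g1.symm,
    g2.symm, ?_⟩
  · intro h; exact h1.symm (sbe_inj c h)
  · intro h; exact h3.symm (sbe_inj c h)
  · intro h; exact g4 (sbe_inj c h)
  · intro h; exact h4.symm (sbe_inj c h)
  · intro h; exact h3.symm (sbe_inj c (sbe_inj c h))
  · intro h; exact g1.symm (sbe_inj c h)

section
variable {D : Type} {c : Comb D} {v : D → ℂ} {d : D} {θ : ℝ}

theorem sbe_n0 : sbeNext c d (Sum.inl d) = Sum.inr 2 := by simp [sbeNext]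
theorem sbe_n1 (h : SbeD c d) : sbeNext c d (Sum.inl (c.next d)) = Sum.inr 3 := by
  simp [sbeNext, h.a1.symm]
theorem sbe_n2 (h : SbeD c d) : sbeNext c d (Sum.inl (c.next (c.next d))) = Sum.inl d := by
  simp [sbeNext, h.a2.symm, h.b2.symm]
theorem sbe_n3 (h : SbeD c d) : sbeNext c d (Sum.inl (c.opp d)) = Sum.inr 4 := by
  simp [sbeNext, h.a3.symm, h.b3.symm, h.c3.symm]
theorem sbe_n4 (h : SbeD c d) : sbeNext c d (Sum.inl (c.next (c.opp d))) = Sum.inr 5 := by
  simp [sbeNext, h.a4.symm, h.b4.symm, h.c4.symm, h.d4.symm]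
theorem sbe_n5 (h : SbeD c d) :
    sbeNext c d (Sum.inl (c.next (c.next (c.opp d)))) = Sum.inl (c.opp d) := by
  simp [sbeNext, h.a5.symm, h.b5.symm, h.c5.symm, h.d5.symm, h.e5.symm]
theorem sbe_n6 {x : D} (hx : x ≠ d ∧ x ≠ c.next d ∧ x ≠ c.next (c.next d) ∧
      x ≠ c.opp d ∧ x ≠ c.next (c.opp d) ∧ x ≠ c.next (c.next (c.opp d))) :
    sbeNext c d (Sum.inl x) = Sum.inl (c.next x) := by
  obtain ⟨h1, h2, h3, h4, h5, h6⟩ := hx
  simp [sbeNext, h1, h2, h3, h4, h5, h6]

theorem sbe_other {x : D} (hx : x ≠ d ∧ x ≠ c.next d ∧ x ≠ c.next (c.next d) ∧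
      x ≠ c.opp d ∧ x ≠ c.next (c.opp d) ∧ x ≠ c.next (c.next (c.opp d))) :
    c.next x ≠ d ∧ c.next x ≠ c.next d ∧ c.next x ≠ c.next (c.next d) ∧
      c.next x ≠ c.opp d ∧ c.next x ≠ c.next (c.opp d) ∧
      c.next x ≠ c.next (c.next (c.opp d)) := by
  obtain ⟨h1, h2, h3, h4, h5, h6⟩ := hx
  refine ⟨fun h => h3 ?_, fun h => h1 (sbe_inj c h), fun h => h2 (sbe_inj c h), fun h => h6 ?_,
    fun h => h4 (sbe_inj c h), fun h => h5 (sbe_inj c h)⟩
  · rw [← h, c.next3]
  · rw [← h, c.next3]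

theorem sbe_o0 : sbeOpp c d (Sum.inl d) = Sum.inr 1 := by simp [sbeOpp]
theorem sbe_o1 (h : SbeD c d) : sbeOpp c d (Sum.inl (c.opp d)) = Sum.inr 0 := by
  simp [sbeOpp, h.a3.symm]
theorem sbe_o2 {x : D} (h1 : x ≠ d) (h2 : x ≠ c.opp d) :
    sbeOpp c d (Sum.inl x) = Sum.inl (c.opp x) := by
  simp [sbeOpp, h1, h2]

theorem sbe_v0 : sbeVec c v d θ (Sum.inl d) = (θ : ℂ) * v d := by simp [sbeVec]
theorem sbe_v1 (h : SbeD c d) :
    sbeVec c v d θ (Sum.inl (c.opp d)) = -((1 - θ : ℝ) * v d) := by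
  simp [sbeVec, h.a3.symm]
theorem sbe_v2 {x : D} (h1 : x ≠ d) (h2 : x ≠ c.opp d) :
    sbeVec c v d θ (Sum.inl x) = v x := by
  simp [sbeVec, h1, h2]

end

/-- The subdivided combinatorial surface. -/
noncomputable def sbeComb {D : Type} (c : Comb D) (d : D) (h : SbeD c d) : Comb (D ⊕ Fin 6) where
  next := sbeNext c d
  opp := sbeOpp c d
  next3 := by
    rintro (x | i)
    · rcases sbe_cases c d x with e | e | e | e | e | e | e
      · rw [e, sbe_n0]; exact sbe_n2 h
      · rw [e, sbe_n1 h]; rfl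
      · rw [e, sbe_n2 h, sbe_n0]; rfl
      · rw [e, sbe_n3 h]; exact sbe_n5 h
      · rw [e, sbe_n4 h]; rfl
      · rw [e, sbe_n5 h, sbe_n3 h]; rfl
      · rw [sbe_n6 e, sbe_n6 (sbe_other e), sbe_n6 (sbe_other (sbe_other e)), c.next3]
    · fin_cases i
      · change sbeNext c d (sbeNext c d (Sum.inl (c.next d))) = Sum.inr 0
        rw [sbe_n1 h]; rfl
      · change sbeNext c d (sbeNext c d (Sum.inl (c.next (c.opp d)))) = Sum.inr 1
        rw [sbe_n4 h]; rfl
      · change sbeNext c d (sbeNext c d (Sum.inl (c.next (c.next d)))) = Sum.inr 2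
        rw [sbe_n2 h]; exact sbe_n0
      · change sbeNext c d (Sum.inl (c.next d)) = Sum.inr 3
        exact sbe_n1 h
      · change sbeNext c d (sbeNext c d (Sum.inl (c.next (c.next (c.opp d))))) = Sum.inr 4
        rw [sbe_n5 h]; exact sbe_n3 h
      · change sbeNext c d (Sum.inl (c.next (c.opp d))) = Sum.inr 5
        exact sbe_n4 h
  opp2 := by
    rintro (x | i)
    · by_cases h1 : x = d
      · rw [h1, sbe_o0]; rfl
      · by_cases h2 : x = c.opp d
        · rw [h2, sbe_o1 h]; rfl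
        · rw [sbe_o2 h1 h2, sbe_o2, c.opp2]
          · intro h3; apply h2; rw [← h3, c.opp2]
          · intro h3; exact h1 (sbe_opp_inj c h3)
    · fin_cases i
      · exact sbe_o1 h
      · exact sbe_o0
      · rfl
      · rfl
      · rfl
      · rfl
  conn := by
    intro T hT hn ho
    have tp : Sum.inr 0 ∈ T → Sum.inl (c.next d) ∈ T := fun hx => hn _ hx
    have tq : Sum.inr 1 ∈ T → Sum.inl (c.next (c.opp d)) ∈ T := fun hx => hn _ hx
    have tm : Sum.inr 2 ∈ T → Sum.inl (c.next (c.next d)) ∈ T := fun hx => hn _ hx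
    have tm' : Sum.inr 3 ∈ T → Sum.inr 0 ∈ T := fun hx => hn _ hx
    have tk : Sum.inr 4 ∈ T → Sum.inl (c.next (c.next (c.opp d))) ∈ T := fun hx => hn _ hx
    have tk' : Sum.inr 5 ∈ T → Sum.inr 1 ∈ T := fun hx => hn _ hx
    have omm : Sum.inr 2 ∈ T → Sum.inr 3 ∈ T := fun hx => ho _ hx
    have omm' : Sum.inr 3 ∈ T → Sum.inr 2 ∈ T := fun hx => ho _ hx
    have okk : Sum.inr 4 ∈ T → Sum.inr 5 ∈ T := fun hx => ho _ hx
    have okk' : Sum.inr 5 ∈ T → Sum.inr 4 ∈ T := fun hx => ho _ hx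
    have g0 : Sum.inl d ∈ T → Sum.inr 2 ∈ T := fun hx => by
      have := hn _ hx; rwa [sbe_n0] at this
    have g1 : Sum.inl (c.next d) ∈ T → Sum.inr 3 ∈ T := fun hx => by
      have := hn _ hx; rwa [sbe_n1 h] at this
    have g2 : Sum.inl (c.next (c.next d)) ∈ T → Sum.inl d ∈ T := fun hx => by
      have := hn _ hx; rwa [sbe_n2 h] at this
    have g3 : Sum.inl (c.opp d) ∈ T → Sum.inr 4 ∈ T := fun hx => by
      have := hn _ hx; rwa [sbe_n3 h] at this
    have g4 : Sum.inl (c.next (c.opp d)) ∈ T → Sum.inr 5 ∈ T := fun hx => by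
      have := hn _ hx; rwa [sbe_n4 h] at this
    have g5 : Sum.inl (c.next (c.next (c.opp d))) ∈ T → Sum.inl (c.opp d) ∈ T := fun hx => by
      have := hn _ hx; rwa [sbe_n5 h] at this
    have f0 : Sum.inl d ∈ T → Sum.inr 1 ∈ T := fun hx => by
      have := ho _ hx; rwa [sbe_o0] at this
    have f1 : Sum.inl (c.opp d) ∈ T → Sum.inr 0 ∈ T := fun hx => by
      have := ho _ hx; rwa [sbe_o1 h] at this
    have hall : {x | Sum.inl x ∈ T} = univ := by
      apply c.conn
      · obtain ⟨y, hy⟩ := hT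
        rcases y with x | i
        · exact ⟨x, hy⟩
        · fin_cases i
          · exact ⟨_, tp hy⟩
          · exact ⟨_, tq hy⟩
          · exact ⟨_, tm hy⟩
          · exact ⟨_, tp (tm' hy)⟩
          · exact ⟨_, tk hy⟩
          · exact ⟨_, tq (tk' hy)⟩
      · intro x hx
        simp only [mem_setOf_eq] at hx ⊢
        rcases sbe_cases c d x with e | e | e | e | e | e | e
        · rw [e] at hx ⊢; exact tp (tm' (omm (g0 hx)))
        · rw [e] at hx ⊢; exact tm (omm' (g1 hx))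
        · rw [e] at hx ⊢; rw [c.next3]; exact g2 hx
        · rw [e] at hx ⊢; exact tq (tk' (okk (g3 hx)))
        · rw [e] at hx ⊢; exact tk (okk' (g4 hx))
        · rw [e] at hx ⊢; rw [c.next3]; exact g5 hx
        · have := hn _ hx; rwa [sbe_n6 e] at this
      · intro x hx
        simp only [mem_setOf_eq] at hx ⊢
        by_cases h1 : x = d
        · rw [h1] at hx ⊢
          exact g5 (tk (okk' (g4 (tq (f0 hx)))))
        · by_cases h2 : x = c.opp d
          · rw [h2] at hx ⊢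
            rw [c.opp2]
            exact g2 (tm (omm' (g1 (tp (f1 hx)))))
          · have := ho _ hx; rwa [sbe_o2 h1 h2] at this
    have hx : ∀ x, Sum.inl x ∈ T := fun x => by
      have : x ∈ {x | Sum.inl x ∈ T} := by rw [hall]; trivial
      exact this
    ext y
    simp only [mem_univ, iff_true]
    rcases y with x | i
    · exact hx x
    · fin_cases i
      · exact f1 (hx _)
      · exact f0 (hx _)
      · exact g0 (hx _)
      · exact g1 (hx _)
      · exact g3 (hx _)
      · exact g4 (hx _)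

theorem sbe_cross_neg (z w : ℂ) : cross z w = -cross w z := by simp [cross]; ring

theorem sbe_ok {D : Type} {c : Comb D} {v : D → ℂ} (ok : IsTS c v) (d : D) {θ : ℝ} (h0 : 0 < θ)
    (h1 : θ < 1) (h : SbeD c d) : IsTS (sbeComb c d h) (sbeVec c v d θ) := by
  have s1 := ok.sum_zero d
  have s2 := ok.sum_zero (c.opp d)
  rw [ok.opp_neg] at s2
  have p1 := ok.pos d
  have p2 := ok.pos (c.next d)
  have p3 := ok.pos (c.next (c.next d))
  have q1 := ok.pos (c.opp d)
  have q2 := ok.pos (c.next (c.opp d))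
  have q3 := ok.pos (c.next (c.next (c.opp d)))
  rw [c.next3] at p3 q3
  rw [ok.opp_neg] at q1 q3
  have hθ : 0 < 1 - θ := by linarith
  have w1 : sbeVec c v d θ (Sum.inl (c.next d)) = v (c.next d) := sbe_v2 h.a1.symm h.b3
  have w2 : sbeVec c v d θ (Sum.inl (c.next (c.next d))) = v (c.next (c.next d)) :=
    sbe_v2 h.a2.symm h.c3
  have w4 : sbeVec c v d θ (Sum.inl (c.next (c.opp d))) = v (c.next (c.opp d)) :=
    sbe_v2 h.a4.symm h.d4.symm
  have w5 : sbeVec c v d θ (Sum.inl (c.next (c.next (c.opp d)))) = v (c.next (c.next (c.opp d))) :=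
    sbe_v2 h.a5.symm h.d5.symm
  have w0 : sbeVec c v d θ (Sum.inl d) = (θ : ℂ) * v d := sbe_v0
  have w3 : sbeVec c v d θ (Sum.inl (c.opp d)) = -((1 - θ : ℝ) * v d) := sbe_v1 h
  have e0 : sbeVec c v d θ (Sum.inr 0) = (1 - θ : ℝ) * v d := rfl
  have e1 : sbeVec c v d θ (Sum.inr 1) = -((θ : ℝ) * v d) := rfl
  have e2 : sbeVec c v d θ (Sum.inr 2) = -((θ : ℝ) * v d) - v (c.next (c.next d)) := rfl
  have e3 : sbeVec c v d θ (Sum.inr 3) = (θ : ℝ) * v d + v (c.next (c.next d)) := rfl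
  have e4 : sbeVec c v d θ (Sum.inr 4) = (1 - θ : ℝ) * v d - v (c.next (c.next (c.opp d))) := rfl
  have e5 : sbeVec c v d θ (Sum.inr 5) = v (c.next (c.next (c.opp d))) - (1 - θ : ℝ) * v d := rfl
  have hn0 : (sbeComb c d h).next (Sum.inl d) = Sum.inr 2 := sbe_n0
  have hn1 : (sbeComb c d h).next (Sum.inl (c.next d)) = Sum.inr 3 := sbe_n1 h
  have hn2 : (sbeComb c d h).next (Sum.inl (c.next (c.next d))) = Sum.inl d := sbe_n2 h
  have hn3 : (sbeComb c d h).next (Sum.inl (c.opp d)) = Sum.inr 4 := sbe_n3 h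
  have hn4 : (sbeComb c d h).next (Sum.inl (c.next (c.opp d))) = Sum.inr 5 := sbe_n4 h
  have hn5 : (sbeComb c d h).next (Sum.inl (c.next (c.next (c.opp d)))) = Sum.inl (c.opp d) :=
    sbe_n5 h
  have hm0 : (sbeComb c d h).next (Sum.inr 0) = Sum.inl (c.next d) := rfl
  have hm1 : (sbeComb c d h).next (Sum.inr 1) = Sum.inl (c.next (c.opp d)) := rfl
  have hm2 : (sbeComb c d h).next (Sum.inr 2) = Sum.inl (c.next (c.next d)) := rfl
  have hm3 : (sbeComb c d h).next (Sum.inr 3) = Sum.inr 0 := rfl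
  have hm4 : (sbeComb c d h).next (Sum.inr 4) = Sum.inl (c.next (c.next (c.opp d))) := rfl
  have hm5 : (sbeComb c d h).next (Sum.inr 5) = Sum.inr 1 := rfl
  have t1 : (v (c.next d)).re = -(v d).re - (v (c.next (c.next d))).re := by
    have := congrArg Complex.re s1; simp at this; linarith
  have t2 : (v (c.next d)).im = -(v d).im - (v (c.next (c.next d))).im := by
    have := congrArg Complex.im s1; simp at this; linarith
  have t3 : (v (c.next (c.opp d))).re = (v d).re - (v (c.next (c.next (c.opp d)))).re := by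
    have := congrArg Complex.re s2; simp at this; linarith
  have t4 : (v (c.next (c.opp d))).im = (v d).im - (v (c.next (c.next (c.opp d)))).im := by
    have := congrArg Complex.im s2; simp at this; linarith
  have P : 0 < (v (c.next (c.next d))).re * (v d).im - (v (c.next (c.next d))).im * (v d).re := p3
  have Q : 0 < (v d).re * (v (c.next (c.next (c.opp d)))).im -
      (v d).im * (v (c.next (c.next (c.opp d)))).re := by
    have := q3; simp [cross] at this; linarith
  have P1 := mul_pos h0 P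
  have P2 := mul_pos hθ P
  have Q1 := mul_pos h0 Q
  have Q2 := mul_pos hθ Q
  refine ⟨?_, ?_, ?_⟩
  · rintro (x | i)
    · by_cases h1 : x = d
      · rw [h1]
        change sbeVec c v d θ (sbeOpp c d (Sum.inl d)) = _
        rw [sbe_o0, w0]; rfl
      · by_cases h2 : x = c.opp d
        · rw [h2]
          change sbeVec c v d θ (sbeOpp c d (Sum.inl (c.opp d))) = _
          rw [sbe_o1 h, w3, e0]; ring
        · change sbeVec c v d θ (sbeOpp c d (Sum.inl x)) = _
          rw [sbe_o2 h1 h2, sbe_v2 h1 h2, sbe_v2, ok.opp_neg]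
          · intro h3; apply h2; rw [← h3, c.opp2]
          · intro h3; exact h1 (sbe_opp_inj c h3)
    · fin_cases i
      · exact w3
      · change sbeVec c v d θ (Sum.inl d) = _
        rw [w0]; change _ = -(-((θ : ℝ) * v d)); ring
      · change sbeVec c v d θ (Sum.inr 3) = -sbeVec c v d θ (Sum.inr 2)
        rw [e2, e3]; ring
      · change sbeVec c v d θ (Sum.inr 2) = -sbeVec c v d θ (Sum.inr 3)
        rw [e2, e3]; ring
      · change sbeVec c v d θ (Sum.inr 5) = -sbeVec c v d θ (Sum.inr 4)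
        rw [e4, e5]; ring
      · change sbeVec c v d θ (Sum.inr 4) = -sbeVec c v d θ (Sum.inr 5)
        rw [e4, e5]; ring
  · rintro (x | i)
    · rcases sbe_cases c d x with e | e | e | e | e | e | e
      · rw [e, hn0, hm2, w0, e2, w2]; ring
      · rw [e, hn1, hm3, w1, e3, e0]; push_cast; linear_combination s1
      · rw [e, hn2, hn0, w2, w0, e2]; ring
      · rw [e, hn3, hm4, w3, e4, w5]; ring
      · rw [e, hn4, hm5, w4, e5, e1]; push_cast; linear_combination s2
      · rw [e, hn5, hn3, w5, w3, e4]; ring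
      · have f1 : (sbeComb c d h).next (Sum.inl x) = Sum.inl (c.next x) := sbe_n6 e
        have f2 : (sbeComb c d h).next (Sum.inl (c.next x)) = Sum.inl (c.next (c.next x)) :=
          sbe_n6 (sbe_other e)
        have k1 := e
        have k2 := sbe_other e
        have k3 := sbe_other k2
        rw [f1, f2, sbe_v2 k1.1 k1.2.2.2.1, sbe_v2 k2.1 k2.2.2.2.1, sbe_v2 k3.1 k3.2.2.2.1]
        exact ok.sum_zero x
    · fin_cases i
      · change sbeVec c v d θ (Sum.inr 0) + sbeVec c v d θ (Sum.inl (c.next d)) +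
          sbeVec c v d θ ((sbeComb c d h).next (Sum.inl (c.next d))) = 0
        rw [hn1, w1, e3, e0]; push_cast; linear_combination s1
      · change sbeVec c v d θ (Sum.inr 1) + sbeVec c v d θ (Sum.inl (c.next (c.opp d))) +
          sbeVec c v d θ ((sbeComb c d h).next (Sum.inl (c.next (c.opp d)))) = 0
        rw [hn4, w4, e5, e1]; push_cast; linear_combination s2
      · change sbeVec c v d θ (Sum.inr 2) + sbeVec c v d θ (Sum.inl (c.next (c.next d))) +
          sbeVec c v d θ ((sbeComb c d h).next (Sum.inl (c.next (c.next d)))) = 0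
        rw [hn2, w2, w0, e2]; ring
      · change sbeVec c v d θ (Sum.inr 3) + sbeVec c v d θ (Sum.inr 0) +
          sbeVec c v d θ (Sum.inl (c.next d)) = 0
        rw [w1, e3, e0]; push_cast; linear_combination s1
      · change sbeVec c v d θ (Sum.inr 4) + sbeVec c v d θ (Sum.inl (c.next (c.next (c.opp d)))) +
          sbeVec c v d θ ((sbeComb c d h).next (Sum.inl (c.next (c.next (c.opp d))))) = 0
        rw [hn5, w5, w3, e4]; ring
      · change sbeVec c v d θ (Sum.inr 5) + sbeVec c v d θ (Sum.inr 1) +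
          sbeVec c v d θ (Sum.inl (c.next (c.opp d))) = 0
        rw [w4, e5, e1]; push_cast; linear_combination s2
  · rintro (x | i)
    · rcases sbe_cases c d x with e | e | e | e | e | e | e
      · rw [e, hn0, w0, e2]; simp [cross]; nlinarith
      · rw [e, hn1, w1, e3]; simp [cross, t1, t2]; nlinarith
      · rw [e, hn2, w2, w0]; simp [cross]; nlinarith
      · rw [e, hn3, w3, e4]; simp [cross]; nlinarith
      · rw [e, hn4, w4, e5]; simp [cross, t3, t4]; nlinarith
      · rw [e, hn5, w5, w3]; simp [cross]; nlinarith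
      · have f1 : (sbeComb c d h).next (Sum.inl x) = Sum.inl (c.next x) := sbe_n6 e
        have k1 := e
        have k2 := sbe_other e
        rw [f1, sbe_v2 k1.1 k1.2.2.2.1, sbe_v2 k2.1 k2.2.2.2.1]
        exact ok.pos x
    · fin_cases i
      · change 0 < cross (sbeVec c v d θ (Sum.inr 0)) (sbeVec c v d θ (Sum.inl (c.next d)))
        rw [w1, e0]; simp [cross, t1, t2]; nlinarith
      · change 0 < cross (sbeVec c v d θ (Sum.inr 1)) (sbeVec c v d θ (Sum.inl (c.next (c.opp d))))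
        rw [w4, e1]; simp [cross, t3, t4]; nlinarith
      · change 0 < cross (sbeVec c v d θ (Sum.inr 2)) (sbeVec c v d θ (Sum.inl (c.next (c.next d))))
        rw [w2, e2]; simp [cross]; nlinarith
      · change 0 < cross (sbeVec c v d θ (Sum.inr 3)) (sbeVec c v d θ (Sum.inr 0))
        rw [e3, e0]; simp [cross]; nlinarith
      · change 0 < cross (sbeVec c v d θ (Sum.inr 4))
          (sbeVec c v d θ (Sum.inl (c.next (c.next (c.opp d)))))
        rw [w5, e4]; simp [cross]; nlinarith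
      · change 0 < cross (sbeVec c v d θ (Sum.inr 5)) (sbeVec c v d θ (Sum.inr 1))
        rw [e5, e1]; simp [cross]; nlinarith

theorem sub_exists (x : PS) (d : x.D) (θ : ℝ) (h0 : 0 < θ) (h1 : θ < 1) :
    ∃ (y : PS) (ι : x.D → y.D) (p q m m' k k' : y.D),
      IsSubdiv x.c x.v d θ y.c y.v ι p q m m' k k' := by
  have h := sbeD x.ok d
  haveI := x.fin
  refine ⟨⟨x.D ⊕ Fin 6, inferInstance, inferInstance, sbeComb x.c d h, sbeVec x.c x.v d θ,
    sbe_ok x.ok d h0 h1 h⟩, Sum.inl, Sum.inr 0, Sum.inr 1, Sum.inr 2, Sum.inr 3, Sum.inr 4,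
    Sum.inr 5, ?_⟩
  refine ⟨Sum.inl_injective, ?_, ?_, ?_, sbe_n0, rfl, sbe_n2 h, rfl, sbe_n1 h, rfl, sbe_n3 h, rfl,
    sbe_n5 h, rfl, sbe_n4 h, rfl, ?_, sbe_o0, rfl, rfl, rfl, ?_, ⟨h0, h1⟩, sbe_v0, ?_⟩
  · rintro (y | i)
    · exact Or.inl ⟨y, rfl⟩
    · right
      fin_cases i <;> simp
  · intro y
    simp
  · simp
  · intro y e1 e2 e3 e4 e5 e6
    exact sbe_n6 ⟨e1, e2, e3, e4, e5, e6⟩
  · intro y e1 e2
    exact sbe_o2 e1 e2
  · intro y e1 e2
    exact sbe_v2 e1 e2

theorem subdiv_vec {D D' : Type} {c : Comb D} {v : D → ℂ} {d : D} {θ : ℝ} {c' : Comb D'}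
    {v' : D' → ℂ} {ι : D → D'} {p q m m' k k' : D'} (ok : IsTS c v) (ok' : IsTS c' v')
    (H : IsSubdiv c v d θ c' v' ι p q m m' k k') :
    v' p = (1 - θ : ℝ) * v d ∧ v' q = -((θ : ℝ) * v d) ∧
    v' (ι (c.opp d)) = -((1 - θ : ℝ) * v d) ∧
    v' m = -((θ : ℝ) * v d) - v (c.next (c.next d)) ∧
    v' m' = (θ : ℝ) * v d + v (c.next (c.next d)) ∧
    v' k = (1 - θ : ℝ) * v d - v (c.next (c.next (c.opp d))) ∧
    v' k' = v (c.next (c.next (c.opp d))) - (1 - θ : ℝ) * v d := by
  have h := sbeD ok d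
  have w1 : v' (ι (c.next d)) = v (c.next d) := H.vec _ h.a1.symm h.b3
  have w2 : v' (ι (c.next (c.next d))) = v (c.next (c.next d)) := H.vec _ h.a2.symm h.c3
  have w5 : v' (ι (c.next (c.next (c.opp d)))) = v (c.next (c.next (c.opp d))) :=
    H.vec _ h.a5.symm h.d5.symm
  have s1 := ok.sum_zero d
  have hq : v' q = -((θ : ℝ) * v d) := by
    rw [← H.o1, ok'.opp_neg, H.vec_d]
  have hm : v' m = -((θ : ℝ) * v d) - v (c.next (c.next d)) := by
    have := ok'.sum_zero (ι d)
    rw [H.n1, H.n2, H.vec_d, w2] at this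
    linear_combination this
  have hm' : v' m' = (θ : ℝ) * v d + v (c.next (c.next d)) := by
    rw [← H.o3, ok'.opp_neg, hm]; ring
  have hp : v' p = (1 - θ : ℝ) * v d := by
    have := ok'.sum_zero p
    rw [H.n4, H.n5, w1, hm'] at this
    push_cast
    linear_combination this - s1
  have he : v' (ι (c.opp d)) = -((1 - θ : ℝ) * v d) := by
    rw [← H.o2, ok'.opp_neg, hp]
  have hk : v' k = (1 - θ : ℝ) * v d - v (c.next (c.next (c.opp d))) := by
    have := ok'.sum_zero (ι (c.opp d))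
    rw [H.n7, H.n8, he, w5] at this
    linear_combination this
  have hk' : v' k' = v (c.next (c.next (c.opp d))) - (1 - θ : ℝ) * v d := by
    rw [← H.o4, ok'.opp_neg, hk]; ring
  exact ⟨hp, hq, he, hm, hm', hk, hk'⟩

end Pool.Agent.TP
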