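import Pool.Agent.Lib_helper53.TP.WDefs
import Pool.Agent.Lib_helper53.TP.B.SBE

/-!
# ARS: the area of a subdivision
-/

namespace Pool.Agent.TP

open Set Complex Finset

/-- The three darts of a triangle are distinct, and `opp d` is not in the triangle of `d`. -/
theorem ars_dist {D : Type} {c : Comb D} {v : D → ℂ} (ok : IsTS c v) (d : D) :
    c.next d ≠ d ∧ c.next (c.next d) ≠ d ∧ c.next (c.next d) ≠ c.next d ∧ c.opp d ≠ d ∧
      c.opp d ≠ c.next d ∧ c.opp d ≠ c.next (c.next d) := by
  have key : ∀ x, c.next x ≠ x := by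
    intro x hx
    have h := ok.pos x
    rw [hx] at h
    simp only [cross] at h
    linarith [h]
  have hop : ∀ x, c.opp x ≠ x := by
    intro x hx
    have h := ok.opp_neg x
    have hp := ok.pos x
    rw [hx] at h
    have h1 := congrArg Complex.re h
    have h2 := congrArg Complex.im h
    simp only [Complex.neg_re, Complex.neg_im] at h1 h2
    have e1 : (v x).re = 0 := by linarith
    have e2 : (v x).im = 0 := by linarith
    simp only [cross, e1, e2] at hp
    simp at hp
  have hon : ∀ x, c.opp x ≠ c.next x := by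
    intro x hx
    have h := ok.opp_neg x
    have hp := ok.pos x
    rw [hx] at h
    simp only [cross, h, Complex.neg_re, Complex.neg_im] at hp
    linarith [hp]
  refine ⟨key d, ?_, key _, hop d, hon d, ?_⟩
  · intro h
    have := key (c.next (c.next d))
    rw [c.next3 d] at this
    exact this h.symm
  · intro h
    have h1 := hon (c.next (c.next d))
    rw [c.next3 d, ← h, c.opp2 d] at h1
    exact h1 rfl

theorem ars_next_inj {D : Type} (c : Comb D) {x y : D} (h : c.next x = c.next y) : x = y := by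
  rw [← c.next3 x, ← c.next3 y, h]

theorem ars_cross {D : Type} {c : Comb D} {v : D → ℂ} (ok : IsTS c v) (d : D) :
    cross (v (c.next d)) (v (c.next (c.next d))) = cross (v d) (v (c.next d)) := by
  have h := ok.sum_zero d
  have h1 := congrArg Complex.re h
  have h2 := congrArg Complex.im h
  simp only [Complex.add_re, Complex.add_im, Complex.zero_re, Complex.zero_im] at h1 h2
  have e1 : (v (c.next (c.next d))).re = - (v d).re - (v (c.next d)).re := by linarith
  have e2 : (v (c.next (c.next d))).im = - (v d).im - (v (c.next d)).im := by linarith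
  simp only [cross, e1, e2]
  ring

theorem ars_equiv {D D' : Type} {c : Comb D}
    {v : D → ℂ} {d : D} {θ : ℝ}
    {c' : Comb D'} {v' : D' → ℂ} {ι : D → D'} {p q m m' k k' : D'}
    (H : IsSubdiv c v d θ c' v' ι p q m m' k k') :
    Function.Bijective (Sum.elim ι ![p, q, m, m', k, k'] : D ⊕ Fin 6 → D') := by
  have hd := H.distinct
  constructor
  · rintro (x | i) (y | j) hxy
    · exact congrArg _ (H.inj hxy)
    · exfalso
      have hf := H.fresh x
      fin_cases j <;> simp at hxy <;> simp_all
    · exfalso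
      have hf := H.fresh y
      fin_cases i <;> simp at hxy <;> simp_all
    · refine congrArg _ ?_
      simp only [Sum.elim_inr] at hxy
      simp only [List.nodup_cons, List.mem_cons, List.not_mem_nil, or_false, not_or] at hd
      obtain ⟨⟨h1, h2, h3, h4, h5⟩, ⟨h6, h7, h8, h9⟩, ⟨h10, h11, h12⟩, ⟨h13, h14⟩, h15, -⟩ := hd
      fin_cases i <;> fin_cases j <;> simp at hxy <;> first | rfl | (exfalso; simp_all)
  · intro x
    rcases H.cover x with ⟨y, rfl⟩ | rfl | rfl | rfl | rfl | rfl | rfl
    · exact ⟨Sum.inl y, rfl⟩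
    · exact ⟨Sum.inr 0, rfl⟩
    · exact ⟨Sum.inr 1, rfl⟩
    · exact ⟨Sum.inr 2, rfl⟩
    · exact ⟨Sum.inr 3, rfl⟩
    · exact ⟨Sum.inr 4, rfl⟩
    · exact ⟨Sum.inr 5, rfl⟩

theorem ars_sum {D D' : Type} [Fintype D] [Fintype D'] {c : Comb D} {v : D → ℂ} {d : D} {θ : ℝ}
    {c' : Comb D'} {v' : D' → ℂ} {ι : D → D'} {p q m m' k k' : D'}
    (H : IsSubdiv c v d θ c' v' ι p q m m' k k') (f : D' → ℝ) :
    ∑ x, f x = ∑ x, f (ι x) + (f p + f q + f m + f m' + f k + f k') := by
  rw [← (Equiv.ofBijective _ (ars_equiv H)).sum_comp, Fintype.sum_sum_type]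
  simp [Fin.sum_univ_succ]
  ring

/-- ARS (cites `subdiv_vec`). -/
theorem area_sub {D D' : Type} [Fintype D] [Fintype D'] {c : Comb D} {v : D → ℂ} {d : D} {θ : ℝ}
    {c' : Comb D'} {v' : D' → ℂ} {ι : D → D'} {p q m m' k k' : D'} (ok : IsTS c v)
    (ok' : IsTS c' v') (H : IsSubdiv c v d θ c' v' ι p q m m' k k') :
    area c' v' = area c v := by
  classical
  obtain ⟨v1, v2, v3, v4, v5, v6, v7⟩ := subdiv_vec ok ok' H
  obtain ⟨a1, a2, a3, a4, a5, a6⟩ := ars_dist ok d
  obtain ⟨b1, b2, b3, b4, b5, b6⟩ := ars_dist ok (c.opp d)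
  rw [c.opp2 d] at b4 b5 b6
  have g1 : c.next (c.opp d) ≠ c.next d := fun h => a4 (ars_next_inj c h)
  have g2 : c.next (c.opp d) ≠ c.next (c.next d) := fun h => a5 (ars_next_inj c h)
  have g3 : c.next (c.next (c.opp d)) ≠ c.next d := fun h => b5 (by
    have := ars_next_inj c h
    exact this.symm)
  have g4 : c.next (c.next (c.opp d)) ≠ c.next (c.next d) := fun h => g1 (ars_next_inj c h)
  unfold area
  congr 1
  rw [ars_sum H]
  set A : D → ℝ := fun x => cross (v x) (v (c.next x)) with hA
  set A' : D' → ℝ := fun x => cross (v' x) (v' (c'.next x)) with hA'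
  change ∑ x, A' (ι x) + (A' p + A' q + A' m + A' m' + A' k + A' k') = ∑ x, A x
  have rot' : ∀ x, A' (c'.next x) = A' x := fun x => ars_cross ok' x
  have rot : ∀ x, A (c.next x) = A x := fun x => ars_cross ok x
  -- values
  have eD : A' (ι d) = θ * A d := by
    have h2 : A (c.next (c.next d)) = A d := by rw [rot, rot]
    have h3 : A (c.next (c.next d)) = cross (v (c.next (c.next d))) (v d) := by
      simp only [hA, c.next3 d]
    rw [← h2, h3]
    simp only [hA', H.n1, H.vec_d, v4, cross]
    simp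
    ring
  have eM : A' m = θ * A d := by rw [← H.n1, rot', eD]
  have eD2 : A' (ι (c.next (c.next d))) = θ * A d := by rw [← H.n2, rot', eM]
  have eP : A' p = (1 - θ) * A d := by
    have h1 : v' (ι (c.next d)) = v (c.next d) := H.vec _ a1 (Ne.symm a5)
    simp only [hA', H.n4, h1, v1, hA, cross]
    simp
    ring
  have eD1 : A' (ι (c.next d)) = (1 - θ) * A d := by rw [← H.n4, rot', eP]
  have eM' : A' m' = (1 - θ) * A d := by rw [← H.n5, rot', eD1]
  have eE : A' (ι (c.opp d)) = (1 - θ) * A (c.opp d) := by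
    have h2 : A (c.next (c.next (c.opp d))) = A (c.opp d) := by rw [rot, rot]
    have h3 : A (c.next (c.next (c.opp d))) = cross (v (c.next (c.next (c.opp d)))) (v (c.opp d)) := by
      simp only [hA, c.next3 (c.opp d)]
    rw [← h2, h3]
    simp only [hA', H.n7, v3, v6, cross, ok.opp_neg d]
    simp
    ring
  have eK : A' k = (1 - θ) * A (c.opp d) := by rw [← H.n7, rot', eE]
  have eE2 : A' (ι (c.next (c.next (c.opp d)))) = (1 - θ) * A (c.opp d) := by
    rw [← H.n8, rot', eK]
  have eQ : A' q = θ * A (c.opp d) := by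
    have h1 : v' (ι (c.next (c.opp d))) = v (c.next (c.opp d)) := H.vec _ (Ne.symm b5) b1
    simp only [hA', H.n10, h1, v2, hA, cross, ok.opp_neg d]
    simp
    ring
  have eE1 : A' (ι (c.next (c.opp d))) = θ * A (c.opp d) := by rw [← H.n10, rot', eQ]
  have eK' : A' k' = θ * A (c.opp d) := by rw [← H.n11, rot', eE1]
  -- the other darts
  have hrest : ∀ x, x ∉ ({d, c.next d, c.next (c.next d), c.opp d, c.next (c.opp d),
      c.next (c.next (c.opp d))} : Finset D) → A' (ι x) - A x = 0 := by
    intro x hx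
    simp only [Finset.mem_insert, Finset.mem_singleton, not_or] at hx
    obtain ⟨x1, x2, x3, x4, x5, x6⟩ := hx
    have h1 := H.rest x x1 x2 x3 x4 x5 x6
    have h2 : c.next x ≠ d := by
      intro h
      apply x3
      rw [← h, c.next3]
    have h3 : c.next x ≠ c.opp d := by
      intro h
      apply x6
      rw [← h, c.next3]
    simp only [hA', hA, h1, H.vec x x1 x4, H.vec _ h2 h3]
    ring
  have hsum : ∑ x, (A' (ι x) - A x) = ∑ x ∈ ({d, c.next d, c.next (c.next d), c.opp d,
      c.next (c.opp d), c.next (c.next (c.opp d))} : Finset D), (A' (ι x) - A x) := by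
    symm
    apply Finset.sum_subset (Finset.subset_univ _)
    intro x _ hx
    exact hrest x hx
  rw [Finset.sum_insert, Finset.sum_insert, Finset.sum_insert, Finset.sum_insert,
    Finset.sum_insert, Finset.sum_singleton] at hsum
  · rw [Finset.sum_sub_distrib] at hsum
    have r1 : A (c.next d) = A d := rot _
    have r2 : A (c.next (c.next d)) = A d := by rw [rot, rot]
    have r3 : A (c.next (c.opp d)) = A (c.opp d) := rot _
    have r4 : A (c.next (c.next (c.opp d))) = A (c.opp d) := by rw [rot, rot]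
    rw [eD, eD1, eD2, eE, eE1, eE2, r1, r2, r3, r4] at hsum
    rw [eP, eQ, eM, eM', eK, eK']
    linarith
  · simp only [Finset.mem_singleton]
    exact Ne.symm b3
  · simp only [Finset.mem_insert, Finset.mem_singleton, not_or]
    exact ⟨Ne.symm b1, Ne.symm b2⟩
  · simp only [Finset.mem_insert, Finset.mem_singleton, not_or]
    exact ⟨Ne.symm a6, Ne.symm g2, Ne.symm g4⟩
  · simp only [Finset.mem_insert, Finset.mem_singleton, not_or]
    exact ⟨Ne.symm a3, Ne.symm a5, Ne.symm g1, Ne.symm g3⟩
  · simp only [Finset.mem_insert, Finset.mem_singleton, not_or]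
    exact ⟨Ne.symm a1, Ne.symm a2, Ne.symm a4, b5, b6⟩

end Pool.Agent.TP
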