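import Pool.Agent.Lib_helper53.TP.WDefs

namespace Pool.Agent.TP

open Set Complex Finset

theorem avc_shift {S : Type} (h : Equiv.Perm S) (f : S → ℝ) (s : S) :
    ∑ k ∈ range (orderOf h), f ((h ^ k) (h s)) = ∑ k ∈ range (orderOf h), f ((h ^ k) s) := by
  have h1 : ∑ k ∈ range (orderOf h), f ((h ^ k) (h s)) =
      ∑ k ∈ range (orderOf h), f ((h ^ (k + 1)) s) := by
    refine Finset.sum_congr rfl fun k _ => ?_
    rw [pow_succ, Equiv.Perm.coe_mul, Function.comp_apply]
  have h2 := Finset.sum_range_succ (fun k => f ((h ^ k) s)) (orderOf h)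
  have h3 := Finset.sum_range_succ' (fun k => f ((h ^ k) s)) (orderOf h)
  have h4 : f ((h ^ (orderOf h)) s) = f s := by rw [pow_orderOf_eq_one, Equiv.Perm.one_apply]
  rw [h1]
  simp only [pow_zero, Equiv.Perm.one_apply] at h2 h3
  rw [h4] at h2
  linarith

/-- A function invariant under a cycle is constant. -/
theorem avc_inv {S : Type} {h : Equiv.Perm S} (cyc : ∀ x y : S, ∃ k : ℕ, (h ^ k) x = y)
    {f : S → ℝ} (hf : ∀ x, f (h x) = f x) (x y : S) : f x = f y := by
  obtain ⟨k, hk⟩ := cyc x y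
  have : ∀ k : ℕ, f ((h ^ k) x) = f x := by
    intro k
    induction k with
    | zero => simp
    | succ k ih => rw [pow_succ', Equiv.Perm.coe_mul, Function.comp_apply, hf, ih]
  rw [← hk, this k]

/-- The cohomological equation for a cycle. -/
theorem avc_solve {S : Type} [Fintype S] {h : Equiv.Perm S}
    (cyc : ∀ x y : S, ∃ k : ℕ, (h ^ k) x = y) {a : S → ℝ} (ha : ∑ s, a s = 0) :
    ∃ g : S → ℝ, ∀ x, g (h x) - g x = a x := by
  classical
  have hL : 0 < orderOf h := orderOf_pos h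
  have hL' : (orderOf h : ℝ) ≠ 0 := by exact_mod_cast hL.ne'
  -- the sum over the period vanishes
  have hB : ∀ x, ∑ k ∈ range (orderOf h), a ((h ^ k) x) = 0 := by
    intro x
    have hc : ∀ y, ∑ k ∈ range (orderOf h), a ((h ^ k) y) =
        ∑ k ∈ range (orderOf h), a ((h ^ k) x) := fun y =>
      avc_inv cyc (f := fun y => ∑ k ∈ range (orderOf h), a ((h ^ k) y))
        (fun y => avc_shift h a y) y x
    have h1 : ∑ y, ∑ k ∈ range (orderOf h), a ((h ^ k) y) = 0 := by
      rw [Finset.sum_comm]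
      refine Finset.sum_eq_zero fun k _ => ?_
      rw [Equiv.sum_comp (h ^ k) a, ha]
    rw [Finset.sum_congr rfl fun y _ => hc y, Finset.sum_const, nsmul_eq_mul] at h1
    rcases mul_eq_zero.1 h1 with h2 | h2
    · exfalso
      have : (Finset.univ : Finset S).card = 0 := by exact_mod_cast h2
      rw [Finset.card_eq_zero] at this
      have hx := Finset.mem_univ x
      rw [this] at hx
      simp at hx
    · exact h2
  refine ⟨fun x => -(∑ k ∈ range (orderOf h), ((orderOf h : ℝ) - k) * a ((h ^ k) x)) /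
    orderOf h, fun x => ?_⟩
  have e1 : ∑ k ∈ range (orderOf h), ((orderOf h : ℝ) - k) * a ((h ^ k) (h x)) =
      ∑ k ∈ range (orderOf h), ((orderOf h : ℝ) + 1 - (k + 1 : ℕ)) * a ((h ^ (k + 1)) x) := by
    refine Finset.sum_congr rfl fun k _ => ?_
    rw [pow_succ, Equiv.Perm.coe_mul, Function.comp_apply]
    push_cast
    ring
  have e2 := Finset.sum_range_succ
    (fun k : ℕ => ((orderOf h : ℝ) + 1 - (k : ℝ)) * a ((h ^ k) x)) (orderOf h)
  have e3 := Finset.sum_range_succ'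
    (fun k : ℕ => ((orderOf h : ℝ) + 1 - (k : ℝ)) * a ((h ^ k) x)) (orderOf h)
  have e4 : ∑ k ∈ range (orderOf h), ((orderOf h : ℝ) + 1 - (k : ℝ)) * a ((h ^ k) x) =
      ∑ k ∈ range (orderOf h), ((orderOf h : ℝ) - k) * a ((h ^ k) x) := by
    have : ∀ k ∈ range (orderOf h), ((orderOf h : ℝ) + 1 - (k : ℝ)) * a ((h ^ k) x) =
        ((orderOf h : ℝ) - k) * a ((h ^ k) x) + a ((h ^ k) x) := by
      intro k _; ring
    rw [Finset.sum_congr rfl this, Finset.sum_add_distrib, hB x, add_zero]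
  simp only [pow_orderOf_eq_one, pow_zero, Equiv.Perm.one_apply, Nat.cast_zero, sub_zero] at e2 e3
  rw [e4] at e2
  simp only
  rw [e1]
  have e5 : ∑ k ∈ range (orderOf h), ((orderOf h : ℝ) + 1 - (k + 1 : ℕ)) * a ((h ^ (k + 1)) x) =
      ∑ k ∈ range (orderOf h), ((orderOf h : ℝ) - k) * a ((h ^ k) x) - orderOf h * a x := by
    linarith
  rw [e5]
  field_simp
  ring

theorem isA_exists {S : Type} [Fintype S] {h v : Equiv.Perm S}
    (cyc : ∀ x y : S, ∃ k : ℕ, (h ^ k) x = y) {u : Pr S} (hu : ∑ s, u.1 s = 0) :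
    ∃ A, IsA h v u A := by
  obtain ⟨g, hg⟩ := avc_solve cyc hu
  exact ⟨fun y => u.2 y + g y - g (v y), g, hg, fun y => rfl⟩

theorem isA_unique {S : Type} {h v : Equiv.Perm S}
    (cyc : ∀ x y : S, ∃ k : ℕ, (h ^ k) x = y) {u : Pr S} {A A' : S → ℝ} (hA : IsA h v u A)
    (hA' : IsA h v u A') : A = A' := by
  obtain ⟨g, g1, g2⟩ := hA
  obtain ⟨g', g1', g2'⟩ := hA'
  funext y
  have h1 := avc_inv cyc (f := fun x => g x - g' x) (fun x => by
    have := g1 x
    have := g1' x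
    linarith) y (v y)
  rw [g2, g2']
  linarith

theorem isA_const {S : Type} {h v : Equiv.Perm S} {u : Pr S} (hu : u ∈ ZO h v) {A : S → ℝ}
    (hA : IsA h v u A) (y : S) (hy : v (h y) = h (v y)) : A (h y) = A y := by
  obtain ⟨g, g1, g2⟩ := hA
  rw [g2, g2, hy]
  have e1 := g1 y
  have e2 := g1 (v y)
  have e3 := hu y
  linarith

theorem isA_eq_const {S : Type} {h v : Equiv.Perm S} {u : Pr S} (hu : u ∈ ZO h v)
    {A : S → ℝ} (hA : IsA h v u A) (r : ℝ) (hr : ∀ y, A y = r) :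
    u - r • ((fun _ => 0, fun _ => 1) : Pr S) ∈ BO h v := by
  obtain ⟨g, g1, g2⟩ := hA
  refine ⟨g, fun s => ?_, fun s => ?_, fun s => ?_⟩
  · have e1 := g1 s
    have e2 := g1 (v s)
    have e3 := hu s
    have e4 := g2 s
    have e5 := g2 (h s)
    rw [hr] at e4 e5
    linarith
  · have e1 := g1 s
    simp only [Prod.fst_sub, Prod.smul_fst, Pi.sub_apply, Pi.smul_apply, smul_eq_mul, mul_zero,
      sub_zero]
    linarith
  · have e4 := g2 s
    rw [hr] at e4
    simp only [Prod.snd_sub, Prod.smul_snd, Pi.sub_apply, Pi.smul_apply, smul_eq_mul, mul_one]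
    linarith

theorem isA_sum {S : Type} [Fintype S] {h v : Equiv.Perm S} {u : Pr S} {A : S → ℝ}
    (hA : IsA h v u A) : ∑ s, (twV v u).1 s = orderOf v * ∑ s, A s := by
  obtain ⟨g, g1, g2⟩ := hA
  simp only [twV]
  rw [Finset.sum_comm]
  have e1 : ∀ k ∈ range (orderOf v), ∑ s, u.2 ((v ^ k) s) = ∑ s, u.2 s := fun k _ =>
    Equiv.sum_comp (v ^ k) u.2
  have e2 : ∑ s, g (v s) = ∑ s, g s := Equiv.sum_comp v g
  have e3 : ∑ s, A s = ∑ s, u.2 s := by
    rw [Finset.sum_congr rfl fun s _ => g2 s, Finset.sum_sub_distrib, Finset.sum_add_distrib, e2]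
    ring
  rw [Finset.sum_congr rfl e1, Finset.sum_const, Finset.card_range, nsmul_eq_mul, e3]

end Pool.Agent.TP
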