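import Pool.Agent.Lib_helper53.TP.B.AVC

namespace Pool.Agent.TP

open Set Complex Finset

theorem isU_exists {S : Type} [Fintype S] {h v : Equiv.Perm S}
    (cyc : ∀ x y : S, ∃ k : ℕ, (h ^ k) x = y) {κ : S → ℝ} (hκ : ∑ s, κ s = 0) :
    ∃ U, IsU h v κ U ∧ U ∈ ZO h v ∧ ∑ s, U.1 s = 0 := by
  have e1 : ∑ s, κ (v.symm s) = ∑ s, κ s := Equiv.sum_comp v.symm κ
  obtain ⟨b, hb⟩ := avc_solve cyc (a := fun x => κ x - κ (v.symm x)) (by
    rw [Finset.sum_sub_distrib, e1, sub_self])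
  refine ⟨(fun x => κ (v.symm x), b), ⟨fun y => by simp, hb⟩, fun s => ?_, ?_⟩
  · have := hb s
    simp only at this ⊢
    rw [Equiv.symm_apply_apply]
    linarith
  · simp only
    rw [e1, hκ]

theorem om_isU {S : Type} [Fintype S] {h v : Equiv.Perm S} {κ : S → ℝ} {U u : Pr S}
    (hU : IsU h v κ U) {A : S → ℝ} (hA : IsA h v u A) : om h v u U = -∑ s, κ s * A s := by
  obtain ⟨U1, U2⟩ := hU
  obtain ⟨g, g1, g2⟩ := hA
  have e1 : ∑ s, g (h s) * U.2 (h s) = ∑ s, g s * U.2 s :=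
    Equiv.sum_comp h (fun s => g s * U.2 s)
  have e2 : ∑ s, g (v s) * κ s = ∑ s, g s * κ (v.symm s) := by
    rw [← Equiv.sum_comp v (fun s => g s * κ (v.symm s))]
    refine Finset.sum_congr rfl fun s _ => ?_
    rw [Equiv.symm_apply_apply]
  have e3 : om h v u U = ∑ s, g (h s) * U.2 (h s) - ∑ s, g s * U.2 (h s) -
      ∑ s, u.2 s * κ s := by
    unfold om
    rw [← Finset.sum_sub_distrib, ← Finset.sum_sub_distrib]
    refine Finset.sum_congr rfl fun s _ => ?_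
    rw [U1, ← g1]
    ring
  have e4 : ∑ s, g s * U.2 (h s) = ∑ s, g s * U.2 s + ∑ s, g s * κ s -
      ∑ s, g s * κ (v.symm s) := by
    rw [← Finset.sum_add_distrib, ← Finset.sum_sub_distrib]
    refine Finset.sum_congr rfl fun s _ => ?_
    have := U2 s
    linear_combination (g s) * this
  have e5 : ∑ s, κ s * A s = ∑ s, u.2 s * κ s + ∑ s, g s * κ s - ∑ s, g (v s) * κ s := by
    rw [← Finset.sum_add_distrib, ← Finset.sum_sub_distrib]
    refine Finset.sum_congr rfl fun s _ => ?_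
    rw [g2]
    ring
  rw [e3, e4, e1, e5, e2]
  ring

end Pool.Agent.TP
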