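import Pool.Agent.Lib_helper53.TP.WDefs
import Pool.Agent.Lib_helper53.TP.B.UKA

/-!
# BMT: intersection numbers of the classes given by letters
-/

namespace Pool.Agent.TP

open Set Complex Finset

theorem bmt_back {S : Type} {h : Equiv.Perm S} {lab : S → ℕ}
    (cyc : ∀ x y : S, ∃ k : ℕ, (h ^ k) x = y) (x : S) :
    (∀ z, lab z = lab x) ∨ ∃ k : ℕ, (∀ m ≤ k, lab ((h⁻¹ ^ m) x) = lab x) ∧
      lab ((h⁻¹ ^ (k + 1)) x) ≠ lab x := by
  classical
  by_cases H : ∀ k : ℕ, lab ((h⁻¹ ^ k) x) = lab x
  · left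
    intro z
    obtain ⟨k, hk⟩ := cyc z x
    have : (h⁻¹ ^ k) x = z := by
      rw [← hk, inv_pow, Equiv.Perm.coe_inv, Equiv.symm_apply_apply]
    rw [← this]
    exact H k
  · right
    push Not at H
    have h0 : Nat.find H ≠ 0 := by
      intro h0
      have := Nat.find_spec H
      rw [h0] at this
      exact this rfl
    refine ⟨Nat.find H - 1, fun m hm => ?_, ?_⟩
    · by_contra hne
      exact Nat.find_min H (by omega : m < Nat.find H) hne
    · have : Nat.find H - 1 + 1 = Nat.find H := by omega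
      rw [this]
      exact Nat.find_spec H

/-- A function with the same value at `x` and `h x` when these have the same label depends only on
the label. -/
theorem bmt_eq {S : Type} {h : Equiv.Perm S} {lab : S → ℕ}
    (cyc : ∀ x y : S, ∃ k : ℕ, (h ^ k) x = y)
    (first : ∀ x y, lab x = lab y → lab (h.symm x) ≠ lab x → lab (h.symm y) ≠ lab y → x = y)
    {Y : Type} {f : S → Y} (hf : ∀ x, lab (h x) = lab x → f (h x) = f x) {x y : S}
    (hxy : lab x = lab y) : f x = f y := by
  have hback : ∀ (x : S) (k : ℕ), (∀ m ≤ k, lab ((h⁻¹ ^ m) x) = lab x) →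
      f ((h⁻¹ ^ k) x) = f x := by
    intro x k
    induction k with
    | zero => intro _; simp
    | succ k ih =>
      intro hk
      rw [← ih fun m hm => hk m (by omega)]
      have h1 : (h⁻¹ ^ k) x = h ((h⁻¹ ^ (k + 1)) x) := by
        rw [pow_succ', Equiv.Perm.mul_apply, Equiv.Perm.coe_inv, Equiv.apply_symm_apply]
      have h2 : lab (h ((h⁻¹ ^ (k + 1)) x)) = lab ((h⁻¹ ^ (k + 1)) x) := by
        rw [← h1, hk k (by omega), hk (k + 1) le_rfl]
      have h3 := hf _ h2
      rw [← h1] at h3
      exact h3.symm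
  rcases bmt_back cyc x with hx | ⟨k, hk1, hk2⟩
  · obtain ⟨k, hk⟩ := cyc y x
    have h1 : (h⁻¹ ^ k) x = y := by
      rw [← hk, inv_pow, Equiv.Perm.coe_inv, Equiv.symm_apply_apply]
    rw [← h1]
    exact (hback x k fun m _ => hx _).symm
  · rcases bmt_back cyc y with hy | ⟨l, hl1, hl2⟩
    · exact absurd ((hy _).trans hxy.symm) hk2
    · rw [← hback x k hk1, ← hback y l hl1]
      congr 1
      have e1 : ∀ (x : S) (k : ℕ), h.symm ((h⁻¹ ^ k) x) = (h⁻¹ ^ (k + 1)) x := by
        intro x k
        rw [pow_succ', Equiv.Perm.mul_apply]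
        rfl
      apply first
      · rw [hk1 k le_rfl, hl1 l le_rfl, hxy]
      · rw [e1, hk1 k le_rfl]; exact hk2
      · rw [e1, hl1 l le_rfl]; exact hl2

/-- Positions along the cycle of `h`, starting at `a`. -/
theorem bmt_pos {S : Type} {h : Equiv.Perm S} (cyc : ∀ x y : S, ∃ k : ℕ, (h ^ k) x = y) (a : S) :
    ∃ p : S → ℕ, Function.Injective p ∧ ∀ x, h x ≠ a → p (h x) = p x + 1 := by
  classical
  refine ⟨fun x => Nat.find (cyc a x), ?_, ?_⟩
  · intro x y hxy
    have h1 := Nat.find_spec (cyc a x)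
    have h2 := Nat.find_spec (cyc a y)
    simp only at hxy
    rw [hxy] at h1
    exact h1.symm.trans h2
  · intro x hx
    change Nat.find (cyc a (h x)) = Nat.find (cyc a x) + 1
    apply le_antisymm
    · apply Nat.find_min'
      rw [pow_succ', Equiv.Perm.mul_apply, Nat.find_spec (cyc a x)]
    · have h1 := Nat.find_spec (cyc a (h x))
      have h0 : Nat.find (cyc a (h x)) ≠ 0 := by
        intro h0
        rw [h0] at h1
        exact hx (by simpa using h1.symm)
      obtain ⟨m, hm⟩ : ∃ m, Nat.find (cyc a (h x)) = m + 1 := ⟨_, (Nat.succ_pred h0).symm⟩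
      rw [hm] at h1 ⊢
      rw [pow_succ', Equiv.Perm.mul_apply] at h1
      have := Nat.find_min' (cyc a x) (h.injective h1)
      omega

/-- Partial sums along the cycle. -/
theorem bmt_D {S : Type} [Fintype S] {h : Equiv.Perm S} {a : S} {p : S → ℕ}
    (hp : Function.Injective p) (hp1 : ∀ x, h x ≠ a → p (h x) = p x + 1) {κ : S → ℝ}
    (hκ : ∑ x, κ x = 0) (y : S) :
    ∑ x, κ x * (if p x < p (h y) then 1 else 0) - ∑ x, κ x * (if p x < p y then 1 else 0) = κ y := by
  classical
  set D : S → ℝ := fun y => ∑ x, κ x * (if p x < p y then 1 else 0) with hD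
  have h1 : ∀ y, h y ≠ a → D (h y) - D y - κ y = 0 := by
    intro y hy
    have h2 : D (h y) - D y = ∑ x, κ x * (if x = y then 1 else 0) := by
      simp only [hD]
      rw [← Finset.sum_sub_distrib]
      refine Finset.sum_congr rfl fun x _ => ?_
      rw [← mul_sub, hp1 y hy]
      congr 1
      by_cases hxy : x = y
      · subst hxy; simp
      · have h3 : p x ≠ p y := fun h => hxy (hp h)
        rcases lt_or_gt_of_ne h3 with h4 | h4
        · rw [if_pos (by omega), if_pos h4, if_neg hxy]; ring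
        · rw [if_neg (by omega), if_neg (by omega), if_neg hxy]; ring
    rw [h2]
    simp
  have h2 : ∑ y, (D (h y) - D y - κ y) = 0 := by
    rw [Finset.sum_sub_distrib, Finset.sum_sub_distrib, Equiv.sum_comp h D, hκ]; ring
  have h3 : ∀ y, D (h y) - D y - κ y = 0 := by
    intro y
    by_cases hy : h y = a
    · rw [Finset.sum_eq_single y] at h2
      · exact h2
      · intro z _ hz
        apply h1 z
        intro hz'
        exact hz (h.injective (hz'.trans hy.symm))
      · intro h'; exact absurd (Finset.mem_univ _) h'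
    · exact h1 y hy
  have := h3 y
  simp only [hD] at this
  linarith

theorem bmt_len_pos (i : ℕ) : 0 < len i := by
  cases i with
  | zero => simp [len]
  | succ k =>
    simp only [len]
    have : 0 < WW k := Nat.pos_of_ne_zero (NeZero.ne _)
    positivity

/-- Summing a function of the label. -/
theorem bmt_fib {S : Type} [Fintype S] {j : ℕ} {lab : S → ℕ} (le : ∀ x, lab x ≤ j)
    (card : ∀ i ≤ j, Nat.card {x // lab x = i} = len i) (k G : ℕ → ℝ) :
    ∑ x, k (lab x) / len (lab x) * G (lab x) = ∑ i ∈ range (j + 1), k i * G i := by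
  classical
  rw [← Finset.sum_fiberwise_of_maps_to (g := lab) (t := range (j + 1))
    (fun x _ => Finset.mem_range.2 (Nat.lt_succ_of_le (le x)))]
  refine Finset.sum_congr rfl fun i hi => ?_
  have hij : i ≤ j := Nat.lt_succ_iff.1 (Finset.mem_range.1 hi)
  have h1 : ∀ x ∈ Finset.univ.filter (fun x => lab x = i),
      k (lab x) / len (lab x) * G (lab x) = k i / len i * G i := by
    intro x hx
    rw [(Finset.mem_filter.1 hx).2]
  rw [Finset.sum_congr rfl h1, Finset.sum_const]
  have h2 : (Finset.univ.filter (fun x => lab x = i)).card = len i := by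
    rw [← card i hij, Nat.card_eq_fintype_card, Fintype.card_subtype]
  rw [h2, nsmul_eq_mul]
  have h3 : (len i : ℝ) ≠ 0 := by exact_mod_cast (bmt_len_pos i).ne'
  field_simp

theorem bmat {S : Type} [Fintype S] {j : ℕ} {h v : Equiv.Perm S} {lab : S → ℕ} (hj : 1 ≤ j)
    (H : Lett j h v lab) : ∃ B : ℕ → ℕ → ℤ, (∀ i l, B i l = -B l i) ∧ (∀ i l, |B i l| ≤ 1) ∧
      ∀ (k k' : ℕ → ℝ) (U U' : Pr S), ∑ i ∈ range (j + 1), k i = 0 →
        ∑ i ∈ range (j + 1), k' i = 0 → IsU h v (fun x => k (lab x) / len (lab x)) U →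
        IsU h v (fun x => k' (lab x) / len (lab x)) U' →
        om h v U U' = ∑ i ∈ range (j + 1), ∑ l ∈ range (j + 1), k i * k' l * B i l := by
  classical
  have hex : ∀ i ≤ j, ∃ x, lab x = i := by
    intro i hi
    have h1 : 0 < Nat.card {x // lab x = i} := by rw [H.card i hi]; exact bmt_len_pos i
    obtain ⟨x⟩ : Nonempty {x // lab x = i} := (Nat.card_pos_iff.1 h1).1
    exact ⟨x.1, x.2⟩
  -- a first element
  obtain ⟨x0, hx0⟩ : ∃ x0, lab (h.symm x0) ≠ lab x0 := by
    by_contra hno
    push Not at hno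
    obtain ⟨a, ha⟩ := hex 0 (Nat.zero_le _)
    obtain ⟨b, hb⟩ := hex 1 hj
    obtain ⟨k, hk⟩ := H.cyc a b
    have h1 : ∀ k : ℕ, lab ((h ^ k) a) = lab a := by
      intro k
      induction k with
      | zero => simp
      | succ k ih =>
        rw [pow_succ', Equiv.Perm.mul_apply, ← ih]
        have := hno (h ((h ^ k) a))
        rw [Equiv.symm_apply_apply] at this
        exact this.symm
    have h2 := h1 k
    rw [hk] at h2
    omega
  have hne0 : ∀ x, lab (h x) = lab x → h x ≠ x0 := by
    intro x hx h1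
    apply hx0
    rw [← h1, Equiv.symm_apply_apply, hx]
  obtain ⟨p, hp, hp1⟩ := bmt_pos H.cyc x0
  obtain ⟨p', hp', hp1'⟩ := bmt_pos H.cyc (v x0)
  set q : S → ℕ := fun x => p' (v x) with hq
  have hqi : Function.Injective q := fun x y hxy => v.injective (hp' hxy)
  have sp : ∀ x, lab (h x) = lab x → p (h x) = p x + 1 := fun x hx => hp1 x (hne0 x hx)
  have sq : ∀ x, lab (h x) = lab x → q (h x) = q x + 1 := by
    intro x hx
    simp only [hq]
    rw [H.trans x hx]
    apply hp1'
    rw [← H.trans x hx]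
    intro h1
    exact hne0 x hx (v.injective h1)
  set T : S → S → ℤ := fun x y => (if p x < p y then 1 else 0) - (if q x < q y then 1 else 0)
    with hT
  have Tanti : ∀ x y, T x y = -T y x := by
    intro x y
    simp only [hT]
    by_cases hxy : x = y
    · subst hxy; simp
    · have h3 : p x ≠ p y := fun h => hxy (hp h)
      have h4 : q x ≠ q y := fun h => hxy (hqi h)
      rcases lt_or_gt_of_ne h3 with h5 | h5 <;> rcases lt_or_gt_of_ne h4 with h6 | h6
      · rw [if_pos h5, if_pos h6, if_neg (by omega), if_neg (by omega)]; ring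
      · rw [if_pos h5, if_neg (by omega), if_neg (by omega), if_pos h6]; ring
      · rw [if_neg (by omega), if_pos h6, if_pos h5, if_neg (by omega)]; ring
      · rw [if_neg (by omega), if_neg (by omega), if_pos h5, if_pos h6]; ring
  have Tabs : ∀ x y, |T x y| ≤ 1 := by
    intro x y
    simp only [hT]
    split_ifs <;> simp
  have Tsame : ∀ x y, lab x = lab y → T x y = 0 := by
    intro x y hxy
    have h1 : ((p x : ℤ) - q x) = ((p y : ℤ) - q y) := by
      refine bmt_eq H.cyc H.first (f := fun x => ((p x : ℤ) - q x)) ?_ hxy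
      intro z hz
      simp only [sp z hz, sq z hz]
      push_cast; ring
    simp only [hT]
    by_cases h2 : p x < p y
    · rw [if_pos h2, if_pos (by omega)]; ring
    · rw [if_neg h2, if_neg (by omega)]; ring
  have Tstep : ∀ y x, lab (h x) = lab x → T (h x) y = T x y := by
    intro y x hx
    by_cases hxy : lab x = lab y
    · rw [Tsame x y hxy, Tsame (h x) y (hx.trans hxy)]
    · have h3 : p (h x) ≠ p y := fun h' => hxy (by rw [← hx, hp h'])
      have h4 : q (h x) ≠ q y := fun h' => hxy (by rw [← hx, hqi h'])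
      simp only [hT]
      rw [sp x hx] at h3 ⊢
      rw [sq x hx] at h4 ⊢
      have e1 : (p x + 1 < p y) ↔ p x < p y := by omega
      have e2 : (q x + 1 < q y) ↔ q x < q y := by omega
      simp only [e1, e2]
  have Tl : ∀ x x' y, lab x = lab x' → T x y = T x' y := fun x x' y hxx =>
    bmt_eq H.cyc H.first (f := fun x => T x y) (Tstep y) hxx
  have Tr : ∀ x y y', lab y = lab y' → T x y = T x y' := by
    intro x y y' hyy
    rw [Tanti x y, Tanti x y', Tl y y' x hyy]
  set rep : ℕ → S := fun i => if hi : ∃ x, lab x = i then hi.choose else x0 with hrep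
  have lrep : ∀ i, (∃ x, lab x = i) → lab (rep i) = i := by
    intro i hi
    simp only [hrep, dif_pos hi]
    exact hi.choose_spec
  refine ⟨fun i l => -T (rep i) (rep l), fun i l => ?_, fun i l => ?_, ?_⟩
  · change -T (rep i) (rep l) = - -T (rep l) (rep i)
    rw [Tanti (rep i) (rep l)]
  · change |-T (rep i) (rep l)| ≤ 1
    rw [abs_neg]; exact Tabs _ _
  intro k k' U U' hk hk' hU hU'
  set κ : S → ℝ := fun x => k (lab x) / len (lab x) with hκ
  set κ' : S → ℝ := fun x => k' (lab x) / len (lab x) with hκ'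
  have sκ : ∑ x, κ x = 0 := by
    have := bmt_fib H.le H.card k (fun _ => 1)
    simp only [mul_one] at this
    rw [hk] at this
    exact this
  have sκ' : ∑ x, κ' x = 0 := by
    have := bmt_fib H.le H.card k' (fun _ => 1)
    simp only [mul_one] at this
    rw [hk'] at this
    exact this
  set D1 : S → ℝ := fun y => ∑ x, κ x * (if p x < p y then 1 else 0) with hD1
  set D2 : S → ℝ := fun z => ∑ w, κ (v.symm w) * (if p' w < p' z then 1 else 0) with hD2
  have sκv : ∑ w, κ (v.symm w) = 0 := by rw [Equiv.sum_comp v.symm κ, sκ]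
  have d1 : ∀ y, D1 (h y) - D1 y = κ y := fun y => bmt_D hp hp1 sκ y
  have d2 : ∀ y, D2 (h y) - D2 y = κ (v.symm y) := fun y =>
    bmt_D (κ := fun w => κ (v.symm w)) hp' hp1' sκv y
  have hA : IsA h v U (fun y => U.2 y + D2 y - D2 (v y)) := by
    refine ⟨D2, fun x => ?_, fun y => rfl⟩
    rw [d2 x]
    have := hU.1 (v.symm x)
    rw [Equiv.apply_symm_apply] at this
    exact this.symm
  have hc : ∃ c : ℝ, ∀ y, U.2 y + D2 y = D1 y + c := by
    refine ⟨U.2 x0 + D2 x0 - D1 x0, fun y => ?_⟩
    obtain ⟨m, hm⟩ := H.cyc x0 y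
    have h1 : ∀ m : ℕ, U.2 ((h ^ m) x0) + D2 ((h ^ m) x0) - D1 ((h ^ m) x0) =
        U.2 x0 + D2 x0 - D1 x0 := by
      intro m
      induction m with
      | zero => simp
      | succ m ih =>
        rw [← ih, pow_succ', Equiv.Perm.mul_apply]
        have e1 := d1 ((h ^ m) x0)
        have e2 := d2 ((h ^ m) x0)
        have e3 := hU.2 ((h ^ m) x0)
        linarith
    have := h1 m
    rw [hm] at this
    linarith
  obtain ⟨c, hc⟩ := hc
  have hAy : ∀ y, U.2 y + D2 y - D2 (v y) = c + ∑ x, κ x * (T x y : ℤ) := by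
    intro y
    have e1 : D2 (v y) = ∑ x, κ x * (if q x < q y then 1 else 0) := by
      simp only [hD2, hq]
      rw [← Equiv.sum_comp v]
      refine Finset.sum_congr rfl fun x _ => ?_
      rw [Equiv.symm_apply_apply]
    rw [hc y, e1]
    simp only [hD1, hT]
    rw [add_comm, add_sub_assoc, ← Finset.sum_sub_distrib]
    congr 1
    refine Finset.sum_congr rfl fun x _ => ?_
    push_cast
    ring
  rw [om_isU hU' hA]
  have hT2 : ∀ x y, T x y = T (rep (lab x)) (rep (lab y)) := by
    intro x y
    rw [Tl x (rep (lab x)) y (lrep _ ⟨x, rfl⟩).symm, Tr _ y (rep (lab y)) (lrep _ ⟨y, rfl⟩).symm]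
  have hsum : ∀ y, ∑ x, κ x * (T x y : ℤ) =
      ∑ i ∈ range (j + 1), k i * (T (rep i) (rep (lab y)) : ℤ) := by
    intro y
    rw [← bmt_fib H.le H.card k (fun i => ((T (rep i) (rep (lab y)) : ℤ) : ℝ))]
    refine Finset.sum_congr rfl fun x _ => ?_
    rw [hT2 x y]
  have hall : ∑ s, κ' s * (U.2 s + D2 s - D2 (v s)) =
      ∑ l ∈ range (j + 1), k' l * ∑ i ∈ range (j + 1), k i * (T (rep i) (rep l) : ℤ) := by
    have e1 : ∀ s, κ' s * (U.2 s + D2 s - D2 (v s)) = c * κ' s +
        k' (lab s) / len (lab s) * (fun l => ∑ i ∈ range (j + 1), k i * (T (rep i) (rep l) : ℤ))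
          (lab s) := by
      intro s
      rw [hAy s, hsum s]
      simp only [hκ']
      ring
    rw [Finset.sum_congr rfl fun s _ => e1 s, Finset.sum_add_distrib, ← Finset.mul_sum, sκ',
      mul_zero, zero_add]
    exact bmt_fib H.le H.card k' (fun l => ∑ i ∈ range (j + 1), k i * (T (rep i) (rep l) : ℤ))
  rw [hall, Finset.sum_comm, ← Finset.sum_neg_distrib]
  refine Finset.sum_congr rfl fun l _ => ?_
  rw [Finset.mul_sum, ← Finset.sum_neg_distrib]
  refine Finset.sum_congr rfl fun i _ => ?_
  push_cast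
  ring

end Pool.Agent.TP
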