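import Pool.Agent.Lib_helper53.TP.WDefs

/-!
# CMB: every origami can be moved to a one-row origami by row and column twists
-/

namespace Pool.Agent.TP

open Set

section cmb

variable {S : Type}

open Classical in
/-- `f` on the invariant set `R`, the identity off `R`. -/
noncomputable def cmb_tau (f : Equiv.Perm S) (R : Set S) (hR : ∀ s, f s ∈ R ↔ s ∈ R) :
    Equiv.Perm S where
  toFun s := if s ∈ R then f s else s
  invFun s := if s ∈ R then f.symm s else s
  left_inv s := by
    by_cases h : s ∈ R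
    · simp [h, (hR s).2 h]
    · simp [h]
  right_inv s := by
    by_cases h : s ∈ R
    · have h2 : f.symm s ∈ R := by
        rw [← hR]
        simpa using h
      simp [h, h2]
    · simp [h]

theorem cmb_tau_mem (f : Equiv.Perm S) (R : Set S) (hR : ∀ s, f s ∈ R ↔ s ∈ R) {s : S}
    (hs : s ∈ R) : cmb_tau f R hR s = f s := by
  simp [cmb_tau, hs]

theorem cmb_tau_not (f : Equiv.Perm S) (R : Set S) (hR : ∀ s, f s ∈ R ↔ s ∈ R) {s : S}
    (hs : s ∉ R) : cmb_tau f R hR s = s := by
  simp [cmb_tau, hs]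

theorem cmb_tau_symm_mem (f : Equiv.Perm S) (R : Set S) (hR : ∀ s, f s ∈ R ↔ s ∈ R) {s : S}
    (hs : s ∈ R) : (cmb_tau f R hR).symm s = f.symm s := by
  classical
  exact if_pos hs

theorem cmb_tau_symm_not (f : Equiv.Perm S) (R : Set S) (hR : ∀ s, f s ∈ R ↔ s ∈ R) {s : S}
    (hs : s ∉ R) : (cmb_tau f R hR).symm s = s := by
  classical
  exact if_neg hs

theorem cmb_tau_pow_mem (f : Equiv.Perm S) (R : Set S) (hR : ∀ s, f s ∈ R ↔ s ∈ R) (k : ℕ) {s : S}
    (hs : s ∈ R) : (cmb_tau f R hR ^ k) s = (f ^ k) s ∧ (f ^ k) s ∈ R := by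
  induction k with
  | zero => simpa using hs
  | succ k ih =>
    rw [pow_succ', pow_succ', Equiv.Perm.mul_apply, Equiv.Perm.mul_apply, ih.1,
      cmb_tau_mem f R hR ih.2]
    exact ⟨rfl, (hR _).2 ih.2⟩

theorem cmb_tau_pow_not (f : Equiv.Perm S) (R : Set S) (hR : ∀ s, f s ∈ R ↔ s ∈ R) (k : ℕ) {s : S}
    (hs : s ∉ R) : (cmb_tau f R hR ^ k) s = s := by
  induction k with
  | zero => simp
  | succ k ih =>
    rw [pow_succ', Equiv.Perm.mul_apply, ih, cmb_tau_not f R hR hs]

theorem cmb_rowpow (h v : Equiv.Perm S) (R : Set S) (hR : ∀ s, h s ∈ R ↔ s ∈ R) (k : ℕ) :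
    Relation.ReflTransGen OMove (h, v) (h, v * (cmb_tau h R hR) ^ k) := by
  induction k with
  | zero => simpa using Relation.ReflTransGen.refl
  | succ k ih =>
    refine ih.tail (Or.inl ⟨rfl, R, hR, fun s hs => ?_, fun s hs => ?_⟩)
    · simp only [pow_succ, Equiv.Perm.mul_apply]
      rw [cmb_tau_mem h R hR hs]
    · simp only [pow_succ, Equiv.Perm.mul_apply]
      rw [cmb_tau_not h R hR hs]

theorem cmb_short [Finite S] (h v : Equiv.Perm S) (x : S) (j : ℕ) (hj : 0 < j)
    (hs : h.SameCycle x ((v ^ j) x)) (hx : ¬ h.SameCycle x (v x)) :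
    ∃ (i : ℕ) (v' : Equiv.Perm S) (y : S), 0 < i ∧ i ≤ j ∧
      Relation.ReflTransGen OMove (h, v) (h, v') ∧ (v' ^ i) y = y ∧ ¬ h.SameCycle y (v' y) := by
  classical
  have hex : ∃ i, 0 < i ∧ h.SameCycle x ((v ^ i) x) := ⟨j, hj, hs⟩
  obtain ⟨hi0, hi1⟩ := Nat.find_spec hex
  have hmin : ∀ m, 0 < m → m < Nat.find hex → ¬ h.SameCycle x ((v ^ m) x) := by
    intro m hm0 hm1 hm2
    exact Nat.find_min hex hm1 ⟨hm0, hm2⟩
  have hle : Nat.find hex ≤ j := Nat.find_min' hex ⟨hj, hs⟩
  generalize Nat.find hex = i at *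
  have hR : ∀ s, h s ∈ {s | h.SameCycle x s} ↔ s ∈ {s | h.SameCycle x s} := by
    intro s
    simp only [mem_ofPred_eq]
    exact Equiv.Perm.sameCycle_apply_right
  obtain ⟨k, hk⟩ : ∃ k : ℕ, (h ^ k) ((v ^ i) x) = x := by
    obtain ⟨k, -, -, hk⟩ := hi1.symm.exists_pow_eq'' 
    exact ⟨k, hk⟩
  refine ⟨i, v * (cmb_tau h _ hR) ^ k, (v ^ i) x, hi0, hle, cmb_rowpow h v _ hR k, ?_, ?_⟩
  · have key : ∀ m, m < i → ((v * (cmb_tau h _ hR) ^ k) ^ (m + 1)) ((v ^ i) x) =
        (v ^ (m + 1)) x := by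
      intro m
      induction m with
      | zero =>
        intro _
        simp only [zero_add, pow_one, Equiv.Perm.mul_apply]
        rw [(cmb_tau_pow_mem h _ hR k (s := (v ^ i) x) hi1).1, hk]
      | succ m ih =>
        intro hm
        rw [pow_succ' _ (m + 1), Equiv.Perm.mul_apply, ih (by omega), Equiv.Perm.mul_apply,
          cmb_tau_pow_not h _ hR k (s := (v ^ (m + 1)) x) (hmin (m + 1) (by omega) hm),
          pow_succ' v (m + 1), Equiv.Perm.mul_apply]
    have := key (i - 1) (by omega)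
    rwa [Nat.sub_add_cancel hi0] at this
  · rw [Equiv.Perm.mul_apply, (cmb_tau_pow_mem h _ hR k (s := (v ^ i) x) hi1).1, hk]
    intro hc
    exact hx (hi1.trans hc)

theorem cmb_same (h h' : Equiv.Perm S) (hh : ∀ s, h'.SameCycle s (h s)) {a b : S}
    (hab : h.SameCycle a b) : h'.SameCycle a b := by
  obtain ⟨k, rfl⟩ := hab
  induction k with
  | zero => simpa using Equiv.Perm.SameCycle.refl h' a
  | succ k ih =>
    rw [add_comm, zpow_add, zpow_one, Equiv.Perm.mul_apply]
    exact ih.trans (hh _)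
  | pred k ih =>
    have := hh ((h ^ (-(k : ℤ) - 1)) a)
    rw [← Equiv.Perm.mul_apply, ← zpow_one_add] at this
    have e : (1 + (-(k : ℤ) - 1)) = -(k : ℤ) := by ring
    rw [e] at this
    exact ih.trans this.symm

/-- The merging step: if there is more than one row, then some rows can be merged. -/
theorem cmb_merge [Finite S] (h v : Equiv.Perm S) (x0 : S) (hx0 : ¬ h.SameCycle x0 (v x0)) :
    ∃ h' v' : Equiv.Perm S, Relation.ReflTransGen OMove (h, v) (h', v') ∧
      (∀ a b, h.SameCycle a b → h'.SameCycle a b) ∧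
      ∃ a b, h'.SameCycle a b ∧ ¬ h.SameCycle a b := by
  classical
  have hex : ∃ n, 0 < n ∧ ∃ (v' : Equiv.Perm S) (x : S),
      Relation.ReflTransGen OMove (h, v) (h, v') ∧ (v' ^ n) x = x ∧
        ¬ h.SameCycle x (v' x) := by
    refine ⟨orderOf v, orderOf_pos v, v, x0, Relation.ReflTransGen.refl, ?_, hx0⟩
    simp [pow_orderOf_eq_one]
  obtain ⟨hn0, v', x, hr, hnx, hx⟩ := Nat.find_spec hex
  have hmin : ∀ m, 0 < m → m < Nat.find hex → ∀ (v' : Equiv.Perm S) (x : S),
      Relation.ReflTransGen OMove (h, v) (h, v') → (v' ^ m) x = x → h.SameCycle x (v' x) := by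
    intro m hm0 hm1 w y h1 h2
    by_contra h3
    exact Nat.find_min hex hm1 ⟨hm0, w, y, h1, h2, h3⟩
  generalize Nat.find hex = n at *
  -- first property
  have P1 : ∀ y, ¬ h.SameCycle y (v' y) → ∀ j, 0 < j → j < n →
      ¬ h.SameCycle y ((v' ^ j) y) := by
    intro y hy j hj0 hj1 hs
    obtain ⟨i, w, z, hi0, hi1, hr2, hz, hz2⟩ := cmb_short h v' y j hj0 hs hy
    exact hz2 (hmin i hi0 (by omega) w z (hr.trans hr2) hz)
  -- second property
  have P2 : ∀ i j, i < j → j < n → ¬ h.SameCycle ((v' ^ i) x) ((v' ^ j) x) := by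
    intro i j hij hjn hs
    rcases Nat.eq_zero_or_pos i with hi | hi
    · subst hi
      exact P1 x hx j hij hjn (by simpa using hs)
    · -- the last visit
      obtain ⟨b, hbn, hbj, hbs, hblast⟩ : ∃ b, b < n ∧ j ≤ b ∧
          h.SameCycle ((v' ^ i) x) ((v' ^ b) x) ∧
          ∀ b', b < b' → b' < n → ¬ h.SameCycle ((v' ^ i) x) ((v' ^ b') x) := by
        have hfin : (Finset.univ.filter (fun b : Fin n =>
            h.SameCycle ((v' ^ i) x) ((v' ^ (b : ℕ)) x))).Nonempty :=
          ⟨⟨j, hjn⟩, by simpa using hs⟩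
        refine ⟨(Finset.max' _ hfin : Fin n), (Finset.max' _ hfin).2, ?_, ?_, ?_⟩
        · have := Finset.le_max' _ (⟨j, hjn⟩ : Fin n)
            (show _ ∈ (Finset.univ.filter (fun b : Fin n =>
            h.SameCycle ((v' ^ i) x) ((v' ^ (b : ℕ)) x))) by simpa using hs)
          exact this
        · have := Finset.max'_mem _ hfin
          simpa using this
        · intro b' hb1 hb2 hb3
          have := Finset.le_max' _ (⟨b', hb2⟩ : Fin n)
            (show _ ∈ (Finset.univ.filter (fun b : Fin n =>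
            h.SameCycle ((v' ^ i) x) ((v' ^ (b : ℕ)) x))) by simpa using hb3)
          have h2 : b' ≤ ((Finset.max' _ hfin : Fin n) : ℕ) := this
          omega
      have hy : ¬ h.SameCycle ((v' ^ b) x) (v' ((v' ^ b) x)) := by
        intro hc
        rw [← Equiv.Perm.mul_apply, ← pow_succ'] at hc
        rcases Nat.lt_or_ge (b + 1) n with hlt | hge
        · exact hblast (b + 1) (by omega) hlt (hbs.trans hc)
        · have e : b + 1 = n := by omega
          rw [e, hnx] at hc
          exact P1 x hx i hi (by omega) (hbs.trans hc).symm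
      refine P1 _ hy (i + n - b) (by omega) (by omega) ?_
      rw [← Equiv.Perm.mul_apply, ← pow_add]
      have e : i + n - b + b = i + n := by omega
      rw [e, pow_add, Equiv.Perm.mul_apply, hnx]
      exact hbs.symm
  -- the column
  have hC : ∀ s, v' s ∈ {c | ∃ i, i < n ∧ (v' ^ i) x = c} ↔
      s ∈ {c | ∃ i, i < n ∧ (v' ^ i) x = c} := by
    intro s
    simp only [mem_ofPred_eq]
    constructor
    · rintro ⟨i, hi, he⟩
      rcases Nat.eq_zero_or_pos i with h0 | h0
      · subst h0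
        refine ⟨n - 1, by omega, ?_⟩
        apply v'.injective
        rw [← he, ← Equiv.Perm.mul_apply, ← pow_succ', Nat.sub_add_cancel hn0, hnx]
        simp
      · refine ⟨i - 1, by omega, ?_⟩
        apply v'.injective
        rw [← he, ← Equiv.Perm.mul_apply, ← pow_succ', Nat.sub_add_cancel h0]
    · rintro ⟨i, hi, he⟩
      rcases Nat.lt_or_ge (i + 1) n with hlt | hge
      · exact ⟨i + 1, hlt, by rw [pow_succ', Equiv.Perm.mul_apply, he]⟩
      · have e : i + 1 = n := by omega
        refine ⟨0, hn0, ?_⟩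
        rw [← he, ← Equiv.Perm.mul_apply, ← pow_succ', e, hnx]
        simp
  generalize hCdef : {c | ∃ i, i < n ∧ (v' ^ i) x = c} = C at hC
  have hxC : x ∈ C := by
    rw [← hCdef]
    exact ⟨0, hn0, by simp⟩
  have hCu : ∀ a ∈ C, ∀ b ∈ C, h.SameCycle a b → a = b := by
    rw [← hCdef]
    rintro a ⟨i, hi, rfl⟩ b ⟨j, hj, rfl⟩ hab
    rcases Nat.lt_trichotomy i j with hlt | heq | hgt
    · exact absurd hab (P2 i j hlt hj)
    · rw [heq]
    · exact absurd hab.symm (P2 j i hgt hi)
  clear hCdef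
  have hm : OMove (h, v') (h * (cmb_tau v' C hC)⁻¹, v') := by
    refine Or.inr ⟨rfl, C, hC, fun s hs => ?_, fun s hs => ?_⟩
    · change h ((cmb_tau v' C hC).symm s) = h (v'.symm s)
      rw [cmb_tau_symm_mem v' C hC hs]
    · change h ((cmb_tau v' C hC).symm s) = h s
      rw [cmb_tau_symm_not v' C hC hs]
  have hin : ∀ s ∈ C, (h * (cmb_tau v' C hC)⁻¹) s = h (v'.symm s) := by
    intro s hs
    change h ((cmb_tau v' C hC).symm s) = h (v'.symm s)
    rw [cmb_tau_symm_mem v' C hC hs]
  have hout : ∀ s ∉ C, (h * (cmb_tau v' C hC)⁻¹) s = h s := by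
    intro s hs
    change h ((cmb_tau v' C hC).symm s) = h s
    rw [cmb_tau_symm_not v' C hC hs]
  generalize h * (cmb_tau v' C hC)⁻¹ = h' at *
  have hone : ∀ s, h'.SameCycle s (h s) := by
    intro s
    by_cases hs : s ∈ C
    · -- go around the row
      have hex2 : ∃ k, 0 < k ∧ (h ^ k) s = s :=
        ⟨orderOf h, orderOf_pos h, by simp [pow_orderOf_eq_one]⟩
      obtain ⟨hk0, hk1⟩ := Nat.find_spec hex2
      have hkmin : ∀ m, 0 < m → m < Nat.find hex2 → (h ^ m) s ≠ s := by
        intro m hm0 hm1 hm2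
        exact Nat.find_min hex2 hm1 ⟨hm0, hm2⟩
      generalize Nat.find hex2 = k at *
      have key : ∀ m, m < k → h'.SameCycle (h s) ((h ^ (m + 1)) s) := by
        intro m
        induction m with
        | zero =>
          intro _
          simpa using Equiv.Perm.SameCycle.refl h' (h s)
        | succ m ih =>
          intro hm1
          have h1 := ih (by omega)
          have h2 : (h ^ (m + 1)) s ∉ C := by
            intro hc
            refine hkmin (m + 1) (by omega) hm1 ?_
            refine (hCu _ hs _ hc ?_).symm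
            exact ⟨((m + 1 : ℕ) : ℤ), by rw [zpow_natCast]⟩
          have h3 := hout _ h2
          rw [pow_succ' h (m + 1), Equiv.Perm.mul_apply, ← h3]
          exact Equiv.Perm.sameCycle_apply_right.2 h1
      have h4 := key (k - 1) (by omega)
      rw [Nat.sub_add_cancel hk0, hk1] at h4
      exact h4.symm
    · rw [← hout s hs]
      exact Equiv.Perm.sameCycle_apply_right.2 (Equiv.Perm.SameCycle.refl h' s)
  refine ⟨h', v', hr.tail hm, fun a b hab => cmb_same h h' hone hab, x, v' x, ?_, hx⟩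
  have h5 := hin (v' x) ((hC x).2 hxC)
  rw [Equiv.symm_apply_apply] at h5
  have h6 : h'.SameCycle (v' x) (h x) := by
    rw [← h5]
    exact Equiv.Perm.sameCycle_apply_right.2 (Equiv.Perm.SameCycle.refl h' _)
  exact (hone x).trans h6.symm

theorem cmb_tr_row [Finite S] (h v : Equiv.Perm S) (tr : Tr h v)
    (hall : ∀ x, h.SameCycle x (v x)) (x y : S) : h.SameCycle x y := by
  have hu := tr {s | h.SameCycle x s} ⟨x, Equiv.Perm.SameCycle.refl h x⟩
    (fun s hs => Equiv.Perm.sameCycle_apply_right.2 hs) (fun s hs => Equiv.Perm.SameCycle.trans hs (hall s))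
  have : y ∈ {s | h.SameCycle x s} := by rw [hu]; trivial
  exact this

/-- A nonempty set closed under a permutation of a finite set is closed under the inverse. -/
theorem cmb_closed_symm [Finite S] (f : Equiv.Perm S) (T : Set S) (hT : ∀ s ∈ T, f s ∈ T) :
    ∀ s ∈ T, f.symm s ∈ T := by
  intro s hs
  have h1 : ∀ k : ℕ, (f ^ k) s ∈ T := by
    intro k
    induction k with
    | zero => simpa using hs
    | succ k ih =>
      rw [pow_succ', Equiv.Perm.mul_apply]
      exact hT _ ih
  have h2 := h1 (orderOf f - 1)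
  have h3 : (f ^ (orderOf f - 1)) s = f.symm s := by
    apply f.injective
    rw [← Equiv.Perm.mul_apply, ← pow_succ', Nat.sub_add_cancel (orderOf_pos f),
      pow_orderOf_eq_one]
    simp
  rwa [h3] at h2

theorem cmb_tr [Finite S] (p q : Equiv.Perm S × Equiv.Perm S) (hm : OMove p q)
    (tr : Tr p.1 p.2) : Tr q.1 q.2 := by
  obtain ⟨h, v⟩ := p
  obtain ⟨h', v'⟩ := q
  rcases hm with ⟨he, R, hR, h1, h2⟩ | ⟨he, C, hC, h1, h2⟩
  · simp only at he h1 h2 hR tr ⊢
    subst he
    intro T hT hTh hTv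
    refine tr T hT hTh ?_
    intro s hs
    by_cases hsR : s ∈ R
    · have h3 : h'.symm s ∈ T := cmb_closed_symm h' T hTh s hs
      have h4 : h'.symm s ∈ R := by
        rw [← hR]
        simpa using hsR
      have h5 := h1 _ h4
      rw [Equiv.apply_symm_apply] at h5
      rw [← h5]
      exact hTv _ h3
    · rw [← h2 s hsR]
      exact hTv s hs
  · simp only at he h1 h2 hC tr ⊢
    subst he
    intro T hT hTh hTv
    refine tr T hT ?_ hTv
    intro s hs
    by_cases hsC : s ∈ C
    · have h3 := h1 _ ((hC s).2 hsC)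
      rw [Equiv.symm_apply_apply] at h3
      rw [← h3]
      exact hTh _ (hTv s hs)
    · rw [← h2 s hsC]
      exact hTh s hs

theorem cmb_tr_star [Finite S] (p q : Equiv.Perm S × Equiv.Perm S)
    (hm : Relation.ReflTransGen OMove p q) (tr : Tr p.1 p.2) : Tr q.1 q.2 := by
  induction hm with
  | refl => exact tr
  | tail _ h2 ih => exact cmb_tr _ _ h2 ih

end cmb

/-- CMB: pure permutation combinatorics. -/
theorem one_row_moves {S : Type} [Finite S] (h v : Equiv.Perm S) (tr : Tr h v) :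
    ∃ h' v' : Equiv.Perm S, (∀ x y : S, ∃ k : ℕ, (h' ^ k) x = y) ∧
      Relation.ReflTransGen OMove (h, v) (h', v') := by
  classical
  -- a reachable pair with the largest row relation
  have hne : {A : Set (S × S) | ∃ h' v' : Equiv.Perm S,
      Relation.ReflTransGen OMove (h, v) (h', v') ∧
        A = {p | h'.SameCycle p.1 p.2}}.Nonempty :=
    ⟨_, h, v, Relation.ReflTransGen.refl, rfl⟩
  obtain ⟨A, ⟨h', v', hr, hA⟩, hmax⟩ := wellFounded_gt.has_min _ hne
  refine ⟨h', v', ?_, hr⟩
  have tr' : Tr h' v' := cmb_tr_star (h, v) (h', v') hr tr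
  have hall : ∀ x, h'.SameCycle x (v' x) := by
    intro x
    by_contra hx
    obtain ⟨h2, v2, hr2, hsub, a, b, hab, hnab⟩ := cmb_merge h' v' x hx
    refine hmax {p | h2.SameCycle p.1 p.2} ⟨h2, v2, hr.trans hr2, rfl⟩ ?_
    rw [hA]
    refine ⟨fun p hp => hsub p.1 p.2 hp, fun hc => hnab ?_⟩
    exact hc (show (a, b) ∈ {p : S × S | h2.SameCycle p.1 p.2} from hab)
  intro x y
  obtain ⟨k, -, -, hk⟩ := (cmb_tr_row h' v' tr' hall x y).exists_pow_eq''
  exact ⟨k, hk⟩

end Pool.Agent.TP
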