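import Pool.Agent.Lib_helper53.TP.WDefs

set_option linter.unusedVariables false

namespace Pool.Agent.TP

open Set Complex Finset

theorem om_anti {S : Type} [Fintype S] {h v : Equiv.Perm S} {u w : Pr S} (hu : u ∈ ZO h v)
    (hw : w ∈ ZO h v) : om h v u w = -om h v w u := by
  have e1 : ∑ s, u.2 (h s) * w.2 (h s) = ∑ s, u.2 s * w.2 s :=
    Equiv.sum_comp h (fun s => u.2 s * w.2 s)
  have e2 : ∑ s, u.1 (v s) * w.1 (v s) = ∑ s, u.1 s * w.1 s :=
    Equiv.sum_comp v (fun s => u.1 s * w.1 s)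
  have e3 : ∑ s, (u.1 s * w.2 (h s) - u.2 s * w.1 (v s) + (w.1 s * u.2 (h s) - w.2 s * u.1 (v s)))
      = ∑ s, (u.2 s * w.2 s + u.1 (v s) * w.1 (v s) - u.1 s * w.1 s - u.2 (h s) * w.2 (h s)) := by
    refine Finset.sum_congr rfl fun s _ => ?_
    have h1 := hu s
    have h2 := hw s
    have h3 : (u.1 s + u.2 (h s)) * (w.1 s + w.2 (h s)) =
      (u.2 s + u.1 (v s)) * (w.2 s + w.1 (v s)) := by rw [h1, h2]
    linarith
  have e4 : om h v u w + om h v w u = 0 := by
    unfold om
    rw [← Finset.sum_add_distrib, e3, Finset.sum_sub_distrib, Finset.sum_sub_distrib,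
      Finset.sum_add_distrib, e1, e2]
    ring
  linarith

theorem om_bo {S : Type} [Fintype S] {h v : Equiv.Perm S} {u w : Pr S} (hu : u ∈ ZO h v)
    (hw : w ∈ BO h v) : om h v u w = 0 := by
  rw [om_anti hu (BO_le_ZO h v hw)]
  obtain ⟨f, h1, h2, h3⟩ := hw
  have e1 : ∑ s, f (h s) * u.2 (h s) = ∑ s, f s * u.2 s :=
    Equiv.sum_comp h (fun s => f s * u.2 s)
  have e2 : ∑ s, f (v s) * u.1 (v s) = ∑ s, f s * u.1 s :=
    Equiv.sum_comp v (fun s => f s * u.1 s)
  have e3 : om h v w u = ∑ s, f (h s) * u.2 (h s) - ∑ s, f (v s) * u.1 (v s)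
      - ∑ s, f s * u.2 (h s) + ∑ s, f s * u.1 (v s) := by
    unfold om
    rw [← Finset.sum_sub_distrib, ← Finset.sum_sub_distrib, ← Finset.sum_add_distrib]
    refine Finset.sum_congr rfl fun s _ => ?_
    rw [h2, h3]
    ring
  rw [e3, e1, e2, ← Finset.sum_sub_distrib, ← Finset.sum_sub_distrib, ← Finset.sum_add_distrib,
    neg_eq_zero]
  refine Finset.sum_eq_zero fun s _ => ?_
  have := hu s
  linear_combination (-f s) * this

theorem om_shear {S : Type} [Fintype S] {h v : Equiv.Perm S} {u w : Pr S} (hu : u ∈ ZO h v)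
    (hw : w ∈ ZO h v) : om h (v * h) (shear h u) (shear h w) = om h v u w := by
  have e1 : ∑ s, u.2 (h s) * w.1 (v (h s)) = ∑ s, u.2 s * w.1 (v s) :=
    Equiv.sum_comp h (fun s => u.2 s * w.1 (v s))
  have e2 : om h (v * h) (shear h u) (shear h w) =
      ∑ s, (u.1 s * w.2 (h s) - u.2 (h s) * w.1 (v (h s))) := by
    unfold om
    refine Finset.sum_congr rfl fun s _ => ?_
    have h1 := hw (h s)
    simp only [shear, Equiv.Perm.coe_mul, Function.comp_apply]
    linear_combination (u.1 s) * h1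
  rw [e2]
  unfold om
  rw [Finset.sum_sub_distrib, Finset.sum_sub_distrib, e1]

theorem shear_mem {S : Type} {h v : Equiv.Perm S} {u : Pr S} (hu : u ∈ ZO h v) :
    shear h u ∈ ZO h (v * h) := by
  intro s
  have h1 := hu (h s)
  simp only [shear, Equiv.Perm.coe_mul, Function.comp_apply]
  linear_combination h1

theorem shearL_pow {S : Type} (h : Equiv.Perm S) (n : ℕ) (u : Pr S) :
    (shearL h ^ n) u = shearN h n u := by
  induction n with
  | zero => simp [shearN]
  | succ n ih =>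
    rw [pow_succ', Module.End.mul_apply, ih]
    change shear h (shearN h n u) = shearN h (n + 1) u
    simp only [shear, shearN]
    refine Prod.ext rfl ?_
    funext s
    simp only
    rw [Finset.sum_range_succ', pow_zero, Equiv.Perm.one_apply]
    simp only [pow_succ, Equiv.Perm.coe_mul, Function.comp_apply]
    ring

theorem omg_shift {S : Type} (v : Equiv.Perm S) (f : S → ℝ) (s : S) :
    ∑ k ∈ range (orderOf v), f ((v ^ k) (v s)) = ∑ k ∈ range (orderOf v), f ((v ^ k) s) := by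
  have h1 : ∑ k ∈ range (orderOf v), f ((v ^ k) (v s)) =
      ∑ k ∈ range (orderOf v), f ((v ^ (k + 1)) s) := by
    refine Finset.sum_congr rfl fun k _ => ?_
    rw [pow_succ, Equiv.Perm.coe_mul, Function.comp_apply]
  have h2 := Finset.sum_range_succ (fun k => f ((v ^ k) s)) (orderOf v)
  have h3 := Finset.sum_range_succ' (fun k => f ((v ^ k) s)) (orderOf v)
  have h4 : f ((v ^ (orderOf v)) s) = f s := by rw [pow_orderOf_eq_one, Equiv.Perm.one_apply]
  rw [h1]
  simp only [pow_zero, Equiv.Perm.one_apply] at h2 h3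
  rw [h4] at h2
  linarith

theorem twV_mem {S : Type} [Finite S] {h v : Equiv.Perm S} {u : Pr S} :
    twV v u ∈ ZO h v := by
  intro s
  simp only [twV, Pi.zero_apply]
  rw [omg_shift v u.2 s]
  ring

theorem twV_bo {S : Type} [Finite S] {h v : Equiv.Perm S} {u : Pr S} (hu : u ∈ BO h v) :
    twV v u = 0 := by
  obtain ⟨f, h1, h2, h3⟩ := hu
  refine Prod.ext ?_ rfl
  funext s
  simp only [twV, Prod.fst_zero, Pi.zero_apply]
  have e : ∑ k ∈ range (orderOf v), u.2 ((v ^ k) s) =
      ∑ k ∈ range (orderOf v), (f ((v ^ (k + 1)) s) - f ((v ^ k) s)) := by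
    refine Finset.sum_congr rfl fun k _ => ?_
    rw [h3, pow_succ', Equiv.Perm.coe_mul, Function.comp_apply]
  rw [e, Finset.sum_range_sub (fun k => f ((v ^ k) s)), pow_orderOf_eq_one, pow_zero, sub_self]

theorem om_twV {S : Type} [Fintype S] {h v : Equiv.Perm S} (u w : Pr S) :
    om h v u (twV v w) = -∑ x, u.2 x * ∑ k ∈ range (orderOf v), w.2 ((v ^ k) x) := by
  unfold om
  rw [← Finset.sum_neg_distrib]
  refine Finset.sum_congr rfl fun s _ => ?_
  simp only [twV, Pi.zero_apply]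
  rw [omg_shift v w.2 s]
  ring

theorem omg_symm {S : Type} [Fintype S] (v : Equiv.Perm S) (a b : S → ℝ) :
    ∑ x, a x * ∑ k ∈ range (orderOf v), b ((v ^ k) x) =
      ∑ x, (∑ k ∈ range (orderOf v), a ((v ^ k) x)) * b x := by
  have h1 : ∑ x, a x * ∑ k ∈ range (orderOf v), b ((v ^ k) x) =
      ∑ k ∈ range (orderOf v), ∑ x, a x * b ((v ^ k) x) := by
    rw [Finset.sum_comm]
    refine Finset.sum_congr rfl fun x _ => ?_
    rw [Finset.mul_sum]
  have h2 : ∑ x, (∑ k ∈ range (orderOf v), a ((v ^ k) x)) * b x =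
      ∑ k ∈ range (orderOf v), ∑ x, a ((v ^ k) x) * b x := by
    rw [Finset.sum_comm]
    refine Finset.sum_congr rfl fun x _ => ?_
    rw [Finset.sum_mul]
  rw [h1, h2]
  have h3 : ∀ k ∈ range (orderOf v), ∑ x, a ((v ^ k) x) * b x =
      (fun i => ∑ x, a x * b ((v ^ (i + 1)) x)) (orderOf v - 1 - k) := by
    intro k hk
    rw [Finset.mem_range] at hk
    simp only
    have e : orderOf v - 1 - k + 1 = orderOf v - k := by omega
    rw [e]
    rw [← Equiv.sum_comp (v ^ k) (fun x => a x * b ((v ^ (orderOf v - k)) x))]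
    refine Finset.sum_congr rfl fun x _ => ?_
    have e2 : (v ^ (orderOf v - k)) ((v ^ k) x) = x := by
      rw [← Equiv.Perm.mul_apply, ← pow_add, Nat.sub_add_cancel hk.le, pow_orderOf_eq_one,
        Equiv.Perm.one_apply]
    rw [e2]
  rw [Finset.sum_congr rfl h3,
    Finset.sum_range_reflect (fun i => ∑ x, a x * b ((v ^ (i + 1)) x)) (orderOf v)]
  have h4 := Finset.sum_range_succ (fun k => ∑ x, a x * b ((v ^ k) x)) (orderOf v)
  have h5 := Finset.sum_range_succ' (fun k => ∑ x, a x * b ((v ^ k) x)) (orderOf v)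
  simp only [pow_orderOf_eq_one, pow_zero] at h4 h5
  linarith

theorem om_twV_symm {S : Type} [Fintype S] {h v : Equiv.Perm S} {u w : Pr S}
    (hw : w ∈ ZO h v) :
    om h v u (twV v w) = -om h v (twV v u) w := by
  rw [om_twV, omg_symm]
  congr 1
  have h1 : om h v (twV v u) w =
      ∑ s, (∑ k ∈ range (orderOf v), u.2 ((v ^ k) s)) * w.2 (h s) := by
    unfold om
    refine Finset.sum_congr rfl fun s _ => ?_
    simp only [twV, Pi.zero_apply]
    ring
  rw [h1]
  have h2 : ∑ s, (∑ k ∈ range (orderOf v), u.2 ((v ^ k) s)) * w.1 (v s) =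
      ∑ s, (∑ k ∈ range (orderOf v), u.2 ((v ^ k) s)) * w.1 s := by
    rw [← Equiv.sum_comp v (fun s => (∑ k ∈ range (orderOf v), u.2 ((v ^ k) s)) * w.1 s)]
    refine Finset.sum_congr rfl fun s _ => ?_
    rw [omg_shift v u.2 s]
  have h3 : ∑ s, (∑ k ∈ range (orderOf v), u.2 ((v ^ k) s)) * w.2 (h s) =
      ∑ s, ((∑ k ∈ range (orderOf v), u.2 ((v ^ k) s)) * w.2 s +
        (∑ k ∈ range (orderOf v), u.2 ((v ^ k) s)) * w.1 (v s) -
        (∑ k ∈ range (orderOf v), u.2 ((v ^ k) s)) * w.1 s) := by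
    refine Finset.sum_congr rfl fun s _ => ?_
    have := hw s
    linear_combination (∑ k ∈ range (orderOf v), u.2 ((v ^ k) s)) * this
  rw [h3, Finset.sum_sub_distrib, Finset.sum_add_distrib, h2]
  ring

end Pool.Agent.TP
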