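import Pool.Agent.Lib_helper53.TP.WDefs
import Pool.Agent.Lib_helper53.TP.B.OMG

/-!
# Common lemmas for the blocks HSW, HRC, HTT, NIV, GEN, PTA, TRA, TAU
-/

namespace Pool.Agent.TP

open Set Complex Finset

section
variable {S : Type}

theorem com_para_swap (A B : ℂ) : para A B = para B A := by
  ext z
  constructor
  · rintro ⟨x, y, h1, h2, h3, h4, rfl⟩
    exact ⟨y, x, h3, h4, h1, h2, by ring⟩
  · rintro ⟨x, y, h1, h2, h3, h4, rfl⟩
    exact ⟨y, x, h3, h4, h1, h2, by ring⟩

theorem com_opara_swap (A B : ℂ) : opara A B = opara B A := by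
  ext z
  constructor
  · rintro ⟨x, y, h1, h2, h3, h4, rfl⟩
    exact ⟨y, x, h3, h4, h1, h2, by ring⟩
  · rintro ⟨x, y, h1, h2, h3, h4, rfl⟩
    exact ⟨y, x, h3, h4, h1, h2, by ring⟩

theorem com_swap {h v : Equiv.Perm S} {A B : ℂ} {a b : S → ℂ} (H : HolO h v A B a b) :
    HolO v h B A b a := by
  obtain ⟨F, h1, h2, h3, h4, h5⟩ := H
  exact ⟨F, by rwa [com_para_swap], by rwa [com_opara_swap], h3, h5, h4⟩

theorem com_coord {A B : ℂ} (hAB : cross A B ≠ 0) (z : ℂ) :
    z = ((cross z B / cross A B : ℝ) : ℂ) * A + ((cross A z / cross A B : ℝ) : ℂ) * B := by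
  have h : A.re * B.im - A.im * B.re ≠ 0 := hAB
  apply Complex.ext
  · simp only [cross, add_re, mul_re, ofReal_re, ofReal_im, zero_mul, sub_zero]
    rw [div_mul_eq_mul_div, div_mul_eq_mul_div, ← add_div, eq_div_iff h]
    ring
  · simp only [cross, add_im, mul_im, ofReal_re, ofReal_im, zero_mul, add_zero]
    rw [div_mul_eq_mul_div, div_mul_eq_mul_div, ← add_div, eq_div_iff h]
    ring

theorem com_cross_left {A B : ℂ} (x y : ℝ) : cross (x * A + y * B) B = x * cross A B := by
  simp [cross]; ring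

theorem com_cross_right {A B : ℂ} (x y : ℝ) : cross A (x * A + y * B) = y * cross A B := by
  simp [cross]; ring

theorem com_mem_opara {A B : ℂ} (hAB : cross A B ≠ 0) (z : ℂ) :
    z ∈ opara A B ↔ 0 < cross z B / cross A B ∧ cross z B / cross A B < 1 ∧
      0 < cross A z / cross A B ∧ cross A z / cross A B < 1 := by
  constructor
  · rintro ⟨x, y, h1, h2, h3, h4, rfl⟩
    rw [com_cross_left, com_cross_right, mul_div_cancel_right₀ _ hAB,
      mul_div_cancel_right₀ _ hAB]
    exact ⟨h1, h2, h3, h4⟩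
  · rintro ⟨h1, h2, h3, h4⟩
    exact ⟨_, _, h1, h2, h3, h4, com_coord hAB z⟩

theorem com_opara_open {A B : ℂ} (hAB : cross A B ≠ 0) : IsOpen (opara A B) := by
  have c1 : Continuous fun z : ℂ => cross z B / cross A B := by
    unfold cross; fun_prop
  have c2 : Continuous fun z : ℂ => cross A z / cross A B := by
    unfold cross; fun_prop
  have e : opara A B = {z | 0 < cross z B / cross A B} ∩ {z | cross z B / cross A B < 1} ∩
      ({z | 0 < cross A z / cross A B} ∩ {z | cross A z / cross A B < 1}) := by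
    ext z
    rw [com_mem_opara hAB]
    simp only [mem_inter_iff, mem_setOf_eq]
    tauto
  rw [e]
  exact ((isOpen_lt continuous_const c1).inter (isOpen_lt c1 continuous_const)).inter
    ((isOpen_lt continuous_const c2).inter (isOpen_lt c2 continuous_const))

theorem com_conj {h v : Equiv.Perm S} {A B : ℂ} (hAB : cross A B ≠ 0) {a b : S → ℂ}
    (H : HolO h v A B a b) :
    HolO h v ((starRingEnd ℂ) A) ((starRingEnd ℂ) B) (fun s => (starRingEnd ℂ) (a s))
      (fun s => (starRingEnd ℂ) (b s)) := by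
  obtain ⟨F, h1, h2, h3, h4, h5⟩ := H
  have m1 : ∀ z, z ∈ para ((starRingEnd ℂ) A) ((starRingEnd ℂ) B) →
      (starRingEnd ℂ) z ∈ para A B := by
    rintro z ⟨x, y, g1, g2, g3, g4, rfl⟩
    exact ⟨x, y, g1, g2, g3, g4, by simp⟩
  have m2 : ∀ z, z ∈ opara ((starRingEnd ℂ) A) ((starRingEnd ℂ) B) →
      (starRingEnd ℂ) z ∈ opara A B := by
    rintro z ⟨x, y, g1, g2, g3, g4, rfl⟩
    exact ⟨x, y, g1, g2, g3, g4, by simp⟩
  refine ⟨fun s z => (starRingEnd ℂ) (F s ((starRingEnd ℂ) z)), fun s => ?_, fun s => ?_,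
    fun s => ?_, fun s t ht0 ht1 => ?_, fun s t ht0 ht1 => ?_⟩
  · exact continuous_conj.comp_continuousOn ((h1 s).comp continuous_conj.continuousOn m1)
  · intro z hz
    have d1 : DifferentiableAt ℂ (F s) ((starRingEnd ℂ) z) :=
      (h2 s).differentiableAt ((com_opara_open hAB).mem_nhds (m2 z hz))
    exact (differentiableAt_conj_conj_iff.2 d1).differentiableWithinAt
  · simp [h3]
  · have := h4 s t ht0 ht1
    simp only [map_mul, map_add, conj_ofReal, Complex.conj_conj]
    rw [this, map_sub]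
  · have := h5 s t ht0 ht1
    simp only [map_mul, map_add, conj_ofReal, Complex.conj_conj]
    rw [this, map_sub]

theorem com_holo_add {h v : Equiv.Perm S} {A B : ℂ} {a b a' b' : S → ℂ}
    (H : HolO h v A B a b) (H' : HolO h v A B a' b') :
    HolO h v A B (fun s => a s + a' s) (fun s => b s + b' s) := by
  obtain ⟨F, h1, h2, h3, h4, h5⟩ := H
  obtain ⟨G, g1, g2, g3, g4, g5⟩ := H'
  refine ⟨fun s z => F s z + G s z, fun s => (h1 s).add (g1 s), fun s => (h2 s).add (g2 s),
    fun s => by simp [h3, g3], fun s t t0 t1 => ?_, fun s t t0 t1 => ?_⟩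
  · simp only [h4 s t t0 t1, g4 s t t0 t1]; ring
  · simp only [h5 s t t0 t1, g5 s t t0 t1]; ring

theorem com_holo_smul {h v : Equiv.Perm S} {A B : ℂ} {a b : S → ℂ} (c : ℂ)
    (H : HolO h v A B a b) : HolO h v A B (fun s => c * a s) (fun s => c * b s) := by
  obtain ⟨F, h1, h2, h3, h4, h5⟩ := H
  refine ⟨fun s z => c * F s z, fun s => continuousOn_const.mul (h1 s),
    fun s => (h2 s).const_mul c, fun s => by simp [h3], fun s t t0 t1 => ?_,
    fun s t t0 t1 => ?_⟩
  · simp only [h4 s t t0 t1]; ring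
  · simp only [h5 s t t0 t1]; ring

/-- The form `dz`. -/
theorem com_holo_one (h v : Equiv.Perm S) (A B : ℂ) :
    HolO h v A B (fun _ => A) (fun _ => B) := by
  refine ⟨fun _ z => z, fun _ => continuousOn_id, fun _ => differentiableOn_id,
    fun _ => rfl, fun s t _ _ => by ring, fun s t _ _ => by ring⟩

/-- Rescaling of the parallelograms. -/
theorem com_holo_scale {h v : Equiv.Perm S} {A B : ℂ} {a b : S → ℂ} {r : ℝ} (hr : 0 < r)
    (H : HolO h v A B a b) : HolO h v (r * A) (r * B) a b := by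
  obtain ⟨F, h1, h2, h3, h4, h5⟩ := H
  have hr' : (r : ℂ) ≠ 0 := by exact_mod_cast hr.ne'
  have m1 : ∀ z, z ∈ para (r * A) (r * B) → z / r ∈ para A B := by
    rintro z ⟨x, y, g1, g2, g3, g4, rfl⟩
    exact ⟨x, y, g1, g2, g3, g4, by field_simp⟩
  have m2 : ∀ z, z ∈ opara (r * A) (r * B) → z / r ∈ opara A B := by
    rintro z ⟨x, y, g1, g2, g3, g4, rfl⟩
    exact ⟨x, y, g1, g2, g3, g4, by field_simp⟩
  refine ⟨fun s z => F s (z / r), fun s => ?_, fun s => ?_, fun s => by simp [h3],
    fun s t t0 t1 => ?_, fun s t t0 t1 => ?_⟩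
  · exact (h1 s).comp (continuous_id.div_const _).continuousOn m1
  · exact (h2 s).comp (differentiable_id.div_const _).differentiableOn m2
  · have e1 : (t : ℂ) * (r * B) / r = t * B := by field_simp
    have e2 : ((r : ℂ) * A + t * (r * B)) / r = A + t * B := by field_simp
    simp only [e1, e2]
    exact h4 s t t0 t1
  · have e1 : (t : ℂ) * (r * A) / r = t * A := by field_simp
    have e2 : ((r : ℂ) * B + t * (r * A)) / r = B + t * A := by field_simp
    simp only [e1, e2]
    exact h5 s t t0 t1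

/-! ### The intersection form is bilinear -/

variable [Fintype S]

theorem com_om_add_left (h v : Equiv.Perm S) (u u' w : Pr S) :
    om h v (u + u') w = om h v u w + om h v u' w := by
  simp only [om, Prod.fst_add, Prod.snd_add, Pi.add_apply, ← Finset.sum_add_distrib]
  exact Finset.sum_congr rfl fun s _ => by ring

theorem com_om_add_right (h v : Equiv.Perm S) (u w w' : Pr S) :
    om h v u (w + w') = om h v u w + om h v u w' := by
  simp only [om, Prod.fst_add, Prod.snd_add, Pi.add_apply, ← Finset.sum_add_distrib]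
  exact Finset.sum_congr rfl fun s _ => by ring

theorem com_om_smul_left (h v : Equiv.Perm S) (r : ℝ) (u w : Pr S) :
    om h v (r • u) w = r * om h v u w := by
  simp only [om, Prod.smul_fst, Prod.smul_snd, Pi.smul_apply, smul_eq_mul, Finset.mul_sum]
  exact Finset.sum_congr rfl fun s _ => by ring

theorem com_om_smul_right (h v : Equiv.Perm S) (r : ℝ) (u w : Pr S) :
    om h v u (r • w) = r * om h v u w := by
  simp only [om, Prod.smul_fst, Prod.smul_snd, Pi.smul_apply, smul_eq_mul, Finset.mul_sum]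
  exact Finset.sum_congr rfl fun s _ => by ring

theorem com_om_self {h v : Equiv.Perm S} {u : Pr S} (hu : u ∈ ZO h v) : om h v u u = 0 := by
  have := om_anti hu hu
  linarith

theorem com_om_bo' {h v : Equiv.Perm S} {u w : Pr S} (hu : u ∈ ZO h v) (hw : w ∈ BO h v) :
    om h v w u = 0 := by
  rw [om_anti (BO_le_ZO h v hw) hu, om_bo hu hw, neg_zero]

end

end Pool.Agent.TP
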