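import Pool.Agent.Lib_helper53.TP.WDefs

/-! Block DAV. -/

namespace Pool.Agent.TP

open Set Complex Finset

theorem dav_per (f : ℕ → ℝ) (b : ℕ) (hf : ∀ k, f (k + b) = f k) (a : ℕ) :
    ∑ k ∈ range (a * b), f k = a * ∑ k ∈ range b, f k := by
  have hper : ∀ a k, f (a * b + k) = f k := by
    intro a
    induction a with
    | zero => intro k; simp
    | succ a ih =>
      intro k
      have : (a + 1) * b + k = (a * b + k) + b := by ring
      rw [this, hf, ih]
  induction a with
  | zero => simp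
  | succ a ih =>
    have : (a + 1) * b = a * b + b := by ring
    rw [this, Finset.sum_range_add, ih]
    rw [Finset.sum_congr rfl fun k _ => hper a k]
    push_cast; ring

theorem dav_sum {X : Type} [Finite X] (T : Equiv.Perm X) (w : X → ℝ) (x : X) (R : ℕ)
    (hR : (T ^ R) x = x) :
    orderOf T * ∑ k ∈ range R, w ((T ^ k) x) = R * ∑ k ∈ range (orderOf T), w ((T ^ k) x) := by
  have h1 := dav_per (fun k => w ((T ^ k) x)) R (fun k => by
    show w ((T ^ (k + R)) x) = w ((T ^ k) x)
    rw [pow_add, Equiv.Perm.mul_apply, hR]) (orderOf T)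
  have h2 := dav_per (fun k => w ((T ^ k) x)) (orderOf T) (fun k => by
    show w ((T ^ (k + orderOf T)) x) = w ((T ^ k) x)
    rw [pow_add, pow_orderOf_eq_one, mul_one]) R
  rw [← h1, ← h2, mul_comm R]

theorem avg_induced {X Y : Type} [Finite X] [Finite Y] (T : Equiv.Perm X) (ι : Y → X)
    (hι : Function.Injective ι) (T' : Equiv.Perm Y) (ρ : Y → ℕ) (hρ : ∀ y, 0 < ρ y)
    (h1 : ∀ y, (T ^ ρ y) (ι y) = ι (T' y))
    (h2 : ∀ y k, 0 < k → k < ρ y → (T ^ k) (ι y) ∉ range ι) (w : X → ℝ)
    (hw : ∀ x, x ∉ range ι → w x = 0) (y : Y) :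
    avg T w (ι y) = avg T' (fun z => w (ι z)) y / avg T' (fun z => (ρ z : ℝ)) y := by
  set R : ℕ → ℕ := fun m => ∑ i ∈ Finset.range m, ρ ((T' ^ i) y) with hRdef
  have hT : ∀ m, (T ^ R m) (ι y) = ι ((T' ^ m) y) := by
    intro m
    induction m with
    | zero => simp [hRdef]
    | succ m ih =>
      have e1 : R (m + 1) = ρ ((T' ^ m) y) + R m := by
        simp only [hRdef, Finset.sum_range_succ]; ring
      rw [e1, pow_add, Equiv.Perm.mul_apply, ih, h1, pow_succ', Equiv.Perm.mul_apply]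
  have hS : ∀ m, ∑ k ∈ Finset.range (R m), w ((T ^ k) (ι y)) =
      ∑ i ∈ Finset.range m, w (ι ((T' ^ i) y)) := by
    intro m
    induction m with
    | zero => simp [hRdef]
    | succ m ih =>
      have e1 : R (m + 1) = R m + ρ ((T' ^ m) y) := by
        simp only [hRdef, Finset.sum_range_succ]
      rw [e1, Finset.sum_range_add, ih, Finset.sum_range_succ]
      congr 1
      have e2 : ∀ k, w ((T ^ (R m + k)) (ι y)) = w ((T ^ k) (ι ((T' ^ m) y))) := by
        intro k
        rw [add_comm, pow_add, Equiv.Perm.mul_apply, hT]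
      rw [Finset.sum_congr rfl fun k _ => e2 k]
      set z := (T' ^ m) y
      obtain ⟨r, hr⟩ : ∃ r, ρ z = r + 1 := ⟨ρ z - 1, by have := hρ z; omega⟩
      rw [hr, Finset.sum_range_succ']
      have e3 : ∑ k ∈ Finset.range r, w ((T ^ (k + 1)) (ι z)) = 0 := by
        refine Finset.sum_eq_zero fun k hk => ?_
        rw [Finset.mem_range] at hk
        exact hw _ (h2 z (k + 1) (by omega) (by omega))
      rw [e3]; simp
  set M := orderOf T' with hM
  have hMpos : 0 < M := orderOf_pos T'
  have hNpos : 0 < orderOf T := orderOf_pos T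
  have hyM : (T' ^ M) y = y := by rw [hM, pow_orderOf_eq_one]; rfl
  have hRM : (T ^ R M) (ι y) = ι y := by rw [hT, hyM]
  have h3 := dav_sum T w (ι y) (R M) hRM
  rw [hS M] at h3
  have hRpos : 0 < R M := by
    obtain ⟨r, hr⟩ : ∃ r, M = r + 1 := ⟨M - 1, by omega⟩
    rw [hr]
    simp only [hRdef]
    rw [Finset.sum_range_succ]
    have := hρ ((T' ^ r) y)
    omega
  have hRr : (R M : ℝ) = ∑ i ∈ Finset.range M, (ρ ((T' ^ i) y) : ℝ) := by
    simp only [hRdef]; push_cast; rfl
  unfold avg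
  rw [← hM, ← hRr]
  have a1 : (0 : ℝ) < R M := by exact_mod_cast hRpos
  have a2 : (0 : ℝ) < M := by exact_mod_cast hMpos
  have a3 : (0 : ℝ) < orderOf T := by exact_mod_cast hNpos
  field_simp
  linarith

theorem dav_order {X Y : Type} (e : X ≃ Y) (T : Equiv.Perm X)
    (T' : Equiv.Perm Y) (hT : ∀ x, T' (e x) = e (T x)) : orderOf T' = orderOf T := by
  have h1 : T' = e.permCongrHom T := by
    ext y
    have := hT (e.symm y)
    rw [Equiv.apply_symm_apply] at this
    rw [this]
    rfl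
  rw [h1, MulEquiv.orderOf_eq]

theorem GG_conj {X Y : Type} [Fintype X] [Fintype Y] (e : X ≃ Y) (T : Equiv.Perm X)
    (T' : Equiv.Perm Y) (hT : ∀ x, T' (e x) = e (T x)) (u w : Y → ℝ) :
    GG T' u w = GG T (fun x => u (e x)) (fun x => w (e x)) := by
  have hk : ∀ (k : ℕ) (x : X), (T' ^ k) (e x) = e ((T ^ k) x) := by
    intro k
    induction k with
    | zero => intro x; rfl
    | succ k ih =>
      intro x
      rw [pow_succ', Equiv.Perm.mul_apply, ih, hT, pow_succ', Equiv.Perm.mul_apply]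
  unfold GG avg
  rw [← Equiv.sum_comp e, dav_order e T T' hT]
  refine Finset.sum_congr rfl fun x _ => ?_
  simp only [hk]

end Pool.Agent.TP
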