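import Pool.Agent.Lib_helper53.TP.WDefs

/-!
# TP block DLR: removal of the longest letter
-/

namespace Pool.Agent.TP

open Set Complex Finset

theorem dlr_len_pos : ∀ i, 0 < len i
  | 0 => by simp [len]
  | k + 1 => by
    have h : 0 < WW k := Nat.pos_of_ne_zero (NeZero.ne _)
    simp only [len]
    positivity

theorem dlr_WW_succ (j : ℕ) : WW (j + 1) = WW j + len (j + 1) := rfl

theorem dlr_WW_lt (j : ℕ) : WW j < WW (j + 1) := by
  have := dlr_len_pos (j + 1)
  rw [dlr_WW_succ]; omega

theorem dlr_cast_val {n : ℕ} [NeZero n] {k : ℕ} (hk : k < n) : ((k : ℕ) : ZMod n).val = k :=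
  ZMod.val_cast_of_lt hk

theorem dlr_cast_inj {n : ℕ} [NeZero n] {k l : ℕ} (hk : k < n) (hl : l < n)
    (h : ((k : ℕ) : ZMod n) = l) : k = l := by
  rw [← dlr_cast_val hk, ← dlr_cast_val hl, h]

/-- existence of a first element for a nonempty proper set -/
theorem dlr_exists_first {n : ℕ} [NeZero n] (L : Set (ZMod n)) (x0 : ZMod n) (hx0 : x0 ∈ L)
    (x1 : ZMod n) (hx1 : x1 ∉ L) : ∃ y, y ∈ L ∧ y - 1 ∉ L := by
  by_contra hcon
  push Not at hcon
  have h : ∀ k : ℕ, x0 - k ∈ L := by
    intro k
    induction k with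
    | zero => simpa using hx0
    | succ k ih =>
      have := hcon _ ih
      have e : x0 - (k : ZMod n) - 1 = x0 - ((k + 1 : ℕ) : ZMod n) := by push_cast; ring
      rwa [e] at this
  apply hx1
  have := h (x0 - x1).val
  rwa [ZMod.natCast_zmod_val, sub_sub_cancel] at this

/-- the structure of a set with a unique first element -/
theorem dlr_interval {n : ℕ} [NeZero n] (L : Set (ZMod n)) (y0 : ZMod n) (hy0 : y0 ∈ L)
    (hy1 : y0 - 1 ∉ L) (huniq : ∀ y, y ∈ L → y - 1 ∉ L → y = y0) :
    ∀ i : ℕ, i < n → (y0 + i ∈ L ↔ i < Nat.card L) := by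
  classical
  have hn : 0 < n := Nat.pos_of_ne_zero (NeZero.ne n)
  -- the first index outside
  have hex : ∃ i : ℕ, 1 ≤ i ∧ y0 + i ∉ L := by
    refine ⟨2 * n - 1, by omega, ?_⟩
    have e : (((2 * n - 1 : ℕ)) : ZMod n) = -1 := by
      have h1 : ((2 * n - 1 : ℕ) : ZMod n) + 1 = 0 := by
        have : ((2 * n - 1 : ℕ) : ZMod n) + 1 = ((2 * n - 1 + 1 : ℕ) : ZMod n) := by push_cast; rfl
        rw [this, show 2 * n - 1 + 1 = 2 * n by omega]
        simp
      exact eq_neg_of_add_eq_zero_left h1
    rw [e, ← sub_eq_add_neg]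
    exact hy1
  set i0 := Nat.find hex with hi0
  have hi0s := Nat.find_spec hex
  rw [← hi0] at hi0s
  have hmin : ∀ i < i0, y0 + i ∈ L := by
    intro i hi
    rcases Nat.eq_zero_or_pos i with h | h
    · subst h; simpa using hy0
    · by_contra hc
      exact Nat.find_min hex hi ⟨h, hc⟩
  have hi0n : i0 < n := by
    by_contra hc
    push Not at hc
    have h1 : n - 1 < i0 := by omega
    have := hmin _ h1
    apply hy1
    have e : (((n - 1 : ℕ)) : ZMod n) = -1 := by
      have h1 : ((n - 1 : ℕ) : ZMod n) + 1 = 0 := by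
        have : ((n - 1 : ℕ) : ZMod n) + 1 = ((n - 1 + 1 : ℕ) : ZMod n) := by push_cast; rfl
        rw [this, show n - 1 + 1 = n by omega]
        simp
      exact eq_neg_of_add_eq_zero_left h1
    rw [sub_eq_add_neg, ← e]
    exact this
  have hout : ∀ k, i0 + k < n → y0 + ((i0 + k : ℕ) : ZMod n) ∉ L := by
    intro k
    induction k with
    | zero => intro _; simpa using hi0s.2
    | succ k ih =>
      intro hk hc
      have h1 := ih (by omega)
      have h2 := huniq _ hc (by
        have e : y0 + ((i0 + (k + 1) : ℕ) : ZMod n) - 1 = y0 + ((i0 + k : ℕ) : ZMod n) := by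
          push_cast; ring
        rw [e]; exact h1)
      have h3 : ((i0 + (k + 1) : ℕ) : ZMod n) = ((0 : ℕ) : ZMod n) := by
        have : y0 + ((i0 + (k + 1) : ℕ) : ZMod n) = y0 + 0 := by rw [h2, add_zero]
        simpa using add_left_cancel this
      have := dlr_cast_inj hk hn h3
      omega
  have hchar : ∀ i : ℕ, i < n → (y0 + i ∈ L ↔ i < i0) := by
    intro i hi
    constructor
    · intro h
      by_contra hc
      push Not at hc
      obtain ⟨k, rfl⟩ := Nat.exists_eq_add_of_le hc
      exact hout k hi h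
    · exact hmin i
  have hcard : Nat.card L = i0 := by
    have e : L = (fun i : ℕ => y0 + (i : ZMod n)) '' (Set.Iio i0) := by
      ext x
      constructor
      · intro hx
        refine ⟨(x - y0).val, ?_, ?_⟩
        · have h1 := (hchar (x - y0).val (ZMod.val_lt _)).1 (by
            rw [ZMod.natCast_zmod_val, add_sub_cancel]; exact hx)
          exact h1
        · simp only [ZMod.natCast_zmod_val, add_sub_cancel]
      · rintro ⟨i, hi, rfl⟩
        exact hmin i hi
    rw [Nat.card_coe_set_eq, e, Set.InjOn.ncard_image]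
    · simp [Set.ncard_eq_toFinset_card']
    · intro a ha b hb hab
      simp only [Set.mem_Iio] at ha hb
      have : (a : ZMod n) = b := by simpa using hab
      exact dlr_cast_inj (by omega) (by omega) this
  rw [hcard]
  exact hchar

theorem lett_reduce (j : ℕ) (τ : Equiv.Perm (ZMod (WW (j + 1)))) (lab : ZMod (WW (j + 1)) → ℕ)
    (H : Lett (j + 1) (Equiv.addRight (1 : ZMod (WW (j + 1)))) τ lab) :
    ∃ (a δ : ZMod (WW (j + 1))) (σ : Equiv.Perm (ZMod (WW j))),
      (∀ y : ZMod (WW j), τ (((y.val : ℕ) : ZMod (WW (j + 1))) + a) + δ =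
        (((σ y).val : ℕ) : ZMod (WW (j + 1)))) ∧
      (∀ x : ZMod (WW (j + 1)), WW j ≤ x.val → τ (x + a) + δ = x) ∧
      (∀ x : ZMod (WW (j + 1)), WW j ≤ x.val → lab (x + a) = j + 1) ∧
      (∀ x : ZMod (WW (j + 1)), x.val < WW j → lab (x + a) ≤ j) ∧
      (1 ≤ j → Lett j (Equiv.addRight (1 : ZMod (WW j))) σ
        (fun y => lab (((y.val : ℕ) : ZMod (WW (j + 1))) + a))) := by
  classical
  have hn : WW (j + 1) = WW j + len (j + 1) := dlr_WW_succ j
  have hlt := dlr_WW_lt j
  have hlp := dlr_len_pos (j + 1)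
  have hwp : 0 < WW j := Nat.pos_of_ne_zero (NeZero.ne _)
  have hsy : ∀ x : ZMod (WW (j + 1)), (Equiv.addRight (1 : ZMod (WW (j + 1)))).symm x = x - 1 := by
    intro x; simp [sub_eq_add_neg]
  have hfirst : ∀ x y, lab x = lab y → lab (x - 1) ≠ lab x → lab (y - 1) ≠ lab y → x = y := by
    intro x y h1 h2 h3
    exact H.first x y h1 (by rw [hsy]; exact h2) (by rw [hsy]; exact h3)
  have htrans : ∀ x, lab (x + 1) = lab x → τ (x + 1) = τ x + 1 := by
    intro x hx
    have := H.trans x (by simpa using hx)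
    simpa using this
  have hcardL : ∀ i ≤ j + 1, Nat.card {x // lab x = i} = len i := H.card
  -- nonempty labels
  have hne : ∀ i ≤ j + 1, ∃ x, lab x = i := by
    intro i hi
    have h1 := hcardL i hi
    have h2 := dlr_len_pos i
    rw [← h1] at h2
    obtain ⟨⟨x, hx⟩⟩ := (Nat.card_pos_iff.1 h2).1
    exact ⟨x, hx⟩
  obtain ⟨xj, hxj⟩ := hne (j + 1) le_rfl
  obtain ⟨x00, hx00⟩ := hne 0 (by omega)
  obtain ⟨y0, hy0, hy1⟩ := dlr_exists_first {x | lab x = j + 1} xj hxj x00 (by
    simp only [Set.mem_ofPred_eq]; omega)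
  have hint := dlr_interval {x | lab x = j + 1} y0 hy0 hy1 (by
    intro y hy hy'
    simp only [Set.mem_ofPred_eq] at hy hy' hy0 hy1
    exact hfirst y y0 (by rw [hy, hy0]) (by rw [hy]; exact hy') (by rw [hy0]; exact hy1))
  have hcL : Nat.card {x | lab x = j + 1} = len (j + 1) := hcardL (j + 1) le_rfl
  rw [hcL] at hint
  simp only [Set.mem_ofPred_eq] at hint
  set a : ZMod (WW (j + 1)) := y0 - (WW j : ℕ) with ha
  have hz : ((WW (j + 1) : ℕ) : ZMod (WW (j + 1))) = 0 := ZMod.natCast_self _
  -- label of x + a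
  have hlab_hi : ∀ x : ZMod (WW (j + 1)), WW j ≤ x.val → lab (x + a) = j + 1 := by
    intro x hx
    have hxv := ZMod.val_lt x
    have e : x + a = y0 + ((x.val - WW j : ℕ) : ZMod (WW (j + 1))) := by
      rw [Nat.cast_sub hx, ZMod.natCast_zmod_val, ha]; ring
    rw [e]
    exact (hint (x.val - WW j) (by omega)).2 (by omega)
  have hlab_lo : ∀ x : ZMod (WW (j + 1)), x.val < WW j → lab (x + a) ≤ j := by
    intro x hx
    have h1 := H.le (x + a)
    have h2 : lab (x + a) ≠ j + 1 := by
      have e : x + a = y0 + ((x.val + len (j + 1) : ℕ) : ZMod (WW (j + 1))) := by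
        have e1 : ((len (j + 1) : ℕ) : ZMod (WW (j + 1))) = -((WW j : ℕ) : ZMod (WW (j + 1))) := by
          apply eq_neg_of_add_eq_zero_left
          rw [← Nat.cast_add, Nat.add_comm (len (j + 1)) (WW j), ← hn, hz]
        rw [Nat.cast_add, ZMod.natCast_zmod_val, e1, ha]; ring
      rw [e]
      intro hc
      have := (hint (x.val + len (j + 1)) (by omega)).1 hc
      omega
    omega
  -- translation on the long letter
  have htr : ∀ i : ℕ, i < len (j + 1) → τ (y0 + i) = τ y0 + i := by
    intro i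
    induction i with
    | zero => intro _; simp
    | succ i ih =>
      intro hi
      have h1 : lab (y0 + (i : ZMod (WW (j + 1)))) = j + 1 := (hint i (by omega)).2 (by omega)
      have h2 : lab (y0 + ((i + 1 : ℕ) : ZMod (WW (j + 1)))) = j + 1 :=
        (hint (i + 1) (by omega)).2 (by omega)
      have e : y0 + ((i + 1 : ℕ) : ZMod (WW (j + 1))) = y0 + (i : ZMod (WW (j + 1))) + 1 := by
        push_cast; ring
      rw [e] at h2 ⊢
      rw [htrans _ (by rw [h1, h2]), ih (by omega)]
      push_cast; ring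
  set δ : ZMod (WW (j + 1)) := (WW j : ℕ) - τ y0 with hδ
  have h2 : ∀ x : ZMod (WW (j + 1)), WW j ≤ x.val → τ (x + a) + δ = x := by
    intro x hx
    have hxv := ZMod.val_lt x
    have e : x + a = y0 + ((x.val - WW j : ℕ) : ZMod (WW (j + 1))) := by
      rw [Nat.cast_sub hx, ZMod.natCast_zmod_val, ha]; ring
    rw [e, htr _ (by omega), hδ, Nat.cast_sub hx, ZMod.natCast_zmod_val]
    ring
  -- the permutation
  set ψ : ZMod (WW (j + 1)) → ZMod (WW (j + 1)) := fun x => τ (x + a) + δ with hψ
  have hψi : Function.Injective ψ := by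
    intro x y hxy
    have h1 : τ (x + a) = τ (y + a) := add_right_cancel hxy
    exact add_right_cancel (τ.injective h1)
  have hψlo : ∀ x : ZMod (WW (j + 1)), x.val < WW j → (ψ x).val < WW j := by
    intro x hx
    by_contra hc
    push Not at hc
    have h3 : ψ (ψ x) = ψ x := h2 (ψ x) hc
    have h4 := hψi h3
    rw [h4] at hc
    omega
  have hcv : ∀ y : ZMod (WW j), (((y.val : ℕ) : ZMod (WW (j + 1)))).val = y.val := fun y =>
    dlr_cast_val (lt_trans (ZMod.val_lt y) hlt)
  set σf : ZMod (WW j) → ZMod (WW j) := fun y =>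
    ((ψ ((y.val : ℕ) : ZMod (WW (j + 1)))).val : ZMod (WW j)) with hσf
  have hσv : ∀ y : ZMod (WW j), (σf y).val = (ψ ((y.val : ℕ) : ZMod (WW (j + 1)))).val := by
    intro y
    exact dlr_cast_val (hψlo _ (by rw [hcv]; exact ZMod.val_lt y))
  have hσi : Function.Injective σf := by
    intro x y hxy
    have h3 : (σf x).val = (σf y).val := by rw [hxy]
    rw [hσv, hσv] at h3
    have h4 := hψi (ZMod.val_injective _ h3)
    have h5 : (((x.val : ℕ) : ZMod (WW (j + 1)))).val = (((y.val : ℕ) : ZMod (WW (j + 1)))).val := by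
      rw [h4]
    rw [hcv, hcv] at h5
    exact ZMod.val_injective _ h5
  set σ : Equiv.Perm (ZMod (WW j)) := Equiv.ofBijective σf (Finite.injective_iff_bijective.1 hσi)
    with hσ
  have hσe : ∀ y, σ y = σf y := fun y => rfl
  have h1 : ∀ y : ZMod (WW j), τ (((y.val : ℕ) : ZMod (WW (j + 1))) + a) + δ =
        (((σ y).val : ℕ) : ZMod (WW (j + 1))) := by
    intro y
    rw [hσe, hσv, ZMod.natCast_zmod_val]
  refine ⟨a, δ, σ, h1, h2, hlab_hi, hlab_lo, ?_⟩
  intro hj1
  have hsy' : ∀ x : ZMod (WW j), (Equiv.addRight (1 : ZMod (WW j))).symm x = x - 1 := by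
    intro x; simp [sub_eq_add_neg]
  -- predecessor
  have hpred : ∀ y : ZMod (WW j), y.val ≠ 0 →
      (((y - 1).val : ℕ) : ZMod (WW (j + 1))) = ((y.val : ℕ) : ZMod (WW (j + 1))) - 1 := by
    intro y hy
    have e : (y - 1).val = y.val - 1 := by
      have e1 : y - 1 = ((y.val - 1 : ℕ) : ZMod (WW j)) := by
        rw [Nat.cast_sub (by omega), ZMod.natCast_zmod_val, Nat.cast_one]
      rw [e1]
      exact dlr_cast_val (by have := ZMod.val_lt y; omega)
    rw [e, Nat.cast_sub (by omega), Nat.cast_one]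
  -- zero is first
  have hzero : ∀ y : ZMod (WW j), y.val = 0 →
      lab (((y.val : ℕ) : ZMod (WW (j + 1))) + a - 1) = j + 1 := by
    intro y hy
    rw [hy, Nat.cast_zero, zero_add]
    have e : a - 1 = ((WW (j + 1) - 1 : ℕ) : ZMod (WW (j + 1))) + a := by
      rw [Nat.cast_sub (by omega), hz, Nat.cast_one]; ring
    rw [e]
    apply hlab_hi
    rw [dlr_cast_val (by omega)]
    omega
  have hlo' : ∀ y : ZMod (WW j), lab (((y.val : ℕ) : ZMod (WW (j + 1))) + a) ≤ j := fun y =>
    hlab_lo _ (by rw [hcv]; exact ZMod.val_lt y)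
  have hfirst' : ∀ y : ZMod (WW j),
      lab ((((y - 1).val : ℕ) : ZMod (WW (j + 1))) + a) ≠
        lab (((y.val : ℕ) : ZMod (WW (j + 1))) + a) →
      lab (((y.val : ℕ) : ZMod (WW (j + 1))) + a - 1) ≠
        lab (((y.val : ℕ) : ZMod (WW (j + 1))) + a) := by
    intro y hy
    by_cases h0 : y.val = 0
    · rw [hzero y h0]
      have := hlo' y
      omega
    · rw [hpred y h0] at hy
      have e : ((y.val : ℕ) : ZMod (WW (j + 1))) + a - 1 =
        ((y.val : ℕ) : ZMod (WW (j + 1))) - 1 + a := by ring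
      rw [e]; exact hy
  have hinj : ∀ x y : ZMod (WW j), ((x.val : ℕ) : ZMod (WW (j + 1))) + a =
      ((y.val : ℕ) : ZMod (WW (j + 1))) + a → x = y := by
    intro x y hxy
    have h3 := add_right_cancel hxy
    have h4 : (((x.val : ℕ) : ZMod (WW (j + 1)))).val = (((y.val : ℕ) : ZMod (WW (j + 1)))).val := by
      rw [h3]
    rw [hcv, hcv] at h4
    exact ZMod.val_injective _ h4
  have hF : ∀ x y : ZMod (WW j), lab (((x.val : ℕ) : ZMod (WW (j + 1))) + a) =
      lab (((y.val : ℕ) : ZMod (WW (j + 1))) + a) →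
      lab ((((x - 1).val : ℕ) : ZMod (WW (j + 1))) + a) ≠
        lab (((x.val : ℕ) : ZMod (WW (j + 1))) + a) →
      lab ((((y - 1).val : ℕ) : ZMod (WW (j + 1))) + a) ≠
        lab (((y.val : ℕ) : ZMod (WW (j + 1))) + a) → x = y := by
    intro x y hxy hx hy
    exact hinj x y (hfirst _ _ hxy (hfirst' x hx) (hfirst' y hy))
  -- a preimage of every point with label at most j
  have hpre : ∀ x : ZMod (WW (j + 1)), lab x ≤ j → ∃ y : ZMod (WW j),
      ((y.val : ℕ) : ZMod (WW (j + 1))) + a = x := by
    intro x hx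
    have hv : (x - a).val < WW j := by
      by_contra hc
      push Not at hc
      have := hlab_hi (x - a) hc
      rw [sub_add_cancel] at this
      omega
    refine ⟨(((x - a).val : ℕ) : ZMod (WW j)), ?_⟩
    rw [dlr_cast_val hv, ZMod.natCast_zmod_val, sub_add_cancel]
  refine ⟨?_, hlo', ?_, ?_, ?_⟩
  · -- cyc
    intro x y
    refine ⟨(y - x).val, ?_⟩
    have : ∀ k : ℕ, ((Equiv.addRight (1 : ZMod (WW j))) ^ k) x = x + k := by
      intro k
      induction k with
      | zero => simp
      | succ k ih =>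
        rw [pow_succ', Equiv.Perm.mul_apply, ih]
        simp only [Equiv.coe_addRight]
        push_cast; ring
    rw [this, ZMod.natCast_zmod_val]; ring
  · -- card
    intro i hi
    rw [← hcardL i (by omega)]
    apply Nat.card_congr
    refine Equiv.ofBijective (fun y => ⟨((y.1.val : ℕ) : ZMod (WW (j + 1))) + a, y.2⟩) ⟨?_, ?_⟩
    · rintro ⟨x, hx⟩ ⟨y, hy⟩ hxy
      simp only [Subtype.mk.injEq] at hxy
      exact Subtype.ext (hinj x y hxy)
    · rintro ⟨x, hx⟩
      obtain ⟨y, hy⟩ := hpre x (by omega)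
      exact ⟨⟨y, by rw [hy]; exact hx⟩, Subtype.ext hy⟩
  · -- first
    intro x y hxy hx hy
    rw [hsy'] at hx hy
    exact hF x y hxy hx hy
  · -- trans
    intro x hx
    simp only [Equiv.coe_addRight] at hx ⊢
    by_cases hw : x.val + 1 < WW j
    · have e : (x + 1).val = x.val + 1 := by
        have e1 : x + 1 = ((x.val + 1 : ℕ) : ZMod (WW j)) := by
          rw [Nat.cast_add, ZMod.natCast_zmod_val, Nat.cast_one]
        rw [e1]
        exact dlr_cast_val hw
      have e2 : (((x + 1).val : ℕ) : ZMod (WW (j + 1))) + a =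
          ((x.val : ℕ) : ZMod (WW (j + 1))) + a + 1 := by
        rw [e, Nat.cast_add, Nat.cast_one]; ring
      have h3 := h1 (x + 1)
      have h4 := h1 x
      rw [e2] at h3 hx
      rw [htrans _ hx] at h3
      have h5 : (((σ (x + 1)).val : ℕ) : ZMod (WW (j + 1))) =
          (((σ x).val + 1 : ℕ) : ZMod (WW (j + 1))) := by
        rw [← h3, Nat.cast_add, ← h4, Nat.cast_one]; ring
      have h6 := dlr_cast_inj (lt_trans (ZMod.val_lt _) hlt)
        (by have := ZMod.val_lt (σ x); omega) h5
      have h7 : (((σ (x + 1)).val : ℕ) : ZMod (WW j)) = (((σ x).val + 1 : ℕ) : ZMod (WW j)) := by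
        rw [h6]
      rwa [Nat.cast_add, ZMod.natCast_zmod_val, ZMod.natCast_zmod_val, Nat.cast_one] at h7
    · exfalso
      have hx1 : x + 1 = 0 := by
        have : x.val + 1 = WW j := by have := ZMod.val_lt x; omega
        have e1 : x + 1 = ((x.val + 1 : ℕ) : ZMod (WW j)) := by
          rw [Nat.cast_add, ZMod.natCast_zmod_val, Nat.cast_one]
        rw [e1, this, ZMod.natCast_self]
      rw [hx1] at hx
      -- the set of reduced positions with the same label
      set i := lab (((x.val : ℕ) : ZMod (WW (j + 1))) + a) with hi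
      -- another label
      obtain ⟨l, hl, hli⟩ : ∃ l ≤ j, l ≠ i := by
        by_cases h : i = 0
        · exact ⟨1, hj1, by omega⟩
        · exact ⟨0, by omega, by omega⟩
      obtain ⟨x', hx'⟩ := hne l (by omega)
      obtain ⟨y', hy'⟩ := hpre x' (by omega)
      -- 0 is a first element, find another
      -- consider the smallest index m such that all positions from m to WW j - 1 have label i
      have hex : ∃ m : ℕ, ∀ k, m ≤ k → k < WW j → lab ((k : ZMod (WW (j + 1))) + a) = i :=
        ⟨WW j, fun k h1 h2 => by omega⟩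
      set m := Nat.find hex with hm
      have hms := Nat.find_spec hex
      rw [← hm] at hms
      have hmle : m ≤ WW j - 1 := by
        apply Nat.find_min' hex
        intro k hk1 hk2
        have hkx : k = x.val := by have := ZMod.val_lt x; omega
        rw [hkx]
      have hm0 : m ≠ 0 := by
        intro h0
        have := hms y'.val (by omega) (ZMod.val_lt _)
        rw [hy', hx'] at this
        exact hli this
      have hmprev : lab (((m - 1 : ℕ) : ZMod (WW (j + 1))) + a) ≠ i := by
        intro hc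
        refine Nat.find_min hex (m := m - 1) (by omega) ?_
        intro k hk1 hk2
        rcases Nat.eq_or_lt_of_le hk1 with h | h
        · rw [← h]; exact hc
        · exact hms k (by omega) hk2
      have hmi : lab ((m : ZMod (WW (j + 1))) + a) = i := hms m le_rfl (by omega)
      have h0i : lab (((0 : ℕ) : ZMod (WW (j + 1))) + a) = i := by
        simpa using hx
      have e3 : ((m : ℕ) : ZMod (WW (j + 1))) + a - 1 = ((m - 1 : ℕ) : ZMod (WW (j + 1))) + a := by
        rw [Nat.cast_sub (by omega), Nat.cast_one]; ring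
      have h8 := hfirst (((m : ℕ) : ZMod (WW (j + 1))) + a) (((0 : ℕ) : ZMod (WW (j + 1))) + a)
        (by rw [hmi, h0i]) (by rw [hmi, e3]; exact hmprev) (by
          have := hzero 0 (by simp)
          simp only [ZMod.val_zero] at this
          rw [this, h0i]
          have := hlo' x
          omega)
      have h9 := dlr_cast_inj (by omega) (by omega) (add_right_cancel h8)
      exact hm0 h9

end Pool.Agent.TP
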