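import Pool.Agent.Lib_helper53.TP.WDefs

/-! Block DNU. -/

namespace Pool.Agent.TP

open Set Complex Finset

theorem dnum (w e j : ℕ) (hw : 2 ≤ w) (he : 1 ≤ e) (hew : e < w) (hj : 1 ≤ j) (hjw : j ≤ w)
    (n : ℕ) (hn : n = w + w ^ 6 * w.factorial) [NeZero n] :
    ∃ (q q' : ℕ) (s : ZMod n), q' = w * j * (w / Nat.gcd e w) ∧ q * w = n + q' * e ∧ q' < q ∧
      (q : ZMod n) * s = e ∧ (q' : ZMod n) * s = w := by
  set g := Nat.gcd e w with hg
  have hgpos : 0 < g := Nat.gcd_pos_of_pos_left _ (by omega)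
  obtain ⟨e', he'⟩ : g ∣ e := Nat.gcd_dvd_left _ _
  obtain ⟨w', hw'⟩ : g ∣ w := Nat.gcd_dvd_right _ _
  have hdw : w / g = w' := by
    rw [hw']; exact Nat.mul_div_cancel_left _ hgpos
  have hw'le : w' ≤ w := by rw [hw']; exact Nat.le_mul_of_pos_left _ hgpos
  set K := 1 + w ^ 5 * w.factorial with hK
  set q' := w * j * w' with hq'
  set q := K + w * j * e' with hq
  have hqw : q * w = n + q' * e := by
    rw [hq, hq', hn, hK]
    have : w * j * e' * w = w * j * w' * e := by
      calc w * j * e' * w = w * j * e' * (g * w') := by rw [← hw']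
        _ = w * j * w' * (g * e') := by ring
        _ = w * j * w' * e := by rw [← he']
    rw [add_mul, this]
    ring
  have hlt : q' < q := by
    have h1 : q' ≤ w * w * w := by
      rw [hq']
      exact Nat.mul_le_mul (Nat.mul_le_mul le_rfl hjw) hw'le
    have h2 : w * w * w ≤ w ^ 5 * w.factorial := by
      have h3 : w * w * w = w ^ 3 := by ring
      rw [h3]
      calc w ^ 3 ≤ w ^ 5 := Nat.pow_le_pow_right (by omega) (by omega)
        _ ≤ w ^ 5 * w.factorial := Nat.le_mul_of_pos_right _ (Nat.factorial_pos _)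
    have h4 : K ≤ q := Nat.le_add_right _ _
    omega
  have hcop : Nat.Coprime q q' := by
    rw [Nat.coprime_iff_gcd_eq_one]
    by_contra hne
    obtain ⟨r, hr, hrd⟩ := Nat.exists_prime_and_dvd hne
    have hrq : r ∣ q := hrd.trans (Nat.gcd_dvd_left _ _)
    have hrq' : r ∣ q' := hrd.trans (Nat.gcd_dvd_right _ _)
    have hrwj : r ∣ w * j := by
      rw [hq'] at hrq'
      rcases (Nat.Prime.dvd_mul hr).1 hrq' with h | h
      · exact h
      · refine Dvd.dvd.mul_right ?_ _
        rw [hw']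
        exact Dvd.dvd.mul_left h _
    have hrw : r ∣ w.factorial := by
      rcases (Nat.Prime.dvd_mul hr).1 hrwj with h | h
      · exact (Nat.Prime.dvd_factorial hr).2 (Nat.le_of_dvd (by omega) h)
      · exact (Nat.Prime.dvd_factorial hr).2 ((Nat.le_of_dvd (by omega) h).trans hjw)
    have h1 : r ∣ w ^ 5 * w.factorial + w * j * e' :=
      dvd_add (Dvd.dvd.mul_left hrw _) (Dvd.dvd.mul_right hrwj _)
    have h2 : q = 1 + (w ^ 5 * w.factorial + w * j * e') := by rw [hq, hK]; ring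
    rw [h2] at hrq
    have h3 : r ∣ 1 := (Nat.dvd_add_left h1).1 hrq
    exact hr.one_lt.ne' (Nat.dvd_one.1 h3)
  have hbez := Nat.gcd_eq_gcd_ab q q'
  rw [hcop] at hbez
  set a := Nat.gcdA q q'
  set b := Nat.gcdB q q'
  have hz : ((q : ℤ) : ZMod n) * (a : ZMod n) + ((q' : ℤ) : ZMod n) * (b : ZMod n) = 1 := by
    have := congrArg (fun t : ℤ => (t : ZMod n)) hbez
    push_cast at this ⊢
    exact this.symm
  have hz2 : (q : ZMod n) * w = q' * e := by
    have := congrArg (fun t : ℕ => (t : ZMod n)) hqw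
    push_cast at this
    rw [this]
    simp
  refine ⟨q, q', (a : ZMod n) * e + (b : ZMod n) * w, by rw [hdw], hqw, hlt, ?_, ?_⟩
  · have h1 : (q : ZMod n) * ((a : ZMod n) * e + (b : ZMod n) * w) =
        (((q : ℤ) : ZMod n) * (a : ZMod n)) * e + (b : ZMod n) * ((q : ZMod n) * w) := by
      push_cast; ring
    rw [h1, hz2]
    have h2 : (((q : ℤ) : ZMod n) * (a : ZMod n)) * e + (b : ZMod n) * ((q' : ZMod n) * e) =
        (((q : ℤ) : ZMod n) * (a : ZMod n) + ((q' : ℤ) : ZMod n) * (b : ZMod n)) * e := by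
      push_cast; ring
    rw [h2, hz, one_mul]
  · have h1 : (q' : ZMod n) * ((a : ZMod n) * e + (b : ZMod n) * w) =
        (a : ZMod n) * ((q' : ZMod n) * e) + (((q' : ℤ) : ZMod n) * (b : ZMod n)) * w := by
      push_cast; ring
    rw [h1, ← hz2]
    have h2 : (a : ZMod n) * ((q : ZMod n) * w) + (((q' : ℤ) : ZMod n) * (b : ZMod n)) * w =
        (((q : ℤ) : ZMod n) * (a : ZMod n) + ((q' : ℤ) : ZMod n) * (b : ZMod n)) * w := by
      push_cast; ring
    rw [h2, hz, one_mul]

end Pool.Agent.TP
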