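import Pool.Agent.Lib_helper53.TP.WDefs

/-! Block DPO. -/

namespace Pool.Agent.TP

open Set Complex Finset

open Polynomial in
theorem dpol {ι : Type} [Fintype ι] (p E : ι → ℝ) (n : ℝ) (hn : n ≠ 0)
    (x : Fin (Fintype.card ι) → ℝ)
    (hx : Function.Injective x) (hne : ∀ j i, n + x j * E i ≠ 0)
    (hsum : ∀ j, ∑ i, p i / (n + x j * E i) = 0) : ∑ i, p i = 0 := by
  classical
  rcases isEmpty_or_nonempty ι with h | h
  · simp
  set P : ℝ[X] := ∑ i, C (p i) * ∏ l ∈ univ.erase i, (C n + X * C (E l)) with hP
  have hc : 0 < Fintype.card ι := Fintype.card_pos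
  have hdeg : P.natDegree < Fintype.card ι := by
    refine lt_of_le_of_lt (natDegree_sum_le_of_forall_le _ _ (n := Fintype.card ι - 1) ?_)
      (by omega)
    intro i _
    refine (natDegree_C_mul_le _ _).trans ?_
    refine (natDegree_prod_le _ _).trans ?_
    refine (Finset.sum_le_card_nsmul _ _ 1 ?_).trans ?_
    · intro l _
      refine (natDegree_add_le _ _).trans ?_
      simp only [natDegree_C, Nat.zero_le, sup_of_le_right]
      refine (natDegree_mul_le).trans ?_
      simp
    · simp [Finset.card_erase_of_mem]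
  have hev : ∀ j, P.eval (x j) = 0 := by
    intro j
    have h1 : P.eval (x j) = (∏ l, (n + x j * E l)) * ∑ i, p i / (n + x j * E i) := by
      rw [hP, eval_finsetSum, Finset.mul_sum]
      refine Finset.sum_congr rfl fun i _ => ?_
      rw [eval_mul, eval_C, eval_prod]
      have h2 : ∏ l ∈ univ.erase i, eval (x j) (C n + X * C (E l)) =
          ∏ l ∈ univ.erase i, (n + x j * E l) := by
        refine Finset.prod_congr rfl fun l _ => ?_
        simp only [eval_add, eval_mul, eval_C, eval_X]
      rw [h2, ← Finset.mul_prod_erase univ (fun l => n + x j * E l) (Finset.mem_univ i)]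
      have := hne j i
      field_simp
    rw [h1, hsum j, mul_zero]
  have h0 := Polynomial.eq_zero_of_natDegree_lt_card_of_eval_eq_zero P hx hev (by simpa using hdeg)
  have h3 : P.eval 0 = (∑ i, p i) * n ^ (Fintype.card ι - 1) := by
    rw [hP, eval_finsetSum, Finset.sum_mul]
    refine Finset.sum_congr rfl fun i _ => ?_
    rw [eval_mul, eval_C, eval_prod]
    have h2 : ∏ l ∈ univ.erase i, eval 0 (C n + X * C (E l)) = ∏ l ∈ univ.erase i, n := by
      refine Finset.prod_congr rfl fun l _ => ?_
      simp
    rw [h2, Finset.prod_const, Finset.card_erase_of_mem (Finset.mem_univ i), Finset.card_univ]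
  rw [h0, eval_zero] at h3
  have h4 : n ^ (Fintype.card ι - 1) ≠ 0 := pow_ne_zero _ hn
  rcases mul_eq_zero.1 h3.symm with h5 | h5
  · exact h5
  · exact absurd h5 h4

end Pool.Agent.TP
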