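import Pool.Agent.Lib_helper53.TP.WDefs

namespace Pool.Agent.TP

open Set Complex Finset

/-- The only short differences along the rotation. -/
theorem drt_key (n w e q q' : ℕ) [NeZero n] (hew : e < w)
    (hq : q * w = n + q' * e) (hqq : q' < q) (s : ZMod n)
    (hs : (q : ZMod n) * s = e) (hs' : (q' : ZMod n) * s = w) (z z' k : ℕ) (hz : z < w)
    (hz' : z' < w) (hk : 0 < k) (hkr : k < if z + e < w then q else q - q')
    (h : (z : ZMod n) + (k : ZMod n) * s = (z' : ZMod n)) : False := by
  have hn : (0 : ℤ) < n := by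
    have := Nat.pos_of_ne_zero (NeZero.ne n)
    exact_mod_cast this
  -- integer versions
  obtain ⟨K, hK⟩ : ∃ K : ℤ, K = (k : ℤ) := ⟨_, rfl⟩
  obtain ⟨m, hm⟩ : ∃ m : ℤ, m = (z' : ℤ) - (z : ℤ) := ⟨_, rfl⟩
  have hmZ : ((m : ℤ) : ZMod n) = (k : ZMod n) * s := by
    rw [hm]; push_cast; rw [← h]; ring
  have hα : (n : ℤ) ∣ K * w - m * q' := by
    rw [← ZMod.intCast_zmod_eq_zero_iff_dvd]
    push_cast
    rw [hmZ, hK, ← hs']
    push_cast
    ring
  have hβ : (n : ℤ) ∣ q * m - e * K := by
    rw [← ZMod.intCast_zmod_eq_zero_iff_dvd]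
    push_cast
    rw [hmZ, hK, ← hs]
    push_cast
    ring
  obtain ⟨α, hα⟩ := hα
  obtain ⟨β, hβ⟩ := hβ
  have hqz : (q : ℤ) * w = n + q' * e := by exact_mod_cast hq
  have hqqz : (q' : ℤ) < q := by exact_mod_cast hqq
  have hewz : (e : ℤ) < w := by exact_mod_cast hew
  have he0 : (0 : ℤ) ≤ e := by positivity
  have hq0 : (0 : ℤ) ≤ q' := by positivity
  have hKpos : 0 < K := by rw [hK]; exact_mod_cast hk
  have hkeq : K = α * q + β * q' := by
    have : (n : ℤ) * K = n * (α * q + β * q') := by
      have e1 : (n : ℤ) * (α * q + β * q') = (n * α) * q + (n * β) * q' := by ring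
      rw [e1, ← hα, ← hβ]
      have e2 : (n : ℤ) = q * w - q' * e := by linarith
      rw [e2]; ring
    exact mul_left_cancel₀ hn.ne' this
  have hmeq : m = α * e + β * w := by
    have : (n : ℤ) * m = n * (α * e + β * w) := by
      have e1 : (n : ℤ) * (α * e + β * w) = (n * α) * e + (n * β) * w := by ring
      rw [e1, ← hα, ← hβ]
      have e2 : (n : ℤ) = q * w - q' * e := by linarith
      rw [e2]; ring
    exact mul_left_cancel₀ hn.ne' this
  have hzz : (0 : ℤ) ≤ z := by positivity
  have hzz' : (0 : ℤ) ≤ z' := by positivity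
  have hzw : (z : ℤ) < w := by exact_mod_cast hz
  have hzw' : (z' : ℤ) < w := by exact_mod_cast hz'
  have hm1 : -(w : ℤ) < m := by rw [hm]; linarith
  have hm2 : m < w := by rw [hm]; linarith
  have hKq : K < q := by
    rw [hK]
    have : k < q := by
      split_ifs at hkr
      · exact hkr
      · omega
    exact_mod_cast this
  have hw0 : (0 : ℤ) < w := by linarith
  rcases le_or_gt α 0 with h0 | h0
  · -- α ≤ 0
    have hb1 : 1 ≤ β := by
      by_contra hb
      have hb : β ≤ 0 := by omega
      have : K ≤ 0 := by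
        rw [hkeq]
        have a1 : α * q ≤ 0 := mul_nonpos_of_nonpos_of_nonneg h0 (by linarith)
        have a2 : β * q' ≤ 0 := mul_nonpos_of_nonpos_of_nonneg hb hq0
        linarith
      linarith
    -- β ≤ -α
    have hb2 : β ≤ -α := by
      by_contra hb
      have hb : -α + 1 ≤ β := by omega
      -- m = α e + β w ≥ α e + (1 - α) w ≥ w
      have a1 : (-α + 1) * w ≤ β * w := mul_le_mul_of_nonneg_right hb hw0.le
      have a2 : (-α) * e ≤ (-α) * w := mul_le_mul_of_nonneg_left hewz.le (by linarith)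
      linarith
    have a1 : β * q' ≤ (-α) * q' := mul_le_mul_of_nonneg_right hb2 hq0
    have a2 : (-α) * q' ≤ (-α) * q := mul_le_mul_of_nonneg_left hqqz.le (by linarith)
    linarith
  · -- α ≥ 1
    have hb1 : β ≤ -1 := by
      by_contra hb
      have hb : 0 ≤ β := by omega
      have a1 : (1 : ℤ) * q ≤ α * q := mul_le_mul_of_nonneg_right h0 (by linarith)
      have a2 : 0 ≤ β * q' := mul_nonneg hb hq0
      linarith
    -- -β ≥ α
    have hb2 : α ≤ -β := by
      by_contra hb
      have hb : -β ≤ α - 1 := by omega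
      have a1 : (-β) * q' ≤ (α - 1) * q' := mul_le_mul_of_nonneg_right hb hq0
      have a2 : (α - 1) * q' ≤ (α - 1) * q := mul_le_mul_of_nonneg_left hqqz.le (by omega)
      linarith
    -- -β ≤ α
    have hb3 : -β ≤ α := by
      by_contra hb
      have hb : α + 1 ≤ -β := by omega
      have a1 : (α + 1) * w ≤ (-β) * w := mul_le_mul_of_nonneg_right hb hw0.le
      have a2 : α * e ≤ α * w := mul_le_mul_of_nonneg_left hewz.le (by omega)
      linarith
    have hb : β = -α := by omega
    subst hb
    have hk2 : K = α * (q - q') := by rw [hkeq]; ring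
    have hm3 : m = α * (e - w) := by rw [hmeq]; ring
    split_ifs at hkr with hc
    · -- z + e < w
      have hc' : (z : ℤ) + e < w := by exact_mod_cast hc
      have a1 : (1 : ℤ) * (w - e) ≤ α * (w - e) := mul_le_mul_of_nonneg_right h0 (by linarith)
      have : (z' : ℤ) = z + m := by rw [hm]; ring
      rw [hm3] at this
      linarith
    · have a1 : (1 : ℤ) * (q - q') ≤ α * (q - q') := mul_le_mul_of_nonneg_right h0 (by linarith)
      have a2 : K < (q : ℤ) - q' := by
        rw [hK]
        have : (k : ℤ) < ((q - q' : ℕ) : ℤ) := by exact_mod_cast hkr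
        rwa [Nat.cast_sub hqq.le] at this
      linarith

theorem dret (n w e q q' : ℕ) [NeZero n] [NeZero w] (hew : e < w) (hwn : w ≤ n)
    (hq : q * w = n + q' * e) (hqq : q' < q) (s : ZMod n) (hs : (q : ZMod n) * s = e)
    (hs' : (q' : ZMod n) * s = w) (σ : Equiv.Perm (ZMod w)) (τ : Equiv.Perm (ZMod n))
    (h1 : ∀ y : ZMod w, τ ((y.val : ℕ) : ZMod n) = (((σ y).val : ℕ) : ZMod n))
    (h2 : ∀ x : ZMod n, w ≤ x.val → τ x = x) (y : ZMod w) :
    let ρ := if (σ y).val + e < w then q else q - q'
    ((Equiv.addRight s * τ) ^ ρ) ((y.val : ℕ) : ZMod n) =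
      (((σ y + (e : ZMod w)).val : ℕ) : ZMod n) ∧
    ∀ k, 0 < k → k < ρ → w ≤ (((Equiv.addRight s * τ) ^ k) ((y.val : ℕ) : ZMod n)).val := by
  intro ρ
  set z : ℕ := (σ y).val with hz
  have hzw : z < w := ZMod.val_lt _
  have hρ : ρ = if z + e < w then q else q - q' := rfl
  have hρ0 : 0 < ρ := by
    rw [hρ]
    split_ifs <;> omega
  have hT : ∀ x, (Equiv.addRight s * τ) x = τ x + s := fun x => rfl
  have key : ∀ k, 0 < k → k ≤ ρ →
      ((Equiv.addRight s * τ) ^ k) ((y.val : ℕ) : ZMod n) = (z : ZMod n) + (k : ZMod n) * s := by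
    intro k hk
    induction k, hk using Nat.le_induction with
    | base =>
      intro _
      rw [Nat.succ_eq_add_one, Nat.zero_add, pow_one, hT, h1]
      simp [hz]
    | succ k hk ih =>
      intro hkρ
      have hk' : k < ρ := by omega
      have ih := ih hk'.le
      rw [pow_succ', Equiv.Perm.mul_apply, ih, hT, h2]
      · push_cast; ring
      · by_contra hlt
        have hlt : ((z : ZMod n) + (k : ZMod n) * s).val < w := by omega
        refine drt_key n w e q q' hew hq hqq s hs hs' z ((z : ZMod n) + (k : ZMod n) * s).val k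
          hzw hlt (by omega) (by rw [← hρ]; exact hk') ?_
        rw [ZMod.natCast_zmod_val]
  constructor
  · rw [key ρ hρ0 le_rfl]
    have he : ((e : ℕ) : ZMod w).val = e := by
      rw [ZMod.val_natCast, Nat.mod_eq_of_lt hew]
    have hv : (σ y + (e : ZMod w)).val = (z + e) % w := by
      rw [ZMod.val_add, he]
    rw [hv, hρ]
    split_ifs with hc
    · rw [Nat.mod_eq_of_lt hc, hs]; push_cast; ring
    · have hmod : (z + e) % w = z + e - w := by
        rw [Nat.mod_eq_sub_mod (by omega), Nat.mod_eq_of_lt (by omega)]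
      rw [hmod, Nat.cast_sub hqq.le, sub_mul, hs, hs', Nat.cast_sub (by omega)]
      push_cast; ring
  · intro k hk hkρ
    rw [key k hk hkρ.le]
    by_contra hlt
    have hlt : ((z : ZMod n) + (k : ZMod n) * s).val < w := by omega
    refine drt_key n w e q q' hew hq hqq s hs hs' z ((z : ZMod n) + (k : ZMod n) * s).val k
      hzw hlt hk (by rw [← hρ]; exact hkρ) ?_
    rw [ZMod.natCast_zmod_val]

end Pool.Agent.TP
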