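import Pool.Agent.Lib_helper53.TP.WDefs
import Pool.Agent.Lib_helper53.TP.B.DAV
import Pool.Agent.Lib_helper53.TP.B.DNU
import Pool.Agent.Lib_helper53.TP.B.DPO
import Pool.Agent.Lib_helper53.TP.B.DRT

namespace Pool.Agent.TP

open Set Complex Finset

section
variable {X Y : Type}

theorem dst_avg_const [Finite X] (T : Equiv.Perm X) (c : ℝ) (y : X) :
    avg T (fun _ => c) y = c := by
  have h : (orderOf T : ℝ) ≠ 0 := by
    have := orderOf_pos T
    positivity
  simp only [avg, Finset.sum_const, card_range, nsmul_eq_mul]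
  field_simp

theorem dst_avg_add (T : Equiv.Perm X) (a b : X → ℝ) (y : X) :
    avg T (fun x => a x + b x) y = avg T a y + avg T b y := by
  simp only [avg, Finset.sum_add_distrib, add_div]

theorem dst_avg_lin (T : Equiv.Perm X) (r t : ℝ) [Finite X] (b : X → ℝ) (y : X) :
    avg T (fun x => r + t * b x) y = r + t * avg T b y := by
  rw [dst_avg_add T (fun _ => r) (fun x => t * b x), dst_avg_const]
  congr 1
  simp only [avg, ← Finset.mul_sum]
  ring

theorem dst_sum_avg [Fintype X] (T : Equiv.Perm X) (w : X → ℝ) :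
    ∑ y, avg T w y = ∑ y, w y := by
  have h : (orderOf T : ℝ) ≠ 0 := by
    have := orderOf_pos T
    positivity
  simp only [avg]
  rw [← Finset.sum_div, Finset.sum_comm]
  have : ∀ k ∈ range (orderOf T), ∑ y, w ((T ^ k) y) = ∑ y, w y := fun k _ =>
    Equiv.sum_comp (T ^ k) w
  rw [Finset.sum_congr rfl this, Finset.sum_const, card_range, nsmul_eq_mul]
  field_simp

theorem dst_GG_expand [Fintype X] (T : Equiv.Perm X) (F G : X → ℝ) (cf cg : ℝ) :
    GG T (fun x => F x + cf) (fun x => G x + cg) =
      GG T F G + (cf * ∑ x, G x + cg * ∑ x, F x + Fintype.card X * cf * cg) := by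
  simp only [GG]
  have h1 : ∀ y, (F y + cf) * avg T (fun x => G x + cg) y =
      F y * avg T G y + (cf * avg T G y + cg * F y + cf * cg) := by
    intro y
    rw [dst_avg_add T G (fun _ => cg), dst_avg_const]
    ring
  rw [Finset.sum_congr rfl fun y _ => h1 y, Finset.sum_add_distrib, Finset.sum_add_distrib,
    Finset.sum_add_distrib, ← Finset.mul_sum, ← Finset.mul_sum, dst_sum_avg]
  simp only [Finset.sum_const, Finset.card_univ, nsmul_eq_mul]
  ring

theorem dst_GG_induced [Fintype X] [Fintype Y] (T : Equiv.Perm X) (ι : Y → X)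
    (hι : Function.Injective ι) (T' : Equiv.Perm Y) (ρ : Y → ℕ) (hρ : ∀ y, 0 < ρ y)
    (h1 : ∀ y, (T ^ ρ y) (ι y) = ι (T' y))
    (h2 : ∀ y k, 0 < k → k < ρ y → (T ^ k) (ι y) ∉ Set.range ι) (F G : X → ℝ)
    (hF : ∀ x, x ∉ Set.range ι → F x = 0) (hG : ∀ x, x ∉ Set.range ι → G x = 0) :
    GG T F G = ∑ y, F (ι y) * (avg T' (fun z => G (ι z)) y / avg T' (fun z => (ρ z : ℝ)) y) := by
  rw [GG, ← Fintype.sum_of_injective ι hι (fun y => F (ι y) * avg T G (ι y))
    (fun x => F x * avg T G x) (fun x hx => by rw [hF x hx, zero_mul]) (fun _ => rfl)]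
  refine Finset.sum_congr rfl fun y _ => ?_
  rw [avg_induced T ι hι T' ρ hρ h1 h2 G hG y]

end

theorem dstep (w n : ℕ) (hw : 2 ≤ w) (hev : Even w) (hn : n = w + w ^ 6 * w.factorial)
    [NeZero n] [NeZero w] (σ : Equiv.Perm (ZMod w)) (τ : Equiv.Perm (ZMod n))
    (h1 : ∀ y : ZMod w, τ ((y.val : ℕ) : ZMod n) = (((σ y).val : ℕ) : ZMod n))
    (h2 : ∀ x : ZMod n, w ≤ x.val → τ x = x) (f g : ZMod n → ℝ) (cf cg : ℝ)
    (hf : ∀ x : ZMod n, w ≤ x.val → f x = cf) (hg : ∀ x : ZMod n, w ≤ x.val → g x = cg)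
    (H1 : (∑ x, f x) * (∑ x, g x) = 0)
    (H2 : ∀ s : ZMod n, GG (Equiv.addRight s * τ) f g = 0) :
    (∑ y : ZMod w, (f ((y.val : ℕ) : ZMod n) - cf)) *
      (∑ y : ZMod w, (g ((y.val : ℕ) : ZMod n) - cg)) = 0 ∧
    ∀ e : ZMod w, GG (Equiv.addRight e * σ) (fun y => f ((y.val : ℕ) : ZMod n) - cf)
      (fun y => g ((y.val : ℕ) : ZMod n) - cg) = 0 := by
  have hwfac : w ≤ w ^ 6 * w.factorial := by
    calc w = w * 1 := by ring
      _ ≤ w ^ 6 * w.factorial := Nat.mul_le_mul (Nat.le_self_pow (by norm_num) w)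
          (Nat.factorial_pos w)
  have hwn : w ≤ n := by rw [hn]; omega
  have h2w : 2 * w ≤ n := by rw [hn]; omega
  obtain ⟨ι, hιd⟩ : ∃ ι : ZMod w → ZMod n, ι = fun y => ((y.val : ℕ) : ZMod n) := ⟨_, rfl⟩
  have hιy : ∀ y : ZMod w, ((y.val : ℕ) : ZMod n) = ι y := fun y => by rw [hιd]
  have hιv : ∀ y, (ι y).val = y.val := by
    intro y
    rw [hιd]
    exact ZMod.val_cast_of_lt (lt_of_lt_of_le (ZMod.val_lt y) hwn)
  have hι : Function.Injective ι := by
    intro a b hab
    apply ZMod.val_injective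
    rw [← hιv a, ← hιv b, hab]
  have hrange : ∀ x : ZMod n, x ∉ Set.range ι → w ≤ x.val := by
    intro x hx
    by_contra hlt
    apply hx
    refine ⟨(x.val : ZMod w), ?_⟩
    rw [hιd]
    simp only
    rw [ZMod.val_cast_of_lt (by omega), ZMod.natCast_zmod_val]
  have hrange' : ∀ x : ZMod n, w ≤ x.val → x ∉ Set.range ι := by
    rintro x hx ⟨y, rfl⟩
    rw [hιv] at hx
    have := ZMod.val_lt y
    omega
  simp only [hιy] at h1 ⊢
  -- the reduced functions
  obtain ⟨F, hF⟩ : ∃ F : ZMod n → ℝ, F = fun x => f x - cf := ⟨_, rfl⟩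
  obtain ⟨G, hG⟩ : ∃ G : ZMod n → ℝ, G = fun x => g x - cg := ⟨_, rfl⟩
  have hf' : f = fun x => F x + cf := by rw [hF]; funext x; ring
  have hg' : g = fun x => G x + cg := by rw [hG]; funext x; ring
  have hFy : ∀ x, f x - cf = F x := fun x => by rw [hF]
  have hGy : ∀ x, g x - cg = G x := fun x => by rw [hG]
  simp only [hFy, hGy]
  have hF0 : ∀ x, x ∉ Set.range ι → F x = 0 := by
    intro x hx
    rw [← hFy, hf x (hrange x hx), sub_self]
  have hG0 : ∀ x, x ∉ Set.range ι → G x = 0 := by
    intro x hx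
    rw [← hGy, hg x (hrange x hx), sub_self]
  have hsumF : ∑ y : ZMod w, F (ι y) = ∑ x, F x :=
    Fintype.sum_of_injective ι hι _ _ hF0 (fun _ => rfl)
  have hsumG : ∑ y : ZMod w, G (ι y) = ∑ x, G x :=
    Fintype.sum_of_injective ι hι _ _ hG0 (fun _ => rfl)
  obtain ⟨C, hC⟩ : ∃ C : ℝ, C = cf * ∑ x, G x + cg * ∑ x, F x +
      Fintype.card (ZMod n) * cf * cg := ⟨_, rfl⟩
  have H3 : ∀ s : ZMod n, GG (Equiv.addRight s * τ) F G = -C := by
    intro s
    have := H2 s
    rw [hf', hg', dst_GG_expand, ← hC] at this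
    linarith
  -- s = 0
  have hs0 : GG (Equiv.addRight (0 : ZMod n) * τ) F G = GG σ (fun y => F (ι y)) fun y => G (ι y) := by
    rw [dst_GG_induced (Equiv.addRight (0 : ZMod n) * τ) ι hι σ (fun _ => 1) (fun _ => one_pos)
      ?_ ?_ F G hF0 hG0]
    · rw [GG]
      refine Finset.sum_congr rfl fun y _ => ?_
      rw [show (fun _ : ZMod w => ((1 : ℕ) : ℝ)) = fun _ => (1 : ℝ) by simp, dst_avg_const, div_one]
    · intro y
      rw [pow_one, Equiv.Perm.mul_apply, h1]
      simp
    · intro y k hk hk'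
      omega
  -- s = n / 2
  have hnE : Even n := by
    rw [hn]
    exact hev.add ((hev.pow_of_ne_zero (by norm_num)).mul_right _)
  obtain ⟨M, hM⟩ := hnE
  have hMw : w ≤ M := by omega
  have hsM : GG (Equiv.addRight (M : ZMod n) * τ) F G =
      (GG σ (fun y => F (ι y)) fun y => G (ι y)) / 2 := by
    have hT : ∀ x, (Equiv.addRight (M : ZMod n) * τ) x = τ x + M := fun x => rfl
    have hval : ∀ y : ZMod w, (ι (σ y) + (M : ZMod n)).val = (σ y).val + M := by
      intro y
      have : ι (σ y) + (M : ZMod n) = (((σ y).val + M : ℕ) : ZMod n) := by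
        rw [hιd]; push_cast; rfl
      rw [this]
      apply ZMod.val_cast_of_lt
      have := ZMod.val_lt (σ y)
      omega
    rw [dst_GG_induced (Equiv.addRight (M : ZMod n) * τ) ι hι σ (fun _ => 2) (fun _ => two_pos)
      ?_ ?_ F G hF0 hG0]
    · rw [GG, Finset.sum_div]
      refine Finset.sum_congr rfl fun y _ => ?_
      rw [show (fun _ : ZMod w => ((2 : ℕ) : ℝ)) = fun _ => (2 : ℝ) by simp, dst_avg_const]
      ring
    · intro y
      rw [pow_two, Equiv.Perm.mul_apply, hT, hT, h1, h2 _ (by rw [hval]; omega)]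
      have : (M : ZMod n) + M = 0 := by
        have : ((M + M : ℕ) : ZMod n) = 0 := by rw [← hM]; exact ZMod.natCast_self n
        rwa [Nat.cast_add] at this
      rw [add_assoc, this, add_zero]
    · intro y k hk hk'
      have : k = 1 := by omega
      subst this
      rw [pow_one, hT, h1]
      apply hrange'
      rw [hval]; omega
  have e0 := H3 0
  have eM := H3 M
  rw [hs0] at e0
  rw [hsM] at eM
  have hC0 : C = 0 := by linarith
  have hσ : GG σ (fun y => F (ι y)) (fun y => G (ι y)) = 0 := by linarith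
  constructor
  · rw [hsumF, hsumG]
    have a1 : ∑ x, f x = ∑ x, F x + Fintype.card (ZMod n) * cf := by
      rw [hf', Finset.sum_add_distrib]; simp
    have a2 : ∑ x, g x = ∑ x, G x + Fintype.card (ZMod n) * cg := by
      rw [hg', Finset.sum_add_distrib]; simp
    rw [a1, a2] at H1
    have : (Fintype.card (ZMod n) : ℝ) * C = 0 := by rw [hC0, mul_zero]
    rw [hC] at this
    linarith
  · intro e
    by_cases he0 : e = 0
    · subst he0
      have : Equiv.addRight (0 : ZMod w) * σ = σ := by
        ext x; simp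
      rw [this]
      exact hσ
    -- e ≠ 0
    have hev1 : 1 ≤ e.val := by
      rcases Nat.eq_zero_or_pos e.val with h | h
      · exact absurd ((ZMod.val_eq_zero e).1 h) he0
      · exact h
    have hev2 : e.val < w := ZMod.val_lt e
    have hD : ∀ j : Fin w, ∃ (q q' : ℕ) (s : ZMod n),
        q' = w * (j.1 + 1) * (w / Nat.gcd e.val w) ∧ q * w = n + q' * e.val ∧ q' < q ∧
        (q : ZMod n) * s = ((e.val : ℕ) : ZMod n) ∧ (q' : ZMod n) * s = w := fun j =>
      dnum w e.val (j.1 + 1) hw hev1 hev2 (by omega) (by omega) n hn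
    choose q q' s hq' hqw hqq hqs hqs' using hD
    obtain ⟨T', hT'⟩ : ∃ T' : Equiv.Perm (ZMod w), T' = Equiv.addRight e * σ := ⟨_, rfl⟩
    obtain ⟨δ, hδ⟩ : ∃ δ : ZMod w → ℝ, δ = fun y =>
      avg T' (fun z => if (σ z).val + e.val < w then (0 : ℝ) else 1) y := ⟨_, rfl⟩
    have hdr : ∀ j : Fin w, ∀ y : ZMod w,
        ((Equiv.addRight (s j) * τ) ^ (if (σ y).val + e.val < w then q j else q j - q' j)) (ι y) =
          ι (σ y + e) ∧
        ∀ k, 0 < k → k < (if (σ y).val + e.val < w then q j else q j - q' j) →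
          w ≤ (((Equiv.addRight (s j) * τ) ^ k) (ι y)).val := by
      intro j y
      have := dret n w e.val (q j) (q' j) hev2 hwn (hqw j) (hqq j) (s j) (hqs j) (hqs' j) σ τ
        (fun y => by rw [hιy, hιy, h1]) h2 y
      simp only [hιy, ZMod.natCast_zmod_val] at this
      exact this
    have hρpos : ∀ j : Fin w, ∀ y : ZMod w,
        0 < (if (σ y).val + e.val < w then q j else q j - q' j) := by
      intro j y
      have := hqq j
      split_ifs <;> omega
    have hGG : ∀ j : Fin w, GG (Equiv.addRight (s j) * τ) F G =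
        ∑ y, F (ι y) * (avg T' (fun z => G (ι z)) y / ((q j : ℝ) - q' j * δ y)) := by
      intro j
      rw [dst_GG_induced (Equiv.addRight (s j) * τ) ι hι T'
        (fun y => if (σ y).val + e.val < w then q j else q j - q' j) (hρpos j) ?_ ?_ F G hF0 hG0]
      · refine Finset.sum_congr rfl fun y _ => ?_
        congr 2
        have : (fun z : ZMod w =>
            (((if (σ z).val + e.val < w then q j else q j - q' j : ℕ)) : ℝ)) =
            fun z => (q j : ℝ) + (-(q' j : ℝ)) *
              (fun z => if (σ z).val + e.val < w then (0 : ℝ) else 1) z := by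
          funext z
          simp only
          split_ifs
          · ring
          · rw [Nat.cast_sub (hqq j).le]; ring
        rw [this, dst_avg_lin, hδ]
        ring
      · intro y
        rw [(hdr j y).1, hT']
        rfl
      · intro y k hk hk'
        exact hrange' _ ((hdr j y).2 k hk hk')
    -- positivity of the denominators
    have hδ01 : ∀ y, 0 ≤ δ y ∧ δ y ≤ 1 := by
      intro y
      have hpos : (0 : ℝ) < orderOf T' := by
        have := orderOf_pos T'
        positivity
      rw [hδ]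
      simp only [avg]
      constructor
      · apply div_nonneg _ hpos.le
        apply Finset.sum_nonneg
        intro k _
        split_ifs <;> norm_num
      · rw [div_le_one hpos]
        calc _ ≤ ∑ k ∈ range (orderOf T'), (1 : ℝ) := by
              apply Finset.sum_le_sum
              intro k _
              split_ifs <;> norm_num
          _ = _ := by simp
    have hden : ∀ j y, 0 < (q j : ℝ) - q' j * δ y := by
      intro j y
      have a1 : (q' j : ℝ) < q j := by exact_mod_cast hqq j
      have a2 : (q' j : ℝ) * δ y ≤ q' j * 1 :=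
        mul_le_mul_of_nonneg_left (hδ01 y).2 (by positivity)
      linarith
    have hwpos : (0 : ℝ) < w := by
      have : 0 < w := by omega
      exact_mod_cast this
    have hqR : ∀ j, (q j : ℝ) * w = n + q' j * e.val := by
      intro j
      exact_mod_cast hqw j
    have hden2 : ∀ j y, (n : ℝ) + (q' j : ℝ) * ((e.val : ℝ) - w * δ y) =
        w * ((q j : ℝ) - q' j * δ y) := by
      intro j y
      have := hqR j
      linear_combination -this
    have hn0 : (n : ℝ) ≠ 0 := by
      have := NeZero.ne n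
      exact_mod_cast this
    -- reindex the parameters
    have hcard : Fintype.card (ZMod w) = w := ZMod.card w
    have hfin := dpol (ι := ZMod w) (fun y => F (ι y) * avg T' (fun z => G (ι z)) y)
      (fun y => (e.val : ℝ) - w * δ y) (n : ℝ) hn0
      (fun j => (q' (Fin.cast hcard j) : ℝ)) ?_ ?_ ?_
    · rw [GG, ← hT']
      exact hfin
    · intro j j' hjj
      have hjj : q' (Fin.cast hcard j) = q' (Fin.cast hcard j') := by
        simp only at hjj
        exact_mod_cast hjj
      rw [hq', hq'] at hjj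
      have hg0 : 0 < w / Nat.gcd e.val w :=
        Nat.div_pos (Nat.gcd_le_right _ (by omega)) (Nat.gcd_pos_of_pos_right _ (by omega))
      have h3 := Nat.eq_of_mul_eq_mul_right hg0 hjj
      have h4 := Nat.eq_of_mul_eq_mul_left (by omega : 0 < w) h3
      apply Fin.ext
      simpa using h4
    · intro j y
      rw [hden2]
      exact (mul_pos hwpos (hden _ y)).ne'
    · intro j
      have h5 := H3 (s (Fin.cast hcard j))
      rw [hGG, hC0, neg_zero] at h5
      have : ∀ y, F (ι y) * avg T' (fun z => G (ι z)) y /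
          ((n : ℝ) + (q' (Fin.cast hcard j) : ℝ) * ((e.val : ℝ) - w * δ y)) =
          (F (ι y) * (avg T' (fun z => G (ι z)) y /
            ((q (Fin.cast hcard j) : ℝ) - q' (Fin.cast hcard j) * δ y))) / w := by
        intro y
        rw [hden2]
        have := (hden (Fin.cast hcard j) y).ne'
        field_simp
      rw [Finset.sum_congr rfl fun y _ => this y, ← Finset.sum_div, h5, zero_div]

end Pool.Agent.TP
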