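import Pool.Agent.Lib_helper53.TP.WDefs
import Pool.Agent.Lib_helper53.TP.B.DAV
import Pool.Agent.Lib_helper53.TP.B.DLR
import Pool.Agent.Lib_helper53.TP.B.DST

namespace Pool.Agent.TP

open Set Complex Finset

theorem dit_WW (j : ℕ) : ∑ i ∈ Finset.range (j + 1), len i = WW j := by
  induction j with
  | zero => simp [len, WW]
  | succ j ih => rw [Finset.sum_range_succ, ih]; simp [len, WW]

theorem dit_even (j : ℕ) : Even (WW j) := by
  induction j with
  | zero => simp [WW]
  | succ j ih =>
    rw [WW]
    apply Even.add ih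
    apply Even.mul_right
    exact ih.pow_of_ne_zero (by norm_num)

theorem dit_two (j : ℕ) : 2 ≤ WW j := by
  induction j with
  | zero => simp [WW]
  | succ j ih => rw [WW]; omega

theorem dit_sum {X : Type} [Fintype X] {j : ℕ} {lab : X → ℕ} (hle : ∀ x, lab x ≤ j)
    (hcard : ∀ i ≤ j, Nat.card {x // lab x = i} = len i) (f : ℕ → ℝ) :
    ∑ x, f (lab x) = ∑ i ∈ Finset.range (j + 1), (len i : ℝ) * f i := by
  classical
  have h1 : ∑ x, f (lab x) = ∑ i ∈ Finset.range (j + 1), ∑ x with lab x = i, f (lab x) := by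
    symm
    apply Finset.sum_fiberwise_of_maps_to
    intro x _
    exact Finset.mem_range.2 (Nat.lt_succ_of_le (hle x))
  rw [h1]
  refine Finset.sum_congr rfl fun i hi => ?_
  have h2 : ∀ x ∈ Finset.univ.filter (fun x => lab x = i), f (lab x) = f i := by
    intro x hx
    rw [(Finset.mem_filter.1 hx).2]
  rw [Finset.sum_congr rfl h2, Finset.sum_const, nsmul_eq_mul]
  congr 2
  rw [← hcard i (Nat.le_of_lt_succ (Finset.mem_range.1 hi)), Nat.card_eq_fintype_card,
    Fintype.card_subtype]

theorem dit_FF (i : ℕ) (U : ℕ → ℝ) (r : ℝ) : FF i (fun k => U k - r) = FF i U := by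
  simp only [FF]
  refine Finset.sum_congr rfl fun k _ => by ring

theorem dit_FF_top (j : ℕ) (U : ℕ → ℝ) :
    ∑ i ∈ Finset.range (j + 1), (len i : ℝ) * (U i - U (j + 1)) = FF (j + 1) U := rfl

theorem diter (j : ℕ) (τ : Equiv.Perm (ZMod (WW j))) (lab : ZMod (WW j) → ℕ)
    (H : Lett j (Equiv.addRight (1 : ZMod (WW j))) τ lab) (U V : ℕ → ℝ)
    (H1 : (∑ x, U (lab x)) * (∑ x, V (lab x)) = 0)
    (H2 : ∀ s : ZMod (WW j), GG (Equiv.addRight s * τ) (fun x => U (lab x))
      (fun x => V (lab x)) = 0) :
    ∀ i, 1 ≤ i → i ≤ j → FF i U * FF i V = 0 := by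
  induction j generalizing U V with
  | zero => intro i h1 h2; omega
  | succ j ih =>
    obtain ⟨a, δ, σ, g1, g2, g3, g4, g5⟩ := lett_reduce j τ lab H
    set τ1 : Equiv.Perm (ZMod (WW (j + 1))) := Equiv.addRight δ * τ * Equiv.addRight a with hτ1
    have hτ1' : ∀ x, τ1 x = τ (x + a) + δ := fun x => rfl
    have hn : WW (j + 1) = WW j + WW j ^ 6 * (WW j).factorial := rfl
    have key := dstep (WW j) (WW (j + 1)) (dit_two j) (dit_even j) hn σ τ1
      (fun y => by rw [hτ1']; exact g1 y) (fun x hx => by rw [hτ1']; exact g2 x hx)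
      (fun x => U (lab (x + a))) (fun x => V (lab (x + a))) (U (j + 1)) (V (j + 1))
      (fun x hx => by rw [g3 x hx]) (fun x hx => by rw [g3 x hx])
      (by
        have e1 : ∑ x, U (lab (x + a)) = ∑ x, U (lab x) :=
          Equiv.sum_comp (Equiv.addRight a) (fun x => U (lab x))
        have e2 : ∑ x, V (lab (x + a)) = ∑ x, V (lab x) :=
          Equiv.sum_comp (Equiv.addRight a) (fun x => V (lab x))
        rw [e1, e2]; exact H1)
      (by
        intro s
        have e1 := GG_conj (Equiv.addRight a) (Equiv.addRight s * τ1)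
          (Equiv.addRight (δ + s + a) * τ) (by
            intro x
            simp only [Equiv.Perm.mul_apply, Equiv.coe_addRight, hτ1']
            ring) (fun x => U (lab x)) (fun x => V (lab x))
        rw [H2] at e1
        exact e1.symm)
    obtain ⟨k1, k2⟩ := key
    set lab1 : ZMod (WW j) → ℕ := fun y => lab (((y.val : ℕ) : ZMod (WW (j + 1))) + a) with hlab1
    have hlt : ∀ y : ZMod (WW j), (((y.val : ℕ) : ZMod (WW (j + 1)))).val < WW j := by
      intro y
      have h1 : y.val < WW j := ZMod.val_lt y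
      have h2 : y.val < WW (j + 1) := by rw [hn]; omega
      rw [ZMod.val_natCast_of_lt h2]
      exact h1
    have hle1 : ∀ y, lab1 y ≤ j := fun y => g4 _ (hlt y)
    have hcard1 : ∀ i ≤ j, Nat.card {y // lab1 y = i} = len i := by
      rcases Nat.eq_zero_or_pos j with h0 | h0
      · intro i hi
        have hi0 : i = 0 := by omega
        rw [hi0]
        have e1 : Nat.card {y // lab1 y = 0} = Nat.card (ZMod (WW j)) := by
          apply Nat.card_congr
          exact Equiv.subtypeUnivEquiv (fun y => by have := hle1 y; omega)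
        rw [e1, Nat.card_zmod, h0]
        rfl
      · exact (g5 h0).card
    intro i hi1 hi2
    rcases Nat.lt_or_ge i (j + 1) with hlt' | hge
    · have hj : 1 ≤ j := by omega
      have := ih σ lab1 (g5 hj) (fun k => U k - U (j + 1)) (fun k => V k - V (j + 1)) k1 k2 i hi1
        (by omega)
      rw [dit_FF, dit_FF] at this
      exact this
    · have hij : i = j + 1 := by omega
      rw [hij]
      have e1 := dit_sum hle1 hcard1 (fun k => U k - U (j + 1))
      have e2 := dit_sum hle1 hcard1 (fun k => V k - V (j + 1))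
      rw [← dit_FF_top j U, ← dit_FF_top j V, ← e1, ← e2]
      exact k1

end Pool.Agent.TP
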