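import Pool.Agent.Lib_helper53.TP.WDefs
import Pool.Agent.Lib_helper53.TP.B.DAV
import Pool.Agent.Lib_helper53.TP.B.DIT

namespace Pool.Agent.TP

open Set Complex Finset

theorem dfn_card {S : Type} [Fintype S] {j : ℕ} {h v : Equiv.Perm S} {lab : S → ℕ}
    (H : Lett j h v lab) : Fintype.card S = WW j := by
  classical
  have h1 : Fintype.card S = ∑ i ∈ Finset.range (j + 1), len i := by
    have h2 : Fintype.card S = ∑ x : S, 1 := by simp
    have h3 : ∑ x : S, 1 = ∑ i ∈ Finset.range (j + 1), ∑ x with lab x = i, 1 := by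
      symm
      apply Finset.sum_fiberwise_of_maps_to
      intro x _
      exact Finset.mem_range.2 (Nat.lt_succ_of_le (H.le x))
    rw [h2, h3]
    refine Finset.sum_congr rfl fun i hi => ?_
    rw [← H.card i (Nat.le_of_lt_succ (Finset.mem_range.1 hi)), Nat.card_eq_fintype_card,
      Fintype.card_subtype, Finset.card_eq_sum_ones]
  rw [h1]
  clear h1 H
  induction j with
  | zero => simp [len, WW]
  | succ j ih => rw [Finset.sum_range_succ, ih]; simp [len, WW]

/-- Coordinates on a single cycle. -/
theorem dfn_coord {S : Type} [Fintype S] {h : Equiv.Perm S}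
    (cyc : ∀ x y : S, ∃ k : ℕ, (h ^ k) x = y) (n : ℕ) [NeZero n] (hn : Fintype.card S = n) :
    ∃ e : ZMod n ≃ S, ∀ x, h (e x) = e (x + 1) := by
  classical
  have hne : Nonempty S := by
    rw [← Fintype.card_pos_iff, hn]; exact Nat.pos_of_ne_zero (NeZero.ne n)
  obtain ⟨x0⟩ := hne
  -- the period
  have hper : ∀ m : ℕ, 0 < m → (h ^ m) x0 = x0 → n ≤ m := by
    intro m hm hx
    have hsurj : Function.Surjective (fun k : Fin m => (h ^ k.val) x0) := by
      intro y
      obtain ⟨k, hk⟩ := cyc x0 y
      refine ⟨⟨k % m, Nat.mod_lt _ hm⟩, ?_⟩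
      simp only
      rw [← hk]
      conv_rhs => rw [← Nat.mod_add_div k m]
      rw [pow_add, pow_mul, Equiv.Perm.mul_apply]
      congr 1
      have : ∀ q : ℕ, ((h ^ m) ^ q) x0 = x0 := by
        intro q
        induction q with
        | zero => rfl
        | succ q ih => rw [pow_succ, Equiv.Perm.mul_apply, hx, ih]
      exact (this _).symm
    have := Fintype.card_le_of_surjective _ hsurj
    rw [hn, Fintype.card_fin] at this
    exact this
  have hinj : Function.Injective (fun x : ZMod n => (h ^ x.val) x0) := by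
    intro x y hxy
    simp only at hxy
    wlog hle : x.val ≤ y.val generalizing x y
    · exact (this hxy.symm (by omega)).symm
    have h1 : (h ^ (y.val - x.val)) x0 = x0 := by
      have h2 : y.val = x.val + (y.val - x.val) := by omega
      rw [h2, pow_add, Equiv.Perm.mul_apply] at hxy
      exact ((h ^ x.val).injective hxy).symm
    rcases Nat.eq_zero_or_pos (y.val - x.val) with h0 | h0
    · exact ZMod.val_injective n (by omega)
    · have h3 := hper _ h0 h1
      have h4 := ZMod.val_lt y
      omega
  have hcard : Fintype.card (ZMod n) = Fintype.card S := by rw [ZMod.card, hn]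
  have hbij : Function.Bijective (fun x : ZMod n => (h ^ x.val) x0) :=
    (Fintype.bijective_iff_injective_and_card _).2 ⟨hinj, hcard⟩
  have hn0 : (h ^ n) x0 = x0 := by
    obtain ⟨y, hy⟩ := hbij.2 ((h ^ n) x0)
    simp only at hy
    have h4 := ZMod.val_lt y
    have h1 : (h ^ (n - y.val)) x0 = x0 := by
      have h2 : n = y.val + (n - y.val) := by omega
      have h3 : (h ^ n) x0 = (h ^ y.val) ((h ^ (n - y.val)) x0) := by
        conv_lhs => rw [h2, pow_add, Equiv.Perm.mul_apply]
      rw [h3] at hy
      exact ((h ^ y.val).injective hy).symm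
    have h5 := hper _ (by omega) h1
    have h6 : y.val = 0 := by omega
    rw [h6] at hy
    exact hy.symm
  refine ⟨Equiv.ofBijective _ hbij, fun x => ?_⟩
  change h ((h ^ x.val) x0) = (h ^ (x + 1).val) x0
  rw [← Equiv.Perm.mul_apply, ← pow_succ']
  rcases Nat.lt_or_ge (x.val + 1) n with hlt | hge
  · have : (x + 1).val = x.val + 1 := by
      have h1 : x + 1 = ((x.val + 1 : ℕ) : ZMod n) := by
        push_cast; rw [ZMod.natCast_zmod_val]
      rw [h1, ZMod.val_natCast_of_lt hlt]
    rw [this]
  · have h4 := ZMod.val_lt x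
    have h5 : x.val + 1 = n := by omega
    have h6 : x + 1 = 0 := by
      have h1 : x + 1 = ((x.val + 1 : ℕ) : ZMod n) := by
        push_cast; rw [ZMod.natCast_zmod_val]
      rw [h1, h5]; simp
    rw [h5, h6, hn0, ZMod.val_zero, pow_zero]; rfl

theorem dyn_final {S : Type} [Fintype S] {j : ℕ} {h v : Equiv.Perm S} {lab : S → ℕ}
    (H : Lett j h v lab) (U V : ℕ → ℝ) (H1 : (∑ x, U (lab x)) * (∑ x, V (lab x)) = 0)
    (H2 : ∀ n : ℕ, GG (h ^ n * v) (fun x => U (lab x)) (fun x => V (lab x)) = 0) :
    ∀ i, 1 ≤ i → i ≤ j → FF i U * FF i V = 0 := by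
  obtain ⟨e, he⟩ := dfn_coord H.cyc (WW j) (dfn_card H)
  have hhe : ∀ (n : ℕ) x, (h ^ n) (e x) = e (x + n) := by
    intro n x
    induction n with
    | zero => simp
    | succ n ih => rw [pow_succ', Equiv.Perm.mul_apply, ih, he]; congr 1; push_cast; ring
  set τ : Equiv.Perm (ZMod (WW j)) := (e.trans v).trans e.symm with hτ
  have hτe : ∀ x, e (τ x) = v (e x) := fun x => by simp [hτ]
  have hsymm : ∀ x, h.symm (e x) = e (x - 1) := by
    intro x
    rw [Equiv.symm_apply_eq, he, sub_add_cancel]
  have L : Lett j (Equiv.addRight (1 : ZMod (WW j))) τ (fun x => lab (e x)) := by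
    refine ⟨fun x y => ?_, fun x => H.le _, fun i hi => ?_, fun x y hxy hx hy => ?_,
      fun x hx => ?_⟩
    · refine ⟨(y - x).val, ?_⟩
      have : ∀ n : ℕ, ((Equiv.addRight (1 : ZMod (WW j))) ^ n) x = x + n := by
        intro n
        induction n with
        | zero => simp
        | succ n ih =>
          rw [pow_succ', Equiv.Perm.mul_apply, ih, Equiv.coe_addRight]; push_cast; ring
      rw [this, ZMod.natCast_zmod_val]; ring
    · rw [← H.card i hi]
      apply Nat.card_congr
      exact e.subtypeEquiv (fun x => Iff.rfl)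
    · apply e.injective
      have a0 : ∀ z, (Equiv.addRight (1 : ZMod (WW j))).symm z = z - 1 := fun z => by
        rw [Equiv.symm_apply_eq, Equiv.coe_addRight]; ring
      apply H.first _ _ hxy
      · rw [hsymm, ← a0]; exact hx
      · rw [hsymm, ← a0]; exact hy
    · apply e.injective
      have hx' : lab (h (e x)) = lab (e x) := by rw [he]; exact hx
      have := H.trans _ hx'
      change e (τ (x + 1)) = e (τ x + 1)
      rw [hτe, ← he, ← he, hτe, this]
  refine diter j τ (fun x => lab (e x)) L U V ?_ ?_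
  · have e1 : ∑ x, U (lab (e x)) = ∑ x, U (lab x) := Equiv.sum_comp e (fun x => U (lab x))
    have e2 : ∑ x, V (lab (e x)) = ∑ x, V (lab x) := Equiv.sum_comp e (fun x => V (lab x))
    rw [e1, e2]; exact H1
  · intro s
    have := GG_conj e (Equiv.addRight s * τ) (h ^ s.val * v) (by
      intro x
      rw [Equiv.Perm.mul_apply, ← hτe, hhe, Equiv.Perm.mul_apply, Equiv.coe_addRight,
        ZMod.natCast_zmod_val]) (fun x => U (lab x)) (fun x => V (lab x))
    rw [H2] at this
    exact this.symm

end Pool.Agent.TP
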