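import Pool.Agent.Lib_helper53.TP.WDefs

/-! Block FLP. -/

namespace Pool.Agent.TP

open Set Complex Finset

/-- The six darts of the two triangles of `d`. -/
structure FlpSix {D : Type} (c : Comb D) (v : D → ℂ) (d a1 a2 b0 b1 b2 : D) : Prop where
  e1 : c.next d = a1
  e2 : c.next a1 = a2
  e3 : c.next a2 = d
  e4 : c.opp d = b0
  e5 : c.opp b0 = d
  e6 : c.next b0 = b1
  e7 : c.next b1 = b2
  e8 : c.next b2 = b0
  d1 : d ≠ a1
  d2 : d ≠ a2
  d3 : d ≠ b0
  d4 : d ≠ b1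
  d5 : d ≠ b2
  d6 : a1 ≠ a2
  d7 : a1 ≠ b0
  d8 : a1 ≠ b1
  d9 : a1 ≠ b2
  d10 : a2 ≠ b0
  d11 : a2 ≠ b1
  d12 : a2 ≠ b2
  d13 : b0 ≠ b1
  d14 : b0 ≠ b2
  d15 : b1 ≠ b2
  w0 : v b0 = - v d
  wa : v d + v a1 + v a2 = 0
  wb : v b0 + v b1 + v b2 = 0

theorem flp_six {D : Type} (c : Comb D) (v : D → ℂ) (ok : IsTS c v) (d : D) :
    FlpSix c v d (c.next d) (c.next (c.next d)) (c.opp d) (c.next (c.opp d))
      (c.next (c.next (c.opp d))) := by
  have inj : ∀ x y, c.next x = c.next y → x = y := by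
    intro x y h
    have := congrArg (fun z => c.next (c.next z)) h
    simpa only [c.next3] using this
  have ne1 : ∀ x, x ≠ c.next x := by
    intro x h
    have := ok.pos x
    rw [← h] at this
    simp [cross] at this
    linarith [mul_comm (v x).re (v x).im]
  have ne2 : ∀ x, x ≠ c.next (c.next x) := by
    intro x h
    have h3 := c.next3 x
    rw [← h] at h3
    exact ne1 x h3.symm
  have o1 : ∀ x, c.opp x ≠ x := by
    intro x h
    have h2 := ok.opp_neg x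
    rw [h] at h2
    have h3 : v x = 0 := by
      have : (2 : ℂ) * v x = 0 := by linear_combination h2
      simpa using this
    have h4 := ok.pos x
    simp [cross, h3] at h4
  have o2 : ∀ x, c.opp x ≠ c.next x := by
    intro x h
    have h2 := ok.opp_neg x
    have h4 := ok.pos x
    rw [← h, h2] at h4
    simp [cross] at h4
    linarith [mul_comm (v x).re (v x).im]
  have o3 : ∀ x, c.opp x ≠ c.next (c.next x) := by
    intro x h
    have h2 := ok.opp_neg x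
    have h4 := ok.pos (c.next (c.next x))
    rw [c.next3, ← h, h2] at h4
    simp [cross] at h4
    linarith [mul_comm (v x).re (v x).im]
  have o4 : ∀ x, c.next (c.opp x) ≠ x := by
    intro x h
    have := o2 (c.opp x)
    rw [c.opp2] at this
    exact this h.symm
  have o5 : ∀ x, c.next (c.next (c.opp x)) ≠ x := by
    intro x h
    have := o3 (c.opp x)
    rw [c.opp2] at this
    exact this h.symm
  exact
  { e1 := rfl
    e2 := rfl
    e3 := c.next3 d
    e4 := rfl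
    e5 := c.opp2 d
    e6 := rfl
    e7 := rfl
    e8 := c.next3 _
    d1 := ne1 d
    d2 := ne2 d
    d3 := fun h => o1 d h.symm
    d4 := fun h => o4 d h.symm
    d5 := fun h => o5 d h.symm
    d6 := ne1 _
    d7 := fun h => o2 d h.symm
    d8 := fun h => o1 d (inj _ _ h.symm)
    d9 := fun h => o4 d (inj _ _ h.symm)
    d10 := fun h => o3 d h.symm
    d11 := fun h => o2 d (inj _ _ h.symm)
    d12 := fun h => o1 d (inj _ _ (inj _ _ h.symm))
    d13 := ne1 _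
    d14 := ne2 _
    d15 := ne1 _
    w0 := ok.opp_neg d
    wa := ok.sum_zero d
    wb := ok.sum_zero _ }

open Classical in
/-- The new `next`. -/
noncomputable def flpNext {D : Type} (c : Comb D) (d a1 a2 b0 b1 b2 : D) (x : D) : D :=
  if x = b1 then d else if x = d then a2 else if x = a2 then b1 else if x = a1 then b0
  else if x = b0 then b2 else if x = b2 then a1 else c.next x

open Classical in
/-- The new vectors. -/
noncomputable def flpVec {D : Type} (v : D → ℂ) (d a2 b0 b1 : D) (x : D) : ℂ :=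
  if x = d then -(v a2 + v b1) else if x = b0 then v a2 + v b1 else v x

section
variable {D : Type} {c : Comb D} {v : D → ℂ} {d a1 a2 b0 b1 b2 : D}

theorem flp_n (h : FlpSix c v d a1 a2 b0 b1 b2) :
    flpNext c d a1 a2 b0 b1 b2 b1 = d ∧ flpNext c d a1 a2 b0 b1 b2 d = a2 ∧
    flpNext c d a1 a2 b0 b1 b2 a2 = b1 ∧ flpNext c d a1 a2 b0 b1 b2 a1 = b0 ∧
    flpNext c d a1 a2 b0 b1 b2 b0 = b2 ∧ flpNext c d a1 a2 b0 b1 b2 b2 = a1 ∧
    ∀ x, x ≠ d → x ≠ a1 → x ≠ a2 → x ≠ b0 → x ≠ b1 → x ≠ b2 →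
      flpNext c d a1 a2 b0 b1 b2 x = c.next x := by
  obtain ⟨e1, e2, e3, e4, e5, e6, e7, e8, d1, d2, d3, d4, d5, d6, d7, d8, d9, d10, d11, d12, d13,
    d14, d15, w0, wa, wb⟩ := h
  refine ⟨?_, ?_, ?_, ?_, ?_, ?_, ?_⟩
  · simp [flpNext]
  · simp [flpNext, d4]
  · simp [flpNext, d11, d2.symm]
  · simp [flpNext, d8, d1.symm, d6]
  · simp [flpNext, d13, d3.symm, d10.symm, d7.symm]
  · simp [flpNext, d15.symm, d5.symm, d12.symm, d9.symm, d14.symm]
  · intro x h1 h2 h3 h4 h5 h6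
    simp [flpNext, h1, h2, h3, h4, h5, h6]

theorem flp_cases (d a1 a2 b0 b1 b2 x : D) : x = d ∨ x = a1 ∨ x = a2 ∨ x = b0 ∨ x = b1 ∨ x = b2 ∨
    (x ≠ d ∧ x ≠ a1 ∧ x ≠ a2 ∧ x ≠ b0 ∧ x ≠ b1 ∧ x ≠ b2) := by
  tauto

theorem flp_rest (h : FlpSix c v d a1 a2 b0 b1 b2) (x : D)
    (hx : x ≠ d ∧ x ≠ a1 ∧ x ≠ a2 ∧ x ≠ b0 ∧ x ≠ b1 ∧ x ≠ b2) :
    c.next x ≠ d ∧ c.next x ≠ a1 ∧ c.next x ≠ a2 ∧ c.next x ≠ b0 ∧ c.next x ≠ b1 ∧
      c.next x ≠ b2 := by
  obtain ⟨e1, e2, e3, e4, e5, e6, e7, e8, d1, d2, d3, d4, d5, d6, d7, d8, d9, d10, d11, d12, d13,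
    d14, d15, w0, wa, wb⟩ := h
  have inj : ∀ x y, c.next x = c.next y → x = y := by
    intro x y h
    have := congrArg (fun z => c.next (c.next z)) h
    simpa only [c.next3] using this
  obtain ⟨h1, h2, h3, h4, h5, h6⟩ := hx
  refine ⟨fun h => h3 (inj _ _ (h.trans e3.symm)), fun h => h1 (inj _ _ (h.trans e1.symm)),
    fun h => h2 (inj _ _ (h.trans e2.symm)), fun h => h6 (inj _ _ (h.trans e8.symm)),
    fun h => h4 (inj _ _ (h.trans e6.symm)), fun h => h5 (inj _ _ (h.trans e7.symm))⟩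

/-- The new combinatorial surface. -/
noncomputable def flpComb (h : FlpSix c v d a1 a2 b0 b1 b2) : Comb D where
  next := flpNext c d a1 a2 b0 b1 b2
  opp := c.opp
  next3 := by
    intro x
    obtain ⟨n1, n2, n3, n4, n5, n6, nr⟩ := flp_n h
    rcases flp_cases d a1 a2 b0 b1 b2 x with hx | hx | hx | hx | hx | hx | hx
    · rw [hx, n2, n3, n1]
    · rw [hx, n4, n5, n6]
    · rw [hx, n3, n1, n2]
    · rw [hx, n5, n6, n4]
    · rw [hx, n1, n2, n3]
    · rw [hx, n6, n4, n5]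
    · obtain ⟨h1, h2, h3, h4, h5, h6⟩ := hx
      obtain ⟨g1, g2, g3, g4, g5, g6⟩ := flp_rest h x ⟨h1, h2, h3, h4, h5, h6⟩
      obtain ⟨k1, k2, k3, k4, k5, k6⟩ := flp_rest h _ ⟨g1, g2, g3, g4, g5, g6⟩
      rw [nr x h1 h2 h3 h4 h5 h6, nr _ g1 g2 g3 g4 g5 g6, nr _ k1 k2 k3 k4 k5 k6, c.next3]
  opp2 := c.opp2
  conn := by
    intro T hT hn ho
    obtain ⟨n1, n2, n3, n4, n5, n6, nr⟩ := flp_n h
    refine c.conn T hT ?_ ho
    have t1 : b1 ∈ T → d ∈ T := fun hx => by have := hn _ hx; rwa [n1] at this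
    have t2 : d ∈ T → a2 ∈ T := fun hx => by have := hn _ hx; rwa [n2] at this
    have t3 : a2 ∈ T → b1 ∈ T := fun hx => by have := hn _ hx; rwa [n3] at this
    have t4 : a1 ∈ T → b0 ∈ T := fun hx => by have := hn _ hx; rwa [n4] at this
    have t5 : b0 ∈ T → b2 ∈ T := fun hx => by have := hn _ hx; rwa [n5] at this
    have t6 : b2 ∈ T → a1 ∈ T := fun hx => by have := hn _ hx; rwa [n6] at this
    have t7 : d ∈ T → b0 ∈ T := fun hx => by have := ho _ hx; rwa [h.e4] at this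
    have t8 : b0 ∈ T → d ∈ T := fun hx => by have := ho _ hx; rwa [h.e5] at this
    intro x hx
    rcases flp_cases d a1 a2 b0 b1 b2 x with h' | h' | h' | h' | h' | h' | h'
    · rw [h', h.e1]; rw [h'] at hx; tauto
    · rw [h', h.e2]; rw [h'] at hx; tauto
    · rw [h', h.e3]; rw [h'] at hx; tauto
    · rw [h', h.e6]; rw [h'] at hx; tauto
    · rw [h', h.e7]; rw [h'] at hx; tauto
    · rw [h', h.e8]; rw [h'] at hx; tauto
    · obtain ⟨h1, h2, h3, h4, h5, h6⟩ := h'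
      have := hn _ hx
      rwa [nr x h1 h2 h3 h4 h5 h6] at this

theorem flp_v (h : FlpSix c v d a1 a2 b0 b1 b2) :
    flpVec v d a2 b0 b1 d = -(v a2 + v b1) ∧ flpVec v d a2 b0 b1 b0 = v a2 + v b1 ∧
    ∀ x, x ≠ d → x ≠ b0 → flpVec v d a2 b0 b1 x = v x := by
  refine ⟨?_, ?_, ?_⟩
  · simp [flpVec]
  · simp [flpVec, h.d3.symm]
  · intro x h1 h2
    simp [flpVec, h1, h2]

theorem flp_ok (h : FlpSix c v d a1 a2 b0 b1 b2) (ok : IsTS c v)
    (h1 : 0 < cross (v a2) (v b1)) (h2 : 0 < cross (v b2) (v a1)) :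
    IsTS (flpComb h) (flpVec v d a2 b0 b1) := by
  obtain ⟨n1, n2, n3, n4, n5, n6, nr⟩ := flp_n h
  obtain ⟨v1, v2, vr⟩ := flp_v h
  have m1 : (flpComb h).next b1 = d := n1
  have m2 : (flpComb h).next d = a2 := n2
  have m3 : (flpComb h).next a2 = b1 := n3
  have m4 : (flpComb h).next a1 = b0 := n4
  have m5 : (flpComb h).next b0 = b2 := n5
  have m6 : (flpComb h).next b2 = a1 := n6
  have mr : ∀ x, x ≠ d → x ≠ a1 → x ≠ a2 → x ≠ b0 → x ≠ b1 → x ≠ b2 →
      (flpComb h).next x = c.next x := nr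
  have va1 := vr a1 h.d1.symm h.d7
  have va2 := vr a2 h.d2.symm h.d10
  have vb1 := vr b1 h.d4.symm h.d13.symm
  have vb2 := vr b2 h.d5.symm h.d14.symm
  have wb := h.wb
  have wa := h.wa
  rw [h.w0] at wb
  have hs : v a2 + v b1 = -(v a1 + v b2) := by linear_combination wa + wb
  refine ⟨?_, ?_, ?_⟩
  · intro x
    change flpVec v d a2 b0 b1 (c.opp x) = _
    by_cases hx : x = d
    · rw [hx, h.e4, v1, v2, neg_neg]
    by_cases hx' : x = b0
    · rw [hx', h.e5, v1, v2]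
    rw [vr x hx hx', vr _ ?_ ?_, ok.opp_neg]
    · intro h'
      apply hx'
      rw [← c.opp2 x, h', h.e4]
    · intro h'
      apply hx
      rw [← c.opp2 x, h', h.e5]
  · intro x
    rcases flp_cases d a1 a2 b0 b1 b2 x with hx | hx | hx | hx | hx | hx | hx
    · rw [hx, m2, m3, v1, va2, vb1]; ring
    · rw [hx, m4, m5, v2, va1, vb2]; linear_combination wa + wb
    · rw [hx, m3, m1, v1, va2, vb1]; ring
    · rw [hx, m5, m6, v2, va1, vb2]; linear_combination wa + wb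
    · rw [hx, m1, m2, v1, va2, vb1]; ring
    · rw [hx, m6, m4, v2, va1, vb2]; linear_combination wa + wb
    · obtain ⟨h1, h2, h3, h4, h5, h6⟩ := hx
      obtain ⟨g1, g2, g3, g4, g5, g6⟩ := flp_rest h x ⟨h1, h2, h3, h4, h5, h6⟩
      obtain ⟨k1, k2, k3, k4, k5, k6⟩ := flp_rest h _ ⟨g1, g2, g3, g4, g5, g6⟩
      rw [mr x h1 h2 h3 h4 h5 h6, mr _ g1 g2 g3 g4 g5 g6, vr _ h1 h4, vr _ g1 g4, vr _ k1 k4]
      exact ok.sum_zero x
  · have e1 : cross (v a2) (v b1) = (v a2).re * (v b1).im - (v a2).im * (v b1).re := rfl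
    have e2 : cross (v b2) (v a1) = (v b2).re * (v a1).im - (v b2).im * (v a1).re := rfl
    intro x
    rcases flp_cases d a1 a2 b0 b1 b2 x with hx | hx | hx | hx | hx | hx | hx
    · rw [hx, m2, v1, va2]
      simp only [cross, neg_re, neg_im, add_re, add_im] at *
      nlinarith [h1]
    · rw [hx, m4, v2, va1, hs]
      simp only [cross, neg_re, neg_im, add_re, add_im] at *
      nlinarith [h2]
    · rw [hx, m3, va2, vb1]
      exact h1
    · rw [hx, m5, v2, vb2, hs]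
      simp only [cross, neg_re, neg_im, add_re, add_im] at *
      nlinarith [h2]
    · rw [hx, m1, v1, vb1]
      simp only [cross, neg_re, neg_im, add_re, add_im] at *
      nlinarith [h1]
    · rw [hx, m6, va1, vb2]
      exact h2
    · obtain ⟨h1, h2, h3, h4, h5, h6⟩ := hx
      obtain ⟨g1, g2, g3, g4, g5, g6⟩ := flp_rest h x ⟨h1, h2, h3, h4, h5, h6⟩
      rw [mr x h1 h2 h3 h4 h5 h6, vr _ h1 h4, vr _ g1 g4]
      exact ok.pos x

end

theorem flip_exists {D : Type} (c : Comb D) (v : D → ℂ) (ok : IsTS c v) (d : D)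
    (h1 : 0 < cross (v (c.next (c.next d))) (v (c.next (c.opp d))))
    (h2 : 0 < cross (v (c.next (c.next (c.opp d)))) (v (c.next d))) :
    ∃ (c' : Comb D) (v' : D → ℂ), IsTS c' v' ∧ IsFlip c v d c' v' ∧
      v' d = -(v (c.next (c.next d)) + v (c.next (c.opp d))) := by
  have h := flp_six c v ok d
  obtain ⟨n1, n2, n3, n4, n5, n6, nr⟩ := flp_n h
  obtain ⟨v1, v2, vr⟩ := flp_v h
  refine ⟨flpComb h, _, flp_ok h ok h1 h2, ⟨fun _ => rfl, n1, n2, n3, n4, n5, n6, nr, vr⟩, v1⟩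

end Pool.Agent.TP
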