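import Pool.Agent.Lib_helper53.TP.WDefs
import Pool.Agent.Lib_helper53.TP.B.FLP

namespace Pool.Agent.TP

open Set Complex Finset

theorem mfl_mNext_mem {D : Type} (c : Comb D) (E : Set D) {x : D} (hx : x ∈ E) :
    mNext c E x = c.next (c.next x) := by
  unfold mNext
  rw [if_pos hx]

theorem mfl_mNext_two {D : Type} (c : Comb D) (E : Set D) {x : D} (hx : x ∉ E)
    (h2 : c.next (c.next x) ∈ E) : mNext c E x = c.opp (c.next (c.next x)) := by
  unfold mNext
  rw [if_neg hx, if_pos h2]

theorem mfl_mNext_one {D : Type} (c : Comb D) (E : Set D) {x : D} (hx : x ∉ E)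
    (h2 : c.next (c.next x) ∉ E) (h1 : c.next x ∈ E) :
    mNext c E x = c.next (c.opp (c.next x)) := by
  unfold mNext
  rw [if_neg hx, if_neg h2, if_pos h1]

theorem mfl_mNext_not {D : Type} (c : Comb D) (E : Set D) {x : D} (hx : x ∉ E)
    (h2 : c.next (c.next x) ∉ E) (h1 : c.next x ∉ E) :
    mNext c E x = c.next x := by
  unfold mNext
  rw [if_neg hx, if_neg h2, if_neg h1]

theorem mfl_mNext_congr {D : Type} (c : Comb D) (E E' : Set D) {x : D} (hx : x ∈ E ↔ x ∈ E')
    (h2 : c.next (c.next x) ∈ E ↔ c.next (c.next x) ∈ E')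
    (h1 : c.next x ∈ E ↔ c.next x ∈ E') : mNext c E x = mNext c E' x := by
  by_cases a : x ∈ E
  · rw [mfl_mNext_mem c E a, mfl_mNext_mem c E' (hx.1 a)]
  have a' := fun h => a (hx.2 h)
  by_cases b : c.next (c.next x) ∈ E
  · rw [mfl_mNext_two c E a b, mfl_mNext_two c E' a' (h2.1 b)]
  have b' := fun h => b (h2.2 h)
  by_cases d : c.next x ∈ E
  · rw [mfl_mNext_one c E a b d, mfl_mNext_one c E' a' b' (h1.1 d)]
  rw [mfl_mNext_not c E a b d, mfl_mNext_not c E' a' b' (fun h => d (h1.2 h))]

theorem mfl_mVec_mem {D : Type} (c : Comb D) (v : D → ℂ) (E : Set D) {x : D} (hx : x ∈ E) :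
    mVec c v E x = -(v (c.next (c.next x)) + v (c.next (c.opp x))) := by
  unfold mVec
  rw [if_pos hx]

theorem mfl_mVec_not {D : Type} (c : Comb D) (v : D → ℂ) (E : Set D) {x : D} (hx : x ∉ E) :
    mVec c v E x = v x := by
  unfold mVec
  rw [if_neg hx]

theorem mfl_mVec_congr {D : Type} (c : Comb D) (v : D → ℂ) (E E' : Set D) {x : D}
    (hx : x ∈ E ↔ x ∈ E') : mVec c v E x = mVec c v E' x := by
  by_cases a : x ∈ E
  · rw [mfl_mVec_mem c v E a, mfl_mVec_mem c v E' (hx.1 a)]
  rw [mfl_mVec_not c v E a, mfl_mVec_not c v E' (fun h => a (hx.2 h))]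

/-- MFL: simultaneous flips, at most one dart of `E` in each triangle. -/
theorem multi_flip {D : Type} (fin : Finite D) (ne : Nonempty D) (c : Comb D) (v : D → ℂ)
    (ok : IsTS c v) (E : Set D) (hE : ∀ x ∈ E, c.opp x ∈ E) (h1 : ∀ x ∈ E, c.next x ∉ E)
    (hpos : ∀ x ∈ E, 0 < cross (v (c.next (c.next x))) (v (c.next (c.opp x)))) :
    ∃ (c' : Comb D) (v' : D → ℂ) (ok' : IsTS c' v'),
      Conn ⟨D, fin, ne, c, v, ok⟩ ⟨D, fin, ne, c', v', ok'⟩ ∧ (∀ x, c'.opp x = c.opp x) ∧
      (∀ x, c'.next x = mNext c E x) ∧ ∀ x, v' x = mVec c v E x := by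
  induction hn : E.ncard using Nat.strong_induction_on generalizing E with
  | _ n ih =>
    rcases E.eq_empty_or_nonempty with h0 | ⟨d, hd⟩
    · subst h0
      refine ⟨c, v, ok, Conn.refl _, fun _ => rfl, fun x => ?_, fun x => ?_⟩
      · rw [mfl_mNext_not] <;> simp
      · rw [mfl_mVec_not]; simp
    · have hd' : c.opp d ∈ E := hE d hd
      have E2 : ∀ x ∈ E, c.next (c.next x) ∉ E := by
        intro x hx h
        have := h1 _ h
        rw [c.next3] at this
        exact this hx
      set E' : Set D := E \ {d, c.opp d} with hE'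
      have hlt : E'.ncard < n := by
        rw [← hn]
        apply Set.ncard_lt_ncard _ (Set.toFinite E)
        refine ⟨Set.sdiff_subset, fun h => ?_⟩
        have := (h hd).2
        simp at this
      have memE' : ∀ x, x ∈ E' ↔ x ∈ E ∧ x ≠ d ∧ x ≠ c.opp d := by
        intro x
        simp only [hE', Set.mem_sdiff, Set.mem_insert_iff, Set.mem_singleton_iff, not_or]
      obtain ⟨c1, v1, ok1, hc1, ho1, hn1, hv1⟩ := ih _ hlt E' (by
        intro x hx
        rw [memE'] at hx ⊢
        refine ⟨hE x hx.1, ?_, ?_⟩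
        · intro h
          apply hx.2.2
          rw [← h, c.opp2]
        · intro h
          apply hx.2.1
          have := congrArg c.opp h
          rwa [c.opp2, c.opp2] at this) (by
        intro x hx h
        exact h1 x ((memE' x).1 hx).1 ((memE' _).1 h).1) (by
        intro x hx
        exact hpos x ((memE' x).1 hx).1) rfl
      -- the triangles of d and opp d are unchanged
      have dE' : d ∉ E' := by rw [memE']; simp
      have oE' : c.opp d ∉ E' := by rw [memE']; simp
      have nE' : ∀ x, x ∉ E → x ∉ E' := fun x hx h => hx ((memE' x).1 h).1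
      have a1 : c1.next d = c.next d := by
        rw [hn1, mfl_mNext_not c E' dE' (nE' _ (E2 d hd)) (nE' _ (h1 d hd))]
      have a2 : c1.next (c.next d) = c.next (c.next d) := by
        rw [hn1, mfl_mNext_not c E' (nE' _ (h1 d hd)) (by rw [c.next3]; exact dE')
          (nE' _ (E2 d hd))]
      have b1 : c1.next (c.opp d) = c.next (c.opp d) := by
        rw [hn1, mfl_mNext_not c E' oE' (nE' _ (E2 _ hd')) (nE' _ (h1 _ hd'))]
      have b2 : c1.next (c.next (c.opp d)) = c.next (c.next (c.opp d)) := by
        rw [hn1, mfl_mNext_not c E' (nE' _ (h1 _ hd')) (by rw [c.next3]; exact oE')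
          (nE' _ (E2 _ hd'))]
      have w1 : v1 (c.next (c.next d)) = v (c.next (c.next d)) := by
        rw [hv1, mfl_mVec_not _ _ _ (nE' _ (E2 d hd))]
      have w2 : v1 (c.next (c.opp d)) = v (c.next (c.opp d)) := by
        rw [hv1, mfl_mVec_not _ _ _ (nE' _ (h1 _ hd'))]
      have w3 : v1 (c.next (c.next (c.opp d))) = v (c.next (c.next (c.opp d))) := by
        rw [hv1, mfl_mVec_not _ _ _ (nE' _ (E2 _ hd'))]
      have w4 : v1 (c.next d) = v (c.next d) := by
        rw [hv1, mfl_mVec_not _ _ _ (nE' _ (h1 _ hd))]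
      obtain ⟨c2, v2, ok2, F, hv2⟩ := flip_exists c1 v1 ok1 d
        (by rw [ho1, a1, a2, b1, w1, w2]; exact hpos d hd)
        (by
          rw [ho1, a1, b1, b2, w3, w4]
          have := hpos _ hd'
          rwa [c.opp2] at this)
      refine ⟨c2, v2, ok2, hc1.trans (Conn.flip F), fun x => by rw [F.opp_eq, ho1], ?_, ?_⟩
      · have f1 := F.n1
        have f2 := F.n2
        have f3 := F.n3
        have f4 := F.n4
        have f5 := F.n5
        have f6 := F.n6
        have f7 := F.rest
        rw [ho1] at f1 f3 f4 f5 f6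
        rw [a1, a2] at f2
        rw [a1, a2, b1] at f3
        rw [a1] at f4
        rw [b1] at f1
        rw [b1, b2] at f5
        rw [b1, b2, a1] at f6
        rw [ho1, a1, a2, b1, b2] at f7
        intro x
        by_cases x1 : x = d
        · subst x1
          rw [f2, mfl_mNext_mem _ _ hd]
        by_cases x2 : x = c.next d
        · subst x2
          rw [f4, mfl_mNext_two _ _ (h1 d hd) (by rw [c.next3]; exact hd), c.next3]
        by_cases x3 : x = c.next (c.next d)
        · subst x3
          rw [f3, mfl_mNext_one _ _ (E2 d hd) (by rw [c.next3]; exact h1 d hd)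
            (by rw [c.next3]; exact hd), c.next3]
        by_cases x4 : x = c.opp d
        · subst x4
          rw [f5, mfl_mNext_mem _ _ hd']
        by_cases x5 : x = c.next (c.opp d)
        · subst x5
          rw [f1, mfl_mNext_two _ _ (h1 _ hd') (by rw [c.next3]; exact hd'), c.next3, c.opp2]
        by_cases x6 : x = c.next (c.next (c.opp d))
        · subst x6
          rw [f6, mfl_mNext_one _ _ (E2 _ hd') (by rw [c.next3]; exact h1 _ hd')
            (by rw [c.next3]; exact hd'), c.next3, c.opp2]
        rw [f7 x x1 x2 x3 x4 x5 x6, hn1]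
        apply mfl_mNext_congr
        · rw [memE']
          exact ⟨fun h => h.1, fun h => ⟨h, x1, x4⟩⟩
        · rw [memE']
          refine ⟨fun h => h.1, fun h => ⟨h, ?_, ?_⟩⟩
          · intro hh
            apply x2
            rw [← hh, c.next3]
          · intro hh
            apply x5
            rw [← hh, c.next3]
        · rw [memE']
          refine ⟨fun h => h.1, fun h => ⟨h, ?_, ?_⟩⟩
          · intro hh
            apply x3
            rw [← hh, c.next3]
          · intro hh
            apply x6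
            rw [← hh, c.next3]
      · intro x
        by_cases x1 : x = d
        · subst x1
          rw [hv2, mfl_mVec_mem _ _ _ hd, ho1, a1, a2, b1, w1, w2]
        by_cases x4 : x = c.opp d
        · subst x4
          have e1 := ok2.opp_neg d
          rw [F.opp_eq, ho1] at e1
          rw [e1, hv2, mfl_mVec_mem _ _ _ hd', ho1, a1, a2, b1, w1, w2, c.opp2]
          have e2 := ok.sum_zero d
          have e3 := ok.sum_zero (c.opp d)
          rw [ok.opp_neg] at e3
          linear_combination e2 + e3
        rw [F.vec x x1 (by rw [ho1]; exact x4), hv1]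
        apply mfl_mVec_congr
        rw [memE']
        exact ⟨fun h => h.1, fun h => ⟨h, x1, x4⟩⟩

end Pool.Agent.TP
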