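import Pool.Agent.Lib_helper53.TP.WDefs
import Pool.Agent.Lib_helper53.TP.B.MFL

/-!
# RTW: the twist of a set of rows
-/

namespace Pool.Agent.TP

open Set Complex

section
variable {S : Type}

/-- The darts which are flipped: the right and left sides of the parallelograms of `R`. -/
def rtwE (R : Set S) : Set (S × Fin 6) := {p | p.1 ∈ R ∧ (p.2 = 1 ∨ p.2 = 5)}

open Classical in
/-- The old names of the new darts. -/
noncomputable def rtwF (h : Equiv.Perm S) (R : Set S) : S × Fin 6 → S × Fin 6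
  | (s, 0) => (s, 0)
  | (s, 1) => if s ∈ R then (h s, 3) else (s, 1)
  | (s, 2) => if s ∈ R then (s, 1) else (s, 2)
  | (s, 3) => if s ∈ R then (h s, 5) else (s, 3)
  | (s, 4) => if s ∈ R then (h s, 4) else (s, 4)
  | (s, 5) => if s ∈ R then (s, 2) else (s, 5)

open Classical in
/-- The new names of the old darts. -/
noncomputable def rtwG (h : Equiv.Perm S) (R : Set S) : S × Fin 6 → S × Fin 6
  | (s, 0) => (s, 0)
  | (s, 1) => if s ∈ R then (s, 2) else (s, 1)
  | (s, 2) => if s ∈ R then (s, 5) else (s, 2)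
  | (s, 3) => if s ∈ R then (h.symm s, 1) else (s, 3)
  | (s, 4) => if s ∈ R then (h.symm s, 4) else (s, 4)
  | (s, 5) => if s ∈ R then (h.symm s, 3) else (s, 5)

/-- The renaming of the darts. -/
noncomputable def rtwEquiv (h : Equiv.Perm S) (R : Set S) (hR : ∀ s, h s ∈ R ↔ s ∈ R) :
    S × Fin 6 ≃ S × Fin 6 where
  toFun := rtwF h R
  invFun := rtwG h R
  left_inv := by
    rintro ⟨s, k⟩
    by_cases hs : s ∈ R
    · fin_cases k <;> simp [rtwF, rtwG, hs, hR]
    · fin_cases k <;> simp [rtwF, rtwG, hs]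
  right_inv := by
    have hR' : ∀ s, h.symm s ∈ R ↔ s ∈ R := fun s => by rw [← hR, Equiv.apply_symm_apply]
    rintro ⟨s, k⟩
    by_cases hs : s ∈ R
    · fin_cases k <;> simp [rtwF, rtwG, hs, hR']
    · fin_cases k <;> simp [rtwF, rtwG, hs]

end

/-- RTW (cites MFL): the twist of a set of rows. -/
theorem row_twist {S : Type} [Finite S] [Nonempty S] (x y : Rows S) (R : Set S)
    (hR : ∀ s, x.h s ∈ R ↔ s ∈ R) (hh : y.h = x.h) (hv1 : ∀ s ∈ R, y.v s = x.v (x.h s))
    (hv2 : ∀ s ∉ R, y.v s = x.v s) (hℓ : y.ℓ = x.ℓ)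
    (hc1 : ∀ s ∈ R, y.c s = x.c s + x.ℓ (x.v s)) (hc2 : ∀ s ∉ R, y.c s = x.c s) :
    Conn x.ps y.ps := by
  obtain ⟨h, v, tr, ℓ, c, pos, con⟩ := x
  obtain ⟨h', v', tr', ℓ', c', pos', con'⟩ := y
  simp only at hR hh hv1 hv2 hℓ hc1 hc2
  subst hh hℓ
  have hR' : ∀ s, h'.symm s ∈ R ↔ s ∈ R := fun s => by rw [← hR, Equiv.apply_symm_apply]
  have hE0 : ∀ s : S, ((s, (0 : Fin 6)) ∈ rtwE R) = False := fun s => by simp [rtwE]
  have hE1 : ∀ s : S, ((s, (1 : Fin 6)) ∈ rtwE R) = (s ∈ R) := fun s => by simp [rtwE]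
  have hE2 : ∀ s : S, ((s, (2 : Fin 6)) ∈ rtwE R) = False := fun s => by simp [rtwE]
  have hE3 : ∀ s : S, ((s, (3 : Fin 6)) ∈ rtwE R) = False := fun s => by simp [rtwE]
  have hE4 : ∀ s : S, ((s, (4 : Fin 6)) ∈ rtwE R) = False := fun s => by simp [rtwE]
  have hE5 : ∀ s : S, ((s, (5 : Fin 6)) ∈ rtwE R) = (s ∈ R) := fun s => by simp [rtwE]
  obtain ⟨c1, v1, ok1, hconn, hopp, hnext, hvec⟩ :=
    multi_flip (inferInstance : Finite (S × Fin 6)) inferInstance (rComb h' v tr)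
      (rVec h' v ℓ' c) (Rows.ok ⟨h', v, tr, ℓ', c, pos, con⟩) (rtwE R)
      (by
        rintro ⟨s, k⟩ hs
        obtain ⟨hs, hk⟩ := hs
        simp only at hs hk
        rcases hk with hk | hk <;> subst hk <;> simp [rComb, rOpp, hE1, hE5, hR, hR', hs])
      (by
        rintro ⟨s, k⟩ hs
        obtain ⟨hs, hk⟩ := hs
        simp only at hs hk
        rcases hk with hk | hk <;> subst hk <;> simp [rComb, rNext, hE2, hE3])
      (by
        rintro ⟨s, k⟩ hs
        obtain ⟨hs, hk⟩ := hs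
        simp only at hs hk
        rcases hk with hk | hk <;> subst hk <;> simp [rComb, rOpp, rNext, rVec, cross, pos])
  refine Conn.trans hconn (Conn.symm (Conn.iso ?_))
  refine ⟨rtwEquiv h' R hR, ?_, ?_, ?_⟩
  · rintro ⟨s, k⟩
    change c1.next (rtwF h' R (s, k)) = rtwF h' R (rNext (s, k))
    rw [hnext]
    by_cases hs : s ∈ R
    · fin_cases k <;>
        simp [mNext, rtwF, rNext, rOpp, rComb, hs, hR, hE0, hE1, hE2, hE3, hE4, hE5]
    · fin_cases k <;>
        simp [mNext, rtwF, rNext, rOpp, rComb, hs, hE0, hE1, hE2, hE3, hE4, hE5]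
  · have e0 : ∀ s, (v.symm s, (4 : Fin 6)) = rtwF h' R (v'.symm s, 4) := by
      intro s
      by_cases ht : v'.symm s ∈ R
      · have e1 := hv1 _ ht
        rw [Equiv.apply_symm_apply] at e1
        simp [rtwF, ht, Equiv.symm_apply_eq, ← e1]
      · have e1 := hv2 _ ht
        rw [Equiv.apply_symm_apply] at e1
        simp [rtwF, ht, Equiv.symm_apply_eq, ← e1]
    rintro ⟨s, k⟩
    change c1.opp (rtwF h' R (s, k)) = rtwF h' R (rOpp h' v' (s, k))
    rw [hopp]
    by_cases hs : s ∈ R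
    · fin_cases k
      · exact e0 s
      · simp [rtwF, rOpp, rComb, hs, hR]
      · simp [rtwF, rOpp, rComb, hs]
      · simp [rtwF, rOpp, rComb, hs]
      · simp [rtwF, rOpp, rComb, hs, hv1 s hs]
      · simp [rtwF, rOpp, rComb, hs, hR']
    · fin_cases k
      · exact e0 s
      · simp [rtwF, rOpp, rComb, hs, hR]
      · simp [rtwF, rOpp, rComb, hs]
      · simp [rtwF, rOpp, rComb, hs]
      · simp [rtwF, rOpp, rComb, hs, hv2 s hs]
      · simp [rtwF, rOpp, rComb, hs, hR']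
  · rintro ⟨s, k⟩
    change v1 (rtwF h' R (s, k)) = rVec h' v' ℓ' c' (s, k)
    rw [hvec]
    have hcon : ((ℓ' s : ℝ) : ℂ) + c (h' s) = c s + ℓ' (v s) := by exact_mod_cast con s
    by_cases hs : s ∈ R
    · have hs1 := hc1 s hs
      have hs2 := hc1 (h' s) ((hR s).2 hs)
      fin_cases k
      · simp [mVec, rtwF, rVec, hE0]
      · simp [mVec, rtwF, rVec, hs, hE3, hs2]
      · simp [mVec, rtwF, rVec, rNext, rOpp, rComb, hs, hE1, hs1, hv1 s hs]
        linear_combination -hcon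
      · simp [mVec, rtwF, rVec, rNext, rOpp, rComb, hs, hR, hE5, hs1, hv1 s hs]
        ring
      · simp [mVec, rtwF, rVec, hs, hE4, hv1 s hs]
      · simp [mVec, rtwF, rVec, hs, hE2, hs1]
    · have hs1 := hc2 s hs
      have hs2 := hc2 (h' s) (fun hh => hs ((hR s).1 hh))
      fin_cases k
      · simp [mVec, rtwF, rVec, hE0]
      · simp [mVec, rtwF, rVec, hs, hE1, hs2]
      · simp [mVec, rtwF, rVec, hs, hE2, hs1, hv2 s hs]
      · simp [mVec, rtwF, rVec, hs, hE3, hs1, hv2 s hs]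
      · simp [mVec, rtwF, rVec, hs, hE4, hv2 s hs]
      · simp [mVec, rtwF, rVec, hs, hE5, hs1]

end Pool.Agent.TP
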