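import Pool.Agent.Lib_helper53.TP.WDefs
import Pool.Agent.Lib_helper53.TP.B.FLP
import Pool.Agent.Lib_helper53.TP.B.SBE

/-!
# TP block SPL: splitting a parallelogram whose top side is glued to its bottom side
-/

namespace Pool.Agent.TP

open Set Complex Finset

open Classical in
/-- The renaming of darts. -/
noncomputable def splE {S Z : Type} (s0 : S) (ι : S × Fin 6 → Z) (p q m m' k k' : Z) :
    Option S × Fin 6 → Z
  | (none, 0) => p
  | (none, 1) => ι (s0, 1)
  | (none, 2) => m'
  | (none, 3) => m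
  | (none, 4) => ι (s0, 4)
  | (none, 5) => ι (s0, 2)
  | (some s, 0) => ι (s, 0)
  | (some s, 1) => if s = s0 then ι (s0, 3) else ι (s, 1)
  | (some s, 2) => if s = s0 then k else ι (s, 2)
  | (some s, 3) => if s = s0 then k' else ι (s, 3)
  | (some s, 4) => if s = s0 then q else ι (s, 4)
  | (some s, 5) => ι (s, 5)

theorem splE_bij {S Z : Type} [Finite S] [Finite Z] (s0 : S) (ι : S × Fin 6 → Z)
    (p q m m' k k' : Z)
    (inj : Function.Injective ι)
    (cover : ∀ x, x ∈ range ι ∨ x = p ∨ x = q ∨ x = m ∨ x = m' ∨ x = k ∨ x = k')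
    (fresh : ∀ x, ι x ≠ p ∧ ι x ≠ q ∧ ι x ≠ m ∧ ι x ≠ m' ∧ ι x ≠ k ∧ ι x ≠ k')
    (distinct : [p, q, m, m', k, k'].Nodup) :
    Function.Bijective (splE s0 ι p q m m' k k') := by
  classical
  have hs : Function.Surjective (splE s0 ι p q m m' k k') := by
    intro x
    rcases cover x with ⟨⟨s, i⟩, rfl⟩ | rfl | rfl | rfl | rfl | rfl | rfl
    · by_cases h : s = s0
      · subst h
        fin_cases i
        · exact ⟨(some s, 0), rfl⟩
        · exact ⟨(none, 1), rfl⟩
        · exact ⟨(none, 5), rfl⟩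
        · exact ⟨(some s, 1), by simp [splE]⟩
        · exact ⟨(none, 4), rfl⟩
        · exact ⟨(some s, 5), rfl⟩
      · fin_cases i
        · exact ⟨(some s, 0), rfl⟩
        · exact ⟨(some s, 1), by simp [splE, h]⟩
        · exact ⟨(some s, 2), by simp [splE, h]⟩
        · exact ⟨(some s, 3), by simp [splE, h]⟩
        · exact ⟨(some s, 4), by simp [splE, h]⟩
        · exact ⟨(some s, 5), rfl⟩
    · exact ⟨(none, 0), rfl⟩
    · exact ⟨(some s0, 4), by simp [splE]⟩
    · exact ⟨(none, 3), rfl⟩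
    · exact ⟨(none, 2), rfl⟩
    · exact ⟨(some s0, 2), by simp [splE]⟩
    · exact ⟨(some s0, 3), by simp [splE]⟩
  refine Function.Surjective.bijective_of_nat_card_le hs ?_
  have hinj : Function.Injective (Sum.elim ι ![p, q, m, m', k, k']) := by
    refine Function.Injective.sumElim inj ?_ ?_
    · have : [p, q, m, m', k, k'] = List.ofFn ![p, q, m, m', k, k'] := by
        simp [List.ofFn_succ]
      rw [this, List.nodup_ofFn] at distinct
      exact distinct
    · intro a b
      obtain ⟨h1, h2, h3, h4, h5, h6⟩ := fresh a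
      fin_cases b
      · exact h1
      · exact h2
      · exact h3
      · exact h4
      · exact h5
      · exact h6
  have h1 := Nat.card_le_card_of_injective _ hinj
  have h2 : Nat.card (Option S × Fin 6) = Nat.card ((S × Fin 6) ⊕ Fin 6) := by
    rw [Nat.card_prod, Nat.card_sum, Nat.card_prod]
    have : Nat.card (Option S) = Nat.card S + 1 := Finite.card_option
    rw [this]
    simp
    ring
  rw [h2]
  exact h1

theorem row_split {S : Type} [Finite S] [Nonempty S] (x : Rows S) (y : Rows (Option S)) (s0 : S)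
    (hv0 : x.v s0 = s0) (hh1 : ∀ s, s ≠ s0 → y.h (some s) = some (x.h s))
    (hh2 : y.h (some s0) = none) (hh3 : y.h none = some (x.h s0))
    (hv1 : ∀ s, y.v (some s) = some (x.v s)) (hv2 : y.v none = none)
    (hℓ1 : ∀ s, s ≠ s0 → y.ℓ (some s) = x.ℓ s) (hℓ2 : y.ℓ (some s0) + y.ℓ none = x.ℓ s0)
    (hc1 : ∀ s, y.c (some s) = x.c s) (hc2 : y.c none = x.c s0) :
    Conn x.ps y.ps := by
  classical
  have hl := x.pos s0
  have hl1 := y.pos (some s0)
  have hl2 := y.pos none
  set θ : ℝ := y.ℓ (some s0) / x.ℓ s0 with hθ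
  have hθ0 : 0 < θ := div_pos hl1 hl
  have hθ1 : θ < 1 := by rw [hθ, div_lt_one hl]; linarith
  have hθl : θ * x.ℓ s0 = y.ℓ (some s0) := by rw [hθ]; field_simp
  have hθl' : (1 - θ) * x.ℓ s0 = y.ℓ none := by rw [sub_mul, hθl]; linarith
  obtain ⟨z, ι, p, q, m, m', k, k', H0⟩ := sub_exists x.ps (show x.ps.D from (s0, 0)) θ hθ0 hθ1
  have hxz : Conn x.ps z := Conn.of (Step.sub _ _ _ _ _ _ _ _ _ _ _ H0)
  change S × Fin 6 → z.D at ι
  have H : IsSubdiv (rComb x.h x.v x.tr) (rVec x.h x.v x.ℓ x.c) ((s0, 0) : S × Fin 6) θ z.c z.v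
    ι p q m m' k k' := H0
  clear H0
  have hvs : x.v.symm s0 = s0 := by rw [Equiv.symm_apply_eq]; exact hv0.symm
  have ho : (rComb x.h x.v x.tr).opp (s0, 0) = (s0, 4) := by
    change (x.v.symm s0, (4 : Fin 6)) = _
    rw [hvs]
  have sv := subdiv_vec x.ok z.ok H
  rw [ho] at sv
  obtain ⟨vp, vq, v4, vm, vm', vk, vk'⟩ := sv
  have n1 : z.c.next (ι (s0, 0)) = m := H.n1
  have n2 : z.c.next m = ι (s0, 2) := H.n2
  have n3 : z.c.next (ι (s0, 2)) = ι (s0, 0) := H.n3
  have n4 : z.c.next p = ι (s0, 1) := H.n4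
  have n5 : z.c.next (ι (s0, 1)) = m' := H.n5
  have n6 : z.c.next m' = p := H.n6
  have n7 : z.c.next (ι (s0, 4)) = k := by have := H.n7; rwa [ho] at this
  have n8 : z.c.next k = ι (s0, 3) := by have := H.n8; rwa [ho] at this
  have n9 : z.c.next (ι (s0, 3)) = ι (s0, 4) := by have := H.n9; rwa [ho] at this
  have n10 : z.c.next q = ι (s0, 5) := by have := H.n10; rwa [ho] at this
  have n11 : z.c.next (ι (s0, 5)) = k' := by have := H.n11; rwa [ho] at this
  have n12 : z.c.next k' = q := H.n12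
  have inj := H.inj
  have fr := H.fresh
  have hne : ∀ s i i', s ≠ s0 → ((s, i) : S × Fin 6) ≠ (s0, i') := by
    intro s i i' h h'
    exact h (congrArg Prod.fst h')
  have hne' : ∀ s i i', i ≠ i' → ((s, i) : S × Fin 6) ≠ (s0, i') := by
    intro s i i' h h'
    exact h (congrArg Prod.snd h')
  have hιne : ∀ s i i', i ≠ i' → ι (s, i) ≠ ι (s0, i') := fun s i i' h h' =>
    hne' s i i' h (inj h')
  have zrest : ∀ s i, s ≠ s0 → z.c.next (ι (s, i)) = ι (rNext (s, i)) := by
    intro s i hs
    refine H.rest (s, i) (hne _ _ _ hs) (hne _ _ _ hs) (hne _ _ _ hs) ?_ ?_ ?_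
    · rw [ho]; exact hne _ _ _ hs
    · rw [ho]; exact hne _ _ _ hs
    · rw [ho]; exact hne _ _ _ hs
  have o1 : z.c.opp (ι (s0, 0)) = q := H.o1
  have o2 : z.c.opp p = ι (s0, 4) := by have := H.o2; rwa [ho] at this
  have o3 : z.c.opp m = m' := H.o3
  have o4 : z.c.opp k = k' := H.o4
  have o1' : z.c.opp q = ι (s0, 0) := by rw [← o1, z.c.opp2]
  have o2' : z.c.opp (ι (s0, 4)) = p := by rw [← o2, z.c.opp2]
  have o3' : z.c.opp m' = m := by rw [← o3, z.c.opp2]
  have o4' : z.c.opp k' = k := by rw [← o4, z.c.opp2]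
  have orest : ∀ s i, ((s, i) : S × Fin 6) ≠ (s0, 0) → ((s, i) : S × Fin 6) ≠ (s0, 4) →
      z.c.opp (ι (s, i)) = ι (rOpp x.h x.v (s, i)) := by
    intro s i h1 h2
    exact H.orest (s, i) h1 (by rw [ho]; exact h2)
  have e1 : z.c.next (ι (s0, 3)) = ι (s0, 4) := n9
  have e2 : z.c.next (z.c.next (ι (s0, 3))) = k := by rw [n9, n7]
  have e3 : z.c.opp (ι (s0, 3)) = ι (s0, 2) := by
    rw [orest s0 3 (hne' _ _ _ (by decide)) (hne' _ _ _ (by decide))]
    rfl
  have e4 : z.c.next (z.c.opp (ι (s0, 3))) = ι (s0, 0) := by rw [e3, n3]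
  have e5 : z.c.next (z.c.next (z.c.opp (ι (s0, 3)))) = m := by rw [e4, n1]
  have vd : z.v (ι (s0, 0)) = (θ : ℂ) * (x.ℓ s0 : ℂ) := H.vec_d
  have vrest : ∀ s i, ((s, i) : S × Fin 6) ≠ (s0, 0) → ((s, i) : S × Fin 6) ≠ (s0, 4) →
      z.v (ι (s, i)) = rVec x.h x.v x.ℓ x.c (s, i) := by
    intro s i h1 h2
    exact H.vec (s, i) h1 (by rw [ho]; exact h2)
  -- the vectors
  have hlc : (θ : ℂ) * (x.ℓ s0 : ℂ) = (y.ℓ (some s0) : ℂ) := by exact_mod_cast hθl
  have hlc' : (1 - (θ : ℂ)) * (x.ℓ s0 : ℂ) = (y.ℓ none : ℂ) := by exact_mod_cast hθl'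
  have hsum : (y.ℓ (some s0) : ℂ) + (y.ℓ none : ℂ) = (x.ℓ s0 : ℂ) := by exact_mod_cast hℓ2
  have w0 : z.v (ι (s0, 0)) = (y.ℓ (some s0) : ℂ) := by rw [vd, hlc]
  have wp : z.v p = (y.ℓ none : ℂ) := by
    rw [vp]
    change ((1 - θ : ℝ) : ℂ) * (x.ℓ s0 : ℂ) = _
    push_cast
    exact hlc'
  have wq : z.v q = -(y.ℓ (some s0) : ℂ) := by
    rw [vq]
    change -((θ : ℂ) * (x.ℓ s0 : ℂ)) = _
    rw [hlc]
  have w4 : z.v (ι (s0, 4)) = -(y.ℓ none : ℂ) := by
    rw [v4]
    change -(((1 - θ : ℝ) : ℂ) * (x.ℓ s0 : ℂ)) = _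
    push_cast
    rw [hlc']
  have wm : z.v m = (x.c s0 : ℂ) + (y.ℓ none : ℂ) + I := by
    rw [vm]
    change -((θ : ℂ) * (x.ℓ s0 : ℂ)) - -((x.c s0 : ℂ) + (x.ℓ (x.v s0) : ℂ) + I) = _
    rw [hlc, hv0]
    linear_combination -hsum
  have wm' : z.v m' = -((x.c s0 : ℂ) + (y.ℓ none : ℂ) + I) := by
    rw [vm']
    change ((θ : ℂ) * (x.ℓ s0 : ℂ)) + -((x.c s0 : ℂ) + (x.ℓ (x.v s0) : ℂ) + I) = _
    rw [hlc, hv0]
    linear_combination hsum
  have wk : z.v k = -((x.c s0 : ℂ) + (y.ℓ (some s0) : ℂ) + I) := by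
    rw [vk]
    change ((1 - θ : ℝ) : ℂ) * (x.ℓ s0 : ℂ) - ((x.c s0 : ℂ) + (x.ℓ (x.v s0) : ℂ) + I) = _
    push_cast
    rw [hlc', hv0]
    linear_combination hsum
  have wk' : z.v k' = (x.c s0 : ℂ) + (y.ℓ (some s0) : ℂ) + I := by
    rw [vk']
    change ((x.c s0 : ℂ) + (x.ℓ (x.v s0) : ℂ) + I) - ((1 - θ : ℝ) : ℂ) * (x.ℓ s0 : ℂ) = _
    push_cast
    rw [hlc', hv0]
    linear_combination -hsum
  -- the flip
  obtain ⟨c', v', ok', F, hv'⟩ := flip_exists z.c z.v z.ok (ι (s0, 3))
    (by
      rw [e2, e4, wk, w0]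
      simp [cross]
      exact hl1)
    (by
      rw [e5, e1, wm, w4]
      simp [cross]
      exact hl2)
  have hzf : Conn z ⟨z.D, z.fin, z.ne, c', v', ok'⟩ := Conn.flip F
  -- next after the flip
  have f1 : c'.next (ι (s0, 0)) = ι (s0, 3) := by have := F.n1; rwa [e4] at this
  have f2 : c'.next (ι (s0, 3)) = k := by have := F.n2; rwa [e2] at this
  have f3 : c'.next k = ι (s0, 0) := by have := F.n3; rwa [e2, e4] at this
  have f4 : c'.next (ι (s0, 4)) = ι (s0, 2) := by have := F.n4; rwa [e1, e3] at this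
  have f5 : c'.next (ι (s0, 2)) = m := by have := F.n5; rwa [e3, n3, n1] at this
  have f6 : c'.next m = ι (s0, 4) := by have := F.n6; rwa [e5, e1] at this
  have frest : ∀ a, a ≠ ι (s0, 3) → a ≠ ι (s0, 4) → a ≠ k → a ≠ ι (s0, 2) → a ≠ ι (s0, 0) →
      a ≠ m → c'.next a = z.c.next a := by
    intro a h1 h2 h3 h4 h5 h6
    refine F.rest a h1 ?_ ?_ ?_ ?_ ?_
    · rw [e1]; exact h2
    · rw [e2]; exact h3
    · rw [e3]; exact h4
    · rw [e4]; exact h5
    · rw [e5]; exact h6
  have dd := H.distinct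
  simp only [List.nodup_cons, List.mem_cons, List.not_mem_nil, or_false, not_or,
    List.nodup_nil, and_true, not_false_eq_true] at dd
  obtain ⟨⟨dpq, dpm, dpm', dpk, dpk'⟩, ⟨dqm, dqm', dqk, dqk'⟩, ⟨dmm', dmk, dmk'⟩,
    ⟨dm'k, dm'k'⟩, dkk'⟩ := dd
  have g1 : c'.next p = ι (s0, 1) := by
    rw [frest p (fr _).1.symm (fr _).1.symm dpk (fr _).1.symm (fr _).1.symm dpm, n4]
  have g2 : c'.next (ι (s0, 1)) = m' := by
    rw [frest _ (hιne _ _ _ (by decide)) (hιne _ _ _ (by decide)) (fr _).2.2.2.2.1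
      (hιne _ _ _ (by decide)) (hιne _ _ _ (by decide)) (fr _).2.2.1, n5]
  have g3 : c'.next m' = p := by
    rw [frest m' (fr _).2.2.2.1.symm (fr _).2.2.2.1.symm dm'k (fr _).2.2.2.1.symm
      (fr _).2.2.2.1.symm (Ne.symm dmm'), n6]
  have g4 : c'.next q = ι (s0, 5) := by
    rw [frest q (fr _).2.1.symm (fr _).2.1.symm dqk (fr _).2.1.symm
      (fr _).2.1.symm dqm, n10]
  have g5 : c'.next (ι (s0, 5)) = k' := by
    rw [frest _ (hιne _ _ _ (by decide)) (hιne _ _ _ (by decide)) (fr _).2.2.2.2.1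
      (hιne _ _ _ (by decide)) (hιne _ _ _ (by decide)) (fr _).2.2.1, n11]
  have g6 : c'.next k' = q := by
    rw [frest k' (fr _).2.2.2.2.2.symm (fr _).2.2.2.2.2.symm (Ne.symm dkk')
      (fr _).2.2.2.2.2.symm (fr _).2.2.2.2.2.symm (Ne.symm dmk'), n12]
  have g7 : ∀ s i, s ≠ s0 → c'.next (ι (s, i)) = ι (rNext (s, i)) := by
    intro s i hs
    rw [frest _ (fun h => hs (congrArg Prod.fst (inj h))) (fun h => hs (congrArg Prod.fst (inj h)))
      (fr _).2.2.2.2.1 (fun h => hs (congrArg Prod.fst (inj h)))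
      (fun h => hs (congrArg Prod.fst (inj h))) (fr _).2.2.1]
    exact zrest s i hs
  -- vectors after the flip
  have vF : ∀ a, a ≠ ι (s0, 3) → a ≠ ι (s0, 2) → v' a = z.v a := by
    intro a h1 h2
    exact F.vec a h1 (by rw [e3]; exact h2)
  have vFι : ∀ s i, ((s, i) : S × Fin 6) ≠ (s0, 3) → ((s, i) : S × Fin 6) ≠ (s0, 2) →
      v' (ι (s, i)) = z.v (ι (s, i)) := by
    intro s i h1 h2
    exact vF _ (fun h => h1 (inj h)) (fun h => h2 (inj h))
  have v3 : v' (ι (s0, 3)) = (x.c s0 : ℂ) + I := by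
    rw [hv', e2, e4, wk, w0]; ring
  have v2 : v' (ι (s0, 2)) = -((x.c s0 : ℂ) + I) := by
    have h1 := ok'.opp_neg (ι (s0, 3))
    rw [F.opp_eq, e3, v3] at h1
    exact h1
  -- the renaming
  have := z.fin
  have hbij := splE_bij s0 ι p q m m' k k' inj H.cover fr H.distinct
  have hyv0 : y.v.symm none = none := by rw [Equiv.symm_apply_eq]; exact hv2.symm
  have hyv1 : ∀ s, y.v.symm (some s) = some (x.v.symm s) := by
    intro s
    rw [Equiv.symm_apply_eq, hv1, Equiv.apply_symm_apply]
  have hyh0 : y.h.symm none = some s0 := by rw [Equiv.symm_apply_eq]; exact hh2.symm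
  have hyh1 : y.h.symm (some (x.h s0)) = none := by rw [Equiv.symm_apply_eq]; exact hh3.symm
  have hyh2 : ∀ s, x.h.symm s ≠ s0 → y.h.symm (some s) = some (x.h.symm s) := by
    intro s hs
    rw [Equiv.symm_apply_eq, hh1 _ hs, Equiv.apply_symm_apply]
  have hyf : Conn y.ps ⟨z.D, z.fin, z.ne, c', v', ok'⟩ := by
    refine Conn.iso ⟨Equiv.ofBijective _ hbij, ?_, ?_, ?_⟩
    · rintro ⟨_ | s, i⟩
      · fin_cases i
        · exact g1
        · exact g2
        · exact g3
        · exact f6
        · exact f4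
        · exact f5
      · by_cases hs : s = s0
        · subst hs
          fin_cases i
          · change c'.next (ι (s, 0)) = if s = s then ι (s, 3) else ι (s, 1)
            rw [if_pos rfl, f1]
          · change c'.next (if s = s then ι (s, 3) else ι (s, 1)) =
              if s = s then k else ι (s, 2)
            rw [if_pos rfl, if_pos rfl, f2]
          · change c'.next (if s = s then k else ι (s, 2)) = ι (s, 0)
            rw [if_pos rfl, f3]
          · change c'.next (if s = s then k' else ι (s, 3)) =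
              if s = s then q else ι (s, 4)
            rw [if_pos rfl, if_pos rfl, g6]
          · change c'.next (if s = s then q else ι (s, 4)) = ι (s, 5)
            rw [if_pos rfl, g4]
          · change c'.next (ι (s, 5)) = if s = s then k' else ι (s, 3)
            rw [if_pos rfl, g5]
        · fin_cases i
          · change c'.next (ι (s, 0)) = if s = s0 then ι (s0, 3) else ι (s, 1)
            rw [if_neg hs, g7 s 0 hs]; rfl
          · change c'.next (if s = s0 then ι (s0, 3) else ι (s, 1)) =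
              if s = s0 then k else ι (s, 2)
            rw [if_neg hs, if_neg hs, g7 s 1 hs]; rfl
          · change c'.next (if s = s0 then k else ι (s, 2)) = ι (s, 0)
            rw [if_neg hs, g7 s 2 hs]; rfl
          · change c'.next (if s = s0 then k' else ι (s, 3)) =
              if s = s0 then q else ι (s, 4)
            rw [if_neg hs, if_neg hs, g7 s 3 hs]; rfl
          · change c'.next (if s = s0 then q else ι (s, 4)) = ι (s, 5)
            rw [if_neg hs, g7 s 4 hs]; rfl
          · change c'.next (ι (s, 5)) = if s = s0 then k' else ι (s, 3)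
            rw [if_neg hs, g7 s 5 hs]; rfl
    · rintro ⟨_ | s, i⟩
      · fin_cases i
        · change c'.opp p = splE s0 ι p q m m' k k' (y.v.symm none, 4)
          rw [hyv0, F.opp_eq, o2]; rfl
        · change c'.opp (ι (s0, 1)) = splE s0 ι p q m m' k k' (y.h none, 5)
          rw [hh3, F.opp_eq, orest s0 1 (hne' _ _ _ (by decide)) (hne' _ _ _ (by decide))]; rfl
        · change c'.opp m' = m
          rw [F.opp_eq, o3']
        · change c'.opp m = m'
          rw [F.opp_eq, o3]
        · change c'.opp (ι (s0, 4)) = splE s0 ι p q m m' k k' (y.v none, 0)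
          rw [hv2, F.opp_eq, o2']; rfl
        · change c'.opp (ι (s0, 2)) = splE s0 ι p q m m' k k' (y.h.symm none, 1)
          rw [hyh0, F.opp_eq, orest s0 2 (hne' _ _ _ (by decide)) (hne' _ _ _ (by decide))]
          change ι (s0, 3) = if s0 = s0 then ι (s0, 3) else ι (s0, 1)
          rw [if_pos rfl]
      · have h5 : c'.opp (ι (s, 5)) = splE s0 ι p q m m' k k' (y.h.symm (some s), 1) := by
          rw [F.opp_eq, orest s 5 (hne' _ _ _ (by decide)) (hne' _ _ _ (by decide))]
          change ι (x.h.symm s, 1) = _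
          by_cases h : x.h.symm s = s0
          · rw [h]
            have : s = x.h s0 := by rw [← h, Equiv.apply_symm_apply]
            rw [this, hyh1]; rfl
          · rw [hyh2 s h]
            change _ = if x.h.symm s = s0 then ι (s0, 3) else ι (x.h.symm s, 1)
            rw [if_neg h]
        by_cases hs : s = s0
        · subst hs
          fin_cases i
          · change c'.opp (ι (s, 0)) = splE s ι p q m m' k k' (y.v.symm (some s), 4)
            rw [hyv1, hvs, F.opp_eq, o1]
            change q = if s = s then q else ι (s, 4)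
            rw [if_pos rfl]
          · change c'.opp (if s = s then ι (s, 3) else ι (s, 1)) =
              splE s ι p q m m' k k' (y.h (some s), 5)
            rw [if_pos rfl, hh2, F.opp_eq, e3]; rfl
          · change c'.opp (if s = s then k else ι (s, 2)) = if s = s then k' else ι (s, 3)
            rw [if_pos rfl, if_pos rfl, F.opp_eq, o4]
          · change c'.opp (if s = s then k' else ι (s, 3)) = if s = s then k else ι (s, 2)
            rw [if_pos rfl, if_pos rfl, F.opp_eq, o4']
          · change c'.opp (if s = s then q else ι (s, 4)) =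
              splE s ι p q m m' k k' (y.v (some s), 0)
            rw [if_pos rfl, hv1, hv0, F.opp_eq, o1']; rfl
          · exact h5
        · have hvss : x.v.symm s ≠ s0 := by
            intro h
            rw [Equiv.symm_apply_eq, hv0] at h
            exact hs h
          fin_cases i
          · change c'.opp (ι (s, 0)) = splE s0 ι p q m m' k k' (y.v.symm (some s), 4)
            rw [hyv1, F.opp_eq, orest s 0 (hne _ _ _ hs) (hne _ _ _ hs)]
            change ι (x.v.symm s, 4) = if x.v.symm s = s0 then q else ι (x.v.symm s, 4)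
            rw [if_neg hvss]
          · change c'.opp (if s = s0 then ι (s0, 3) else ι (s, 1)) =
              splE s0 ι p q m m' k k' (y.h (some s), 5)
            rw [if_neg hs, hh1 s hs, F.opp_eq, orest s 1 (hne _ _ _ hs) (hne _ _ _ hs)]; rfl
          · change c'.opp (if s = s0 then k else ι (s, 2)) = if s = s0 then k' else ι (s, 3)
            rw [if_neg hs, if_neg hs, F.opp_eq, orest s 2 (hne _ _ _ hs) (hne _ _ _ hs)]; rfl
          · change c'.opp (if s = s0 then k' else ι (s, 3)) = if s = s0 then k else ι (s, 2)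
            rw [if_neg hs, if_neg hs, F.opp_eq, orest s 3 (hne _ _ _ hs) (hne _ _ _ hs)]; rfl
          · change c'.opp (if s = s0 then q else ι (s, 4)) =
              splE s0 ι p q m m' k k' (y.v (some s), 0)
            rw [if_neg hs, hv1, F.opp_eq, orest s 4 (hne _ _ _ hs) (hne _ _ _ hs)]; rfl
          · exact h5
    · rintro ⟨_ | s, i⟩
      · fin_cases i
        · change v' p = (y.ℓ none : ℂ)
          rw [vF p (fr _).1.symm (fr _).1.symm, wp]
        · change v' (ι (s0, 1)) = (y.c (y.h none) : ℂ) + I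
          rw [vFι s0 1 (hne' _ _ _ (by decide)) (hne' _ _ _ (by decide)),
            vrest s0 1 (hne' _ _ _ (by decide)) (hne' _ _ _ (by decide)), hh3, hc1]
          rfl
        · change v' m' = -((y.c none : ℂ) + (y.ℓ (y.v none) : ℂ) + I)
          rw [vF m' (fr _).2.2.2.1.symm (fr _).2.2.2.1.symm, wm', hc2, hv2]
        · change v' m = ((y.c none : ℂ) + (y.ℓ (y.v none) : ℂ) + I)
          rw [vF m (fr _).2.2.1.symm (fr _).2.2.1.symm, wm, hc2, hv2]
        · change v' (ι (s0, 4)) = -(y.ℓ (y.v none) : ℂ)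
          rw [vFι s0 4 (hne' _ _ _ (by decide)) (hne' _ _ _ (by decide)), w4, hv2]
        · change v' (ι (s0, 2)) = -((y.c none : ℂ) + I)
          rw [v2, hc2]
      · by_cases hs : s = s0
        · subst hs
          fin_cases i
          · change v' (ι (s, 0)) = (y.ℓ (some s) : ℂ)
            rw [vFι s 0 (hne' _ _ _ (by decide)) (hne' _ _ _ (by decide)), w0]
          · change v' (if s = s then ι (s, 3) else ι (s, 1)) = (y.c (y.h (some s)) : ℂ) + I
            rw [if_pos rfl, v3, hh2, hc2]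
          · change v' (if s = s then k else ι (s, 2)) =
              -((y.c (some s) : ℂ) + (y.ℓ (y.v (some s)) : ℂ) + I)
            rw [if_pos rfl, vF k (fr _).2.2.2.2.1.symm (fr _).2.2.2.2.1.symm, wk, hc1, hv1, hv0]
          · change v' (if s = s then k' else ι (s, 3)) =
              ((y.c (some s) : ℂ) + (y.ℓ (y.v (some s)) : ℂ) + I)
            rw [if_pos rfl, vF k' (fr _).2.2.2.2.2.symm (fr _).2.2.2.2.2.symm, wk', hc1, hv1, hv0]
          · change v' (if s = s then q else ι (s, 4)) = -(y.ℓ (y.v (some s)) : ℂ)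
            rw [if_pos rfl, vF q (fr _).2.1.symm (fr _).2.1.symm, wq, hv1, hv0]
          · change v' (ι (s, 5)) = -((y.c (some s) : ℂ) + I)
            rw [vFι s 5 (hne' _ _ _ (by decide)) (hne' _ _ _ (by decide)),
              vrest s 5 (hne' _ _ _ (by decide)) (hne' _ _ _ (by decide)), hc1]
            rfl
        · have hvss : x.v s ≠ s0 := by
            intro h
            rw [← hv0] at h
            exact hs (x.v.injective h)
          have gen : ∀ i, v' (ι (s, i)) = rVec x.h x.v x.ℓ x.c (s, i) := by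
            intro i
            rw [vFι s i (hne _ _ _ hs) (hne _ _ _ hs), vrest s i (hne _ _ _ hs) (hne _ _ _ hs)]
          fin_cases i
          · change v' (ι (s, 0)) = (y.ℓ (some s) : ℂ)
            rw [gen, hℓ1 s hs]; rfl
          · change v' (if s = s0 then ι (s0, 3) else ι (s, 1)) = (y.c (y.h (some s)) : ℂ) + I
            rw [if_neg hs, gen, hh1 s hs, hc1]; rfl
          · change v' (if s = s0 then k else ι (s, 2)) =
              -((y.c (some s) : ℂ) + (y.ℓ (y.v (some s)) : ℂ) + I)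
            rw [if_neg hs, gen, hc1, hv1, hℓ1 _ hvss]; rfl
          · change v' (if s = s0 then k' else ι (s, 3)) =
              ((y.c (some s) : ℂ) + (y.ℓ (y.v (some s)) : ℂ) + I)
            rw [if_neg hs, gen, hc1, hv1, hℓ1 _ hvss]; rfl
          · change v' (if s = s0 then q else ι (s, 4)) = -(y.ℓ (y.v (some s)) : ℂ)
            rw [if_neg hs, gen, hv1, hℓ1 _ hvss]; rfl
          · change v' (ι (s, 5)) = -((y.c (some s) : ℂ) + I)
            rw [gen, hc1]; rfl
  exact (hxz.trans hzf).trans hyf.symm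

end Pool.Agent.TP
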