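import Pool.Agent.Lib_helper53.TP.WDefs
import Pool.Agent.Lib_helper53.TP.B.RTW
import Pool.Agent.Lib_helper53.TP.B.SPL

/-! Block EXP (helper58): the bottom side of the square `s` is replaced by `lam s` sides. -/

namespace Pool.Agent.TP

open Set Complex Finset

/-- one cycle implies transitivity -/
theorem exp_tr {S : Type} {h v : Equiv.Perm S} (cyc : ∀ x y : S, ∃ k : ℕ, (h ^ k) x = y) :
    Tr h v := by
  intro T hT h1 _
  obtain ⟨x, hx⟩ := hT
  have key : ∀ k : ℕ, (h ^ k) x ∈ T := by
    intro k
    induction k with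
    | zero => simpa using hx
    | succ k ih =>
      rw [pow_succ', Equiv.Perm.mul_apply]
      exact h1 _ ih
  ext y
  simp only [Set.mem_univ, iff_true]
  obtain ⟨k, hk⟩ := cyc x y
  rw [← hk]
  exact key k

/-- a function with sum zero is a coboundary -/
theorem exp_cob {S : Type} [Fintype S] {h : Equiv.Perm S}
    (cyc : ∀ x y : S, ∃ k : ℕ, (h ^ k) x = y) (g : S → ℝ) (hg : ∑ s, g s = 0) :
    ∃ c : S → ℝ, ∀ s, c (h s) - c s = g s := by
  classical
  set N := orderOf h with hN
  have hNpos : 0 < N := orderOf_pos h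
  have hNr : (N : ℝ) ≠ 0 := by exact_mod_cast hNpos.ne'
  have hpow : h ^ N = 1 := pow_orderOf_eq_one h
  set A : S → ℝ := fun x => ∑ k ∈ range N, g ((h ^ k) x) with hA
  have hA1 : ∀ x, A (h x) = A x := by
    intro x
    have e1 : A (h x) = ∑ k ∈ range N, g ((h ^ (k + 1)) x) := by
      simp only [hA]
      refine Finset.sum_congr rfl fun k _ => ?_
      rw [pow_succ, Equiv.Perm.mul_apply]
    have e2 := Finset.sum_range_succ' (fun k => g ((h ^ k) x)) N
    have e3 := Finset.sum_range_succ (fun k => g ((h ^ k) x)) N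
    rw [e1]
    simp only [hpow, pow_zero, Equiv.Perm.coe_one, id_eq] at e2 e3
    simp only [hA]
    linarith
  have hA2 : ∀ x y, A x = A y := by
    intro x y
    obtain ⟨k, hk⟩ := cyc x y
    have key : ∀ k : ℕ, A ((h ^ k) x) = A x := by
      intro k
      induction k with
      | zero => simp
      | succ k ih => rw [pow_succ', Equiv.Perm.mul_apply, hA1, ih]
    rw [← hk, key]
  have hA3 : ∑ x, A x = 0 := by
    simp only [hA]
    rw [Finset.sum_comm]
    refine Finset.sum_eq_zero fun k _ => ?_
    rw [← hg]
    exact Equiv.sum_comp (h ^ k) g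
  have hA0 : ∀ x, A x = 0 := by
    intro x
    have : ∑ y, A y = Fintype.card S * A x := by
      rw [Finset.sum_congr rfl (fun y _ => hA2 y x)]
      simp
    rw [hA3] at this
    have hc : (Fintype.card S : ℝ) ≠ 0 := by
      have : 0 < Fintype.card S := Fintype.card_pos_iff.2 ⟨x⟩
      exact_mod_cast this.ne'
    rcases mul_eq_zero.1 this.symm with h1 | h1
    · exact absurd h1 hc
    · exact h1
  refine ⟨fun x => -(∑ k ∈ range N, ∑ i ∈ range k, g ((h ^ i) x)) / N, fun s => ?_⟩
  have e1 : ∀ k : ℕ, ∑ i ∈ range k, g ((h ^ i) (h s)) - ∑ i ∈ range k, g ((h ^ i) s) =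
      g ((h ^ k) s) - g s := by
    intro k
    induction k with
    | zero => simp
    | succ k ih =>
      rw [Finset.sum_range_succ, Finset.sum_range_succ]
      have : (h ^ k) (h s) = (h ^ (k + 1)) s := by
        rw [pow_succ, Equiv.Perm.mul_apply]
      rw [this]
      linarith
  have e2 : ∑ k ∈ range N, ∑ i ∈ range k, g ((h ^ i) (h s)) -
      ∑ k ∈ range N, ∑ i ∈ range k, g ((h ^ i) s) = A s - N * g s := by
    rw [← Finset.sum_sub_distrib, Finset.sum_congr rfl (fun k _ => e1 k),
      Finset.sum_sub_distrib]
    simp [hA]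
  rw [hA0] at e2
  field_simp
  linarith

/-- twisting the row `k` times -/
theorem exp_twist {S : Type} [Finite S] [Nonempty S] (x : Rows S)
    (cyc : ∀ a b : S, ∃ k : ℕ, (x.h ^ k) a = b) (k : ℕ) :
    ∃ y : Rows S, y.h = x.h ∧ y.v = x.v * x.h ^ k ∧ y.ℓ = x.ℓ ∧ Conn x.ps y.ps := by
  induction k with
  | zero => exact ⟨x, rfl, by simp, rfl, Conn.refl _⟩
  | succ k ih =>
    obtain ⟨y, hy1, hy2, hy3, hy4⟩ := ih
    have cyc' : ∀ a b : S, ∃ k : ℕ, (y.h ^ k) a = b := by rw [hy1]; exact cyc
    refine ⟨⟨y.h, y.v * y.h, exp_tr cyc', y.ℓ, fun s => y.c s + y.ℓ (y.v s), y.pos, ?_⟩,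
      hy1, ?_, hy3, hy4.trans ?_⟩
    · intro s
      have := y.con s
      simp only [Equiv.Perm.mul_apply]
      linarith
    · show y.v * y.h = x.v * x.h ^ (k + 1)
      rw [hy2, hy1, pow_succ, mul_assoc]
    · refine row_twist y _ univ (fun s => by simp) rfl (fun s _ => rfl) (fun s hs => ?_) rfl
        (fun s _ => rfl) (fun s hs => ?_)
      · exact absurd (Set.mem_univ s) hs
      · exact absurd (Set.mem_univ s) hs

/-- the permutation of the row after splitting -/
noncomputable def expH {S : Type} (h : Equiv.Perm S) (s0 : S) : Equiv.Perm (Option S) := by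
  classical
  exact Equiv.optionCongr h * Equiv.swap none (some s0)

theorem expH_none {S : Type} (h : Equiv.Perm S) (s0 : S) : expH h s0 none = some (h s0) := by
  simp [expH]

theorem expH_s0 {S : Type} (h : Equiv.Perm S) (s0 : S) : expH h s0 (some s0) = none := by
  simp [expH]

theorem expH_some {S : Type} (h : Equiv.Perm S) (s0 : S) {s : S} (hs : s ≠ s0) :
    expH h s0 (some s) = some (h s) := by
  classical
  simp only [expH, Equiv.Perm.mul_apply]
  rw [Equiv.swap_apply_of_ne_of_ne (by simp) (by simpa using hs)]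
  simp

theorem expH_cyc {S : Type} {h : Equiv.Perm S} (s0 : S)
    (cyc : ∀ a b : S, ∃ k : ℕ, (h ^ k) a = b) :
    ∀ a b : Option S, ∃ k : ℕ, (expH h s0 ^ k) a = b := by
  have trans : ∀ a b c : Option S, (∃ k : ℕ, (expH h s0 ^ k) a = b) →
      (∃ k : ℕ, (expH h s0 ^ k) b = c) → ∃ k : ℕ, (expH h s0 ^ k) a = c := by
    rintro a b c ⟨k, hk⟩ ⟨l, hl⟩
    refine ⟨l + k, ?_⟩
    rw [pow_add, Equiv.Perm.mul_apply, hk, hl]
  have step : ∀ a : Option S, ∃ k : ℕ, (expH h s0 ^ k) a = expH h s0 a := fun a => ⟨1, by simp⟩
  have s1 : ∀ s : S, ∃ k : ℕ, (expH h s0 ^ k) (some s) = some (h s) := by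
    intro s
    by_cases hs : s = s0
    · subst hs
      refine trans _ none _ ?_ ?_
      · have := step (some s); rwa [expH_s0] at this
      · have := step none; rwa [expH_none] at this
    · have := step (some s); rwa [expH_some h s0 hs] at this
  have s2 : ∀ (k : ℕ) (s : S), ∃ l : ℕ, (expH h s0 ^ l) (some s) = some ((h ^ k) s) := by
    intro k s
    induction k with
    | zero => exact ⟨0, by simp⟩
    | succ k ih =>
      rw [pow_succ', Equiv.Perm.mul_apply]
      exact trans _ _ _ ih (s1 _)
  have s3 : ∀ a b : S, ∃ k : ℕ, (expH h s0 ^ k) (some a) = some b := by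
    intro a b
    obtain ⟨k, hk⟩ := cyc a b
    rw [← hk]
    exact s2 k a
  have s4 : ∀ a : S, ∃ k : ℕ, (expH h s0 ^ k) (some a) = none := by
    intro a
    refine trans _ _ _ (s3 a s0) ?_
    have := step (some s0); rwa [expH_s0] at this
  have s5 : ∀ b : S, ∃ k : ℕ, (expH h s0 ^ k) none = some b := by
    intro b
    refine trans _ _ _ ?_ (s3 (h s0) b)
    have := step none; rwa [expH_none] at this
  intro a b
  rcases a with _ | a <;> rcases b with _ | b
  · exact ⟨0, by simp⟩
  · exact s5 b
  · exact s4 a
  · exact s3 a b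

/-- splitting -/
theorem exp_split {S : Type} [Finite S] [Nonempty S] (x : Rows S)
    (cyc : ∀ a b : S, ∃ k : ℕ, (x.h ^ k) a = b) (s0 : S) (hv : x.v s0 = s0) (a : ℝ)
    (ha : 0 < a) (ha' : a < x.ℓ s0) :
    ∃ y : Rows (Option S), y.h = expH x.h s0 ∧ y.v = Equiv.optionCongr x.v ∧
      (∀ s, s ≠ s0 → y.ℓ (some s) = x.ℓ s) ∧ y.ℓ (some s0) = a ∧ y.ℓ none = x.ℓ s0 - a ∧
      Conn x.ps y.ps := by
  classical
  refine ⟨⟨expH x.h s0, Equiv.optionCongr x.v, exp_tr (expH_cyc s0 cyc),
    fun o => o.elim (x.ℓ s0 - a) (fun s => if s = s0 then a else x.ℓ s),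
    fun o => o.elim (x.c s0) x.c, ?_, ?_⟩, rfl, rfl, ?_, ?_, ?_, ?_⟩
  · rintro (_ | s)
    · simp only [Option.elim_none]; linarith
    · simp only [Option.elim_some]
      split_ifs
      · exact ha
      · exact x.pos s
  · rintro (_ | s)
    · have := x.con s0
      rw [hv] at this
      simp only [expH_none, Option.elim_none, Option.elim_some, Equiv.optionCongr_apply,
        Option.map_none]
      linarith
    · by_cases hs : s = s0
      · subst hs
        simp only [expH_s0, Option.elim_none, Option.elim_some, Equiv.optionCongr_apply,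
          Option.map_some, hv]
        simp
        ring
      · have hv' : x.v s ≠ s0 := fun h => hs (x.v.injective (h.trans hv.symm))
        have := x.con s
        simp only [expH_some x.h s0 hs, Option.elim_some, Equiv.optionCongr_apply,
          Option.map_some, if_neg hs, if_neg hv']
        exact this
  · intro s hs
    simp [hs]
  · simp
  · simp
  · refine row_split x _ s0 hv (fun s hs => expH_some _ _ hs) (expH_s0 _ _) (expH_none _ _)
      (fun s => by simp) (by simp) (fun s hs => by simp [hs]) (by simp) (fun s => by simp)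
      (by simp)

/-- the induction -/
theorem exp_ind {S0 : Type} (z : PS) (lam : S0 → ℕ) : ∀ (m : ℕ) (S : Type) [Fintype S]
    [Nonempty S] (x : Rows S) (n : S → ℕ) (lab : S → S0),
    (∀ a b : S, ∃ k : ℕ, (x.h ^ k) a = b) → (∀ s, x.ℓ s = n s) →
    (∀ i, (∑ s, open Classical in if lab s = i then n s else 0) = lam i) →
    (∀ a b, lab a = lab b → lab (x.h.symm a) ≠ lab a → lab (x.h.symm b) ≠ lab b → a = b) →
    (∀ a, lab (x.h a) = lab a → x.v.symm (x.h a) = x.h (x.v.symm a)) →
    ∑ s, (n s - 1) = m → Conn z x.ps →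
    ∃ (S' : Type) (_ : Finite S') (_ : Nonempty S') (h' v' : Equiv.Perm S') (tr' : Tr h' v')
      (lab : S' → S0), (∀ x y : S', ∃ k : ℕ, (h' ^ k) x = y) ∧
      (∀ s, Nat.card {x // lab x = s} = lam s) ∧
      (∀ x y, lab x = lab y → lab (h'.symm x) ≠ lab x → lab (h'.symm y) ≠ lab y → x = y) ∧
      (∀ x, lab (h' x) = lab x → v'.symm (h' x) = h' (v'.symm x)) ∧
      Conn z (ori h' v' tr') := by
  classical
  intro m
  induction m using Nat.strong_induction_on with
  | _ m ih =>
    intro S _ _ x n lab cyc hn hsum hfirst hcomm hm hconn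
    have hn1 : ∀ s, 1 ≤ n s := by
      intro s
      have h1 := x.pos s
      rw [hn s] at h1
      exact_mod_cast h1
    by_cases hall : ∀ s, n s = 1
    · refine ⟨S, inferInstance, inferInstance, x.h, x.v, x.tr, lab, cyc, ?_, hfirst, hcomm, ?_⟩
      · intro i
        rw [← hsum i, Nat.card_eq_fintype_card, Fintype.card_subtype, Finset.card_filter]
        refine Finset.sum_congr rfl fun s _ => ?_
        rw [hall s]
      · exact (hconn.trans (Rows.conn_line x (unitRows x.h x.v x.tr) rfl rfl)).trans
          (conn_unitRows x.h x.v x.tr)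
    · push Not at hall
      obtain ⟨s0, hs0⟩ := hall
      have hs2 : 2 ≤ n s0 := by have := hn1 s0; omega
      -- twist
      obtain ⟨k, hk⟩ := cyc s0 (x.v.symm s0)
      obtain ⟨y, hy1, hy2, hy3, hy4⟩ := exp_twist x cyc k
      have hvy : y.v s0 = s0 := by
        rw [hy2, Equiv.Perm.mul_apply, hk, Equiv.apply_symm_apply]
      have cycy : ∀ a b : S, ∃ k : ℕ, (y.h ^ k) a = b := by rw [hy1]; exact cyc
      have hcommy : ∀ a, lab (y.h a) = lab a → y.v.symm (y.h a) = y.h (y.v.symm a) := by
        intro a ha
        rw [hy1] at ha ⊢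
        have h1 := hcomm a ha
        have h2 : ∀ b, y.v.symm b = (x.h ^ k).symm (x.v.symm b) := by
          intro b
          rw [Equiv.symm_apply_eq, hy2, Equiv.Perm.mul_apply, Equiv.apply_symm_apply,
            Equiv.apply_symm_apply]
        rw [h2, h2, h1, Equiv.symm_apply_eq]
        have h3 : ∀ b, (x.h ^ k) (x.h b) = x.h ((x.h ^ k) b) := by
          intro b
          rw [← Equiv.Perm.mul_apply, ← Equiv.Perm.mul_apply, ← pow_succ, ← pow_succ']
        rw [h3, Equiv.apply_symm_apply]
      -- split
      have hny : ∀ s, y.ℓ s = n s := by intro s; rw [hy3]; exact hn s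
      obtain ⟨w, hw1, hw2, hw3, hw4, hw5, hw6⟩ := exp_split y cycy s0 hvy 1 one_pos (by
        rw [hny]; exact_mod_cast hs2)
      set n' : Option S → ℕ := fun o => o.elim (n s0 - 1) (fun s => if s = s0 then 1 else n s)
        with hn'
      set lab' : Option S → S0 := fun o => o.elim (lab s0) lab with hlab'
      have hle1 : n s0 - 1 = (n s0 - 1 - 1) + 1 := by omega
      refine ih (m - 1) ?_ (Option S) w n' lab' ?_ ?_ ?_ ?_ ?_ ?_ ?_
      · have : 0 < m := by
          rw [← hm]
          have h1 : n s0 - 1 ≤ ∑ s, (n s - 1) :=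
            Finset.single_le_sum (f := fun s => n s - 1) (fun _ _ => Nat.zero_le _)
              (Finset.mem_univ s0)
          omega
        omega
      · rw [hw1]; exact expH_cyc s0 cycy
      · rintro (_ | s)
        · rw [hw5, hny]
          simp only [hn', Option.elim_none]
          rw [Nat.cast_sub (by omega)]
          simp
        · by_cases hs : s = s0
          · subst hs
            rw [hw4]; simp [hn']
          · rw [hw3 s hs, hny]; simp [hn', hs]
      · intro i
        rw [← hsum i, Fintype.sum_option]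
        simp only [hn', hlab', Option.elim_none, Option.elim_some]
        rw [← Finset.add_sum_erase _ _ (Finset.mem_univ s0),
          ← Finset.add_sum_erase _ _ (Finset.mem_univ s0)]
        have e1 : ∑ s ∈ Finset.univ.erase s0, (if lab s = i then (if s = s0 then 1 else n s)
            else 0) = ∑ s ∈ Finset.univ.erase s0, (if lab s = i then n s else 0) := by
          refine Finset.sum_congr rfl fun s hs => ?_
          rw [if_neg (Finset.ne_of_mem_erase hs)]
        rw [e1]
        by_cases hi : lab s0 = i
        · simp only [hi, if_true]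
          omega
        · simp only [if_neg hi]
          omega
      · have hsym : ∀ t, lab' ((expH y.h s0).symm (some t)) = lab (y.h.symm t) := by
          intro t
          by_cases ht : y.h.symm t = s0
          · have : (expH y.h s0).symm (some t) = none := by
              rw [Equiv.symm_apply_eq, expH_none, ← ht, Equiv.apply_symm_apply]
            rw [this, ht]
            rfl
          · have : (expH y.h s0).symm (some t) = some (y.h.symm t) := by
              rw [Equiv.symm_apply_eq, expH_some y.h s0 ht, Equiv.apply_symm_apply]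
            rw [this]
            rfl
        have hsymn : (expH y.h s0).symm none = some s0 := by
          rw [Equiv.symm_apply_eq, expH_s0]
        rintro (_ | a) (_ | b) h1 h2 h3
        · rfl
        · exfalso
          rw [hw1, hsymn] at h2
          exact h2 rfl
        · exfalso
          rw [hw1, hsymn] at h3
          exact h3 rfl
        · rw [hw1, hsym, hy1] at h2 h3
          rw [hfirst a b h1 h2 h3]
      · have hvsym : ∀ t, w.v.symm (some t) = some (y.v.symm t) := by
          intro t
          rw [Equiv.symm_apply_eq, hw2]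
          simp
        have hvn : w.v.symm none = none := by
          rw [Equiv.symm_apply_eq, hw2]
          simp
        have hvs0 : y.v.symm s0 = s0 := by rw [Equiv.symm_apply_eq, hvy]
        rintro (_ | a) h1
        · rw [hw1, expH_none] at h1 ⊢
          have h2 := hcommy s0 h1
          rw [hvs0] at h2
          rw [hvn, expH_none, hvsym, h2]
        · by_cases ha : a = s0
          · subst ha
            rw [hw1, expH_s0, hvn, hvsym, hvs0, expH_s0]
          · rw [hw1, expH_some y.h s0 ha] at h1
            have h2 := hcommy a h1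
            have h3 : y.v.symm a ≠ s0 := by
              intro h
              apply ha
              rw [Equiv.symm_apply_eq, hvy] at h
              exact h
            rw [hw1, expH_some y.h s0 ha, hvsym, hvsym, expH_some y.h s0 h3, h2]
      · rw [← hm, Fintype.sum_option]
        simp only [hn', Option.elim_none, Option.elim_some]
        rw [← Finset.add_sum_erase _ _ (Finset.mem_univ s0),
          ← Finset.add_sum_erase _ (fun s => n s - 1) (Finset.mem_univ s0)]
        have e1 : ∑ s ∈ Finset.univ.erase s0, ((if s = s0 then 1 else n s) - 1) =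
            ∑ s ∈ Finset.univ.erase s0, (n s - 1) := by
          refine Finset.sum_congr rfl fun s hs => ?_
          rw [if_neg (Finset.ne_of_mem_erase hs)]
        rw [e1]
        simp only [if_true]
        omega
      · exact (hconn.trans hy4).trans hw6

/-- EXP (cites RTW, SPL): the bottom side of the square `s` is replaced by `lam s` sides. -/
theorem expand {S : Type} [Finite S] [Nonempty S] (h v : Equiv.Perm S) (tr : Tr h v)
    (cyc : ∀ x y : S, ∃ k : ℕ, (h ^ k) x = y) (lam : S → ℕ) (hlam : ∀ s, 0 < lam s) :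
    ∃ (S' : Type) (_ : Finite S') (_ : Nonempty S') (h' v' : Equiv.Perm S') (tr' : Tr h' v')
      (lab : S' → S), (∀ x y : S', ∃ k : ℕ, (h' ^ k) x = y) ∧
      (∀ s, Nat.card {x // lab x = s} = lam s) ∧
      (∀ x y, lab x = lab y → lab (h'.symm x) ≠ lab x → lab (h'.symm y) ≠ lab y → x = y) ∧
      (∀ x, lab (h' x) = lab x → v'.symm (h' x) = h' (v'.symm x)) ∧
      Conn (ori h v tr) (ori h' v' tr') := by
  classical
  have : Fintype S := Fintype.ofFinite S
  obtain ⟨c, hc⟩ := exp_cob cyc (fun s => (lam (v s) : ℝ) - lam s) (by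
    rw [Finset.sum_sub_distrib]
    have := Equiv.sum_comp v (fun s => (lam s : ℝ))
    rw [this]; ring)
  set x : Rows S := ⟨h, v, tr, fun s => lam s, c, fun s => by exact_mod_cast hlam s,
    fun s => by have := hc s; linarith⟩ with hx
  refine exp_ind (ori h v tr) lam _ S x lam id cyc (fun s => rfl) ?_ (fun a b hab _ _ => hab)
    ?_ rfl ?_
  · intro i
    simp
  · intro a ha
    have hone : ∀ b, h b = b := by
      intro b
      obtain ⟨k, hk⟩ := cyc a b
      have key : ∀ k : ℕ, (h ^ k) a = a := by
        intro k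
        induction k with
        | zero => simp
        | succ k ih => rw [pow_succ, Equiv.Perm.mul_apply]; rw [show h a = a from ha, ih]
      rw [key] at hk
      rw [← hk]
      exact ha
    show v.symm (h a) = h (v.symm a)
    rw [hone, hone]
  · exact (conn_unitRows h v tr).symm.trans (Rows.conn_line (unitRows h v tr) x rfl rfl)

end Pool.Agent.TP
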