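import Pool.Agent.Lib_helper53.TP.Defs

/-! # TP, block PAI: Painleve's theorem for a line -/

namespace Pool.Agent.TP

open Set Complex MeasureTheory Topology

/-- The rectangle integral vanishes if the real axis does not meet the open rectangle. -/
theorem pai_rect {V : Set ℂ} {f : ℂ → ℂ} (hc : ContinuousOn f V)
    (hd : DifferentiableOn ℂ f (V \ {z | z.im = 0})) (a b c d : ℝ)
    (hr : uIcc a b ×ℂ uIcc c d ⊆ V) (h0 : (0 : ℝ) ∉ Ioo (min c d) (max c d)) :
    (∫ x : ℝ in a..b, f (x + c * I)) - (∫ x : ℝ in a..b, f (x + d * I)) +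
      I • (∫ y : ℝ in c..d, f (b + y * I)) -
      I • (∫ y : ℝ in c..d, f (a + y * I)) = 0 := by
  have h := integral_boundary_rect_eq_zero_of_continuousOn_of_differentiableOn f ⟨a, c⟩ ⟨b, d⟩
    (hc.mono hr) (hd.mono ?_)
  · exact h
  · intro u hu
    rw [mem_reProdIm] at hu
    refine ⟨hr ?_, ?_⟩
    · rw [mem_reProdIm]
      exact ⟨Ioo_subset_Icc_self hu.1, Ioo_subset_Icc_self hu.2⟩
    · intro hu0
      have : u.im = 0 := hu0
      rw [this] at hu
      exact h0 hu.2

theorem pai_real {V : Set ℂ} (hV : IsOpen V) {f : ℂ → ℂ} (hc : ContinuousOn f V)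
    (hd : DifferentiableOn ℂ f (V \ {z | z.im = 0})) : DifferentiableOn ℂ f V := by
  rw [← isConservativeOn_and_continuousOn_iff_isDifferentiableOn hV]
  refine ⟨?_, hc⟩
  intro z w hzw
  have hzw' : uIcc z.re w.re ×ℂ uIcc z.im w.im ⊆ V := hzw
  rw [← add_eq_zero_iff_eq_neg, wedgeIntegral_add_wedgeIntegral_eq]
  by_cases h0 : (0 : ℝ) ∈ Ioo (min z.im w.im) (max z.im w.im)
  · -- split at height 0
    have h0' : (0 : ℝ) ∈ uIcc z.im w.im := Ioo_subset_Icc_self h0
    have s1 : uIcc z.im 0 ⊆ uIcc z.im w.im := uIcc_subset_uIcc left_mem_uIcc h0'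
    have s2 : uIcc 0 w.im ⊆ uIcc z.im w.im := uIcc_subset_uIcc h0' right_mem_uIcc
    have e1 := pai_rect hc hd z.re w.re z.im 0 (fun u hu => hzw' (by
      rw [mem_reProdIm] at hu ⊢
      exact ⟨hu.1, s1 hu.2⟩)) (by
        simp only [mem_Ioo, not_and, not_lt]
        intro h
        rcases lt_or_ge z.im 0 with h1 | h1
        · rw [max_eq_right h1.le]
        · rw [min_eq_right h1] at h
          exact absurd h (lt_irrefl _))
    have e2 := pai_rect hc hd z.re w.re 0 w.im (fun u hu => hzw' (by
      rw [mem_reProdIm] at hu ⊢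
      exact ⟨hu.1, s2 hu.2⟩)) (by
        simp only [mem_Ioo, not_and, not_lt]
        intro h
        rcases lt_or_ge w.im 0 with h1 | h1
        · rw [max_eq_left h1.le]
        · rw [min_eq_left h1] at h
          exact absurd h (lt_irrefl _))
    have hi : ∀ a ∈ uIcc z.re w.re, ∀ c ∈ uIcc z.im w.im, ∀ d ∈ uIcc z.im w.im,
        IntervalIntegrable (fun y : ℝ => f (a + y * I)) volume c d := by
      intro a ha c hc' d hd'
      apply ContinuousOn.intervalIntegrable
      apply ContinuousOn.comp hc (by fun_prop)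
      intro y hy
      apply hzw'
      rw [mem_reProdIm]
      simp only [add_re, ofReal_re, mul_re, I_re, mul_zero, ofReal_im, I_im, mul_one, sub_self,
        add_zero, add_im, mul_im, zero_add]
      exact ⟨ha, uIcc_subset_uIcc hc' hd' hy⟩
    have a1 := intervalIntegral.integral_add_adjacent_intervals
      (hi z.re left_mem_uIcc z.im left_mem_uIcc 0 h0')
      (hi z.re left_mem_uIcc 0 h0' w.im right_mem_uIcc)
    have a2 := intervalIntegral.integral_add_adjacent_intervals
      (hi w.re right_mem_uIcc z.im left_mem_uIcc 0 h0')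
      (hi w.re right_mem_uIcc 0 h0' w.im right_mem_uIcc)
    rw [← a1, ← a2]
    simp only [smul_eq_mul] at e1 e2 ⊢
    linear_combination e1 + e2
  · exact pai_rect hc hd z.re w.re z.im w.im hzw' h0

theorem painleve {U : Set ℂ} (hU : IsOpen U) {F : ℂ → ℂ} (hc : ContinuousOn F U) (p E : ℂ)
    (hE : E ≠ 0) (hd : DifferentiableOn ℂ F (U \ {z | cross (z - p) E = 0})) :
    DifferentiableOn ℂ F U := by
  set φ : ℂ → ℂ := fun w => p + w * E with hφ
  have hφc : Continuous φ := by fun_prop
  have hφd : Differentiable ℂ φ := by fun_prop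
  have h1 : DifferentiableOn ℂ (F ∘ φ) (φ ⁻¹' U) := by
    apply pai_real (hU.preimage hφc)
    · exact hc.comp hφc.continuousOn (fun _ h => h)
    · apply hd.comp hφd.differentiableOn
      rintro w ⟨hw1, hw2⟩
      refine ⟨hw1, fun h => hw2 ?_⟩
      have h3 : cross (φ w - p) E = 0 := h
      have h4 : cross (φ w - p) E = -(w.im * (E.re ^ 2 + E.im ^ 2)) := by
        simp only [hφ, cross]
        simp
        ring
      rw [h4] at h3
      have h5 : E.re ^ 2 + E.im ^ 2 ≠ 0 := by
        intro h6
        apply hE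
        have h7 : E.re = 0 := by nlinarith [sq_nonneg E.re, sq_nonneg E.im]
        have h8 : E.im = 0 := by nlinarith [sq_nonneg E.re, sq_nonneg E.im]
        exact Complex.ext h7 h8
      have h6 : w.im * (E.re ^ 2 + E.im ^ 2) = 0 := by linarith
      rcases mul_eq_zero.1 h6 with h7 | h7
      · exact h7
      · exact absurd h7 h5
  have h2 : ∀ z, F z = (F ∘ φ) ((z - p) / E) := by
    intro z
    simp only [Function.comp_apply, hφ]
    congr 1
    field_simp
    ring
  have h3 : DifferentiableOn ℂ (fun z => (F ∘ φ) ((z - p) / E)) U := by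
    apply h1.comp (by fun_prop)
    intro z hz
    show φ ((z - p) / E) ∈ U
    have : φ ((z - p) / E) = z := by
      simp only [hφ]
      field_simp
      ring
    rw [this]
    exact hz
  exact h3.congr fun z _ => h2 z

end Pool.Agent.TP
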