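import Pool.Agent.Lib_helper53.TP.WDefs
import Pool.Agent.Lib_helper53.TP.B.PAI

/-!
# EXT: extension of the primitives to plus-shaped regions
-/

namespace Pool.Agent.TP

open Set Complex Finset Topology

/-- The coefficient of `A` of `z` in the basis `A, B`. -/
noncomputable def ext_c (A B z : ℂ) : ℝ := cross z B / cross A B

theorem ext_cross_swap (A B : ℂ) : cross B A = -cross A B := by
  unfold cross; ring

theorem ext_ne_swap {A B : ℂ} (hAB : cross A B ≠ 0) : cross B A ≠ 0 := by
  rw [ext_cross_swap]; exact neg_ne_zero.mpr hAB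

theorem ext_c_eq {A B : ℂ} (hAB : cross A B ≠ 0) (x y : ℝ) : ext_c A B (x * A + y * B) = x := by
  unfold ext_c
  rw [div_eq_iff hAB]
  unfold cross
  simp
  ring

theorem ext_c_eq' {A B : ℂ} (hAB : cross A B ≠ 0) (x y : ℝ) : ext_c B A (x * A + y * B) = y := by
  rw [add_comm]
  exact ext_c_eq (ext_ne_swap hAB) y x

theorem ext_c_rep {A B : ℂ} (hAB : cross A B ≠ 0) (z : ℂ) :
    z = (ext_c A B z : ℂ) * A + (ext_c B A z : ℂ) * B := by
  have h1 : (cross A B : ℂ) ≠ 0 := by exact_mod_cast hAB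
  unfold ext_c
  rw [ext_cross_swap A B]
  push_cast
  rw [div_neg]
  field_simp
  unfold cross
  apply Complex.ext
  · simp
    ring
  · simp
    ring

theorem ext_c_cont (A B : ℂ) : Continuous (ext_c A B) := by
  unfold ext_c cross
  fun_prop

theorem ext_c_add_left {A B : ℂ} (hAB : cross A B ≠ 0) (z : ℂ) :
    ext_c A B (z + A) = ext_c A B z + 1 := by
  unfold ext_c
  rw [div_add_one hAB]
  unfold cross
  simp
  ring

theorem ext_c_add_right {A B : ℂ} (z : ℂ) : ext_c A B (z + B) = ext_c A B z := by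
  unfold ext_c cross
  congr 1
  simp
  ring

theorem ext_c_sub_left {A B : ℂ} (hAB : cross A B ≠ 0) (z : ℂ) :
    ext_c A B (z - A) = ext_c A B z - 1 := by
  have := ext_c_add_left hAB (z - A)
  rw [sub_add_cancel] at this
  linarith

theorem ext_c_sub_right {A B : ℂ} (z : ℂ) : ext_c A B (z - B) = ext_c A B z := by
  have := ext_c_add_right (A := A) (B := B) (z - B)
  rw [sub_add_cancel] at this
  exact this.symm

theorem ext_mem_para {A B : ℂ} (hAB : cross A B ≠ 0) (z : ℂ) :
    z ∈ para A B ↔ 0 ≤ ext_c A B z ∧ ext_c A B z ≤ 1 ∧ 0 ≤ ext_c B A z ∧ ext_c B A z ≤ 1 := by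
  constructor
  · rintro ⟨x, y, h1, h2, h3, h4, rfl⟩
    rw [ext_c_eq hAB, ext_c_eq' hAB]
    exact ⟨h1, h2, h3, h4⟩
  · rintro ⟨h1, h2, h3, h4⟩
    exact ⟨_, _, h1, h2, h3, h4, ext_c_rep hAB z⟩

theorem ext_mem_opara {A B : ℂ} (hAB : cross A B ≠ 0) (z : ℂ) :
    z ∈ opara A B ↔ 0 < ext_c A B z ∧ ext_c A B z < 1 ∧ 0 < ext_c B A z ∧ ext_c B A z < 1 := by
  constructor
  · rintro ⟨x, y, h1, h2, h3, h4, rfl⟩
    rw [ext_c_eq hAB, ext_c_eq' hAB]
    exact ⟨h1, h2, h3, h4⟩
  · rintro ⟨h1, h2, h3, h4⟩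
    exact ⟨_, _, h1, h2, h3, h4, ext_c_rep hAB z⟩

theorem ext_mem_plus {A B : ℂ} (hAB : cross A B ≠ 0) (z : ℂ) :
    z ∈ plus A B ↔ (0 < ext_c A B z ∧ ext_c A B z < 1 ∧ -1 < ext_c B A z ∧ ext_c B A z < 2) ∨
      (-1 < ext_c A B z ∧ ext_c A B z < 2 ∧ 0 < ext_c B A z ∧ ext_c B A z < 1) := by
  constructor
  · rintro ⟨x, y, rfl, h⟩
    rw [ext_c_eq hAB, ext_c_eq' hAB]
    exact h
  · intro h
    exact ⟨_, _, ext_c_rep hAB z, h⟩

theorem ext_box_open (A B : ℂ) (a1 a2 b1 b2 : ℝ) :
    IsOpen {z : ℂ | a1 < ext_c A B z ∧ ext_c A B z < a2 ∧ b1 < ext_c B A z ∧ ext_c B A z < b2} :=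
  (isOpen_lt continuous_const (ext_c_cont A B)).inter
    ((isOpen_lt (ext_c_cont A B) continuous_const).inter
      ((isOpen_lt continuous_const (ext_c_cont B A)).inter
        (isOpen_lt (ext_c_cont B A) continuous_const)))

theorem ext_opara_open {A B : ℂ} (hAB : cross A B ≠ 0) : IsOpen (opara A B) := by
  have : opara A B = {z : ℂ | 0 < ext_c A B z ∧ ext_c A B z < 1 ∧ 0 < ext_c B A z ∧
      ext_c B A z < 1} := by
    ext z; exact ext_mem_opara hAB z
  rw [this]
  exact ext_box_open A B 0 1 0 1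

/-- Gluing along the side `A + ℝ B`. -/
theorem ext_key {A B : ℂ} (hAB : cross A B ≠ 0) {f g : ℂ → ℂ} {a : ℂ}
    (hf : ContinuousOn f (para A B)) (hf' : DifferentiableOn ℂ f (opara A B))
    (hg : ContinuousOn g (para A B)) (hg' : DifferentiableOn ℂ g (opara A B))
    (hfg : ∀ t : ℝ, 0 ≤ t → t ≤ 1 → g (t * B) = f (A + t * B) - a) :
    DifferentiableOn ℂ (fun z => if ext_c A B z ≤ 1 then f z else g (z - A) + a)
      {z : ℂ | 0 < ext_c A B z ∧ ext_c A B z < 2 ∧ 0 < ext_c B A z ∧ ext_c B A z < 1} := by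
  have hB : B ≠ 0 := by
    rintro rfl
    apply hAB
    simp [cross]
  have hlineq : ∀ z, cross (z - A) B = (ext_c A B z - 1) * cross A B := by
    intro z
    unfold ext_c
    rw [sub_mul, div_mul_cancel₀ _ hAB]
    unfold cross
    simp
    ring
  refine painleve (ext_box_open A B 0 2 0 1) ?_ A B hB ?_
  · refine ContinuousOn.if ?_ ?_ ?_
    · rintro z ⟨⟨h1, h2, h3, h4⟩, hz⟩
      have hz1 : ext_c A B z = 1 := frontier_le_subset_eq (ext_c_cont A B) continuous_const hz
      have hrep := ext_c_rep hAB z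
      rw [hz1] at hrep
      have e1 : z = A + (ext_c B A z : ℂ) * B := by
        conv_lhs => rw [hrep]
        simp
      have h := hfg (ext_c B A z) h3.le h4.le
      have e2 : z - A = (ext_c B A z : ℂ) * B := by
        conv_lhs => rw [e1]
        ring
      rw [e2, h]
      rw [← e1]
      ring
    · refine hf.mono ?_
      rintro z ⟨⟨h1, h2, h3, h4⟩, hz⟩
      rw [(isClosed_le (ext_c_cont A B) continuous_const).closure_eq] at hz
      exact (ext_mem_para hAB z).mpr ⟨h1.le, hz, h3.le, h4.le⟩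
    · refine ContinuousOn.add ?_ continuousOn_const
      refine ContinuousOn.comp (t := para A B) hg (by fun_prop) ?_
      rintro z ⟨⟨h1, h2, h3, h4⟩, hz⟩
      have hz' : 1 ≤ ext_c A B z := by
        have h := closure_lt_subset_le (f := fun _ : ℂ => (1 : ℝ)) continuous_const
          (ext_c_cont A B)
        have h' : z ∈ closure {w : ℂ | 1 < ext_c A B w} := by simpa only [not_le] using hz
        exact h h'
      rw [ext_mem_para hAB, ext_c_sub_left hAB, ext_c_sub_right]
      exact ⟨by linarith, by linarith, h3.le, h4.le⟩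
  · rintro z ⟨⟨h1, h2, h3, h4⟩, hz⟩
    have hz1 : ext_c A B z ≠ 1 := by
      intro h
      apply hz
      simp only [Set.mem_ofPred_eq]
      rw [hlineq, h]; simp
    apply DifferentiableAt.differentiableWithinAt
    rcases lt_or_gt_of_ne hz1 with hlt | hgt
    · have hd : DifferentiableAt ℂ f z :=
        hf'.differentiableAt ((ext_opara_open hAB).mem_nhds
          ((ext_mem_opara hAB z).mpr ⟨h1, hlt, h3, h4⟩))
      refine hd.congr_of_eventuallyEq ?_
      have : {w : ℂ | ext_c A B w < 1} ∈ 𝓝 z :=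
        (isOpen_lt (ext_c_cont A B) continuous_const).mem_nhds hlt
      filter_upwards [this] with w hw
      rw [if_pos (le_of_lt hw)]
    · have hm : z - A ∈ opara A B := by
        rw [ext_mem_opara hAB, ext_c_sub_left hAB, ext_c_sub_right]
        exact ⟨by linarith, by linarith, h3, h4⟩
      have hd : DifferentiableAt ℂ g (z - A) :=
        hg'.differentiableAt ((ext_opara_open hAB).mem_nhds hm)
      have hd2 : DifferentiableAt ℂ (fun w => g (w - A) + a) z := by
        refine DifferentiableAt.add_const _ ?_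
        exact hd.comp z (by fun_prop)
      refine hd2.congr_of_eventuallyEq ?_
      have : {w : ℂ | 1 < ext_c A B w} ∈ 𝓝 z :=
        (isOpen_lt continuous_const (ext_c_cont A B)).mem_nhds hgt
      filter_upwards [this] with w hw
      rw [if_neg (not_le.mpr hw)]

/-- The extension in the direction `A`. -/
noncomputable def ext_G1 {S : Type} (h : Equiv.Perm S) (A B : ℂ) (a : S → ℂ) (F : S → ℂ → ℂ)
    (s : S) (z : ℂ) : ℂ :=
  if ext_c A B z < 0 then F (h.symm s) (z + A) - a (h.symm s)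
  else if 1 < ext_c A B z then F (h s) (z - A) + a s else F s z

theorem ext_two {S : Type} (h : Equiv.Perm S) {A B : ℂ} (hAB : cross A B ≠ 0)
    {a : S → ℂ} (F : S → ℂ → ℂ) (h1 : ∀ s, ContinuousOn (F s) (para A B))
    (h2 : ∀ s, DifferentiableOn ℂ (F s) (opara A B))
    (h4 : ∀ s, ∀ t : ℝ, 0 ≤ t → t ≤ 1 → F (h s) (t * B) = F s (A + t * B) - a s) (s : S) :
    DifferentiableOn ℂ (ext_G1 h A B a F s)
      {z : ℂ | -1 < ext_c A B z ∧ ext_c A B z < 2 ∧ 0 < ext_c B A z ∧ ext_c B A z < 1} := by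
  rintro z ⟨z1, z2, z3, z4⟩
  apply DifferentiableAt.differentiableWithinAt
  by_cases hz : ext_c A B z < 1
  · -- use the key lemma at `h.symm s`
    have key := ext_key hAB (h1 (h.symm s)) (h2 (h.symm s)) (h1 (h (h.symm s)))
      (h2 (h (h.symm s))) (h4 (h.symm s))
    have hm : z + A ∈ {z : ℂ | 0 < ext_c A B z ∧ ext_c A B z < 2 ∧ 0 < ext_c B A z ∧
        ext_c B A z < 1} := by
      simp only [Set.mem_ofPred_eq]
      rw [ext_c_add_left hAB, ext_c_add_right]
      exact ⟨by linarith, by linarith, z3, z4⟩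
    have hd := key.differentiableAt ((ext_box_open A B 0 2 0 1).mem_nhds hm)
    have hd2 : DifferentiableAt ℂ (fun w => (fun z => if ext_c A B z ≤ 1 then F (h.symm s) z
        else F (h (h.symm s)) (z - A) + a (h.symm s)) (w + A) - a (h.symm s)) z := by
      have hs : DifferentiableAt ℂ (fun w : ℂ => w + A) z := by fun_prop
      have hc := DifferentiableAt.comp (g := fun z => if ext_c A B z ≤ 1 then F (h.symm s) z
        else F (h (h.symm s)) (z - A) + a (h.symm s)) (f := fun w : ℂ => w + A) z hd hs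
      exact hc.sub_const _
    refine hd2.congr_of_eventuallyEq ?_
    have hU := (ext_box_open A B (-1) 1 0 1).mem_nhds
      (show z ∈ {z : ℂ | -1 < ext_c A B z ∧ ext_c A B z < 1 ∧ 0 < ext_c B A z ∧
        ext_c B A z < 1} from ⟨z1, hz, z3, z4⟩)
    filter_upwards [hU] with w hw
    obtain ⟨w1, w2, w3, w4⟩ := hw
    unfold ext_G1
    simp only [ext_c_add_left hAB]
    rcases lt_trichotomy (ext_c A B w) 0 with hlt | heq | hgt
    · rw [if_pos hlt, if_pos (by linarith)]
    · rw [if_neg (by linarith), if_neg (by linarith), if_pos (by linarith)]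
      have hrep := ext_c_rep hAB w
      rw [heq] at hrep
      have e1 : w = (ext_c B A w : ℂ) * B := by
        conv_lhs => rw [hrep]
        simp
      have h := h4 (h.symm s) (ext_c B A w) w3.le w4.le
      rw [← e1, Equiv.apply_symm_apply, add_comm A] at h
      exact h
    · rw [if_neg (by linarith), if_neg (by linarith), if_neg (by linarith),
        Equiv.apply_symm_apply, add_sub_cancel_right, add_sub_cancel_right]
  · have key := ext_key hAB (h1 s) (h2 s) (h1 (h s)) (h2 (h s)) (h4 s)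
    have hm : z ∈ {z : ℂ | 0 < ext_c A B z ∧ ext_c A B z < 2 ∧ 0 < ext_c B A z ∧
        ext_c B A z < 1} := ⟨by linarith [not_lt.mp hz], z2, z3, z4⟩
    have hU := (ext_box_open A B 0 2 0 1).mem_nhds hm
    have hd := key.differentiableAt hU
    refine hd.congr_of_eventuallyEq ?_
    filter_upwards [hU] with w hw
    obtain ⟨w1, w2, w3, w4⟩ := hw
    unfold ext_G1
    by_cases hw' : ext_c A B w ≤ 1
    · rw [if_neg (by linarith), if_neg (by linarith), if_pos hw']
    · rw [if_neg (by linarith), if_pos (by linarith), if_neg hw']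

/-- The extension. -/
noncomputable def ext_G {S : Type} (h v : Equiv.Perm S) (A B : ℂ) (a b : S → ℂ) (F : S → ℂ → ℂ)
    (s : S) (z : ℂ) : ℂ :=
  if ext_c A B z < 0 then F (h.symm s) (z + A) - a (h.symm s)
  else if 1 < ext_c A B z then F (h s) (z - A) + a s else
    if ext_c B A z < 0 then F (v.symm s) (z + B) - b (v.symm s)
    else if 1 < ext_c B A z then F (v s) (z - B) + b s else F s z

theorem ext_para_swap (A B : ℂ) : para B A = para A B := by
  ext z
  constructor
  · rintro ⟨x, y, h1, h2, h3, h4, rfl⟩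
    exact ⟨y, x, h3, h4, h1, h2, by ring⟩
  · rintro ⟨x, y, h1, h2, h3, h4, rfl⟩
    exact ⟨y, x, h3, h4, h1, h2, by ring⟩

theorem ext_opara_swap (A B : ℂ) : opara B A = opara A B := by
  ext z
  constructor
  · rintro ⟨x, y, h1, h2, h3, h4, rfl⟩
    exact ⟨y, x, h3, h4, h1, h2, by ring⟩
  · rintro ⟨x, y, h1, h2, h3, h4, rfl⟩
    exact ⟨y, x, h3, h4, h1, h2, by ring⟩

theorem ext_para_compact (A B : ℂ) : IsCompact (para A B) := by
  have h : para A B = (fun p : ℝ × ℝ => (p.1 : ℂ) * A + (p.2 : ℂ) * B) ''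
      (Set.Icc 0 1 ×ˢ Set.Icc 0 1) := by
    ext z
    constructor
    · rintro ⟨x, y, h1, h2, h3, h4, rfl⟩
      exact ⟨(x, y), ⟨⟨h1, h2⟩, ⟨h3, h4⟩⟩, rfl⟩
    · rintro ⟨⟨x, y⟩, ⟨⟨h1, h2⟩, ⟨h3, h4⟩⟩, rfl⟩
      exact ⟨x, y, h1, h2, h3, h4, rfl⟩
  rw [h]
  exact (isCompact_Icc.prod isCompact_Icc).image (by fun_prop)

theorem hol_ext {S : Type} [Finite S] (h v : Equiv.Perm S) {A B : ℂ} (hAB : 0 < cross A B)
    {a b : S → ℂ} (F : S → ℂ → ℂ) (h1 : ∀ s, ContinuousOn (F s) (para A B))
    (h2 : ∀ s, DifferentiableOn ℂ (F s) (opara A B)) (h3 : ∀ s, F s 0 = 0)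
    (h4 : ∀ s, ∀ t : ℝ, 0 ≤ t → t ≤ 1 → F (h s) (t * B) = F s (A + t * B) - a s)
    (h5 : ∀ s, ∀ t : ℝ, 0 ≤ t → t ≤ 1 → F (v s) (t * A) = F s (B + t * A) - b s) :
    ∃ G : S → ℂ → ℂ, (∀ s, DifferentiableOn ℂ (G s) (plus A B)) ∧
      (∀ s, ∀ z ∈ para A B, G s z = F s z) ∧ (∃ M : ℝ, ∀ s, ∀ z ∈ plus A B, ‖G s z‖ ≤ M) ∧
      (∀ s, ∀ x y : ℝ, -1 < x → x < 1 → 0 < y → y < 1 →
        G (h s) (x * A + y * B) = G s (A + (x * A + y * B)) - a s) ∧
      (∀ s, ∀ x y : ℝ, 0 < x → x < 1 → -1 < y → y < 1 →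
        G (v s) (x * A + y * B) = G s (B + (x * A + y * B)) - b s) := by
  have hne : cross A B ≠ 0 := hAB.ne'
  have hne' : cross B A ≠ 0 := ext_ne_swap hne
  refine ⟨ext_G h v A B a b F, fun s => ?_, fun s z hz => ?_, ?_, ?_, ?_⟩
  · rintro z hz
    apply DifferentiableAt.differentiableWithinAt
    rcases (ext_mem_plus hne z).mp hz with hz | hz
    · have hd := (ext_two v hne' (a := b) F (by simpa only [ext_para_swap B A] using h1)
        (by simpa only [ext_opara_swap B A] using h2) h5 s)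
      have hU := (ext_box_open B A (-1) 2 0 1).mem_nhds
        (show z ∈ _ from ⟨hz.2.2.1, hz.2.2.2, hz.1, hz.2.1⟩)
      refine (hd.differentiableAt hU).congr_of_eventuallyEq ?_
      filter_upwards [hU] with w hw
      obtain ⟨w1, w2, w3, w4⟩ := hw
      unfold ext_G ext_G1
      rw [if_neg (by linarith), if_neg (by linarith)]
    · have hd := (ext_two h hne F h1 h2 h4 s)
      have hU := (ext_box_open A B (-1) 2 0 1).mem_nhds (show z ∈ _ from hz)
      refine (hd.differentiableAt hU).congr_of_eventuallyEq ?_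
      filter_upwards [hU] with w hw
      obtain ⟨w1, w2, w3, w4⟩ := hw
      unfold ext_G ext_G1
      rw [if_neg (by linarith : ¬ ext_c B A w < 0), if_neg (by linarith : ¬ 1 < ext_c B A w)]
  · obtain ⟨z1, z2, z3, z4⟩ := (ext_mem_para hne z).mp hz
    unfold ext_G
    rw [if_neg (by linarith), if_neg (by linarith), if_neg (by linarith), if_neg (by linarith)]
  · -- boundedness
    have hb : ∀ s, ∃ C : ℝ, ∀ z ∈ para A B, ‖F s z‖ ≤ C := fun s =>
      (ext_para_compact A B).exists_bound_of_continuousOn (h1 s)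
    choose C hC using hb
    have hfin : ∀ f : S → ℝ, ∃ M : ℝ, ∀ s, f s ≤ M := by
      intro f
      obtain ⟨M, hM⟩ := (Set.finite_range f).bddAbove
      exact ⟨M, fun s => hM ⟨s, rfl⟩⟩
    obtain ⟨M1, hM1⟩ := hfin C
    obtain ⟨M2, hM2⟩ := hfin (fun s => ‖a s‖)
    obtain ⟨M3, hM3⟩ := hfin (fun s => ‖b s‖)
    refine ⟨M1 + |M2| + |M3|, fun s z hz => ?_⟩
    have hF : ∀ s, ∀ w ∈ para A B, ‖F s w‖ ≤ M1 := fun s w hw => (hC s w hw).trans (hM1 s)
    have hP := (ext_mem_plus hne z).mp hz
    have q2 := le_abs_self M2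
    have q3 := le_abs_self M3
    have p2 := abs_nonneg M2
    have p3 := abs_nonneg M3
    unfold ext_G
    split_ifs with c1 c2 c3 c4
    · have hm : z + A ∈ para A B := by
        rw [ext_mem_para hne, ext_c_add_left hne, ext_c_add_right]
        rcases hP with hP | hP
        · exact absurd hP.1 (by linarith)
        · exact ⟨by linarith, by linarith, hP.2.2.1.le, hP.2.2.2.le⟩
      have := norm_sub_le (F (h.symm s) (z + A)) (a (h.symm s))
      linarith [hF (h.symm s) _ hm, hM2 (h.symm s)]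
    · have hm : z - A ∈ para A B := by
        rw [ext_mem_para hne, ext_c_sub_left hne, ext_c_sub_right]
        rcases hP with hP | hP
        · exact absurd hP.2.1 (by linarith)
        · exact ⟨by linarith, by linarith, hP.2.2.1.le, hP.2.2.2.le⟩
      have := norm_add_le (F (h s) (z - A)) (a s)
      linarith [hF (h s) _ hm, hM2 s]
    · have hm : z + B ∈ para A B := by
        rw [ext_mem_para hne, ext_c_add_left hne', ext_c_add_right]
        rcases hP with hP | hP
        · exact ⟨hP.1.le, hP.2.1.le, by linarith, by linarith⟩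
        · exact absurd hP.2.2.1 (by linarith)
      have := norm_sub_le (F (v.symm s) (z + B)) (b (v.symm s))
      linarith [hF (v.symm s) _ hm, hM3 (v.symm s)]
    · have hm : z - B ∈ para A B := by
        rw [ext_mem_para hne, ext_c_sub_left hne', ext_c_sub_right]
        rcases hP with hP | hP
        · exact ⟨hP.1.le, hP.2.1.le, by linarith, by linarith⟩
        · exact absurd hP.2.2.2 (by linarith)
      have := norm_add_le (F (v s) (z - B)) (b s)
      linarith [hF (v s) _ hm, hM3 s]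
    · have hm : z ∈ para A B := by
        rw [ext_mem_para hne]
        exact ⟨not_lt.mp c1, not_lt.mp c2, not_lt.mp c3, not_lt.mp c4⟩
      linarith [hF s _ hm]
  · intro s x y x1 x2 y1 y2
    have e1 := ext_c_eq hne x y
    have e2 := ext_c_eq' hne x y
    have e3 : ext_c A B (A + (x * A + y * B)) = x + 1 := by
      rw [add_comm A, ext_c_add_left hne, e1]
    have e4 : ext_c B A (A + (x * A + y * B)) = y := by
      rw [add_comm A, ext_c_add_right, e2]
    unfold ext_G
    rw [e1, e2, e3, e4]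
    rw [if_neg (by linarith : ¬ y < 0), if_neg (by linarith : ¬ 1 < y),
      if_neg (by linarith : ¬ x + 1 < 0), if_neg (by linarith : ¬ y < 0),
      if_neg (by linarith : ¬ 1 < y)]
    rcases lt_trichotomy x 0 with hx | hx | hx
    · rw [if_pos hx, if_neg (by linarith : ¬ 1 < x + 1), Equiv.symm_apply_apply, add_comm A]
    · rw [if_neg (by linarith : ¬ x < 0), if_neg (by linarith : ¬ 1 < x),
        if_neg (by linarith : ¬ 1 < x + 1), hx]
      have := h4 s y y1.le y2.le
      simpa using this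
    · rw [if_neg (by linarith : ¬ x < 0), if_neg (by linarith : ¬ 1 < x),
        if_pos (by linarith : 1 < x + 1), add_sub_cancel_left, add_sub_cancel_right]
  · intro s x y x1 x2 y1 y2
    have e1 := ext_c_eq hne x y
    have e2 := ext_c_eq' hne x y
    have e3 : ext_c A B (B + (x * A + y * B)) = x := by
      rw [add_comm B, ext_c_add_right, e1]
    have e4 : ext_c B A (B + (x * A + y * B)) = y + 1 := by
      rw [add_comm B, ext_c_add_left hne', e2]
    unfold ext_G
    rw [e1, e2, e3, e4]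
    rw [if_neg (by linarith : ¬ x < 0), if_neg (by linarith : ¬ 1 < x),
      if_neg (by linarith : ¬ x < 0), if_neg (by linarith : ¬ 1 < x),
      if_neg (by linarith : ¬ y + 1 < 0)]
    rcases lt_trichotomy y 0 with hx | hx | hx
    · rw [if_pos hx, if_neg (by linarith : ¬ 1 < y + 1), Equiv.symm_apply_apply, add_comm B]
    · rw [if_neg (by linarith : ¬ y < 0), if_neg (by linarith : ¬ 1 < y),
        if_neg (by linarith : ¬ 1 < y + 1), hx]
      have := h5 s x x1.le x2.le
      simpa using this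
    · rw [if_neg (by linarith : ¬ y < 0), if_neg (by linarith : ¬ 1 < y),
        if_pos (by linarith : 1 < y + 1), add_sub_cancel_left, add_sub_cancel_right]

end Pool.Agent.TP
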