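import Pool.Agent.Lib_helper53.TP.WDefs

/-!
# FIN: linear algebra
-/

namespace Pool.Agent.TP

open Set Complex Finset

theorem fin_key {V : Type} [AddCommGroup V] [Module ℝ V]
    (ω : V →ₗ[ℝ] V →ₗ[ℝ] ℝ) (anti : ∀ x y, ω x y = -ω y x) (e : V) (j : ℕ)
    (U : ℕ → V) (hU : ∀ r, 1 ≤ r → r ≤ j → ω (U r) e = 0)
    (h2 : ∀ u, ω u e = 0 → (∀ r, 1 ≤ r → r ≤ j → ω u (U r) = 0) → ∃ c : ℝ, u = c • e)
    (h3 : ∀ s, 1 ≤ s → s < j → ω (U j) (U s) = 0 → ∀ r, s < r → r ≤ j → ω (U r) (U s) = 0)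
    (R : ℕ → Prop) (hR : ∀ s r, 1 ≤ s → s ≤ j → 1 ≤ r → r ≤ j → ¬ R s → R r →
      ω (U s) (U r) = 0) (hj : ¬ R j) (r : ℕ) (hr1 : 1 ≤ r) (hrj : r ≤ j) (hr : R r) :
    ∃ c : ℝ, U r = c • e := by
  have hself : ∀ x, ω x x = 0 := fun x => by have := anti x x; linarith
  have hj1 : 1 ≤ j := le_trans hr1 hrj
  have hlt : ∀ t, 1 ≤ t → t ≤ j → R t → t < j := by
    intro t _ ht2 ht3
    rcases lt_or_eq_of_le ht2 with h | h
    · exact h
    · subst h; exact absurd ht3 hj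
  apply h2 (U r) (hU r hr1 hrj)
  intro t ht1 htj
  rcases lt_trichotomy t r with h | h | h
  · by_cases hRt : R t
    · exact h3 t ht1 (hlt t ht1 htj hRt) (hR j t hj1 le_rfl ht1 htj hj hRt) r h hrj
    · rw [anti, hR t r ht1 htj hr1 hrj hRt hr, neg_zero]
  · subst h; exact hself _
  · rw [anti, h3 r hr1 (hlt r hr1 hrj hr) (hR j r hj1 le_rfl hr1 hrj hj hr) t h htj, neg_zero]

theorem fin_contra {V : Type} [AddCommGroup V] [Module ℝ V] [FiniteDimensional ℝ V]
    (ω : V →ₗ[ℝ] V →ₗ[ℝ] ℝ) (anti : ∀ x y, ω x y = -ω y x)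
    (nondeg : ∀ x, (∀ y, ω x y = 0) → x = 0) (hdim : 5 ≤ Module.finrank ℝ V) (e : V) (j : ℕ)
    (U : ℕ → V) (P : Submodule ℝ V) (hP : Module.finrank ℝ P = 2) (hPe : ∀ p ∈ P, ω p e = 0)
    (hU : ∀ r, 1 ≤ r → r ≤ j → ω (U r) e = 0)
    (h1 : ∀ u ∈ P, ∀ w, ω w e = 0 → (∀ p ∈ P, ω p w = 0) → ∀ r, 1 ≤ r → r ≤ j →
      ω u (U r) * ω w (U r) = 0)
    (h2 : ∀ u, ω u e = 0 → (∀ r, 1 ≤ r → r ≤ j → ω u (U r) = 0) → ∃ c : ℝ, u = c • e)
    (h3 : ∀ s, 1 ≤ s → s < j → ω (U j) (U s) = 0 → ∀ r, s < r → r ≤ j → ω (U r) (U s) = 0) :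
    False := by
  classical
  have hself : ∀ x, ω x x = 0 := fun x => by have := anti x x; linarith
  have hrefl : LinearMap.BilinForm.IsRefl ω := by
    intro x y hxy
    change ω y x = 0
    rw [anti]
    have : ω x y = 0 := hxy
    rw [this, neg_zero]
  have hnd : LinearMap.BilinForm.Nondegenerate ω := by
    refine ⟨fun x hx => nondeg x hx, fun y hy => nondeg y fun x => ?_⟩
    rw [anti, hy x, neg_zero]
  set W : Submodule ℝ V := P ⊔ Submodule.span ℝ {e} with hW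
  set Q : Submodule ℝ V := LinearMap.BilinForm.orthogonal ω W with hQ
  have memQ : ∀ w, w ∈ Q ↔ (ω w e = 0 ∧ ∀ p ∈ P, ω p w = 0) := by
    intro w
    rw [hQ, LinearMap.BilinForm.mem_orthogonal_iff]
    constructor
    · intro h
      refine ⟨?_, fun p hp => h p (Submodule.mem_sup_left hp)⟩
      rw [anti]
      have : ω e w = 0 := h e (Submodule.mem_sup_right (Submodule.mem_span_singleton_self e))
      rw [this, neg_zero]
    · rintro ⟨h1, h2⟩ x hx
      obtain ⟨p, hp, q, hq, rfl⟩ := Submodule.mem_sup.1 hx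
      obtain ⟨c, rfl⟩ := Submodule.mem_span_singleton.1 hq
      change ω (p + c • e) w = 0
      have h3 : ω e w = 0 := by rw [anti, h1, neg_zero]
      simp [h2 p hp, h3]
  have hWQ : ∀ x, (∀ w ∈ Q, ω w x = 0) → x ∈ W := by
    intro x hx
    have h := LinearMap.BilinForm.orthogonal_orthogonal hnd hrefl W
    rw [← h, LinearMap.BilinForm.mem_orthogonal_iff]
    exact hx
  -- dimension count
  have hspan0 : Module.finrank ℝ (Submodule.span ℝ {e}) ≤ 1 := by
    refine (finrank_span_le_card ({e} : Set V)).trans ?_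
    simp
  have hspan1 : ∀ M : Submodule ℝ V, (∀ u ∈ M, ∃ c : ℝ, u = c • e) → Module.finrank ℝ M ≤ 1 := by
    intro M hM
    have hle : M ≤ Submodule.span ℝ {e} := by
      intro u hu
      obtain ⟨c, rfl⟩ := hM u hu
      exact Submodule.smul_mem _ _ (Submodule.mem_span_singleton_self e)
    calc Module.finrank ℝ M ≤ Module.finrank ℝ (Submodule.span ℝ {e}) :=
          Submodule.finrank_mono hle
      _ ≤ 1 := hspan0
  have hdQ : 2 ≤ Module.finrank ℝ Q := by
    have h1 := LinearMap.BilinForm.finrank_orthogonal hnd W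
    have h2 : Module.finrank ℝ W ≤ 3 := by
      have := Submodule.finrank_add_le_finrank_add_finrank P (Submodule.span ℝ {e})
      rw [← hW] at this
      omega
    rw [← hQ] at h1
    omega
  set RA : ℕ → Prop := fun r => ∃ u ∈ P, ω u (U r) ≠ 0 with hRA
  set RQ : ℕ → Prop := fun r => ∃ w ∈ Q, ω w (U r) ≠ 0 with hRQ
  have hdisj : ∀ r, 1 ≤ r → r ≤ j → RA r → RQ r → False := by
    rintro r hr1 hrj ⟨u, hu, hu'⟩ ⟨w, hw, hw'⟩
    have := h1 u hu w ((memQ w).1 hw).1 ((memQ w).1 hw).2 r hr1 hrj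
    exact (mul_ne_zero hu' hw') this
  have hjA : RA j := by
    by_contra hj
    have hex : ∃ r, 1 ≤ r ∧ r ≤ j ∧ RA r := by
      by_contra hno
      push Not at hno
      have : Module.finrank ℝ P ≤ 1 := hspan1 P fun u hu => h2 u (hPe u hu) fun r h1r hrj => by
        by_contra hne
        exact hno r h1r hrj ⟨u, hu, hne⟩
      omega
    obtain ⟨r, hr1, hrj, hr⟩ := hex
    obtain ⟨c, hc⟩ := fin_key ω anti e j U hU h2 h3 RA (by
      intro s t hs1 hsj ht1 htj hns ht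
      have hUs : U s ∈ Q := by
        rw [memQ]
        refine ⟨hU s hs1 hsj, fun p hp => ?_⟩
        by_contra hne
        exact hns ⟨p, hp, hne⟩
      by_contra hne
      exact hdisj t ht1 htj ht ⟨U s, hUs, hne⟩) hj r hr1 hrj hr
    obtain ⟨u, hu, hne⟩ := hr
    apply hne
    rw [hc, map_smul, hPe u hu, smul_zero]
  have hjQ : RQ j := by
    by_contra hj
    have hex : ∃ r, 1 ≤ r ∧ r ≤ j ∧ RQ r := by
      by_contra hno
      push Not at hno
      have : Module.finrank ℝ Q ≤ 1 := hspan1 Q fun w hw => h2 w ((memQ w).1 hw).1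
        fun r h1r hrj => by
          by_contra hne
          exact hno r h1r hrj ⟨w, hw, hne⟩
      omega
    obtain ⟨r, hr1, hrj, hr⟩ := hex
    obtain ⟨c, hc⟩ := fin_key ω anti e j U hU h2 h3 RQ (by
      intro s t hs1 hsj ht1 htj hns ht
      have hUs : U s ∈ W := by
        apply hWQ
        intro w hw
        by_contra hne
        exact hns ⟨w, hw, hne⟩
      obtain ⟨p, hp, q, hq, hpq⟩ := Submodule.mem_sup.1 hUs
      obtain ⟨d, rfl⟩ := Submodule.mem_span_singleton.1 hq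
      rw [← hpq]
      have h5 : ω e (U t) = 0 := by rw [anti, hU t ht1 htj, neg_zero]
      have h6 : ω p (U t) = 0 := by
        by_contra hne
        exact hdisj t ht1 htj ⟨p, hp, hne⟩ ht
      simp [h5, h6]) hj r hr1 hrj hr
    obtain ⟨w, hw, hne⟩ := hr
    apply hne
    rw [hc, map_smul, ((memQ w).1 hw).1, smul_zero]
  have hj1 : 1 ≤ j := by
    by_contra h0
    have hj0 : j = 0 := by omega
    -- no index: everything in `e^⊥` is a multiple of `e`
    have : Module.finrank ℝ P ≤ 1 := hspan1 P fun u hu => h2 u (hPe u hu) fun r h1r hrj => by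
      omega
    omega
  exact hdisj j hj1 le_rfl hjA hjQ

end Pool.Agent.TP
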