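import Pool.Agent.Lib_helper53.TP.WDefs
import Pool.Agent.Lib_helper53.TP.B.FLP

/-! Block FL1. -/

namespace Pool.Agent.TP

open Set Complex Finset

theorem fl1_ne {D : Type} {c : Comb D} {v : D → ℂ} (ok : IsTS c v) (d : D) : d ≠ c.opp d := by
  intro h
  have h2 := ok.opp_neg d
  rw [← h] at h2
  have h3 : v d = 0 := by
    have : (2 : ℂ) * v d = 0 := by linear_combination h2
    simpa using this
  have h4 := ok.pos d
  simp [cross, h3] at h4

theorem fl1_sum {D : Type} [Fintype D] (ν : ℂ → ℝ) (hν : ∀ z, ν (-z) = ν z) {c c' : Comb D}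
    {v v' : D → ℂ} {d : D} (ok : IsTS c v) (ok' : IsTS c' v') (H : IsFlip c v d c' v') :
    ∑ x, ν (v' x) = ∑ x, ν (v x) - 2 * ν (v d) + 2 * ν (v' d) := by
  classical
  have h1 : ∑ x, (ν (v' x) - ν (v x)) = ∑ x ∈ ({d, c.opp d} : Finset D), (ν (v' x) - ν (v x)) := by
    symm
    apply Finset.sum_subset (Finset.subset_univ _)
    intro x _ hx
    simp only [Finset.mem_insert, Finset.mem_singleton, not_or] at hx
    rw [H.vec x hx.1 hx.2, sub_self]
  rw [Finset.sum_sub_distrib, Finset.sum_pair (fl1_ne ok d)] at h1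
  have h2 := ok'.opp_neg d
  rw [H.opp_eq] at h2
  rw [h2, ok.opp_neg, hν, hν] at h1
  linarith

theorem fl1_vec0 (z B E : ℂ) (h1 : 0 < cross z B) (h2 : 0 < cross E z) (hz : 0 < z.im)
    (hB : 0 < B.im) (hB' : B.im < z.im) (hE : 0 ≤ E.im) (hE' : E.im ≤ z.im) :
    0 < cross E B ∧ 0 < cross (B - z) (E - z) ∧ |B.im - E.im| < |z.im| := by
  refine ⟨?_, ?_, ?_⟩
  · have e : cross E B * z.im = cross E z * B.im + cross z B * E.im := by
      simp only [cross]; ring
    have : 0 < cross E B * z.im := by
      rw [e]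
      have := mul_pos h2 hB
      have := mul_nonneg h1.le hE
      linarith
    exact (mul_pos_iff_of_pos_right hz).1 this
  · have e : cross (B - z) (E - z) * z.im =
        cross z B * (z.im - E.im) + cross E z * (z.im - B.im) := by
      simp only [cross, sub_re, sub_im]; ring
    have : 0 < cross (B - z) (E - z) * z.im := by
      rw [e]
      have := mul_pos h2 (sub_pos.2 hB')
      have := mul_nonneg h1.le (sub_nonneg.2 hE')
      linarith
    exact (mul_pos_iff_of_pos_right hz).1 this
  · rw [abs_of_pos hz, abs_lt]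
    constructor <;> linarith

theorem fl1_vec (z B E : ℂ) (h1 : 0 < cross z B) (h2 : 0 < cross E z) (hz : z.im ≠ 0)
    (hB : B.im ≠ 0) (hBz : B.im ≠ z.im) (hb1 : |B.im| ≤ |z.im|) (hb2 : |B.im - z.im| ≤ |z.im|)
    (he : E.im = 0 ∨ E.im = z.im ∨ (|E.im| ≤ |z.im| ∧ |E.im - z.im| ≤ |z.im|)) :
    0 < cross E B ∧ 0 < cross (B - z) (E - z) ∧ |B.im - E.im| < |z.im| := by
  rcases lt_or_gt_of_ne hz with h | h
  · have key := fl1_vec0 (-z) (-B) (-E) (by simpa [cross] using h1) (by simpa [cross] using h2)
      (by simpa using h) ?_ ?_ ?_ ?_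
    · refine ⟨by simpa [cross] using key.1, ?_, ?_⟩
      · have := key.2.1
        simp only [cross, sub_re, sub_im, neg_re, neg_im] at this ⊢
        linarith
      · have := key.2.2
        rw [neg_im, neg_im, neg_im, abs_neg, ← abs_neg, neg_sub_neg, neg_sub] at this
        linarith
    · rw [abs_of_neg h, abs_le] at hb2
      rw [neg_im]
      have : B.im ≤ 0 := by linarith [hb2.1, hb2.2]
      rcases lt_or_eq_of_le this with h' | h'
      · linarith
      · exact absurd h' hB
    · rw [abs_of_neg h, abs_le] at hb1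
      rw [neg_im, neg_im]
      have : z.im ≤ B.im := by linarith [hb1.1, hb1.2]
      rcases lt_or_eq_of_le this with h' | h'
      · linarith
      · exact absurd h'.symm hBz
    · rw [neg_im]
      rcases he with he | he | ⟨he1, he2⟩
      · linarith
      · linarith
      · rw [abs_of_neg h, abs_le] at he2
        linarith [he2.1, he2.2]
    · rw [neg_im, neg_im]
      rcases he with he | he | ⟨he1, he2⟩
      · linarith
      · linarith
      · rw [abs_of_neg h, abs_le] at he1
        linarith [he1.1, he1.2]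
  · apply fl1_vec0 z B E h1 h2 h
    · rw [abs_of_pos h, abs_le] at hb2
      have : 0 ≤ B.im := by linarith [hb2.1, hb2.2]
      rcases lt_or_eq_of_le this with h' | h'
      · exact h'
      · exact absurd h'.symm hB
    · rw [abs_of_pos h, abs_le] at hb1
      have : B.im ≤ z.im := by linarith [hb1.1, hb1.2]
      rcases lt_or_eq_of_le this with h' | h'
      · exact h'
      · exact absurd h' hBz
    · rcases he with he | he | ⟨he1, he2⟩
      · linarith
      · linarith
      · rw [abs_of_pos h, abs_le] at he2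
        linarith [he2.1, he2.2]
    · rcases he with he | he | ⟨he1, he2⟩
      · linarith
      · linarith
      · rw [abs_of_pos h, abs_le] at he1
        linarith [he1.1, he1.2]

theorem fl1_ind {D : Type} [Fintype D] (fin : Finite D) (ne : Nonempty D) : ∀ N : ℕ,
    ∀ (c : Comb D) (v : D → ℂ) (ok : IsTS c v), (∀ d, ∃ m n : ℤ, v d = ⟨m, n⟩) →
      ∑ d, |(v d).im| ≤ N → ∃ (c' : Comb D) (v' : D → ℂ) (ok' : IsTS c' v'),
        Conn ⟨D, fin, ne, c, v, ok⟩ ⟨D, fin, ne, c', v', ok'⟩ ∧
        (∀ d, ∃ m n : ℤ, v' d = ⟨m, n⟩) ∧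
        ∀ d, (v' d).im = 0 ∨ (v' (c'.next d)).im = 0 ∨ (v' (c'.next (c'.next d))).im = 0 := by
  classical
  intro N
  induction N with
  | zero =>
    intro c v ok hv hs
    refine ⟨c, v, ok, Conn.refl _, hv, fun d => Or.inl ?_⟩
    have h1 : ∑ d, |(v d).im| = 0 := by
      apply le_antisymm
      · simpa using hs
      · exact Finset.sum_nonneg fun _ _ => abs_nonneg _
    rw [Finset.sum_eq_zero_iff_of_nonneg (fun _ _ => abs_nonneg _)] at h1
    exact abs_eq_zero.1 (h1 d (Finset.mem_univ d))
  | succ N ih =>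
    intro c v ok hv hs
    by_cases hall : ∀ d, (v d).im = 0 ∨ (v (c.next d)).im = 0 ∨ (v (c.next (c.next d))).im = 0
    · exact ⟨c, v, ok, Conn.refl _, hv, hall⟩
    set bad : Finset D := Finset.univ.filter fun d =>
      (v d).im ≠ 0 ∧ (v (c.next d)).im ≠ 0 ∧ (v (c.next (c.next d))).im ≠ 0 with hbad
    have hmem : ∀ d, d ∈ bad ↔
        (v d).im ≠ 0 ∧ (v (c.next d)).im ≠ 0 ∧ (v (c.next (c.next d))).im ≠ 0 := by
      intro d; simp [hbad]
    have hnext : ∀ d, d ∈ bad → c.next d ∈ bad := by
      intro d hd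
      rw [hmem] at hd ⊢
      rw [c.next3]
      exact ⟨hd.2.1, hd.2.2, hd.1⟩
    have hne : bad.Nonempty := by
      push Not at hall
      obtain ⟨d, hd⟩ := hall
      exact ⟨d, (hmem d).2 hd⟩
    obtain ⟨d, hd, hmax⟩ := Finset.exists_max_image bad (fun d => |(v d).im|) hne
    have hd1 := hmax _ (hnext _ hd)
    have hd2 := hmax _ (hnext _ (hnext _ hd))
    have hd0 := (hmem d).1 hd
    obtain ⟨i0, i1, i2⟩ := hd0
    have wa := ok.sum_zero d
    have wb := ok.sum_zero (c.opp d)
    rw [ok.opp_neg] at wb
    have pa := ok.pos d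
    have pb := ok.pos (c.opp d)
    rw [ok.opp_neg] at pb
    have hwa : (v (c.next d)).im = -(v (c.next (c.next d))).im - (v d).im := by
      have := congrArg Complex.im wa
      simp only [add_im, zero_im] at this
      linarith
    have hwb : (v (c.next (c.next (c.opp d)))).im = (v d).im - (v (c.next (c.opp d))).im := by
      have := congrArg Complex.im wb
      simp only [add_im, neg_im, zero_im] at this
      linarith
    have qa : v (c.next d) = -(v (c.next (c.next d))) - v d := by linear_combination wa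
    have qb : v (c.next (c.next (c.opp d))) = v d - v (c.next (c.opp d)) := by
      linear_combination wb
    obtain ⟨k1, k2, k3⟩ := fl1_vec (v d) (-(v (c.next (c.next d)))) (v (c.next (c.opp d)))
      (by
        rw [qa] at pa
        simp only [cross, sub_re, sub_im, neg_re, neg_im] at pa ⊢
        linarith)
      (by
        simp only [cross, neg_re, neg_im] at pb ⊢
        linarith)
      i0 (by rw [neg_im]; exact neg_ne_zero.2 i2)
      (by
        intro h
        apply i1
        rw [hwa, ← h, neg_im]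
        ring)
      (by rw [neg_im, abs_neg]; exact hd2)
      (by
        have : (-(v (c.next (c.next d)))).im - (v d).im = (v (c.next d)).im := by
          rw [hwa, neg_im]
        rw [this]
        exact hd1)
      (by
        by_cases hb : c.opp d ∈ bad
        · right; right
          refine ⟨hmax _ (hnext _ hb), ?_⟩
          have := hmax _ (hnext _ (hnext _ hb))
          rw [hwb] at this
          rw [abs_sub_comm]
          exact this
        · rw [hmem] at hb
          have h0 : (v (c.opp d)).im ≠ 0 := by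
            rw [ok.opp_neg, neg_im]
            exact neg_ne_zero.2 i0
          by_cases h1 : (v (c.next (c.opp d))).im = 0
          · left; exact h1
          · right; left
            by_contra h2
            apply hb
            refine ⟨h0, h1, ?_⟩
            rw [hwb]
            intro h3
            apply h2
            linarith)
    obtain ⟨c', v', ok', H, hvd⟩ := flip_exists c v ok d
      (by
        simp only [cross, neg_re, neg_im] at k1 ⊢
        linarith)
      (by
        rw [qa, qb]
        simp only [cross, neg_re, neg_im, sub_re, sub_im] at k2 ⊢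
        linarith)
    have hsum := fl1_sum (fun z => |z.im|) (by intro z; simp) ok ok' H
    have hv'd : |(v' d).im| < |(v d).im| := by
      rw [hvd]
      have : (-(v (c.next (c.next d)) + v (c.next (c.opp d)))).im =
          (-(v (c.next (c.next d)))).im - (v (c.next (c.opp d))).im := by
        simp only [neg_im, add_im]; ring
      rw [this]
      exact k3
    have hint : ∀ x, ∃ m n : ℤ, v' x = ⟨m, n⟩ := by
      have h0 : ∃ m n : ℤ, v' d = ⟨m, n⟩ := by
        obtain ⟨m1, n1, e1⟩ := hv (c.next (c.next d))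
        obtain ⟨m2, n2, e2⟩ := hv (c.next (c.opp d))
        refine ⟨-(m1 + m2), -(n1 + n2), ?_⟩
        rw [hvd, e1, e2]
        apply Complex.ext <;> simp
      intro x
      by_cases h1 : x = d
      · rw [h1]; exact h0
      by_cases h2 : x = c.opp d
      · obtain ⟨m, n, e⟩ := h0
        refine ⟨-m, -n, ?_⟩
        have := ok'.opp_neg d
        rw [H.opp_eq] at this
        rw [h2, this, e]
        apply Complex.ext <;> simp
      · rw [H.vec x h1 h2]; exact hv x
    have hdrop : |(v' d).im| + 1 ≤ |(v d).im| := by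
      obtain ⟨m1, n1, e1⟩ := hint d
      obtain ⟨m2, n2, e2⟩ := hv d
      rw [e1, e2] at hv'd ⊢
      simp only at hv'd ⊢
      rw [← Int.cast_abs, ← Int.cast_abs, Int.cast_lt] at hv'd
      rw [← Int.cast_abs, ← Int.cast_abs]
      exact_mod_cast hv'd
    obtain ⟨c'', v'', ok'', hc, hi, hh⟩ := ih c' v' ok' hint (by
      push_cast at hs
      have := abs_nonneg (v' d).im
      linarith)
    exact ⟨c'', v'', ok'', (Conn.flip H).trans hc, hi, hh⟩

theorem fl1 (x : PS) (hx : ∀ d, ∃ m n : ℤ, x.v d = ⟨m, n⟩) :
    ∃ y : PS, Conn x y ∧ (∀ d, ∃ m n : ℤ, y.v d = ⟨m, n⟩) ∧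
      ∀ d, (y.v d).im = 0 ∨ (y.v (y.c.next d)).im = 0 ∨ (y.v (y.c.next (y.c.next d))).im = 0 := by
  obtain ⟨D, fin, ne, c, v, ok⟩ := x
  have := Fintype.ofFinite D
  obtain ⟨N, hN⟩ := exists_nat_ge (∑ d, |(v d).im|)
  obtain ⟨c', v', ok', hc, hi, hh⟩ := fl1_ind fin ne N c v ok hx hN
  exact ⟨⟨D, fin, ne, c', v', ok'⟩, hc, hi, hh⟩

end Pool.Agent.TP
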