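import Pool.Agent.Lib_helper53.TP.WDefs
import Pool.Agent.Lib_helper53.TP.B.FLP

/-! Block FL2. -/

namespace Pool.Agent.TP

open Set Complex Finset

theorem fl2_ne {D : Type} {c : Comb D} {v : D → ℂ} (ok : IsTS c v) (d : D) : d ≠ c.opp d := by
  intro h
  have h2 := ok.opp_neg d
  rw [← h] at h2
  have h3 : v d = 0 := by
    have : (2 : ℂ) * v d = 0 := by linear_combination h2
    simpa using this
  have h4 := ok.pos d
  simp [cross, h3] at h4

theorem fl2_sum {D : Type} [Fintype D] (ν : ℂ → ℝ) (hν : ∀ z, ν (-z) = ν z) {c c' : Comb D}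
    {v v' : D → ℂ} {d : D} (ok : IsTS c v) (ok' : IsTS c' v') (H : IsFlip c v d c' v') :
    ∑ x, ν (v' x) = ∑ x, ν (v x) - 2 * ν (v d) + 2 * ν (v' d) := by
  classical
  have h1 : ∑ x, (ν (v' x) - ν (v x)) = ∑ x ∈ ({d, c.opp d} : Finset D), (ν (v' x) - ν (v x)) := by
    symm
    apply Finset.sum_subset (Finset.subset_univ _)
    intro x _ hx
    simp only [Finset.mem_insert, Finset.mem_singleton, not_or] at hx
    rw [H.vec x hx.1 hx.2, sub_self]
  rw [Finset.sum_sub_distrib, Finset.sum_pair (fl2_ne ok d)] at h1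
  have h2 := ok'.opp_neg d
  rw [H.opp_eq] at h2
  rw [h2, ok.opp_neg, hν, hν] at h1
  linarith

/-- The admissible vectors. -/
def fl2G (z : ℂ) : Prop := (∃ m : ℤ, z.re = m) ∧ (z.im = 0 ∨ z.im = 1 ∨ z.im = -1) ∧
  (z.im = 0 → z.re = 1 ∨ z.re = -1)

theorem fl2_Gneg {z : ℂ} (h : fl2G z) : fl2G (-z) := by
  obtain ⟨⟨m, hm⟩, h2, h3⟩ := h
  refine ⟨⟨-m, by rw [neg_re, hm]; push_cast; rfl⟩, ?_, ?_⟩
  · rw [neg_im]
    rcases h2 with h | h | h
    · left; rw [h]; simp
    · right; right; rw [h]
    · right; left; rw [h]; simp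
  · intro h
    rw [neg_im] at h
    rcases h3 (by linarith) with h | h
    · right; rw [neg_re, h]
    · left; rw [neg_re, h]; simp

/-- The measure. -/
noncomputable def fl2n (z : ℂ) : ℝ := |z.im| * |2 * z.re * z.im - 1|

theorem fl2_nneg (z : ℂ) : fl2n (-z) = fl2n z := by
  simp only [fl2n, neg_im, neg_re, abs_neg]
  congr 2
  ring

theorem fl2_n1 {z : ℂ} (h : z.im = 1) : fl2n z = |2 * z.re - 1| := by
  simp [fl2n, h]

/-- The triangle on the left. -/
theorem fl2_left {z p q : ℂ} (hz : z.im = 1) (hp : fl2G p) (hq : fl2G q) (hs : z + p + q = 0)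
    (h1 : 0 < cross z p) (h2 : 0 < cross q z) :
    (p = -1 ∧ q = -(z - 1)) ∨ (q = 1 ∧ p = -(z + 1)) := by
  have e1 := congrArg Complex.re hs
  have e2 := congrArg Complex.im hs
  simp only [add_re, add_im, zero_re, zero_im] at e1 e2
  simp only [cross] at h1 h2
  rcases hp.2.1 with h | h | h
  · left
    rcases hp.2.2 h with h' | h'
    · rw [h, h', hz] at h1
      linarith
    · constructor
      · apply Complex.ext
        · simpa using h'
        · simpa using h
      · apply Complex.ext
        · simp only [neg_re, sub_re, one_re]; linarith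
        · simp only [neg_im, sub_im, one_im]; linarith
  · rcases hq.2.1 with g | g | g <;> linarith
  · have hq0 : q.im = 0 := by linarith
    right
    rcases hq.2.2 hq0 with h' | h'
    · constructor
      · apply Complex.ext
        · simpa using h'
        · simpa using hq0
      · apply Complex.ext
        · simp only [neg_re, add_re, one_re]; linarith
        · simp only [neg_im, add_im, one_im]; linarith
    · rw [hq0, h', hz] at h2
      linarith

/-- The triangle on the right. -/
theorem fl2_right {z p q : ℂ} (hz : z.im = 1) (hp : fl2G p) (hq : fl2G q) (hs : -z + p + q = 0)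
    (h1 : 0 < cross (-z) p) (h2 : 0 < cross q (-z)) :
    (p = 1 ∧ q = z - 1) ∨ (q = -1 ∧ p = z + 1) := by
  have e1 := congrArg Complex.re hs
  have e2 := congrArg Complex.im hs
  simp only [add_re, add_im, neg_re, neg_im, zero_re, zero_im] at e1 e2
  simp only [cross, neg_re, neg_im] at h1 h2
  rcases hp.2.1 with h | h | h
  · left
    rcases hp.2.2 h with h' | h'
    · constructor
      · apply Complex.ext
        · simpa using h'
        · simpa using h
      · apply Complex.ext
        · simp only [sub_re, one_re]; linarith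
        · simp only [sub_im, one_im]; linarith
    · rw [h, h', hz] at h1
      linarith
  · have hq0 : q.im = 0 := by linarith
    right
    rcases hq.2.2 hq0 with h' | h'
    · rw [hq0, h', hz] at h2
      linarith
    · constructor
      · apply Complex.ext
        · simpa using h'
        · simpa using hq0
      · apply Complex.ext
        · simp only [add_re, one_re]; linarith
        · simp only [add_im, one_im]; linarith
  · rcases hq.2.1 with g | g | g <;> linarith

theorem fl2_step {D : Type} [Fintype D] {c : Comb D} {v : D → ℂ} (ok : IsTS c v)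
    (hv : ∀ d, fl2G (v d)) (d : D) (w : ℂ) (hw : fl2G w)
    (hn : fl2n w + 1 ≤ fl2n (v d))
    (e : -(v (c.next (c.next d)) + v (c.next (c.opp d))) = w)
    (h1 : 0 < cross (v (c.next (c.next d))) (v (c.next (c.opp d))))
    (h2 : 0 < cross (v (c.next (c.next (c.opp d)))) (v (c.next d))) :
    ∃ (c' : Comb D) (v' : D → ℂ) (_ : IsTS c' v'), IsFlip c v d c' v' ∧ (∀ d, fl2G (v' d)) ∧
      ∑ x, fl2n (v' x) + 1 ≤ ∑ x, fl2n (v x) := by
  classical
  obtain ⟨c', v', ok', H, hvd⟩ := flip_exists c v ok d h1 h2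
  rw [e] at hvd
  refine ⟨c', v', ok', H, ?_, ?_⟩
  · intro x
    by_cases h1 : x = d
    · rw [h1, hvd]; exact hw
    by_cases h2 : x = c.opp d
    · have := ok'.opp_neg d
      rw [H.opp_eq] at this
      rw [h2, this, hvd]
      exact fl2_Gneg hw
    · rw [H.vec x h1 h2]; exact hv x
  · have := fl2_sum fl2n fl2_nneg ok ok' H
    rw [hvd] at this
    linarith

theorem fl2_ind {D : Type} [Fintype D] (fin : Finite D) (ne : Nonempty D) : ∀ N : ℕ,
    ∀ (c : Comb D) (v : D → ℂ) (ok : IsTS c v), (∀ d, fl2G (v d)) →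
      ∑ d, fl2n (v d) ≤ N → ∃ (c' : Comb D) (v' : D → ℂ) (ok' : IsTS c' v'),
        Conn ⟨D, fin, ne, c, v, ok⟩ ⟨D, fin, ne, c', v', ok'⟩ ∧
        ∀ d, v' d ∈ ({1, -1, I, -I, 1 + I, -(1 + I)} : Set ℂ) := by
  classical
  intro N
  have hnn : ∀ z, 0 ≤ fl2n z := fun z => mul_nonneg (abs_nonneg _) (abs_nonneg _)
  -- the triangles
  have tri : ∀ (c : Comb D) (v : D → ℂ) (ok : IsTS c v), (∀ d, fl2G (v d)) → ∀ d, (v d).im = 1 →
      ((v (c.next d) = -1 ∧ v (c.next (c.next d)) = -(v d - 1)) ∨
        (v (c.next (c.next d)) = 1 ∧ v (c.next d) = -(v d + 1))) ∧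
      ((v (c.next (c.opp d)) = 1 ∧ v (c.next (c.next (c.opp d))) = v d - 1) ∨
        (v (c.next (c.next (c.opp d))) = -1 ∧ v (c.next (c.opp d)) = v d + 1)) := by
    intro c v ok hv d hd
    have p3 := ok.pos (c.next (c.next d))
    rw [c.next3] at p3
    have q1 := ok.pos (c.opp d)
    have q3 := ok.pos (c.next (c.next (c.opp d)))
    have s := ok.sum_zero (c.opp d)
    rw [c.next3] at q3
    rw [ok.opp_neg] at q1 q3 s
    exact ⟨fl2_left hd (hv _) (hv _) (ok.sum_zero d) (ok.pos d) p3,
      fl2_right hd (hv _) (hv _) s q1 q3⟩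
  -- the end of the process, or a step
  have main : ∀ (c : Comb D) (v : D → ℂ) (ok : IsTS c v), (∀ d, fl2G (v d)) →
      (∀ d, v d ∈ ({1, -1, I, -I, 1 + I, -(1 + I)} : Set ℂ)) ∨
      ∃ (d : D) (c' : Comb D) (v' : D → ℂ) (_ : IsTS c' v'), IsFlip c v d c' v' ∧
        (∀ d, fl2G (v' d)) ∧ ∑ x, fl2n (v' x) + 1 ≤ ∑ x, fl2n (v x) := by
    intro c v ok hv
    set U : Finset D := Finset.univ.filter fun d => (v d).im = 1 with hU
    have hUm : ∀ d, d ∈ U ↔ (v d).im = 1 := by intro d; simp [hU]
    by_cases hmax : ∃ d ∈ U, 2 ≤ (v d).re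
    · right
      obtain ⟨d0, hd0, hr0⟩ := hmax
      obtain ⟨d, hd, hm⟩ := Finset.exists_max_image U (fun d => (v d).re) ⟨d0, hd0⟩
      have hr : 2 ≤ (v d).re := hr0.trans (hm d0 hd0)
      have hd1 := (hUm d).1 hd
      obtain ⟨tl, tr⟩ := tri c v ok hv d hd1
      have tl' : v (c.next d) = -1 ∧ v (c.next (c.next d)) = -(v d - 1) := by
        rcases tl with h | ⟨h, h'⟩
        · exact h
        · exfalso
          have h3 : v (c.opp (c.next d)) = v d + 1 := by rw [ok.opp_neg, h']; ring
          have h4 := hm (c.opp (c.next d)) ((hUm _).2 (by rw [h3]; simp [hd1]))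
          rw [h3, add_re, one_re] at h4
          linarith
      have tr' : v (c.next (c.opp d)) = 1 ∧ v (c.next (c.next (c.opp d))) = v d - 1 := by
        rcases tr with h | ⟨h, h'⟩
        · exact h
        · exfalso
          have h4 := hm (c.next (c.opp d)) ((hUm _).2 (by rw [h']; simp [hd1]))
          rw [h', add_re, one_re] at h4
          linarith
      obtain ⟨⟨m, hm1⟩, -, -⟩ := hv d
      refine ⟨d, fl2_step ok hv d (v d - 2) ?_ ?_ ?_ ?_ ?_⟩
      · refine ⟨⟨m - 2, ?_⟩, ?_, ?_⟩
        · rw [sub_re, hm1]; push_cast; simp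
        · right; left; simp [hd1]
        · intro h; simp [hd1] at h
      · rw [fl2_n1 hd1, fl2_n1 (by simp [hd1]), sub_re]
        simp only [re_ofNat]
        rw [abs_of_nonneg (a := 2 * (v d).re - 1) (by linarith)]
        rcases le_total 0 (2 * ((v d).re - 2) - 1) with h | h
        · rw [abs_of_nonneg h]; linarith
        · rw [abs_of_nonpos h]; linarith
      · rw [tl'.2, tr'.1]; ring
      · rw [tl'.2, tr'.1]
        simp [cross, hd1]
      · rw [tl'.1, tr'.2]
        simp [cross, hd1]
    by_cases hmin : ∃ d ∈ U, (v d).re ≤ -1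
    · right
      obtain ⟨d0, hd0, hr0⟩ := hmin
      obtain ⟨d, hd, hm⟩ := Finset.exists_min_image U (fun d => (v d).re) ⟨d0, hd0⟩
      have hr : (v d).re ≤ -1 := (hm d0 hd0).trans hr0
      have hd1 := (hUm d).1 hd
      obtain ⟨tl, tr⟩ := tri c v ok hv d hd1
      have tl' : v (c.next (c.next d)) = 1 ∧ v (c.next d) = -(v d + 1) := by
        rcases tl with ⟨h, h'⟩ | h
        · exfalso
          have h3 : v (c.opp (c.next (c.next d))) = v d - 1 := by rw [ok.opp_neg, h']; ring
          have h4 := hm (c.opp (c.next (c.next d))) ((hUm _).2 (by rw [h3]; simp [hd1]))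
          rw [h3, sub_re, one_re] at h4
          linarith
        · exact h
      have tr' : v (c.next (c.next (c.opp d))) = -1 ∧ v (c.next (c.opp d)) = v d + 1 := by
        rcases tr with ⟨h, h'⟩ | h
        · exfalso
          have h4 := hm (c.next (c.next (c.opp d))) ((hUm _).2 (by rw [h']; simp [hd1]))
          rw [h', sub_re, one_re] at h4
          linarith
        · exact h
      obtain ⟨⟨m, hm1⟩, -, -⟩ := hv d
      have hw : fl2G (v d + 2) := by
        refine ⟨⟨m + 2, ?_⟩, ?_, ?_⟩
        · rw [add_re, hm1]; push_cast; simp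
        · right; left; simp [hd1]
        · intro h; simp [hd1] at h
      have hr2 : (v d).re = -1 ∨ (v d).re ≤ -2 := by
        rw [hm1] at hr ⊢
        have : m ≤ -1 := by exact_mod_cast hr
        rcases lt_or_eq_of_le this with h | h
        · right
          have : m ≤ -2 := by omega
          exact_mod_cast this
        · left
          rw [h]; simp
      refine ⟨d, fl2_step ok hv d (-(v d + 2)) (fl2_Gneg hw) ?_ ?_ ?_ ?_⟩
      · rw [fl2_nneg, fl2_n1 hd1, fl2_n1 (by simp [hd1]), add_re]
        simp only [re_ofNat]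
        rw [abs_of_nonpos (a := 2 * (v d).re - 1) (by linarith)]
        rcases hr2 with h | h
        · rw [h]; norm_num
        · rw [abs_of_nonpos (by linarith)]; linarith
      · rw [tl'.1, tr'.2]; ring
      · rw [tl'.1, tr'.2]
        simp [cross, hd1]
      · rw [tl'.2, tr'.1]
        simp [cross, hd1]
    left
    have h1 : ∀ d, (v d).im = 1 → v d = I ∨ v d = 1 + I := by
      intro d hd
      push Not at hmax hmin
      have g1 := hmax d ((hUm d).2 hd)
      have g2 := hmin d ((hUm d).2 hd)
      obtain ⟨⟨m, hm1⟩, -, -⟩ := hv d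
      rw [hm1] at g1 g2
      have k1 : m < 2 := by exact_mod_cast g1
      have k2 : -1 < m := by exact_mod_cast g2
      have : m = 0 ∨ m = 1 := by omega
      rcases this with h | h
      · left
        apply Complex.ext
        · rw [hm1, h]; simp
        · rw [hd]; simp
      · right
        apply Complex.ext
        · rw [hm1, h]; simp
        · rw [hd]; simp
    intro d
    simp only [Set.mem_insert_iff, Set.mem_singleton_iff]
    rcases (hv d).2.1 with h | h | h
    · rcases (hv d).2.2 h with h' | h'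
      · left
        apply Complex.ext
        · simpa using h'
        · simpa using h
      · right; left
        apply Complex.ext
        · simpa using h'
        · simpa using h
    · rcases h1 d h with h' | h' <;> tauto
    · have h3 := h1 (c.opp d) (by rw [ok.opp_neg, neg_im, h]; simp)
      rw [ok.opp_neg] at h3
      rcases h3 with h' | h'
      · right; right; right; left
        rw [← h', neg_neg]
      · right; right; right; right; right
        rw [← h', neg_neg]
  induction N with
  | zero =>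
    intro c v ok hv hs
    rcases main c v ok hv with h | ⟨d, c', v', ok', H, h1, h2⟩
    · exact ⟨c, v, ok, Conn.refl _, h⟩
    · exfalso
      have := Finset.sum_nonneg (s := Finset.univ) (f := fun x => fl2n (v' x)) fun _ _ => hnn _
      push_cast at hs
      linarith
  | succ N ih =>
    intro c v ok hv hs
    rcases main c v ok hv with h | ⟨d, c', v', ok', H, h1, h2⟩
    · exact ⟨c, v, ok, Conn.refl _, h⟩
    · obtain ⟨c'', v'', ok'', hc, hh⟩ := ih c' v' ok' h1 (by
        push_cast at hs
        linarith)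
      exact ⟨c'', v'', ok'', (Conn.flip H).trans hc, hh⟩

theorem fl2 (x : PS) (hx : ∀ d, (∃ m : ℤ, (x.v d).re = m) ∧
      ((x.v d).im = 0 ∨ (x.v d).im = 1 ∨ (x.v d).im = -1))
    (hu : ∀ d, (x.v d).im = 0 → (x.v d).re = 1 ∨ (x.v d).re = -1) :
    ∃ y : PS, Conn x y ∧
      ∀ d, y.v d ∈ ({1, -1, I, -I, 1 + I, -(1 + I)} : Set ℂ) := by
  obtain ⟨D, fin, ne, c, v, ok⟩ := x
  have := Fintype.ofFinite D
  obtain ⟨N, hN⟩ := exists_nat_ge (∑ d, fl2n (v d))
  obtain ⟨c', v', ok', hc, hh⟩ := fl2_ind fin ne N c v ok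
    (fun d => ⟨(hx d).1, (hx d).2, hu d⟩) hN
  exact ⟨⟨D, fin, ne, c', v', ok'⟩, hc, hh⟩

end Pool.Agent.TP
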