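import Pool.Agent.Lib_helper53.TP.B.COM

/-!
# GEN: cocycles of the triangulation of an origami and pairs
-/

namespace Pool.Agent.TP

open Set Complex Finset

section
variable {S : Type} {h v : Equiv.Perm S} {tr : Tr h v}

theorem gen_o0 (s : S) : (rComb h v tr).opp (s, 0) = (v.symm s, 4) := rfl
theorem gen_o1 (s : S) : (rComb h v tr).opp (s, 1) = (h s, 5) := rfl
theorem gen_o2 (s : S) : (rComb h v tr).opp (s, 2) = (s, 3) := rfl
theorem gen_o3 (s : S) : (rComb h v tr).opp (s, 3) = (s, 2) := rfl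
theorem gen_o4 (s : S) : (rComb h v tr).opp (s, 4) = (v s, 0) := rfl
theorem gen_o5 (s : S) : (rComb h v tr).opp (s, 5) = (h.symm s, 1) := rfl
theorem gen_n0 (s : S) : (rComb h v tr).next (s, 0) = (s, 1) := rfl
theorem gen_n1 (s : S) : (rComb h v tr).next (s, 1) = (s, 2) := rfl
theorem gen_n2 (s : S) : (rComb h v tr).next (s, 2) = (s, 0) := rfl
theorem gen_n3 (s : S) : (rComb h v tr).next (s, 3) = (s, 4) := rfl
theorem gen_n4 (s : S) : (rComb h v tr).next (s, 4) = (s, 5) := rfl
theorem gen_n5 (s : S) : (rComb h v tr).next (s, 5) = (s, 3) := rfl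

/-- The values of a cocycle in terms of the pair `(a, b)`. -/
theorem gen_vals {𝕜 : Type} [Field 𝕜] (u : Z1 𝕜 (rComb h v tr)) (s : S) :
    u.1 (s, 1) = -u.1 (h s, 5) ∧ u.1 (s, 2) = -u.1 (s, 0) + u.1 (h s, 5) ∧
    u.1 (s, 3) = u.1 (s, 0) - u.1 (h s, 5) ∧ u.1 (s, 4) = -u.1 (v s, 0) ∧
    u.1 (s, 0) - u.1 (h s, 5) = -u.1 (s, 5) + u.1 (v s, 0) := by
  have a1 := u.2.1 (s, 1)
  have a2 := u.2.1 (s, 2)
  have a4 := u.2.1 (s, 4)
  have b0 := u.2.2 (s, 0)
  have b3 := u.2.2 (s, 3)
  rw [gen_o1] at a1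
  rw [gen_o2] at a2
  rw [gen_o4] at a4
  rw [gen_n0, gen_n1] at b0
  rw [gen_n3, gen_n4] at b3
  refine ⟨?_, ?_, ?_, ?_, ?_⟩
  · linear_combination a1
  · linear_combination b0 - a1
  · linear_combination a2 - b0 + a1
  · linear_combination a4
  · linear_combination b0 - a1 - a2 + b3 - a4

/-- The pair of a cocycle. -/
def genP (u : Z1 ℝ (rComb h v tr)) : Pr S := (fun s => u.1 (s, 0), fun s => -u.1 (s, 5))

theorem genP_mem (u : Z1 ℝ (rComb h v tr)) : genP u ∈ ZO h v := by
  intro s
  have := (gen_vals u s).2.2.2.2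
  simp only [genP]
  linarith

/-- The cocycle of a pair. -/
def genC (u : Pr S) : S × Fin 6 → ℝ
  | (s, 0) => u.1 s
  | (s, 1) => u.2 (h s)
  | (s, 2) => -u.1 s - u.2 (h s)
  | (s, 3) => u.1 (v s) + u.2 s
  | (s, 4) => -u.1 (v s)
  | (s, 5) => -u.2 s

theorem genC_mem {u : Pr S} (hu : u ∈ ZO h v) :
    genC (h := h) (v := v) u ∈ Z1 ℝ (rComb h v tr) := by
  constructor
  · rintro ⟨s, k⟩
    have hs := hu s
    fin_cases k
    · change genC u (v.symm s, 4) = -genC u (s, 0)
      simp [genC]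
    · change genC u (h s, 5) = -genC u (s, 1)
      simp [genC]
    · change genC u (s, 3) = -genC u (s, 2)
      simp only [genC]
      linarith
    · change genC u (s, 2) = -genC u (s, 3)
      simp only [genC]
      linarith
    · change genC u (v s, 0) = -genC u (s, 4)
      simp [genC]
    · change genC u (h.symm s, 1) = -genC u (s, 5)
      simp [genC]
  · rintro ⟨s, k⟩
    fin_cases k
    · change genC u (s, 0) + genC u (s, 1) + genC u (s, 2) = 0
      simp only [genC]; ring
    · change genC u (s, 1) + genC u (s, 2) + genC u (s, 0) = 0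
      simp only [genC]; ring
    · change genC u (s, 2) + genC u (s, 0) + genC u (s, 1) = 0
      simp only [genC]; ring
    · change genC u (s, 3) + genC u (s, 4) + genC u (s, 5) = 0
      simp only [genC]; ring
    · change genC u (s, 4) + genC u (s, 5) + genC u (s, 3) = 0
      simp only [genC]; ring
    · change genC u (s, 5) + genC u (s, 3) + genC u (s, 4) = 0
      simp only [genC]; ring

variable (tr) in
/-- Cocycles and pairs. -/
def genE : Z1 ℝ (rComb h v tr) ≃ₗ[ℝ] ↥(ZO h v) where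
  toFun u := ⟨genP u, genP_mem u⟩
  map_add' u w := by
    apply Subtype.ext
    refine Prod.ext ?_ ?_
    · funext s
      simp [genP]
    · funext s
      simp [genP]; ring
  map_smul' r u := by
    apply Subtype.ext
    refine Prod.ext ?_ ?_
    · funext s
      simp [genP]
    · funext s
      simp [genP]
  invFun u := ⟨genC (h := h) (v := v) u.1, genC_mem u.2⟩
  left_inv u := by
    apply Subtype.ext
    funext ⟨s, k⟩
    obtain ⟨c1, c2, c3, c4, c5⟩ := gen_vals u s
    fin_cases k
    · rfl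
    · change -u.1 (h s, 5) = u.1 (s, 1)
      rw [c1]
    · change -u.1 (s, 0) - -u.1 (h s, 5) = u.1 (s, 2)
      rw [c2]; ring
    · change u.1 (v s, 0) + -u.1 (s, 5) = u.1 (s, 3)
      rw [c3, c5]; ring
    · change -u.1 (v s, 0) = u.1 (s, 4)
      rw [c4]
    · change - -u.1 (s, 5) = u.1 (s, 5)
      rw [neg_neg]
  right_inv u := by
    apply Subtype.ext
    refine Prod.ext ?_ ?_
    · rfl
    · funext s
      change - -u.1.2 s = u.1.2 s
      rw [neg_neg]

theorem genE_val (u : Z1 ℝ (rComb h v tr)) : (genE tr u).1 = genP u := rfl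

theorem gen_b1 (u : Z1 ℝ (rComb h v tr)) :
    u ∈ B1 ℝ (rComb h v tr) ↔ genP u ∈ BO h v := by
  constructor
  · rintro ⟨f, h1, h2⟩
    have e3 : ∀ s, f (s, 3) = f (s, 0) := fun s => h1 (s, 2)
    have e4 : ∀ s, f (s, 2) = f (s, 4) := fun s => h1 (s, 3)
    have e5 : ∀ s, f (v s, 0) = f (s, 5) := fun s => h1 (s, 4)
    have e2 : ∀ s, f (h s, 5) = f (s, 2) := fun s => h1 (s, 1)
    have e1 : ∀ s, f (s, 1) = f (h s, 0) := by
      intro s
      have := h1 (h s, 5)
      rw [gen_o5, gen_n5, Equiv.symm_apply_apply] at this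
      rw [this, e3]
    have e4' : ∀ s, f (s, 4) = f (h (v s), 0) := by
      intro s
      have := h1 (v s, 0)
      rw [gen_o0, gen_n0, Equiv.symm_apply_apply] at this
      rw [this, e1]
    refine ⟨fun s => f (s, 0), fun s => ?_, fun s => ?_, fun s => ?_⟩
    · change f (v (h s), 0) = f (h (v s), 0)
      rw [e5, e2, e4, e4']
    · change u.1 (s, 0) = f (h s, 0) - f (s, 0)
      rw [h2, gen_n0, e1]
    · change -u.1 (s, 5) = f (v s, 0) - f (s, 0)
      rw [h2, gen_n5, e5, e3]; ring
  · rintro ⟨g, h1, h2, h3⟩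
    have h2' : ∀ s, u.1 (s, 0) = g (h s) - g s := h2
    have h3' : ∀ s, -u.1 (s, 5) = g (v s) - g s := h3
    let f : S × Fin 6 → ℝ := fun x => match x with
      | (s, 0) => g s
      | (s, 1) => g (h s)
      | (s, 2) => g (v (h s))
      | (s, 3) => g s
      | (s, 4) => g (v (h s))
      | (s, 5) => g (v s)
    refine ⟨f, ?_, ?_⟩
    · rintro ⟨s, k⟩
      fin_cases k
      · change g (v (h (v.symm s))) = g (h s)
        rw [h1, Equiv.apply_symm_apply]
      · rfl
      · rfl
      · rfl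
      · rfl
      · change g (h (h.symm s)) = g s
        rw [Equiv.apply_symm_apply]
    · rintro ⟨s, k⟩
      obtain ⟨c1, c2, c3, c4, c5⟩ := gen_vals u s
      have k1 := h3' (h s)
      have k2 := h2' (v s)
      have k3 := h1 s
      fin_cases k
      · exact h2' s
      · change u.1 (s, 1) = g (v (h s)) - g (h s)
        rw [c1, k1]
      · change u.1 (s, 2) = g s - g (v (h s))
        rw [c2]
        linear_combination -h2' s - k1
      · change u.1 (s, 3) = g (v (h s)) - g s
        rw [c3]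
        linear_combination h2' s + k1
      · change u.1 (s, 4) = g (v s) - g (v (h s))
        rw [c4, k3]
        linear_combination -k2
      · change u.1 (s, 5) = g s - g (v s)
        linear_combination -h3' s

theorem gen_map : (B1 ℝ (rComb h v tr)).map (genE tr).toLinearMap =
    (BO h v).submoduleOf (ZO h v) := by
  ext x
  constructor
  · rintro ⟨u, hu, rfl⟩
    exact (gen_b1 u).1 hu
  · intro hx
    refine ⟨(genE tr).symm x, ?_, (genE tr).apply_symm_apply x⟩
    refine (gen_b1 _).2 ?_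
    rw [← genE_val, LinearEquiv.apply_symm_apply]
    exact hx

theorem gen_main : Module.finrank ℝ (H1 ℝ (rComb h v tr)) =
      Module.finrank ℝ (↥(ZO h v) ⧸ (BO h v).submoduleOf (ZO h v)) :=
  (Submodule.Quotient.equiv _ _ (genE tr) gen_map).finrank_eq

/-- Membership in `PO`. -/
theorem gen_po (P : Submodule ℝ (H1 ℝ (rComb h v tr))) (u : Z1 ℝ (rComb h v tr)) :
    genP u ∈ PO P ↔ (B1 ℝ (rComb h v tr)).mkQ u ∈ P := by
  constructor
  · rintro ⟨w, h1, h2, h3⟩
    have : u = w := by
      apply (genE tr).injective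
      apply Subtype.ext
      refine Prod.ext ?_ ?_
      · funext s
        exact h2 s
      · funext s
        exact h3 s
    rw [this]
    exact h1
  · intro h1
    exact ⟨u, h1, fun s => rfl, fun s => rfl⟩

theorem gen_po_exists {P : Submodule ℝ (H1 ℝ (rComb h v tr))} {x : Pr S} (hx : x ∈ PO P) :
    ∃ u : Z1 ℝ (rComb h v tr), (B1 ℝ (rComb h v tr)).mkQ u ∈ P ∧ genP u = x := by
  obtain ⟨w, h1, h2, h3⟩ := hx
  exact ⟨w, h1, Prod.ext (funext fun s => (h2 s).symm) (funext fun s => (h3 s).symm)⟩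

theorem gen_add (u w : Z1 ℝ (rComb h v tr)) : genP (u + w) = genP u + genP w := by
  have := congrArg Subtype.val ((genE tr).map_add u w)
  exact this

theorem gen_smul (r : ℝ) (u : Z1 ℝ (rComb h v tr)) : genP (r • u) = r • genP u := by
  have := congrArg Subtype.val ((genE tr).map_smul r u)
  exact this

theorem gen_sub (u w : Z1 ℝ (rComb h v tr)) : genP (u - w) = genP u - genP w := by
  have := congrArg Subtype.val ((genE tr).map_sub u w)
  exact this

theorem gen_surj {x : Pr S} (hx : x ∈ ZO h v) : ∃ u : Z1 ℝ (rComb h v tr), genP u = x :=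
  ⟨(genE tr).symm ⟨x, hx⟩, by rw [← genE_val, LinearEquiv.apply_symm_apply]⟩

end

theorem finrank_rComb {S : Type} {h v : Equiv.Perm S} (tr : Tr h v) :
    Module.finrank ℝ (H1 ℝ (rComb h v tr)) =
      Module.finrank ℝ (↥(ZO h v) ⧸ (BO h v).submoduleOf (ZO h v)) :=
  gen_main

end Pool.Agent.TP
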