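import Pool.Agent.Lib_helper53.TP.WDefs

/-! Block HFL. -/

namespace Pool.Agent.TP

open Set Complex Finset

/-- The six darts of the two triangles of `d`. -/
structure HflSix {D : Type} (c : Comb D) (v : D → ℂ) (d a1 a2 b0 b1 b2 : D) : Prop where
  e1 : c.next d = a1
  e2 : c.next a1 = a2
  e3 : c.next a2 = d
  e4 : c.opp d = b0
  e5 : c.opp b0 = d
  e6 : c.next b0 = b1
  e7 : c.next b1 = b2
  e8 : c.next b2 = b0
  d1 : d ≠ a1
  d2 : d ≠ a2
  d3 : d ≠ b0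
  d4 : d ≠ b1
  d5 : d ≠ b2
  d6 : a1 ≠ a2
  d7 : a1 ≠ b0
  d8 : a1 ≠ b1
  d9 : a1 ≠ b2
  d10 : a2 ≠ b0
  d11 : a2 ≠ b1
  d12 : a2 ≠ b2
  d13 : b0 ≠ b1
  d14 : b0 ≠ b2
  d15 : b1 ≠ b2
  w0 : v b0 = - v d
  wa : v d + v a1 + v a2 = 0
  wb : v b0 + v b1 + v b2 = 0

theorem hfl_six {D : Type} (c : Comb D) (v : D → ℂ) (ok : IsTS c v) (d : D) :
    HflSix c v d (c.next d) (c.next (c.next d)) (c.opp d) (c.next (c.opp d))
      (c.next (c.next (c.opp d))) := by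
  have inj : ∀ x y, c.next x = c.next y → x = y := by
    intro x y h
    have := congrArg (fun z => c.next (c.next z)) h
    simpa only [c.next3] using this
  have ne1 : ∀ x, x ≠ c.next x := by
    intro x h
    have := ok.pos x
    rw [← h] at this
    simp [cross] at this
    linarith [mul_comm (v x).re (v x).im]
  have ne2 : ∀ x, x ≠ c.next (c.next x) := by
    intro x h
    have h3 := c.next3 x
    rw [← h] at h3
    exact ne1 x h3.symm
  have o1 : ∀ x, c.opp x ≠ x := by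
    intro x h
    have h2 := ok.opp_neg x
    rw [h] at h2
    have h3 : v x = 0 := by
      have : (2 : ℂ) * v x = 0 := by linear_combination h2
      simpa using this
    have h4 := ok.pos x
    simp [cross, h3] at h4
  have o2 : ∀ x, c.opp x ≠ c.next x := by
    intro x h
    have h2 := ok.opp_neg x
    have h4 := ok.pos x
    rw [← h, h2] at h4
    simp [cross] at h4
    linarith [mul_comm (v x).re (v x).im]
  have o3 : ∀ x, c.opp x ≠ c.next (c.next x) := by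
    intro x h
    have h2 := ok.opp_neg x
    have h4 := ok.pos (c.next (c.next x))
    rw [c.next3, ← h, h2] at h4
    simp [cross] at h4
    linarith [mul_comm (v x).re (v x).im]
  have o4 : ∀ x, c.next (c.opp x) ≠ x := by
    intro x h
    have := o2 (c.opp x)
    rw [c.opp2] at this
    exact this h.symm
  have o5 : ∀ x, c.next (c.next (c.opp x)) ≠ x := by
    intro x h
    have := o3 (c.opp x)
    rw [c.opp2] at this
    exact this h.symm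
  exact
  { e1 := rfl
    e2 := rfl
    e3 := c.next3 d
    e4 := rfl
    e5 := c.opp2 d
    e6 := rfl
    e7 := rfl
    e8 := c.next3 _
    d1 := ne1 d
    d2 := ne2 d
    d3 := fun h => o1 d h.symm
    d4 := fun h => o4 d h.symm
    d5 := fun h => o5 d h.symm
    d6 := ne1 _
    d7 := fun h => o2 d h.symm
    d8 := fun h => o1 d (inj _ _ h.symm)
    d9 := fun h => o4 d (inj _ _ h.symm)
    d10 := fun h => o3 d h.symm
    d11 := fun h => o2 d (inj _ _ h.symm)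
    d12 := fun h => o1 d (inj _ _ (inj _ _ h.symm))
    d13 := ne1 _
    d14 := ne2 _
    d15 := ne1 _
    w0 := ok.opp_neg d
    wa := ok.sum_zero d
    wb := ok.sum_zero _ }

/-- A combinatorial flip with all the names. -/
structure HflHyp {D : Type} (c c' : Comb D) (v : D → ℂ) (d a1 a2 b0 b1 b2 : D) : Prop where
  h : HflSix c v d a1 a2 b0 b1 b2
  o : ∀ x, c'.opp x = c.opp x
  n1 : c'.next b1 = d
  n2 : c'.next d = a2
  n3 : c'.next a2 = b1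
  n4 : c'.next a1 = b0
  n5 : c'.next b0 = b2
  n6 : c'.next b2 = a1
  nr : ∀ x, x ≠ d → x ≠ a1 → x ≠ a2 → x ≠ b0 → x ≠ b1 → x ≠ b2 → c'.next x = c.next x

theorem hfl_cases {D : Type} (d a1 a2 b0 b1 b2 x : D) : x = d ∨ x = a1 ∨ x = a2 ∨ x = b0 ∨ x = b1 ∨
    x = b2 ∨ (x ≠ d ∧ x ≠ a1 ∧ x ≠ a2 ∧ x ≠ b0 ∧ x ≠ b1 ∧ x ≠ b2) := by
  tauto

section
variable {D : Type} {c c' : Comb D} {v : D → ℂ} {d a1 a2 b0 b1 b2 : D}

theorem hfl_rest (h : HflSix c v d a1 a2 b0 b1 b2) (x : D)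
    (hx : x ≠ d ∧ x ≠ a1 ∧ x ≠ a2 ∧ x ≠ b0 ∧ x ≠ b1 ∧ x ≠ b2) :
    c.next x ≠ d ∧ c.next x ≠ a1 ∧ c.next x ≠ a2 ∧ c.next x ≠ b0 ∧ c.next x ≠ b1 ∧
      c.next x ≠ b2 := by
  obtain ⟨e1, e2, e3, e4, e5, e6, e7, e8, d1, d2, d3, d4, d5, d6, d7, d8, d9, d10, d11, d12, d13,
    d14, d15, w0, wa, wb⟩ := h
  have inj : ∀ x y, c.next x = c.next y → x = y := by
    intro x y h
    have := congrArg (fun z => c.next (c.next z)) h
    simpa only [c.next3] using this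
  obtain ⟨h1, h2, h3, h4, h5, h6⟩ := hx
  refine ⟨fun h => h3 (inj _ _ (h.trans e3.symm)), fun h => h1 (inj _ _ (h.trans e1.symm)),
    fun h => h2 (inj _ _ (h.trans e2.symm)), fun h => h6 (inj _ _ (h.trans e8.symm)),
    fun h => h4 (inj _ _ (h.trans e6.symm)), fun h => h5 (inj _ _ (h.trans e7.symm))⟩

theorem hfl_oppne (H : HflHyp c c' v d a1 a2 b0 b1 b2) (x : D) (h1 : x ≠ d) (h2 : x ≠ b0) :
    c.opp x ≠ d ∧ c.opp x ≠ b0 := by
  refine ⟨fun h' => h2 ?_, fun h' => h1 ?_⟩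
  · rw [← c.opp2 x, h', H.h.e4]
  · rw [← c.opp2 x, h', H.h.e5]

open Classical in
/-- Replace the values at `d` and `b0`. -/
noncomputable def hflSet (d b0 : D) (r s : ℝ) (u : D → ℝ) : D → ℝ :=
  fun x => if x = d then r else if x = b0 then s else u x

theorem hfl_set1 (d b0 : D) (r s : ℝ) (u : D → ℝ) : hflSet d b0 r s u d = r := by simp [hflSet]
theorem hfl_set2 {d b0 : D} (h : d ≠ b0) (r s : ℝ) (u : D → ℝ) :
    hflSet d b0 r s u b0 = s := by simp [hflSet, h.symm]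
theorem hfl_set3 {d b0 x : D} (h : x ≠ d) (h' : x ≠ b0) (r s : ℝ) (u : D → ℝ) :
    hflSet d b0 r s u x = u x := by simp [hflSet, h, h']

/-- The cocycle on the new triangulation. -/
theorem hfl_to (H : HflHyp c c' v d a1 a2 b0 b1 b2) {u : D → ℝ} (hu : u ∈ Z1 ℝ c) :
    hflSet d b0 (-(u a2 + u b1)) (u a2 + u b1) u ∈ Z1 ℝ c' := by
  obtain ⟨hu1, hu2⟩ := hu
  obtain ⟨h, o, n1, n2, n3, n4, n5, n6, nr⟩ := id H
  have v1 := hfl_set1 d b0 (-(u a2 + u b1)) (u a2 + u b1) u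
  have v2 := hfl_set2 h.d3 (-(u a2 + u b1)) (u a2 + u b1) u
  have vr : ∀ x, x ≠ d → x ≠ b0 → hflSet d b0 (-(u a2 + u b1)) (u a2 + u b1) u x = u x :=
    fun x h1 h2 => hfl_set3 h1 h2 _ _ _
  set w := hflSet d b0 (-(u a2 + u b1)) (u a2 + u b1) u
  have va1 := vr a1 h.d1.symm h.d7
  have va2 := vr a2 h.d2.symm h.d10
  have vb1 := vr b1 h.d4.symm h.d13.symm
  have vb2 := vr b2 h.d5.symm h.d14.symm
  have wa := hu2 d
  have wb := hu2 b0
  have w0 := hu1 d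
  rw [h.e1, h.e2] at wa
  rw [h.e6, h.e7] at wb
  rw [h.e4] at w0
  refine ⟨?_, ?_⟩
  · intro x
    rw [o]
    by_cases hx : x = d
    · rw [hx, h.e4, v1, v2, neg_neg]
    by_cases hx' : x = b0
    · rw [hx', h.e5, v1, v2]
    obtain ⟨k1, k2⟩ := hfl_oppne H x hx hx'
    rw [vr x hx hx', vr _ k1 k2, hu1]
  · intro x
    rcases hfl_cases d a1 a2 b0 b1 b2 x with hx | hx | hx | hx | hx | hx | hx
    · rw [hx, n2, n3, v1, va2, vb1]; ring
    · rw [hx, n4, n5, v2, va1, vb2]; linear_combination wa + wb - w0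
    · rw [hx, n3, n1, v1, va2, vb1]; ring
    · rw [hx, n5, n6, v2, va1, vb2]; linear_combination wa + wb - w0
    · rw [hx, n1, n2, v1, va2, vb1]; ring
    · rw [hx, n6, n4, v2, va1, vb2]; linear_combination wa + wb - w0
    · obtain ⟨h1, h2, h3, h4, h5, h6⟩ := hx
      obtain ⟨g1, g2, g3, g4, g5, g6⟩ := hfl_rest h x ⟨h1, h2, h3, h4, h5, h6⟩
      obtain ⟨k1, k2, k3, k4, k5, k6⟩ := hfl_rest h _ ⟨g1, g2, g3, g4, g5, g6⟩
      rw [nr x h1 h2 h3 h4 h5 h6, nr _ g1 g2 g3 g4 g5 g6, vr _ h1 h4, vr _ g1 g4, vr _ k1 k4]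
      exact hu2 x

/-- The cocycle on the old triangulation. -/
theorem hfl_back (H : HflHyp c c' v d a1 a2 b0 b1 b2) {u : D → ℝ} (hu : u ∈ Z1 ℝ c') :
    hflSet d b0 (-(u a1 + u a2)) (u a1 + u a2) u ∈ Z1 ℝ c := by
  obtain ⟨hu1, hu2⟩ := hu
  obtain ⟨h, o, n1, n2, n3, n4, n5, n6, nr⟩ := id H
  have v1 := hfl_set1 d b0 (-(u a1 + u a2)) (u a1 + u a2) u
  have v2 := hfl_set2 h.d3 (-(u a1 + u a2)) (u a1 + u a2) u
  have vr : ∀ x, x ≠ d → x ≠ b0 → hflSet d b0 (-(u a1 + u a2)) (u a1 + u a2) u x = u x :=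
    fun x h1 h2 => hfl_set3 h1 h2 _ _ _
  set w := hflSet d b0 (-(u a1 + u a2)) (u a1 + u a2) u
  have va1 := vr a1 h.d1.symm h.d7
  have va2 := vr a2 h.d2.symm h.d10
  have vb1 := vr b1 h.d4.symm h.d13.symm
  have vb2 := vr b2 h.d5.symm h.d14.symm
  have wa := hu2 d
  have wb := hu2 b0
  have w0 := hu1 d
  rw [n2, n3] at wa
  rw [n5, n6] at wb
  rw [o, h.e4] at w0
  refine ⟨?_, ?_⟩
  · intro x
    by_cases hx : x = d
    · rw [hx, h.e4, v1, v2, neg_neg]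
    by_cases hx' : x = b0
    · rw [hx', h.e5, v1, v2]
    obtain ⟨k1, k2⟩ := hfl_oppne H x hx hx'
    rw [vr x hx hx', vr _ k1 k2, ← hu1, o]
  · intro x
    rcases hfl_cases d a1 a2 b0 b1 b2 x with hx | hx | hx | hx | hx | hx | hx
    · rw [hx, h.e1, h.e2, v1, va2, va1]; ring
    · rw [hx, h.e2, h.e3, v1, va1, va2]; ring
    · rw [hx, h.e3, h.e1, v1, va2, va1]; ring
    · rw [hx, h.e6, h.e7, v2, vb1, vb2]; linear_combination wa + wb - w0
    · rw [hx, h.e7, h.e8, v2, vb1, vb2]; linear_combination wa + wb - w0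
    · rw [hx, h.e8, h.e6, v2, vb1, vb2]; linear_combination wa + wb - w0
    · obtain ⟨h1, h2, h3, h4, h5, h6⟩ := hx
      obtain ⟨g1, g2, g3, g4, g5, g6⟩ := hfl_rest h x ⟨h1, h2, h3, h4, h5, h6⟩
      obtain ⟨k1, k2, k3, k4, k5, k6⟩ := hfl_rest h _ ⟨g1, g2, g3, g4, g5, g6⟩
      rw [vr _ h1 h4, vr _ g1 g4, vr _ k1 k4, ← nr _ g1 g2 g3 g4 g5 g6, ← nr x h1 h2 h3 h4 h5 h6]
      exact hu2 x

/-- The isomorphism of the spaces of cocycles. -/
noncomputable def hflEquiv (H : HflHyp c c' v d a1 a2 b0 b1 b2) : Z1 ℝ c ≃ₗ[ℝ] Z1 ℝ c' where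
  toFun u := ⟨_, hfl_to H u.2⟩
  invFun u := ⟨_, hfl_back H u.2⟩
  map_add' := by
    intro u w
    ext x
    simp only [hflSet, Submodule.coe_add, Pi.add_apply]
    split_ifs <;> ring
  map_smul' := by
    intro r u
    ext x
    simp only [hflSet, SetLike.val_smul, Pi.smul_apply, smul_eq_mul, RingHom.id_apply]
    split_ifs <;> ring
  left_inv := by
    intro u
    have h := H.h
    have wa := u.2.2 d
    have w0 := u.2.1 d
    rw [h.e1, h.e2] at wa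
    rw [h.e4] at w0
    ext x
    by_cases hx : x = d
    · rw [hx]
      simp only [hfl_set1, hfl_set3 h.d1.symm h.d7, hfl_set3 h.d2.symm h.d10]
      linear_combination -wa
    by_cases hx' : x = b0
    · rw [hx']
      simp only [hfl_set2 h.d3, hfl_set3 h.d1.symm h.d7, hfl_set3 h.d2.symm h.d10]
      linear_combination wa - w0
    · simp only [hfl_set3 hx hx']
  right_inv := by
    intro u
    have h := H.h
    have wa := u.2.2 d
    have w0 := u.2.1 d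
    rw [H.n2, H.n3] at wa
    rw [H.o, h.e4] at w0
    ext x
    by_cases hx : x = d
    · rw [hx]
      simp only [hfl_set1, hfl_set3 h.d4.symm h.d13.symm, hfl_set3 h.d2.symm h.d10]
      linear_combination -wa
    by_cases hx' : x = b0
    · rw [hx']
      simp only [hfl_set2 h.d3, hfl_set3 h.d4.symm h.d13.symm, hfl_set3 h.d2.symm h.d10]
      linear_combination wa - w0
    · simp only [hfl_set3 hx hx']

theorem hfl_b1 (H : HflHyp c c' v d a1 a2 b0 b1 b2) (u : Z1 ℝ c) (hu : u ∈ B1 ℝ c) :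
    hflEquiv H u ∈ B1 ℝ c' := by
  obtain ⟨f, hf1, hf2⟩ := hu
  obtain ⟨h, o, n1, n2, n3, n4, n5, n6, nr⟩ := id H
  have v1 := hfl_set1 d b0 (-(u.1 a2 + u.1 b1)) (u.1 a2 + u.1 b1) u.1
  have v2 := hfl_set2 h.d3 (-(u.1 a2 + u.1 b1)) (u.1 a2 + u.1 b1) u.1
  have vr : ∀ x, x ≠ d → x ≠ b0 →
      hflSet d b0 (-(u.1 a2 + u.1 b1)) (u.1 a2 + u.1 b1) u.1 x = u.1 x :=
    fun x h1 h2 => hfl_set3 h1 h2 _ _ _
  have g1 := hfl_set1 d b0 (f b2) (f a2) f
  have g2 := hfl_set2 h.d3 (f b2) (f a2) f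
  have gr : ∀ x, x ≠ d → x ≠ b0 → hflSet d b0 (f b2) (f a2) f x = f x :=
    fun x h1 h2 => hfl_set3 h1 h2 _ _ _
  have e : ∀ x, (hflEquiv H u).1 x = hflSet d b0 (-(u.1 a2 + u.1 b1)) (u.1 a2 + u.1 b1) u.1 x :=
    fun x => rfl
  have p1 := hf1 d
  have p2 := hf1 b0
  rw [h.e4, h.e1] at p1
  rw [h.e5, h.e6] at p2
  have q1 := hf1 a1
  have q2 := hf1 a2
  have q3 := hf1 b1
  have q4 := hf1 b2
  rw [h.e2] at q1
  rw [h.e3] at q2
  rw [h.e7] at q3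
  rw [h.e8] at q4
  have r0 := hf2 d
  have r1 := hf2 a1
  have r2 := hf2 a2
  have r3 := hf2 b0
  have r4 := hf2 b1
  have r5 := hf2 b2
  rw [h.e1] at r0
  rw [h.e2] at r1
  rw [h.e3] at r2
  rw [h.e6] at r3
  rw [h.e7] at r4
  rw [h.e8] at r5
  have opp3 : ∀ x, x ≠ d → x ≠ b0 → hflSet d b0 (f b2) (f a2) f (c'.opp x) = f (c.opp x) := by
    intro x h1 h2
    obtain ⟨k1, k2⟩ := hfl_oppne H x h1 h2
    rw [o, gr _ k1 k2]
  have ga1 := gr a1 h.d1.symm h.d7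
  have ga2 := gr a2 h.d2.symm h.d10
  have gb1 := gr b1 h.d4.symm h.d13.symm
  have gb2 := gr b2 h.d5.symm h.d14.symm
  refine ⟨hflSet d b0 (f b2) (f a2) f, ?_, ?_⟩
  · intro x
    rcases hfl_cases d a1 a2 b0 b1 b2 x with hx | hx | hx | hx | hx | hx | hx
    · rw [hx, o, h.e4, n2, g2, ga2]
    · rw [hx, opp3 _ h.d1.symm h.d7, n4, g2, q1]
    · rw [hx, opp3 _ h.d2.symm h.d10, n3, gb1, q2, p2]
    · rw [hx, o, h.e5, n5, g1, gb2]
    · rw [hx, opp3 _ h.d4.symm h.d13.symm, n1, g1, q3]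
    · rw [hx, opp3 _ h.d5.symm h.d14.symm, n6, ga1, q4, p1]
    · obtain ⟨h1, h2, h3, h4, h5, h6⟩ := hx
      obtain ⟨k1, k2, k3, k4, k5, k6⟩ := hfl_rest h x ⟨h1, h2, h3, h4, h5, h6⟩
      rw [opp3 _ h1 h4, nr x h1 h2 h3 h4 h5 h6, gr _ k1 k4, hf1]
  · intro x
    rw [e]
    rcases hfl_cases d a1 a2 b0 b1 b2 x with hx | hx | hx | hx | hx | hx | hx
    · rw [hx, v1, n2, g1, ga2]; linear_combination -r2 - r4 - p2
    · rw [hx, vr _ h.d1.symm h.d7, n4, g2, ga1]; linear_combination r1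
    · rw [hx, vr _ h.d2.symm h.d10, n3, gb1, ga2]; linear_combination r2 + p2
    · rw [hx, v2, n5, g2, gb2]; linear_combination r2 + r4 + p2
    · rw [hx, vr _ h.d4.symm h.d13.symm, n1, g1, gb1]; linear_combination r4
    · rw [hx, vr _ h.d5.symm h.d14.symm, n6, ga1, gb2]; linear_combination r5 + p1
    · obtain ⟨h1, h2, h3, h4, h5, h6⟩ := hx
      obtain ⟨k1, k2, k3, k4, k5, k6⟩ := hfl_rest h x ⟨h1, h2, h3, h4, h5, h6⟩
      rw [vr _ h1 h4, nr x h1 h2 h3 h4 h5 h6, gr _ k1 k4, gr _ h1 h4, hf2]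

theorem hfl_b1' (H : HflHyp c c' v d a1 a2 b0 b1 b2) (u : Z1 ℝ c') (hu : u ∈ B1 ℝ c') :
    (hflEquiv H).symm u ∈ B1 ℝ c := by
  obtain ⟨f, hf1, hf2⟩ := hu
  obtain ⟨h, o, n1, n2, n3, n4, n5, n6, nr⟩ := id H
  have v1 := hfl_set1 d b0 (-(u.1 a1 + u.1 a2)) (u.1 a1 + u.1 a2) u.1
  have v2 := hfl_set2 h.d3 (-(u.1 a1 + u.1 a2)) (u.1 a1 + u.1 a2) u.1
  have vr : ∀ x, x ≠ d → x ≠ b0 →
      hflSet d b0 (-(u.1 a1 + u.1 a2)) (u.1 a1 + u.1 a2) u.1 x = u.1 x :=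
    fun x h1 h2 => hfl_set3 h1 h2 _ _ _
  have g1 := hfl_set1 d b0 (f b1) (f a1) f
  have g2 := hfl_set2 h.d3 (f b1) (f a1) f
  have gr : ∀ x, x ≠ d → x ≠ b0 → hflSet d b0 (f b1) (f a1) f x = f x :=
    fun x h1 h2 => hfl_set3 h1 h2 _ _ _
  have e : ∀ x, ((hflEquiv H).symm u).1 x =
      hflSet d b0 (-(u.1 a1 + u.1 a2)) (u.1 a1 + u.1 a2) u.1 x :=
    fun x => rfl
  have p1 := hf1 d
  have p2 := hf1 b0
  rw [o, h.e4, n2] at p1
  rw [o, h.e5, n5] at p2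
  have q1 := hf1 a1
  have q2 := hf1 a2
  have q3 := hf1 b1
  have q4 := hf1 b2
  rw [o, n4] at q1
  rw [o, n3] at q2
  rw [o, n1] at q3
  rw [o, n6] at q4
  have r0 := hf2 d
  have r1 := hf2 a1
  have r2 := hf2 a2
  have r3 := hf2 b0
  have r4 := hf2 b1
  have r5 := hf2 b2
  rw [n2] at r0
  rw [n4] at r1
  rw [n3] at r2
  rw [n5] at r3
  rw [n1] at r4
  rw [n6] at r5
  have opp3 : ∀ x, x ≠ d → x ≠ b0 → hflSet d b0 (f b1) (f a1) f (c.opp x) = f (c'.opp x) := by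
    intro x h1 h2
    obtain ⟨k1, k2⟩ := hfl_oppne H x h1 h2
    rw [o, gr _ k1 k2]
  have ga1 := gr a1 h.d1.symm h.d7
  have ga2 := gr a2 h.d2.symm h.d10
  have gb1 := gr b1 h.d4.symm h.d13.symm
  have gb2 := gr b2 h.d5.symm h.d14.symm
  refine ⟨hflSet d b0 (f b1) (f a1) f, ?_, ?_⟩
  · intro x
    rcases hfl_cases d a1 a2 b0 b1 b2 x with hx | hx | hx | hx | hx | hx | hx
    · rw [hx, h.e4, h.e1, g2, ga1]
    · rw [hx, opp3 _ h.d1.symm h.d7, h.e2, ga2, o, q1, p1]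
    · rw [hx, opp3 _ h.d2.symm h.d10, h.e3, g1, o, q2]
    · rw [hx, h.e5, h.e6, g1, gb1]
    · rw [hx, opp3 _ h.d4.symm h.d13.symm, h.e7, gb2, o, q3, p2]
    · rw [hx, opp3 _ h.d5.symm h.d14.symm, h.e8, g2, o, q4]
    · obtain ⟨h1, h2, h3, h4, h5, h6⟩ := hx
      obtain ⟨k1, k2, k3, k4, k5, k6⟩ := hfl_rest h x ⟨h1, h2, h3, h4, h5, h6⟩
      rw [opp3 _ h1 h4, gr _ k1 k4, hf1, nr x h1 h2 h3 h4 h5 h6]
  · intro x
    rw [e]
    rcases hfl_cases d a1 a2 b0 b1 b2 x with hx | hx | hx | hx | hx | hx | hx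
    · rw [hx, v1, h.e1, g1, ga1]; linear_combination -r1 - r2 - p1
    · rw [hx, vr _ h.d1.symm h.d7, h.e2, ga2, ga1]; linear_combination r1 + p1
    · rw [hx, vr _ h.d2.symm h.d10, h.e3, g1, ga2]; linear_combination r2
    · rw [hx, v2, h.e6, g2, gb1]; linear_combination r1 + r2 + p1
    · rw [hx, vr _ h.d4.symm h.d13.symm, h.e7, gb2, gb1]; linear_combination r4 + p2
    · rw [hx, vr _ h.d5.symm h.d14.symm, h.e8, g2, gb2]; linear_combination r5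
    · obtain ⟨h1, h2, h3, h4, h5, h6⟩ := hx
      obtain ⟨k1, k2, k3, k4, k5, k6⟩ := hfl_rest h x ⟨h1, h2, h3, h4, h5, h6⟩
      rw [vr _ h1 h4, gr _ k1 k4, gr _ h1 h4, hf2, nr x h1 h2 h3 h4 h5 h6]

theorem hfl_main (H : HflHyp c c' v d a1 a2 b0 b1 b2) :
    Module.finrank ℝ (H1 ℝ c) = Module.finrank ℝ (H1 ℝ c') := by
  refine LinearEquiv.finrank_eq (Submodule.Quotient.equiv (B1 ℝ c) (B1 ℝ c') (hflEquiv H) ?_)
  apply le_antisymm
  · rintro _ ⟨u, hu, rfl⟩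
    exact hfl_b1 H u hu
  · intro u hu
    exact ⟨(hflEquiv H).symm u, hfl_b1' H u hu, by simp⟩

end

theorem finrank_flip {D : Type} {c c' : Comb D} {v v' : D → ℂ} {d : D} (ok : IsTS c v)
    (ok' : IsTS c' v') (H : IsFlip c v d c' v') :
    Module.finrank ℝ (H1 ℝ c) = Module.finrank ℝ (H1 ℝ c') :=
  hfl_main ⟨hfl_six c v ok d, H.opp_eq, H.n1, H.n2, H.n3, H.n4, H.n5, H.n6, H.rest⟩

theorem finrank_iso {D D' : Type} {c : Comb D} {c' : Comb D'} {v : D → ℂ} {v' : D' → ℂ}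
    (H : IsIso c v c' v') : Module.finrank ℝ (H1 ℝ c) = Module.finrank ℝ (H1 ℝ c') := by
  obtain ⟨e, hn, ho, -⟩ := H
  have hn' : ∀ x, c.next (e.symm x) = e.symm (c'.next x) := by
    intro x
    rw [Equiv.eq_symm_apply, ← hn, Equiv.apply_symm_apply]
  have ho' : ∀ x, c.opp (e.symm x) = e.symm (c'.opp x) := by
    intro x
    rw [Equiv.eq_symm_apply, ← ho, Equiv.apply_symm_apply]
  let Φ : Z1 ℝ c ≃ₗ[ℝ] Z1 ℝ c' :=
    { toFun := fun u => ⟨fun x => u.1 (e.symm x), by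
        refine ⟨fun x => ?_, fun x => ?_⟩
        · beta_reduce; rw [← ho']; exact u.2.1 _
        · beta_reduce; rw [← hn', ← hn', ← hn']; exact u.2.2 _⟩
      invFun := fun u => ⟨fun x => u.1 (e x), by
        refine ⟨fun x => ?_, fun x => ?_⟩
        · beta_reduce; rw [← ho]; exact u.2.1 _
        · beta_reduce; rw [← hn, ← hn, ← hn]; exact u.2.2 _⟩
      map_add' := fun u w => rfl
      map_smul' := fun r u => rfl
      left_inv := fun u => by ext x; simp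
      right_inv := fun u => by ext x; simp }
  refine LinearEquiv.finrank_eq (Submodule.Quotient.equiv (B1 ℝ c) (B1 ℝ c') Φ ?_)
  apply le_antisymm
  · rintro _ ⟨u, ⟨f, hf1, hf2⟩, rfl⟩
    refine ⟨fun x => f (e.symm x), fun x => ?_, fun x => ?_⟩
    · change f (e.symm (c'.opp x)) = f (e.symm (c'.next x))
      rw [← ho', ← hn', hf1]
    · change u.1 (e.symm x) = f (e.symm (c'.next x)) - f (e.symm x)
      rw [← hn', hf2]
  · rintro u ⟨f, hf1, hf2⟩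
    refine ⟨Φ.symm u, ⟨fun x => f (e x), fun x => ?_, fun x => ?_⟩, by simp⟩
    · change f (e (c.opp x)) = f (e (c.next x))
      rw [← ho, ← hn, hf1]
    · change u.1 (e x) = f (e (c.next x)) - f (e x)
      rw [← hn, hf2]

end Pool.Agent.TP
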