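import Pool.Agent.Lib_helper53.TP.WDefs

namespace Pool.Agent.TP

open Set Complex Finset

/-- The interpolation of the height. -/
noncomputable def hgtI (t x : ℝ) : ℝ := (1 - t) * x + t * Real.sign x

theorem hgt_neg (t x : ℝ) : hgtI t (-x) = -hgtI t x := by
  simp [hgtI, Real.sign_neg]; ring

theorem hgt_zero (t : ℝ) : hgtI t 0 = 0 := by simp [hgtI]

theorem hgt_pos {t : ℝ} (h0 : 0 ≤ t) (h1 : t ≤ 1) (x : ℝ) :
    ∃ μ : ℝ, 0 < μ ∧ hgtI t x = μ * x ∧ hgtI t (-x) = μ * -x := by
  rcases lt_trichotomy x 0 with h | h | h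
  · refine ⟨(1 - t) + t / (-x), ?_, ?_, ?_⟩
    · have hx : 0 < -x := by linarith
      rcases eq_or_lt_of_le h0 with ht | ht
      · rw [← ht]; simp
      · have := div_pos ht hx
        linarith
    · have hx : x ≠ 0 := h.ne
      simp only [hgtI, Real.sign_of_neg h]
      field_simp
    · have hx : x ≠ 0 := h.ne
      rw [hgt_neg]; simp only [hgtI, Real.sign_of_neg h]
      field_simp
  · exact ⟨1, one_pos, by rw [h, hgt_zero]; ring, by rw [h, neg_zero, hgt_zero]; ring⟩
  · refine ⟨(1 - t) + t / x, ?_, ?_, ?_⟩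
    · rcases eq_or_lt_of_le h0 with ht | ht
      · rw [← ht]; simp
      · have := div_pos ht h
        linarith
    · simp only [hgtI, Real.sign_of_pos h]
      field_simp
    · rw [hgt_neg]; simp only [hgtI, Real.sign_of_pos h]
      field_simp

/-- In each triangle the heights are multiplied by the same positive number. -/
theorem hgt_tri {t : ℝ} (h0 : 0 ≤ t) (h1 : t ≤ 1) {a b c : ℝ} (hs : a + b + c = 0)
    (h : a = 0 ∨ b = 0 ∨ c = 0) :
    ∃ μ : ℝ, 0 < μ ∧ hgtI t a = μ * a ∧ hgtI t b = μ * b ∧ hgtI t c = μ * c := by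
  rcases h with h | h | h
  · obtain ⟨μ, k0, k1, k2⟩ := hgt_pos h0 h1 b
    refine ⟨μ, k0, by rw [h, hgt_zero, mul_zero], k1, ?_⟩
    have : c = -b := by linarith
    rw [this]; exact k2
  · obtain ⟨μ, k0, k1, k2⟩ := hgt_pos h0 h1 a
    refine ⟨μ, k0, k1, by rw [h, hgt_zero, mul_zero], ?_⟩
    have : c = -a := by linarith
    rw [this]; exact k2
  · obtain ⟨μ, k0, k1, k2⟩ := hgt_pos h0 h1 a
    refine ⟨μ, k0, k1, ?_, by rw [h, hgt_zero, mul_zero]⟩
    have : b = -a := by linarith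
    rw [this]; exact k2

theorem hgt (x : PS) (hx : ∀ d, ∃ m n : ℤ, x.v d = ⟨m, n⟩)
    (h0 : ∀ d, (x.v d).im = 0 ∨ (x.v (x.c.next d)).im = 0 ∨
      (x.v (x.c.next (x.c.next d))).im = 0) :
    ∃ y : PS, Conn x y ∧ ∀ d, (∃ m : ℤ, (y.v d).re = m) ∧
      ((y.v d).im = 0 ∨ (y.v d).im = 1 ∨ (y.v d).im = -1) := by
  obtain ⟨D, fin, ne, c, v, ok⟩ := x
  simp only at hx h0
  let γ : ℝ → D → ℂ := fun t d => ⟨(v d).re, hgtI t (v d).im⟩
  have hγ : ∀ t ∈ Icc (0 : ℝ) 1, IsTS c (γ t) := by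
    rintro t ⟨t0, t1⟩
    refine ⟨fun d => ?_, fun d => ?_, fun d => ?_⟩
    · apply Complex.ext
      · simp [γ, ok.opp_neg d]
      · simp [γ, ok.opp_neg d, hgt_neg]
    · have hs := congrArg Complex.im (ok.sum_zero d)
      simp only [add_im, zero_im] at hs
      obtain ⟨μ, _, k1, k2, k3⟩ := hgt_tri t0 t1 hs (h0 d)
      apply Complex.ext
      · have := congrArg Complex.re (ok.sum_zero d)
        simpa [γ] using this
      · simp only [γ, add_im, zero_im, k1, k2, k3]
        rw [← mul_add, ← mul_add, hs, mul_zero]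
    · have hs := congrArg Complex.im (ok.sum_zero d)
      simp only [add_im, zero_im] at hs
      obtain ⟨μ, k0, k1, k2, k3⟩ := hgt_tri t0 t1 hs (h0 d)
      have := ok.pos d
      simp only [cross, γ, k1, k2] at this ⊢
      have e : (v d).re * (μ * (v (c.next d)).im) - μ * (v d).im * (v (c.next d)).re =
          μ * ((v d).re * (v (c.next d)).im - (v d).im * (v (c.next d)).re) := by ring
      rw [e]
      exact mul_pos k0 this
  have hc : Continuous γ := by
    refine continuous_pi fun d => ?_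
    have : ∀ t, γ t d = ((v d).re : ℂ) + ((hgtI t (v d).im : ℝ) : ℂ) * I := by
      intro t
      apply Complex.ext <;> simp [γ]
    simp only [this, hgtI]
    fun_prop
  refine ⟨⟨D, fin, ne, c, γ 1, hγ 1 (by simp)⟩, ?_, ?_⟩
  · refine Conn.path γ hc hγ ?_ rfl
    funext d
    apply Complex.ext <;> simp [γ, hgtI]
  · intro d
    obtain ⟨m, n, hmn⟩ := hx d
    refine ⟨⟨m, by simp [γ, hmn]⟩, ?_⟩
    simp only [γ, hgtI]
    rcases lt_trichotomy (v d).im 0 with h | h | h
    · right; right; rw [Real.sign_of_neg h]; ring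
    · left; rw [h, Real.sign_zero]; ring
    · right; left; rw [Real.sign_of_pos h]; ring

end Pool.Agent.TP
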