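import Pool.Agent.Lib_helper53.TP.WDefs
import Pool.Agent.Lib_helper53.TP.B.PAI

/-! # TP, block REC (and coordinates in a parallelogram) -/

namespace Pool.Agent.TP

open Set Complex Topology

/-- first coordinate -/
noncomputable def recX (A B z : ℂ) : ℝ := cross z B / cross A B

/-- second coordinate -/
noncomputable def recY (A B z : ℂ) : ℝ := cross A z / cross A B

theorem rec_coord {A B : ℂ} (hAB : cross A B ≠ 0) (z : ℂ) :
    z = recX A B z * A + recY A B z * B := by
  have h1 : (cross A B : ℂ) ≠ 0 := by exact_mod_cast hAB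
  have h2 : (cross A B : ℂ) * z = (cross z B : ℂ) * A + (cross A z : ℂ) * B := by
    apply Complex.ext <;> simp [cross] <;> ring
  unfold recX recY
  push_cast
  field_simp
  linear_combination h2

theorem recX_apply {A B : ℂ} (hAB : cross A B ≠ 0) (x y : ℝ) :
    recX A B (x * A + y * B) = x := by
  unfold recX
  rw [div_eq_iff hAB]
  simp only [cross]
  simp
  ring

theorem recY_apply {A B : ℂ} (hAB : cross A B ≠ 0) (x y : ℝ) :
    recY A B (x * A + y * B) = y := by
  unfold recY
  rw [div_eq_iff hAB]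
  simp only [cross]
  simp
  ring

theorem recX_cont (A B : ℂ) : Continuous (recX A B) := by
  unfold recX cross
  fun_prop

theorem recY_cont (A B : ℂ) : Continuous (recY A B) := by
  unfold recY cross
  fun_prop

theorem rec_mem_para {A B : ℂ} (hAB : cross A B ≠ 0) (z : ℂ) :
    z ∈ para A B ↔ 0 ≤ recX A B z ∧ recX A B z ≤ 1 ∧ 0 ≤ recY A B z ∧ recY A B z ≤ 1 := by
  constructor
  · rintro ⟨x, y, h1, h2, h3, h4, rfl⟩
    rw [recX_apply hAB, recY_apply hAB]
    exact ⟨h1, h2, h3, h4⟩
  · rintro ⟨h1, h2, h3, h4⟩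
    exact ⟨_, _, h1, h2, h3, h4, rec_coord hAB z⟩

theorem rec_mem_opara {A B : ℂ} (hAB : cross A B ≠ 0) (z : ℂ) :
    z ∈ opara A B ↔ 0 < recX A B z ∧ recX A B z < 1 ∧ 0 < recY A B z ∧ recY A B z < 1 := by
  constructor
  · rintro ⟨x, y, h1, h2, h3, h4, rfl⟩
    rw [recX_apply hAB, recY_apply hAB]
    exact ⟨h1, h2, h3, h4⟩
  · rintro ⟨h1, h2, h3, h4⟩
    exact ⟨_, _, h1, h2, h3, h4, rec_coord hAB z⟩

theorem rec_para_closed {A B : ℂ} (hAB : cross A B ≠ 0) : IsClosed (para A B) := by
  have h : para A B = {z | 0 ≤ recX A B z} ∩ ({z | recX A B z ≤ 1} ∩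
      ({z | 0 ≤ recY A B z} ∩ {z | recY A B z ≤ 1})) := by
    ext z
    rw [rec_mem_para hAB]
    rfl
  rw [h]
  exact (isClosed_le continuous_const (recX_cont A B)).inter
    ((isClosed_le (recX_cont A B) continuous_const).inter
    ((isClosed_le continuous_const (recY_cont A B)).inter
    (isClosed_le (recY_cont A B) continuous_const)))

theorem rec_opara_open {A B : ℂ} (hAB : cross A B ≠ 0) : IsOpen (opara A B) := by
  have h : opara A B = {z | 0 < recX A B z} ∩ ({z | recX A B z < 1} ∩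
      ({z | 0 < recY A B z} ∩ {z | recY A B z < 1})) := by
    ext z
    rw [rec_mem_opara hAB]
    rfl
  rw [h]
  exact (isOpen_lt continuous_const (recX_cont A B)).inter
    ((isOpen_lt (recX_cont A B) continuous_const).inter
    ((isOpen_lt continuous_const (recY_cont A B)).inter
    (isOpen_lt (recY_cont A B) continuous_const)))

/-- gluing: a function given on two parts of a closed set -/
theorem rec_glue {P : Set ℂ} (hP : IsClosed P) {ξ : ℂ → ℝ} (hξ : Continuous ξ) {f g F : ℂ → ℂ}
    (hf : ContinuousOn f (P ∩ {z | ξ z ≤ 0})) (hg : ContinuousOn g (P ∩ {z | 0 ≤ ξ z}))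
    (h1 : ∀ z ∈ P, ξ z ≤ 0 → F z = f z) (h2 : ∀ z ∈ P, 0 ≤ ξ z → F z = g z) :
    ContinuousOn F P := by
  have hPu : P = (P ∩ {z | ξ z ≤ 0}) ∪ (P ∩ {z | 0 ≤ ξ z}) := by
    ext z
    simp only [mem_union, mem_inter_iff, mem_setOf_eq]
    constructor
    · intro hz
      rcases le_total (ξ z) 0 with h | h
      · exact Or.inl ⟨hz, h⟩
      · exact Or.inr ⟨hz, h⟩
    · rintro (h | h) <;> exact h.1
  rw [hPu]
  apply ContinuousOn.union_of_isClosed
  · exact hf.congr fun z hz => h1 z hz.1 hz.2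
  · exact hg.congr fun z hz => h2 z hz.1 hz.2
  · exact hP.inter (isClosed_le hξ continuous_const)
  · exact hP.inter (isClosed_le continuous_const hξ)

/-- gluing along a line: holomorphy -/
theorem rec_glue_hol {O : Set ℂ} (hO : IsOpen O) {ξ : ℂ → ℝ} (hξ : Continuous ξ) {f g F : ℂ → ℂ}
    (hF : ContinuousOn F O) (p E : ℂ) (hE : E ≠ 0)
    (hline : ∀ z, ξ z = 0 → cross (z - p) E = 0)
    (hf : DifferentiableOn ℂ f (O ∩ {z | ξ z < 0})) (hg : DifferentiableOn ℂ g (O ∩ {z | 0 < ξ z}))
    (h1 : ∀ z ∈ O, ξ z < 0 → F z = f z) (h2 : ∀ z ∈ O, 0 < ξ z → F z = g z) :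
    DifferentiableOn ℂ F O := by
  apply painleve hO hF p E hE
  rintro z ⟨hzO, hz⟩
  have hz0 : ξ z ≠ 0 := fun h => hz (hline z h)
  rcases lt_or_gt_of_ne hz0 with h | h
  · have hop : IsOpen (O ∩ {z | ξ z < 0}) := hO.inter (isOpen_lt hξ continuous_const)
    have hn : O ∩ {z | ξ z < 0} ∈ 𝓝 z := hop.mem_nhds ⟨hzO, h⟩
    have h3 : DifferentiableAt ℂ f z := hf.differentiableAt hn
    have h4 : F =ᶠ[𝓝 z] f := by
      filter_upwards [hn] with w hw
      exact h1 w hw.1 hw.2
    exact (h4.differentiableAt_iff.2 h3).differentiableWithinAt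
  · have hop : IsOpen (O ∩ {z | 0 < ξ z}) := hO.inter (isOpen_lt continuous_const hξ)
    have hn : O ∩ {z | 0 < ξ z} ∈ 𝓝 z := hop.mem_nhds ⟨hzO, h⟩
    have h3 : DifferentiableAt ℂ g z := hg.differentiableAt hn
    have h4 : F =ᶠ[𝓝 z] g := by
      filter_upwards [hn] with w hw
      exact h2 w hw.1 hw.2
    exact (h4.differentiableAt_iff.2 h3).differentiableWithinAt

theorem hol_rec {S : Type} (h v : Equiv.Perm S) {A B : ℂ} (hAB : cross A B ≠ 0) {a b : S → ℂ}
    (H : HolO h v A B a b) : HolO h (v * h) A (A + B) a (fun s => a s + b (h s)) := by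
  obtain ⟨F, h1, h2, h3, h4, h5⟩ := H
  have hAB' : cross A (A + B) ≠ 0 := by
    have : cross A (A + B) = cross A B := by simp [cross]; ring
    rwa [this]
  have hB : B ≠ 0 := by
    intro h
    apply hAB
    simp [h, cross]
  -- coordinates
  have hX : ∀ z, recX A B z = recX A (A + B) z + recY A (A + B) z := by
    intro z
    have e := rec_coord hAB' z
    conv_lhs => rw [e]
    have : ((recX A (A + B) z : ℝ) : ℂ) * A + ((recY A (A + B) z : ℝ) : ℂ) * (A + B) =
        ((recX A (A + B) z + recY A (A + B) z : ℝ) : ℂ) * A + ((recY A (A + B) z : ℝ) : ℂ) * B := by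
      push_cast
      ring
    rw [this, recX_apply hAB]
  have hY : ∀ z, recY A B z = recY A (A + B) z := by
    intro z
    have e := rec_coord hAB' z
    conv_lhs => rw [e]
    have : ((recX A (A + B) z : ℝ) : ℂ) * A + ((recY A (A + B) z : ℝ) : ℂ) * (A + B) =
        ((recX A (A + B) z + recY A (A + B) z : ℝ) : ℂ) * A + ((recY A (A + B) z : ℝ) : ℂ) * B := by
      push_cast
      ring
    rw [this, recY_apply hAB]
  have hXs : ∀ z, recX A B (z - A) = recX A B z - 1 := by
    intro z
    have e := rec_coord hAB z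
    conv_lhs => rw [e]
    have : ((recX A B z : ℝ) : ℂ) * A + ((recY A B z : ℝ) : ℂ) * B - A =
        ((recX A B z - 1 : ℝ) : ℂ) * A + ((recY A B z : ℝ) : ℂ) * B := by
      push_cast
      ring
    rw [this, recX_apply hAB]
  have hYs : ∀ z, recY A B (z - A) = recY A B z := by
    intro z
    have e := rec_coord hAB z
    conv_lhs => rw [e]
    have : ((recX A B z : ℝ) : ℂ) * A + ((recY A B z : ℝ) : ℂ) * B - A =
        ((recX A B z - 1 : ℝ) : ℂ) * A + ((recY A B z : ℝ) : ℂ) * B := by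
      push_cast
      ring
    rw [this, recY_apply hAB]
  classical
  set G : S → ℂ → ℂ := fun s z => if recX A B z - 1 ≤ 0 then F s z else F (h s) (z - A) + a s
    with hG
  have hG1 : ∀ s z, recX A B z - 1 ≤ 0 → G s z = F s z := by
    intro s z hz
    simp only [hG, if_pos hz]
  have hG2 : ∀ s, ∀ z ∈ para A (A + B), 0 ≤ recX A B z - 1 → G s z = F (h s) (z - A) + a s := by
    intro s z hz hz1
    by_cases hz2 : recX A B z - 1 ≤ 0
    · rw [hG1 s z hz2]
      have e1 : recX A B z = 1 := by linarith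
      rw [rec_mem_para hAB'] at hz
      have e2 := rec_coord hAB z
      rw [e1] at e2
      have e3 : z = A + (recY A B z : ℂ) * B := by
        rw [ofReal_one, one_mul] at e2
        exact e2
      have e4 := h4 s (recY A B z) (by rw [hY]; exact hz.2.2.1) (by rw [hY]; exact hz.2.2.2)
      rw [← e3] at e4
      have e5 : z - A = (recY A B z : ℂ) * B := by
        rw [sub_eq_iff_eq_add, add_comm]
        exact e3
      rw [e5, e4]
      ring
    · simp only [hG, if_neg hz2]
  have hξ : Continuous fun z => recX A B z - 1 := (recX_cont A B).sub continuous_const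
  have hcont : ∀ s, ContinuousOn (G s) (para A (A + B)) := by
    intro s
    apply rec_glue (rec_para_closed hAB') hξ (f := F s) (g := fun z => F (h s) (z - A) + a s)
    · apply (h1 s).mono
      rintro z ⟨hz1, hz2⟩
      rw [rec_mem_para hAB'] at hz1
      rw [rec_mem_para hAB, hX z, hY z]
      have hz3 : recX A B z - 1 ≤ 0 := hz2
      rw [hX z] at hz3
      exact ⟨by linarith [hz1.1, hz1.2.2.1], by linarith, hz1.2.2.1, hz1.2.2.2⟩
    · apply ContinuousOn.add _ continuousOn_const
      apply (h1 (h s)).comp (by fun_prop)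
      rintro z ⟨hz1, hz2⟩
      rw [rec_mem_para hAB'] at hz1
      rw [rec_mem_para hAB, hXs, hYs, hX z, hY z]
      have hz3 : 0 ≤ recX A B z - 1 := hz2
      rw [hX z] at hz3
      exact ⟨hz3, by linarith [hz1.2.1, hz1.2.2.2], hz1.2.2.1, hz1.2.2.2⟩
    · intro z _ hz
      exact hG1 s z hz
    · intro z hz1 hz
      exact hG2 s z hz1 hz
  have hsub : opara A (A + B) ⊆ para A (A + B) := by
    rintro z ⟨x, y, g1, g2, g3, g4, rfl⟩
    exact ⟨x, y, g1.le, g2.le, g3.le, g4.le, rfl⟩
  refine ⟨G, hcont, ?_, ?_, ?_, ?_⟩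
  · intro s
    apply rec_glue_hol (rec_opara_open hAB') hξ ((hcont s).mono hsub) A B hB (f := F s)
      (g := fun z => F (h s) (z - A) + a s)
    · intro z hz
      have hz' : recX A B z = 1 := by linarith
      unfold recX at hz'
      rw [div_eq_iff hAB, one_mul] at hz'
      have : cross (z - A) B = cross z B - cross A B := by simp [cross]; ring
      rw [this, hz', sub_self]
    · apply (h2 s).mono
      rintro z ⟨hz1, hz2⟩
      rw [rec_mem_opara hAB'] at hz1
      rw [rec_mem_opara hAB, hX z, hY z]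
      have hz3 : recX A B z - 1 < 0 := hz2
      rw [hX z] at hz3
      exact ⟨by linarith [hz1.1, hz1.2.2.1], by linarith, hz1.2.2.1, hz1.2.2.2⟩
    · apply DifferentiableOn.add _ (differentiableOn_const _)
      apply (h2 (h s)).comp (by fun_prop)
      rintro z ⟨hz1, hz2⟩
      rw [rec_mem_opara hAB'] at hz1
      rw [rec_mem_opara hAB, hXs, hYs, hX z, hY z]
      have hz3 : 0 < recX A B z - 1 := hz2
      rw [hX z] at hz3
      exact ⟨hz3, by linarith [hz1.2.1, hz1.2.2.2], hz1.2.2.1, hz1.2.2.2⟩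
    · intro z _ hz
      exact hG1 s z hz.le
    · intro z hz1 hz
      exact hG2 s z (hsub hz1) hz.le
  · intro s
    rw [hG1 s 0 (by simp [recX, cross]), h3]
  · intro s t ht0 ht1
    have e1 : ((t : ℝ) : ℂ) * (A + B) = (t : ℂ) * A + (t : ℂ) * B := by ring
    have e2 : A + ((t : ℝ) : ℂ) * (A + B) = ((1 + t : ℝ) : ℂ) * A + (t : ℂ) * B := by
      push_cast
      ring
    rw [hG1 (h s) _ (by rw [e1, recX_apply hAB]; linarith)]
    rw [hG2 s _ ⟨1, t, by norm_num, le_rfl, ht0, ht1, by push_cast; ring⟩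
      (by rw [e2, recX_apply hAB]; linarith)]
    have e3 : A + (t : ℂ) * (A + B) - A = (t : ℂ) * (A + B) := by ring
    rw [e3]
    ring
  · intro s t ht0 ht1
    show G (v (h s)) (t * A) = G s (A + B + t * A) - (a s + b (h s))
    have e1 : ((t : ℝ) : ℂ) * A = (t : ℂ) * A + ((0 : ℝ) : ℂ) * B := by
      push_cast
      ring
    have e2 : A + B + ((t : ℝ) : ℂ) * A = ((1 + t : ℝ) : ℂ) * A + ((1 : ℝ) : ℂ) * B := by
      push_cast
      ring
    rw [hG1 (v (h s)) _ (by rw [e1, recX_apply hAB]; linarith)]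
    rw [hG2 s _ ⟨t, 1, ht0, ht1, by norm_num, le_rfl, by push_cast; ring⟩
      (by rw [e2, recX_apply hAB]; linarith)]
    have e3 : A + B + (t : ℂ) * A - A = B + (t : ℂ) * A := by ring
    rw [e3, h5 (h s) t ht0 ht1]
    ring

end Pool.Agent.TP
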