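import Pool.Agent.Lib_helper53.TP.B.COM
import Pool.Agent.Lib_helper53.TP.B.OMG
import Pool.Agent.Lib_helper53.TP.B.REC

/-!
# HRC: recutting
-/

namespace Pool.Agent.TP

open Set Complex Finset

theorem hrc_bo {S : Type} (h v : Equiv.Perm S) : (BO h v).map (shearL h) = BO h (v * h) := by
  ext u
  simp only [Submodule.mem_map]
  constructor
  · rintro ⟨w, ⟨f, h1, h2, h3⟩, rfl⟩
    refine ⟨f, fun s => ?_, fun s => h2 s, fun s => ?_⟩
    · simp only [Equiv.Perm.mul_apply]
      exact h1 (h s)
    · change w.1 s + w.2 (h s) = _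
      rw [h2, h3, Equiv.Perm.mul_apply]; ring
  · rintro ⟨f, h1, h2, h3⟩
    refine ⟨(u.1, fun s => f (v s) - f s), ⟨f, fun s => ?_, h2, fun s => rfl⟩, ?_⟩
    · have := h1 (h.symm s)
      simpa [Equiv.Perm.mul_apply] using this
    · refine Prod.ext rfl ?_
      funext s
      change u.1 s + (f (v (h s)) - f (h s)) = u.2 s
      rw [h2, h3, Equiv.Perm.mul_apply]; ring

theorem hto_rec {S : Type} {h v : Equiv.Perm S} {P : Submodule ℝ (Pr S)}
    (H : HTO h v P) : HTO h (v * h) (P.map (shearL h)) where
  bo_le := by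
    rw [← hrc_bo]
    exact Submodule.map_mono H.bo_le
  le_zo := by
    rintro _ ⟨w, hw, rfl⟩
    exact shear_mem (H.le_zo hw)
  two := by
    obtain ⟨u, w, e⟩ := H.two
    refine ⟨shearL h u, shearL h w, ?_⟩
    rw [e, Submodule.map_sup, Submodule.map_span, Set.image_pair, hrc_bo]
  hol := by
    intro A B hAB
    have h0 : 0 < cross A (B - A) := by
      simp only [cross, sub_re, sub_im] at hAB ⊢
      linarith
    obtain ⟨a, b, h1, h2, h3, h4⟩ := H.hol _ _ h0
    have h5 := hol_rec h v h0.ne' h1
    rw [add_sub_cancel] at h5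
    refine ⟨_, _, h5, ?_, ?_, ?_⟩
    · by_contra hc
      push Not at hc
      obtain ⟨c1, c2⟩ := hc
      rcases h2 with h2 | h2
      · exact h2 c1
      · apply h2
        funext s
        have := congrFun c2 (h.symm s)
        simpa [c1] using this
    · refine ⟨_, h3, ?_⟩
      refine Prod.ext rfl ?_
      funext s
      change (a s).re + (b (h s)).re = (a s + b (h s)).re
      simp
    · refine ⟨_, h4, ?_⟩
      refine Prod.ext rfl ?_
      funext s
      change (a s).im + (b (h s)).im = (a s + b (h s)).im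
      simp

end Pool.Agent.TP
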