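import Pool.Agent.Lib_helper53.TP.WDefs

/-!
# HSB: the genus of a subdivision
-/

namespace Pool.Agent.TP

open Set Complex Finset

/-- The three darts of a triangle are distinct, and `opp d` is not in the triangle of `d`. -/
theorem hsb_dist {D : Type} {c : Comb D} {v : D → ℂ} (ok : IsTS c v) (d : D) :
    c.next d ≠ d ∧ c.next (c.next d) ≠ d ∧ c.next (c.next d) ≠ c.next d ∧ c.opp d ≠ d ∧
      c.opp d ≠ c.next d ∧ c.opp d ≠ c.next (c.next d) := by
  have key : ∀ x, c.next x ≠ x := by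
    intro x hx
    have h := ok.pos x
    rw [hx] at h
    simp only [cross] at h
    linarith [h]
  have hop : ∀ x, c.opp x ≠ x := by
    intro x hx
    have h := ok.opp_neg x
    have hp := ok.pos x
    rw [hx] at h
    have h1 := congrArg Complex.re h
    have h2 := congrArg Complex.im h
    simp only [Complex.neg_re, Complex.neg_im] at h1 h2
    have e1 : (v x).re = 0 := by linarith
    have e2 : (v x).im = 0 := by linarith
    simp only [cross, e1, e2] at hp
    simp at hp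
  have hon : ∀ x, c.opp x ≠ c.next x := by
    intro x hx
    have h := ok.opp_neg x
    have hp := ok.pos x
    rw [hx] at h
    simp only [cross, h, Complex.neg_re, Complex.neg_im] at hp
    linarith [hp]
  refine ⟨key d, ?_, key _, hop d, hon d, ?_⟩
  · intro h
    have := key (c.next (c.next d))
    rw [c.next3 d] at this
    exact this h.symm
  · intro h
    have h1 := hon (c.next (c.next d))
    rw [c.next3 d, ← h, c.opp2 d] at h1
    exact h1 rfl

theorem hsb_next_inj {D : Type} (c : Comb D) {x y : D} (h : c.next x = c.next y) : x = y := by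
  rw [← c.next3 x, ← c.next3 y, h]

theorem hsb_opp_inj {D : Type} (c : Comb D) {x y : D} (h : c.opp x = c.opp y) : x = y := by
  rw [← c.opp2 x, ← c.opp2 y, h]

theorem hsb_equiv {D D' : Type} {c : Comb D}
    {v : D → ℂ} {d : D} {θ : ℝ}
    {c' : Comb D'} {v' : D' → ℂ} {ι : D → D'} {p q m m' k k' : D'}
    (H : IsSubdiv c v d θ c' v' ι p q m m' k k') :
    Function.Bijective (Sum.elim ι ![p, q, m, m', k, k'] : D ⊕ Fin 6 → D') := by
  have hd := H.distinct
  constructor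
  · rintro (x | i) (y | j) hxy
    · exact congrArg _ (H.inj hxy)
    · exfalso
      have hf := H.fresh x
      fin_cases j <;> simp at hxy <;> simp_all
    · exfalso
      have hf := H.fresh y
      fin_cases i <;> simp at hxy <;> simp_all
    · refine congrArg _ ?_
      simp only [Sum.elim_inr] at hxy
      simp only [List.nodup_cons, List.mem_cons, List.not_mem_nil, or_false, not_or] at hd
      obtain ⟨⟨h1, h2, h3, h4, h5⟩, ⟨h6, h7, h8, h9⟩, ⟨h10, h11, h12⟩, ⟨h13, h14⟩, h15, -⟩ := hd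
      fin_cases i <;> fin_cases j <;> simp at hxy <;> first | rfl | (exfalso; simp_all)
  · intro x
    rcases H.cover x with ⟨y, rfl⟩ | rfl | rfl | rfl | rfl | rfl | rfl
    · exact ⟨Sum.inl y, rfl⟩
    · exact ⟨Sum.inr 0, rfl⟩
    · exact ⟨Sum.inr 1, rfl⟩
    · exact ⟨Sum.inr 2, rfl⟩
    · exact ⟨Sum.inr 3, rfl⟩
    · exact ⟨Sum.inr 4, rfl⟩
    · exact ⟨Sum.inr 5, rfl⟩

/-- A function on the darts of the subdivision with prescribed values. -/
theorem hsb_ext {D D' : Type} {c : Comb D} {v : D → ℂ} {d : D} {θ : ℝ}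
    {c' : Comb D'} {v' : D' → ℂ} {ι : D → D'} {p q m m' k k' : D'}
    (H : IsSubdiv c v d θ c' v' ι p q m m' k k') (g : D → ℝ) (a1 a2 a3 a4 a5 a6 : ℝ) :
    ∃ f : D' → ℝ, (∀ x, f (ι x) = g x) ∧ f p = a1 ∧ f q = a2 ∧ f m = a3 ∧ f m' = a4 ∧
      f k = a5 ∧ f k' = a6 := by
  set E := Equiv.ofBijective _ (hsb_equiv H) with hE
  have e0 : ∀ x, E.symm (ι x) = Sum.inl x := by
    intro x
    rw [Equiv.symm_apply_eq]
    rfl
  have e1 : E.symm p = Sum.inr 0 := by
    rw [Equiv.symm_apply_eq]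
    rfl
  have e2 : E.symm q = Sum.inr 1 := by
    rw [Equiv.symm_apply_eq]
    rfl
  have e3 : E.symm m = Sum.inr 2 := by
    rw [Equiv.symm_apply_eq]
    rfl
  have e4 : E.symm m' = Sum.inr 3 := by
    rw [Equiv.symm_apply_eq]
    rfl
  have e5 : E.symm k = Sum.inr 4 := by
    rw [Equiv.symm_apply_eq]
    rfl
  have e6 : E.symm k' = Sum.inr 5 := by
    rw [Equiv.symm_apply_eq]
    rfl
  refine ⟨fun y => Sum.elim g ![a1, a2, a3, a4, a5, a6] (E.symm y), fun x => ?_, ?_, ?_, ?_, ?_,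
    ?_, ?_⟩
  · simp only [e0 x, Sum.elim_inl]
  · simp only [e1]; rfl
  · simp only [e2]; rfl
  · simp only [e3]; rfl
  · simp only [e4]; rfl
  · simp only [e5]; rfl
  · simp only [e6]; rfl

/-- The seven facts on distinctness. -/
theorem hsb_all {D : Type} {c : Comb D} {v : D → ℂ} (ok : IsTS c v) (d : D) :
    (c.next d ≠ d ∧ c.next (c.next d) ≠ d ∧ c.next (c.next d) ≠ c.next d) ∧
    (c.next (c.opp d) ≠ c.opp d ∧ c.next (c.next (c.opp d)) ≠ c.opp d ∧
      c.next (c.next (c.opp d)) ≠ c.next (c.opp d)) ∧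
    (c.opp d ≠ d ∧ c.opp d ≠ c.next d ∧ c.opp d ≠ c.next (c.next d)) ∧
    (c.next (c.opp d) ≠ d ∧ c.next (c.opp d) ≠ c.next d ∧
      c.next (c.opp d) ≠ c.next (c.next d)) ∧
    (c.next (c.next (c.opp d)) ≠ d ∧ c.next (c.next (c.opp d)) ≠ c.next d ∧
      c.next (c.next (c.opp d)) ≠ c.next (c.next d)) := by
  obtain ⟨a1, a2, a3, a4, a5, a6⟩ := hsb_dist ok d
  obtain ⟨b1, b2, b3, b4, b5, b6⟩ := hsb_dist ok (c.opp d)
  rw [c.opp2 d] at b4 b5 b6
  have g1 : c.next (c.opp d) ≠ c.next d := fun h => a4 (hsb_next_inj c h)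
  have g2 : c.next (c.opp d) ≠ c.next (c.next d) := fun h => a5 (hsb_next_inj c h)
  have g3 : c.next (c.next (c.opp d)) ≠ c.next d := fun h => b5 (by
    have := hsb_next_inj c h
    exact this.symm)
  have g4 : c.next (c.next (c.opp d)) ≠ c.next (c.next d) := fun h => g1 (hsb_next_inj c h)
  exact ⟨⟨a1, a2, a3⟩, ⟨b1, b2, b3⟩, ⟨a4, a5, a6⟩, ⟨Ne.symm b5, g1, g2⟩, ⟨Ne.symm b6, g3, g4⟩⟩

/-- An induction principle for the darts of the subdivision. -/
theorem hsb_cases {D D' : Type} {c : Comb D} {v : D → ℂ} {d : D} {θ : ℝ}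
    {c' : Comb D'} {v' : D' → ℂ} {ι : D → D'} {p q m m' k k' : D'}
    (H : IsSubdiv c v d θ c' v' ι p q m m' k k') {P : D' → Prop}
    (h0 : ∀ x, x ≠ d → x ≠ c.next d → x ≠ c.next (c.next d) → x ≠ c.opp d →
    x ≠ c.next (c.opp d) → x ≠ c.next (c.next (c.opp d)) → P (ι x))
    (h1 : P (ι d)) (h2 : P (ι (c.next d))) (h3 : P (ι (c.next (c.next d))))
    (h4 : P (ι (c.opp d))) (h5 : P (ι (c.next (c.opp d))))
    (h6 : P (ι (c.next (c.next (c.opp d))))) (hp : P p) (hq : P q) (hm : P m) (hm' : P m')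
    (hk : P k) (hk' : P k') : ∀ x, P x := by
  classical
  intro x
  rcases H.cover x with ⟨y, rfl⟩ | rfl | rfl | rfl | rfl | rfl | rfl
  · by_cases y1 : y = d
    · rw [y1]; exact h1
    by_cases y2 : y = c.next d
    · rw [y2]; exact h2
    by_cases y3 : y = c.next (c.next d)
    · rw [y3]; exact h3
    by_cases y4 : y = c.opp d
    · rw [y4]; exact h4
    by_cases y5 : y = c.next (c.opp d)
    · rw [y5]; exact h5
    by_cases y6 : y = c.next (c.next (c.opp d))
    · rw [y6]; exact h6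
    exact h0 y y1 y2 y3 y4 y5 y6
  all_goals assumption

/-- The same for the darts of the surface. -/
theorem hsb_cases0 {D : Type} {c : Comb D} {d : D} {P : D → Prop}
    (h0 : ∀ x, x ≠ d → x ≠ c.next d → x ≠ c.next (c.next d) → x ≠ c.opp d →
    x ≠ c.next (c.opp d) → x ≠ c.next (c.next (c.opp d)) → P x)
    (h1 : P d) (h2 : P (c.next d)) (h3 : P (c.next (c.next d)))
    (h4 : P (c.opp d)) (h5 : P (c.next (c.opp d)))
    (h6 : P (c.next (c.next (c.opp d)))) : ∀ x, P x := by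
  classical
  intro y
  by_cases y1 : y = d
  · rw [y1]; exact h1
  by_cases y2 : y = c.next d
  · rw [y2]; exact h2
  by_cases y3 : y = c.next (c.next d)
  · rw [y3]; exact h3
  by_cases y4 : y = c.opp d
  · rw [y4]; exact h4
  by_cases y5 : y = c.next (c.opp d)
  · rw [y5]; exact h5
  by_cases y6 : y = c.next (c.next (c.opp d))
  · rw [y6]; exact h6
  exact h0 y y1 y2 y3 y4 y5 y6

/-- Outside of the two triangles. -/
theorem hsb_out {D : Type} {c : Comb D} {d x : D}
    (x1 : x ≠ d) (x2 : x ≠ c.next d) (x3 : x ≠ c.next (c.next d)) :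
    c.next x ≠ d ∧ c.next x ≠ c.next d ∧ c.next x ≠ c.next (c.next d) := by
  refine ⟨fun h => x3 ?_, fun h => x1 (hsb_next_inj c h), fun h => x2 (hsb_next_inj c h)⟩
  rw [← h, c.next3]

open Classical in
/-- The transfer of cocycles. -/
noncomputable def hsbFun {D D' : Type} (c : Comb D) (d : D) (ι : D → D') (p q : D')
    (u : D' → ℝ) : D → ℝ :=
  fun x => if x = d then u (ι d) + u p else if x = c.opp d then u (ι (c.opp d)) + u q else u (ι x)

section
variable {D D' : Type} {c : Comb D} {v : D → ℂ} {d : D} {θ : ℝ}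
    {c' : Comb D'} {v' : D' → ℂ} {ι : D → D'} {p q m m' k k' : D'}

theorem hsbFun_d (u : D' → ℝ) : hsbFun c d ι p q u d = u (ι d) + u p := by
  simp [hsbFun]

theorem hsbFun_e (ok : IsTS c v) (u : D' → ℝ) :
    hsbFun c d ι p q u (c.opp d) = u (ι (c.opp d)) + u q := by
  have h := (hsb_all ok d).2.2.1.1
  simp [hsbFun, h]

theorem hsbFun_x (u : D' → ℝ) {x : D} (h1 : x ≠ d) (h2 : x ≠ c.opp d) :
    hsbFun c d ι p q u x = u (ι x) := by
  simp [hsbFun, h1, h2]

theorem hsb_mem (ok : IsTS c v) (H : IsSubdiv c v d θ c' v' ι p q m m' k k')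
    {u : D' → ℝ} (hu : u ∈ Z1 ℝ c') : hsbFun c d ι p q u ∈ Z1 ℝ c := by
  obtain ⟨hu1, hu2⟩ := hu
  obtain ⟨⟨a1, a2, a3⟩, ⟨b1, b2, b3⟩, ⟨c1, c2, c3⟩, ⟨d1, d2, d3⟩, ⟨e1, e2, e3⟩⟩ := hsb_all ok d
  have o1 := hu1 (ι d)
  have o2 := hu1 p
  have o3 := hu1 m
  have o4 := hu1 k
  rw [H.o1] at o1
  rw [H.o2] at o2
  rw [H.o3] at o3
  rw [H.o4] at o4
  have t1 := hu2 (ι d)
  rw [H.n1, H.n2] at t1
  have t2 := hu2 p
  rw [H.n4, H.n5] at t2
  have t3 := hu2 (ι (c.opp d))
  rw [H.n7, H.n8] at t3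
  have t4 := hu2 q
  rw [H.n10, H.n11] at t4
  refine ⟨fun x => ?_, ?_⟩
  · by_cases x1 : x = d
    · rw [x1, hsbFun_e ok, hsbFun_d]
      linarith
    · by_cases x2 : x = c.opp d
      · rw [x2, c.opp2, hsbFun_e ok, hsbFun_d]
        linarith
      · have y1 : c.opp x ≠ d := by
          intro h
          apply x2
          rw [← h, c.opp2]
        have y2 : c.opp x ≠ c.opp d := fun h => x1 (hsb_opp_inj c h)
        rw [hsbFun_x _ y1 y2, hsbFun_x _ x1 x2, ← H.orest x x1 x2, hu1]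
  · have T1 : hsbFun c d ι p q u d + hsbFun c d ι p q u (c.next d) +
        hsbFun c d ι p q u (c.next (c.next d)) = 0 := by
      rw [hsbFun_d, hsbFun_x _ a1 (Ne.symm c2), hsbFun_x _ a2 (Ne.symm c3)]
      linarith
    have T2 : hsbFun c d ι p q u (c.opp d) + hsbFun c d ι p q u (c.next (c.opp d)) +
        hsbFun c d ι p q u (c.next (c.next (c.opp d))) = 0 := by
      rw [hsbFun_e ok, hsbFun_x _ d1 b1, hsbFun_x _ e1 b2]
      linarith
    refine hsb_cases0 (c := c) (d := d) ?_ ?_ ?_ ?_ ?_ ?_ ?_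
    · intro x x1 x2 x3 x4 x5 x6
      obtain ⟨y1, y2, y3⟩ := hsb_out x1 x2 x3
      obtain ⟨y4, y5, y6⟩ := hsb_out x4 x5 x6
      obtain ⟨z1, z2, z3⟩ := hsb_out y1 y2 y3
      obtain ⟨z4, z5, z6⟩ := hsb_out y4 y5 y6
      rw [hsbFun_x _ x1 x4, hsbFun_x _ y1 y4, hsbFun_x _ z1 z4]
      have h := hu2 (ι x)
      rw [H.rest x x1 x2 x3 x4 x5 x6, H.rest _ y1 y2 y3 y4 y5 y6] at h
      exact h
    · exact T1
    · rw [c.next3]; linarith
    · rw [c.next3]; linarith
    · exact T2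
    · rw [c.next3]; linarith
    · rw [c.next3]; linarith

/-- The transfer as a linear map. -/
noncomputable def hsbMap (ok : IsTS c v) (H : IsSubdiv c v d θ c' v' ι p q m m' k k') :
    Z1 ℝ c' →ₗ[ℝ] Z1 ℝ c where
  toFun u := ⟨hsbFun c d ι p q u.1, hsb_mem ok H u.2⟩
  map_add' u w := by
    apply Subtype.ext
    funext x
    change hsbFun c d ι p q (u.1 + w.1) x = hsbFun c d ι p q u.1 x + hsbFun c d ι p q w.1 x
    simp only [hsbFun, Pi.add_apply]
    split_ifs <;> ring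
  map_smul' r u := by
    apply Subtype.ext
    funext x
    change hsbFun c d ι p q (r • u.1) x = r * hsbFun c d ι p q u.1 x
    simp only [hsbFun, Pi.smul_apply, smul_eq_mul]
    split_ifs <;> ring

theorem hsb_surj (ok : IsTS c v) (H : IsSubdiv c v d θ c' v' ι p q m m' k k') :
    Function.Surjective (hsbMap ok H) := by
  classical
  rintro ⟨u, hu1, hu2⟩
  obtain ⟨⟨a1, a2, a3⟩, ⟨b1, b2, b3⟩, ⟨c1, c2, c3⟩, ⟨d1, d2, d3⟩, ⟨e1, e2, e3⟩⟩ := hsb_all ok d
  obtain ⟨f, f0, fp, fq, fm, fm', fk, fk'⟩ := hsb_ext H (fun x => if x = d then 0 else u x)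
    (u d) 0 (-u (c.next (c.next d))) (u (c.next (c.next d)))
    (u d - u (c.next (c.next (c.opp d)))) (-(u d) + u (c.next (c.next (c.opp d))))
  have fd : f (ι d) = 0 := by rw [f0]; simp
  have fx : ∀ x, x ≠ d → f (ι x) = u x := by
    intro x hx
    rw [f0]; simp [hx]
  have q0 := hu1 d
  have q1 := hu2 d
  have q2 := hu2 (c.opp d)
  have hf : f ∈ Z1 ℝ c' := by
    constructor
    · refine hsb_cases H ?_ ?_ ?_ ?_ ?_ ?_ ?_ ?_ ?_ ?_ ?_ ?_ ?_
      · intro x x1 x2 x3 x4 x5 x6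
        have y1 : c.opp x ≠ d := by
          intro h
          apply x4
          rw [← h, c.opp2]
        rw [H.orest x x1 x4, fx _ x1, fx _ y1, hu1]
      · rw [H.o1, fq, fd]; simp
      · have y1 : c.opp (c.next d) ≠ d := by
          intro h
          apply c2
          rw [← h, c.opp2, h]
        rw [H.orest _ a1 (Ne.symm c2), fx _ a1, fx _ y1, hu1]
      · have y1 : c.opp (c.next (c.next d)) ≠ d := by
          intro h
          apply c3
          rw [← h, c.opp2, h]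
        rw [H.orest _ a2 (Ne.symm c3), fx _ a2, fx _ y1, hu1]
      · have h := H.o2
        rw [← h, c'.opp2, h, fx _ c1, fp, q0]
        ring
      · have y1 : c.opp (c.next (c.opp d)) ≠ d := by
          intro h
          apply b1
          exact (c.opp2 _).symm.trans (congrArg c.opp h)
        rw [H.orest _ d1 b1, fx _ d1, fx _ y1, hu1]
      · have y1 : c.opp (c.next (c.next (c.opp d))) ≠ d := by
          intro h
          apply b2
          exact (c.opp2 _).symm.trans (congrArg c.opp h)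
        rw [H.orest _ e1 b2, fx _ e1, fx _ y1, hu1]
      · rw [H.o2, fx _ c1, fp, q0]
      · rw [← H.o1, c'.opp2, H.o1, fq, fd]; simp
      · rw [H.o3, fm', fm]; ring
      · rw [← H.o3, c'.opp2, H.o3, fm, fm']
      · rw [H.o4, fk', fk]; ring
      · rw [← H.o4, c'.opp2, H.o4, fk, fk']; ring
    · have T1 : f (ι d) + f m + f (ι (c.next (c.next d))) = 0 := by
        rw [fd, fm, fx _ a2]; ring
      have T2 : f p + f (ι (c.next d)) + f m' = 0 := by
        rw [fp, fx _ a1, fm']; linarith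
      have T3 : f (ι (c.opp d)) + f k + f (ι (c.next (c.next (c.opp d)))) = 0 := by
        rw [fx _ c1, fk, fx _ e1]; linarith
      have T4 : f q + f (ι (c.next (c.opp d))) + f k' = 0 := by
        rw [fq, fx _ d1, fk']; linarith
      refine hsb_cases H ?_ ?_ ?_ ?_ ?_ ?_ ?_ ?_ ?_ ?_ ?_ ?_ ?_
      · intro x x1 x2 x3 x4 x5 x6
        obtain ⟨y1, y2, y3⟩ := hsb_out x1 x2 x3
        obtain ⟨y4, y5, y6⟩ := hsb_out x4 x5 x6
        obtain ⟨z1, z2, z3⟩ := hsb_out y1 y2 y3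
        rw [H.rest x x1 x2 x3 x4 x5 x6, H.rest _ y1 y2 y3 y4 y5 y6, fx _ x1, fx _ y1, fx _ z1, hu2]
      · rw [H.n1, H.n2]; exact T1
      · rw [H.n5, H.n6]; linarith
      · rw [H.n3, H.n1]; linarith
      · rw [H.n7, H.n8]; exact T3
      · rw [H.n11, H.n12]; linarith
      · rw [H.n9, H.n7]; linarith
      · rw [H.n4, H.n5]; exact T2
      · rw [H.n10, H.n11]; exact T4
      · rw [H.n2, H.n3]; linarith
      · rw [H.n6, H.n4]; linarith
      · rw [H.n8, H.n9]; linarith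
      · rw [H.n12, H.n10]; linarith
  refine ⟨⟨f, hf⟩, Subtype.ext (funext fun x => ?_)⟩
  change hsbFun c d ι p q f x = u x
  by_cases x1 : x = d
  · rw [x1, hsbFun_d, fd, fp]; ring
  · by_cases x2 : x = c.opp d
    · rw [x2, hsbFun_e ok, fx _ c1, fq]; ring
    · rw [hsbFun_x _ x1 x2, fx _ x1]

theorem hsb_B1 (ok : IsTS c v) (H : IsSubdiv c v d θ c' v' ι p q m m' k k') (u : Z1 ℝ c') :
    hsbMap ok H u ∈ B1 ℝ c ↔ u ∈ B1 ℝ c' := by
  obtain ⟨⟨a1, a2, a3⟩, ⟨b1, b2, b3⟩, ⟨c1, c2, c3⟩, ⟨d1, d2, d3⟩, ⟨e1, e2, e3⟩⟩ := hsb_all ok d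
  obtain ⟨u, hu1, hu2⟩ := u
  have o1 := hu1 (ι d)
  have o2 := hu1 p
  have o3 := hu1 m
  have o4 := hu1 k
  rw [H.o1] at o1
  rw [H.o2] at o2
  rw [H.o3] at o3
  rw [H.o4] at o4
  have t1 := hu2 (ι d)
  rw [H.n1, H.n2] at t1
  have t2 := hu2 p
  rw [H.n4, H.n5] at t2
  have t3 := hu2 (ι (c.opp d))
  rw [H.n7, H.n8] at t3
  have t4 := hu2 q
  rw [H.n10, H.n11] at t4
  have p1 : c'.opp q = ι d := by rw [← H.o1, c'.opp2]
  have p2 : c'.opp (ι (c.opp d)) = p := by rw [← H.o2, c'.opp2]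
  have p3 : c'.opp m' = m := by rw [← H.o3, c'.opp2]
  have p4 : c'.opp k' = k := by rw [← H.o4, c'.opp2]
  constructor
  · rintro ⟨g, hg1, hg2⟩
    have G : ∀ x, hsbFun c d ι p q u x = g (c.next x) - g x := hg2
    have Gd := G d
    rw [hsbFun_d] at Gd
    have Ge := G (c.opp d)
    rw [hsbFun_e ok] at Ge
    have Gx : ∀ x, x ≠ d → x ≠ c.opp d → u (ι x) = g (c.next x) - g x := by
      intro x h1 h2
      have := G x
      rwa [hsbFun_x _ h1 h2] at this
    have G1 := Gx _ a1 (Ne.symm c2)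
    have G2 := Gx _ a2 (Ne.symm c3)
    have G3 := Gx _ d1 b1
    have G4 := Gx _ e1 b2
    rw [c.next3] at G2 G4
    have k1 := hg1 d
    have k2 := hg1 (c.opp d)
    rw [c.opp2] at k2
    obtain ⟨f, f0, fp, fq, fm, fm', fk, fk'⟩ := hsb_ext H g
      (g d + u (ι d)) (g d + u (ι d)) (g d + u (ι d)) (g (c.next (c.next d)))
      (g d + u (ι d)) (g (c.next (c.next (c.opp d))))
    refine ⟨f, ?_, ?_⟩
    · refine hsb_cases H ?_ ?_ ?_ ?_ ?_ ?_ ?_ ?_ ?_ ?_ ?_ ?_ ?_
      · intro x x1 x2 x3 x4 x5 x6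
        rw [H.orest x x1 x4, H.rest x x1 x2 x3 x4 x5 x6, f0, f0, hg1]
      · rw [H.o1, H.n1, fq, fm]
      · rw [H.orest _ a1 (Ne.symm c2), H.n5, fm', f0, hg1]
      · rw [H.orest _ a2 (Ne.symm c3), H.n3, f0, f0, hg1, c.next3]
      · rw [p2, H.n7, fp, fk]
      · rw [H.orest _ d1 b1, H.n11, fk', f0, hg1]
      · rw [H.orest _ e1 b2, H.n9, f0, f0, hg1, c.next3]
      · rw [H.o2, H.n4, f0, f0, hg1]
      · rw [p1, H.n10, f0, f0, k2]
      · rw [H.o3, H.n2, fm', f0]
      · rw [p3, H.n6, fm, fp]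
      · rw [H.o4, H.n8, fk', f0]
      · rw [p4, H.n12, fk, fq]
    · change ∀ x, u x = f (c'.next x) - f x
      refine hsb_cases H ?_ ?_ ?_ ?_ ?_ ?_ ?_ ?_ ?_ ?_ ?_ ?_ ?_
      · intro x x1 x2 x3 x4 x5 x6
        rw [H.rest x x1 x2 x3 x4 x5 x6, f0, f0, Gx x x1 x4]
      · rw [H.n1, fm, f0]; ring
      · rw [H.n5, fm', f0]; exact G1
      · rw [H.n3, f0, f0]; exact G2
      · rw [H.n7, fk, f0]; linarith
      · rw [H.n11, fk', f0]; exact G3
      · rw [H.n9, f0, f0]; exact G4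
      · rw [H.n4, f0, fp]; linarith
      · rw [H.n10, f0, fq]; linarith
      · rw [H.n2, f0, fm]; linarith
      · rw [H.n6, fp, fm']; linarith
      · rw [H.n8, f0, fk]; linarith
      · rw [H.n12, fq, fk']; linarith
  · rintro ⟨f, hf1, hf2⟩
    have F : ∀ x, u x = f (c'.next x) - f x := hf2
    refine ⟨fun x => f (ι x), ?_, ?_⟩
    · refine hsb_cases0 (c := c) (d := d) ?_ ?_ ?_ ?_ ?_ ?_ ?_
      · intro x x1 x2 x3 x4 x5 x6
        have := hf1 (ι x)
        rw [H.orest x x1 x4, H.rest x x1 x2 x3 x4 x5 x6] at this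
        exact this
      · have := hf1 p
        rw [H.o2, H.n4] at this
        exact this
      · have h1 := hf1 (ι (c.next d))
        rw [H.orest _ a1 (Ne.symm c2), H.n5] at h1
        have h2 := hf1 m
        rw [H.o3, H.n2] at h2
        exact h1.trans h2
      · have h1 := hf1 (ι (c.next (c.next d)))
        rw [H.orest _ a2 (Ne.symm c3), H.n3] at h1
        rw [c.next3]
        exact h1
      · have := hf1 q
        rw [p1, H.n10] at this
        rw [c.opp2]
        exact this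
      · have h1 := hf1 (ι (c.next (c.opp d)))
        rw [H.orest _ d1 b1, H.n11] at h1
        have h2 := hf1 k
        rw [H.o4, H.n8] at h2
        exact h1.trans h2
      · have h1 := hf1 (ι (c.next (c.next (c.opp d))))
        rw [H.orest _ e1 b2, H.n9] at h1
        rw [c.next3]
        exact h1
    · change ∀ x, hsbFun c d ι p q u x = f (ι (c.next x)) - f (ι x)
      have F1 := F (ι d)
      rw [H.n1] at F1
      have F2 := F p
      rw [H.n4] at F2
      have F3 := F (ι (c.next d))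
      rw [H.n5] at F3
      have F4 := F (ι (c.next (c.next d)))
      rw [H.n3] at F4
      have F5 := F (ι (c.opp d))
      rw [H.n7] at F5
      have F6 := F q
      rw [H.n10] at F6
      have F7 := F (ι (c.next (c.opp d)))
      rw [H.n11] at F7
      have F8 := F (ι (c.next (c.next (c.opp d))))
      rw [H.n9] at F8
      have K1 := hf1 m
      rw [H.o3, H.n2] at K1
      have K2 := hf1 k
      rw [H.o4, H.n8] at K2
      have K3 := hf1 (ι d)
      rw [H.o1, H.n1] at K3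
      have K4 := hf1 (ι (c.opp d))
      rw [p2, H.n7] at K4
      have K5 := hf1 m'
      rw [p3, H.n6] at K5
      have K6 := hf1 k'
      rw [p4, H.n12] at K6
      refine hsb_cases0 (c := c) (d := d) ?_ ?_ ?_ ?_ ?_ ?_ ?_
      · intro x x1 x2 x3 x4 x5 x6
        rw [hsbFun_x _ x1 x4, F, H.rest x x1 x2 x3 x4 x5 x6]
      · rw [hsbFun_d]; linarith
      · rw [hsbFun_x _ a1 (Ne.symm c2)]; linarith
      · rw [hsbFun_x _ a2 (Ne.symm c3), c.next3]; linarith
      · rw [hsbFun_e ok]; linarith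
      · rw [hsbFun_x _ d1 b1]; linarith
      · rw [hsbFun_x _ e1 b2, c.next3]; linarith

end

/-- HSB. -/
theorem finrank_sub {D D' : Type} {c : Comb D} {v : D → ℂ} {d : D} {θ : ℝ} {c' : Comb D'}
    {v' : D' → ℂ} {ι : D → D'} {p q m m' k k' : D'} (ok : IsTS c v) (ok' : IsTS c' v')
    (H : IsSubdiv c v d θ c' v' ι p q m m' k k') :
    Module.finrank ℝ (H1 ℝ c) = Module.finrank ℝ (H1 ℝ c') := by
  set ψ : Z1 ℝ c' →ₗ[ℝ] H1 ℝ c := (B1 ℝ c).mkQ.comp (hsbMap ok H) with hψ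
  have hs : Function.Surjective ψ := by
    rw [hψ]
    exact (Submodule.mkQ_surjective _).comp (hsb_surj ok H)
  have hk : LinearMap.ker ψ = B1 ℝ c' := by
    ext u
    rw [hψ, LinearMap.mem_ker, LinearMap.comp_apply, Submodule.mkQ_apply,
      Submodule.Quotient.mk_eq_zero]
    exact hsb_B1 ok H u
  have e1 := ψ.quotKerEquivOfSurjective hs
  have e2 := Submodule.quotEquivOfEq _ _ hk
  exact (e2.symm.trans e1).symm.finrank_eq

end Pool.Agent.TP
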