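import Pool.Agent.Lib_helper53.TP.B.COM

/-!
# HSW: exchange of the two coordinates
-/

namespace Pool.Agent.TP

open Set Complex Finset

theorem hsw_bo {S : Type} (h v : Equiv.Perm S) : (BO h v).map swapL = BO v h := by
  ext u
  simp only [Submodule.mem_map]
  constructor
  · rintro ⟨w, ⟨f, h1, h2, h3⟩, rfl⟩
    exact ⟨f, fun s => (h1 s).symm, h3, h2⟩
  · rintro ⟨f, h1, h2, h3⟩
    exact ⟨(u.2, u.1), ⟨f, fun s => (h1 s).symm, h3, h2⟩, rfl⟩

theorem hto_swap {S : Type} {h v : Equiv.Perm S} {P : Submodule ℝ (Pr S)}
    (H : HTO h v P) : HTO v h (P.map swapL) where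
  bo_le := by
    rw [← hsw_bo]
    exact Submodule.map_mono H.bo_le
  le_zo := by
    rintro _ ⟨w, hw, rfl⟩ s
    have := H.le_zo hw s
    exact this.symm
  two := by
    obtain ⟨u, w, e⟩ := H.two
    refine ⟨swapL u, swapL w, ?_⟩
    rw [e, Submodule.map_sup, Submodule.map_span, Set.image_pair, hsw_bo]
  hol := by
    intro A B hAB
    have h0 : 0 < cross ((starRingEnd ℂ) B) ((starRingEnd ℂ) A) := by
      simp only [cross, conj_re, conj_im] at hAB ⊢
      linarith
    obtain ⟨a, b, h1, h2, h3, h4⟩ := H.hol _ _ h0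
    have h5 := com_conj (A := (starRingEnd ℂ) A) (B := (starRingEnd ℂ) B) (by
      simp only [cross, conj_re, conj_im] at h0 ⊢
      intro h
      linarith) (com_swap h1)
    simp only [Complex.conj_conj] at h5
    refine ⟨_, _, h5, ?_, ?_, ?_⟩
    · rcases h2 with h2 | h2
      · right
        intro h
        apply h2
        funext s
        have := congrFun h s
        simpa using this
      · left
        intro h
        apply h2
        funext s
        have := congrFun h s
        simpa using this
    · exact ⟨_, h3, by simp [swapL]⟩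
    · refine ⟨_, P.neg_mem h4, ?_⟩
      simp only [swapL, LinearMap.coe_mk, AddHom.coe_mk, Prod.snd_neg, Prod.fst_neg, conj_im]
      rfl

end Pool.Agent.TP
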