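import Pool.Agent.Lib_helper53.TP.Defs

/-! # TP, block RST: Stokes' formula on a parallelogram -/

namespace Pool.Agent.TP

open Set Complex MeasureTheory Topology

theorem rst_cross (A B w : ℂ) :
    B * w * (starRingEnd ℂ) (w * A) + -A * w * (starRingEnd ℂ) (w * B) =
      2 * I * (cross A B : ℂ) * ((‖w‖ ^ 2 : ℝ) : ℂ) := by
  have h1 : (starRingEnd ℂ) w * w = ((‖w‖ ^ 2 : ℝ) : ℂ) := by
    rw [mul_comm, Complex.mul_conj, Complex.normSq_eq_norm_sq]
  have h2 : (starRingEnd ℂ) A * B - (starRingEnd ℂ) B * A = 2 * I * (cross A B : ℂ) := by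
    apply Complex.ext <;> simp [cross] <;> ring
  rw [map_mul, map_mul]
  calc B * w * ((starRingEnd ℂ) w * (starRingEnd ℂ) A) +
        -A * w * ((starRingEnd ℂ) w * (starRingEnd ℂ) B)
      = ((starRingEnd ℂ) A * B - (starRingEnd ℂ) B * A) * ((starRingEnd ℂ) w * w) := by ring
    _ = _ := by rw [h1, h2]

/-- the linear map `(x, y) ↦ x A + y B` -/
noncomputable def rstL (A B : ℂ) : ℝ × ℝ →L[ℝ] ℂ :=
  (ContinuousLinearMap.fst ℝ ℝ ℝ).smulRight A + (ContinuousLinearMap.snd ℝ ℝ ℝ).smulRight B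

theorem rstL_apply (A B : ℂ) (x : ℝ × ℝ) : rstL A B x = x.1 * A + x.2 * B := by
  simp [rstL]

/-- the derivative of `conj G * (C G')` along the plane -/
noncomputable def rstD (A B C : ℂ) (G : ℂ → ℂ) (x : ℝ × ℝ) : ℝ × ℝ →L[ℝ] ℂ :=
  (starRingEnd ℂ) (G (rstL A B x)) • (C • (deriv (deriv G) (rstL A B x) • rstL A B)) +
    (C * deriv G (rstL A B x)) •
      ((Complex.conjCLE : ℂ ≃L[ℝ] ℂ) : ℂ →L[ℝ] ℂ).comp (deriv G (rstL A B x) • rstL A B)

theorem rst_deriv {A B C : ℂ} {U : Set ℂ} (hU : IsOpen U) {G : ℂ → ℂ}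
    (hG : DifferentiableOn ℂ G U) (x : ℝ × ℝ) (hx : rstL A B x ∈ U) :
    HasFDerivAt (fun x : ℝ × ℝ => (starRingEnd ℂ) (G (rstL A B x)) * (C * deriv G (rstL A B x)))
      (rstD A B C G x) x := by
  have h1 : HasDerivAt G (deriv G (rstL A B x)) (rstL A B x) :=
    (hG.differentiableAt (hU.mem_nhds hx)).hasDerivAt
  have h2 : HasDerivAt (deriv G) (deriv (deriv G) (rstL A B x)) (rstL A B x) :=
    ((hG.deriv hU).differentiableAt (hU.mem_nhds hx)).hasDerivAt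
  have hL : HasFDerivAt (fun x => rstL A B x) (rstL A B) x := (rstL A B).hasFDerivAt
  have g1 := h1.comp_hasFDerivAt x hL
  have g2 := (h2.comp_hasFDerivAt x hL).const_smul C
  have g3 := ((Complex.conjCLE : ℂ ≃L[ℝ] ℂ) : ℂ →L[ℝ] ℂ).hasFDerivAt.comp x g1
  have g4 := g3.mul g2
  exact g4

theorem rst_val1 (A B C : ℂ) (G : ℂ → ℂ) (x : ℝ × ℝ) :
    rstD A B C G x (1, 0) = (starRingEnd ℂ) (G (rstL A B x)) *
      (C * (deriv (deriv G) (rstL A B x) * A)) +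
      C * deriv G (rstL A B x) * (starRingEnd ℂ) (deriv G (rstL A B x) * A) := by
  simp [rstD, rstL]

theorem rst_val2 (A B C : ℂ) (G : ℂ → ℂ) (x : ℝ × ℝ) :
    rstD A B C G x (0, 1) = (starRingEnd ℂ) (G (rstL A B x)) *
      (C * (deriv (deriv G) (rstL A B x) * B)) +
      C * deriv G (rstL A B x) * (starRingEnd ℂ) (deriv G (rstL A B x) * B) := by
  simp [rstD, rstL]

theorem rst_sum (A B : ℂ) (G : ℂ → ℂ) (x : ℝ × ℝ) :
    rstD A B B G x (1, 0) + rstD A B (-A) G x (0, 1) =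
      2 * I * (cross A B : ℂ) * ((‖deriv G (rstL A B x)‖ ^ 2 : ℝ) : ℂ) := by
  rw [rst_val1, rst_val2, ← rst_cross]
  ring

theorem rect_stokes {A B : ℂ} (hAB : 0 < cross A B) {U : Set ℂ} (hU : IsOpen U) {G : ℂ → ℂ}
    (hG : DifferentiableOn ℂ G U) {x0 x1 y0 y1 : ℝ} (hx : x0 ≤ x1) (hy : y0 ≤ y1)
    (hsub : ∀ x y : ℝ, x0 ≤ x → x ≤ x1 → y0 ≤ y → y ≤ y1 → (x * A + y * B : ℂ) ∈ U) :
    (∫ x in x0..x1, (starRingEnd ℂ) (G (x * A + y0 * B)) * (A * deriv G (x * A + y0 * B)))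
    - (∫ x in x0..x1, (starRingEnd ℂ) (G (x * A + y1 * B)) * (A * deriv G (x * A + y1 * B)))
    + (∫ y in y0..y1, (starRingEnd ℂ) (G (x1 * A + y * B)) * (B * deriv G (x1 * A + y * B)))
    - (∫ y in y0..y1, (starRingEnd ℂ) (G (x0 * A + y * B)) * (B * deriv G (x0 * A + y * B)))
    = 2 * I * (cross A B : ℂ) *
      ((∫ x in x0..x1, ∫ y in y0..y1, ‖deriv G (x * A + y * B)‖ ^ 2 : ℝ) : ℂ) := by
  have hmem : ∀ x : ℝ × ℝ, x ∈ uIcc x0 x1 ×ˢ uIcc y0 y1 → rstL A B x ∈ U := by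
    rintro ⟨x, y⟩ ⟨h1, h2⟩
    rw [uIcc_of_le hx] at h1
    rw [uIcc_of_le hy] at h2
    rw [rstL_apply]
    exact hsub x y h1.1 h1.2 h2.1 h2.2
  have hmem' : ∀ x : ℝ × ℝ, x ∈ Ioo (min x0 x1) (max x0 x1) ×ˢ Ioo (min y0 y1) (max y0 y1) →
      rstL A B x ∈ U := fun x h => hmem x ⟨Ioo_subset_Icc_self h.1, Ioo_subset_Icc_self h.2⟩
  have hcG : ContinuousOn (fun x : ℝ × ℝ => G (rstL A B x)) (uIcc x0 x1 ×ˢ uIcc y0 y1) :=
    hG.continuousOn.comp (rstL A B).continuous.continuousOn hmem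
  have hcG' : ContinuousOn (fun x : ℝ × ℝ => deriv G (rstL A B x))
      (uIcc x0 x1 ×ˢ uIcc y0 y1) :=
    (hG.deriv hU).continuousOn.comp (rstL A B).continuous.continuousOn hmem
  have hcc : ∀ C : ℂ, ContinuousOn (fun x : ℝ × ℝ =>
      (starRingEnd ℂ) (G (rstL A B x)) * (C * deriv G (rstL A B x)))
      (uIcc x0 x1 ×ˢ uIcc y0 y1) := by
    intro C
    exact (Complex.continuous_conj.comp_continuousOn hcG).mul (continuousOn_const.mul hcG')
  have key := integral2_divergence_prod_of_hasFDerivAt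
    (fun x : ℝ × ℝ => (starRingEnd ℂ) (G (rstL A B x)) * (B * deriv G (rstL A B x)))
    (fun x : ℝ × ℝ => (starRingEnd ℂ) (G (rstL A B x)) * (-A * deriv G (rstL A B x)))
    (rstD A B B G) (rstD A B (-A) G) x0 y0 x1 y1 (hcc B) (hcc (-A))
    (fun x hx => rst_deriv hU hG x (hmem' x hx)) (fun x hx => rst_deriv hU hG x (hmem' x hx)) ?_
  · simp only [rst_sum] at key
    have e1 : (∫ x in x0..x1, ∫ y in y0..y1, 2 * I * (cross A B : ℂ) *
        ((‖deriv G (rstL A B (x, y))‖ ^ 2 : ℝ) : ℂ)) = 2 * I * (cross A B : ℂ) *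
        ((∫ x in x0..x1, ∫ y in y0..y1, ‖deriv G (x * A + y * B)‖ ^ 2 : ℝ) : ℂ) := by
      rw [← intervalIntegral.integral_ofReal]
      rw [← intervalIntegral.integral_const_mul]
      congr 1
      funext x
      rw [← intervalIntegral.integral_ofReal, ← intervalIntegral.integral_const_mul]
      simp only [rstL_apply]
    rw [← e1, key]
    simp only [rstL_apply]
    have e2 : ∀ y : ℝ, ∫ x in x0..x1, (starRingEnd ℂ) (G (x * A + y * B)) *
        (-A * deriv G (x * A + y * B)) = -∫ x in x0..x1, (starRingEnd ℂ) (G (x * A + y * B)) *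
        (A * deriv G (x * A + y * B)) := by
      intro y
      rw [← intervalIntegral.integral_neg]
      congr 1
      funext x
      ring
    rw [e2, e2]
    ring
  · simp only [rst_sum]
    have hc : ContinuousOn (fun x : ℝ × ℝ => 2 * I * (cross A B : ℂ) *
        ((‖deriv G (rstL A B x)‖ ^ 2 : ℝ) : ℂ)) (uIcc x0 x1 ×ˢ uIcc y0 y1) :=
      continuousOn_const.mul (Complex.continuous_ofReal.comp_continuousOn (hcG'.norm.pow 2))
    exact hc.integrableOn_compact (isCompact_uIcc.prod isCompact_uIcc)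

end Pool.Agent.TP
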