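import Pool.Agent.Lib_helper53.TP.WDefs
import Pool.Agent.Lib_helper53.TP.B.EXT
import Pool.Agent.Lib_helper53.TP.B.OMG
import Pool.Agent.Lib_helper53.TP.B.RST

/-!
# POS: positivity of holomorphic forms
-/

namespace Pool.Agent.TP

open Set Complex Topology Filter MeasureTheory

/-! ## Coordinates -/

/-- The coefficient of `A` of `z` in the basis `A, B`. -/
noncomputable def pos_c (A B z : ℂ) : ℝ := cross z B / cross A B

theorem pos_cross_swap (A B : ℂ) : cross B A = -cross A B := by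
  unfold cross; ring

theorem pos_ne_swap {A B : ℂ} (hAB : cross A B ≠ 0) : cross B A ≠ 0 := by
  rw [pos_cross_swap]; exact neg_ne_zero.mpr hAB

theorem pos_c_eq {A B : ℂ} (hAB : cross A B ≠ 0) (x y : ℝ) : pos_c A B (x * A + y * B) = x := by
  unfold pos_c
  rw [div_eq_iff hAB]
  unfold cross
  simp
  ring

theorem pos_c_eq' {A B : ℂ} (hAB : cross A B ≠ 0) (x y : ℝ) : pos_c B A (x * A + y * B) = y := by
  rw [add_comm]
  exact pos_c_eq (pos_ne_swap hAB) y x

theorem pos_c_rep {A B : ℂ} (hAB : cross A B ≠ 0) (z : ℂ) :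
    z = (pos_c A B z : ℂ) * A + (pos_c B A z : ℂ) * B := by
  have h1 : (cross A B : ℂ) ≠ 0 := by exact_mod_cast hAB
  unfold pos_c
  rw [pos_cross_swap A B]
  push_cast
  rw [div_neg]
  field_simp
  unfold cross
  apply Complex.ext
  · simp
    ring
  · simp
    ring

theorem pos_c_cont (A B : ℂ) : Continuous (pos_c A B) := by
  unfold pos_c cross
  fun_prop

theorem pos_c_sub (A B z w : ℂ) : pos_c A B (z - w) = pos_c A B z - pos_c A B w := by
  unfold pos_c
  rw [← sub_div]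
  congr 1
  unfold cross
  simp
  ring

theorem pos_cross_le (u B : ℂ) : |cross u B| ≤ ‖u‖ * ‖B‖ := by
  have h : cross u B = ((starRingEnd ℂ) u * B).im := by simp [cross]; ring
  rw [h]
  calc _ ≤ ‖(starRingEnd ℂ) u * B‖ := Complex.abs_im_le_norm _
    _ = _ := by rw [norm_mul, RCLike.norm_conj]

theorem pos_box_open (A B : ℂ) (a1 a2 b1 b2 : ℝ) :
    IsOpen {z : ℂ | a1 < pos_c A B z ∧ pos_c A B z < a2 ∧ b1 < pos_c B A z ∧ pos_c B A z < b2} :=
  (isOpen_lt continuous_const (pos_c_cont A B)).inter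
    ((isOpen_lt (pos_c_cont A B) continuous_const).inter
      ((isOpen_lt continuous_const (pos_c_cont B A)).inter
        (isOpen_lt (pos_c_cont B A) continuous_const)))

theorem pos_mem_plus {A B : ℂ} (hAB : cross A B ≠ 0) (z : ℂ) :
    z ∈ plus A B ↔ (0 < pos_c A B z ∧ pos_c A B z < 1 ∧ -1 < pos_c B A z ∧ pos_c B A z < 2) ∨
      (-1 < pos_c A B z ∧ pos_c A B z < 2 ∧ 0 < pos_c B A z ∧ pos_c B A z < 1) := by
  constructor
  · rintro ⟨x, y, rfl, h⟩
    rw [pos_c_eq hAB, pos_c_eq' hAB]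
    exact h
  · intro h
    exact ⟨_, _, pos_c_rep hAB z, h⟩

theorem pos_plus_open {A B : ℂ} (hAB : cross A B ≠ 0) : IsOpen (plus A B) := by
  have : plus A B = {z : ℂ | 0 < pos_c A B z ∧ pos_c A B z < 1 ∧ -1 < pos_c B A z ∧
      pos_c B A z < 2} ∪ {z : ℂ | -1 < pos_c A B z ∧ pos_c A B z < 2 ∧ 0 < pos_c B A z ∧
      pos_c B A z < 1} := by
    ext z; exact pos_mem_plus hAB z
  rw [this]
  exact (pos_box_open A B 0 1 (-1) 2).union (pos_box_open A B (-1) 2 0 1)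

theorem pos_opara_open {A B : ℂ} (hAB : cross A B ≠ 0) : IsOpen (opara A B) := by
  have : opara A B = {z : ℂ | 0 < pos_c A B z ∧ pos_c A B z < 1 ∧ 0 < pos_c B A z ∧
      pos_c B A z < 1} := by
    ext z
    constructor
    · rintro ⟨x, y, h1, h2, h3, h4, rfl⟩
      show 0 < pos_c A B _ ∧ pos_c A B _ < 1 ∧ 0 < pos_c B A _ ∧ pos_c B A _ < 1
      rw [pos_c_eq hAB, pos_c_eq' hAB]
      exact ⟨h1, h2, h3, h4⟩
    · rintro ⟨h1, h2, h3, h4⟩
      exact ⟨_, _, h1, h2, h3, h4, pos_c_rep hAB z⟩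
  rw [this]
  exact pos_box_open A B 0 1 0 1

theorem pos_ball {A B : ℂ} (hAB : 0 < cross A B) {ε x y : ℝ} (hε : 0 < ε) (hε' : ε < 1 / 2)
    (hx0 : 0 ≤ x) (hx1 : x ≤ 1) (hy0 : 0 ≤ y) (hy1 : y ≤ 1)
    (h : (ε ≤ x ∧ x ≤ 1 - ε) ∨ (ε ≤ y ∧ y ≤ 1 - ε)) :
    Metric.closedBall ((x : ℂ) * A + y * B) (cross A B / (2 * (‖A‖ + ‖B‖)) * ε) ⊆ plus A B := by
  have hA : 0 < ‖A‖ := by
    rw [norm_pos_iff]; rintro rfl; simp [cross] at hAB
  have hB : 0 < ‖B‖ := by
    rw [norm_pos_iff]; rintro rfl; simp [cross] at hAB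
  intro z hz
  rw [Metric.mem_closedBall, dist_eq_norm] at hz
  have hne := hAB.ne'
  have e1 : |pos_c A B z - x| < ε := by
    have h1 := pos_c_sub A B z ((x : ℂ) * A + y * B)
    rw [pos_c_eq hne] at h1
    rw [← h1]
    unfold pos_c
    rw [abs_div, abs_of_pos hAB, div_lt_iff₀ hAB]
    calc _ ≤ ‖z - ((x : ℂ) * A + y * B)‖ * ‖B‖ := pos_cross_le _ _
      _ ≤ (cross A B / (2 * (‖A‖ + ‖B‖)) * ε) * ‖B‖ := by gcongr
      _ = (ε * cross A B) * (‖B‖ / (2 * (‖A‖ + ‖B‖))) := by ring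
      _ < (ε * cross A B) * 1 := by
        apply mul_lt_mul_of_pos_left _ (by positivity)
        rw [div_lt_one (by positivity)]
        linarith
      _ = _ := by ring
  have e2 : |pos_c B A z - y| < ε := by
    have h1 := pos_c_sub B A z ((x : ℂ) * A + y * B)
    rw [pos_c_eq' hne] at h1
    rw [← h1]
    unfold pos_c
    rw [abs_div, pos_cross_swap A B, abs_neg, abs_of_pos hAB, div_lt_iff₀ hAB]
    calc _ ≤ ‖z - ((x : ℂ) * A + y * B)‖ * ‖A‖ := pos_cross_le _ _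
      _ ≤ (cross A B / (2 * (‖A‖ + ‖B‖)) * ε) * ‖A‖ := by gcongr
      _ = (ε * cross A B) * (‖A‖ / (2 * (‖A‖ + ‖B‖))) := by ring
      _ < (ε * cross A B) * 1 := by
        apply mul_lt_mul_of_pos_left _ (by positivity)
        rw [div_lt_one (by positivity)]
        linarith
      _ = _ := by ring
  rw [abs_lt] at e1 e2
  rw [pos_mem_plus hne]
  rcases h with h | h
  · left
    exact ⟨by linarith, by linarith, by linarith, by linarith⟩
  · right
    exact ⟨by linarith, by linarith, by linarith, by linarith⟩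

/-! ## Paths -/

theorem pos_path_deriv {U : Set ℂ} (hU : IsOpen U) {G : ℂ → ℂ} (hG : DifferentiableOn ℂ G U)
    {γ : ℝ → ℂ} {E : ℂ} {t : ℝ} (hγ : HasDerivAt γ E t) (hm : γ t ∈ U) :
    HasDerivAt (fun t => G (γ t)) (E * deriv G (γ t)) t := by
  have h := (hG.hasDerivAt (hU.mem_nhds hm)).scomp t hγ
  simpa [Function.comp_def, smul_eq_mul] using h

theorem pos_path_cont {U : Set ℂ} (hU : IsOpen U) {G : ℂ → ℂ} (hG : DifferentiableOn ℂ G U)
    {γ : ℝ → ℂ} {E : ℂ} {t0 t1 : ℝ} (hγ : ∀ t, HasDerivAt γ E t)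
    (hm : ∀ t ∈ Set.uIcc t0 t1, γ t ∈ U) :
    ContinuousOn (fun t => G (γ t)) (Set.uIcc t0 t1) ∧
      ContinuousOn (fun t => deriv G (γ t)) (Set.uIcc t0 t1) := by
  have hc : ContinuousOn γ (Set.uIcc t0 t1) := fun t _ => (hγ t).continuousAt.continuousWithinAt
  exact ⟨hG.continuousOn.comp hc hm, (hG.deriv hU).continuousOn.comp hc hm⟩

theorem pos_path_int {U : Set ℂ} (hU : IsOpen U) {G : ℂ → ℂ} (hG : DifferentiableOn ℂ G U)
    {γ : ℝ → ℂ} {E : ℂ} {t0 t1 : ℝ} (hγ : ∀ t, HasDerivAt γ E t)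
    (hm : ∀ t ∈ Set.uIcc t0 t1, γ t ∈ U) :
    IntervalIntegrable (fun t => (starRingEnd ℂ) (G (γ t)) * (E * deriv G (γ t))) volume t0 t1 := by
  obtain ⟨h1, h2⟩ := pos_path_cont hU hG hγ hm
  apply ContinuousOn.intervalIntegrable
  exact (Complex.continuous_conj.comp_continuousOn h1).mul (continuousOn_const.mul h2)

theorem pos_path_ftc {U : Set ℂ} (hU : IsOpen U) {G : ℂ → ℂ} (hG : DifferentiableOn ℂ G U)
    {γ : ℝ → ℂ} {E : ℂ} {t0 t1 : ℝ} (hγ : ∀ t, HasDerivAt γ E t)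
    (hm : ∀ t ∈ Set.uIcc t0 t1, γ t ∈ U) :
    ∫ t in t0..t1, E * deriv G (γ t) = G (γ t1) - G (γ t0) := by
  obtain ⟨h1, h2⟩ := pos_path_cont hU hG hγ hm
  refine intervalIntegral.integral_eq_sub_of_hasDerivAt (f := fun t => G (γ t)) ?_ ?_
  · intro t ht
    exact pos_path_deriv hU hG (hγ t) (hm t ht)
  · exact (continuousOn_const.mul h2).intervalIntegrable

theorem pos_short {U : Set ℂ} (hU : IsOpen U) {G : ℂ → ℂ} (hG : DifferentiableOn ℂ G U) {M : ℝ}
    (hM : ∀ z ∈ U, ‖G z‖ ≤ M) {γ : ℝ → ℂ} {E : ℂ} (hγ : ∀ t, HasDerivAt γ E t) {t0 t1 r : ℝ}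
    (ht : t0 ≤ t1) (hr : 0 < r) (hball : ∀ t ∈ Set.Icc t0 t1, Metric.closedBall (γ t) r ⊆ U)
    {q : ℂ} {η : ℝ} (hq : ∀ t ∈ Set.Icc t0 t1, ‖G (γ t) - q‖ ≤ η) :
    ‖∫ t in t0..t1, (starRingEnd ℂ) (G (γ t)) * (E * deriv G (γ t))‖ ≤
      2 * ‖q‖ * η + η * (‖E‖ * (M / r)) * (t1 - t0) := by
  have hm : ∀ t ∈ Set.uIcc t0 t1, γ t ∈ U := by
    intro t h
    rw [Set.uIcc_of_le ht] at h
    exact hball t h (Metric.mem_closedBall_self hr.le)
  have hη : 0 ≤ η := (norm_nonneg _).trans (hq t0 (Set.left_mem_Icc.mpr ht))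
  obtain ⟨h1, h2⟩ := pos_path_cont hU hG hγ hm
  have hder : ∀ t ∈ Set.Icc t0 t1, ‖deriv G (γ t)‖ ≤ M / r := by
    intro t h
    refine Complex.norm_deriv_le_of_forall_mem_sphere_norm_le hr ?_ ?_
    · refine DifferentiableOn.diffContOnCl ?_
      rw [closure_ball _ hr.ne']
      exact hG.mono (hball t h)
    · intro z hz
      exact hM z (hball t h (Metric.sphere_subset_closedBall hz))
  have hsplit : ∫ t in t0..t1, (starRingEnd ℂ) (G (γ t)) * (E * deriv G (γ t)) =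
      (starRingEnd ℂ) q * (G (γ t1) - G (γ t0)) +
      ∫ t in t0..t1, (starRingEnd ℂ) (G (γ t) - q) * (E * deriv G (γ t)) := by
    rw [← pos_path_ftc hU hG hγ hm, ← intervalIntegral.integral_const_mul,
      ← intervalIntegral.integral_add]
    · apply intervalIntegral.integral_congr
      intro t _
      simp only [map_sub]
      ring
    · exact (continuousOn_const.mul (continuousOn_const.mul h2)).intervalIntegrable
    · exact ((Complex.continuous_conj.comp_continuousOn (h1.sub continuousOn_const)).mul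
        (continuousOn_const.mul h2)).intervalIntegrable
  rw [hsplit]
  refine (norm_add_le _ _).trans (add_le_add ?_ ?_)
  · rw [norm_mul, RCLike.norm_conj]
    have e1 := hq t1 (Set.right_mem_Icc.mpr ht)
    have e0 := hq t0 (Set.left_mem_Icc.mpr ht)
    have : ‖G (γ t1) - G (γ t0)‖ ≤ 2 * η := by
      have e : G (γ t1) - G (γ t0) = (G (γ t1) - q) - (G (γ t0) - q) := by ring
      rw [e]
      refine (norm_sub_le _ _).trans ?_
      linarith
    calc ‖q‖ * ‖G (γ t1) - G (γ t0)‖ ≤ ‖q‖ * (2 * η) := by gcongr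
      _ = _ := by ring
  · have hb := intervalIntegral.norm_integral_le_of_norm_le_const (a := t0) (b := t1)
      (f := fun t => (starRingEnd ℂ) (G (γ t) - q) * (E * deriv G (γ t)))
      (C := η * (‖E‖ * (M / r))) (by
        intro t h
        rw [Set.uIoc_of_le ht] at h
        have h' : t ∈ Set.Icc t0 t1 := ⟨h.1.le, h.2⟩
        rw [norm_mul, RCLike.norm_conj, norm_mul]
        have i1 := hq t h'
        have i2 := hder t h'
        gcongr)
    rwa [abs_of_nonneg (by linarith)] at hb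

theorem pos_short_tendsto {A B : ℂ} (hAB : 0 < cross A B) {G F : ℂ → ℂ}
    (hG : DifferentiableOn ℂ G (plus A B)) (hGF : ∀ z ∈ para A B, G z = F z)
    (hF : ContinuousOn F (para A B)) {M : ℝ} (hM : ∀ z ∈ plus A B, ‖G z‖ ≤ M)
    {E : ℂ} {X Y : ℝ → ℝ → ℝ} {t0 t1 : ℝ → ℝ} {i j : ℝ} (hi : 0 ≤ i ∧ i ≤ 1)
    (hj : 0 ≤ j ∧ j ≤ 1)
    (hder : ∀ ε t, HasDerivAt (fun t : ℝ => (X ε t : ℂ) * A + (Y ε t : ℂ) * B) E t)
    (ht : ∀ ε, t1 ε = t0 ε + ε)
    (hX : ∀ ε t, 0 < ε → ε < 1 / 2 → t0 ε ≤ t → t ≤ t0 ε + ε →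
      (0 ≤ X ε t ∧ X ε t ≤ 1 ∧ 0 ≤ Y ε t ∧ Y ε t ≤ 1) ∧ |X ε t - i| ≤ ε ∧ |Y ε t - j| ≤ ε ∧
      ((ε ≤ X ε t ∧ X ε t ≤ 1 - ε) ∨ (ε ≤ Y ε t ∧ Y ε t ≤ 1 - ε))) :
    Tendsto (fun ε => ∫ t in t0 ε..t1 ε,
      (starRingEnd ℂ) (G ((X ε t : ℂ) * A + (Y ε t : ℂ) * B)) *
        (E * deriv G ((X ε t : ℂ) * A + (Y ε t : ℂ) * B))) (𝓝[>] 0) (𝓝 0) := by
  have hA : 0 < ‖A‖ := by
    rw [norm_pos_iff]; rintro rfl; simp [cross] at hAB
  have hB : 0 < ‖B‖ := by
    rw [norm_pos_iff]; rintro rfl; simp [cross] at hAB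
  set κ : ℝ := cross A B / (2 * (‖A‖ + ‖B‖)) with hκ
  have hκ0 : 0 < κ := by positivity
  set Q : ℂ := (i : ℂ) * A + (j : ℂ) * B with hQ
  have hQm : Q ∈ para A B := ⟨i, j, hi.1, hi.2, hj.1, hj.2, rfl⟩
  set K : ℝ := 2 * ‖F Q‖ + ‖E‖ * (|M| / κ) with hK
  have hK0 : 0 ≤ K := by positivity
  rw [Metric.tendsto_nhdsWithin_nhds]
  intro e he
  have hη : 0 < e / (K + 1) := by positivity
  obtain ⟨δ, hδ, hδ'⟩ := Metric.continuousOn_iff.mp hF Q hQm (e / (K + 1)) hη
  refine ⟨min (1 / 2) (δ / (‖A‖ + ‖B‖)), by positivity, ?_⟩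
  intro ε hε hd
  rw [Set.mem_Ioi] at hε
  rw [Real.dist_eq, sub_zero, abs_of_pos hε, lt_min_iff] at hd
  obtain ⟨hd1, hd2⟩ := hd
  rw [lt_div_iff₀ (by positivity)] at hd2
  rw [dist_zero_right]
  have hb := pos_short (pos_plus_open hAB.ne') hG (M := |M|)
    (fun z hz => (hM z hz).trans (le_abs_self M)) (hder ε)
    (t0 := t0 ε) (t1 := t0 ε + ε) (r := κ * ε) (by linarith) (by positivity) (by
      rintro t ⟨h1, h2⟩
      obtain ⟨⟨p1, p2, p3, p4⟩, -, -, p5⟩ := hX ε t hε hd1 h1 h2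
      exact pos_ball hAB hε hd1 p1 p2 p3 p4 p5) (q := F Q) (η := e / (K + 1)) (by
      rintro t ⟨h1, h2⟩
      obtain ⟨⟨p1, p2, p3, p4⟩, p6, p7, p5⟩ := hX ε t hε hd1 h1 h2
      have hm : (X ε t : ℂ) * A + (Y ε t : ℂ) * B ∈ para A B := ⟨_, _, p1, p2, p3, p4, rfl⟩
      rw [hGF _ hm]
      have := hδ' _ hm (by
        rw [dist_eq_norm]
        have e1 : (X ε t : ℂ) * A + (Y ε t : ℂ) * B - Q =
            ((X ε t - i : ℝ) : ℂ) * A + ((Y ε t - j : ℝ) : ℂ) * B := by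
          rw [hQ]; push_cast; ring
        rw [e1]
        refine lt_of_le_of_lt (norm_add_le _ _) ?_
        rw [norm_mul, norm_mul, Complex.norm_real, Complex.norm_real, Real.norm_eq_abs,
          Real.norm_eq_abs]
        calc |X ε t - i| * ‖A‖ + |Y ε t - j| * ‖B‖ ≤ ε * ‖A‖ + ε * ‖B‖ := by gcongr
          _ = ε * (‖A‖ + ‖B‖) := by ring
          _ < δ := hd2)
      rw [dist_eq_norm] at this
      exact this.le)
  rw [ht ε]
  refine lt_of_le_of_lt hb ?_
  have e2 : 2 * ‖F Q‖ * (e / (K + 1)) + e / (K + 1) * (‖E‖ * (|M| / (κ * ε))) *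
      (t0 ε + ε - t0 ε) = e * (K / (K + 1)) := by
    rw [hK]
    field_simp
    ring
  rw [e2]
  have : K / (K + 1) < 1 := by
    rw [div_lt_one (by positivity)]; linarith
  calc e * (K / (K + 1)) < e * 1 := by gcongr
    _ = e := mul_one e

theorem pos_long {S : Type} [Fintype S] (σ : Equiv.Perm S) {U : Set ℂ} (hU : IsOpen U)
    {G : S → ℂ → ℂ} (hG : ∀ s, DifferentiableOn ℂ (G s) U) {c : S → ℂ} {D E : ℂ} {γ : ℝ → ℂ}
    (hγ : ∀ t, HasDerivAt γ E t) {t0 t1 : ℝ} (hm : ∀ t ∈ Set.uIcc t0 t1, γ t ∈ U)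
    (hrel : ∀ s, ∀ t ∈ Set.uIcc t0 t1, ∀ᶠ z in 𝓝 (γ t), G (σ s) z = G s (D + z) - c s) :
    ∑ s, ((∫ t in t0..t1, (starRingEnd ℂ) (G s (D + γ t)) * (E * deriv (G s) (D + γ t))) -
      ∫ t in t0..t1, (starRingEnd ℂ) (G s (γ t)) * (E * deriv (G s) (γ t))) =
    ∑ s, (starRingEnd ℂ) (c s) * (G (σ s) (γ t1) - G (σ s) (γ t0)) := by
  have h1 : ∀ s, (∫ t in t0..t1, (starRingEnd ℂ) (G s (D + γ t)) *
      (E * deriv (G s) (D + γ t))) =
      (∫ t in t0..t1, (starRingEnd ℂ) (G (σ s) (γ t)) * (E * deriv (G (σ s)) (γ t))) +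
      (starRingEnd ℂ) (c s) * (G (σ s) (γ t1) - G (σ s) (γ t0)) := by
    intro s
    rw [← pos_path_ftc hU (hG (σ s)) hγ hm, ← intervalIntegral.integral_const_mul,
      ← intervalIntegral.integral_add (pos_path_int hU (hG (σ s)) hγ hm)]
    · apply intervalIntegral.integral_congr
      intro t ht
      have hr := hrel s t ht
      have e1 : G s (D + γ t) = G (σ s) (γ t) + c s := by
        rw [hr.self_of_nhds]; ring
      have e2 : deriv (G s) (D + γ t) = deriv (G (σ s)) (γ t) := by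
        have e3 : G (σ s) =ᶠ[𝓝 (γ t)] fun z => G s (D + z) - c s := hr
        rw [e3.deriv_eq, deriv_sub_const, deriv_comp_const_add]
      simp only
      rw [e1, e2, map_add]
      ring
    · obtain ⟨h1, h2⟩ := pos_path_cont hU (hG (σ s)) hγ hm
      exact (continuousOn_const.mul (continuousOn_const.mul h2)).intervalIntegrable
  rw [Finset.sum_sub_distrib]
  simp only [h1]
  rw [Finset.sum_add_distrib, Equiv.sum_comp σ (fun s => ∫ t in t0..t1,
    (starRingEnd ℂ) (G s (γ t)) * (E * deriv (G s) (γ t)))]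
  ring

/-- Limits at boundary points. -/
theorem pos_lim {A B : ℂ} {G F : ℂ → ℂ} (hGF : ∀ z ∈ para A B, G z = F z)
    (hF : ContinuousOn F (para A B)) {X Y : ℝ → ℝ} (hX : Continuous X) (hY : Continuous Y)
    (h0 : ∀ ε, 0 ≤ ε → ε < 1 / 2 → 0 ≤ X ε ∧ X ε ≤ 1 ∧ 0 ≤ Y ε ∧ Y ε ≤ 1) :
    Tendsto (fun ε : ℝ => G ((X ε : ℂ) * A + (Y ε : ℂ) * B)) (𝓝[>] 0)
      (𝓝 (F ((X 0 : ℂ) * A + (Y 0 : ℂ) * B))) := by
  have hev : ∀ᶠ ε : ℝ in 𝓝[>] 0, (X ε : ℂ) * A + (Y ε : ℂ) * B ∈ para A B := by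
    have : Set.Iio (1 / 2 : ℝ) ∈ 𝓝[>] (0 : ℝ) :=
      mem_nhdsWithin_of_mem_nhds (Iio_mem_nhds (by norm_num))
    filter_upwards [this, self_mem_nhdsWithin] with ε h1 h2
    obtain ⟨p1, p2, p3, p4⟩ := h0 ε (le_of_lt h2) h1
    exact ⟨_, _, p1, p2, p3, p4, rfl⟩
  obtain ⟨p1, p2, p3, p4⟩ := h0 0 le_rfl (by norm_num)
  have hQ : (X 0 : ℂ) * A + (Y 0 : ℂ) * B ∈ para A B := ⟨_, _, p1, p2, p3, p4, rfl⟩
  have hc : Continuous (fun ε : ℝ => (X ε : ℂ) * A + (Y ε : ℂ) * B) := by fun_prop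
  have ht : Tendsto (fun ε : ℝ => (X ε : ℂ) * A + (Y ε : ℂ) * B) (𝓝[>] 0)
      (𝓝[para A B] ((X 0 : ℂ) * A + (Y 0 : ℂ) * B)) :=
    tendsto_nhdsWithin_iff.mpr ⟨(hc.tendsto 0).mono_left nhdsWithin_le_nhds, hev⟩
  have h := (hF _ hQ).tendsto.comp ht
  refine h.congr' ?_
  filter_upwards [hev] with ε hε
  rw [Function.comp_apply, hGF _ hε]

/-! ## Double integrals -/

theorem pos_mono {g : ℝ → ℝ → ℝ} {x0 x1 y0 y1 u0 u1 v0 v1 : ℝ} (hg : ∀ x y, 0 ≤ g x y)
    (hc : ContinuousOn (Function.uncurry g) (Set.Icc x0 x1 ×ˢ Set.Icc y0 y1))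
    (h1 : x0 ≤ u0) (h2 : u0 ≤ u1) (h3 : u1 ≤ x1) (h4 : y0 ≤ v0) (h5 : v0 ≤ v1) (h6 : v1 ≤ y1) :
    (∫ x in u0..u1, ∫ y in v0..v1, g x y) ≤ ∫ x in x0..x1, ∫ y in y0..y1, g x y := by
  have hI : IntegrableOn (Function.uncurry g) (Set.Ioc x0 x1 ×ˢ Set.Ioc y0 y1)
      ((volume : Measure ℝ).prod (volume : Measure ℝ)) := by
    refine IntegrableOn.mono_set (t := Set.Icc x0 x1 ×ˢ Set.Icc y0 y1) ?_
      (Set.prod_mono Set.Ioc_subset_Icc_self Set.Ioc_subset_Icc_self)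
    exact hc.integrableOn_compact (isCompact_Icc.prod isCompact_Icc)
  have hsub : Set.Ioc u0 u1 ×ˢ Set.Ioc v0 v1 ⊆ Set.Ioc x0 x1 ×ˢ Set.Ioc y0 y1 :=
    Set.prod_mono (Set.Ioc_subset_Ioc h1 h3) (Set.Ioc_subset_Ioc h4 h6)
  have e1 : (∫ x in x0..x1, ∫ y in y0..y1, g x y) =
      ∫ z in Set.Ioc x0 x1 ×ˢ Set.Ioc y0 y1, Function.uncurry g z
        ∂((volume : Measure ℝ).prod (volume : Measure ℝ)) := by
    rw [setIntegral_prod _ hI, intervalIntegral.integral_of_le (by linarith)]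
    congr 1
    funext x
    rw [intervalIntegral.integral_of_le (by linarith)]
    rfl
  have e2 : (∫ x in u0..u1, ∫ y in v0..v1, g x y) =
      ∫ z in Set.Ioc u0 u1 ×ˢ Set.Ioc v0 v1, Function.uncurry g z
        ∂((volume : Measure ℝ).prod (volume : Measure ℝ)) := by
    rw [setIntegral_prod _ (hI.mono_set hsub), intervalIntegral.integral_of_le h2]
    congr 1
    funext x
    rw [intervalIntegral.integral_of_le h5]
    rfl
  rw [e1, e2]
  refine setIntegral_mono_set hI ?_ (LE.le.eventuallyLE hsub)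
  exact Filter.Eventually.of_forall (fun z => hg z.1 z.2)

theorem pos_zero {g : ℝ → ℝ → ℝ} {u0 u1 v0 v1 : ℝ} (hg : ∀ x y, 0 ≤ g x y)
    (hc : ContinuousOn (Function.uncurry g) (Set.Icc u0 u1 ×ˢ Set.Icc v0 v1))
    (h2 : u0 ≤ u1) (h5 : v0 ≤ v1)
    (h0 : (∫ x in u0..u1, ∫ y in v0..v1, g x y) ≤ 0) {x y : ℝ} (hx : x ∈ Set.Ioo u0 u1)
    (hy : y ∈ Set.Ioo v0 v1) : g x y = 0 := by
  have hI : IntegrableOn (Function.uncurry g) (Set.Ioc u0 u1 ×ˢ Set.Ioc v0 v1)
      ((volume : Measure ℝ).prod (volume : Measure ℝ)) := by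
    refine IntegrableOn.mono_set (t := Set.Icc u0 u1 ×ˢ Set.Icc v0 v1) ?_
      (Set.prod_mono Set.Ioc_subset_Icc_self Set.Ioc_subset_Icc_self)
    exact hc.integrableOn_compact (isCompact_Icc.prod isCompact_Icc)
  have e2 : (∫ x in u0..u1, ∫ y in v0..v1, g x y) =
      ∫ z in Set.Ioc u0 u1 ×ˢ Set.Ioc v0 v1, Function.uncurry g z
        ∂((volume : Measure ℝ).prod (volume : Measure ℝ)) := by
    rw [setIntegral_prod _ hI, intervalIntegral.integral_of_le h2]
    congr 1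
    funext x
    rw [intervalIntegral.integral_of_le h5]
    rfl
  rw [e2] at h0
  have h0' : ∫ z in Set.Ioc u0 u1 ×ˢ Set.Ioc v0 v1, Function.uncurry g z
        ∂((volume : Measure ℝ).prod (volume : Measure ℝ)) = 0 :=
    le_antisymm h0 (integral_nonneg (fun z => hg z.1 z.2))
  have hnn : 0 ≤ᵐ[((volume : Measure ℝ).prod (volume : Measure ℝ)).restrict
      (Set.Ioc u0 u1 ×ˢ Set.Ioc v0 v1)] Function.uncurry g :=
    Filter.Eventually.of_forall (fun z : ℝ × ℝ => hg z.1 z.2)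
  have hae := (setIntegral_eq_zero_iff_of_nonneg_ae hnn hI).mp h0'
  have hsub : Set.Ioo u0 u1 ×ˢ Set.Ioo v0 v1 ⊆ Set.Ioc u0 u1 ×ˢ Set.Ioc v0 v1 :=
    Set.prod_mono Set.Ioo_subset_Ioc_self Set.Ioo_subset_Ioc_self
  have hae' := ae_restrict_of_ae_restrict_of_subset hsub hae
  have h := Measure.eqOn_open_of_ae_eq hae' (isOpen_Ioo.prod isOpen_Ioo)
    (hc.mono (Set.prod_mono Set.Ioo_subset_Icc_self Set.Ioo_subset_Icc_self)) continuousOn_const
  exact h (show (x, y) ∈ _ from ⟨hx, hy⟩)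

/-! ## Assembly -/

/-- Horizontal integrals. -/
noncomputable def pos_H (G : ℂ → ℂ) (A B : ℂ) (y x0 x1 : ℝ) : ℂ :=
  ∫ x in x0..x1, (starRingEnd ℂ) (G (x * A + y * B)) * (A * deriv G (x * A + y * B))

/-- Vertical integrals. -/
noncomputable def pos_V (G : ℂ → ℂ) (A B : ℂ) (x y0 y1 : ℝ) : ℂ :=
  ∫ y in y0..y1, (starRingEnd ℂ) (G (x * A + y * B)) * (B * deriv G (x * A + y * B))

/-- Dirichlet integrals. -/
noncomputable def pos_D (G : ℂ → ℂ) (A B : ℂ) (x0 x1 y0 y1 : ℝ) : ℝ :=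
  ∫ x in x0..x1, ∫ y in y0..y1, ‖deriv G (x * A + y * B)‖ ^ 2

theorem pos_D_nonneg (G : ℂ → ℂ) (A B : ℂ) {x0 x1 y0 y1 : ℝ} (hx : x0 ≤ x1) (hy : y0 ≤ y1) :
    0 ≤ pos_D G A B x0 x1 y0 y1 := by
  unfold pos_D
  refine intervalIntegral.integral_nonneg hx (fun x _ => ?_)
  exact intervalIntegral.integral_nonneg hy (fun y _ => by positivity)

theorem pos_mem {A B : ℂ} {x y : ℝ}
    (h : (0 < x ∧ x < 1 ∧ 0 ≤ y ∧ y ≤ 1) ∨ (0 ≤ x ∧ x ≤ 1 ∧ 0 < y ∧ y < 1)) :
    (x : ℂ) * A + (y : ℂ) * B ∈ plus A B := by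
  rcases h with ⟨h1, h2, h3, h4⟩ | ⟨h1, h2, h3, h4⟩
  · exact ⟨x, y, rfl, Or.inl ⟨h1, h2, by linarith, by linarith⟩⟩
  · exact ⟨x, y, rfl, Or.inr ⟨by linarith, by linarith, h3, h4⟩⟩

theorem pos_dH (A B : ℂ) (y t : ℝ) :
    HasDerivAt (fun t : ℝ => (t : ℂ) * A + (y : ℂ) * B) A t := by
  have h : HasDerivAt (fun t : ℝ => (t : ℂ)) 1 t := Complex.ofRealCLM.hasDerivAt
  simpa using (h.mul_const A).add_const ((y : ℂ) * B)

theorem pos_dV (A B : ℂ) (x t : ℝ) :
    HasDerivAt (fun t : ℝ => (x : ℂ) * A + (t : ℂ) * B) B t := by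
  have h : HasDerivAt (fun t : ℝ => (t : ℂ)) 1 t := Complex.ofRealCLM.hasDerivAt
  simpa using (h.mul_const B).const_add ((x : ℂ) * A)

theorem pos_local {A B : ℂ} (hAB : 0 < cross A B) {G : ℂ → ℂ}
    (hG : DifferentiableOn ℂ G (plus A B)) {ε : ℝ} (hε : 0 < ε) (hε' : ε < 1 / 2) :
    (pos_V G A B 1 ε (1 - ε) - pos_V G A B 0 ε (1 - ε)) -
      (pos_H G A B 1 ε (1 - ε) - pos_H G A B 0 ε (1 - ε)) +
    (pos_H G A B ε 0 ε + pos_H G A B ε (1 - ε) 1 - pos_H G A B (1 - ε) 0 ε -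
      pos_H G A B (1 - ε) (1 - ε) 1 + pos_V G A B (1 - ε) 0 ε - pos_V G A B ε 0 ε +
      pos_V G A B (1 - ε) (1 - ε) 1 - pos_V G A B ε (1 - ε) 1) =
    2 * I * (cross A B : ℂ) * ((pos_D G A B 0 1 ε (1 - ε) + pos_D G A B ε (1 - ε) 0 ε +
      pos_D G A B ε (1 - ε) (1 - ε) 1 : ℝ) : ℂ) := by
  have hU := pos_plus_open hAB.ne'
  have s1 := rect_stokes hAB hU hG (x0 := 0) (x1 := 1) (y0 := ε) (y1 := 1 - ε) (by norm_num)
    (by linarith) (fun x y h1 h2 h3 h4 => pos_mem (Or.inr ⟨h1, h2, by linarith, by linarith⟩))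
  have s2 := rect_stokes hAB hU hG (x0 := ε) (x1 := 1 - ε) (y0 := 0) (y1 := ε) (by linarith)
    (by linarith) (fun x y h1 h2 h3 h4 => pos_mem (Or.inl ⟨by linarith, by linarith, h3,
      by linarith⟩))
  have s3 := rect_stokes hAB hU hG (x0 := ε) (x1 := 1 - ε) (y0 := 1 - ε) (y1 := 1) (by linarith)
    (by linarith) (fun x y h1 h2 h3 h4 => pos_mem (Or.inl ⟨by linarith, by linarith,
      by linarith, h4⟩))
  have split : ∀ y : ℝ, 0 < y → y < 1 → pos_H G A B y 0 1 =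
      pos_H G A B y 0 ε + pos_H G A B y ε (1 - ε) + pos_H G A B y (1 - ε) 1 := by
    intro y hy0 hy1
    have hint : ∀ p q : ℝ, 0 ≤ p → p ≤ q → q ≤ 1 → IntervalIntegrable (fun x : ℝ =>
        (starRingEnd ℂ) (G (x * A + y * B)) * (A * deriv G (x * A + y * B))) volume p q := by
      intro p q hp hpq hq
      refine pos_path_int hU hG (pos_dH A B y) ?_
      intro t ht
      rw [Set.uIcc_of_le hpq] at ht
      exact pos_mem (Or.inr ⟨by linarith [ht.1], by linarith [ht.2], hy0, hy1⟩)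
    unfold pos_H
    rw [intervalIntegral.integral_add_adjacent_intervals, 
      intervalIntegral.integral_add_adjacent_intervals]
    · exact hint _ _ le_rfl (by linarith) (by linarith)
    · exact hint _ _ (by linarith) (by linarith) (by linarith)
    · exact hint _ _ le_rfl (by linarith) (by linarith)
    · exact hint _ _ (by linarith) (by linarith) (by linarith)
  have k1 := split ε hε (by linarith)
  have k2 := split (1 - ε) (by linarith) (by linarith)
  change pos_H G A B ε 0 1 - pos_H G A B (1 - ε) 0 1 + pos_V G A B 1 ε (1 - ε) -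
    pos_V G A B 0 ε (1 - ε) = 2 * I * (cross A B : ℂ) * (pos_D G A B 0 1 ε (1 - ε) : ℂ) at s1
  change pos_H G A B 0 ε (1 - ε) - pos_H G A B ε ε (1 - ε) + pos_V G A B (1 - ε) 0 ε -
    pos_V G A B ε 0 ε = 2 * I * (cross A B : ℂ) * (pos_D G A B ε (1 - ε) 0 ε : ℂ) at s2
  change pos_H G A B (1 - ε) ε (1 - ε) - pos_H G A B 1 ε (1 - ε) + pos_V G A B (1 - ε) (1 - ε) 1 -
    pos_V G A B ε (1 - ε) 1 = 2 * I * (cross A B : ℂ) * (pos_D G A B ε (1 - ε) (1 - ε) 1 : ℂ) at s3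
  push_cast
  rw [mul_add, mul_add, ← s1, ← s2, ← s3, k1, k2]
  ring

theorem pos_shorts {A B : ℂ} (hAB : 0 < cross A B) {G F : ℂ → ℂ}
    (hG : DifferentiableOn ℂ G (plus A B)) (hGF : ∀ z ∈ para A B, G z = F z)
    (hF : ContinuousOn F (para A B)) {M : ℝ} (hM : ∀ z ∈ plus A B, ‖G z‖ ≤ M) :
    Tendsto (fun ε => pos_H G A B ε 0 ε + pos_H G A B ε (1 - ε) 1 - pos_H G A B (1 - ε) 0 ε -
      pos_H G A B (1 - ε) (1 - ε) 1 + pos_V G A B (1 - ε) 0 ε - pos_V G A B ε 0 ε +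
      pos_V G A B (1 - ε) (1 - ε) 1 - pos_V G A B ε (1 - ε) 1) (𝓝[>] 0) (𝓝 0) := by
  have T1 : Tendsto (fun ε => pos_H G A B ε 0 ε) (𝓝[>] 0) (𝓝 0) := by
    refine pos_short_tendsto hAB hG hGF hF hM (X := fun _ t => t) (Y := fun ε _ => ε)
      (t0 := fun _ => 0) (t1 := fun ε => ε) (i := 0) (j := 0) ⟨by norm_num, by norm_num⟩
      ⟨by norm_num, by norm_num⟩ (fun ε t => pos_dH A B ε t) (fun ε => by ring) ?_
    intro ε t h1 h2 h3 h4
    refine ⟨⟨by linarith, by linarith, by linarith, by linarith⟩, ?_, ?_, ?_⟩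
    · rw [abs_le]; constructor <;> linarith
    · rw [abs_le]; constructor <;> linarith
    · right; constructor <;> linarith
  have T2 : Tendsto (fun ε => pos_H G A B ε (1 - ε) 1) (𝓝[>] 0) (𝓝 0) := by
    refine pos_short_tendsto hAB hG hGF hF hM (X := fun _ t => t) (Y := fun ε _ => ε)
      (t0 := fun ε => 1 - ε) (t1 := fun _ => 1) (i := 1) (j := 0) ⟨by norm_num, by norm_num⟩
      ⟨by norm_num, by norm_num⟩ (fun ε t => pos_dH A B ε t) (fun ε => by ring) ?_
    intro ε t h1 h2 h3 h4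
    refine ⟨⟨by linarith, by linarith, by linarith, by linarith⟩, ?_, ?_, ?_⟩
    · rw [abs_le]; constructor <;> linarith
    · rw [abs_le]; constructor <;> linarith
    · right; constructor <;> linarith
  have T3 : Tendsto (fun ε => pos_H G A B (1 - ε) 0 ε) (𝓝[>] 0) (𝓝 0) := by
    refine pos_short_tendsto hAB hG hGF hF hM (X := fun _ t => t) (Y := fun ε _ => 1 - ε)
      (t0 := fun _ => 0) (t1 := fun ε => ε) (i := 0) (j := 1) ⟨by norm_num, by norm_num⟩
      ⟨by norm_num, by norm_num⟩ (fun ε t => pos_dH A B (1 - ε) t) (fun ε => by ring) ?_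
    intro ε t h1 h2 h3 h4
    refine ⟨⟨by linarith, by linarith, by linarith, by linarith⟩, ?_, ?_, ?_⟩
    · rw [abs_le]; constructor <;> linarith
    · rw [abs_le]; constructor <;> linarith
    · right; constructor <;> linarith
  have T4 : Tendsto (fun ε => pos_H G A B (1 - ε) (1 - ε) 1) (𝓝[>] 0) (𝓝 0) := by
    refine pos_short_tendsto hAB hG hGF hF hM (X := fun _ t => t) (Y := fun ε _ => 1 - ε)
      (t0 := fun ε => 1 - ε) (t1 := fun _ => 1) (i := 1) (j := 1) ⟨by norm_num, by norm_num⟩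
      ⟨by norm_num, by norm_num⟩ (fun ε t => pos_dH A B (1 - ε) t) (fun ε => by ring) ?_
    intro ε t h1 h2 h3 h4
    refine ⟨⟨by linarith, by linarith, by linarith, by linarith⟩, ?_, ?_, ?_⟩
    · rw [abs_le]; constructor <;> linarith
    · rw [abs_le]; constructor <;> linarith
    · right; constructor <;> linarith
  have T5 : Tendsto (fun ε => pos_V G A B (1 - ε) 0 ε) (𝓝[>] 0) (𝓝 0) := by
    refine pos_short_tendsto hAB hG hGF hF hM (X := fun ε _ => 1 - ε) (Y := fun _ t => t)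
      (t0 := fun _ => 0) (t1 := fun ε => ε) (i := 1) (j := 0) ⟨by norm_num, by norm_num⟩
      ⟨by norm_num, by norm_num⟩ (fun ε t => pos_dV A B (1 - ε) t) (fun ε => by ring) ?_
    intro ε t h1 h2 h3 h4
    refine ⟨⟨by linarith, by linarith, by linarith, by linarith⟩, ?_, ?_, ?_⟩
    · rw [abs_le]; constructor <;> linarith
    · rw [abs_le]; constructor <;> linarith
    · left; constructor <;> linarith
  have T6 : Tendsto (fun ε => pos_V G A B ε 0 ε) (𝓝[>] 0) (𝓝 0) := by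
    refine pos_short_tendsto hAB hG hGF hF hM (X := fun ε _ => ε) (Y := fun _ t => t)
      (t0 := fun _ => 0) (t1 := fun ε => ε) (i := 0) (j := 0) ⟨by norm_num, by norm_num⟩
      ⟨by norm_num, by norm_num⟩ (fun ε t => pos_dV A B ε t) (fun ε => by ring) ?_
    intro ε t h1 h2 h3 h4
    refine ⟨⟨by linarith, by linarith, by linarith, by linarith⟩, ?_, ?_, ?_⟩
    · rw [abs_le]; constructor <;> linarith
    · rw [abs_le]; constructor <;> linarith
    · left; constructor <;> linarith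
  have T7 : Tendsto (fun ε => pos_V G A B (1 - ε) (1 - ε) 1) (𝓝[>] 0) (𝓝 0) := by
    refine pos_short_tendsto hAB hG hGF hF hM (X := fun ε _ => 1 - ε) (Y := fun _ t => t)
      (t0 := fun ε => 1 - ε) (t1 := fun _ => 1) (i := 1) (j := 1) ⟨by norm_num, by norm_num⟩
      ⟨by norm_num, by norm_num⟩ (fun ε t => pos_dV A B (1 - ε) t) (fun ε => by ring) ?_
    intro ε t h1 h2 h3 h4
    refine ⟨⟨by linarith, by linarith, by linarith, by linarith⟩, ?_, ?_, ?_⟩
    · rw [abs_le]; constructor <;> linarith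
    · rw [abs_le]; constructor <;> linarith
    · left; constructor <;> linarith
  have T8 : Tendsto (fun ε => pos_V G A B ε (1 - ε) 1) (𝓝[>] 0) (𝓝 0) := by
    refine pos_short_tendsto hAB hG hGF hF hM (X := fun ε _ => ε) (Y := fun _ t => t)
      (t0 := fun ε => 1 - ε) (t1 := fun _ => 1) (i := 0) (j := 1) ⟨by norm_num, by norm_num⟩
      ⟨by norm_num, by norm_num⟩ (fun ε t => pos_dV A B ε t) (fun ε => by ring) ?_
    intro ε t h1 h2 h3 h4
    refine ⟨⟨by linarith, by linarith, by linarith, by linarith⟩, ?_, ?_, ?_⟩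
    · rw [abs_le]; constructor <;> linarith
    · rw [abs_le]; constructor <;> linarith
    · left; constructor <;> linarith
  simpa using ((((((T1.add T2).sub T3).sub T4).add T5).sub T6).add T7).sub T8

theorem hol_pos {S : Type} [Fintype S] {h v : Equiv.Perm S} {A B : ℂ} (hAB : 0 < cross A B)
    {a b : S → ℂ} (H : HolO h v A B a b) (hab : a ≠ 0 ∨ b ≠ 0) :
    ((fun s => (a s).re, fun s => (b s).re) : Pr S) ∈ ZO h v ∧
    ((fun s => (a s).im, fun s => (b s).im) : Pr S) ∈ ZO h v ∧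
    0 < om h v (fun s => (a s).re, fun s => (b s).re) (fun s => (a s).im, fun s => (b s).im) := by
  obtain ⟨F, h1, h2, h3, h4, h5⟩ := H
  obtain ⟨G, g1, g2, ⟨M, g3⟩, g4, g5⟩ := hol_ext h v hAB F h1 h2 h3 h4 h5
  have hne := hAB.ne'
  have hU := pos_plus_open hne
  -- the values at the corners
  have FA : ∀ s, F s A = a s := by
    intro s
    have := h4 s 0 le_rfl (by norm_num)
    simp only [Complex.ofReal_zero, zero_mul, add_zero, h3] at this
    linear_combination -this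
  have FB : ∀ s, F s B = b s := by
    intro s
    have := h5 s 0 le_rfl (by norm_num)
    simp only [Complex.ofReal_zero, zero_mul, add_zero, h3] at this
    linear_combination -this
  have coc : ∀ s, a s + b (h s) = b s + a (v s) := by
    intro s
    have e1 := h4 s 1 (by norm_num) le_rfl
    have e2 := h5 s 1 (by norm_num) le_rfl
    simp only [Complex.ofReal_one, one_mul, FA, FB] at e1 e2
    rw [add_comm B A] at e2
    linear_combination e1 - e2
  have mre : ((fun s => (a s).re, fun s => (b s).re) : Pr S) ∈ ZO h v := by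
    intro s
    simpa using congrArg Complex.re (coc s)
  have mim : ((fun s => (a s).im, fun s => (b s).im) : Pr S) ∈ ZO h v := by
    intro s
    simpa using congrArg Complex.im (coc s)
  refine ⟨mre, mim, ?_⟩
  -- the boundary term
  set L : ℂ := ∑ s, (starRingEnd ℂ) (a s) * b (h s) - ∑ s, (starRingEnd ℂ) (b s) * a (v s) with hL
  have hLim : L.im = 2 * om h v (fun s => (a s).re, fun s => (b s).re)
      (fun s => (a s).im, fun s => (b s).im) := by
    have e1 : L.im = om h v (fun s => (a s).re, fun s => (b s).re)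
        (fun s => (a s).im, fun s => (b s).im) - om h v (fun s => (a s).im, fun s => (b s).im)
        (fun s => (a s).re, fun s => (b s).re) := by
      rw [hL]
      unfold om
      rw [Complex.sub_im, Complex.im_sum, Complex.im_sum, ← Finset.sum_sub_distrib,
        ← Finset.sum_sub_distrib]
      refine Finset.sum_congr rfl (fun s _ => ?_)
      simp
      ring
    rw [e1, om_anti mim mre]
    ring
  -- the long sides
  have longV : ∀ ε : ℝ, 0 < ε → ε < 1 / 2 →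
      ∑ s, (pos_V (G s) A B 1 ε (1 - ε) - pos_V (G s) A B 0 ε (1 - ε)) =
      ∑ s, (starRingEnd ℂ) (a s) * (G (h s) (((0 : ℝ) : ℂ) * A + ((1 - ε : ℝ) : ℂ) * B) -
        G (h s) (((0 : ℝ) : ℂ) * A + (ε : ℂ) * B)) := by
    intro ε hε hε'
    have hk := pos_long h hU g1 (c := a) (D := A) (E := B)
      (γ := fun t : ℝ => ((0 : ℝ) : ℂ) * A + (t : ℂ) * B) (pos_dV A B 0) (t0 := ε)
      (t1 := 1 - ε) (by
        intro t ht
        rw [Set.uIcc_of_le (by linarith)] at ht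
        exact pos_mem (Or.inr ⟨le_rfl, by norm_num, by linarith [ht.1], by linarith [ht.2]⟩)) (by
        intro s t ht
        rw [Set.uIcc_of_le (by linarith)] at ht
        have hm : ((0 : ℝ) : ℂ) * A + (t : ℂ) * B ∈ {z : ℂ | -1 < pos_c A B z ∧ pos_c A B z < 1 ∧
            0 < pos_c B A z ∧ pos_c B A z < 1} := by
          show -1 < pos_c A B _ ∧ pos_c A B _ < 1 ∧ 0 < pos_c B A _ ∧ pos_c B A _ < 1
          rw [pos_c_eq hne, pos_c_eq' hne]
          exact ⟨by norm_num, by norm_num, by linarith [ht.1], by linarith [ht.2]⟩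
        filter_upwards [(pos_box_open A B (-1) 1 0 1).mem_nhds hm] with z hz
        obtain ⟨z1, z2, z3, z4⟩ := hz
        have := g4 s _ _ z1 z2 z3 z4
        rwa [← pos_c_rep hne z] at this)
    rw [← hk]
    refine Finset.sum_congr rfl (fun s _ => ?_)
    have e : ∀ t : ℝ, ((1 : ℝ) : ℂ) * A + (t : ℂ) * B =
        A + (((0 : ℝ) : ℂ) * A + (t : ℂ) * B) := by
      intro t; push_cast; ring
    unfold pos_V
    simp only [e]
  have longH : ∀ ε : ℝ, 0 < ε → ε < 1 / 2 →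
      ∑ s, (pos_H (G s) A B 1 ε (1 - ε) - pos_H (G s) A B 0 ε (1 - ε)) =
      ∑ s, (starRingEnd ℂ) (b s) * (G (v s) (((1 - ε : ℝ) : ℂ) * A + ((0 : ℝ) : ℂ) * B) -
        G (v s) ((ε : ℂ) * A + ((0 : ℝ) : ℂ) * B)) := by
    intro ε hε hε'
    have hk := pos_long v hU g1 (c := b) (D := B) (E := A)
      (γ := fun t : ℝ => (t : ℂ) * A + ((0 : ℝ) : ℂ) * B) (pos_dH A B 0) (t0 := ε)
      (t1 := 1 - ε) (by
        intro t ht
        rw [Set.uIcc_of_le (by linarith)] at ht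
        exact pos_mem (Or.inl ⟨by linarith [ht.1], by linarith [ht.2], le_rfl, by norm_num⟩)) (by
        intro s t ht
        rw [Set.uIcc_of_le (by linarith)] at ht
        have hm : (t : ℂ) * A + ((0 : ℝ) : ℂ) * B ∈ {z : ℂ | 0 < pos_c A B z ∧ pos_c A B z < 1 ∧
            -1 < pos_c B A z ∧ pos_c B A z < 1} := by
          show 0 < pos_c A B _ ∧ pos_c A B _ < 1 ∧ -1 < pos_c B A _ ∧ pos_c B A _ < 1
          rw [pos_c_eq hne, pos_c_eq' hne]
          exact ⟨by linarith [ht.1], by linarith [ht.2], by norm_num, by norm_num⟩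
        filter_upwards [(pos_box_open A B 0 1 (-1) 1).mem_nhds hm] with z hz
        obtain ⟨z1, z2, z3, z4⟩ := hz
        have := g5 s _ _ z1 z2 z3 z4
        rwa [← pos_c_rep hne z] at this)
    rw [← hk]
    refine Finset.sum_congr rfl (fun s _ => ?_)
    have e : ∀ t : ℝ, (t : ℂ) * A + ((1 : ℝ) : ℂ) * B =
        B + ((t : ℂ) * A + ((0 : ℝ) : ℂ) * B) := by
      intro t; push_cast; ring
    unfold pos_H
    simp only [e]
  -- the limit of the boundary terms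
  have limit : Tendsto (fun ε : ℝ => (∑ s, (starRingEnd ℂ) (a s) *
        (G (h s) (((0 : ℝ) : ℂ) * A + ((1 - ε : ℝ) : ℂ) * B) -
        G (h s) (((0 : ℝ) : ℂ) * A + (ε : ℂ) * B))) -
      (∑ s, (starRingEnd ℂ) (b s) * (G (v s) (((1 - ε : ℝ) : ℂ) * A + ((0 : ℝ) : ℂ) * B) -
        G (v s) ((ε : ℂ) * A + ((0 : ℝ) : ℂ) * B))) +
      ∑ s, (pos_H (G s) A B ε 0 ε + pos_H (G s) A B ε (1 - ε) 1 - pos_H (G s) A B (1 - ε) 0 ε -
      pos_H (G s) A B (1 - ε) (1 - ε) 1 + pos_V (G s) A B (1 - ε) 0 ε - pos_V (G s) A B ε 0 ε +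
      pos_V (G s) A B (1 - ε) (1 - ε) 1 - pos_V (G s) A B ε (1 - ε) 1)) (𝓝[>] 0) (𝓝 L) := by
    have l1 : ∀ s, Tendsto (fun ε : ℝ => G s (((0 : ℝ) : ℂ) * A + ((1 - ε : ℝ) : ℂ) * B))
        (𝓝[>] 0) (𝓝 (b s)) := by
      intro s
      have := pos_lim (g2 s) (h1 s) (X := fun _ => 0) (Y := fun ε => 1 - ε) continuous_const
        (by fun_prop) (fun ε h0 h1 => ⟨le_rfl, by norm_num, by linarith, by linarith⟩)
      simpa [FB] using this
    have l2 : ∀ s, Tendsto (fun ε : ℝ => G s (((0 : ℝ) : ℂ) * A + (ε : ℂ) * B))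
        (𝓝[>] 0) (𝓝 0) := by
      intro s
      have := pos_lim (g2 s) (h1 s) (X := fun _ => 0) (Y := fun ε => ε) continuous_const
        (by fun_prop) (fun ε h0 h1 => ⟨le_rfl, by norm_num, by linarith, by linarith⟩)
      simpa [h3] using this
    have l3 : ∀ s, Tendsto (fun ε : ℝ => G s (((1 - ε : ℝ) : ℂ) * A + ((0 : ℝ) : ℂ) * B))
        (𝓝[>] 0) (𝓝 (a s)) := by
      intro s
      have := pos_lim (g2 s) (h1 s) (X := fun ε => 1 - ε) (Y := fun _ => 0) (by fun_prop)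
        continuous_const (fun ε h0 h1 => ⟨by linarith, by linarith, le_rfl, by norm_num⟩)
      simpa [FA] using this
    have l4 : ∀ s, Tendsto (fun ε : ℝ => G s ((ε : ℂ) * A + ((0 : ℝ) : ℂ) * B))
        (𝓝[>] 0) (𝓝 0) := by
      intro s
      have := pos_lim (g2 s) (h1 s) (X := fun ε => ε) (Y := fun _ => 0) (by fun_prop)
        continuous_const (fun ε h0 h1 => ⟨by linarith, by linarith, le_rfl, by norm_num⟩)
      simpa [h3] using this
    have m1 := tendsto_finsetSum Finset.univ (fun s _ =>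
      ((l1 (h s)).sub (l2 (h s))).const_mul ((starRingEnd ℂ) (a s)))
    have m2 := tendsto_finsetSum Finset.univ (fun s _ =>
      ((l3 (v s)).sub (l4 (v s))).const_mul ((starRingEnd ℂ) (b s)))
    have m3 := tendsto_finsetSum Finset.univ (fun s _ =>
      pos_shorts hAB (g1 s) (g2 s) (h1 s) (g3 s))
    have := (m1.sub m2).add m3
    simpa [hL] using this
  -- the identity
  have ident : ∀ ε : ℝ, 0 < ε → ε < 1 / 2 → ((∑ s, (starRingEnd ℂ) (a s) *
        (G (h s) (((0 : ℝ) : ℂ) * A + ((1 - ε : ℝ) : ℂ) * B) -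
        G (h s) (((0 : ℝ) : ℂ) * A + (ε : ℂ) * B))) -
      (∑ s, (starRingEnd ℂ) (b s) * (G (v s) (((1 - ε : ℝ) : ℂ) * A + ((0 : ℝ) : ℂ) * B) -
        G (v s) ((ε : ℂ) * A + ((0 : ℝ) : ℂ) * B))) +
      ∑ s, (pos_H (G s) A B ε 0 ε + pos_H (G s) A B ε (1 - ε) 1 - pos_H (G s) A B (1 - ε) 0 ε -
      pos_H (G s) A B (1 - ε) (1 - ε) 1 + pos_V (G s) A B (1 - ε) 0 ε - pos_V (G s) A B ε 0 ε +
      pos_V (G s) A B (1 - ε) (1 - ε) 1 - pos_V (G s) A B ε (1 - ε) 1)).im =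
      2 * cross A B * ∑ s, (pos_D (G s) A B 0 1 ε (1 - ε) + pos_D (G s) A B ε (1 - ε) 0 ε +
      pos_D (G s) A B ε (1 - ε) (1 - ε) 1) := by
    intro ε hε hε'
    rw [← longV ε hε hε', ← longH ε hε hε', ← Finset.sum_sub_distrib, ← Finset.sum_add_distrib,
      Finset.sum_congr rfl (fun s _ => pos_local hAB (g1 s) hε hε'), ← Finset.mul_sum,
      ← Complex.ofReal_sum]
    simp
  -- the inner lower bound
  have lower : ∀ δ : ℝ, 0 < δ → δ < 1 / 2 →
      2 * cross A B * ∑ s, pos_D (G s) A B δ (1 - δ) δ (1 - δ) ≤ L.im := by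
    intro δ hδ hδ'
    have hlim := (Complex.continuous_im.tendsto L).comp limit
    refine ge_of_tendsto hlim ?_
    have hev : Set.Iio δ ∈ 𝓝[>] (0 : ℝ) := mem_nhdsWithin_of_mem_nhds (Iio_mem_nhds hδ)
    filter_upwards [hev, self_mem_nhdsWithin] with ε he1 he2
    rw [Set.mem_Iio] at he1
    rw [Set.mem_Ioi] at he2
    rw [Function.comp_apply, ident ε he2 (by linarith)]
    apply mul_le_mul_of_nonneg_left _ (by positivity)
    refine Finset.sum_le_sum (fun s _ => ?_)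
    have i1 := pos_D_nonneg (G s) A B (x0 := ε) (x1 := 1 - ε) (y0 := 0) (y1 := ε) (by linarith)
      he2.le
    have i2 := pos_D_nonneg (G s) A B (x0 := ε) (x1 := 1 - ε) (y0 := 1 - ε) (y1 := 1)
      (by linarith) (by linarith)
    have i3 : pos_D (G s) A B δ (1 - δ) δ (1 - δ) ≤ pos_D (G s) A B 0 1 ε (1 - ε) := by
      refine pos_mono (g := fun x y : ℝ => ‖deriv (G s) (x * A + y * B)‖ ^ 2)
        (fun x y => by positivity) ?_ hδ.le (by linarith) (by linarith) he1.le (by linarith)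
        (by linarith)
      have hc : ContinuousOn (deriv (G s)) (plus A B) := ((g1 s).deriv hU).continuousOn
      have hc2 : ContinuousOn (fun p : ℝ × ℝ => deriv (G s) ((p.1 : ℂ) * A + (p.2 : ℂ) * B))
          (Set.Icc 0 1 ×ˢ Set.Icc ε (1 - ε)) := by
        refine hc.comp (by fun_prop) ?_
        rintro ⟨x, y⟩ ⟨⟨q1, q2⟩, ⟨q3, q4⟩⟩
        exact pos_mem (Or.inr ⟨q1, q2, lt_of_lt_of_le he2 q3, lt_of_le_of_lt q4 (by linarith)⟩)
      exact (hc2.norm.pow 2)
    linarith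
  by_contra hcon
  rw [not_lt] at hcon
  have hL0 : L.im ≤ 0 := by rw [hLim]; linarith
  -- the derivatives vanish
  have hder : ∀ s, Set.EqOn (deriv (G s)) 0 (opara A B) := by
    intro s z hz
    obtain ⟨x, y, x1, x2, y1, y2, rfl⟩ := hz
    set δ : ℝ := min (min x (1 - x)) (min y (1 - y)) / 2 with hδd
    have hmin : 0 < min (min x (1 - x)) (min y (1 - y)) := by
      simp only [lt_min_iff]
      exact ⟨⟨x1, by linarith⟩, ⟨y1, by linarith⟩⟩
    have hδ0 : 0 < δ := by rw [hδd]; linarith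
    have m1 : min (min x (1 - x)) (min y (1 - y)) ≤ x :=
      (min_le_left _ _).trans (min_le_left _ _)
    have m2 : min (min x (1 - x)) (min y (1 - y)) ≤ 1 - x :=
      (min_le_left _ _).trans (min_le_right _ _)
    have m3 : min (min x (1 - x)) (min y (1 - y)) ≤ y :=
      (min_le_right _ _).trans (min_le_left _ _)
    have m4 : min (min x (1 - x)) (min y (1 - y)) ≤ 1 - y :=
      (min_le_right _ _).trans (min_le_right _ _)
    have hδx : δ < x := by rw [hδd]; linarith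
    have hδx' : δ < 1 - x := by rw [hδd]; linarith
    have hδy : δ < y := by rw [hδd]; linarith
    have hδy' : δ < 1 - y := by rw [hδd]; linarith
    have hδ1 : δ < 1 / 2 := by linarith
    have hl := lower δ hδ0 hδ1
    have hnn : ∀ s ∈ Finset.univ, 0 ≤ pos_D (G s) A B δ (1 - δ) δ (1 - δ) :=
      fun s _ => pos_D_nonneg (G s) A B (by linarith) (by linarith)
    have hsum : ∑ s, pos_D (G s) A B δ (1 - δ) δ (1 - δ) ≤ 0 := by
      by_contra hc
      rw [not_le] at hc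
      have : 0 < 2 * cross A B * ∑ s, pos_D (G s) A B δ (1 - δ) δ (1 - δ) := by positivity
      linarith
    have hs : pos_D (G s) A B δ (1 - δ) δ (1 - δ) ≤ 0 :=
      (Finset.single_le_sum hnn (Finset.mem_univ s)).trans hsum
    have hc : ContinuousOn (deriv (G s)) (plus A B) := ((g1 s).deriv hU).continuousOn
    have hc2 : ContinuousOn (fun p : ℝ × ℝ => deriv (G s) ((p.1 : ℂ) * A + (p.2 : ℂ) * B))
        (Set.Icc δ (1 - δ) ×ˢ Set.Icc δ (1 - δ)) := by
      refine hc.comp (by fun_prop) ?_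
      rintro ⟨x, y⟩ ⟨⟨q1, q2⟩, ⟨q3, q4⟩⟩
      simp only at q1 q2 q3 q4
      exact pos_mem (Or.inr ⟨by linarith, by linarith, by linarith, by linarith⟩)
    have hc3 : ContinuousOn (Function.uncurry fun x y : ℝ => ‖deriv (G s) (x * A + y * B)‖ ^ 2)
        (Set.Icc δ (1 - δ) ×ˢ Set.Icc δ (1 - δ)) := hc2.norm.pow 2
    have hz := pos_zero (g := fun x y : ℝ => ‖deriv (G s) (x * A + y * B)‖ ^ 2)
      (fun x y => by positivity) hc3 (by linarith) (by linarith) hs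
      (x := x) (y := y) ⟨hδx, by linarith⟩ ⟨hδy, by linarith⟩
    simpa using hz
  -- so the primitives are constant
  have hconst : ∀ s, F s A = 0 ∧ F s B = 0 := by
    intro s
    have hsubp : opara A B ⊆ para A B := by
      rintro z ⟨x, y, x1, x2, y1, y2, rfl⟩
      exact ⟨x, y, x1.le, x2.le, y1.le, y2.le, rfl⟩
    have hsubP : opara A B ⊆ plus A B := by
      rintro z ⟨x, y, x1, x2, y1, y2, rfl⟩
      exact pos_mem (Or.inl ⟨x1, x2, y1.le, y2.le⟩)
    have hconv : Convex ℝ (opara A B) := by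
      rintro z ⟨x, y, x1, x2, y1, y2, rfl⟩ w ⟨x', y', x1', x2', y1', y2', rfl⟩ p q hp hq hpq
      have hpos : ∀ u w : ℝ, 0 < u → 0 < w → 0 < p * u + q * w := by
        intro u w hu hw
        rcases hp.lt_or_eq with hp' | hp'
        · have : 0 ≤ q * w := by positivity
          have : 0 < p * u := by positivity
          linarith
        · rw [← hp'] at hpq ⊢
          have : q = 1 := by linarith
          rw [this]; linarith
      have hlt : ∀ u w : ℝ, u < 1 → w < 1 → p * u + q * w < 1 := by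
        intro u w hu hw
        have := hpos (1 - u) (1 - w) (by linarith) (by linarith)
        nlinarith
      refine ⟨p * x + q * x', p * y + q * y', hpos _ _ x1 x1', hlt _ _ x2 x2', hpos _ _ y1 y1',
        hlt _ _ y2 y2', ?_⟩
      simp only [Complex.real_smul]
      push_cast
      ring
    have hcst : ∀ z ∈ opara A B, ∀ w ∈ opara A B, F s z = F s w := by
      intro z hz w hw
      rw [← g2 s z (hsubp hz), ← g2 s w (hsubp hw)]
      exact (pos_opara_open hne).is_const_of_deriv_eq_zero hconv.isPreconnected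
        ((g1 s).mono hsubP) (hder s) hz hw
    have hmid : (((1 / 2 : ℝ) : ℂ) * A + ((1 / 2 : ℝ) : ℂ) * B) ∈ opara A B :=
      ⟨1 / 2, 1 / 2, by norm_num, by norm_num, by norm_num, by norm_num, rfl⟩
    have hcorner : ∀ i j : ℝ, 0 ≤ i → i ≤ 1 → 0 ≤ j → j ≤ 1 →
        F s ((i : ℂ) * A + (j : ℂ) * B) =
          F s (((1 / 2 : ℝ) : ℂ) * A + ((1 / 2 : ℝ) : ℂ) * B) := by
      intro i j i0 i1 j0 j1
      have hlim := pos_lim (A := A) (B := B) (G := F s) (F := F s) (fun z _ => rfl) (h1 s)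
        (X := fun ε => (1 - ε) * i + ε * (1 / 2)) (Y := fun ε => (1 - ε) * j + ε * (1 / 2))
        (by fun_prop) (by fun_prop) (by
          intro ε e0 e1
          refine ⟨by nlinarith, by nlinarith, by nlinarith, by nlinarith⟩)
      simp only [sub_zero, one_mul, zero_mul, add_zero] at hlim
      refine tendsto_nhds_unique hlim ?_
      have hev : Set.Iio (1 / 2 : ℝ) ∈ 𝓝[>] (0 : ℝ) :=
        mem_nhdsWithin_of_mem_nhds (Iio_mem_nhds (by norm_num))
      refine tendsto_const_nhds.congr' ?_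
      filter_upwards [hev, self_mem_nhdsWithin] with ε he1 he2
      rw [Set.mem_Iio] at he1
      rw [Set.mem_Ioi] at he2
      refine hcst _ hmid _ ⟨_, _, ?_, ?_, ?_, ?_, rfl⟩
      · nlinarith
      · nlinarith
      · nlinarith
      · nlinarith
    have c0 := hcorner 0 0 le_rfl (by norm_num) le_rfl (by norm_num)
    have c1 := hcorner 1 0 (by norm_num) le_rfl le_rfl (by norm_num)
    have c2 := hcorner 0 1 le_rfl (by norm_num) (by norm_num) le_rfl
    simp only [Complex.ofReal_zero, Complex.ofReal_one, zero_mul, one_mul, add_zero, zero_add,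
      h3] at c0 c1 c2
    exact ⟨c1.trans c0.symm, c2.trans c0.symm⟩
  rcases hab with ha | hb
  · apply ha
    funext s
    rw [← FA s, (hconst s).1]; rfl
  · apply hb
    funext s
    rw [← FB s, (hconst s).2]; rfl

end Pool.Agent.TP
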