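import Pool.Agent.Lib_helper53.TP.B.COM
import Pool.Agent.Lib_helper53.TP.B.OMG
import Pool.Agent.Lib_helper53.TP.B.POS

/-!
# HTT: two Hodge-Teichmueller planes with a common vector coincide
-/

namespace Pool.Agent.TP

open Set Complex Finset

/-- If `om p q ≠ 0` for two elements of a plane `P`, then they span `P`. -/
theorem htt_span {S : Type} [Fintype S] {h v : Equiv.Perm S} {P : Submodule ℝ (Pr S)}
    (hbo : BO h v ≤ P) (hzo : P ≤ ZO h v)
    (two : ∃ u w : Pr S, P = Submodule.span ℝ {u, w} ⊔ BO h v) {p q : Pr S} (hp : p ∈ P)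
    (hq : q ∈ P) (hpq : om h v p q ≠ 0) : P = Submodule.span ℝ {p, q} ⊔ BO h v := by
  obtain ⟨u, w, e⟩ := two
  have hu : u ∈ P := by
    rw [e]; exact Submodule.mem_sup_left (Submodule.subset_span (by simp))
  have hw : w ∈ P := by
    rw [e]; exact Submodule.mem_sup_left (Submodule.subset_span (by simp))
  have rep : ∀ x ∈ P, ∃ (r t : ℝ), ∃ b ∈ BO h v, x = r • u + t • w + b := by
    intro x hx
    rw [e, Submodule.mem_sup] at hx
    obtain ⟨y, hy, b, hb, rfl⟩ := hx
    obtain ⟨r, t, rfl⟩ := Submodule.mem_span_pair.1 hy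
    exact ⟨r, t, b, hb, rfl⟩
  obtain ⟨x1, y1, b1, hb1, e1⟩ := rep p hp
  obtain ⟨x2, y2, b2, hb2, e2⟩ := rep q hq
  have zu := hzo hu
  have zw := hzo hw
  have hD : om h v p q = (x1 * y2 - x2 * y1) * om h v u w := by
    have z1 := BO_le_ZO h v hb1
    have z2 := BO_le_ZO h v hb2
    rw [e1, e2]
    simp only [com_om_add_left, com_om_add_right, com_om_smul_left, com_om_smul_right,
      com_om_self zu, com_om_self zw, om_bo zu hb2, om_bo zw hb2, om_bo z1 hb2,
      com_om_bo' zu hb1, com_om_bo' zw hb1, om_anti zw zu]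
    ring
  have hD0 : x1 * y2 - x2 * y1 ≠ 0 := by
    intro h0
    apply hpq
    rw [hD, h0, zero_mul]
  apply le_antisymm
  · intro x hx
    obtain ⟨r, t, b, hb, rfl⟩ := rep x hx
    set D := x1 * y2 - x2 * y1 with hDdef
    -- u = (y2 p - y1 q)/D mod BO, w = (x1 q - x2 p)/D mod BO
    have key : r • u + t • w + b = (((r * y2 - t * x2) / D) • p + ((t * x1 - r * y1) / D) • q) +
        (b - ((r * y2 - t * x2) / D) • b1 - ((t * x1 - r * y1) / D) • b2) := by
      rw [e1, e2]
      have a1 : (r * y2 - t * x2) / D * x1 + (t * x1 - r * y1) / D * x2 = r := by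
        rw [div_mul_eq_mul_div, div_mul_eq_mul_div, ← add_div, div_eq_iff hD0, hDdef]
        ring
      have a2 : (r * y2 - t * x2) / D * y1 + (t * x1 - r * y1) / D * y2 = t := by
        rw [div_mul_eq_mul_div, div_mul_eq_mul_div, ← add_div, div_eq_iff hD0, hDdef]
        ring
      calc r • u + t • w + b
          = ((r * y2 - t * x2) / D * x1 + (t * x1 - r * y1) / D * x2) • u +
            ((r * y2 - t * x2) / D * y1 + (t * x1 - r * y1) / D * y2) • w + b := by
              rw [a1, a2]
        _ = _ := by module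
    rw [key]
    refine Submodule.add_mem_sup ?_ ?_
    · exact Submodule.mem_span_pair.2 ⟨_, _, rfl⟩
    · exact (BO h v).sub_mem ((BO h v).sub_mem hb ((BO h v).smul_mem _ hb1))
        ((BO h v).smul_mem _ hb2)
  · refine sup_le ?_ hbo
    rw [Submodule.span_le]
    rintro x (rfl | rfl)
    · exact hp
    · exact hq

theorem hto_taut {S : Type} [Fintype S] {h v : Equiv.Perm S} {P : Submodule ℝ (Pr S)}
    (H : HTO h v P) (h1 : ((fun _ => 0, fun _ => 1) : Pr S) ∈ P) : P = tautO h v := by
  obtain ⟨a, b, g1, g2, g3, g4⟩ := H.hol 1 I cross_one_I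
  obtain ⟨z1, z2, pos⟩ := hol_pos cross_one_I g1 g2
  set p : Pr S := (fun s => (a s).re, fun s => (b s).re) with hp
  set q : Pr S := (fun s => (a s).im, fun s => (b s).im) with hq
  have hP := htt_span H.bo_le H.le_zo H.two g3 g4 pos.ne'
  -- the vector (0,1)
  have hm := h1
  rw [hP, Submodule.mem_sup] at hm
  obtain ⟨y, hy, w, hw, hyw⟩ := hm
  obtain ⟨r, t, rfl⟩ := Submodule.mem_span_pair.1 hy
  -- the form c * (a, b) - (1, I), with c = t + i r
  have f1 := com_holo_smul ((t : ℂ) + r * I) g1
  have f2 := com_holo_smul (-1) (com_holo_one h v 1 I)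
  have f3 := com_holo_add f1 f2
  have hzero : (fun s => ((t : ℂ) + r * I) * a s + -1 * 1 : S → ℂ) = 0 ∧
      (fun s => ((t : ℂ) + r * I) * b s + -1 * I : S → ℂ) = 0 := by
    by_contra hc
    obtain ⟨k1, k2, k3⟩ := hol_pos cross_one_I f3 (by
      rcases not_and_or.1 hc with hc | hc
      · exact Or.inl hc
      · exact Or.inr hc)
    have : ((fun s => (((t : ℂ) + r * I) * a s + -1 * 1).im,
        fun s => (((t : ℂ) + r * I) * b s + -1 * I).im) : Pr S) ∈ BO h v := by
      have e : ((fun s => (((t : ℂ) + r * I) * a s + -1 * 1).im,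
        fun s => (((t : ℂ) + r * I) * b s + -1 * I).im) : Pr S) = -w := by
        have e0 : -w = r • p + t • q - ((fun _ => 0, fun _ => 1) : Pr S) := by
          rw [← hyw]; abel
        rw [e0]
        refine Prod.ext ?_ ?_
        · funext s
          simp only [Prod.fst_sub, Prod.fst_add, Prod.smul_fst, Pi.sub_apply, Pi.add_apply,
            Pi.smul_apply, smul_eq_mul, hp, hq]
          simp
          ring
        · funext s
          simp only [Prod.snd_sub, Prod.snd_add, Prod.smul_snd, Pi.sub_apply, Pi.add_apply,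
            Pi.smul_apply, smul_eq_mul, hp, hq]
          simp
          ring
      rw [e]
      exact (BO h v).neg_mem hw
    rw [om_bo k1 this] at k3
    exact lt_irrefl _ k3
  have hone : ((fun _ => 1, fun _ => 0) : Pr S) = t • p - r • q := by
    refine Prod.ext ?_ ?_
    · funext s
      have := congrArg Complex.re (congrFun hzero.1 s)
      simp at this
      simp only [Prod.fst_sub, Prod.smul_fst, Pi.sub_apply, Pi.smul_apply, smul_eq_mul, hp, hq]
      linarith
    · funext s
      have := congrArg Complex.re (congrFun hzero.2 s)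
      simp at this
      simp only [Prod.snd_sub, Prod.smul_snd, Pi.sub_apply, Pi.smul_apply, smul_eq_mul, hp, hq]
      linarith
  have h0 : ((fun _ => 1, fun _ => 0) : Pr S) ∈ P := by
    rw [hone]
    exact P.sub_mem (P.smul_mem _ g3) (P.smul_mem _ g4)
  have hS : Nonempty S := by
    by_contra hS
    rw [not_nonempty_iff] at hS
    rcases g2 with g2 | g2
    · exact g2 (funext fun s => (hS.false s).elim)
    · exact g2 (funext fun s => (hS.false s).elim)
  refine htt_span H.bo_le H.le_zo H.two h0 h1 ?_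
  have : om h v ((fun _ => 1, fun _ => 0) : Pr S) ((fun _ => 0, fun _ => 1) : Pr S) =
      Fintype.card S := by
    simp [om]
  rw [this]
  exact_mod_cast Fintype.card_ne_zero

end Pool.Agent.TP
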