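import Pool.Agent.Lib_helper53.TP.WDefs

/-!
# IDN: identification of an origami
-/

namespace Pool.Agent.TP

open Set Complex

/-- The possible edge vectors. -/
def idnV : Fin 6 → ℂ
  | 0 => 1
  | 1 => I
  | 2 => -(1 + I)
  | 3 => 1 + I
  | 4 => -1
  | 5 => -I

theorem idn_ex {z : ℂ} (hz : z ∈ ({1, -1, I, -I, 1 + I, -(1 + I)} : Set ℂ)) :
    ∃ k, z = idnV k := by
  simp only [mem_insert_iff, mem_singleton_iff] at hz
  rcases hz with h | h | h | h | h | h
  · exact ⟨0, h⟩
  · exact ⟨4, h⟩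
  · exact ⟨1, h⟩
  · exact ⟨5, h⟩
  · exact ⟨3, h⟩
  · exact ⟨2, h⟩

/-- Integer coordinates of the possible edge vectors. -/
def idnZ : Fin 6 → ℤ × ℤ
  | 0 => (1, 0)
  | 1 => (0, 1)
  | 2 => (-1, -1)
  | 3 => (1, 1)
  | 4 => (-1, 0)
  | 5 => (0, -1)

theorem idn_Z (k : Fin 6) : idnV k = ⟨((idnZ k).1 : ℝ), ((idnZ k).2 : ℝ)⟩ := by
  fin_cases k <;> apply Complex.ext <;> simp [idnV, idnZ]

/-- The next one. -/
def idnN : Fin 6 → Fin 6
  | 0 => 1
  | 1 => 2
  | 2 => 0
  | 3 => 4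
  | 4 => 5
  | 5 => 3

theorem idn_key : ∀ a b c : Fin 6, 0 < (idnZ a).1 * (idnZ b).2 - (idnZ a).2 * (idnZ b).1 →
    (idnZ a).1 + (idnZ b).1 + (idnZ c).1 = 0 → (idnZ a).2 + (idnZ b).2 + (idnZ c).2 = 0 →
    b = idnN a := by
  decide

theorem idn_inj : ∀ a b : Fin 6, idnV a = idnV b → a = b := by
  intro a b h
  rw [idn_Z, idn_Z] at h
  have h1 := congrArg Complex.re h
  have h2 := congrArg Complex.im h
  simp only [Int.cast_inj] at h1 h2
  have key : ∀ a b : Fin 6, (idnZ a).1 = (idnZ b).1 → (idnZ a).2 = (idnZ b).2 → a = b := by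
    decide
  exact key a b h1 h2

theorem idn_next {a b c : Fin 6} (h1 : 0 < cross (idnV a) (idnV b))
    (h2 : idnV a + idnV b + idnV c = 0) : b = idnN a := by
  rw [idn_Z, idn_Z, idn_Z] at h2
  rw [idn_Z, idn_Z] at h1
  have h3 := congrArg Complex.re h2
  have h4 := congrArg Complex.im h2
  simp only [cross] at h1
  simp only [Complex.add_re, Complex.add_im, Complex.zero_re, Complex.zero_im] at h3 h4
  refine idn_key a b c ?_ ?_ ?_
  · exact_mod_cast h1
  · exact_mod_cast h3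
  · exact_mod_cast h4

/-- IDN. -/
theorem idn (x : PS) (hx : ∀ d, x.v d ∈ ({1, -1, I, -I, 1 + I, -(1 + I)} : Set ℂ)) :
    ∃ (S : Type) (_ : Finite S) (_ : Nonempty S) (h v : Equiv.Perm S) (tr : Tr h v),
      Conn x (ori h v tr) := by
  obtain ⟨D, fin, ne, c, w, ok⟩ := x
  simp only at hx
  choose κ hκ using fun d => idn_ex (hx d)
  -- the type of the next dart
  have hn : ∀ d, κ (c.next d) = idnN (κ d) := by
    intro d
    have h1 := ok.pos d
    have h2 := ok.sum_zero d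
    rw [hκ d, hκ (c.next d)] at h1
    rw [hκ d, hκ (c.next d), hκ (c.next (c.next d))] at h2
    exact idn_next h1 h2
  have opp_ty : ∀ a b : Fin 6, (idnZ b).1 = -(idnZ a).1 → (idnZ b).2 = -(idnZ a).2 →
      (a = 0 → b = 4) ∧ (a = 1 → b = 5) ∧ (a = 2 → b = 3) ∧ (a = 3 → b = 2) ∧
      (a = 4 → b = 0) ∧ (a = 5 → b = 1) := by decide
  have ho : ∀ d, (κ d = 0 → κ (c.opp d) = 4) ∧ (κ d = 1 → κ (c.opp d) = 5) ∧
      (κ d = 2 → κ (c.opp d) = 3) ∧ (κ d = 3 → κ (c.opp d) = 2) ∧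
      (κ d = 4 → κ (c.opp d) = 0) ∧ (κ d = 5 → κ (c.opp d) = 1) := by
    intro d
    have h1 := ok.opp_neg d
    rw [hκ d, hκ (c.opp d), idn_Z, idn_Z] at h1
    have h2 := congrArg Complex.re h1
    have h3 := congrArg Complex.im h1
    simp only [Complex.neg_re, Complex.neg_im] at h2 h3
    exact opp_ty _ _ (by exact_mod_cast h2) (by exact_mod_cast h3)
  have hn0 : ∀ d, κ d = 0 → κ (c.next d) = 1 := fun d h => by rw [hn, h]; rfl
  have hn1 : ∀ d, κ d = 1 → κ (c.next d) = 2 := fun d h => by rw [hn, h]; rfl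
  have hn2 : ∀ d, κ d = 2 → κ (c.next d) = 0 := fun d h => by rw [hn, h]; rfl
  have hn3 : ∀ d, κ d = 3 → κ (c.next d) = 4 := fun d h => by rw [hn, h]; rfl
  have hn4 : ∀ d, κ d = 4 → κ (c.next d) = 5 := fun d h => by rw [hn, h]; rfl
  have hn5 : ∀ d, κ d = 5 → κ (c.next d) = 3 := fun d h => by rw [hn, h]; rfl
  have ho0 : ∀ d, κ d = 0 → κ (c.opp d) = 4 := fun d h => (ho d).1 h
  have ho1 : ∀ d, κ d = 1 → κ (c.opp d) = 5 := fun d h => (ho d).2.1 h
  have ho2 : ∀ d, κ d = 2 → κ (c.opp d) = 3 := fun d h => (ho d).2.2.1 h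
  have ho3 : ∀ d, κ d = 3 → κ (c.opp d) = 2 := fun d h => (ho d).2.2.2.1 h
  have ho4 : ∀ d, κ d = 4 → κ (c.opp d) = 0 := fun d h => (ho d).2.2.2.2.1 h
  have ho5 : ∀ d, κ d = 5 → κ (c.opp d) = 1 := fun d h => (ho d).2.2.2.2.2 h
  -- the squares
  let S : Type := {d : D // κ d = 0}
  have finS : Finite S := inferInstance
  let h : Equiv.Perm S :=
    { toFun := fun s => ⟨c.next (c.opp (c.next (c.opp (c.next s.1)))),
        hn2 _ (ho3 _ (hn5 _ (ho1 _ (hn0 _ s.2))))⟩
      invFun := fun s => ⟨c.next (c.next (c.opp (c.next (c.next (c.opp (c.next (c.next s.1))))))),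
        hn2 _ (hn1 _ (ho5 _ (hn4 _ (hn3 _ (ho2 _ (hn1 _ (hn0 _ s.2)))))))⟩
      left_inv := fun s => by
        apply Subtype.ext
        simp only [c.next3, c.opp2]
      right_inv := fun s => by
        apply Subtype.ext
        simp only [c.next3, c.opp2] }
  let v : Equiv.Perm S :=
    { toFun := fun s => ⟨c.opp (c.next (c.opp (c.next (c.next s.1)))),
        ho4 _ (hn3 _ (ho2 _ (hn1 _ (hn0 _ s.2))))⟩
      invFun := fun s => ⟨c.next (c.opp (c.next (c.next (c.opp s.1)))),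
        hn2 _ (ho3 _ (hn5 _ (hn4 _ (ho0 _ s.2))))⟩
      left_inv := fun s => by
        apply Subtype.ext
        simp only [c.next3, c.opp2]
      right_inv := fun s => by
        apply Subtype.ext
        simp only [c.next3, c.opp2] }
  -- the renaming
  let e : S × Fin 6 → D := fun p => match p with
    | (s, 0) => s.1
    | (s, 1) => c.next s.1
    | (s, 2) => c.next (c.next s.1)
    | (s, 3) => c.opp (c.next (c.next s.1))
    | (s, 4) => c.next (c.opp (c.next (c.next s.1)))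
    | (s, 5) => c.next (c.next (c.opp (c.next (c.next s.1))))
  have eκ : ∀ s k, κ (e (s, k)) = k := by
    intro s k
    fin_cases k
    · exact s.2
    · exact hn0 _ s.2
    · exact hn1 _ (hn0 _ s.2)
    · exact ho2 _ (hn1 _ (hn0 _ s.2))
    · exact hn3 _ (ho2 _ (hn1 _ (hn0 _ s.2)))
    · exact hn4 _ (hn3 _ (ho2 _ (hn1 _ (hn0 _ s.2))))
  have ninj : Function.Injective c.next := fun a b hab => by
    have := congrArg (fun z => c.next (c.next z)) hab
    simpa [c.next3] using this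
  have oinj : Function.Injective c.opp := fun a b hab => by
    have := congrArg c.opp hab
    simpa [c.opp2] using this
  have einj : Function.Injective e := by
    rintro ⟨s, k⟩ ⟨t, l⟩ hst
    have hkl : k = l := by rw [← eκ s k, ← eκ t l, hst]
    subst hkl
    have : s.1 = t.1 := by
      fin_cases k
      · exact hst
      · exact ninj hst
      · exact ninj (ninj hst)
      · exact ninj (ninj (oinj hst))
      · exact ninj (ninj (oinj (ninj hst)))
      · exact ninj (ninj (oinj (ninj (ninj hst))))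
    rw [Subtype.ext this]
  have esurj : Function.Surjective e := by
    intro d
    obtain hd | hd | hd | hd | hd | hd : κ d = 0 ∨ κ d = 1 ∨ κ d = 2 ∨ κ d = 3 ∨ κ d = 4 ∨
        κ d = 5 := by
      generalize κ d = k
      revert k; decide
    · exact ⟨(⟨d, hd⟩, 0), rfl⟩
    · exact ⟨(⟨c.next (c.next d), hn2 _ (hn1 _ hd)⟩, 1), by simp only [e, c.next3]⟩
    · exact ⟨(⟨c.next d, hn2 _ hd⟩, 2), by simp only [e, c.next3]⟩
    · exact ⟨(⟨c.next (c.opp d), hn2 _ (ho3 _ hd)⟩, 3), by simp only [e, c.next3, c.opp2]⟩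
    · exact ⟨(⟨c.next (c.opp (c.next (c.next d))), hn2 _ (ho3 _ (hn5 _ (hn4 _ hd)))⟩, 4),
        by simp only [e, c.next3, c.opp2]⟩
    · exact ⟨(⟨c.next (c.opp (c.next d)), hn2 _ (ho3 _ (hn5 _ hd))⟩, 5),
        by simp only [e, c.next3, c.opp2]⟩
  have enext : ∀ p, c.next (e p) = e (rNext p) := by
    rintro ⟨s, k⟩
    fin_cases k <;> simp only [e, rNext, c.next3]
  have eopp : ∀ p, c.opp (e p) = e (rOpp h v p) := by
    rintro ⟨s, k⟩
    fin_cases k
    · change c.opp s.1 = c.next (c.opp (c.next (c.next (v.symm s).1)))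
      change c.opp s.1 = c.next (c.opp (c.next (c.next
        (c.next (c.opp (c.next (c.next (c.opp s.1))))))))
      simp only [c.next3, c.opp2]
    · change c.opp (c.next s.1) = c.next (c.next (c.opp (c.next (c.next
        (c.next (c.opp (c.next (c.opp (c.next s.1)))))))))
      simp only [c.next3, c.opp2]
    · rfl
    · change c.opp (c.opp (c.next (c.next s.1))) = c.next (c.next s.1)
      simp only [c.opp2]
    · rfl
    · change c.opp (c.next (c.next (c.opp (c.next (c.next s.1))))) = c.next (c.next (c.next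
        (c.opp (c.next (c.next (c.opp (c.next (c.next s.1))))))))
      simp only [c.next3]
  have neS : Nonempty S := by
    obtain ⟨d⟩ := ne
    obtain ⟨⟨s, k⟩, -⟩ := esurj d
    exact ⟨s⟩
  have hclosed : ∀ (g : Equiv.Perm S) (T : Set S), (∀ s ∈ T, g s ∈ T) → ∀ s ∈ T, g.symm s ∈ T :=
    fun g T hT s hs => Equiv.Perm.perm_symm_mapsTo_of_mapsTo g hT hs
  have tr : Tr h v := by
    intro T hT h1 h2
    have h1' := hclosed h T h1
    have h2' := hclosed v T h2
    have hU := c.conn (e '' {p | p.1 ∈ T}) ?_ ?_ ?_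
    · ext s
      simp only [mem_univ, iff_true]
      have : e (s, 0) ∈ e '' {p | p.1 ∈ T} := by rw [hU]; trivial
      obtain ⟨p, hp, hps⟩ := this
      have hps' : p = (s, 0) := einj hps
      subst hps'
      exact hp
    · obtain ⟨s, hs⟩ := hT
      exact ⟨e (s, 0), (s, 0), hs, rfl⟩
    · rintro _ ⟨⟨s, k⟩, hs, rfl⟩
      refine ⟨rNext (s, k), ?_, (enext _).symm⟩
      fin_cases k <;> exact hs
    · rintro _ ⟨⟨s, k⟩, hs, rfl⟩
      refine ⟨rOpp h v (s, k), ?_, (eopp _).symm⟩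
      fin_cases k
      · exact h2' s hs
      · exact h1 s hs
      · exact hs
      · exact hs
      · exact h2 s hs
      · exact h1' s hs
  refine ⟨S, finS, neS, h, v, tr, Conn.symm (Conn.iso ?_)⟩
  refine ⟨Equiv.ofBijective e ⟨einj, esurj⟩, fun d => enext d, fun d => eopp d, fun d => ?_⟩
  obtain ⟨s, k⟩ := d
  change w (e (s, k)) = vecAB 1 I (s, k)
  rw [hκ, eκ]
  fin_cases k <;> rfl

end Pool.Agent.TP
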