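import Pool.Agent.Lib_helper53.TP.WDefs

/-!
# INT: integral approximation
-/

namespace Pool.Agent.TP

open Set Complex Finset

/-- Scaling. -/
theorem int_smul_ok {D : Type} {c : Comb D} {v : D → ℂ} (ok : IsTS c v) {t : ℝ} (ht : 0 < t) :
    IsTS c (fun d => (t : ℂ) * v d) where
  opp_neg d := by rw [ok.opp_neg d]; ring
  sum_zero d := by linear_combination (t : ℂ) * ok.sum_zero d
  pos d := by
    have h := ok.pos d
    have h2 : cross ((t : ℂ) * v d) ((t : ℂ) * v (c.next d)) =
        t * t * cross (v d) (v (c.next d)) := by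
      simp [cross]; ring
    rw [h2]
    positivity

theorem int_conn_smul {D : Type} {fin : Finite D} {ne : Nonempty D} {c : Comb D} {v : D → ℂ}
    (ok : IsTS c v) {t : ℝ} (ht : 0 < t) :
    Conn ⟨D, fin, ne, c, v, ok⟩ ⟨D, fin, ne, c, fun d => (t : ℂ) * v d, int_smul_ok ok ht⟩ := by
  refine Conn.path (fun s d => ((1 - s + s * t : ℝ) : ℂ) * v d) ?_ ?_ ?_ ?_
  · fun_prop
  · rintro s ⟨h0, h1⟩
    apply int_smul_ok ok
    rcases eq_or_lt_of_le h0 with h | h
    · rw [← h]; norm_num
    · have := mul_pos h ht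
      linarith
  · funext d; simp
  · funext d; simp

/-- The vectors attached to a choice of values of the basis. -/
noncomputable def intVec {D : Type} {n : ℕ} (A B : D → Fin n → ℚ) (r : Fin n → ℝ) (d : D) : ℂ :=
  ⟨∑ i, (A d i : ℝ) * r i, ∑ i, (B d i : ℝ) * r i⟩

/-- A common denominator. -/
theorem int_denom {D : Type} [Finite D] (a : D → ℚ) : ∃ N : ℕ, 0 < N ∧
    ∀ d, ∃ m : ℤ, (N : ℚ) * a d = m := by
  classical
  have := Fintype.ofFinite D
  refine ⟨∏ d, (a d).den, Finset.prod_pos fun d _ => (a d).den_pos, fun d => ?_⟩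
  obtain ⟨k, hk⟩ := Finset.dvd_prod_of_mem (fun d => (a d).den) (Finset.mem_univ d)
  refine ⟨k * (a d).num, ?_⟩
  rw [hk]
  have h := Rat.mul_den_eq_num (a d)
  push_cast
  rw [← h]
  ring

/-- INT. -/
theorem integral_approx (x : PS) :
    ∃ y : PS, Conn x y ∧ ∀ d, ∃ m n : ℤ, y.v d = ⟨m, n⟩ := by
  classical
  obtain ⟨D, fin, ne, c, v, ok⟩ := x
  have := Fintype.ofFinite D
  set W : Submodule ℚ ℝ := Submodule.span ℚ
    (Set.range (fun d => (v d).re) ∪ Set.range (fun d => (v d).im)) with hW
  have : FiniteDimensional ℚ W :=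
    FiniteDimensional.span_of_finite ℚ ((Set.finite_range _).union (Set.finite_range _))
  set b := Module.finBasis ℚ W with hb
  set n := Module.finrank ℚ W with hn
  have hre : ∀ d, (v d).re ∈ W := fun d => Submodule.subset_span (Or.inl ⟨d, rfl⟩)
  have him : ∀ d, (v d).im ∈ W := fun d => Submodule.subset_span (Or.inr ⟨d, rfl⟩)
  set A : D → Fin n → ℚ := fun d => b.repr ⟨(v d).re, hre d⟩ with hA
  set B : D → Fin n → ℚ := fun d => b.repr ⟨(v d).im, him d⟩ with hB
  -- linear relations
  have hAo : ∀ d i, A (c.opp d) i = - A d i := by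
    intro d i
    have h : (⟨(v (c.opp d)).re, hre _⟩ : W) = -⟨(v d).re, hre d⟩ := by
      apply Subtype.ext
      simp [ok.opp_neg d]
    simp only [hA, h, map_neg, Finsupp.coe_neg, Pi.neg_apply]
  have hBo : ∀ d i, B (c.opp d) i = - B d i := by
    intro d i
    have h : (⟨(v (c.opp d)).im, him _⟩ : W) = -⟨(v d).im, him d⟩ := by
      apply Subtype.ext
      simp [ok.opp_neg d]
    simp only [hB, h, map_neg, Finsupp.coe_neg, Pi.neg_apply]
  have hAs : ∀ d i, A d i + A (c.next d) i + A (c.next (c.next d)) i = 0 := by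
    intro d i
    have h : (⟨(v d).re, hre _⟩ : W) + ⟨(v (c.next d)).re, hre _⟩ +
        ⟨(v (c.next (c.next d))).re, hre _⟩ = 0 := by
      apply Subtype.ext
      have := congrArg Complex.re (ok.sum_zero d)
      simpa using this
    have h2 := congrArg (fun w => b.repr w i) h
    simpa only [map_add, Finsupp.coe_add, Pi.add_apply, map_zero, Finsupp.coe_zero,
      Pi.zero_apply] using h2
  have hBs : ∀ d i, B d i + B (c.next d) i + B (c.next (c.next d)) i = 0 := by
    intro d i
    have h : (⟨(v d).im, him _⟩ : W) + ⟨(v (c.next d)).im, him _⟩ +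
        ⟨(v (c.next (c.next d))).im, him _⟩ = 0 := by
      apply Subtype.ext
      have := congrArg Complex.im (ok.sum_zero d)
      simpa using this
    have h2 := congrArg (fun w => b.repr w i) h
    simpa only [map_add, Finsupp.coe_add, Pi.add_apply, map_zero, Finsupp.coe_zero,
      Pi.zero_apply] using h2
  set r0 : Fin n → ℝ := fun i => (b i : ℝ) with hr0
  have hv : ∀ d, intVec A B r0 d = v d := by
    intro d
    have h1 := congrArg (Subtype.val) (b.sum_repr ⟨(v d).re, hre d⟩)
    have h2 := congrArg (Subtype.val) (b.sum_repr ⟨(v d).im, him d⟩)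
    apply Complex.ext
    · simp only [intVec]
      rw [Submodule.coe_sum] at h1
      refine Eq.trans ?_ h1
      refine Finset.sum_congr rfl fun i _ => ?_
      rw [Submodule.coe_smul, Rat.smul_def]
    · simp only [intVec]
      rw [Submodule.coe_sum] at h2
      refine Eq.trans ?_ h2
      refine Finset.sum_congr rfl fun i _ => ?_
      rw [Submodule.coe_smul, Rat.smul_def]
  have hcont : Continuous (fun r : Fin n → ℝ => intVec A B r) := by
    apply continuous_pi
    intro d
    have h1 : Continuous fun r : Fin n → ℝ => ∑ i, (A d i : ℝ) * r i := by fun_prop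
    have h2 : Continuous fun r : Fin n → ℝ => ∑ i, (B d i : ℝ) * r i := by fun_prop
    have h3 : (fun r : Fin n → ℝ => intVec A B r d) =
        fun r => ((∑ i, (A d i : ℝ) * r i : ℝ) : ℂ) + ((∑ i, (B d i : ℝ) * r i : ℝ) : ℂ) * I := by
      funext r
      apply Complex.ext <;> simp [intVec]
    rw [h3]
    exact (Complex.continuous_ofReal.comp h1).add
      ((Complex.continuous_ofReal.comp h2).mul continuous_const)
  set U : Set (Fin n → ℝ) := {r | ∀ d, 0 < cross (intVec A B r d) (intVec A B r (c.next d))}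
    with hU
  have hUo : IsOpen U := by
    have : U = ⋂ d, {r | 0 < cross (intVec A B r d) (intVec A B r (c.next d))} := by
      ext r; simp [hU]
    rw [this]
    apply isOpen_iInter_of_finite
    intro d
    apply isOpen_lt continuous_const
    have h1 := (continuous_apply d).comp hcont
    have h2 := (continuous_apply (c.next d)).comp hcont
    simp only [cross]
    exact ((Complex.continuous_re.comp h1).mul (Complex.continuous_im.comp h2)).sub
      ((Complex.continuous_im.comp h1).mul (Complex.continuous_re.comp h2))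
  have hU0 : r0 ∈ U := by
    intro d
    rw [hv, hv]
    exact ok.pos d
  have hUok : ∀ r ∈ U, IsTS c (intVec A B r) := by
    intro r hr
    refine ⟨fun d => ?_, fun d => ?_, hr⟩
    · apply Complex.ext
      · simp only [intVec, Complex.neg_re, hAo]
        rw [← Finset.sum_neg_distrib]
        refine Finset.sum_congr rfl fun i _ => ?_
        push_cast; ring
      · simp only [intVec, Complex.neg_im, hBo]
        rw [← Finset.sum_neg_distrib]
        refine Finset.sum_congr rfl fun i _ => ?_
        push_cast; ring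
    · apply Complex.ext
      · simp only [intVec, Complex.add_re, Complex.zero_re]
        rw [← Finset.sum_add_distrib, ← Finset.sum_add_distrib]
        refine Finset.sum_eq_zero fun i _ => ?_
        have h : ((A d i : ℚ) : ℝ) + A (c.next d) i + A (c.next (c.next d)) i = 0 := by
          exact_mod_cast hAs d i
        linear_combination r i * h
      · simp only [intVec, Complex.add_im, Complex.zero_im]
        rw [← Finset.sum_add_distrib, ← Finset.sum_add_distrib]
        refine Finset.sum_eq_zero fun i _ => ?_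
        have h : ((B d i : ℚ) : ℝ) + B (c.next d) i + B (c.next (c.next d)) i = 0 := by
          exact_mod_cast hBs d i
        linear_combination r i * h
  obtain ⟨ε, hε, hball⟩ := Metric.isOpen_iff.1 hUo r0 hU0
  obtain ⟨r, hr⟩ : ∃ r : Fin n → ℚ, (fun i => (r i : ℝ)) ∈ Metric.ball r0 ε := by
    have h : ∀ i, ∃ q : ℚ, |(q : ℝ) - r0 i| < ε := by
      intro i
      obtain ⟨q, hq1, hq2⟩ := exists_rat_btwn (show r0 i - ε < r0 i + ε by linarith)
      exact ⟨q, abs_lt.2 ⟨by linarith, by linarith⟩⟩
    choose r hr using h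
    refine ⟨r, ?_⟩
    rw [Metric.mem_ball, dist_pi_lt_iff hε]
    intro i
    rw [Real.dist_eq]
    exact hr i
  set r1 : Fin n → ℝ := fun i => (r i : ℝ) with hr1
  have hseg : ∀ t ∈ Icc (0 : ℝ) 1, (1 - t) • r0 + t • r1 ∈ U := by
    intro t ht
    apply hball
    have := (convex_ball r0 ε) (Metric.mem_ball_self hε) hr (sub_nonneg.2 ht.2) ht.1
      (by ring : (1 - t) + t = 1)
    exact this
  have ok1 : IsTS c (intVec A B r1) := hUok r1 (hball hr)
  have c1 : Conn ⟨D, fin, ne, c, v, ok⟩ ⟨D, fin, ne, c, intVec A B r1, ok1⟩ := by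
    refine Conn.path (fun t => intVec A B ((1 - t) • r0 + t • r1)) ?_ ?_ ?_ ?_
    · exact hcont.comp (by fun_prop)
    · intro t ht
      exact hUok _ (hseg t ht)
    · funext d
      simp [hv]
    · simp
  -- rational vectors
  obtain ⟨N1, hN1, hd1⟩ := int_denom (fun d => ∑ i, A d i * r i)
  obtain ⟨N2, hN2, hd2⟩ := int_denom (fun d => ∑ i, B d i * r i)
  have hN : (0 : ℝ) < (N1 * N2 : ℕ) := by exact_mod_cast Nat.mul_pos hN1 hN2
  refine ⟨_, c1.trans (int_conn_smul ok1 hN), fun d => ?_⟩
  obtain ⟨m1, h1⟩ := hd1 d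
  obtain ⟨m2, h2⟩ := hd2 d
  have e1 : (N1 : ℝ) * ∑ i, (A d i : ℝ) * r i = m1 := by exact_mod_cast h1
  have e2 : (N2 : ℝ) * ∑ i, (B d i : ℝ) * r i = m2 := by exact_mod_cast h2
  refine ⟨m1 * N2, m2 * N1, ?_⟩
  apply Complex.ext
  · simp only [intVec, hr1]
    rw [Complex.re_ofReal_mul]
    push_cast
    rw [← e1]
    ring
  · simp only [intVec, hr1]
    rw [Complex.im_ofReal_mul]
    push_cast
    rw [← e2]
    ring

end Pool.Agent.TP
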