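import Pool.Agent.Lib_helper53.TP.WDefs

/-!
# LCN: functions constant on letters
-/

namespace Pool.Agent.TP

open Set Complex Finset

theorem lcn_back {S : Type} {h : Equiv.Perm S} {lab : S → ℕ}
    (cyc : ∀ x y : S, ∃ k : ℕ, (h ^ k) x = y) (x : S) :
    (∀ z, lab z = lab x) ∨ ∃ k : ℕ, (∀ m ≤ k, lab ((h⁻¹ ^ m) x) = lab x) ∧
      lab ((h⁻¹ ^ (k + 1)) x) ≠ lab x := by
  classical
  by_cases H : ∀ k : ℕ, lab ((h⁻¹ ^ k) x) = lab x
  · left
    intro z
    obtain ⟨k, hk⟩ := cyc z x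
    have : (h⁻¹ ^ k) x = z := by
      rw [← hk, inv_pow, Equiv.Perm.coe_inv, Equiv.symm_apply_apply]
    rw [← this]
    exact H k
  · right
    push Not at H
    have h0 : Nat.find H ≠ 0 := by
      intro h0
      have := Nat.find_spec H
      rw [h0] at this
      exact this rfl
    refine ⟨Nat.find H - 1, fun m hm => ?_, ?_⟩
    · by_contra hne
      exact Nat.find_min H (by omega : m < Nat.find H) hne
    · have : Nat.find H - 1 + 1 = Nat.find H := by omega
      rw [this]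
      exact Nat.find_spec H

theorem lcn_eq {S : Type} {h : Equiv.Perm S} {lab : S → ℕ}
    (cyc : ∀ x y : S, ∃ k : ℕ, (h ^ k) x = y)
    (first : ∀ x y, lab x = lab y → lab (h.symm x) ≠ lab x → lab (h.symm y) ≠ lab y → x = y)
    {Y : Type} {f : S → Y} (hf : ∀ x, lab (h x) = lab x → f (h x) = f x) {x y : S}
    (hxy : lab x = lab y) : f x = f y := by
  have hback : ∀ (x : S) (k : ℕ), (∀ m ≤ k, lab ((h⁻¹ ^ m) x) = lab x) →
      f ((h⁻¹ ^ k) x) = f x := by
    intro x k
    induction k with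
    | zero => intro _; simp
    | succ k ih =>
      intro hk
      rw [← ih fun m hm => hk m (by omega)]
      have h1 : (h⁻¹ ^ k) x = h ((h⁻¹ ^ (k + 1)) x) := by
        rw [pow_succ', Equiv.Perm.mul_apply, Equiv.Perm.coe_inv, Equiv.apply_symm_apply]
      have h2 : lab (h ((h⁻¹ ^ (k + 1)) x)) = lab ((h⁻¹ ^ (k + 1)) x) := by
        rw [← h1, hk k (by omega), hk (k + 1) le_rfl]
      have h3 := hf _ h2
      rw [← h1] at h3
      exact h3.symm
  rcases lcn_back cyc x with hx | ⟨k, hk1, hk2⟩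
  · obtain ⟨k, hk⟩ := cyc y x
    have h1 : (h⁻¹ ^ k) x = y := by rw [← hk, inv_pow, Equiv.Perm.coe_inv, Equiv.symm_apply_apply]
    rw [← h1]
    exact (hback x k fun m _ => hx _).symm
  · rcases lcn_back cyc y with hy | ⟨l, hl1, hl2⟩
    · exact absurd ((hy _).trans hxy.symm) hk2
    · rw [← hback x k hk1, ← hback y l hl1]
      congr 1
      have e1 : ∀ (x : S) (k : ℕ), h.symm ((h⁻¹ ^ k) x) = (h⁻¹ ^ (k + 1)) x := by
        intro x k
        rw [pow_succ', Equiv.Perm.mul_apply]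
        rfl
      apply first
      · rw [hk1 k le_rfl, hl1 l le_rfl, hxy]
      · rw [e1, hk1 k le_rfl]; exact hk2
      · rw [e1, hl1 l le_rfl]; exact hl2

theorem lett_const {S : Type} [Finite S] {j : ℕ} {h v : Equiv.Perm S} {lab : S → ℕ}
    (H : Lett j h v lab) {f : S → ℝ} (hf : ∀ x, lab (h x) = lab x → f (h x) = f x) :
    ∃ U : ℕ → ℝ, ∀ x, f x = U (lab x) := by
  classical
  refine ⟨fun i => if hi : ∃ x, lab x = i then f hi.choose else 0, fun x => ?_⟩
  have hi : ∃ y, lab y = lab x := ⟨x, rfl⟩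
  simp only [hi, dif_pos]
  exact lcn_eq H.cyc H.first hf hi.choose_spec.symm

end Pool.Agent.TP
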