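import Pool.Agent.Lib_helper53.TP.WDefs

/-!
# LET: from the bottom sides to the top sides
-/

namespace Pool.Agent.TP

open Set Complex Finset

/-- Going backwards to the first element of a letter, or the letter is everything. -/
theorem let_back {S : Type} {h : Equiv.Perm S} {lab : S → ℕ}
    (cyc : ∀ x y : S, ∃ k : ℕ, (h ^ k) x = y) (x : S) :
    (∀ z, lab z = lab x) ∨ ∃ y : S, ∃ k : ℕ, (h ^ k) y = x ∧ (∀ m ≤ k, lab ((h ^ m) y) = lab x) ∧
      lab (h.symm y) ≠ lab x := by
  classical
  by_cases H : ∀ k : ℕ, lab ((h⁻¹ ^ k) x) = lab x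
  · left
    intro z
    obtain ⟨k, hk⟩ := cyc z x
    have : (h⁻¹ ^ k) x = z := by
      rw [← hk, inv_pow, Equiv.Perm.coe_inv, Equiv.symm_apply_apply]
    rw [← this]
    exact H k
  · right
    push Not at H
    have h0 : Nat.find H ≠ 0 := by
      intro h0
      have := Nat.find_spec H
      rw [h0] at this
      exact this rfl
    set k := Nat.find H - 1 with hk
    have hk1 : k + 1 = Nat.find H := by omega
    have e1 : ∀ m ≤ k, (h ^ m) ((h⁻¹ ^ k) x) = (h⁻¹ ^ (k - m)) x := by
      intro m hm
      obtain ⟨d, hd⟩ : ∃ d, k = m + d := ⟨k - m, by omega⟩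
      rw [hd, pow_add, Equiv.Perm.mul_apply, inv_pow h m, Equiv.Perm.coe_inv, Equiv.apply_symm_apply]
      congr 2
      omega
    refine ⟨(h⁻¹ ^ k) x, k, ?_, fun m hm => ?_, ?_⟩
    · rw [e1 k le_rfl]; simp
    · rw [e1 m hm]
      by_contra hne
      exact Nat.find_min H (by omega : k - m < Nat.find H) hne
    · have h3 : h.symm ((h⁻¹ ^ k) x) = (h⁻¹ ^ (k + 1)) x := by
        rw [pow_succ', Equiv.Perm.mul_apply]
        rfl
      rw [h3, hk1]
      exact Nat.find_spec H

/-- The last element of a letter is unique. -/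
theorem let_last {S : Type} {h : Equiv.Perm S} {lab : S → ℕ}
    (cyc : ∀ x y : S, ∃ k : ℕ, (h ^ k) x = y)
    (hfirst : ∀ x y, lab x = lab y → lab (h.symm x) ≠ lab x → lab (h.symm y) ≠ lab y → x = y)
    {X Y : S} (hXY : lab X = lab Y) (hX : lab (h X) ≠ lab X) (hY : lab (h Y) ≠ lab Y) : X = Y := by
  rcases let_back cyc (lab := lab) X with h1 | ⟨x, k, hk, hk1, hk2⟩
  · exact absurd (h1 _) hX
  rcases let_back cyc (lab := lab) Y with h1 | ⟨y, l, hl, hl1, hl2⟩
  · exact absurd (h1 _) hY
  have hlx : lab x = lab X := by simpa using hk1 0 (Nat.zero_le _)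
  have hly : lab y = lab Y := by simpa using hl1 0 (Nat.zero_le _)
  have hxy : x = y := hfirst x y (by rw [hlx, hly, hXY]) (by rw [hlx]; exact hk2)
    (by rw [hly]; exact hl2)
  subst hxy
  have e1 : h X = (h ^ (k + 1)) x := by rw [pow_succ', Equiv.Perm.mul_apply, hk]
  have e2 : h Y = (h ^ (l + 1)) x := by rw [pow_succ', Equiv.Perm.mul_apply, hl]
  rcases lt_trichotomy k l with hkl | hkl | hkl
  · exfalso
    apply hX
    rw [e1, hl1 (k + 1) (by omega), hXY]
  · rw [← hk, ← hl, hkl]
  · exfalso
    apply hY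
    rw [e2, hk1 (l + 1) (by omega), hXY]

theorem lett_of_expand {S' : Type} [Finite S'] (j : ℕ) (hj : 1 ≤ j) (h v : Equiv.Perm S')
    (lab : S' → ℕ) (cyc : ∀ x y : S', ∃ k : ℕ, (h ^ k) x = y) (hle : ∀ x, lab x ≤ j)
    (hcard : ∀ i ≤ j, Nat.card {x // lab x = i} = len i)
    (hfirst : ∀ x y, lab x = lab y → lab (h.symm x) ≠ lab x → lab (h.symm y) ≠ lab y → x = y)
    (htr : ∀ x, lab (h x) = lab x → v.symm (h x) = h (v.symm x)) :
    Lett j h v (fun x => lab (v x)) := by
  classical
  have hpos : ∀ i, 0 < len i := by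
    intro i
    cases i with
    | zero => simp [len]
    | succ k =>
      simp only [len]
      have : 0 < WW k := Nat.pos_of_ne_zero (NeZero.ne _)
      positivity
  have hex : ∀ i ≤ j, ∃ x, lab x = i := by
    intro i hi
    have h1 : 0 < Nat.card {x // lab x = i} := by rw [hcard i hi]; exact hpos i
    obtain ⟨x⟩ : Nonempty {x // lab x = i} := (Nat.card_pos_iff.1 h1).1
    exact ⟨x.1, x.2⟩
  have hnc : ∀ i, ¬ ∀ z, lab z = i := by
    intro i hi
    obtain ⟨x, hx⟩ := hex 0 (Nat.zero_le _)
    obtain ⟨y, hy⟩ := hex 1 hj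
    have h1 := hi x
    have h2 := hi y
    omega
  refine ⟨cyc, fun x => hle _, fun i hi => ?_, ?_, ?_⟩
  · rw [← hcard i hi]
    refine Nat.card_congr (Equiv.subtypeEquiv v fun x => Iff.rfl)
  · intro x y hxy hx hy
    have key : ∀ x, lab (v (h.symm x)) ≠ lab (v x) → lab (h.symm (v x)) ≠ lab (v x) := by
      intro x hx heq
      apply hx
      have h1 := htr (h.symm (v x)) (by rw [Equiv.apply_symm_apply]; exact heq.symm)
      rw [Equiv.apply_symm_apply, Equiv.symm_apply_apply] at h1
      have h2 : h.symm x = v.symm (h.symm (v x)) := by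
        conv_lhs => rw [h1]
        rw [Equiv.symm_apply_apply]
      rw [h2, Equiv.apply_symm_apply, heq]
    exact v.injective (hfirst _ _ hxy (key x hx) (key y hy))
  · intro x hx
    change lab (v (h x)) = lab (v x) at hx
    by_cases h1 : lab (h (v x)) = lab (v x)
    · have h2 := htr _ h1
      rw [Equiv.symm_apply_apply] at h2
      rw [← h2, Equiv.apply_symm_apply]
    · by_cases h2 : lab (h.symm (v (h x))) = lab (v (h x))
      · have h3 := htr (h.symm (v (h x))) (by rw [Equiv.apply_symm_apply]; exact h2.symm)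
        rw [Equiv.apply_symm_apply, Equiv.symm_apply_apply] at h3
        have h4 := h.injective h3
        have h5 : v x = h.symm (v (h x)) := by
          conv_lhs => rw [h4]
          rw [Equiv.apply_symm_apply]
        rw [h5, Equiv.apply_symm_apply]
      · exfalso
        -- the preimage of the letter is closed under `h`
        have hcl : ∀ y, lab (v y) = lab (v x) → lab (v (h y)) = lab (v x) := by
          intro y hy
          by_cases h3 : lab (h (v y)) = lab (v y)
          · have h4 := htr _ h3
            rw [Equiv.symm_apply_apply] at h4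
            rw [← h4, Equiv.apply_symm_apply, h3, hy]
          · have h4 : v y = v x := let_last cyc hfirst hy h3 h1
            rw [v.injective h4, hx]
        have hall : ∀ k : ℕ, lab (v ((h ^ k) x)) = lab (v x) := by
          intro k
          induction k with
          | zero => simp
          | succ k ih =>
            rw [pow_succ', Equiv.Perm.mul_apply]
            exact hcl _ ih
        apply hnc (lab (v x))
        intro z
        obtain ⟨k, hk⟩ := cyc x (v.symm z)
        have := hall k
        rw [hk, Equiv.apply_symm_apply] at this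
        exact this

end Pool.Agent.TP
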