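import Pool.Agent.Lib_helper53.TP.WDefs

/-! # Block LIM -/

namespace Pool.Agent.TP

open Set Complex Finset

section
variable {V : Type} [AddCommGroup V] [Module ℝ V] [FiniteDimensional ℝ V]

/-- positivity is uniform -/
theorem lim_pos (ω : V →ₗ[ℝ] V →ₗ[ℝ] ℝ) (W : Submodule ℝ (V × V))
    (hW : ∀ x ∈ W, x ≠ 0 → 0 < ω x.1 x.2) (f g : V →ₗ[ℝ] ℝ) :
    ∃ (ν : V × V → ℝ) (c C : ℝ), 0 < c ∧ 0 ≤ C ∧ (∀ x, 0 ≤ ν x) ∧ (∀ x, x ≠ 0 → 0 < ν x) ∧
      (∀ x ∈ W, c * ν x ^ 2 ≤ ω x.1 x.2) ∧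
      ∀ x, |f x.1| ≤ C * ν x ∧ |g x.1| ≤ C * ν x ∧ |f x.2| ≤ C * ν x ∧ |g x.2| ≤ C * ν x := by
  set n := Module.finrank ℝ V
  let e : V ≃ₗ[ℝ] (Fin n → ℝ) := (Module.finBasis ℝ V).equivFun
  let ee : (V × V) ≃ₗ[ℝ] ((Fin n → ℝ) × (Fin n → ℝ)) := e.prodCongr e
  have hee : ∀ x, ee x = (e x.1, e x.2) := fun x => rfl
  set W' : Submodule ℝ ((Fin n → ℝ) × (Fin n → ℝ)) := W.map (ee : (V × V) →ₗ[ℝ] _) with hW'
  have hclosed : IsClosed (W' : Set ((Fin n → ℝ) × (Fin n → ℝ))) :=
    Submodule.closed_of_finiteDimensional W'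
  have hcomp : IsCompact (Metric.sphere (0 : (Fin n → ℝ) × (Fin n → ℝ)) 1 ∩ W') :=
    (isCompact_sphere _ _).inter_right hclosed
  -- continuity
  let ω' : (Fin n → ℝ) →ₗ[ℝ] (Fin n → ℝ) →ₗ[ℝ] ℝ :=
    ω.compl₁₂ (e.symm : (Fin n → ℝ) →ₗ[ℝ] V) (e.symm : (Fin n → ℝ) →ₗ[ℝ] V)
  have hω' : ∀ x y, ω' (e x) (e y) = ω x y := by
    intro x y
    change ω (e.symm (e x)) (e.symm (e y)) = ω x y
    rw [e.symm_apply_apply, e.symm_apply_apply]
  let L : (Fin n → ℝ) →ₗ[ℝ] ((Fin n → ℝ) →L[ℝ] ℝ) :=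
    (LinearMap.toContinuousLinearMap : ((Fin n → ℝ) →ₗ[ℝ] ℝ) ≃ₗ[ℝ] _).toLinearMap ∘ₗ ω'
  have hLc : Continuous L := L.continuous_of_finiteDimensional
  have hF : Continuous (fun z : (Fin n → ℝ) × (Fin n → ℝ) => ω' z.1 z.2) := by
    have : Continuous (fun z : (Fin n → ℝ) × (Fin n → ℝ) => L z.1 z.2) :=
      (hLc.comp continuous_fst).clm_apply continuous_snd
    exact this
  -- the constant c
  obtain ⟨c, hc0, hc⟩ : ∃ c : ℝ, 0 < c ∧ ∀ z ∈ W', ‖z‖ = 1 → c ≤ ω' z.1 z.2 := by
    rcases (Metric.sphere (0 : (Fin n → ℝ) × (Fin n → ℝ)) 1 ∩ W').eq_empty_or_nonempty with h | h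
    · refine ⟨1, one_pos, fun z hz hz1 => ?_⟩
      exfalso
      have : z ∈ Metric.sphere (0 : (Fin n → ℝ) × (Fin n → ℝ)) 1 ∩ W' :=
        ⟨by rw [mem_sphere_zero_iff_norm]; exact hz1, hz⟩
      rw [h] at this
      exact this
    · obtain ⟨z0, hz0, hmin⟩ := hcomp.exists_isMinOn h hF.continuousOn
      obtain ⟨hz1, hz2⟩ := hz0
      rw [mem_sphere_zero_iff_norm] at hz1
      refine ⟨ω' z0.1 z0.2, ?_, fun z hz hz1' => ?_⟩
      · obtain ⟨x, hx, hxz⟩ := hz2
        have hxz' : z0 = (e x.1, e x.2) := hxz.symm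
        rw [hxz']
        change 0 < ω' (e x.1) (e x.2)
        rw [hω']
        apply hW x hx
        intro h0
        rw [hxz', h0] at hz1
        simp at hz1
      · exact hmin ⟨by rw [mem_sphere_zero_iff_norm]; exact hz1', hz⟩
  -- functionals
  have hfun : ∀ φ : V →ₗ[ℝ] ℝ, ∃ C : ℝ, 0 ≤ C ∧ ∀ x, |φ x| ≤ C * ‖e x‖ := by
    intro φ
    let Φ : (Fin n → ℝ) →L[ℝ] ℝ :=
      LinearMap.toContinuousLinearMap (φ ∘ₗ (e.symm : (Fin n → ℝ) →ₗ[ℝ] V))
    refine ⟨‖Φ‖, norm_nonneg _, fun x => ?_⟩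
    have h1 := Φ.le_opNorm (e x)
    have h2 : Φ (e x) = φ x := by
      change φ (e.symm (e x)) = φ x
      rw [e.symm_apply_apply]
    rw [h2, Real.norm_eq_abs] at h1
    exact h1
  obtain ⟨C1, hC1, hC1'⟩ := hfun f
  obtain ⟨C2, hC2, hC2'⟩ := hfun g
  refine ⟨fun x => ‖ee x‖, c, max C1 C2, hc0, le_max_of_le_left hC1, fun x => norm_nonneg _,
    fun x hx => ?_, fun x hx => ?_, fun x => ?_⟩
  · rw [norm_pos_iff]
    intro h
    apply hx
    exact ee.injective (by rw [h, map_zero])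
  · by_cases h0 : x = 0
    · subst h0
      simp
    · have hpos : 0 < ‖ee x‖ := by
        rw [norm_pos_iff]
        intro h
        apply h0
        exact ee.injective (by rw [h, map_zero])
      have hz : ‖ee x‖⁻¹ • ee x ∈ W' := W'.smul_mem _ ⟨x, hx, rfl⟩
      have hz1 : ‖‖ee x‖⁻¹ • ee x‖ = 1 := by
        rw [norm_smul, norm_inv, norm_norm, inv_mul_cancel₀ hpos.ne']
      have h1 := hc _ hz hz1
      have h2 : ω' (‖ee x‖⁻¹ • ee x).1 (‖ee x‖⁻¹ • ee x).2 = (‖ee x‖⁻¹) ^ 2 * ω x.1 x.2 := by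
        rw [hee]
        change ω' (_ • e x.1) (_ • e x.2) = _
        rw [map_smul, map_smul, LinearMap.smul_apply, hω']
        simp only [smul_eq_mul]
        ring
      rw [h2] at h1
      change c * ‖ee x‖ ^ 2 ≤ ω x.1 x.2
      have h3 : c * ‖ee x‖ ^ 2 ≤ (‖ee x‖⁻¹) ^ 2 * ω x.1 x.2 * ‖ee x‖ ^ 2 :=
        mul_le_mul_of_nonneg_right h1 (by positivity)
      have h4 : (‖ee x‖⁻¹) ^ 2 * ω x.1 x.2 * ‖ee x‖ ^ 2 = ω x.1 x.2 := by
        field_simp
      rw [h4] at h3
      exact h3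
  · have n1 : ‖e x.1‖ ≤ ‖ee x‖ := le_max_left _ _
    have n2 : ‖e x.2‖ ≤ ‖ee x‖ := le_max_right _ _
    have m1 : C1 ≤ max C1 C2 := le_max_left _ _
    have m2 : C2 ≤ max C1 C2 := le_max_right _ _
    have n0 : 0 ≤ ‖ee x‖ := norm_nonneg _
    refine ⟨(hC1' _).trans ?_, (hC2' _).trans ?_, (hC1' _).trans ?_, (hC2' _).trans ?_⟩
    · exact mul_le_mul m1 n1 (norm_nonneg _) (le_max_of_le_left hC1)
    · exact mul_le_mul m2 n1 (norm_nonneg _) (le_max_of_le_left hC1)
    · exact mul_le_mul m1 n2 (norm_nonneg _) (le_max_of_le_left hC1)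
    · exact mul_le_mul m2 n2 (norm_nonneg _) (le_max_of_le_left hC1)

theorem lim_core (ω : V →ₗ[ℝ] V →ₗ[ℝ] ℝ) (anti : ∀ x y, ω x y = -ω y x) (N : V →ₗ[ℝ] V)
    (hN2 : ∀ x, N (N x) = 0) (hNω : ∀ x y, ω (N x) y = -ω x (N y)) (P : Submodule ℝ V) (p q : V)
    (hP : P = Submodule.span ℝ {p, q}) (W : Submodule ℝ (V × V))
    (hW : ∀ x ∈ W, x ≠ 0 → 0 < ω x.1 x.2)
    (hk : ∀ k : ℕ, ∃ p1 ∈ P, ∃ p2 ∈ P, (p1 + (k : ℝ) • N p1, p2 + (k : ℝ) • N p2) ∈ W ∧
      (p1 ≠ 0 ∨ p2 ≠ 0)) (f g : V →ₗ[ℝ] ℝ)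
    (hf : ∀ (k : ℕ) (x y : ℝ), f ((x • p + y • q) + (k : ℝ) • N (x • p + y • q)) = k * x)
    (hg : ∀ (k : ℕ) (x y : ℝ), 1 ≤ k →
      |y| ≤ |g ((x • p + y • q) + (k : ℝ) • N (x • p + y • q))|) : False := by
  obtain ⟨ν, c, C, hc, hC, hν0, hν1, hν2, hν3⟩ := lim_pos ω W hW f g
  obtain ⟨k, hkk⟩ := exists_nat_gt (2 * C ^ 2 * |ω p q| / c)
  have hk' : 2 * C ^ 2 * |ω p q| / c < (k + 1 : ℕ) := by
    push_cast
    linarith
  obtain ⟨p1, hp1, p2, hp2, hmem, hne⟩ := hk (k + 1)
  rw [hP, Submodule.mem_span_pair] at hp1 hp2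
  obtain ⟨x1, y1, rfl⟩ := hp1
  obtain ⟨x2, y2, rfl⟩ := hp2
  set K : ℝ := ((k + 1 : ℕ) : ℝ) with hK
  have hK0 : 0 < K := by rw [hK]; positivity
  set u1 := x1 • p + y1 • q with hu1
  set u2 := x2 • p + y2 • q with hu2
  -- invariance
  have hinv : ω (u1 + K • N u1) (u2 + K • N u2) = ω u1 u2 := by
    have e1 : ω (N u1) (N u2) = 0 := by rw [hNω, hN2, map_zero, neg_zero]
    simp only [map_add, map_smul, LinearMap.add_apply, LinearMap.smul_apply, smul_eq_mul, e1,
      hNω u1 u2]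
    ring
  have hωu : ω u1 u2 = (x1 * y2 - x2 * y1) * ω p q := by
    have e0 : ∀ z, ω z z = 0 := by
      intro z
      have := anti z z
      linarith
    rw [hu1, hu2]
    simp only [map_add, map_smul, LinearMap.add_apply, LinearMap.smul_apply, smul_eq_mul, e0,
      anti q p]
    ring
  have hwne : (u1 + K • N u1, u2 + K • N u2) ≠ 0 := by
    intro h0
    have e1 : u1 + K • N u1 = 0 := congrArg Prod.fst h0
    have e2 : u2 + K • N u2 = 0 := congrArg Prod.snd h0
    have key : ∀ u : V, u + K • N u = 0 → u = 0 := by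
      intro u hu
      have h1 := congrArg N hu
      rw [map_add, map_smul, hN2, smul_zero, add_zero, map_zero] at h1
      rw [h1, smul_zero, add_zero] at hu
      exact hu
    rcases hne with h | h
    · exact h (key _ e1)
    · exact h (key _ e2)
  have hR := hν1 _ hwne
  set R := ν (u1 + K • N u1, u2 + K • N u2) with hRdef
  have h1 := hν2 _ hmem
  change c * R ^ 2 ≤ ω (u1 + K • N u1) (u2 + K • N u2) at h1
  rw [hinv, hωu] at h1
  obtain ⟨a1, a2, a3, a4⟩ := hν3 (u1 + K • N u1, u2 + K • N u2)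
  change |f (u1 + K • N u1)| ≤ C * R at a1
  change |g (u1 + K • N u1)| ≤ C * R at a2
  change |f (u2 + K • N u2)| ≤ C * R at a3
  change |g (u2 + K • N u2)| ≤ C * R at a4
  have f1 : f (u1 + K • N u1) = K * x1 := hf (k + 1) x1 y1
  have f2 : f (u2 + K • N u2) = K * x2 := hf (k + 1) x2 y2
  rw [f1, abs_mul, abs_of_pos hK0] at a1
  rw [f2, abs_mul, abs_of_pos hK0] at a3
  have g1 : |y1| ≤ C * R := (hg (k + 1) x1 y1 (by omega)).trans a2
  have g2 : |y2| ≤ C * R := (hg (k + 1) x2 y2 (by omega)).trans a4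
  have hCR : 0 ≤ C * R := mul_nonneg hC hR.le
  -- conclusion
  have h2 : (x1 * y2 - x2 * y1) * ω p q ≤ (|x1| * |y2| + |x2| * |y1|) * |ω p q| := by
    calc (x1 * y2 - x2 * y1) * ω p q ≤ |(x1 * y2 - x2 * y1) * ω p q| := le_abs_self _
      _ = |x1 * y2 - x2 * y1| * |ω p q| := abs_mul _ _
      _ ≤ (|x1| * |y2| + |x2| * |y1|) * |ω p q| := by
          apply mul_le_mul_of_nonneg_right _ (abs_nonneg _)
          calc |x1 * y2 - x2 * y1| ≤ |x1 * y2| + |x2 * y1| := abs_sub _ _
            _ = _ := by rw [abs_mul, abs_mul]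
  have h3 : K * (|x1| * |y2| + |x2| * |y1|) ≤ 2 * (C * R) ^ 2 := by
    have t1 : K * |x1| * |y2| ≤ (C * R) * (C * R) :=
      mul_le_mul a1 g2 (abs_nonneg _) hCR
    have t2 : K * |x2| * |y1| ≤ (C * R) * (C * R) :=
      mul_le_mul a3 g1 (abs_nonneg _) hCR
    nlinarith [t1, t2]
  have h4 : K * (c * R ^ 2) ≤ 2 * C ^ 2 * |ω p q| * R ^ 2 := by
    calc K * (c * R ^ 2) ≤ K * ((|x1| * |y2| + |x2| * |y1|) * |ω p q|) :=
          mul_le_mul_of_nonneg_left (h1.trans h2) hK0.le
      _ = (K * (|x1| * |y2| + |x2| * |y1|)) * |ω p q| := by ring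
      _ ≤ (2 * (C * R) ^ 2) * |ω p q| := mul_le_mul_of_nonneg_right h3 (abs_nonneg _)
      _ = 2 * C ^ 2 * |ω p q| * R ^ 2 := by ring
  have h5 : K * c ≤ 2 * C ^ 2 * |ω p q| := by
    have hR2 : 0 < R ^ 2 := by positivity
    by_contra hcon
    push Not at hcon
    have := mul_lt_mul_of_pos_right hcon hR2
    linarith [h4]
  rw [div_lt_iff₀ hc] at hk'
  linarith

end

/-- LIM: linear algebra. -/
theorem lim_plane {V : Type} [AddCommGroup V] [Module ℝ V] [FiniteDimensional ℝ V]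
    (ω : V →ₗ[ℝ] V →ₗ[ℝ] ℝ) (anti : ∀ x y, ω x y = -ω y x) (N : V →ₗ[ℝ] V)
    (hN2 : ∀ x, N (N x) = 0) (hNω : ∀ x y, ω (N x) y = -ω x (N y)) (P : Submodule ℝ V) (p q : V)
    (hP : P = Submodule.span ℝ {p, q}) (W : Submodule ℝ (V × V))
    (hW : ∀ x ∈ W, x ≠ 0 → 0 < ω x.1 x.2)
    (hk : ∀ k : ℕ, ∃ p1 ∈ P, ∃ p2 ∈ P, (p1 + (k : ℝ) • N p1, p2 + (k : ℝ) • N p2) ∈ W ∧
      (p1 ≠ 0 ∨ p2 ≠ 0)) :
    ∀ x ∈ P, N x ∈ P := by
  by_contra hcon
  push Not at hcon
  obtain ⟨x, hx, hNx⟩ := hcon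
  -- WLOG p = x
  obtain ⟨q, hP⟩ : ∃ q, P = Submodule.span ℝ {x, q} := by
    have hx' := hx
    rw [hP, Submodule.mem_span_pair] at hx'
    obtain ⟨α, β, hαβ⟩ := hx'
    by_cases hα : α = 0
    · -- x = β q
      have hβ : β ≠ 0 := by
        intro hβ
        apply hNx
        rw [← hαβ, hα, hβ]
        simp
      refine ⟨p, le_antisymm ?_ ?_⟩
      · rw [hP, Submodule.span_le]
        rintro z (rfl | rfl)
        · exact Submodule.subset_span (by simp)
        · rw [SetLike.mem_coe, Submodule.mem_span_pair]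
          refine ⟨β⁻¹, 0, ?_⟩
          rw [← hαβ, hα, zero_smul, zero_add, smul_smul, inv_mul_cancel₀ hβ]
          simp
      · rw [Submodule.span_le]
        rintro z (rfl | rfl)
        · exact hx
        · rw [hP]
          exact Submodule.subset_span (by simp)
    · refine ⟨q, le_antisymm ?_ ?_⟩
      · rw [hP, Submodule.span_le]
        rintro z (rfl | rfl)
        · rw [SetLike.mem_coe, Submodule.mem_span_pair]
          refine ⟨α⁻¹, -(α⁻¹ * β), ?_⟩
          rw [← hαβ, smul_add, smul_smul, smul_smul, inv_mul_cancel₀ hα, one_smul, neg_smul]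
          abel
        · exact Submodule.subset_span (by simp)
      · rw [Submodule.span_le]
        rintro z (rfl | rfl)
        · exact hx
        · rw [hP]
          exact Submodule.subset_span (by simp)
  -- q is not a multiple of x
  have hind : ∀ α : ℝ, q ≠ α • x := by
    intro α hα
    obtain ⟨p1, hp1, p2, hp2, hmem, hne⟩ := hk 0
    have hwne : (p1 + ((0 : ℕ) : ℝ) • N p1, p2 + ((0 : ℕ) : ℝ) • N p2) ≠ 0 := by
      intro h0
      have e1 := congrArg Prod.fst h0
      have e2 := congrArg Prod.snd h0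
      simp at e1 e2
      rcases hne with h | h
      · exact h e1
      · exact h e2
    have h1 := hW _ hmem hwne
    simp only [Nat.cast_zero, zero_smul, add_zero] at h1
    rw [hP, Submodule.mem_span_pair] at hp1 hp2
    obtain ⟨x1, y1, rfl⟩ := hp1
    obtain ⟨x2, y2, rfl⟩ := hp2
    have e0 : ω x x = 0 := by
      have := anti x x
      linarith
    rw [hα] at h1
    simp [e0] at h1
  by_cases hq : N q ∈ Submodule.span ℝ {x, q, N x}
  · -- case B
    rw [Submodule.mem_span_triple] at hq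
    obtain ⟨α, β, γ, hαβγ⟩ := hq
    set q' := q - γ • x with hq'
    have hPq' : P = Submodule.span ℝ {x, q'} := by
      apply le_antisymm
      · rw [hP, Submodule.span_le]
        rintro z (rfl | rfl)
        · exact Submodule.subset_span (by simp)
        · rw [SetLike.mem_coe, Submodule.mem_span_pair]
          refine ⟨γ, 1, ?_⟩
          rw [hq', one_smul]
          abel
      · rw [Submodule.span_le]
        rintro z (rfl | rfl)
        · exact hx
        · rw [hq', hP]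
          exact Submodule.sub_mem _ (Submodule.subset_span (by simp))
            (Submodule.smul_mem _ _ (Submodule.subset_span (by simp)))
    have hNq' : N q' = (α + β * γ) • x + β • q' := by
      rw [hq', map_sub, map_smul, ← hαβγ, smul_sub, smul_smul, add_smul]
      abel
    have h2 := congrArg N hNq'
    rw [hN2, map_add, map_smul, map_smul, hNq'] at h2
    have hα' : α + β * γ = 0 := by
      by_contra hne
      apply hNx
      have h3 : (α + β * γ) • N x = -(β • ((α + β * γ) • x + β • q')) :=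
        eq_neg_of_add_eq_zero_left h2.symm
      have h4 : (α + β * γ) • N x ∈ P := by
        rw [h3, hPq']
        apply Submodule.neg_mem
        apply Submodule.smul_mem
        exact Submodule.add_mem _ (Submodule.smul_mem _ _ (Submodule.subset_span (by simp)))
          (Submodule.smul_mem _ _ (Submodule.subset_span (by simp)))
      exact (Submodule.smul_mem_iff _ hne).1 h4
    have hβ : β = 0 := by
      rw [hα', zero_smul, zero_smul, zero_add, zero_add, smul_smul] at h2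
      have h3 := (smul_eq_zero.1 h2.symm)
      rcases h3 with h3 | h3
      · exact mul_self_eq_zero.1 h3
      · exfalso
        apply hind γ
        rw [hq', sub_eq_zero] at h3
        exact h3
    have hNq0 : N q' = 0 := by rw [hNq', hα', hβ]; simp
    -- functionals
    obtain ⟨f, hf1, hf2⟩ := Submodule.exists_le_ker_of_notMem hNx
    have hq'n : q' ∉ Submodule.span ℝ {x, N x} := by
      intro hmem
      rw [Submodule.mem_span_pair] at hmem
      obtain ⟨a, b, hab⟩ := hmem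
      by_cases hb : b = 0
      · apply hind (a + γ)
        rw [hb, zero_smul, add_zero, hq'] at hab
        rw [add_smul, hab]
        abel
      · apply hNx
        have h4 : b • N x ∈ P := by
          have : b • N x = q' - a • x := by rw [← hab]; abel
          rw [this, hPq']
          exact Submodule.sub_mem _ (Submodule.subset_span (by simp))
            (Submodule.smul_mem _ _ (Submodule.subset_span (by simp)))
        exact (Submodule.smul_mem_iff _ hb).1 h4
    obtain ⟨g, hg1, hg2⟩ := Submodule.exists_le_ker_of_notMem hq'n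
    have fx : f x = 0 := hf2 hx
    have fq : f q' = 0 := hf2 (by rw [hPq']; exact Submodule.subset_span (by simp))
    have gx : g x = 0 := hg2 (Submodule.subset_span (by simp))
    have gN : g (N x) = 0 := hg2 (Submodule.subset_span (by simp))
    refine lim_core ω anti N hN2 hNω P x q' hPq' W hW hk ((f (N x))⁻¹ • f) ((g q')⁻¹ • g) ?_ ?_
    · intro k a b
      simp only [LinearMap.smul_apply, map_add, map_smul, fx, fq, hNq0, map_zero, smul_eq_mul]
      field_simp
      ring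
    · intro k a b _
      simp only [LinearMap.smul_apply, map_add, map_smul, gx, gN, hNq0, map_zero, smul_eq_mul]
      apply le_of_eq
      congr 1
      field_simp
      ring
  · -- case A
    have hNx' : N x ∉ Submodule.span ℝ {x, q, N q} := by
      intro hmem
      rw [Submodule.mem_span_triple] at hmem
      obtain ⟨a, b, c, habc⟩ := hmem
      by_cases hc : c = 0
      · apply hNx
        rw [← habc, hc, zero_smul, add_zero, hP]
        exact Submodule.add_mem _ (Submodule.smul_mem _ _ (Submodule.subset_span (by simp)))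
          (Submodule.smul_mem _ _ (Submodule.subset_span (by simp)))
      · apply hq
        have h4 : c • N q ∈ Submodule.span ℝ {x, q, N x} := by
          have : c • N q = N x - a • x - b • q := by rw [← habc]; abel
          rw [this]
          exact Submodule.sub_mem _ (Submodule.sub_mem _ (Submodule.subset_span (by simp))
            (Submodule.smul_mem _ _ (Submodule.subset_span (by simp))))
            (Submodule.smul_mem _ _ (Submodule.subset_span (by simp)))
        exact (Submodule.smul_mem_iff _ hc).1 h4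
    obtain ⟨f, hf1, hf2⟩ := Submodule.exists_le_ker_of_notMem hNx'
    obtain ⟨g, hg1, hg2⟩ := Submodule.exists_le_ker_of_notMem hq
    have fx : f x = 0 := hf2 (Submodule.subset_span (by simp))
    have fq : f q = 0 := hf2 (Submodule.subset_span (by simp))
    have fN : f (N q) = 0 := hf2 (Submodule.subset_span (by simp))
    have gx : g x = 0 := hg2 (Submodule.subset_span (by simp))
    have gq : g q = 0 := hg2 (Submodule.subset_span (by simp))
    have gN : g (N x) = 0 := hg2 (Submodule.subset_span (by simp))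
    refine lim_core ω anti N hN2 hNω P x q hP W hW hk ((f (N x))⁻¹ • f) ((g (N q))⁻¹ • g) ?_ ?_
    · intro k a b
      simp only [LinearMap.smul_apply, map_add, map_smul, fx, fq, fN, smul_eq_mul]
      field_simp
      ring
    · intro k a b hk1
      simp only [LinearMap.smul_apply, map_add, map_smul, gx, gq, gN, smul_eq_mul]
      have e1 : a * ((g (N q))⁻¹ * 0) + b * ((g (N q))⁻¹ * 0) + (k : ℝ) *
          (a * ((g (N q))⁻¹ * 0) + b * ((g (N q))⁻¹ * g (N q))) = k * b := by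
        rw [inv_mul_cancel₀ hg1]
        ring
      rw [e1, abs_mul, Nat.abs_cast]
      have : (1 : ℝ) ≤ k := by exact_mod_cast hk1
      nlinarith [abs_nonneg b]

end Pool.Agent.TP
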