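import Pool.Agent.Lib_helper53.TP.WDefs

/-!
# LNK: arithmetic of hierarchical sums
-/

namespace Pool.Agent.TP

open Set Complex Finset

theorem lnk_sum_len (m : ℕ) : ∑ k ∈ range (m + 1), (len k : ℤ) = WW m := by
  induction m with
  | zero => simp [len, WW]
  | succ m ih =>
    rw [Finset.sum_range_succ, ih]
    simp [len, WW]

theorem lnk_WW_ge (m : ℕ) : 2 ≤ WW m := by
  induction m with
  | zero => simp [WW]
  | succ m ih => simp only [WW]; omega

theorem lnk_WW_mono : Monotone WW := by
  refine monotone_nat_of_le_succ fun n => ?_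
  simp only [WW]; omega

theorem lnk_len_gt (m : ℕ) : 4 * (WW m : ℤ) * WW m < len (m + 1) := by
  have h2 : (2 : ℤ) ≤ WW m := by exact_mod_cast lnk_WW_ge m
  have h3 : (1 : ℤ) ≤ (WW m).factorial := by exact_mod_cast Nat.factorial_pos _
  have h4 : (len (m + 1) : ℤ) = (WW m : ℤ) ^ 6 * (WW m).factorial := by simp [len]
  rw [h4]
  have h5 : (16 : ℤ) ≤ (WW m : ℤ) ^ 4 := by
    calc (16 : ℤ) = 2 ^ 4 := by norm_num
      _ ≤ (WW m : ℤ) ^ 4 := pow_le_pow_left₀ (by norm_num) h2 4
  have h6 : (0 : ℤ) < (WW m : ℤ) ^ 2 := by positivity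
  calc 4 * (WW m : ℤ) * WW m = 4 * (WW m : ℤ) ^ 2 := by ring
    _ < 16 * (WW m : ℤ) ^ 2 := by linarith
    _ ≤ (WW m : ℤ) ^ 4 * (WW m : ℤ) ^ 2 := mul_le_mul_of_nonneg_right h5 h6.le
    _ = (WW m : ℤ) ^ 6 * 1 := by ring
    _ ≤ (WW m : ℤ) ^ 6 * (WW m).factorial := by
        apply mul_le_mul_of_nonneg_left h3
        positivity

theorem link (B : ℕ → ℕ → ℤ) (hB : ∀ i l, B i l = -B l i) (hB1 : ∀ i l, |B i l| ≤ 1)
    (j s : ℕ) (hs : 1 ≤ s) (hsj : s < j) (h0 : XX B j s = 0) :
    ∀ r, s < r → r ≤ j → XX B r s = 0 := by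
  obtain ⟨s', rfl⟩ : ∃ s', s = s' + 1 := ⟨s - 1, by omega⟩
  set s := s' + 1 with hsdef
  set β : ℕ → ℤ := fun l => ∑ k ∈ range s, (len k : ℤ) * (B l k - B l s - B j k + B j s) with hβ
  have hXX : ∀ r, XX B r s = ((∑ i ∈ range r, (len i : ℤ) * (β i - β r) : ℤ) : ℝ) := by
    intro r
    rw [XX]
    push_cast
    refine Finset.sum_congr rfl fun i _ => ?_
    have : ((β i : ℤ) : ℝ) - (β r : ℤ) =
        ∑ k ∈ range s, (len k : ℝ) * (B i k - B r k - B i s + B r s) := by
      simp only [hβ]
      push_cast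
      rw [← Finset.sum_sub_distrib]
      exact Finset.sum_congr rfl fun k _ => by ring
    rw [this, Finset.mul_sum]
    exact Finset.sum_congr rfl fun k _ => by ring
  have hβj : β j = 0 := by
    simp only [hβ]
    exact Finset.sum_eq_zero fun k _ => by ring
  have hβb : ∀ l, |β l| ≤ 4 * WW s' := by
    intro l
    calc |β l| ≤ ∑ k ∈ range s, |(len k : ℤ) * (B l k - B l s - B j k + B j s)| :=
          Finset.abs_sum_le_sum_abs _ _
      _ ≤ ∑ k ∈ range s, (len k : ℤ) * 4 := by
          refine Finset.sum_le_sum fun k _ => ?_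
          rw [abs_mul, abs_of_nonneg (by positivity : (0 : ℤ) ≤ (len k : ℤ))]
          apply mul_le_mul_of_nonneg_left _ (by positivity)
          have e1 := abs_le.1 (hB1 l k)
          have e2 := abs_le.1 (hB1 l s)
          have e3 := abs_le.1 (hB1 j k)
          have e4 := abs_le.1 (hB1 j s)
          rw [abs_le]
          constructor <;> linarith [e1.1, e1.2, e2.1, e2.2, e3.1, e3.2, e4.1, e4.2]
      _ = 4 * WW s' := by rw [← Finset.sum_mul, hsdef, lnk_sum_len]; ring
  set Sg : ℕ → ℤ := fun r => ∑ i ∈ range r, (len i : ℤ) * β i with hSg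
  have hXS : ∀ r, XX B r s = ((Sg r - (∑ i ∈ range r, (len i : ℤ)) * β r : ℤ) : ℝ) := by
    intro r
    rw [hXX]
    congr 1
    simp only [hSg]
    rw [Finset.sum_mul, ← Finset.sum_sub_distrib]
    exact Finset.sum_congr rfl fun i _ => by ring
  -- antisymmetry
  have hss : ∑ i ∈ range s, (len i : ℤ) * (β i - β s) = 0 := by
    have hT : ∑ i ∈ range s, (len i : ℤ) * (β i - β s) =
        ∑ i ∈ range s, ∑ k ∈ range s, (len i : ℤ) * len k * (B i k - B s k - B i s + B s s) := by
      refine Finset.sum_congr rfl fun i _ => ?_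
      have : β i - β s = ∑ k ∈ range s, (len k : ℤ) * (B i k - B s k - B i s + B s s) := by
        simp only [hβ]
        rw [← Finset.sum_sub_distrib]
        exact Finset.sum_congr rfl fun k _ => by ring
      rw [this, Finset.mul_sum]
      exact Finset.sum_congr rfl fun k _ => by ring
    have hT' : ∑ i ∈ range s, ∑ k ∈ range s, (len i : ℤ) * len k * (B i k - B s k - B i s + B s s)
        = -∑ i ∈ range s, ∑ k ∈ range s, (len i : ℤ) * len k * (B i k - B s k - B i s + B s s) := by
      conv_lhs => rw [Finset.sum_comm]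
      rw [← Finset.sum_neg_distrib]
      refine Finset.sum_congr rfl fun i _ => ?_
      rw [← Finset.sum_neg_distrib]
      refine Finset.sum_congr rfl fun k _ => ?_
      have e1 := hB i k
      have e2 := hB s k
      have e3 := hB s i
      have e4 := hB s s
      have e5 : B s s = 0 := by linarith
      rw [e5, e2, e3, e1]; ring
    rw [hT]; linarith
  have hSs : Sg (s + 1) = WW s * β s := by
    have h1 : Sg s = WW s' * β s := by
      have h2 : ∑ i ∈ range s, (len i : ℤ) * (β i - β s) =
          Sg s - (∑ i ∈ range s, (len i : ℤ)) * β s := by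
        simp only [hSg]
        rw [Finset.sum_mul, ← Finset.sum_sub_distrib]
        exact Finset.sum_congr rfl fun i _ => by ring
      rw [hss, hsdef, lnk_sum_len] at h2
      linarith
    have h3 : Sg (s + 1) = Sg s + len s * β s := by
      simp only [hSg]; rw [Finset.sum_range_succ]
    have h4 : (WW s : ℤ) = WW s' + len s := by
      rw [← lnk_sum_len s, Finset.sum_range_succ, hsdef, lnk_sum_len]
    rw [h3, h1, h4]; ring
  have hSj : Sg j = 0 := by
    have := hXS j
    rw [h0, hβj] at this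
    have h := this.symm
    push_cast at h
    rw [mul_zero, sub_zero] at h
    exact_mod_cast h
  have main : ∀ m t, t + m = j → s + 1 ≤ t → Sg t = 0 ∧ β t = 0 := by
    intro m
    induction m with
    | zero =>
      intro t ht _
      have : t = j := by omega
      subst this
      exact ⟨hSj, hβj⟩
    | succ m ih =>
      intro t ht hst
      obtain ⟨h1, _⟩ := ih (t + 1) (by omega) (by omega)
      have h2 : Sg (t + 1) = Sg t + len t * β t := by
        simp only [hSg]; rw [Finset.sum_range_succ]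
      obtain ⟨t', rfl⟩ : ∃ t', t = t' + 1 := ⟨t - 1, by omega⟩
      have h3 : |Sg (t' + 1)| ≤ 4 * WW s' * WW t' := by
        calc |Sg (t' + 1)| ≤ ∑ i ∈ range (t' + 1), |(len i : ℤ) * β i| :=
              Finset.abs_sum_le_sum_abs _ _
          _ ≤ ∑ i ∈ range (t' + 1), (len i : ℤ) * (4 * WW s') := by
              refine Finset.sum_le_sum fun i _ => ?_
              rw [abs_mul, abs_of_nonneg (by positivity : (0 : ℤ) ≤ (len i : ℤ))]
              exact mul_le_mul_of_nonneg_left (hβb i) (by positivity)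
          _ = 4 * WW s' * WW t' := by rw [← Finset.sum_mul, lnk_sum_len]; ring
      have h4 : (WW s' : ℤ) ≤ WW t' := by
        exact_mod_cast lnk_WW_mono (by omega : s' ≤ t')
      have h5 : |Sg (t' + 1)| < len (t' + 1) := by
        refine lt_of_le_of_lt h3 (lt_of_le_of_lt ?_ (lnk_len_gt t'))
        apply mul_le_mul_of_nonneg_right _ (by positivity)
        linarith
      have h6 : (len (t' + 1) : ℤ) * β (t' + 1) = -Sg (t' + 1) := by
        rw [h1] at h2; linarith
      have h7 : β (t' + 1) = 0 := by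
        by_contra hne
        have h8 : 1 ≤ |β (t' + 1)| := Int.one_le_abs hne
        have h9 : |(len (t' + 1) : ℤ) * β (t' + 1)| = |Sg (t' + 1)| := by rw [h6, abs_neg]
        rw [abs_mul, abs_of_nonneg (by positivity : (0 : ℤ) ≤ (len (t' + 1) : ℤ))] at h9
        have h10 : (len (t' + 1) : ℤ) * 1 ≤ len (t' + 1) * |β (t' + 1)| :=
          mul_le_mul_of_nonneg_left h8 (by positivity)
        linarith
      refine ⟨?_, h7⟩
      rw [h7, mul_zero] at h6
      linarith
  intro r hr1 hrj
  obtain ⟨h1, h2⟩ := main (j - r) r (by omega) (by omega)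
  rw [hXS r, h1, h2]
  simp

end Pool.Agent.TP
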