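import Pool.Agent.Lib_helper53.TP.B.AVC
import Pool.Agent.Lib_helper53.TP.B.UKA

namespace Pool.Agent.TP

open Set Complex Finset

theorem om_nondeg {S : Type} [Fintype S] [Nonempty S] {h v : Equiv.Perm S}
    (cyc : ∀ x y : S, ∃ k : ℕ, (h ^ k) x = y) {u : Pr S} (hu : u ∈ ZO h v)
    (H : ∀ w ∈ ZO h v, om h v u w = 0) : u ∈ BO h v := by
  classical
  have h01 : ((fun _ => 0, fun _ => 1) : Pr S) ∈ ZO h v := by
    intro s
    simp
  have h10 : ((fun _ => 1, fun _ => 0) : Pr S) ∈ ZO h v := by
    intro s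
    simp
  have s1 : ∑ s, u.1 s = 0 := by
    have := H _ h01
    unfold om at this
    simpa using this
  have s2 : ∑ s, u.2 s = 0 := by
    have := H _ h10
    unfold om at this
    simpa using this
  obtain ⟨A, hA⟩ := isA_exists (v := v) cyc s1
  have hc : ∀ x y, A x = A y := by
    intro x y
    have hκ : ∑ s, ((if s = x then (1 : ℝ) else 0) - (if s = y then (1 : ℝ) else 0)) = 0 := by
      simp
    obtain ⟨U, hU, hU2, -⟩ := isU_exists (v := v) cyc hκ
    have h1 := om_isU hU hA
    rw [H U hU2] at h1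
    simp only [sub_mul, ite_mul, one_mul, zero_mul, Finset.sum_sub_distrib, Finset.sum_ite_eq',
      Finset.mem_univ, if_true] at h1
    linarith
  obtain ⟨x0⟩ := ‹Nonempty S›
  have hr : ∀ y, A y = A x0 := fun y => hc y x0
  have hsum : ∑ s, A s = 0 := by
    obtain ⟨g, g1, g2⟩ := hA
    have e2 : ∑ s, g (v s) = ∑ s, g s := Equiv.sum_comp v g
    rw [Finset.sum_congr rfl fun s _ => g2 s, Finset.sum_sub_distrib, Finset.sum_add_distrib, e2,
      s2]
    ring
  have h0 : A x0 = 0 := by
    rw [Finset.sum_congr rfl fun s _ => hr s, Finset.sum_const, nsmul_eq_mul] at hsum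
    rcases mul_eq_zero.1 hsum with h2 | h2
    · exfalso
      have h3 : (Finset.univ : Finset S).card = 0 := by exact_mod_cast h2
      rw [Finset.card_eq_zero] at h3
      have hx := Finset.mem_univ x0
      rw [h3] at hx
      simp at hx
    · exact h2
  have h4 := isA_eq_const hu hA 0 (fun y => by rw [hr y, h0])
  simpa using h4

end Pool.Agent.TP
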