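import Pool.Agent.Lib_helper53.TP.WDefs
import Pool.Agent.Lib_helper53.TP.B.OMG

namespace Pool.Agent.TP

open Set Complex Finset

/-- The intersection form as a bilinear map. -/
noncomputable def omL {S : Type} [Fintype S] (h v : Equiv.Perm S) :
    ↥(ZO h v) →ₗ[ℝ] ↥(ZO h v) →ₗ[ℝ] ℝ :=
  LinearMap.mk₂ ℝ (fun x y => om h v x.1 y.1)
    (by intro x y z; simp only [om, ← Finset.sum_add_distrib]
        refine Finset.sum_congr rfl fun s _ => ?_
        simp only [Submodule.coe_add, Prod.fst_add, Prod.snd_add, Pi.add_apply]; ring)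
    (by intro r x y; simp only [om, smul_eq_mul, Finset.mul_sum]
        refine Finset.sum_congr rfl fun s _ => ?_
        simp only [Submodule.coe_smul, Prod.smul_fst, Prod.smul_snd, Pi.smul_apply, smul_eq_mul]
        ring)
    (by intro x y z; simp only [om, ← Finset.sum_add_distrib]
        refine Finset.sum_congr rfl fun s _ => ?_
        simp only [Submodule.coe_add, Prod.fst_add, Prod.snd_add, Pi.add_apply]; ring)
    (by intro r x y; simp only [om, smul_eq_mul, Finset.mul_sum]
        refine Finset.sum_congr rfl fun s _ => ?_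
        simp only [Submodule.coe_smul, Prod.smul_fst, Prod.smul_snd, Pi.smul_apply, smul_eq_mul]
        ring)

theorem omL_apply {S : Type} [Fintype S] (h v : Equiv.Perm S) (x y : ↥(ZO h v)) :
    omL h v x y = om h v x.1 y.1 := rfl

/-- QOM: the intersection form on the quotient. -/
theorem om_quot {S : Type} [Fintype S] (h v : Equiv.Perm S) :
    ∃ ω : (↥(ZO h v) ⧸ (BO h v).submoduleOf (ZO h v)) →ₗ[ℝ]
      (↥(ZO h v) ⧸ (BO h v).submoduleOf (ZO h v)) →ₗ[ℝ] ℝ,
      ∀ x y : ↥(ZO h v), ω (Submodule.Quotient.mk x) (Submodule.Quotient.mk y) =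
        om h v x.1 y.1 := by
  set N := (BO h v).submoduleOf (ZO h v) with hN
  have h1 : ∀ x : ↥(ZO h v), N ≤ LinearMap.ker (omL h v x) := by
    intro x y hy
    rw [LinearMap.mem_ker, omL_apply]
    exact om_bo x.2 hy
  let L1 : ↥(ZO h v) →ₗ[ℝ] (↥(ZO h v) ⧸ N) →ₗ[ℝ] ℝ :=
    { toFun := fun x => N.liftQ (omL h v x) (h1 x)
      map_add' := by
        intro x y
        refine Submodule.linearMap_qext _ (LinearMap.ext fun z => ?_)
        simp
      map_smul' := by
        intro r x
        refine Submodule.linearMap_qext _ (LinearMap.ext fun z => ?_)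
        simp }
  have h2 : N ≤ LinearMap.ker L1 := by
    intro x hx
    rw [LinearMap.mem_ker]
    refine Submodule.linearMap_qext _ (LinearMap.ext fun z => ?_)
    change om h v x.1 z.1 = 0
    have h3 : om h v z.1 x.1 = 0 := om_bo z.2 (show x.1 ∈ BO h v from hx)
    rw [om_anti x.2 z.2, h3, neg_zero]
  exact ⟨N.liftQ L1 h2, fun x y => rfl⟩

end Pool.Agent.TP
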