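import Pool.Agent.Lib_helper53.TP.B.COM
import Pool.Agent.Lib_helper53.TP.B.LIM
import Pool.Agent.Lib_helper53.TP.B.OMG
import Pool.Agent.Lib_helper53.TP.B.POS
import Pool.Agent.Lib_helper53.TP.B.QOM
import Pool.Agent.Lib_helper53.TP.B.REC

/-!
# NIV: invariance of a Hodge-Teichmueller plane under the vertical multitwist
-/

namespace Pool.Agent.TP

open Set Complex Finset

/-- Recutting along the columns. -/
theorem niv_move {S : Type} (h v : Equiv.Perm S) {A B : ℂ} (hAB : cross A B ≠ 0) {a b : S → ℂ}
    (H : HolO h v A B a b) : HolO (h * v) v (A + B) B (fun s => b s + a (v s)) b := by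
  have h1 := com_swap H
  have hBA : cross B A ≠ 0 := by
    intro h0
    apply hAB
    simp only [cross] at h0 ⊢
    linarith
  have h2 := com_swap (hol_rec v h hBA h1)
  rwa [add_comm B A] at h2

theorem niv_moves {S : Type} (h v : Equiv.Perm S) {A B : ℂ} (hAB : cross A B ≠ 0) {a b : S → ℂ}
    (H : HolO h v A B a b) (m : ℕ) : HolO (h * v ^ m) v (A + m * B) B
      (fun s => ∑ k ∈ range m, b ((v ^ k) s) + a ((v ^ m) s)) b := by
  induction m with
  | zero => simpa using H
  | succ m ih =>
    have hc : cross (A + m * B) B ≠ 0 := by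
      intro h0
      apply hAB
      rw [← h0]
      simp [cross]; ring
    have h1 := niv_move _ _ hc ih
    have e1 : h * v ^ m * v = h * v ^ (m + 1) := by rw [mul_assoc, pow_succ]
    have e2 : A + m * B + B = A + (m + 1 : ℕ) * B := by push_cast; ring
    rw [e1, e2] at h1
    convert h1 using 1
    funext s
    rw [Finset.sum_range_succ']
    simp only [pow_zero, Equiv.Perm.coe_one, id, ← Equiv.Perm.mul_apply, ← pow_succ]
    ring

theorem niv_pow_apply {S : Type} (v : Equiv.Perm S) (k : ℕ) (s : S) :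
    (v ^ (k * orderOf v)) s = s := by
  rw [mul_comm, pow_mul, pow_orderOf_eq_one, one_pow]; rfl

theorem niv_sum {S : Type} (v : Equiv.Perm S) (k : ℕ) (f : S → ℂ) (s : S) :
    ∑ i ∈ range (k * orderOf v), f ((v ^ i) s) = k * ∑ i ∈ range (orderOf v), f ((v ^ i) s) := by
  induction k with
  | zero => simp
  | succ k ih =>
    rw [Nat.succ_mul, Finset.sum_range_add, ih]
    have : ∀ i, (v ^ (k * orderOf v + i)) s = (v ^ i) s := by
      intro i
      rw [add_comm, pow_add, Equiv.Perm.mul_apply, niv_pow_apply]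
    simp only [this]
    push_cast; ring

variable {S : Type} [Fintype S]

/-- `twV` on cocycles. -/
noncomputable def nivL (h v : Equiv.Perm S) : ↥(ZO h v) →ₗ[ℝ] ↥(ZO h v) where
  toFun u := ⟨twV v u.1, twV_mem⟩
  map_add' u w := by
    apply Subtype.ext
    refine Prod.ext ?_ ?_
    · funext s
      simp [twV, Finset.sum_add_distrib]
    · simp [twV]
  map_smul' r u := by
    apply Subtype.ext
    refine Prod.ext ?_ ?_
    · funext s
      simp [twV, Finset.mul_sum]
    · simp [twV]

theorem niv_main {h v : Equiv.Perm S} {P : Submodule ℝ (Pr S)}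
    (H : HTO h v P) : ∀ u ∈ P, twV v u ∈ P := by
  classical
  set K := (BO h v).submoduleOf (ZO h v) with hK
  obtain ⟨ω, hω⟩ := om_quot h v
  have hker : K ≤ K.comap (nivL h v) := by
    intro x hx
    have hx' : x.1 ∈ BO h v := hx
    have : nivL h v x = 0 := Subtype.ext (twV_bo hx')
    rw [Submodule.mem_comap, this]
    exact K.zero_mem
  set N : (↥(ZO h v) ⧸ K) →ₗ[ℝ] (↥(ZO h v) ⧸ K) := K.mapQ K (nivL h v) hker with hN
  have hNmk : ∀ x : ↥(ZO h v), N (Submodule.Quotient.mk x) =
      Submodule.Quotient.mk (nivL h v x) := fun x => rfl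
  have mk0 : ∀ x : ↥(ZO h v), (Submodule.Quotient.mk x : ↥(ZO h v) ⧸ K) = 0 ↔ x.1 ∈ BO h v :=
    fun x => (Submodule.Quotient.mk_eq_zero K).trans Iff.rfl
  have anti : ∀ x y, ω x y = -ω y x := by
    intro x y
    induction x using Submodule.Quotient.induction_on with | _ x => ?_
    induction y using Submodule.Quotient.induction_on with | _ y => ?_
    rw [hω, hω]
    exact om_anti x.2 y.2
  have hN2 : ∀ x, N (N x) = 0 := by
    intro x
    induction x using Submodule.Quotient.induction_on with | _ x => ?_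
    rw [hNmk, hNmk, mk0]
    have : (nivL h v (nivL h v x)).1 = 0 := by
      refine Prod.ext ?_ ?_
      · funext s
        simp [nivL, twV]
      · simp [nivL, twV]
    rw [this]
    exact (BO h v).zero_mem
  have hNω : ∀ x y, ω (N x) y = -ω x (N y) := by
    intro x y
    induction x using Submodule.Quotient.induction_on with | _ x => ?_
    induction y using Submodule.Quotient.induction_on with | _ y => ?_
    rw [hNmk, hNmk, hω, hω]
    have := om_twV_symm (u := x.1) y.2
    change om h v (twV v x.1) y.1 = -om h v x.1 (twV v y.1)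
    rw [this, neg_neg]
  obtain ⟨u0, w0, e0⟩ := H.two
  have hu0 : u0 ∈ P := by
    rw [e0]; exact Submodule.mem_sup_left (Submodule.subset_span (by simp))
  have hw0 : w0 ∈ P := by
    rw [e0]; exact Submodule.mem_sup_left (Submodule.subset_span (by simp))
  set p : ↥(ZO h v) ⧸ K := Submodule.Quotient.mk ⟨u0, H.le_zo hu0⟩ with hp
  set q : ↥(ZO h v) ⧸ K := Submodule.Quotient.mk ⟨w0, H.le_zo hw0⟩ with hq
  have hmem : ∀ x : ↥(ZO h v), (Submodule.Quotient.mk x : ↥(ZO h v) ⧸ K) ∈
      Submodule.span ℝ {p, q} ↔ x.1 ∈ P := by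
    intro x
    constructor
    · intro hx
      obtain ⟨r, t, hrt⟩ := Submodule.mem_span_pair.1 hx
      have : (Submodule.Quotient.mk (x - r • (⟨u0, H.le_zo hu0⟩ : ↥(ZO h v)) -
          t • (⟨w0, H.le_zo hw0⟩ : ↥(ZO h v))) : ↥(ZO h v) ⧸ K) = 0 := by
        rw [Submodule.Quotient.mk_sub, Submodule.Quotient.mk_sub, Submodule.Quotient.mk_smul,
          Submodule.Quotient.mk_smul, ← hrt, hp, hq]
        abel
      have h3 := H.bo_le ((mk0 _).1 this)
      have e : x.1 = (x - r • (⟨u0, H.le_zo hu0⟩ : ↥(ZO h v)) -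
          t • (⟨w0, H.le_zo hw0⟩ : ↥(ZO h v))).1 + r • u0 + t • w0 := by
        simp only [Submodule.coe_sub, Submodule.coe_smul]
        abel
      rw [e]
      exact P.add_mem (P.add_mem h3 (P.smul_mem _ hu0)) (P.smul_mem _ hw0)
    · intro hx
      rw [e0, Submodule.mem_sup] at hx
      obtain ⟨y, hy, b, hb, hyb⟩ := hx
      obtain ⟨r, t, rfl⟩ := Submodule.mem_span_pair.1 hy
      refine Submodule.mem_span_pair.2 ⟨r, t, ?_⟩
      have : (Submodule.Quotient.mk (x - r • (⟨u0, H.le_zo hu0⟩ : ↥(ZO h v)) -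
          t • (⟨w0, H.le_zo hw0⟩ : ↥(ZO h v))) : ↥(ZO h v) ⧸ K) = 0 := by
        rw [mk0]
        have e : (x - r • (⟨u0, H.le_zo hu0⟩ : ↥(ZO h v)) -
          t • (⟨w0, H.le_zo hw0⟩ : ↥(ZO h v))).1 = b := by
          simp only [Submodule.coe_sub, Submodule.coe_smul, ← hyb]
          abel
        rw [e]; exact hb
      rw [Submodule.Quotient.mk_sub, Submodule.Quotient.mk_sub, Submodule.Quotient.mk_smul,
        Submodule.Quotient.mk_smul, sub_sub, sub_eq_zero] at this
      exact this.symm
  let W : Submodule ℝ ((↥(ZO h v) ⧸ K) × (↥(ZO h v) ⧸ K)) :=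
    { carrier := {x | ∃ (a b : S → ℂ), HolO h v 1 I a b ∧
        ∃ (h1 : ((fun s => (a s).re, fun s => (b s).re) : Pr S) ∈ ZO h v)
          (h2 : ((fun s => (a s).im, fun s => (b s).im) : Pr S) ∈ ZO h v),
          x = (Submodule.Quotient.mk ⟨_, h1⟩, Submodule.Quotient.mk ⟨_, h2⟩)}
      add_mem' := by
        rintro x y ⟨a, b, g, h1, h2, rfl⟩ ⟨a', b', g', h1', h2', rfl⟩
        refine ⟨_, _, com_holo_add g g', ?_, ?_, ?_⟩
        · convert (ZO h v).add_mem h1 h1' using 1
          refine Prod.ext ?_ ?_ <;> funext s <;> simp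
        · convert (ZO h v).add_mem h2 h2' using 1
          refine Prod.ext ?_ ?_ <;> funext s <;> simp
        · refine Prod.ext ?_ ?_
          · rw [Prod.mk_add_mk, ← Submodule.Quotient.mk_add]
            rfl
          · rw [Prod.mk_add_mk, ← Submodule.Quotient.mk_add]
            rfl
      zero_mem' := by
        refine ⟨fun _ => 0, fun _ => 0, ?_, ?_, ?_, ?_⟩
        · have := com_holo_smul 0 (com_holo_one h v 1 I)
          simpa using this
        · convert (ZO h v).zero_mem using 1
          refine Prod.ext ?_ ?_ <;> funext s <;> simp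
        · convert (ZO h v).zero_mem using 1
          refine Prod.ext ?_ ?_ <;> funext s <;> simp
        · refine Prod.ext ?_ ?_
          · exact ((mk0 _).2 (BO h v).zero_mem).symm
          · exact ((mk0 _).2 (BO h v).zero_mem).symm
      smul_mem' := by
        rintro r x ⟨a, b, g, h1, h2, rfl⟩
        have e1 : ((fun s => ((r : ℂ) * a s).re, fun s => ((r : ℂ) * b s).re) : Pr S) =
            r • ((fun s => (a s).re, fun s => (b s).re) : Pr S) := by
          refine Prod.ext ?_ ?_ <;> funext s <;> simp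
        have e2 : ((fun s => ((r : ℂ) * a s).im, fun s => ((r : ℂ) * b s).im) : Pr S) =
            r • ((fun s => (a s).im, fun s => (b s).im) : Pr S) := by
          refine Prod.ext ?_ ?_ <;> funext s <;> simp
        refine ⟨_, _, com_holo_smul (r : ℂ) g, ?_, ?_, ?_⟩
        · rw [e1]; exact (ZO h v).smul_mem r h1
        · rw [e2]; exact (ZO h v).smul_mem r h2
        · refine Prod.ext ?_ ?_
          · change r • Submodule.Quotient.mk _ = _
            rw [← Submodule.Quotient.mk_smul]
            congr 1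
            exact Subtype.ext e1.symm
          · change r • Submodule.Quotient.mk _ = _
            rw [← Submodule.Quotient.mk_smul]
            congr 1
            exact Subtype.ext e2.symm }
  have hW : ∀ x ∈ W, x ≠ 0 → 0 < ω x.1 x.2 := by
    rintro x ⟨a, b, g, h1, h2, rfl⟩ hx
    simp only [hω]
    refine (hol_pos cross_one_I g ?_).2.2
    by_contra hc
    push Not at hc
    obtain ⟨rfl, rfl⟩ := hc
    apply hx
    refine Prod.ext ?_ ?_
    · exact (mk0 _).2 (BO h v).zero_mem
    · exact (mk0 _).2 (BO h v).zero_mem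
  have hk : ∀ k : ℕ, ∃ p1 ∈ Submodule.span ℝ {p, q}, ∃ p2 ∈ Submodule.span ℝ {p, q},
      (p1 + (k : ℝ) • N p1, p2 + (k : ℝ) • N p2) ∈ W ∧ (p1 ≠ 0 ∨ p2 ≠ 0) := by
    intro k
    have hc : 0 < cross (1 - (k * orderOf v : ℕ) * I) I := by
      simp [cross]
    obtain ⟨a, b, g1, g2, g3, g4⟩ := H.hol _ _ hc
    obtain ⟨z1, z2, pos⟩ := hol_pos hc g1 g2
    have g5 := niv_moves h v hc.ne' g1 (k * orderOf v)
    have e1 : h * v ^ (k * orderOf v) = h := by
      rw [mul_comm k, pow_mul, pow_orderOf_eq_one, one_pow, mul_one]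
    rw [e1, sub_add_cancel] at g5
    have e2 : (fun s => ∑ i ∈ range (k * orderOf v), b ((v ^ i) s) + a ((v ^ (k * orderOf v)) s))
        = fun s => a s + k * ∑ i ∈ range (orderOf v), b ((v ^ i) s) := by
      funext s
      rw [niv_sum, niv_pow_apply, add_comm]
    rw [e2] at g5
    refine ⟨Submodule.Quotient.mk ⟨_, z1⟩, (hmem _).2 g3, Submodule.Quotient.mk ⟨_, z2⟩,
      (hmem _).2 g4, ?_, ?_⟩
    · have f1 : ((fun s => (a s + k * ∑ i ∈ range (orderOf v), b ((v ^ i) s)).re,
          fun s => (b s).re) : Pr S) = ((fun s => (a s).re, fun s => (b s).re) : Pr S) +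
          (k : ℝ) • twV v ((fun s => (a s).re, fun s => (b s).re) : Pr S) := by
        refine Prod.ext ?_ ?_
        · funext s
          simp [twV]
        · funext s
          simp [twV]
      have f2 : ((fun s => (a s + k * ∑ i ∈ range (orderOf v), b ((v ^ i) s)).im,
          fun s => (b s).im) : Pr S) = ((fun s => (a s).im, fun s => (b s).im) : Pr S) +
          (k : ℝ) • twV v ((fun s => (a s).im, fun s => (b s).im) : Pr S) := by
        refine Prod.ext ?_ ?_
        · funext s
          simp [twV]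
        · funext s
          simp [twV]
      refine ⟨_, _, g5, ?_, ?_, ?_⟩
      · rw [f1]
        exact (ZO h v).add_mem z1 ((ZO h v).smul_mem _ twV_mem)
      · rw [f2]
        exact (ZO h v).add_mem z2 ((ZO h v).smul_mem _ twV_mem)
      · refine Prod.ext ?_ ?_
        · change Submodule.Quotient.mk _ + (k : ℝ) • N (Submodule.Quotient.mk _) = _
          rw [hNmk, ← Submodule.Quotient.mk_smul, ← Submodule.Quotient.mk_add]
          congr 1
          exact Subtype.ext f1.symm
        · change Submodule.Quotient.mk _ + (k : ℝ) • N (Submodule.Quotient.mk _) = _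
          rw [hNmk, ← Submodule.Quotient.mk_smul, ← Submodule.Quotient.mk_add]
          congr 1
          exact Subtype.ext f2.symm
    · right
      intro h0
      have := (mk0 _).1 h0
      have h3 := om_bo z1 this
      exact pos.ne' h3
  have fin := lim_plane ω anti N hN2 hNω _ p q rfl W hW hk
  intro u hu
  have h1 := fin _ ((hmem ⟨u, H.le_zo hu⟩).2 hu)
  rw [hNmk, hmem] at h1
  exact h1

theorem hto_twV {S : Type} [Fintype S] {h v : Equiv.Perm S} {P : Submodule ℝ (Pr S)}
    (H : HTO h v P) : ∀ u ∈ P, twV v u ∈ P :=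
  niv_main H

end Pool.Agent.TP
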