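import Pool.Agent.Lib_helper53.TP.WDefs
import Pool.Agent.Lib_helper53.TP.B.MFL

/-!
# ROT: rotation by a quarter turn
-/

namespace Pool.Agent.TP

open Set Complex

section
variable {S : Type}

/-- The diagonals. -/
def rotE (S : Type) : Set (S × Fin 6) := {p | p.2 = 2 ∨ p.2 = 3}

/-- The old names of the new darts. -/
def rotF : S × Fin 6 → S × Fin 6
  | (s, 0) => (s, 5)
  | (s, 1) => (s, 0)
  | (s, 2) => (s, 3)
  | (s, 3) => (s, 2)
  | (s, 4) => (s, 1)
  | (s, 5) => (s, 4)

/-- The new names of the old darts. -/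
def rotG : S × Fin 6 → S × Fin 6
  | (s, 0) => (s, 1)
  | (s, 1) => (s, 4)
  | (s, 2) => (s, 3)
  | (s, 3) => (s, 2)
  | (s, 4) => (s, 5)
  | (s, 5) => (s, 0)

/-- The renaming of the darts. -/
def rotEquiv : S × Fin 6 ≃ S × Fin 6 where
  toFun := rotF
  invFun := rotG
  left_inv := by
    rintro ⟨s, k⟩
    fin_cases k <;> rfl
  right_inv := by
    rintro ⟨s, k⟩
    fin_cases k <;> rfl

end

/-- ROT (cites MFL): rotation by a quarter turn. -/
theorem ori_rot {S : Type} [Finite S] [Nonempty S] (h v : Equiv.Perm S) (tr : Tr h v)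
    (tr' : Tr v.symm h) : Conn (ori h v tr) (ori v.symm h tr') := by
  have hE0 : ∀ s : S, ((s, (0 : Fin 6)) ∈ rotE S) = False := fun s => by simp [rotE]
  have hE1 : ∀ s : S, ((s, (1 : Fin 6)) ∈ rotE S) = False := fun s => by simp [rotE]
  have hE2 : ∀ s : S, ((s, (2 : Fin 6)) ∈ rotE S) = True := fun s => by simp [rotE]
  have hE3 : ∀ s : S, ((s, (3 : Fin 6)) ∈ rotE S) = True := fun s => by simp [rotE]
  have hE4 : ∀ s : S, ((s, (4 : Fin 6)) ∈ rotE S) = False := fun s => by simp [rotE]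
  have hE5 : ∀ s : S, ((s, (5 : Fin 6)) ∈ rotE S) = False := fun s => by simp [rotE]
  have hpos0 : 0 < cross I (-1) := by simp [cross]
  have ok0 := vecAB_ok h v tr (A := I) (B := -1) hpos0
  have hconn0 : Conn (ori h v tr)
      ⟨S × Fin 6, inferInstance, inferInstance, rComb h v tr, vecAB I (-1), ok0⟩ := by
    refine Conn.line ?_
    rintro t ⟨ht0, ht1⟩ ⟨s, k⟩
    have hkey : 0 < (1 - t) ^ 2 + t ^ 2 := by nlinarith [sq_nonneg (1 - t), sq_nonneg t]
    fin_cases k <;> simp [rComb, rNext, vecAB, cross] <;> nlinarith [hkey]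
  obtain ⟨c1, v1, ok1, hconn, hopp, hnext, hvec⟩ :=
    multi_flip (inferInstance : Finite (S × Fin 6)) inferInstance (rComb h v tr)
      (vecAB I (-1)) ok0 (rotE S)
      (by
        rintro ⟨s, k⟩ hk
        simp only [rotE, mem_setOf_eq] at hk
        rcases hk with hk | hk <;> subst hk <;> simp [rComb, rOpp, hE2, hE3])
      (by
        rintro ⟨s, k⟩ hk
        simp only [rotE, mem_setOf_eq] at hk
        rcases hk with hk | hk <;> subst hk <;> simp [rComb, rNext, hE0, hE4])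
      (by
        rintro ⟨s, k⟩ hk
        simp only [rotE, mem_setOf_eq] at hk
        rcases hk with hk | hk <;> subst hk <;> simp [rComb, rOpp, rNext, vecAB, cross])
  refine Conn.trans hconn0 (Conn.trans hconn (Conn.symm (Conn.iso ?_)))
  refine ⟨rotEquiv, ?_, ?_, ?_⟩
  · rintro ⟨s, k⟩
    change c1.next (rotF (s, k)) = rotF (rNext (s, k))
    rw [hnext]
    fin_cases k <;>
      simp [mNext, rotF, rNext, rOpp, rComb, hE0, hE1, hE2, hE3, hE4, hE5]
  · rintro ⟨s, k⟩
    change c1.opp (rotF (s, k)) = rotF (rOpp v.symm h (s, k))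
    rw [hopp]
    fin_cases k <;> simp [rotF, rOpp, rComb]
  · rintro ⟨s, k⟩
    change v1 (rotF (s, k)) = vecAB 1 I (s, k)
    rw [hvec]
    fin_cases k <;>
      simp [mVec, rotF, vecAB, rNext, rOpp, rComb, hE0, hE1, hE2, hE3, hE4, hE5]
    all_goals ring

end Pool.Agent.TP
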