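import Pool.Agent.Lib_helper53.TP.WDefs
import Pool.Agent.Lib_helper53.TP.B.CMB
import Pool.Agent.Lib_helper53.TP.B.ROT
import Pool.Agent.Lib_helper53.TP.B.RTW

/-!
# ONE: reduction to one row
-/

namespace Pool.Agent.TP

open Set Complex

theorem one_symm_mem {S : Type} [Finite S] (h : Equiv.Perm S) {T : Set S}
    (hT : ∀ s ∈ T, h s ∈ T) : ∀ s ∈ T, h.symm s ∈ T :=
  fun _ hs => Equiv.Perm.perm_symm_mapsTo_of_mapsTo h hT hs

theorem one_tr {S : Type} [Finite S] {p q : Equiv.Perm S × Equiv.Perm S} (hm : OMove p q)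
    (tr : Tr p.1 p.2) : Tr q.1 q.2 := by
  intro T hT h1 h2
  rcases hm with ⟨e, R, hR, hR1, hR2⟩ | ⟨e, C, hC, hC1, hC2⟩
  · rw [e] at h1
    have h1' := one_symm_mem p.1 h1
    refine tr T hT h1 fun s hs => ?_
    by_cases hsR : s ∈ R
    · have hs' : p.1.symm s ∈ R := by rw [← hR, Equiv.apply_symm_apply]; exact hsR
      have h3 := h2 _ (h1' s hs)
      rw [hR1 _ hs', Equiv.apply_symm_apply] at h3
      exact h3
    · rw [← hR2 s hsR]; exact h2 s hs
  · rw [e] at h2
    refine tr T hT (fun s hs => ?_) h2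
    by_cases hsC : s ∈ C
    · have hs' : p.2 s ∈ C := (hC s).2 hsC
      have h3 := h1 _ (h2 s hs)
      rw [hC1 _ hs', Equiv.symm_apply_apply] at h3
      exact h3
    · rw [← hC2 s hsC]; exact h1 s hs

/-- Row twist of origamis. -/
theorem one_row_move {S : Type} [Finite S] [Nonempty S] (h v v' : Equiv.Perm S) (tr : Tr h v)
    (tr' : Tr h v') (R : Set S) (hR : ∀ s, h s ∈ R ↔ s ∈ R) (h1 : ∀ s ∈ R, v' s = v (h s))
    (h2 : ∀ s ∉ R, v' s = v s) : Conn (ori h v tr) (ori h v' tr') := by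
  classical
  let y : Rows S := ⟨h, v', tr', fun _ => 1, fun s => if s ∈ R then 1 else 0,
    fun _ => one_pos, fun s => by
      by_cases hs : s ∈ R
      · simp [hs, hR]
      · simp [hs, hR]⟩
  have e1 : Conn (unitRows h v tr).ps y.ps := by
    refine row_twist (unitRows h v tr) y R hR rfl h1 h2 rfl ?_ ?_
    · intro s hs
      simp [y, unitRows, hs]
    · intro s hs
      simp [y, unitRows, hs]
  have e2 : Conn y.ps (unitRows h v' tr').ps := Rows.conn_line _ _ rfl rfl
  exact ((conn_unitRows h v tr).symm.trans e1).trans (e2.trans (conn_unitRows h v' tr'))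

theorem one_tr_rot {S : Type} [Finite S] {h v : Equiv.Perm S} (tr : Tr h v) : Tr v.symm h := by
  intro T hT h1 h2
  exact tr T hT h2 (one_symm_mem v.symm h1)

theorem one_move {S : Type} [Finite S] [Nonempty S] {p q : Equiv.Perm S × Equiv.Perm S}
    (hm : OMove p q) (tr : Tr p.1 p.2) (tr' : Tr q.1 q.2) :
    Conn (ori p.1 p.2 tr) (ori q.1 q.2 tr') := by
  obtain ⟨h, v⟩ := p
  obtain ⟨h', v'⟩ := q
  rcases hm with ⟨e, R, hR, hR1, hR2⟩ | ⟨e, C, hC, hC1, hC2⟩
  · simp only at e hR hR1 hR2 tr tr' ⊢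
    subst e
    exact one_row_move h' v v' tr tr' R hR hR1 hR2
  · simp only at e hC hC1 hC2 tr tr' ⊢
    subst e
    have e1 := ori_rot h v' tr (one_tr_rot tr)
    have e2 := ori_rot h' v' tr' (one_tr_rot tr')
    refine (e1.trans ?_).trans e2.symm
    refine one_row_move v'.symm h h' _ _ C ?_ hC1 hC2
    intro s
    rw [← hC, Equiv.apply_symm_apply]

/-- ONE (cites RTW, ROT, CMB). -/
theorem one_row {S : Type} [Finite S] [Nonempty S] (h v : Equiv.Perm S) (tr : Tr h v) :
    ∃ (h' v' : Equiv.Perm S) (tr' : Tr h' v'), (∀ x y : S, ∃ k : ℕ, (h' ^ k) x = y) ∧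
      Conn (ori h v tr) (ori h' v' tr') := by
  obtain ⟨h', v', cyc, hrt⟩ := one_row_moves h v tr
  have key : ∃ tr' : Tr h' v', Conn (ori h v tr) (ori h' v' tr') := by
    have : ∀ q : Equiv.Perm S × Equiv.Perm S, Relation.ReflTransGen OMove (h, v) q →
        ∃ tr' : Tr q.1 q.2, Conn (ori h v tr) (ori q.1 q.2 tr') := by
      intro q hq
      induction hq with
      | refl => exact ⟨tr, Conn.refl _⟩
      | tail _ hm ih =>
        obtain ⟨tr1, hc⟩ := ih
        have tr2 := one_tr hm tr1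
        exact ⟨tr2, hc.trans (one_move hm tr1 tr2)⟩
    exact this (h', v') hrt
  obtain ⟨tr', hc⟩ := key
  exact ⟨h', v', tr', cyc, hc⟩

end Pool.Agent.TP
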