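import Pool.Agent.Lib_helper53.TP.B.GEN

/-!
# PTA: the tautological plane and pairs
-/

namespace Pool.Agent.TP

open Set Complex Finset

section
variable {S : Type} {h v : Equiv.Perm S} {tr : Tr h v} {t : ℝ}

theorem pta_re (ok : IsTS (rComb h v tr) (fun d => (t : ℂ) * vecAB 1 I d)) :
    genP (reZ ok) = t • ((fun _ => 1, fun _ => 0) : Pr S) := by
  refine Prod.ext ?_ ?_
  · funext s
    change ((t : ℂ) * 1).re = t * 1
    simp
  · funext s
    change -((t : ℂ) * (-I)).re = t * 0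
    simp

theorem pta_im (ok : IsTS (rComb h v tr) (fun d => (t : ℂ) * vecAB 1 I d)) :
    genP (imZ ok) = t • ((fun _ => 0, fun _ => 1) : Pr S) := by
  refine Prod.ext ?_ ?_
  · funext s
    change ((t : ℂ) * 1).im = t * 0
    simp
  · funext s
    change -((t : ℂ) * (-I)).im = t * 1
    simp

theorem pta_mem (ht : t ≠ 0) (ok : IsTS (rComb h v tr) (fun d => (t : ℂ) * vecAB 1 I d))
    (u : Z1 ℝ (rComb h v tr)) : (B1 ℝ (rComb h v tr)).mkQ u ∈ taut ok ↔ genP u ∈ tautO h v := by
  unfold taut tautO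
  rw [Submodule.mem_span_pair, Submodule.mem_sup]
  constructor
  · rintro ⟨a, b, hab⟩
    have h1 : u - a • reZ ok - b • imZ ok ∈ B1 ℝ (rComb h v tr) := by
      rw [← Submodule.Quotient.mk_eq_zero, Submodule.Quotient.mk_sub, Submodule.Quotient.mk_sub,
        Submodule.Quotient.mk_smul, Submodule.Quotient.mk_smul]
      simp only [Submodule.mkQ_apply] at hab
      rw [← hab]
      abel
    rw [gen_b1, gen_sub, gen_sub, gen_smul, gen_smul, pta_re, pta_im] at h1
    refine ⟨_, Submodule.mem_span_pair.2 ⟨a * t, b * t, rfl⟩, _, h1, ?_⟩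
    module
  · rintro ⟨y, hy, w, hw, e⟩
    obtain ⟨a, b, rfl⟩ := Submodule.mem_span_pair.1 hy
    refine ⟨a / t, b / t, ?_⟩
    have h1 : u - (a / t) • reZ ok - (b / t) • imZ ok ∈ B1 ℝ (rComb h v tr) := by
      rw [gen_b1, gen_sub, gen_sub, gen_smul, gen_smul, pta_re, pta_im, smul_smul, smul_smul,
        div_mul_cancel₀ _ ht, div_mul_cancel₀ _ ht, ← e]
      convert hw using 1
      module
    rw [← Submodule.Quotient.mk_eq_zero, Submodule.Quotient.mk_sub, Submodule.Quotient.mk_sub,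
      Submodule.Quotient.mk_smul, Submodule.Quotient.mk_smul] at h1
    simp only [Submodule.mkQ_apply]
    rw [sub_sub, sub_eq_zero] at h1
    exact h1.symm

end

theorem taut_of_tautO {S : Type} [Finite S] {h v : Equiv.Perm S} (tr : Tr h v) {t : ℝ}
    (ht : 0 < t) (ok : IsTS (rComb h v tr) (fun d => (t : ℂ) * vecAB 1 I d))
    (P : Submodule ℝ (H1 ℝ (rComb h v tr))) (hP : PO P = tautO h v) : P = taut ok := by
  ext x
  obtain ⟨u, rfl⟩ := Submodule.mkQ_surjective _ x
  rw [pta_mem ht.ne' ok, ← hP, gen_po]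

end Pool.Agent.TP
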