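import Pool.Agent.Lib_helper53.TP.B.REC

/-! # TP, block TRI -/

namespace Pool.Agent.TP

open Set Complex Topology

theorem tri_mem (p q : ℂ) {x y : ℝ} (hx : 0 ≤ x) (hy : 0 ≤ y) (hxy : x + y ≤ 1) :
    (x : ℂ) * p + (y : ℂ) * q ∈ convexHull ℝ ({0, p, q} : Set ℂ) := by
  have h0 : (0 : ℂ) ∈ convexHull ℝ ({0, p, q} : Set ℂ) := subset_convexHull ℝ _ (by simp)
  have hp : p ∈ convexHull ℝ ({0, p, q} : Set ℂ) := subset_convexHull ℝ _ (by simp)
  have hq : q ∈ convexHull ℝ ({0, p, q} : Set ℂ) := subset_convexHull ℝ _ (by simp)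
  have h := (convex_convexHull ℝ ({0, p, q} : Set ℂ)).sum_mem (t := Finset.univ)
    (w := ![1 - x - y, x, y]) (z := ![0, p, q])
    (by
      intro i _
      fin_cases i
      · show (0 : ℝ) ≤ 1 - x - y
        linarith
      · exact hx
      · exact hy)
    (by
      simp only [Fin.sum_univ_three, Matrix.cons_val_zero, Matrix.cons_val_one, Matrix.cons_val]
      ring)
    (by
      intro i _
      fin_cases i
      · exact h0
      · exact hp
      · exact hq)
  simp only [Fin.sum_univ_three, Matrix.cons_val_zero, Matrix.cons_val_one, Matrix.cons_val,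
    Complex.real_smul, mul_zero, zero_add] at h
  exact h

theorem tri_seg (p : ℂ) {t : ℝ} (h0 : 0 ≤ t) (h1 : t ≤ 1) : (t : ℂ) * p ∈ segment ℝ 0 p := by
  refine ⟨1 - t, t, by linarith, h0, by ring, ?_⟩
  rw [smul_zero, zero_add, Complex.real_smul]

theorem hol_tri {S : Type} (h v : Equiv.Perm S) (tr : Tr h v) {A B : ℂ} (hAB : 0 < cross A B)
    {u : S × Fin 6 → ℂ} (hu : IsHol (rComb h v tr) (vecAB A B) u) :
    HolO h v A B (fun s => u (s, 0)) (fun s => -u (s, 5)) := by
  obtain ⟨F, h1, h2, h3, h4, h5, h6⟩ := hu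
  have hAB0 : cross A B ≠ 0 := hAB.ne'
  have hE : A + B ≠ 0 := by
    intro h
    apply hAB0
    have : B = -A := by linear_combination h
    rw [this]
    simp [cross]
    ring
  -- the triangles
  have T0 : ∀ s, Tri (rComb h v tr) (vecAB A B) (s, 0) = convexHull ℝ {0, A, A + B} := fun s => rfl
  have T1 : ∀ s, Tri (rComb h v tr) (vecAB A B) (s, 1) = convexHull ℝ {0, B, B + -(A + B)} :=
    fun s => rfl
  have T3 : ∀ s, Tri (rComb h v tr) (vecAB A B) (s, 3) = convexHull ℝ {0, A + B, A + B + -A} :=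
    fun s => rfl
  have T5 : ∀ s, Tri (rComb h v tr) (vecAB A B) (s, 5) = convexHull ℝ {0, -B, -B + (A + B)} :=
    fun s => rfl
  -- the relations between the primitives
  have n0 : ∀ s, ∀ z ∈ Tri (rComb h v tr) (vecAB A B) (s, 0),
      F (s, 1) (z - A) = F (s, 0) z - u (s, 0) := fun s => h5 (s, 0)
  have n1 : ∀ s, ∀ z ∈ Tri (rComb h v tr) (vecAB A B) (s, 1),
      F (s, 2) (z - B) = F (s, 1) z - u (s, 1) := fun s => h5 (s, 1)
  have n3 : ∀ s, ∀ z ∈ Tri (rComb h v tr) (vecAB A B) (s, 3),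
      F (s, 4) (z - (A + B)) = F (s, 3) z - u (s, 3) := fun s => h5 (s, 3)
  have n4 : ∀ s, ∀ z ∈ Tri (rComb h v tr) (vecAB A B) (s, 4),
      F (s, 5) (z - (-A)) = F (s, 4) z - u (s, 4) := fun s => h5 (s, 4)
  have n5 : ∀ s, ∀ z ∈ Tri (rComb h v tr) (vecAB A B) (s, 5),
      F (s, 3) (z - (-B)) = F (s, 5) z - u (s, 5) := fun s => h5 (s, 5)
  have o1 : ∀ s, ∀ z ∈ segment ℝ 0 B, F (h s, 5) (z - B) = F (s, 1) z - u (s, 1) :=
    fun s => h6 (s, 1)
  have o2 : ∀ s, ∀ z ∈ segment ℝ 0 (-(A + B)), F (s, 3) (z - (-(A + B))) = F (s, 2) z - u (s, 2) :=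
    fun s => h6 (s, 2)
  have o4 : ∀ s, ∀ z ∈ segment ℝ 0 (-A), F (v s, 0) (z - (-A)) = F (s, 4) z - u (s, 4) :=
    fun s => h6 (s, 4)
  -- periods
  have uopp : ∀ s, u (h s, 5) = - u (s, 1) := by
    intro s
    have e := o1 s 0 (left_mem_segment ℝ _ _)
    rw [zero_sub, h3 (s, 1), zero_sub] at e
    have e2 : F (h s, 5) (-B) = u (h s, 5) := h4 (h s, 5)
    rw [← e2, e]
  have mem0 : ∀ (s : S) (x y : ℝ), 0 ≤ y → y ≤ x → x ≤ 1 →
      (x : ℂ) * A + (y : ℂ) * B ∈ Tri (rComb h v tr) (vecAB A B) (s, 0) := by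
    intro s x y hy hyx hx
    rw [T0]
    have e : (x : ℂ) * A + (y : ℂ) * B = ((x - y : ℝ) : ℂ) * A + (y : ℂ) * (A + B) := by
      push_cast
      ring
    rw [e]
    exact tri_mem _ _ (by linarith) hy (by linarith)
  have mem3 : ∀ (s : S) (x y : ℝ), 0 ≤ x → x ≤ y → y ≤ 1 →
      (x : ℂ) * A + (y : ℂ) * B ∈ Tri (rComb h v tr) (vecAB A B) (s, 3) := by
    intro s x y hy hyx hx
    rw [T3]
    have e : (x : ℂ) * A + (y : ℂ) * B = (x : ℂ) * (A + B) + ((y - x : ℝ) : ℂ) * (A + B + -A) := by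
      push_cast
      ring
    rw [e]
    exact tri_mem _ _ hy (by linarith) (by linarith)
  have mem1 : ∀ (s : S) (t : ℝ), 0 ≤ t → t ≤ 1 →
      (t : ℂ) * (A + B) - A ∈ Tri (rComb h v tr) (vecAB A B) (s, 1) := by
    intro s t ht0 ht1
    rw [T1]
    have e : (t : ℂ) * (A + B) - A = (t : ℂ) * B + ((1 - t : ℝ) : ℂ) * (B + -(A + B)) := by
      push_cast
      ring
    rw [e]
    exact tri_mem _ _ ht0 (by linarith) (by linarith)
  have mem5 : ∀ (s : S) (t : ℝ), 0 ≤ t → t ≤ 1 →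
      ((t - 1 : ℝ) : ℂ) * B ∈ Tri (rComb h v tr) (vecAB A B) (s, 5) := by
    intro s t ht0 ht1
    rw [T5]
    have e : ((t - 1 : ℝ) : ℂ) * B = ((1 - t : ℝ) : ℂ) * (-B) + ((0 : ℝ) : ℂ) * (-B + (A + B)) := by
      push_cast
      ring
    rw [e]
    exact tri_mem _ _ (by linarith) le_rfl (by linarith)
  -- sums of periods
  have usum0 : ∀ s, u (s, 0) + u (s, 1) + u (s, 2) = 0 := by
    intro s
    have m0 : (0 : ℂ) ∈ Tri (rComb h v tr) (vecAB A B) (s, 0) := by
      have := mem0 s 0 0 le_rfl le_rfl (by norm_num)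
      simpa using this
    have m1 : (0 : ℂ) - A ∈ Tri (rComb h v tr) (vecAB A B) (s, 1) := by
      have := mem1 s 0 le_rfl (by norm_num)
      simpa using this
    have e0 := n0 s 0 m0
    have e1 := n1 s _ m1
    have e2 : F (s, 2) (-(A + B)) = u (s, 2) := h4 (s, 2)
    have e3 : (0 : ℂ) - A - B = -(A + B) := by ring
    rw [e3, e2, e0, h3] at e1
    linear_combination e1
  have usum3 : ∀ s, u (s, 3) + u (s, 4) + u (s, 5) = 0 := by
    intro s
    have m0 : (0 : ℂ) ∈ Tri (rComb h v tr) (vecAB A B) (s, 3) := by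
      have := mem3 s 0 0 le_rfl le_rfl (by norm_num)
      simpa using this
    have m1 : (0 : ℂ) - (A + B) ∈ Tri (rComb h v tr) (vecAB A B) (s, 4) := by
      show _ ∈ convexHull ℝ ({0, -A, -A + -B} : Set ℂ)
      apply subset_convexHull ℝ _
      have : (0 : ℂ) - (A + B) = -A + -B := by ring
      rw [this]
      simp
    have e0 := n3 s 0 m0
    have e1 := n4 s _ m1
    have e2 : F (s, 5) (-B) = u (s, 5) := h4 (s, 5)
    have e3 : (0 : ℂ) - (A + B) - (-A) = -B := by ring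
    rw [e3, e2, e0, h3] at e1
    linear_combination e1
  -- agreement on the diagonal
  have diag : ∀ s, ∀ t : ℝ, 0 ≤ t → t ≤ 1 →
      F (s, 0) ((t : ℂ) * (A + B)) = F (s, 3) ((t : ℂ) * (A + B)) := by
    intro s t ht0 ht1
    have m0 : (t : ℂ) * (A + B) ∈ Tri (rComb h v tr) (vecAB A B) (s, 0) := by
      have := mem0 s t t ht0 le_rfl ht1
      have e : (t : ℂ) * (A + B) = (t : ℂ) * A + (t : ℂ) * B := by ring
      rw [e]
      exact this
    have e0 := n0 s _ m0
    have e1 := n1 s _ (mem1 s t ht0 ht1)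
    have e2 := o2 s (((1 - t : ℝ) : ℂ) * (-(A + B))) (tri_seg _ (by linarith) (by linarith))
    have e3 : ((1 - t : ℝ) : ℂ) * (-(A + B)) - (-(A + B)) = (t : ℂ) * (A + B) := by
      push_cast
      ring
    have e4 : (t : ℂ) * (A + B) - A - B = ((1 - t : ℝ) : ℂ) * (-(A + B)) := by
      push_cast
      ring
    rw [e4] at e1
    rw [e3] at e2
    rw [e2, e1, e0]
    linear_combination usum0 s
  -- coordinates
  have hXY : ∀ z, z = recX A B z * A + recY A B z * B := fun z => rec_coord hAB0 z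
  classical
  set G : S → ℂ → ℂ := fun s z => if recY A B z - recX A B z ≤ 0 then F (s, 0) z else F (s, 3) z
    with hG
  have hG1 : ∀ s z, recY A B z - recX A B z ≤ 0 → G s z = F (s, 0) z := by
    intro s z hz
    simp only [hG, if_pos hz]
  have hG2 : ∀ s, ∀ z ∈ para A B, 0 ≤ recY A B z - recX A B z → G s z = F (s, 3) z := by
    intro s z hz hz1
    by_cases hz2 : recY A B z - recX A B z ≤ 0
    · rw [hG1 s z hz2]
      have e1 : recY A B z = recX A B z := by linarith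
      rw [rec_mem_para hAB0] at hz
      have e2 := hXY z
      rw [e1, ← mul_add] at e2
      rw [e2]
      exact diag s _ hz.1 hz.2.1
    · simp only [hG, if_neg hz2]
  have hξ : Continuous fun z => recY A B z - recX A B z := (recY_cont A B).sub (recX_cont A B)
  have sub0 : ∀ s, para A B ∩ {z | recY A B z - recX A B z ≤ 0} ⊆
      Tri (rComb h v tr) (vecAB A B) (s, 0) := by
    rintro s z ⟨hz1, hz2⟩
    rw [rec_mem_para hAB0] at hz1
    have hz3 : recY A B z - recX A B z ≤ 0 := hz2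
    rw [hXY z]
    exact mem0 s _ _ hz1.2.2.1 (by linarith) hz1.2.1
  have sub3 : ∀ s, para A B ∩ {z | 0 ≤ recY A B z - recX A B z} ⊆
      Tri (rComb h v tr) (vecAB A B) (s, 3) := by
    rintro s z ⟨hz1, hz2⟩
    rw [rec_mem_para hAB0] at hz1
    have hz3 : 0 ≤ recY A B z - recX A B z := hz2
    rw [hXY z]
    exact mem3 s _ _ hz1.1 (by linarith) hz1.2.2.2
  have hsub : opara A B ⊆ para A B := by
    rintro z ⟨x, y, g1, g2, g3, g4, rfl⟩
    exact ⟨x, y, g1.le, g2.le, g3.le, g4.le, rfl⟩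
  have hcont : ∀ s, ContinuousOn (G s) (para A B) := by
    intro s
    apply rec_glue (rec_para_closed hAB0) hξ (f := F (s, 0)) (g := F (s, 3))
    · exact (h1 (s, 0)).mono (sub0 s)
    · exact (h1 (s, 3)).mono (sub3 s)
    · intro z _ hz
      exact hG1 s z hz
    · intro z hz1 hz
      exact hG2 s z hz1 hz
  refine ⟨G, hcont, ?_, ?_, ?_, ?_⟩
  · intro s
    apply rec_glue_hol (rec_opara_open hAB0) hξ ((hcont s).mono hsub) 0 (A + B) hE
      (f := F (s, 0)) (g := F (s, 3))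
    · intro z hz
      have e1 : recY A B z = recX A B z := by linarith
      have e2 := hXY z
      rw [e1, ← mul_add] at e2
      rw [sub_zero, e2]
      simp [cross]
      ring
    · apply (h2 (s, 0)).mono
      apply interior_maximal
      · rintro z ⟨hz1, hz2⟩
        have hz3 : recY A B z - recX A B z < 0 := hz2
        exact sub0 s ⟨hsub hz1, hz3.le⟩
      · exact (rec_opara_open hAB0).inter (isOpen_lt hξ continuous_const)
    · apply (h2 (s, 3)).mono
      apply interior_maximal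
      · rintro z ⟨hz1, hz2⟩
        have hz3 : 0 < recY A B z - recX A B z := hz2
        exact sub3 s ⟨hsub hz1, hz3.le⟩
      · exact (rec_opara_open hAB0).inter (isOpen_lt continuous_const hξ)
    · intro z _ hz
      exact hG1 s z hz.le
    · intro z hz1 hz
      exact hG2 s z (hsub hz1) hz.le
  · intro s
    rw [hG1 s 0 (by simp [recX, recY, cross]), h3]
  · intro s t ht0 ht1
    have c1 : (t : ℂ) * B = ((0 : ℝ) : ℂ) * A + (t : ℂ) * B := by
      push_cast
      ring
    have c2 : A + (t : ℂ) * B = ((1 : ℝ) : ℂ) * A + (t : ℂ) * B := by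
      push_cast
      ring
    have m1 : (t : ℂ) * B ∈ para A B := ⟨0, t, le_rfl, by norm_num, ht0, ht1, c1⟩
    rw [hG2 (h s) _ m1 (by rw [c1, recX_apply hAB0, recY_apply hAB0]; linarith)]
    rw [hG1 s _ (by rw [c2, recX_apply hAB0, recY_apply hAB0]; linarith)]
    have m0 : A + (t : ℂ) * B ∈ Tri (rComb h v tr) (vecAB A B) (s, 0) := by
      rw [c2]
      exact mem0 s 1 t ht0 ht1 le_rfl
    have e0 := n0 s _ m0
    have e1 := o1 s ((t : ℂ) * B) (tri_seg _ ht0 ht1)
    have e2 := n5 (h s) _ (mem5 (h s) t ht0 ht1)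
    have e3 : ((t - 1 : ℝ) : ℂ) * B - (-B) = (t : ℂ) * B := by
      push_cast
      ring
    have e4 : (t : ℂ) * B - B = ((t - 1 : ℝ) : ℂ) * B := by
      push_cast
      ring
    have e5 : A + (t : ℂ) * B - A = (t : ℂ) * B := by ring
    rw [e3] at e2
    rw [e4] at e1
    rw [e5] at e0
    rw [e2, e1, e0, uopp s]
    ring
  · intro s t ht0 ht1
    have c1 : (t : ℂ) * A = (t : ℂ) * A + ((0 : ℝ) : ℂ) * B := by
      push_cast
      ring
    have c2 : B + (t : ℂ) * A = (t : ℂ) * A + ((1 : ℝ) : ℂ) * B := by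
      push_cast
      ring
    have m1 : B + (t : ℂ) * A ∈ para A B := ⟨t, 1, ht0, ht1, by norm_num, le_rfl, c2⟩
    rw [hG1 (v s) _ (by rw [c1, recX_apply hAB0, recY_apply hAB0]; linarith)]
    rw [hG2 s _ m1 (by rw [c2, recX_apply hAB0, recY_apply hAB0]; linarith)]
    have m0 : B + (t : ℂ) * A ∈ Tri (rComb h v tr) (vecAB A B) (s, 3) := by
      rw [c2]
      exact mem3 s t 1 ht0 ht1 le_rfl
    have e0 := n3 s _ m0
    have e1 := o4 s (((1 - t : ℝ) : ℂ) * (-A)) (tri_seg _ (by linarith) (by linarith))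
    have e2 : B + (t : ℂ) * A - (A + B) = ((1 - t : ℝ) : ℂ) * (-A) := by
      push_cast
      ring
    have e3 : ((1 - t : ℝ) : ℂ) * (-A) - (-A) = (t : ℂ) * A := by
      push_cast
      ring
    rw [e2] at e0
    rw [e3] at e1
    rw [e1, e0]
    linear_combination (-1 : ℂ) * usum3 s

end Pool.Agent.TP
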