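import Pool.Agent.Lib_helper53.TP.WDefs
import Pool.Agent.Lib_helper53.TP.B.TRI

/-! # Block TRA -/

namespace Pool.Agent.TP

open Set Complex Finset

section
variable {S : Type} {h v : Equiv.Perm S}

/-- real part of a complex cocycle -/
def tra_re {D : Type} {c : Comb D} (u : Z1 ℂ c) : Z1 ℝ c :=
  ⟨fun d => (u.1 d).re, fun d => by
    change (u.1 (c.opp d)).re = -(u.1 d).re
    rw [u.2.1 d, Complex.neg_re], fun d => by
    have := congrArg Complex.re (u.2.2 d)
    simpa using this⟩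

/-- imaginary part of a complex cocycle -/
def tra_im {D : Type} {c : Comb D} (u : Z1 ℂ c) : Z1 ℝ c :=
  ⟨fun d => (u.1 d).im, fun d => by
    change (u.1 (c.opp d)).im = -(u.1 d).im
    rw [u.2.1 d, Complex.neg_im], fun d => by
    have := congrArg Complex.im (u.2.2 d)
    simpa using this⟩

theorem tra_b1_re {D : Type} {c : Comb D} {u : Z1 ℂ c} (hu : u ∈ B1 ℂ c) : tra_re u ∈ B1 ℝ c := by
  obtain ⟨f, h1, h2⟩ := hu
  refine ⟨fun d => (f d).re, fun d => congrArg Complex.re (h1 d), fun d => ?_⟩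
  change (u.1 d).re = _
  rw [h2 d, Complex.sub_re]

theorem tra_b1_im {D : Type} {c : Comb D} {u : Z1 ℂ c} (hu : u ∈ B1 ℂ c) : tra_im u ∈ B1 ℝ c := by
  obtain ⟨f, h1, h2⟩ := hu
  refine ⟨fun d => (f d).im, fun d => congrArg Complex.im (h1 d), fun d => ?_⟩
  change (u.1 d).im = _
  rw [h2 d, Complex.sub_im]

/-- real and imaginary parts of the elements of `P ⊗ ℂ` -/
theorem tra_cplx {D : Type} {c : Comb D} (P : Submodule ℝ (H1 ℝ c)) {x : H1 ℂ c}
    (hx : x ∈ cplx P) : ∀ u : Z1 ℂ c, (B1 ℂ c).mkQ u = x →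
      (B1 ℝ c).mkQ (tra_re u) ∈ P ∧ (B1 ℝ c).mkQ (tra_im u) ∈ P := by
  have hdiff : ∀ u w : Z1 ℂ c, (B1 ℂ c).mkQ u = (B1 ℂ c).mkQ w →
      (B1 ℝ c).mkQ (tra_re u) = (B1 ℝ c).mkQ (tra_re w) ∧
        (B1 ℝ c).mkQ (tra_im u) = (B1 ℝ c).mkQ (tra_im w) := by
    intro u w huw
    have e1 : u - w ∈ B1 ℂ c := by
      rw [← Submodule.Quotient.eq]
      exact huw
    constructor
    · rw [Submodule.mkQ_apply, Submodule.mkQ_apply, Submodule.Quotient.eq]
      have e2 := tra_b1_re e1
      convert e2 using 1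
      apply Subtype.ext
      funext d
      simp [tra_re]
    · rw [Submodule.mkQ_apply, Submodule.mkQ_apply, Submodule.Quotient.eq]
      have e2 := tra_b1_im e1
      convert e2 using 1
      apply Subtype.ext
      funext d
      simp [tra_im]
  unfold cplx at hx
  induction hx using Submodule.span_induction with
  | mem x hx =>
    obtain ⟨w, hw, rfl⟩ := hx
    intro u hu
    obtain ⟨e1, e2⟩ := hdiff u (toC w) hu
    rw [e1, e2]
    constructor
    · have : tra_re (toC w) = w := by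
        apply Subtype.ext
        funext d
        simp [tra_re, toC]
      rw [this]
      exact hw
    · have : tra_im (toC w) = 0 := by
        apply Subtype.ext
        funext d
        simp [tra_im, toC]
      rw [this, map_zero]
      exact P.zero_mem
  | zero =>
    intro u hu
    obtain ⟨e1, e2⟩ := hdiff u 0 (by rw [hu, map_zero])
    rw [e1, e2]
    have h1 : tra_re (0 : Z1 ℂ c) = 0 := by
      apply Subtype.ext
      funext d
      simp [tra_re]
    have h2 : tra_im (0 : Z1 ℂ c) = 0 := by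
      apply Subtype.ext
      funext d
      simp [tra_im]
    rw [h1, h2, map_zero]
    exact ⟨P.zero_mem, P.zero_mem⟩
  | add x y _ _ hx hy =>
    intro u hu
    obtain ⟨a, ha⟩ := Submodule.mkQ_surjective (B1 ℂ c) x
    obtain ⟨b, hb⟩ := Submodule.mkQ_surjective (B1 ℂ c) y
    obtain ⟨a1, a2⟩ := hx a ha
    obtain ⟨b1, b2⟩ := hy b hb
    obtain ⟨e1, e2⟩ := hdiff u (a + b) (by rw [hu, map_add, ha, hb])
    rw [e1, e2]
    have h1 : tra_re (a + b) = tra_re a + tra_re b := by
      apply Subtype.ext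
      funext d
      simp [tra_re]
    have h2 : tra_im (a + b) = tra_im a + tra_im b := by
      apply Subtype.ext
      funext d
      simp [tra_im]
    rw [h1, h2, map_add, map_add]
    exact ⟨P.add_mem a1 b1, P.add_mem a2 b2⟩
  | smul r x _ hx =>
    intro u hu
    obtain ⟨a, ha⟩ := Submodule.mkQ_surjective (B1 ℂ c) x
    obtain ⟨a1, a2⟩ := hx a ha
    obtain ⟨e1, e2⟩ := hdiff u (r • a) (by rw [hu, map_smul, ha])
    rw [e1, e2]
    have h1 : tra_re (r • a) = r.re • tra_re a - r.im • tra_im a := by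
      apply Subtype.ext
      funext d
      simp [tra_re, tra_im]
    have h2 : tra_im (r • a) = r.re • tra_im a + r.im • tra_re a := by
      apply Subtype.ext
      funext d
      simp [tra_re, tra_im]
    rw [h1, h2, map_sub, map_add, map_smul, map_smul, map_smul, map_smul]
    exact ⟨P.sub_mem (P.smul_mem _ a1) (P.smul_mem _ a2),
      P.add_mem (P.smul_mem _ a2) (P.smul_mem _ a1)⟩

/-- the values of a cocycle on the darts -/
theorem tra_vals {𝕜 : Type} [Field 𝕜] {tr : Tr h v} (w : Z1 𝕜 (rComb h v tr)) (s : S) :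
    w.1 (s, 1) = -w.1 (h s, 5) ∧ w.1 (s, 4) = -w.1 (v s, 0) ∧
    w.1 (s, 2) = -w.1 (s, 0) + w.1 (h s, 5) ∧ w.1 (s, 3) = w.1 (v s, 0) - w.1 (s, 5) ∧
    w.1 (s, 3) = -w.1 (s, 2) := by
  have h1 : w.1 (h s, 5) = -w.1 (s, 1) := w.2.1 (s, 1)
  have h4 : w.1 (v s, 0) = -w.1 (s, 4) := w.2.1 (s, 4)
  have h2 : w.1 (s, 3) = -w.1 (s, 2) := w.2.1 (s, 2)
  have e0 : w.1 (s, 0) + w.1 (s, 1) + w.1 (s, 2) = 0 := w.2.2 (s, 0)
  have e3 : w.1 (s, 3) + w.1 (s, 4) + w.1 (s, 5) = 0 := w.2.2 (s, 3)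
  refine ⟨?_, ?_, ?_, ?_, h2⟩
  · rw [h1, neg_neg]
  · rw [h4, neg_neg]
  · linear_combination e0 - h1
  · linear_combination e3 - h4

/-- the pair of a real cocycle -/
def tra_pair {tr : Tr h v} (w : Z1 ℝ (rComb h v tr)) : Pr S :=
  (fun s => w.1 (s, 0), fun s => -w.1 (s, 5))

theorem tra_pair_zo {tr : Tr h v} (w : Z1 ℝ (rComb h v tr)) : tra_pair w ∈ ZO h v := by
  intro s
  obtain ⟨e1, e2, e3, e4, e5⟩ := tra_vals w s
  simp only [tra_pair]
  linear_combination (1 : ℝ) * e3 + e4 - e5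

theorem tra_pair_bo {tr : Tr h v} {w : Z1 ℝ (rComb h v tr)} (hw : w ∈ B1 ℝ (rComb h v tr)) :
    tra_pair w ∈ BO h v := by
  obtain ⟨f, h1, h2⟩ := hw
  -- f (opp d) = f (next d)
  have a0 : ∀ s, f (v s, 0) = f (s, 5) := fun s => h1 (s, 4)
  have a1 : ∀ s, f (h s, 5) = f (s, 2) := fun s => h1 (s, 1)
  have a2 : ∀ s, f (s, 3) = f (s, 0) := fun s => h1 (s, 2)
  have a3 : ∀ s, f (s, 2) = f (s, 4) := fun s => h1 (s, 3)
  have a4 : ∀ s, f (v.symm s, 4) = f (s, 1) := fun s => h1 (s, 0)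
  have a5 : ∀ s, f (h.symm s, 1) = f (s, 3) := fun s => h1 (s, 5)
  have a5' : ∀ s, f (s, 1) = f (h s, 0) := by
    intro s
    have := a5 (h s)
    rw [Equiv.symm_apply_apply, a2] at this
    exact this
  have a4' : ∀ s, f (s, 4) = f (h (v s), 0) := by
    intro s
    have := a4 (v s)
    rw [Equiv.symm_apply_apply, a5'] at this
    exact this
  refine ⟨fun s => f (s, 0), fun s => ?_, fun s => ?_, fun s => ?_⟩
  · change f (v (h s), 0) = f (h (v s), 0)
    rw [a0, a1, a3, a4']
  · change w.1 (s, 0) = f (h s, 0) - f (s, 0)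
    rw [h2 (s, 0), ← a5']
    rfl
  · change -w.1 (s, 5) = f (v s, 0) - f (s, 0)
    rw [h2 (s, 5), a0, ← a2]
    change -(f (s, 3) - f (s, 5)) = _
    ring

/-- coboundaries come from coboundaries -/
theorem tra_bo {tr : Tr h v} {u : Pr S} (hu : u ∈ BO h v) :
    ∃ w : Z1 ℝ (rComb h v tr), w ∈ B1 ℝ (rComb h v tr) ∧ tra_pair w = u := by
  obtain ⟨f, h1, h2, h3⟩ := hu
  let F : S × Fin 6 → ℝ := fun d => match d with
    | (s, 0) => f s
    | (s, 1) => f (h s)
    | (s, 2) => f (v (h s))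
    | (s, 3) => f s
    | (s, 4) => f (v (h s))
    | (s, 5) => f (v s)
  have hF : ∀ d, F ((rComb h v tr).opp d) = F ((rComb h v tr).next d) := by
    rintro ⟨s, k⟩
    fin_cases k
    · change f (v (h (v.symm s))) = f (h s)
      rw [h1, Equiv.apply_symm_apply]
    · rfl
    · rfl
    · rfl
    · rfl
    · change f (h (h.symm s)) = f s
      rw [Equiv.apply_symm_apply]
  refine ⟨⟨fun d => F ((rComb h v tr).next d) - F d, fun d => ?_, fun d => ?_⟩, ⟨F, hF, fun d => rfl⟩,
    ?_⟩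
  · have e1 := hF d
    have e2 := hF ((rComb h v tr).opp d)
    rw [(rComb h v tr).opp2] at e2
    change F ((rComb h v tr).next ((rComb h v tr).opp d)) - F ((rComb h v tr).opp d) =
      -(F ((rComb h v tr).next d) - F d)
    rw [e1, ← e2]
    ring
  · change F _ - F d + (F _ - F _) + (F _ - F _) = 0
    rw [(rComb h v tr).next3]
    ring
  · refine Prod.ext ?_ ?_
    · funext s
      change f (h s) - f s = _
      rw [h2]
    · funext s
      change -(f s - f (v s)) = _
      rw [h3]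
      ring

theorem tra_mem_PO {tr : Tr h v} {P : Submodule ℝ (H1 ℝ (rComb h v tr))}
    {w : Z1 ℝ (rComb h v tr)} (hw : (B1 ℝ (rComb h v tr)).mkQ w ∈ P) : tra_pair w ∈ PO P :=
  ⟨w, hw, fun _ => rfl, fun _ => rfl⟩

theorem tra_PO_mem {tr : Tr h v} {P : Submodule ℝ (H1 ℝ (rComb h v tr))} {u : Pr S}
    (hu : u ∈ PO P) : ∃ w : Z1 ℝ (rComb h v tr), (B1 ℝ (rComb h v tr)).mkQ w ∈ P ∧
      tra_pair w = u := by
  obtain ⟨w, h1, h2, h3⟩ := hu
  exact ⟨w, h1, Prod.ext (funext fun s => (h2 s).symm) (funext fun s => (h3 s).symm)⟩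

/-- rescaling -/
theorem tra_scale {A B : ℂ} {ρ : ℝ} (hρ : 0 < ρ) {a b : S → ℂ}
    (H : HolO h v (ρ * A) (ρ * B) a b) : HolO h v A B a b := by
  obtain ⟨F, h1, h2, h3, h4, h5⟩ := H
  have m1 : MapsTo (fun z : ℂ => (ρ : ℂ) * z) (para A B) (para (ρ * A) (ρ * B)) := by
    rintro _ ⟨x, y, hx0, hx1, hy0, hy1, rfl⟩
    exact ⟨x, y, hx0, hx1, hy0, hy1, by ring⟩
  have m2 : MapsTo (fun z : ℂ => (ρ : ℂ) * z) (opara A B) (opara (ρ * A) (ρ * B)) := by
    rintro _ ⟨x, y, hx0, hx1, hy0, hy1, rfl⟩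
    exact ⟨x, y, hx0, hx1, hy0, hy1, by ring⟩
  refine ⟨fun s z => F s (ρ * z), fun s => ?_, fun s => ?_, fun s => ?_, fun s t ht0 ht1 => ?_,
    fun s t ht0 ht1 => ?_⟩
  · exact (h1 s).comp (by fun_prop) m1
  · exact (h2 s).comp (by fun_prop) m2
  · simp [h3]
  · have := h4 s t ht0 ht1
    change F (h s) (ρ * (t * B)) = F s (ρ * (A + t * B)) - a s
    rw [show (ρ : ℂ) * (t * B) = t * (ρ * B) by ring,
      show (ρ : ℂ) * (A + t * B) = ρ * A + t * (ρ * B) by ring]
    exact this
  · have := h5 s t ht0 ht1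
    change F (v s) (ρ * (t * A)) = F s (ρ * (B + t * A)) - b s
    rw [show (ρ : ℂ) * (t * A) = t * (ρ * A) by ring,
      show (ρ : ℂ) * (B + t * A) = ρ * B + t * (ρ * A) by ring]
    exact this

/-- the matrix -/
theorem tra_matrix {t : ℝ} (ht : 0 < t) {A B : ℂ} (hAB : 0 < cross A B) :
    ∃ (g : Matrix.SpecialLinearGroup (Fin 2) ℝ) (ρ : ℝ), 0 < ρ ∧
      (fun d : S × Fin 6 => act g ((t : ℂ) * vecAB 1 I d)) = vecAB (ρ * A) (ρ * B) := by
  set X := cross A B with hX
  set ρ := t / √X with hρ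
  have hs : 0 < √X := Real.sqrt_pos.2 hAB
  have hss : √X * √X = X := Real.mul_self_sqrt hAB.le
  have hρ0 : 0 < ρ := div_pos ht hs
  have hdet : Matrix.det !![ρ * A.re / t, ρ * B.re / t; ρ * A.im / t, ρ * B.im / t] = 1 := by
    rw [Matrix.det_fin_two_of]
    have e1 : ρ * ρ * X = t * t := by
      rw [hρ]
      field_simp
      nlinarith [hss]
    have e2 : A.re * B.im - B.re * A.im = X := by
      rw [hX, cross]
      ring
    field_simp
    nlinarith [e1, e2, congrArg (fun z => ρ ^ 2 * z) e2]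
  refine ⟨⟨_, hdet⟩, ρ, hρ0, ?_⟩
  have key : ∀ x y : ℝ, act ⟨_, hdet⟩ ((t : ℂ) * (x + y * I)) = ρ * (x * A + y * B) := by
    intro x y
    apply Complex.ext
    · simp [act]
      field_simp
    · simp [act]
      field_simp
  funext d
  obtain ⟨s, k⟩ := d
  fin_cases k
  · have := key 1 0
    simpa [vecAB] using this
  · have := key 0 1
    simpa [vecAB] using this
  · have := key (-1) (-1)
    simp only [vecAB]
    rw [show -(1 + I) = ((-1 : ℝ) : ℂ) + ((-1 : ℝ) : ℂ) * I by push_cast; ring]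
    rw [this]
    push_cast
    ring
  · have := key 1 1
    simp only [vecAB]
    rw [show (1 : ℂ) + I = ((1 : ℝ) : ℂ) + ((1 : ℝ) : ℂ) * I by push_cast; ring]
    rw [this]
    push_cast
    ring
  · have := key (-1) 0
    simp only [vecAB]
    rw [show -(1 : ℂ) = ((-1 : ℝ) : ℂ) + ((0 : ℝ) : ℂ) * I by push_cast; ring]
    rw [this]
    push_cast
    ring
  · have := key 0 (-1)
    simp only [vecAB]
    rw [show -I = ((0 : ℝ) : ℂ) + ((-1 : ℝ) : ℂ) * I by push_cast; ring]
    rw [this]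
    push_cast
    ring

end

/-- TRA (cites TRI). -/
theorem isHT_hto {S : Type} [Finite S] {h v : Equiv.Perm S} (tr : Tr h v) {t : ℝ} (ht : 0 < t)
    (P : Submodule ℝ (H1 ℝ (rComb h v tr)))
    (hP : IsHT (rComb h v tr) (fun d => (t : ℂ) * vecAB 1 I d) P) : HTO h v (PO P) := by
  obtain ⟨hP1, hP2⟩ := hP
  refine ⟨?_, ?_, ?_, ?_⟩
  · intro u hu
    obtain ⟨w, hw, rfl⟩ := tra_bo (tr := tr) hu
    apply tra_mem_PO
    have : (B1 ℝ (rComb h v tr)).mkQ w = 0 := by
      rw [Submodule.mkQ_apply, Submodule.Quotient.mk_eq_zero]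
      exact hw
    rw [this]
    exact P.zero_mem
  · intro u hu
    obtain ⟨w, _, rfl⟩ := tra_PO_mem hu
    exact tra_pair_zo w
  · -- a basis of P
    have hfin : Module.Finite ℝ P := Module.finite_of_finrank_pos (by rw [hP1]; norm_num)
    let bas := Module.finBasisOfFinrankEq ℝ P hP1
    obtain ⟨w1, hw1⟩ := Submodule.mkQ_surjective (B1 ℝ (rComb h v tr)) (bas 0 : H1 ℝ (rComb h v tr))
    obtain ⟨w2, hw2⟩ := Submodule.mkQ_surjective (B1 ℝ (rComb h v tr)) (bas 1 : H1 ℝ (rComb h v tr))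
    refine ⟨tra_pair w1, tra_pair w2, le_antisymm ?_ ?_⟩
    · intro u hu
      obtain ⟨w, hw, rfl⟩ := tra_PO_mem hu
      -- coordinates
      have e1 := bas.sum_repr ⟨_, hw⟩
      rw [Fin.sum_univ_two] at e1
      have e2 := congrArg Subtype.val e1
      simp only [Submodule.coe_add, SetLike.val_smul] at e2
      rw [← hw1, ← hw2, ← map_smul, ← map_smul, ← map_add] at e2
      set r1 := bas.repr ⟨_, hw⟩ 0
      set r2 := bas.repr ⟨_, hw⟩ 1
      have e3 : w - (r1 • w1 + r2 • w2) ∈ B1 ℝ (rComb h v tr) := by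
        rw [← Submodule.Quotient.eq]
        exact e2.symm
      have e4 := tra_pair_bo e3
      have e5 : tra_pair w = (r1 • tra_pair w1 + r2 • tra_pair w2) +
          tra_pair (w - (r1 • w1 + r2 • w2)) := by
        refine Prod.ext ?_ ?_
        · funext s
          simp [tra_pair]
        · funext s
          simp [tra_pair]
          ring
      rw [e5]
      apply Submodule.add_mem_sup _ e4
      exact Submodule.add_mem _
        (Submodule.smul_mem _ _ (Submodule.subset_span (by simp)))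
        (Submodule.smul_mem _ _ (Submodule.subset_span (by simp)))
    · apply sup_le
      · rw [Submodule.span_le]
        rintro u (rfl | rfl)
        · apply tra_mem_PO
          rw [hw1]
          exact (bas 0).2
        · apply tra_mem_PO
          rw [hw2]
          exact (bas 1).2
      · intro u hu
        obtain ⟨w, hw, rfl⟩ := tra_bo (tr := tr) hu
        apply tra_mem_PO
        have : (B1 ℝ (rComb h v tr)).mkQ w = 0 := by
          rw [Submodule.mkQ_apply, Submodule.Quotient.mk_eq_zero]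
          exact hw
        rw [this]
        exact P.zero_mem
  · intro A B hAB
    obtain ⟨g, ρ, hρ, hg⟩ := tra_matrix (S := S) ht hAB
    have h1 := hP2 g
    rw [hg] at h1
    obtain ⟨⟨x, hx1, hx2⟩, hx0⟩ := Module.finrank_pos_iff_exists_ne_zero.1
      (by rw [h1]; norm_num : 0 < Module.finrank ℂ
        (H10 (rComb h v tr) (vecAB (ρ * A) (ρ * B)) ⊓ cplx P : Submodule ℂ (H1 ℂ (rComb h v tr))))
    obtain ⟨u, hu1, hu2⟩ := hx1
    have hcr : 0 < cross (ρ * A) (ρ * B) := by
      have : cross (ρ * A) (ρ * B) = ρ * ρ * cross A B := by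
        simp [cross]
        ring
      rw [this]
      positivity
    have hol : HolO h v (ρ * A) (ρ * B) (fun s => u.1 (s, 0)) (fun s => -u.1 (s, 5)) :=
      hol_tri h v tr hcr hu1
    obtain ⟨p1, p2⟩ := tra_cplx P hx2 u hu2
    refine ⟨_, _, tra_scale hρ hol, ?_, ?_, ?_⟩
    · by_contra hc
      push Not at hc
      obtain ⟨c1, c2⟩ := hc
      apply hx0
      apply Subtype.ext
      change x = 0
      rw [← hu2]
      have c1' : ∀ s, u.1 (s, 0) = 0 := fun s => congrFun c1 s
      have c2' : ∀ s, u.1 (s, 5) = 0 := fun s => neg_eq_zero.1 (congrFun c2 s)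
      have : u = 0 := by
        apply Subtype.ext
        funext d
        obtain ⟨s, k⟩ := d
        obtain ⟨e1, e2, e3, e4, e5⟩ := tra_vals u s
        rw [c2'] at e1
        rw [c1'] at e2
        rw [c1', c2'] at e3
        rw [c1', c2'] at e4
        fin_cases k
        · exact c1' s
        · change u.1 (s, 1) = 0
          rw [e1, neg_zero]
        · change u.1 (s, 2) = 0
          rw [e3]; ring
        · change u.1 (s, 3) = 0
          rw [e4]; ring
        · change u.1 (s, 4) = 0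
          rw [e2, neg_zero]
        · exact c2' s
      rw [this, map_zero]
    · have := tra_mem_PO p1
      convert this using 1
      refine Prod.ext ?_ ?_
      · funext s; rfl
      · funext s
        change (-u.1 (s, 5)).re = -(u.1 (s, 5)).re
        rfl
    · have := tra_mem_PO p2
      convert this using 1
      refine Prod.ext ?_ ?_
      · funext s; rfl
      · funext s
        change (-u.1 (s, 5)).im = -(u.1 (s, 5)).im
        rfl

end Pool.Agent.TP
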