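import Pool.Agent.Lib_helper53.TP.B.OMG
import Pool.Agent.Lib_helper53.TP.B.POS
import Pool.Agent.Lib_helper53.TP.B.TRA
import Pool.Agent.Lib_helper53.TP.B.TRI

/-! # Block TAU -/

namespace Pool.Agent.TP

open Set Complex Finset

section
variable {S : Type} {h v : Equiv.Perm S}

theorem tau_om_const [Fintype S] (x1 y1 x2 y2 : ℝ) :
    om h v (fun _ => x1, fun _ => y1) (fun _ => x2, fun _ => y2) =
      Fintype.card S * (x1 * y2 - y1 * x2) := by
  simp [om]
  ring

theorem tau_const_zo (x y : ℝ) : ((fun _ => x, fun _ => y) : Pr S) ∈ ZO h v := by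
  intro s
  simp only
  ring

theorem tau_om_congr [Fintype S] {u u' w w' : Pr S} (hu' : u' ∈ ZO h v)
    (hw : w ∈ ZO h v) (h1 : u - u' ∈ BO h v) (h2 : w - w' ∈ BO h v) :
    om h v u w = om h v u' w' := by
  have e1 : om h v u w - om h v u' w' = om h v (u - u') w + om h v u' (w - w') := by
    simp only [om, Prod.fst_sub, Prod.snd_sub, Pi.sub_apply]
    rw [← Finset.sum_sub_distrib, ← Finset.sum_add_distrib]
    apply Finset.sum_congr rfl
    intro s _
    ring
  have e2 : om h v (u - u') w = 0 := by
    rw [om_anti (BO_le_ZO h v h1) hw, om_bo hw h1, neg_zero]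
  have e3 : om h v u' (w - w') = 0 := om_bo hu' h2
  linarith [e1, e2, e3]

theorem tau_act (g : Matrix.SpecialLinearGroup (Fin 2) ℝ) (t : ℝ) :
    (fun d : S × Fin 6 => act g ((t : ℂ) * vecAB 1 I d)) =
      vecAB (act g t) (act g (t * I)) := by
  funext d
  obtain ⟨s, k⟩ := d
  fin_cases k <;> apply Complex.ext <;> simp [vecAB, act] <;> ring

theorem tau_cross (g : Matrix.SpecialLinearGroup (Fin 2) ℝ) (t : ℝ) :
    cross (act g t) (act g (t * I)) = t * t := by
  have hdet := g.2
  rw [Matrix.det_fin_two] at hdet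
  simp only [cross, act, ofReal_re, ofReal_im, mul_re, mul_im, I_re, I_im]
  linear_combination (t * t) * hdet

/-- the tautological complex cocycle -/
def tau_vZ {D : Type} {c : Comb D} {V : D → ℂ} (ok : IsTS c V) : Z1 ℂ c :=
  ⟨V, ok.opp_neg, ok.sum_zero⟩

theorem tau_hol {D : Type} {c : Comb D} {V : D → ℂ} (ok : IsTS c V) : IsHol c V V :=
  ⟨fun _ z => z, fun _ => continuousOn_id, fun _ => differentiableOn_id, fun _ => rfl,
    fun _ => rfl, fun _ _ _ => rfl, fun _ _ _ => rfl⟩

end

/-- TAU (cites TRI, POS, OMG). -/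
theorem isHT_taut {S : Type} [Finite S] [Nonempty S] {h v : Equiv.Perm S} (tr : Tr h v) {t : ℝ}
    (ht : 0 < t) (ok : IsTS (rComb h v tr) (fun d => (t : ℂ) * vecAB 1 I d)) :
    IsHT (rComb h v tr) (fun d => (t : ℂ) * vecAB 1 I d) (taut ok) := by
  have := Fintype.ofFinite S
  have hcard : (0 : ℝ) < Fintype.card S := by exact_mod_cast Fintype.card_pos
  -- pairs of the real and imaginary parts
  have pre : tra_pair (reZ ok) = ((fun _ => t, fun _ => 0) : Pr S) := by
    refine Prod.ext (funext fun s => ?_) (funext fun s => ?_)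
    · change ((t : ℂ) * vecAB 1 I (s, 0)).re = t
      simp [vecAB]
    · change -((t : ℂ) * vecAB 1 I (s, 5)).re = 0
      simp [vecAB]
  have pim : tra_pair (imZ ok) = ((fun _ => 0, fun _ => t) : Pr S) := by
    refine Prod.ext (funext fun s => ?_) (funext fun s => ?_)
    · change ((t : ℂ) * vecAB 1 I (s, 0)).im = 0
      simp [vecAB]
    · change -((t : ℂ) * vecAB 1 I (s, 5)).im = t
      simp [vecAB]
  have plin : ∀ (r1 r2 : ℝ), tra_pair (r1 • reZ ok + r2 • imZ ok) =
      ((fun _ => r1 * t, fun _ => r2 * t) : Pr S) := by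
    intro r1 r2
    have e : tra_pair (r1 • reZ ok + r2 • imZ ok) =
        r1 • tra_pair (reZ ok) + r2 • tra_pair (imZ ok) := by
      refine Prod.ext (funext fun s => ?_) (funext fun s => ?_)
      · simp [tra_pair]
      · simp [tra_pair]
        ring
    rw [e, pre, pim]
    refine Prod.ext (funext fun s => ?_) (funext fun s => ?_)
    · simp
    · simp
  -- independence
  have ind : ∀ r1 r2 : ℝ, r1 • reZ ok + r2 • imZ ok ∈ B1 ℝ (rComb h v tr) → r1 = 0 ∧ r2 = 0 := by
    intro r1 r2 hr
    have e1 := tra_pair_bo hr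
    rw [plin] at e1
    have e2 := om_bo (tau_const_zo (h := h) (v := v) 0 1) e1
    have e3 := om_bo (tau_const_zo (h := h) (v := v) 1 0) e1
    rw [tau_om_const] at e2 e3
    have e4 := (mul_eq_zero.1 e2).resolve_left hcard.ne'
    have e5 := (mul_eq_zero.1 e3).resolve_left hcard.ne'
    constructor
    · have : r1 * t = 0 := by linarith
      exact (mul_eq_zero.1 this).resolve_right ht.ne'
    · have : r2 * t = 0 := by linarith
      exact (mul_eq_zero.1 this).resolve_right ht.ne'
  refine ⟨?_, fun g => ?_⟩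
  · -- dimension 2
    have hli : LinearIndependent ℝ ![(B1 ℝ (rComb h v tr)).mkQ (reZ ok),
        (B1 ℝ (rComb h v tr)).mkQ (imZ ok)] := by
      rw [LinearIndependent.pair_iff]
      intro r1 r2 hr
      apply ind
      rw [← map_smul, ← map_smul, ← map_add, Submodule.mkQ_apply,
        Submodule.Quotient.mk_eq_zero] at hr
      exact hr
    have e1 := finrank_span_eq_card hli
    rw [Fintype.card_fin] at e1
    have e2 : Set.range ![(B1 ℝ (rComb h v tr)).mkQ (reZ ok),
        (B1 ℝ (rComb h v tr)).mkQ (imZ ok)] = {(B1 ℝ (rComb h v tr)).mkQ (reZ ok),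
        (B1 ℝ (rComb h v tr)).mkQ (imZ ok)} := by
      ext x
      constructor
      · rintro ⟨i, rfl⟩
        fin_cases i
        · exact Or.inl rfl
        · exact Or.inr rfl
      · rintro (rfl | rfl)
        · exact ⟨0, rfl⟩
        · exact ⟨1, rfl⟩
    rw [e2] at e1
    exact e1
  · -- the forms
    set V : S × Fin 6 → ℂ := fun d => act g ((t : ℂ) * vecAB 1 I d) with hV
    have hV' : V = vecAB (act g t) (act g (t * I)) := tau_act g t
    have hcr : 0 < cross (act g t) (act g (t * I)) := by
      rw [tau_cross]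
      positivity
    have okV : IsTS (rComb h v tr) V := by
      rw [hV']
      exact vecAB_ok h v tr hcr
    have hdet := g.2
    rw [Matrix.det_fin_two] at hdet
    -- V = γ re + δ im
    set γ : ℂ := (g.1 0 0 : ℂ) + g.1 1 0 * I with hγ
    set δ : ℂ := (g.1 0 1 : ℂ) + g.1 1 1 * I with hδ
    have hγ0 : γ ≠ 0 := by
      intro h0
      have e1 := congrArg Complex.re h0
      have e2 := congrArg Complex.im h0
      simp [hγ] at e1 e2
      rw [e1, e2] at hdet
      simp at hdet
    have hVlin : tau_vZ okV = γ • toC (reZ ok) + δ • toC (imZ ok) := by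
      apply Subtype.ext
      funext d
      change act g ((t : ℂ) * vecAB 1 I d) = γ * (((t : ℂ) * vecAB 1 I d).re : ℂ) +
        δ * (((t : ℂ) * vecAB 1 I d).im : ℂ)
      apply Complex.ext
      · simp [act, hγ, hδ]
      · simp [act, hγ, hδ]
    have hmem1 : (B1 ℂ (rComb h v tr)).mkQ (tau_vZ okV) ∈ H10 (rComb h v tr) V :=
      ⟨tau_vZ okV, tau_hol okV, rfl⟩
    have hmem2 : (B1 ℂ (rComb h v tr)).mkQ (tau_vZ okV) ∈ cplx (taut ok) := by
      rw [hVlin, map_add, map_smul, map_smul]
      apply Submodule.add_mem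
      · apply Submodule.smul_mem
        apply Submodule.subset_span
        exact ⟨reZ ok, Submodule.subset_span (by simp), rfl⟩
      · apply Submodule.smul_mem
        apply Submodule.subset_span
        exact ⟨imZ ok, Submodule.subset_span (by simp), rfl⟩
    -- real and imaginary parts of c V
    have hre : ∀ c : ℂ, tra_re (c • tau_vZ okV) = (c * γ).re • reZ ok + (c * δ).re • imZ ok := by
      intro c
      rw [hVlin]
      apply Subtype.ext
      funext d
      change (c * (γ * (((t : ℂ) * vecAB 1 I d).re : ℂ) +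
        δ * (((t : ℂ) * vecAB 1 I d).im : ℂ))).re = (c * γ).re * ((t : ℂ) * vecAB 1 I d).re +
        (c * δ).re * ((t : ℂ) * vecAB 1 I d).im
      rw [mul_add, ← mul_assoc, ← mul_assoc, Complex.add_re, Complex.re_mul_ofReal,
        Complex.re_mul_ofReal]
    have him : ∀ c : ℂ, tra_im (c • tau_vZ okV) = (c * γ).im • reZ ok + (c * δ).im • imZ ok := by
      intro c
      rw [hVlin]
      apply Subtype.ext
      funext d
      change (c * (γ * (((t : ℂ) * vecAB 1 I d).re : ℂ) +
        δ * (((t : ℂ) * vecAB 1 I d).im : ℂ))).im = (c * γ).im * ((t : ℂ) * vecAB 1 I d).re +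
        (c * δ).im * ((t : ℂ) * vecAB 1 I d).im
      rw [mul_add, ← mul_assoc, ← mul_assoc, Complex.add_im, Complex.im_mul_ofReal,
        Complex.im_mul_ofReal]
    rw [finrank_eq_one_iff']
    refine ⟨⟨_, hmem1, hmem2⟩, ?_, ?_⟩
    · intro h0
      have h1 : (B1 ℂ (rComb h v tr)).mkQ (tau_vZ okV) = 0 := congrArg Subtype.val h0
      rw [Submodule.mkQ_apply, Submodule.Quotient.mk_eq_zero] at h1
      have h2 := tra_b1_re h1
      have h3 := hre 1
      rw [one_smul, one_mul, one_mul] at h3
      rw [h3] at h2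
      obtain ⟨k1, k2⟩ := ind _ _ h2
      simp [hγ, hδ] at k1 k2
      rw [k1, k2] at hdet
      simp at hdet
    · rintro ⟨x, hx1, hx2⟩
      obtain ⟨u, hu1, hu2⟩ := hx1
      obtain ⟨p1, p2⟩ := tra_cplx (taut ok) hx2 u hu2
      unfold taut at p1 p2
      rw [Submodule.mem_span_pair] at p1 p2
      obtain ⟨a1, b1, q1⟩ := p1
      obtain ⟨a2, b2, q2⟩ := p2
      set c : ℂ := ((a1 : ℂ) + a2 * I) / γ with hc
      have hcγ : c * γ = (a1 : ℂ) + a2 * I := div_mul_cancel₀ _ hγ0
      have hcγre : (c * γ).re = a1 := by rw [hcγ]; simp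
      have hcγim : (c * γ).im = a2 := by rw [hcγ]; simp
      set u' : Z1 ℂ (rComb h v tr) := u - c • tau_vZ okV with hu'
      have hol' : u' ∈ HolZ (rComb h v tr) V :=
        Submodule.sub_mem _ hu1 (Submodule.smul_mem _ _ (tau_hol okV))
      -- real and imaginary part of u' modulo B1
      have r1 : tra_re u' - (b1 - (c * δ).re) • imZ ok ∈ B1 ℝ (rComb h v tr) := by
        have e1 : tra_re u - (a1 • reZ ok + b1 • imZ ok) ∈ B1 ℝ (rComb h v tr) := by
          rw [← Submodule.Quotient.eq, ← Submodule.mkQ_apply, ← Submodule.mkQ_apply, map_add,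
            map_smul, map_smul]
          exact q1.symm
        have e2 : tra_re u' = tra_re u - tra_re (c • tau_vZ okV) := by
          apply Subtype.ext
          funext d
          rfl
        have e3 : tra_re u' - (b1 - (c * δ).re) • imZ ok =
            tra_re u - (a1 • reZ ok + b1 • imZ ok) := by
          rw [e2, hre, hcγre]
          apply Subtype.ext
          funext d
          change (tra_re u).1 d - (a1 * (reZ ok).1 d + (c * δ).re * (imZ ok).1 d) -
            (b1 - (c * δ).re) * (imZ ok).1 d = (tra_re u).1 d - (a1 * (reZ ok).1 d +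
            b1 * (imZ ok).1 d)
          ring
        rw [e3]
        exact e1
      have r2 : tra_im u' - (b2 - (c * δ).im) • imZ ok ∈ B1 ℝ (rComb h v tr) := by
        have e1 : tra_im u - (a2 • reZ ok + b2 • imZ ok) ∈ B1 ℝ (rComb h v tr) := by
          rw [← Submodule.Quotient.eq, ← Submodule.mkQ_apply, ← Submodule.mkQ_apply, map_add,
            map_smul, map_smul]
          exact q2.symm
        have e2 : tra_im u' = tra_im u - tra_im (c • tau_vZ okV) := by
          apply Subtype.ext
          funext d
          rfl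
        have e3 : tra_im u' - (b2 - (c * δ).im) • imZ ok =
            tra_im u - (a2 • reZ ok + b2 • imZ ok) := by
          rw [e2, him, hcγim]
          apply Subtype.ext
          funext d
          change (tra_im u).1 d - (a2 * (reZ ok).1 d + (c * δ).im * (imZ ok).1 d) -
            (b2 - (c * δ).im) * (imZ ok).1 d = (tra_im u).1 d - (a2 * (reZ ok).1 d +
            b2 * (imZ ok).1 d)
          ring
        rw [e3]
        exact e1
      have hpsub : ∀ w w' : Z1 ℝ (rComb h v tr), tra_pair (w - w') = tra_pair w - tra_pair w' := by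
        intro w w'
        refine Prod.ext (funext fun s => ?_) (funext fun s => ?_)
        · rfl
        · change -(w.1 (s, 5) - w'.1 (s, 5)) = -w.1 (s, 5) - -w'.1 (s, 5)
          ring
      have hpim : ∀ r : ℝ, tra_pair (r • imZ ok) = ((fun _ => 0, fun _ => r * t) : Pr S) := by
        intro r
        have e1 := plin 0 r
        rw [zero_smul, zero_add, zero_mul] at e1
        exact e1
      have s1 := tra_pair_bo r1
      have s2 := tra_pair_bo r2
      rw [hpsub, hpim] at s1 s2
      have hom : om h v (tra_pair (tra_re u')) (tra_pair (tra_im u')) = 0 := by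
        rw [tau_om_congr (tau_const_zo _ _) (tra_pair_zo _) s1 s2, tau_om_const]
        ring
      have hV2 : IsHol (rComb h v tr) (vecAB (act g t) (act g (t * I))) u'.1 := by
        rw [← hV']
        exact hol'
      have holO := hol_tri h v tr hcr hV2
      have hzero : (fun s => u'.1 (s, 0)) = 0 ∧ (fun s => -u'.1 (s, 5)) = 0 := by
        by_contra hne
        have hne' : (fun s => u'.1 (s, 0)) ≠ 0 ∨ (fun s => -u'.1 (s, 5)) ≠ 0 := by
          by_contra hh
          push Not at hh
          exact hne hh
        obtain ⟨_, _, hpos⟩ := hol_pos hcr holO hne'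
        have e : om h v ((fun s => (u'.1 (s, 0)).re, fun s => (-u'.1 (s, 5)).re) : Pr S)
            ((fun s => (u'.1 (s, 0)).im, fun s => (-u'.1 (s, 5)).im) : Pr S) =
            om h v (tra_pair (tra_re u')) (tra_pair (tra_im u')) := rfl
        rw [e, hom] at hpos
        exact lt_irrefl _ hpos
      have c1' : ∀ s, u'.1 (s, 0) = 0 := fun s => congrFun hzero.1 s
      have c2' : ∀ s, u'.1 (s, 5) = 0 := fun s => neg_eq_zero.1 (congrFun hzero.2 s)
      have hu0 : u' = 0 := by
        apply Subtype.ext
        funext d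
        obtain ⟨s, k⟩ := d
        obtain ⟨e1, e2, e3, e4, e5⟩ := tra_vals u' s
        rw [c2'] at e1
        rw [c1'] at e2
        rw [c1', c2'] at e3
        rw [c1', c2'] at e4
        fin_cases k
        · exact c1' s
        · change u'.1 (s, 1) = 0
          rw [e1, neg_zero]
        · change u'.1 (s, 2) = 0
          rw [e3]; ring
        · change u'.1 (s, 3) = 0
          rw [e4]; ring
        · change u'.1 (s, 4) = 0
          rw [e2, neg_zero]
        · exact c2' s
      refine ⟨c, ?_⟩
      apply Subtype.ext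
      change c • (B1 ℂ (rComb h v tr)).mkQ (tau_vZ okV) = x
      rw [← hu2, ← map_smul]
      congr 1
      rw [hu', sub_eq_zero] at hu0
      exact hu0.symm

end Pool.Agent.TP
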