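import Pool.Agent.Lib_helper53.TP.WDefs

/-!
# TIV: invariance under renaming of the darts
-/

namespace Pool.Agent.TP

open Set Complex Finset

section
variable {D D' : Type} {c : Comb D} {c' : Comb D'}

/-- Compatibility of a bijection with the combinatorics. -/
structure TivIso (c : Comb D) (c' : Comb D') (e : D ≃ D') : Prop where
  n : ∀ d, c'.next (e d) = e (c.next d)
  o : ∀ d, c'.opp (e d) = e (c.opp d)

theorem TivIso.symm {e : D ≃ D'} (H : TivIso c c' e) : TivIso c' c e.symm where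
  n := fun d => by
    rw [Equiv.eq_symm_apply, ← H.n, Equiv.apply_symm_apply]
  o := fun d => by
    rw [Equiv.eq_symm_apply, ← H.o, Equiv.apply_symm_apply]

theorem tiv_z {𝕜 : Type} [Field 𝕜] {e : D ≃ D'} (H : TivIso c c' e) {u : D → 𝕜}
    (hu : u ∈ Z1 𝕜 c) : (fun d => u (e.symm d)) ∈ Z1 𝕜 c' := by
  constructor
  · intro d
    change u (e.symm (c'.opp d)) = -u (e.symm d)
    rw [← H.symm.o, hu.1]
  · intro d
    change u (e.symm d) + u (e.symm (c'.next d)) + u (e.symm (c'.next (c'.next d))) = 0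
    rw [← H.symm.n, ← H.symm.n, ← H.symm.n]
    exact hu.2 _

/-- Renaming of cocycles. -/
def tivZ (𝕜 : Type) [Field 𝕜] {e : D ≃ D'} (H : TivIso c c' e) : Z1 𝕜 c ≃ₗ[𝕜] Z1 𝕜 c' where
  toFun u := ⟨fun d => u.1 (e.symm d), tiv_z H u.2⟩
  map_add' _ _ := rfl
  map_smul' _ _ := rfl
  invFun u := ⟨fun d => u.1 (e d), by
    have := tiv_z H.symm u.2
    simpa using this⟩
  left_inv u := by
    apply Subtype.ext
    funext d
    change u.1 (e.symm (e d)) = u.1 d
    rw [Equiv.symm_apply_apply]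
  right_inv u := by
    apply Subtype.ext
    funext d
    change u.1 (e (e.symm d)) = u.1 d
    rw [Equiv.apply_symm_apply]

theorem tiv_b {𝕜 : Type} [Field 𝕜] {e : D ≃ D'} (H : TivIso c c' e) (u : Z1 𝕜 c) :
    tivZ 𝕜 H u ∈ B1 𝕜 c' ↔ u ∈ B1 𝕜 c := by
  constructor
  · rintro ⟨f, h1, h2⟩
    refine ⟨fun d => f (e d), fun d => ?_, fun d => ?_⟩
    · change f (e (c.opp d)) = f (e (c.next d))
      rw [← H.o, ← H.n, h1]
    · change u.1 d = f (e (c.next d)) - f (e d)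
      rw [← H.n, ← h2]
      change u.1 d = u.1 (e.symm (e d))
      rw [Equiv.symm_apply_apply]
  · rintro ⟨f, h1, h2⟩
    refine ⟨fun d => f (e.symm d), fun d => ?_, fun d => ?_⟩
    · change f (e.symm (c'.opp d)) = f (e.symm (c'.next d))
      rw [← H.symm.o, ← H.symm.n, h1]
    · change u.1 (e.symm d) = f (e.symm (c'.next d)) - f (e.symm d)
      rw [← H.symm.n, ← h2]

theorem tiv_map (𝕜 : Type) [Field 𝕜] {e : D ≃ D'} (H : TivIso c c' e) :
    (B1 𝕜 c).map (tivZ 𝕜 H).toLinearMap = B1 𝕜 c' := by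
  ext x
  constructor
  · rintro ⟨u, hu, rfl⟩
    exact (tiv_b H u).2 hu
  · intro hx
    refine ⟨(tivZ 𝕜 H).symm x, ?_, (tivZ 𝕜 H).apply_symm_apply x⟩
    refine (tiv_b H _).1 ?_
    rwa [LinearEquiv.apply_symm_apply]

/-- Renaming of classes. -/
noncomputable def tivH (𝕜 : Type) [Field 𝕜] {e : D ≃ D'} (H : TivIso c c' e) :
    H1 𝕜 c ≃ₗ[𝕜] H1 𝕜 c' :=
  Submodule.Quotient.equiv _ _ (tivZ 𝕜 H) (tiv_map 𝕜 H)

theorem tivH_mk (𝕜 : Type) [Field 𝕜] {e : D ≃ D'} (H : TivIso c c' e) (u : Z1 𝕜 c) :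
    tivH 𝕜 H ((B1 𝕜 c).mkQ u) = (B1 𝕜 c').mkQ (tivZ 𝕜 H u) := rfl

theorem tiv_tri {e : D ≃ D'} (H : TivIso c c' e) {w : D → ℂ} {w' : D' → ℂ}
    (hw : ∀ d, w' (e d) = w d) (d : D') : Tri c' w' d = Tri c w (e.symm d) := by
  unfold Tri
  have h1 : w' d = w (e.symm d) := by rw [← hw, Equiv.apply_symm_apply]
  have h2 : w' (c'.next d) = w (c.next (e.symm d)) := by
    rw [← hw, ← H.n, Equiv.apply_symm_apply]
  rw [h1, h2]

theorem tiv_hol {e : D ≃ D'} (H : TivIso c c' e) {w : D → ℂ} {w' : D' → ℂ}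
    (hw : ∀ d, w' (e d) = w d) {u : D → ℂ} (hu : IsHol c w u) :
    IsHol c' w' (fun d => u (e.symm d)) := by
  obtain ⟨F, h1, h2, h3, h4, h5, h6⟩ := hu
  have hw' : ∀ d, w' d = w (e.symm d) := fun d => by rw [← hw, Equiv.apply_symm_apply]
  refine ⟨fun d => F (e.symm d), fun d => ?_, fun d => ?_, fun d => h3 _, fun d => ?_,
    fun d z hz => ?_, fun d z hz => ?_⟩
  · rw [tiv_tri H hw]
    exact h1 _
  · rw [tiv_tri H hw]
    exact h2 _
  · rw [hw']
    exact h4 _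
  · rw [tiv_tri H hw] at hz
    change F (e.symm (c'.next d)) (z - w' d) = _
    rw [hw', ← H.symm.n]
    exact h5 _ z hz
  · rw [hw'] at hz
    change F (e.symm (c'.opp d)) (z - w' d) = _
    rw [hw', ← H.symm.o]
    exact h6 _ z hz

theorem tiv_holZ {e : D ≃ D'} (H : TivIso c c' e) {w : D → ℂ} {w' : D' → ℂ}
    (hw : ∀ d, w' (e d) = w d) :
    (HolZ c w).map (tivZ ℂ H).toLinearMap = HolZ c' w' := by
  ext x
  constructor
  · rintro ⟨u, hu, rfl⟩
    exact tiv_hol H hw hu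
  · intro hx
    refine ⟨(tivZ ℂ H).symm x, ?_, (tivZ ℂ H).apply_symm_apply x⟩
    have := tiv_hol H.symm (w := w') (w' := w) (fun d => by
      rw [← hw, Equiv.apply_symm_apply]) hx
    exact this

theorem tiv_H10 {e : D ≃ D'} (H : TivIso c c' e) {w : D → ℂ} {w' : D' → ℂ}
    (hw : ∀ d, w' (e d) = w d) :
    (H10 c w).map (tivH ℂ H).toLinearMap = H10 c' w' := by
  unfold H10
  rw [← tiv_holZ H hw, ← Submodule.map_comp, ← Submodule.map_comp]
  rfl

theorem tiv_cplx {e : D ≃ D'} (H : TivIso c c' e) (P : Submodule ℝ (H1 ℝ c)) :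
    (cplx P).map (tivH ℂ H).toLinearMap = cplx (P.map (tivH ℝ H).toLinearMap) := by
  unfold cplx
  rw [Submodule.map_span]
  congr 1
  ext x
  constructor
  · rintro ⟨_, ⟨u, hu, rfl⟩, rfl⟩
    exact ⟨tivZ ℝ H u, ⟨_, hu, rfl⟩, rfl⟩
  · rintro ⟨u', ⟨y, hy, hyu⟩, rfl⟩
    refine ⟨_, ⟨(tivZ ℝ H).symm u', ?_, rfl⟩, ?_⟩
    · have : y = (B1 ℝ c).mkQ ((tivZ ℝ H).symm u') := by
        apply (tivH ℝ H).injective
        rw [tivH_mk, LinearEquiv.apply_symm_apply]
        exact hyu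
      rw [← this]
      exact hy
    · change tivH ℂ H ((B1 ℂ c).mkQ _) = _
      rw [tivH_mk]
      congr 1
      apply Subtype.ext
      funext d
      change ((u'.1 (e (e.symm d)) : ℝ) : ℂ) = ((u'.1 d : ℝ) : ℂ)
      rw [Equiv.apply_symm_apply]

theorem tiv_isHT {e : D ≃ D'} (H : TivIso c c' e) {v : D → ℂ} {v' : D' → ℂ}
    (hv : ∀ d, v' (e d) = v d) (P : Submodule ℝ (H1 ℝ c)) :
    IsHT c' v' (P.map (tivH ℝ H).toLinearMap) ↔ IsHT c v P := by
  unfold IsHT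
  have e1 : Module.finrank ℝ (P.map (tivH ℝ H).toLinearMap) = Module.finrank ℝ P :=
    LinearEquiv.finrank_map_eq (tivH ℝ H) P
  rw [e1]
  refine and_congr Iff.rfl (forall_congr' fun g => ?_)
  have e2 : (H10 c' (fun d => act g (v' d)) ⊓ cplx (P.map (tivH ℝ H).toLinearMap) :
      Submodule ℂ (H1 ℂ c')) =
      (H10 c (fun d => act g (v d)) ⊓ cplx P).map (tivH ℂ H).toLinearMap := by
    rw [← tiv_cplx, ← tiv_H10 H (w := fun d => act g (v d)) (w' := fun d => act g (v' d))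
      (fun d => by rw [hv]), Submodule.map_inf]
    exact (tivH ℂ H).injective
  rw [e2, LinearEquiv.finrank_map_eq (tivH ℂ H)]

theorem tiv_taut {e : D ≃ D'} (H : TivIso c c' e) {v : D → ℂ} {v' : D' → ℂ}
    (hv : ∀ d, v' (e d) = v d) (ok : IsTS c v) (ok' : IsTS c' v') :
    (taut ok).map (tivH ℝ H).toLinearMap = taut ok' := by
  unfold taut
  rw [Submodule.map_span, Set.image_pair]
  have hv' : ∀ d, v' d = v (e.symm d) := fun d => by rw [← hv, Equiv.apply_symm_apply]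
  have e1 : tivZ ℝ H (reZ ok) = reZ ok' := by
    apply Subtype.ext
    funext d
    change (v (e.symm d)).re = (v' d).re
    rw [hv']
  have e2 : tivZ ℝ H (imZ ok) = imZ ok' := by
    apply Subtype.ext
    funext d
    change (v (e.symm d)).im = (v' d).im
    rw [hv']
  rw [← e1, ← e2]
  rfl

end

theorem onlyTaut_iso {D D' : Type} {c : Comb D} {v : D → ℂ} {c' : Comb D'} {v' : D' → ℂ}
    (ok : IsTS c v) (ok' : IsTS c' v') (H : IsIso c v c' v')
    (h : ∀ P : Submodule ℝ (H1 ℝ c), IsHT c v P ↔ P = taut ok) :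
    ∀ P : Submodule ℝ (H1 ℝ c'), IsHT c' v' P ↔ P = taut ok' := by
  obtain ⟨e, hn, ho, hv⟩ := H
  have K : TivIso c c' e := ⟨hn, ho⟩
  intro P'
  obtain ⟨P, rfl⟩ : ∃ P : Submodule ℝ (H1 ℝ c), P.map (tivH ℝ K).toLinearMap = P' :=
    ⟨P'.map (tivH ℝ K).symm.toLinearMap, by
      rw [← Submodule.map_comp]
      simp⟩
  rw [tiv_isHT K hv, h P, ← tiv_taut K hv ok ok']
  constructor
  · intro h
    rw [h]
  · intro h
    exact Submodule.map_injective_of_injective (tivH ℝ K).injective h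

end Pool.Agent.TP
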