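import Pool.Agent.Lib_helper53.TP.WDefs
import Pool.Agent.Lib_helper53.TP.B.ARF
import Pool.Agent.Lib_helper53.TP.B.ARS

namespace Pool.Agent.TP

open Set Complex Finset

theorem top_cross_smul (t : ℝ) (z w : ℂ) : cross ((t : ℂ) * z) ((t : ℂ) * w) = t ^ 2 * cross z w := by
  simp [cross]
  ring

theorem top_scale {D : Type} {c : Comb D} {v : D → ℂ} (ok : IsTS c v) (t : ℝ) (ht : 0 < t) :
    IsTS c (fun d => (t : ℂ) * v d) where
  opp_neg d := by
    rw [ok.opp_neg]; ring
  sum_zero d := by
    linear_combination (t : ℂ) * ok.sum_zero d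
  pos d := by
    rw [top_cross_smul]
    exact mul_pos (by positivity) (ok.pos d)

/-- Transport of the combinatorics. -/
def topMap {D D' : Type} (e : D ≃ D') (c : Comb D) : Comb D' where
  next x := e (c.next (e.symm x))
  opp x := e (c.opp (e.symm x))
  next3 d := by simp [c.next3]
  opp2 d := by simp [c.opp2]
  conn T hT hn ho := by
    have h := c.conn (e ⁻¹' T) (by
      obtain ⟨x, hx⟩ := hT
      exact ⟨e.symm x, by simpa using hx⟩) (by
      intro d hd
      have := hn (e d) hd
      simpa using this) (by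
      intro d hd
      have := ho (e d) hd
      simpa using this)
    ext x
    simp only [mem_univ, iff_true]
    have : e.symm x ∈ e ⁻¹' T := by rw [h]; trivial
    simpa using this

theorem topMap_next {D D' : Type} (e : D ≃ D') (c : Comb D) (x : D') :
    (topMap e c).next x = e (c.next (e.symm x)) := rfl

theorem topMap_opp {D D' : Type} (e : D ≃ D') (c : Comb D) (x : D') :
    (topMap e c).opp x = e (c.opp (e.symm x)) := rfl

theorem topMap_ok {D D' : Type} (e : D ≃ D') {c : Comb D} {v : D → ℂ} (ok : IsTS c v) :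
    IsTS (topMap e c) (fun x => v (e.symm x)) where
  opp_neg d := by simp [topMap_opp, ok.opp_neg]
  sum_zero d := by
    simp only [topMap_next, Equiv.symm_apply_apply]
    exact ok.sum_zero _
  pos d := by
    simp only [topMap_next, Equiv.symm_apply_apply]
    exact ok.pos _

theorem top_area {D D' : Type} [Fintype D] [Fintype D'] {c : Comb D} {c' : Comb D'} {v : D → ℂ}
    {v' : D' → ℂ} (e : D ≃ D') (hn : ∀ d, c'.next (e d) = e (c.next d)) (s : ℝ)
    (hv : ∀ d, v' (e d) = (s : ℂ) * v d) : area c' v' = s ^ 2 * area c v := by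
  unfold area
  rw [← Equiv.sum_comp e]
  simp only [hn, hv, top_cross_smul]
  rw [← Finset.mul_sum]
  ring

theorem top_area_pos {D : Type} [Fintype D] [Nonempty D] {c : Comb D} {v : D → ℂ}
    (ok : IsTS c v) : 0 < area c v := by
  unfold area
  have : 0 < ∑ d, cross (v d) (v (c.next d)) :=
    Finset.sum_pos (fun d _ => ok.pos d) Finset.univ_nonempty
  positivity

/-- The area of the relabelled surface. -/
noncomputable def topA {D : Type} {n : ℕ} (e : D ≃ Fin n) (c : Comb D) (v : D → ℂ) : ℝ :=
  area (topMap e c) (fun x => v (e.symm x))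

theorem topA_pos {D : Type} [Nonempty D] {n : ℕ} (e : D ≃ Fin n) {c : Comb D} {v : D → ℂ}
    (ok : IsTS c v) : 0 < topA e c v := by
  have : Nonempty (Fin n) := ⟨e (Classical.arbitrary D)⟩
  exact top_area_pos (topMap_ok e ok)

theorem topA_scaled {D : Type} [Nonempty D] {n : ℕ} (e : D ≃ Fin n) {c : Comb D} {v : D → ℂ}
    (ok : IsTS c v) :
    area (topMap e c) (fun x => ((1 / √(topA e c v) : ℝ) : ℂ) * v (e.symm x)) = 1 := by
  rw [top_area (c := topMap e c) (v := fun x => v (e.symm x)) (Equiv.refl _) (fun _ => rfl)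
    (1 / √(topA e c v)) (fun _ => rfl)]
  have h := topA_pos e ok
  change (1 / √(topA e c v)) ^ 2 * topA e c v = 1
  rw [div_pow, Real.sq_sqrt h.le]
  field_simp

/-- The normalised relabelled surface. -/
noncomputable def topSurf {D : Type} [Nonempty D] {n : ℕ} (e : D ≃ Fin n) (c : Comb D)
    (v : D → ℂ) (ok : IsTS c v) : Surf :=
  ⟨⟨n, topMap e c⟩, ⟨fun x => ((1 / √(topA e c v) : ℝ) : ℂ) * v (e.symm x),
    top_scale (topMap_ok e ok) _ (by have := topA_pos e ok; positivity), topA_scaled e ok⟩⟩

theorem topSurf_iso {D : Type} [Nonempty D] {n : ℕ} (e : D ≃ Fin n) (c : Comb D)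
    (v : D → ℂ) (ok : IsTS c v) :
    IsIso c (fun d => ((1 / √(topA e c v) : ℝ) : ℂ) * v d) (topSurf e c v ok).comb
      (topSurf e c v ok).vec := by
  refine ⟨e, fun d => ?_, fun d => ?_, fun d => ?_⟩
  · change e (c.next (e.symm (e d))) = e (c.next d)
    rw [Equiv.symm_apply_apply]
  · change e (c.opp (e.symm (e d))) = e (c.opp d)
    rw [Equiv.symm_apply_apply]
  · change ((1 / √(topA e c v) : ℝ) : ℂ) * v (e.symm (e d)) = _
    rw [Equiv.symm_apply_apply]

/-- TOP. -/
theorem top_norm (y : PS) : ∃ z : Surf,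
    (∃ t : ℝ, 0 < t ∧ IsIso y.c (fun d => (t : ℂ) * y.v d) z.comb z.vec) ∧ Conn y z.ps := by
  obtain ⟨D, fin, ne, c, v, ok⟩ := y
  have := fin
  have := ne
  set e := Finite.equivFin D with he
  set t : ℝ := 1 / √(topA e c v) with ht
  have ht0 : 0 < t := by have := topA_pos e ok; positivity
  refine ⟨topSurf e c v ok, ⟨t, ht0, topSurf_iso e c v ok⟩, ?_⟩
  have step1 : Conn ⟨D, fin, ne, c, v, ok⟩ ⟨D, fin, ne, c, fun d => (t : ℂ) * v d,
      top_scale ok t ht0⟩ := by
    refine Conn.path (fun s d => (((1 - s) + s * t : ℝ) : ℂ) * v d) ?_ ?_ ?_ ?_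
    · fun_prop
    · rintro s ⟨hs0, hs1⟩
      apply top_scale ok
      rcases eq_or_lt_of_le hs0 with h | h
      · rw [← h]; norm_num
      · have := mul_pos h ht0
        linarith
    · funext d; simp
    · funext d; simp
  exact step1.trans (Conn.iso (topSurf_iso e c v ok))

theorem top_mk_eq {D : Type} {c : Comb D} {v : D → ℂ} {t t' : ℝ} (ht : 0 < t) (ht' : 0 < t')
    {z z' : Surf} (h : IsIso c (fun d => (t : ℂ) * v d) z.comb z.vec)
    (h' : IsIso c (fun d => (t' : ℂ) * v d) z'.comb z'.vec) :
    (Quot.mk Elem z : Moduli) = Quot.mk Elem z' := by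
  obtain ⟨e, h1, h2, h3⟩ := h
  obtain ⟨e', h1', h2', h3'⟩ := h'
  have htc : (t : ℂ) ≠ 0 := by exact_mod_cast ht.ne'
  have hv : ∀ d, z'.vec ((e.symm.trans e') d) = ((t' / t : ℝ) : ℂ) * z.vec d := by
    intro d
    have a := h3 (e.symm d)
    have b := h3' (e.symm d)
    simp only [Equiv.apply_symm_apply] at a
    simp only [Equiv.trans_apply, b, a]
    push_cast
    field_simp
  have hn : ∀ d, z'.comb.next ((e.symm.trans e') d) = (e.symm.trans e') (z.comb.next d) := by
    intro d
    have a := h1 (e.symm d)
    have b := h1' (e.symm d)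
    simp only [Equiv.apply_symm_apply] at a
    simp only [Equiv.trans_apply, b, a, Equiv.symm_apply_apply]
  have ho : ∀ d, z'.comb.opp ((e.symm.trans e') d) = (e.symm.trans e') (z.comb.opp d) := by
    intro d
    have a := h2 (e.symm d)
    have b := h2' (e.symm d)
    simp only [Equiv.apply_symm_apply] at a
    simp only [Equiv.trans_apply, b, a, Equiv.symm_apply_apply]
  have ha := top_area (e.symm.trans e') hn _ hv
  have ha1 : area z.comb z.vec = 1 := z.2.2.2
  have ha2 : area z'.comb z'.vec = 1 := z'.2.2.2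
  rw [ha1, ha2, mul_one] at ha
  have hs : t' / t = 1 := by
    have h0 : 0 < t' / t := by positivity
    nlinarith
  apply Quot.sound
  refine Elem.iso z z' ⟨e.symm.trans e', hn, ho, fun d => ?_⟩
  rw [hv, hs]
  simp

/-- The class of the normalised surface. -/
noncomputable def topN (x : PS) : Moduli :=
  have := x.fin
  have := x.ne
  Quot.mk Elem (topSurf (Finite.equivFin x.D) x.c x.v x.ok)

theorem topN_eq (x : PS) {t : ℝ} (ht : 0 < t) {z : Surf}
    (h : IsIso x.c (fun d => (t : ℂ) * x.v d) z.comb z.vec) :
    topN x = Quot.mk Elem z := by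
  have := x.fin
  have := x.ne
  refine top_mk_eq (t := 1 / √(topA (Finite.equivFin x.D) x.c x.v)) ?_ ht
    (topSurf_iso (Finite.equivFin x.D) x.c x.v x.ok) h
  have := topA_pos (Finite.equivFin x.D) x.ok
  positivity

theorem topN_surf (x : Surf) : topN x.ps = Quot.mk Elem x := by
  refine topN_eq x.ps (t := 1) one_pos ⟨Equiv.refl _, fun _ => rfl, fun _ => rfl, fun d => ?_⟩
  change x.vec d = ((1 : ℝ) : ℂ) * x.vec d
  simp

theorem top_flip_map {D D' : Type} (e : D ≃ D') {c c' : Comb D} {v v' : D → ℂ} {d : D}
    (H : IsFlip c v d c' v') (s : ℂ) :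
    IsFlip (topMap e c) (fun x => s * v (e.symm x)) (e d) (topMap e c')
      (fun x => s * v' (e.symm x)) where
  opp_eq x := by simp [topMap_opp, H.opp_eq]
  n1 := by simp [topMap_opp, topMap_next, H.n1]
  n2 := by simp [topMap_next, H.n2]
  n3 := by simp [topMap_opp, topMap_next, H.n3]
  n4 := by simp [topMap_opp, topMap_next, H.n4]
  n5 := by simp [topMap_opp, topMap_next, H.n5]
  n6 := by simp [topMap_opp, topMap_next, H.n6]
  rest x a1 a2 a3 a4 a5 a6 := by
    simp only [topMap_next, topMap_opp, Equiv.symm_apply_apply] at *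
    rw [H.rest]
    all_goals
      intro h
      first
        | exact a1 (by rw [← h]; simp)
        | exact a2 (by rw [← h]; simp)
        | exact a3 (by rw [← h]; simp)
        | exact a4 (by rw [← h]; simp)
        | exact a5 (by rw [← h]; simp)
        | exact a6 (by rw [← h]; simp)
  vec x a1 a2 := by
    simp only [topMap_opp, Equiv.symm_apply_apply] at *
    rw [H.vec]
    all_goals
      intro h
      first
        | exact a1 (by rw [← h]; simp)
        | exact a2 (by rw [← h]; simp)

theorem top_sub_map {D D' E E' : Type} (e : D ≃ E) (e' : D' ≃ E') {c : Comb D} {v : D → ℂ} {d : D}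
    {θ : ℝ} {c' : Comb D'} {v' : D' → ℂ} {ι : D → D'} {p q m m' k k' : D'}
    (H : IsSubdiv c v d θ c' v' ι p q m m' k k') (s : ℂ) :
    IsSubdiv (topMap e c) (fun x => s * v (e.symm x)) (e d) θ (topMap e' c')
      (fun x => s * v' (e'.symm x)) (fun x => e' (ι (e.symm x))) (e' p) (e' q) (e' m) (e' m')
      (e' k) (e' k') where
  inj x y h := by
    have h1 := H.inj (e'.injective h)
    exact e.symm.injective h1
  cover x := by
    rcases H.cover (e'.symm x) with ⟨a, ha⟩ | h | h | h | h | h | h
    · left
      exact ⟨e a, by simp [ha]⟩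
    · right; left; rw [← h]; simp
    · right; right; left; rw [← h]; simp
    · right; right; right; left; rw [← h]; simp
    · right; right; right; right; left; rw [← h]; simp
    · right; right; right; right; right; left; rw [← h]; simp
    · right; right; right; right; right; right; rw [← h]; simp
  fresh x := by
    have := H.fresh (e.symm x)
    simpa using this
  distinct := by
    have := (List.nodup_map_iff e'.injective).2 H.distinct
    simpa using this
  n1 := by simp [topMap_next, H.n1]
  n2 := by simp [topMap_next, H.n2]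
  n3 := by simp [topMap_next, H.n3]
  n4 := by simp [topMap_next, H.n4]
  n5 := by simp [topMap_next, H.n5]
  n6 := by simp [topMap_next, H.n6]
  n7 := by simp [topMap_opp, topMap_next, H.n7]
  n8 := by simp [topMap_opp, topMap_next, H.n8]
  n9 := by simp [topMap_opp, topMap_next, H.n9]
  n10 := by simp [topMap_opp, topMap_next, H.n10]
  n11 := by simp [topMap_opp, topMap_next, H.n11]
  n12 := by simp [topMap_next, H.n12]
  rest x a1 a2 a3 a4 a5 a6 := by
    simp only [topMap_next, topMap_opp, Equiv.symm_apply_apply] at *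
    rw [H.rest]
    all_goals
      intro h
      first
        | exact a1 (by rw [← h]; simp)
        | exact a2 (by rw [← h]; simp)
        | exact a3 (by rw [← h]; simp)
        | exact a4 (by rw [← h]; simp)
        | exact a5 (by rw [← h]; simp)
        | exact a6 (by rw [← h]; simp)
  o1 := by simp [topMap_opp, H.o1]
  o2 := by simp [topMap_opp, H.o2]
  o3 := by simp [topMap_opp, H.o3]
  o4 := by simp [topMap_opp, H.o4]
  orest x a1 a2 := by
    simp only [topMap_opp, Equiv.symm_apply_apply] at *
    rw [H.orest]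
    all_goals
      intro h
      first
        | exact a1 (by rw [← h]; simp)
        | exact a2 (by rw [← h]; simp)
  ratio := H.ratio
  vec_d := by
    simp only [Equiv.symm_apply_apply, H.vec_d]
    ring
  vec x a1 a2 := by
    simp only [topMap_opp, Equiv.symm_apply_apply] at *
    rw [H.vec]
    all_goals
      intro h
      first
        | exact a1 (by rw [← h]; simp)
        | exact a2 (by rw [← h]; simp)

theorem top_path {D : Type} [Nonempty D] {n : ℕ} (e : D ≃ Fin n) (c : Comb D) (γ : ℝ → D → ℂ)
    (hγ : Continuous γ) (ok : ∀ t ∈ Icc (0 : ℝ) 1, IsTS c (γ t)) :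
    Continuous (fun t : Icc (0 : ℝ) 1 => topSurf e c (γ t.1) (ok t.1 t.2)) := by
  have hc : Continuous (fun t : Icc (0 : ℝ) 1 => topA e c (γ t.1)) := by
    unfold topA area cross
    fun_prop
  have hr : Continuous (fun t : Icc (0 : ℝ) 1 => ((1 / √(topA e c (γ t.1)) : ℝ) : ℂ)) := by
    apply Complex.continuous_ofReal.comp
    apply Continuous.div continuous_const
    · exact Real.continuous_sqrt.comp hc
    · intro t
      have := topA_pos e (ok t.1 t.2)
      positivity
  have h2 : Continuous (fun t : Icc (0 : ℝ) 1 =>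
      (fun x : Fin n => ((1 / √(topA e c (γ t.1)) : ℝ) : ℂ) * γ t.1 (e.symm x))) := by
    apply continuous_pi
    intro x
    apply hr.mul
    fun_prop
  have h3 : Continuous (fun t : Icc (0 : ℝ) 1 =>
      (⟨(fun x : Fin n => ((1 / √(topA e c (γ t.1)) : ℝ) : ℂ) * γ t.1 (e.symm x)),
        top_scale (topMap_ok e (ok t.1 t.2)) _ (by have := topA_pos e (ok t.1 t.2); positivity),
        topA_scaled e (ok t.1 t.2)⟩ :
        {v : Fin n → ℂ // IsTS (topMap e c) v ∧ area (topMap e c) v = 1})) :=
    Continuous.subtype_mk h2 _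
  exact (continuous_sigmaMk (σ := fun σ : (Σ n : ℕ, Comb (Fin n)) =>
    {v : Fin σ.1 → ℂ // IsTS σ.2 v ∧ area σ.2 v = 1}) (i := ⟨n, topMap e c⟩)).comp h3

theorem top_step {x y : PS} (h : Step x y) :
    connectedComponent (topN x) = connectedComponent (topN y) := by
  cases h with
  | iso x y h =>
    have := y.fin
    have := y.ne
    congr 1
    obtain ⟨e, h1, h2, h3⟩ := h
    obtain ⟨f, g1, g2, g3⟩ := topSurf_iso (Finite.equivFin y.D) y.c y.v y.ok
    refine topN_eq x (t := 1 / √(topA (Finite.equivFin y.D) y.c y.v)) (by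
      have := topA_pos (Finite.equivFin y.D) y.ok
      positivity) ⟨e.trans f, fun d => ?_, fun d => ?_, fun d => ?_⟩
    · simp only [Equiv.trans_apply, g1, h1]
    · simp only [Equiv.trans_apply, g2, h2]
    · simp only [Equiv.trans_apply, g3, h3]
  | flip D fin ne c c' v v' ok ok' d h =>
    congr 1
    have := fin
    have := ne
    apply Quot.sound
    have ha : topA (Finite.equivFin D) c' v' = topA (Finite.equivFin D) c v := by
      have := top_flip_map (Finite.equivFin D) h 1
      simp only [one_mul] at this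
      exact area_flip (topMap_ok _ ok) (topMap_ok _ ok') this
    have := Elem.flip (Nat.card D) (topMap (Finite.equivFin D) c) (topMap (Finite.equivFin D) c')
      _ _ (topSurf (Finite.equivFin D) c v ok).2.2 (topSurf (Finite.equivFin D) c' v' ok').2.2
      (Finite.equivFin D d) (by
        change IsFlip _ (fun x => ((1 / √(topA (Finite.equivFin D) c v) : ℝ) : ℂ) *
          v ((Finite.equivFin D).symm x)) _ _
          (fun x => ((1 / √(topA (Finite.equivFin D) c' v') : ℝ) : ℂ) *
          v' ((Finite.equivFin D).symm x))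
        rw [ha]
        exact top_flip_map (Finite.equivFin D) h _)
    exact this
  | sub x y d θ ι p q m m' k k' h =>
    congr 1
    have := x.fin
    have := x.ne
    have := y.fin
    have := y.ne
    apply Quot.sound
    have ha : topA (Finite.equivFin y.D) y.c y.v = topA (Finite.equivFin x.D) x.c x.v := by
      have := top_sub_map (Finite.equivFin x.D) (Finite.equivFin y.D) h 1
      simp only [one_mul] at this
      exact area_sub (topMap_ok _ x.ok) (topMap_ok _ y.ok) this
    have := Elem.sub (topSurf (Finite.equivFin x.D) x.c x.v x.ok)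
      (topSurf (Finite.equivFin y.D) y.c y.v y.ok) (Finite.equivFin x.D d) θ
      (fun a => Finite.equivFin y.D (ι ((Finite.equivFin x.D).symm a)))
      (Finite.equivFin y.D p) (Finite.equivFin y.D q) (Finite.equivFin y.D m)
      (Finite.equivFin y.D m') (Finite.equivFin y.D k) (Finite.equivFin y.D k') (by
        change IsSubdiv _ (fun a => ((1 / √(topA (Finite.equivFin x.D) x.c x.v) : ℝ) : ℂ) *
          x.v ((Finite.equivFin x.D).symm a)) _ _ _
          (fun a => ((1 / √(topA (Finite.equivFin y.D) y.c y.v) : ℝ) : ℂ) *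
          y.v ((Finite.equivFin y.D).symm a)) _ _ _ _ _ _ _
        rw [ha]
        exact top_sub_map (Finite.equivFin x.D) (Finite.equivFin y.D) h _)
    exact this
  | path D fin ne c γ hγ ok =>
    have := fin
    have := ne
    have hcont := top_path (Finite.equivFin D) c γ hγ ok
    have hcont' : Continuous (fun t : Icc (0 : ℝ) 1 =>
        (Quot.mk Elem (topSurf (Finite.equivFin D) c (γ t.1) (ok t.1 t.2)) : Moduli)) :=
      continuous_quot_mk.comp hcont
    have : PreconnectedSpace (Icc (0 : ℝ) 1) :=
      Subtype.preconnectedSpace isPreconnected_Icc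
    have hpre : IsPreconnected (range (fun t : Icc (0 : ℝ) 1 =>
        (Quot.mk Elem (topSurf (Finite.equivFin D) c (γ t.1) (ok t.1 t.2)) : Moduli))) :=
      isPreconnected_range hcont'
    have m0 : topN ⟨D, fin, ne, c, γ 0, ok 0 (by simp)⟩ ∈ range (fun t : Icc (0 : ℝ) 1 =>
        (Quot.mk Elem (topSurf (Finite.equivFin D) c (γ t.1) (ok t.1 t.2)) : Moduli)) :=
      ⟨⟨0, by simp⟩, rfl⟩
    have m1 : topN ⟨D, fin, ne, c, γ 1, ok 1 (by simp)⟩ ∈ range (fun t : Icc (0 : ℝ) 1 =>
        (Quot.mk Elem (topSurf (Finite.equivFin D) c (γ t.1) (ok t.1 t.2)) : Moduli)) :=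
      ⟨⟨1, by simp⟩, rfl⟩
    exact connectedComponent_eq (hpre.subset_connectedComponent m0 m1)

/-- TOP. -/
theorem top_component (x y : Surf) (h : Conn x.ps y.ps) :
    (Quot.mk Elem y : Moduli) ∈ connectedComponent (Quot.mk Elem x : Moduli) := by
  have key : ∀ a b : PS, Conn a b → connectedComponent (topN a) = connectedComponent (topN b) := by
    intro a b hab
    induction hab with
    | rel a b h => exact top_step h
    | refl a => rfl
    | symm a b _ ih => exact ih.symm
    | trans a b c _ _ ih1 ih2 => exact ih1.trans ih2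
  have := key _ _ h
  rw [topN_surf, topN_surf] at this
  rw [this]
  exact mem_connectedComponent

end Pool.Agent.TP
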