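import Pool.Agent.Lib_helper53.TP.B.OMG

namespace Pool.Agent.TP

open Set Complex Finset

theorem twf_conj {S : Type} (h v : Equiv.Perm S) (n k : ℕ) :
    h ^ n * (v * h ^ n) ^ k = (h ^ n * v) ^ k * h ^ n := by
  induction k with
  | zero => simp
  | succ k ih =>
    rw [pow_succ', pow_succ', mul_assoc (h ^ n * v) ((h ^ n * v) ^ k) (h ^ n), ← ih]
    simp only [mul_assoc]

theorem twf_order {S : Type} (h v : Equiv.Perm S) (n : ℕ) :
    orderOf (v * h ^ n) = orderOf (h ^ n * v) := by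
  have : h ^ n * v = h ^ n * (v * h ^ n) * (h ^ n)⁻¹ := by group
  rw [this]
  exact (SemiconjBy.orderOf_eq (h ^ n) (by unfold SemiconjBy; group))

theorem twf_second {S : Type} {h v : Equiv.Perm S} {u : Pr S} {A : S → ℝ} {g : S → ℝ}
    (g1 : ∀ x, g (h x) - g x = u.1 x) (g2 : ∀ y, A y = u.2 y + g y - g (v y)) (n : ℕ) (x : S) :
    (shearN h n u).2 x = A ((h ^ n) x) + g ((v * h ^ n) x) - g x := by
  simp only [shearN]
  have e : ∑ k ∈ range n, u.1 ((h ^ k) x) = g ((h ^ n) x) - g x := by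
    have : ∀ k ∈ range n, u.1 ((h ^ k) x) = g ((h ^ (k + 1)) x) - g ((h ^ k) x) := by
      intro k _
      rw [← g1, pow_succ', Equiv.Perm.coe_mul, Function.comp_apply]
    rw [Finset.sum_congr rfl this, Finset.sum_range_sub (fun k => g ((h ^ k) x)), pow_zero,
      Equiv.Perm.one_apply]
  rw [e, g2, Equiv.Perm.coe_mul, Function.comp_apply]
  ring

theorem om_shear_tw {S : Type} [Fintype S] {h v : Equiv.Perm S} {u w : Pr S} {A A' : S → ℝ}
    (hA : IsA h v u A) (hA' : IsA h v w A') (n : ℕ) :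
    om h (v * h ^ n) (shearN h n u) (twV (v * h ^ n) (shearN h n w)) =
      -(orderOf (v * h ^ n) * GG (h ^ n * v) A A') := by
  obtain ⟨g, g1, g2⟩ := hA
  obtain ⟨g', g1', g2'⟩ := hA'
  rw [om_twV]
  congr 1
  set T := v * h ^ n with hT
  have hL : 0 < orderOf T := orderOf_pos T
  have hL' : (orderOf T : ℝ) ≠ 0 := by exact_mod_cast hL.ne'
  have e1 : ∀ x, ∑ k ∈ range (orderOf T), (shearN h n w).2 ((T ^ k) x) =
      ∑ k ∈ range (orderOf T), A' (((h ^ n * v) ^ k) ((h ^ n) x)) := by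
    intro x
    have : ∀ k ∈ range (orderOf T), (shearN h n w).2 ((T ^ k) x) =
        A' (((h ^ n * v) ^ k) ((h ^ n) x)) + (g' ((T ^ (k + 1)) x) - g' ((T ^ k) x)) := by
      intro k _
      have c := twf_conj h v n k
      rw [← hT] at c
      have c' : (h ^ n) ((T ^ k) x) = ((h ^ n * v) ^ k) ((h ^ n) x) := DFunLike.congr_fun c x
      have t : T ((T ^ k) x) = (T ^ (k + 1)) x := by rw [pow_succ']; rfl
      have e := twf_second g1' g2' n ((T ^ k) x)
      rw [← hT, c', t] at e
      rw [e]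
      ring
    rw [Finset.sum_congr rfl this, Finset.sum_add_distrib,
      Finset.sum_range_sub (fun k => g' ((T ^ k) x)), pow_orderOf_eq_one, pow_zero, sub_self,
      add_zero]
  set F : S → ℝ := fun x => ∑ k ∈ range (orderOf T), (shearN h n w).2 ((T ^ k) x) with hF
  have hFT : ∀ x, F (T x) = F x := fun x => omg_shift T (shearN h n w).2 x
  have e2 : ∑ x, (shearN h n u).2 x * F x = ∑ x, A ((h ^ n) x) * F x := by
    have : ∀ x, (shearN h n u).2 x * F x =
        A ((h ^ n) x) * F x + (g (T x) * F (T x) - g x * F x) := by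
      intro x
      rw [twf_second g1 g2, ← hT, hFT]
      ring
    rw [Finset.sum_congr rfl fun x _ => this x, Finset.sum_add_distrib, Finset.sum_sub_distrib,
      Equiv.sum_comp T (fun x => g x * F x)]
    ring
  change ∑ x, (shearN h n u).2 x * F x = _
  rw [e2]
  have e3 : ∀ x, A ((h ^ n) x) * F x =
      (fun y => A y * ∑ k ∈ range (orderOf T), A' (((h ^ n * v) ^ k) y)) ((h ^ n) x) := by
    intro x
    simp only [hF, e1]
  rw [Finset.sum_congr rfl fun x _ => e3 x,
    Equiv.sum_comp (h ^ n) (fun y => A y * ∑ k ∈ range (orderOf T), A' (((h ^ n * v) ^ k) y))]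
  unfold GG avg
  rw [Finset.mul_sum, ← twf_order h v n, ← hT]
  refine Finset.sum_congr rfl fun y _ => ?_
  field_simp

end Pool.Agent.TP
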