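import Pool.Agent.Lib_helper53.TP.WDefs
import Pool.Agent.Lib_helper53.TP.B.SBE

/-!
# UHR: horizontal darts of length one
-/

namespace Pool.Agent.TP

open Set Complex Finset

/-- The three darts of a triangle are distinct, and `opp d` is not in the triangle of `d`. -/
theorem uhr_opp_ne {D : Type} {c : Comb D} {v : D → ℂ} (ok : IsTS c v) (x : D) :
    c.opp x ≠ x := by
  intro hx
  have h := ok.opp_neg x
  have hp := ok.pos x
  rw [hx] at h
  have h1 := congrArg Complex.re h
  have h2 := congrArg Complex.im h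
  simp only [Complex.neg_re, Complex.neg_im] at h1 h2
  have e1 : (v x).re = 0 := by linarith
  have e2 : (v x).im = 0 := by linarith
  simp only [cross, e1, e2] at hp
  simp at hp

theorem uhr_equiv {D D' : Type} {c : Comb D}
    {v : D → ℂ} {d : D} {θ : ℝ}
    {c' : Comb D'} {v' : D' → ℂ} {ι : D → D'} {p q m m' k k' : D'}
    (H : IsSubdiv c v d θ c' v' ι p q m m' k k') :
    Function.Bijective (Sum.elim ι ![p, q, m, m', k, k'] : D ⊕ Fin 6 → D') := by
  have hd := H.distinct
  constructor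
  · rintro (x | i) (y | j) hxy
    · exact congrArg _ (H.inj hxy)
    · exfalso
      have hf := H.fresh x
      fin_cases j <;> simp at hxy <;> simp_all
    · exfalso
      have hf := H.fresh y
      fin_cases i <;> simp at hxy <;> simp_all
    · refine congrArg _ ?_
      simp only [Sum.elim_inr] at hxy
      simp only [List.nodup_cons, List.mem_cons, List.not_mem_nil, or_false, not_or] at hd
      obtain ⟨⟨h1, h2, h3, h4, h5⟩, ⟨h6, h7, h8, h9⟩, ⟨h10, h11, h12⟩, ⟨h13, h14⟩, h15, -⟩ := hd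
      fin_cases i <;> fin_cases j <;> simp at hxy <;> first | rfl | (exfalso; simp_all)
  · intro x
    rcases H.cover x with ⟨y, rfl⟩ | rfl | rfl | rfl | rfl | rfl | rfl
    · exact ⟨Sum.inl y, rfl⟩
    · exact ⟨Sum.inr 0, rfl⟩
    · exact ⟨Sum.inr 1, rfl⟩
    · exact ⟨Sum.inr 2, rfl⟩
    · exact ⟨Sum.inr 3, rfl⟩
    · exact ⟨Sum.inr 4, rfl⟩
    · exact ⟨Sum.inr 5, rfl⟩

theorem uhr_sum {D D' : Type} [Fintype D] [Fintype D'] {c : Comb D} {v : D → ℂ} {d : D} {θ : ℝ}
    {c' : Comb D'} {v' : D' → ℂ} {ι : D → D'} {p q m m' k k' : D'}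
    (H : IsSubdiv c v d θ c' v' ι p q m m' k k') (f : D' → ℝ) :
    ∑ x, f x = ∑ x, f (ι x) + (f p + f q + f m + f m' + f k + f k') := by
  rw [← (Equiv.ofBijective _ (uhr_equiv H)).sum_comp, Fintype.sum_sum_type]
  simp [Fin.sum_univ_succ]
  ring

/-- Coordinates: integral real part, imaginary part `0`, `1` or `-1`. -/
def uhrGood (z : ℂ) : Prop := (∃ m : ℤ, z.re = m) ∧ (z.im = 0 ∨ z.im = 1 ∨ z.im = -1)

open Classical in
/-- The excess length of a horizontal vector. -/
noncomputable def uhrW (z : ℂ) : ℝ := if z.im = 0 then |z.re| - 1 else 0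

theorem uhr_neg {z : ℂ} (h : uhrGood z) : uhrGood (-z) := by
  obtain ⟨⟨m, hm⟩, h⟩ := h
  refine ⟨⟨-m, by simp [hm]⟩, ?_⟩
  rcases h with h | h | h
  · left; simp [h]
  · right; right; simp [h]
  · right; left; simp [h]

theorem uhrW_neg (z : ℂ) : uhrW (-z) = uhrW z := by
  unfold uhrW
  simp

/-- The two darts around a horizontal dart are not horizontal. -/
theorem uhr_nh {D : Type} {c : Comb D} {v : D → ℂ} (ok : IsTS c v) {d : D}
    (hd : (v d).im = 0) : (v (c.next (c.next d))).im ≠ 0 := by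
  intro h
  have hp := ok.pos (c.next (c.next d))
  rw [c.next3] at hp
  simp only [cross, hd, h] at hp
  simp at hp

theorem uhr_W_nonneg {D : Type} {c : Comb D} {v : D → ℂ} (ok : IsTS c v)
    (hx : ∀ d, uhrGood (v d)) (d : D) : 0 ≤ uhrW (v d) := by
  unfold uhrW
  split_ifs with h
  · obtain ⟨⟨m, hm⟩, -⟩ := hx d
    have hne : (v d).re ≠ 0 := by
      intro h0
      have hp := ok.pos d
      simp only [cross, h, h0] at hp
      simp at hp
    rw [hm] at hne ⊢
    have hm0 : m ≠ 0 := by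
      rintro rfl
      simp at hne
    have : (1 : ℤ) ≤ |m| := Int.one_le_abs hm0
    have h2 : (1 : ℝ) ≤ |(m : ℝ)| := by exact_mod_cast this
    linarith
  · exact le_refl _

theorem uhr_key (K : ℕ) : ∀ (x : PS) [Fintype x.D], (∀ d, uhrGood (x.v d)) →
    (∑ d, uhrW (x.v d)) ≤ K → ∃ y : PS, Conn x y ∧ (∀ d, uhrGood (y.v d)) ∧
      ∀ d, (y.v d).im = 0 → (y.v d).re = 1 ∨ (y.v d).re = -1 := by
  classical
  induction K with
  | zero =>
    intro x _ hx hK
    refine ⟨x, Conn.refl x, hx, fun d hd => ?_⟩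
    have h0 : ∀ d, uhrW (x.v d) = 0 := by
      have h1 : ∑ d, uhrW (x.v d) = 0 :=
        le_antisymm (by simpa using hK) (Finset.sum_nonneg fun d _ => uhr_W_nonneg x.ok hx d)
      have := (Finset.sum_eq_zero_iff_of_nonneg (fun d _ => uhr_W_nonneg x.ok hx d)).1 h1
      intro d
      exact this d (Finset.mem_univ d)
    have h := h0 d
    unfold uhrW at h
    rw [if_pos hd] at h
    have h2 : |(x.v d).re| = 1 := by linarith
    rcases abs_eq (zero_le_one) |>.1 h2 with h3 | h3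
    · exact Or.inl h3
    · exact Or.inr h3
  | succ K ih =>
    intro x _ hx hK
    by_cases hall : ∀ d, (x.v d).im = 0 → (x.v d).re = 1 ∨ (x.v d).re = -1
    · exact ⟨x, Conn.refl x, hx, hall⟩
    push Not at hall
    obtain ⟨d, hd, hr1, hr2⟩ := hall
    obtain ⟨m0, hm0⟩ := (hx d).1
    have hd0 := uhr_W_nonneg x.ok hx d
    unfold uhrW at hd0
    rw [if_pos hd, hm0] at hd0
    have habs : (1 : ℝ) ≤ |(m0 : ℝ)| := by linarith
    have habsZ : (1 : ℤ) ≤ |m0| := by exact_mod_cast habs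
    rw [hm0] at hr1 hr2
    have hr1' : m0 ≠ 1 := by rintro rfl; simp at hr1
    have hr2' : m0 ≠ -1 := by rintro rfl; simp at hr2
    have habs2 : (2 : ℤ) ≤ |m0| := by
      rcases abs_cases m0 with h | h <;> omega
    have habs2R : (2 : ℝ) ≤ |(m0 : ℝ)| := by exact_mod_cast habs2
    set θ : ℝ := 1 / |(m0 : ℝ)| with hθ
    have hpos : (0 : ℝ) < |(m0 : ℝ)| := by linarith
    have h0 : 0 < θ := by positivity
    have h1 : θ < 1 := by
      rw [hθ, div_lt_one hpos]; linarith
    have hθm : θ * |(m0 : ℝ)| = 1 := by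
      rw [hθ]; field_simp
    obtain ⟨y, ι, p, q, m, m', k, k', H⟩ := sub_exists x d θ h0 h1
    have hc : Conn x y := Conn.of (Step.sub x y d θ ι p q m m' k k' H)
    obtain ⟨v1, v2, v3, v4, v5, v6, v7⟩ := subdiv_vec x.ok y.ok H
    have vd := H.vec_d
    -- the sign
    obtain ⟨s, hs, hms⟩ : ∃ s : ℤ, (s = 1 ∨ s = -1) ∧ (m0 : ℝ) = s * |(m0 : ℝ)| := by
      rcases abs_cases (m0 : ℝ) with h | h
      · exact ⟨1, Or.inl rfl, by rw [h.1]; simp⟩
      · exact ⟨-1, Or.inr rfl, by rw [h.1]; simp⟩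
    have hθm0 : θ * (m0 : ℝ) = s := by
      rw [hms]
      calc θ * (s * |(m0 : ℝ)|) = s * (θ * |(m0 : ℝ)|) := by ring
        _ = s := by rw [hθm, mul_one]
    have hvd : x.v d = ((m0 : ℝ) : ℂ) := by
      apply Complex.ext
      · simp [hm0]
      · simp [hd]
    have w1 : (θ : ℂ) * x.v d = ((s : ℤ) : ℂ) := by
      rw [hvd]
      have := congrArg (fun t : ℝ => (t : ℂ)) hθm0
      simpa using this
    have w2 : ((1 - θ : ℝ) : ℂ) * x.v d = ((m0 - s : ℤ) : ℂ) := by
      have : ((1 - θ : ℝ) : ℂ) * x.v d = x.v d - (θ : ℂ) * x.v d := by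
        push_cast; ring
      rw [this, w1, hvd]
      push_cast; ring
    rw [w1] at vd v2 v4 v5
    rw [w2] at v1 v3 v6 v7
    have n2 := uhr_nh x.ok hd
    have hde : (x.v (x.c.opp d)).im = 0 := by rw [x.ok.opp_neg]; simp [hd]
    have n3 := uhr_nh x.ok hde
    have good2 := hx (x.c.next (x.c.next d))
    have good3 := hx (x.c.next (x.c.next (x.c.opp d)))
    have gsub : ∀ (a : ℤ) (z : ℂ), uhrGood z → uhrGood ((a : ℂ) + z) := by
      rintro a z ⟨⟨l, hl⟩, hz⟩
      refine ⟨⟨a + l, by simp [hl]⟩, by simpa using hz⟩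
    have gint : ∀ a : ℤ, uhrGood (a : ℂ) := fun a => ⟨⟨a, by simp⟩, by simp⟩
    have Wn : ∀ z : ℂ, z.im ≠ 0 → uhrW z = 0 := by
      intro z hz
      unfold uhrW
      rw [if_neg hz]
    have Wi : ∀ a : ℤ, uhrW (a : ℂ) = |(a : ℝ)| - 1 := by
      intro a
      unfold uhrW
      rw [if_pos (by simp)]
      simp
    have hgood : ∀ z, uhrGood (y.v z) := by
      intro z
      rcases H.cover z with ⟨w, rfl⟩ | rfl | rfl | rfl | rfl | rfl | rfl
      · by_cases e1 : w = d
        · rw [e1, vd]; exact gint _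
        by_cases e2 : w = x.c.opp d
        · rw [e2, v3]; exact uhr_neg (gint _)
        · rw [H.vec w e1 e2]; exact hx w
      · rw [v1]; exact gint _
      · rw [v2]; exact uhr_neg (gint _)
      · rw [v4]
        have := uhr_neg (gsub s _ good2)
        rwa [neg_add, ← sub_eq_add_neg] at this
      · rw [v5]; exact gsub _ _ good2
      · rw [v6, sub_eq_add_neg]; exact gsub _ _ (uhr_neg good3)
      · rw [v7, sub_eq_add_neg, add_comm]
        have := gsub (-(m0 - s)) _ good3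
        simpa using this
    have : Fintype y.D := by
      have := y.fin
      exact Fintype.ofFinite _
    have hWm : uhrW (y.v m) = 0 := by
      apply Wn
      rw [v4]
      simpa using n2
    have hWm' : uhrW (y.v m') = 0 := by
      apply Wn
      rw [v5]
      simpa using n2
    have hWk : uhrW (y.v k) = 0 := by
      apply Wn
      rw [v6]
      simpa using n3
    have hWk' : uhrW (y.v k') = 0 := by
      apply Wn
      rw [v7]
      simpa using n3
    have habss : |(s : ℝ)| = 1 := by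
      rcases hs with rfl | rfl <;> simp
    have hWq : uhrW (y.v q) = 0 := by
      rw [v2, uhrW_neg, Wi, habss]; ring
    have hms2 : |((m0 - s : ℤ) : ℝ)| = |(m0 : ℝ)| - 1 := by
      have e : ((m0 - s : ℤ) : ℝ) = s * (|(m0 : ℝ)| - 1) := by
        push_cast
        rw [mul_sub, ← hms, mul_one]
      rw [e, abs_mul, habss, one_mul, abs_of_nonneg (by linarith)]
    have hWp : uhrW (y.v p) = |(m0 : ℝ)| - 2 := by
      rw [v1, Wi, hms2]; ring
    have hWd : uhrW (y.v (ι d)) = 0 := by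
      rw [vd, Wi, habss]; ring
    have hWe : uhrW (y.v (ι (x.c.opp d))) = |(m0 : ℝ)| - 2 := by
      rw [v3, uhrW_neg, Wi, hms2]; ring
    have hWd0 : uhrW (x.v d) = |(m0 : ℝ)| - 1 := by
      unfold uhrW
      rw [if_pos hd, hm0]
    have hWe0 : uhrW (x.v (x.c.opp d)) = |(m0 : ℝ)| - 1 := by
      rw [x.ok.opp_neg, uhrW_neg, hWd0]
    have hne := uhr_opp_ne x.ok d
    have hsum : ∑ z, (uhrW (x.v z) - uhrW (y.v (ι z))) =
        ∑ z ∈ ({d, x.c.opp d} : Finset x.D), (uhrW (x.v z) - uhrW (y.v (ι z))) := by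
      symm
      apply Finset.sum_subset (Finset.subset_univ _)
      intro z _ hz
      simp only [Finset.mem_insert, Finset.mem_singleton, not_or] at hz
      rw [H.vec z hz.1 hz.2]; ring
    rw [Finset.sum_pair (Ne.symm hne), Finset.sum_sub_distrib, hWd, hWe, hWd0, hWe0] at hsum
    obtain ⟨z, hz1, hz2, hz3⟩ := ih y hgood (by
      rw [uhr_sum H (fun z => uhrW (y.v z))]
      simp only [hWm, hWm', hWk, hWk', hWq, hWp]
      push_cast at hK
      linarith)
    exact ⟨z, hc.trans hz1, hz2, hz3⟩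

/-- UHR (cites SBE). -/
theorem unit_hor (x : PS) (hx : ∀ d, (∃ m : ℤ, (x.v d).re = m) ∧
      ((x.v d).im = 0 ∨ (x.v d).im = 1 ∨ (x.v d).im = -1)) :
    ∃ y : PS, Conn x y ∧ (∀ d, (∃ m : ℤ, (y.v d).re = m) ∧
      ((y.v d).im = 0 ∨ (y.v d).im = 1 ∨ (y.v d).im = -1)) ∧
      ∀ d, (y.v d).im = 0 → (y.v d).re = 1 ∨ (y.v d).re = -1 := by
  have := x.fin
  have := Fintype.ofFinite x.D
  obtain ⟨K, hK⟩ := exists_nat_ge (∑ d, uhrW (x.v d))
  exact uhr_key K x hx hK

end Pool.Agent.TP
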